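import Pool.Agent.Lib.MP_640417_ag.GT.SpecL

/-!
# Theorem GT, part L: length at most 6, the pair `5, 13`
-/

set_option autoImplicit false

noncomputable section

open Finset Pool.Agent.FC

namespace Pool.Agent.FO

namespace BC1Aux

/-- if no functional of `T` detects the tuple then the sums are large -/
private lemma big (hLamB : S_LamB) (hTuL : S_TuL) {m : ℕ} [NeZero m] {ι : Type} [Fintype ι] (a : ι → ZMod m)
    (T : Finset ℕ) (hn : ¬ ChT T fun x => cnt a x - cnt a (-x)) (l : List ℕ) (q : ℕ) (hP : Pr l q)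
    (hT : ∀ p, p ∈ q :: l ↔ p ∈ T) (t : (ZMod m)ˣ) :
    (q : ℤ) - 1 ≤ 2 * |∑ i, lam l q ((t : ZMod m) * a i)| := by
  have hq : (1 : ℤ) < q := by exact_mod_cast (hP.2.1 q (by simp)).one_lt
  by_contra hlt
  apply hn
  refine ⟨q, l, t, hP, hT, fun z hz => ?_⟩
  have h1 := hTuL m ι a (fun x => lam l q ((t : ZMod m) * x)) (fun x => by
    rw [mul_neg]
    exact (hLamB l q m hP).2.2.2.1 _)
  have h2 : 2 * ∑ i, lam l q ((t : ZMod m) * a i) = ((q : ℤ) - 1) * z := h1.symm.trans hz
  have h3 : z = 0 := by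
    by_contra hz0
    have h4 : 1 ≤ |z| := Int.one_le_abs hz0
    have h5 : 2 * |∑ i, lam l q ((t : ZMod m) * a i)| = ((q : ℤ) - 1) * |z| := by
      have h6 : |2 * ∑ i, lam l q ((t : ZMod m) * a i)| = |((q : ℤ) - 1) * z| := by rw [h2]
      rw [abs_mul, abs_mul, abs_of_pos (by norm_num : (0 : ℤ) < 2),
        abs_of_pos (by linarith : (0 : ℤ) < (q : ℤ) - 1)] at h6
      exact h6
    apply hlt
    rw [h5]
    nlinarith
  rw [h3]
  exact dvd_zero 2

/-- all terms are equal to the bound -/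
private lemma alleq {ι : Type} [Fintype ι] (hc : Fintype.card ι ≤ 6) (f : ι → ℚ) (B : ℚ) (hB : 0 ≤ B)
    (h1 : ∀ i, f i ≤ B) (h2 : 6 * B ≤ ∑ i, f i) (i : ι) : f i = B := by
  have h3 : ∑ i, (B - f i) ≤ 0 := by
    rw [Finset.sum_sub_distrib, Finset.sum_const, Finset.card_univ, nsmul_eq_mul]
    have h4 : (Fintype.card ι : ℚ) ≤ 6 := by exact_mod_cast hc
    have h5 : (Fintype.card ι : ℚ) * B ≤ 6 * B := mul_le_mul_of_nonneg_right h4 hB
    linarith
  have h4 : B - f i ≤ ∑ i, (B - f i) :=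
    Finset.single_le_sum (f := fun i => B - f i) (fun j _ => sub_nonneg.2 (h1 j)) (Finset.mem_univ i)
  linarith [h1 i]

/-- the sum over the indices of a sum of Stickelberger sums is zero -/
private lemma szsum {s : ℕ} [NeZero s] {ι : Type} [Fintype ι] (b : ι → ZMod s) (hb : St b) (F : Finset (ZMod s)ˣ) :
    ∑ i, ∑ t ∈ F, sz ((t : ZMod s) * b i) = 0 := by
  rw [Finset.sum_comm]
  exact Finset.sum_eq_zero fun t _ => hb t

private lemma prA : Pr [5] 13 := by
  refine ⟨by simp, fun p hp => ?_, by norm_num, by simp⟩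
  simp only [List.mem_cons, List.not_mem_nil, or_false] at hp
  rcases hp with rfl | rfl <;> norm_num

private lemma prB : Pr [13] 5 := by
  refine ⟨by simp, fun p hp => ?_, by norm_num, by simp⟩
  simp only [List.mem_cons, List.not_mem_nil, or_false] at hp
  rcases hp with rfl | rfl <;> norm_num

end BC1Aux

open BC1Aux in
theorem pBC1 (hLamB : S_LamB) (hTuL : S_TuL) (hEqM : S_EqM) (hLow : S_Low) (hMu1 : S_Mu1) (hBd1 : S_Bd1) :
    S_BC1 := by
  intro m _ ι _ a hc ha hSt
  by_contra hn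
  have hA := big hLamB hTuL a {5, 13} hn [5] 13 prA (fun p => by
    simp only [List.mem_cons, List.not_mem_nil, or_false, Finset.mem_insert, Finset.mem_singleton]
    exact or_comm)
  have hB := big hLamB hTuL a {5, 13} hn [13] 5 prB (fun p => by
    simp only [List.mem_cons, List.not_mem_nil, or_false, Finset.mem_insert, Finset.mem_singleton])
  have hpos : ∀ i, 0 < addOrderOf (a i) := fun i => addOrderOf_pos (a i)
  have eA := hEqM [5] 13 m prA ι a hA
  have eB := hEqM [13] 5 m prB ι a hB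
  have cA : ∀ i, mu [5] 13 (addOrderOf (a i)) = 1 := alleq hc _ 1 (by norm_num)
    (fun i => (hMu1 _ (hpos i)).1) (by push_cast at eA; linarith)
  have cB : ∀ i, mu [13] 5 (addOrderOf (a i)) = 1 / 3 := alleq hc _ (1 / 3) (by norm_num)
    (fun i => (hMu1 _ (hpos i)).2.1) (by push_cast at eB; linarith)
  have ho : ∀ i, addOrderOf (a i) = 130 ∨ addOrderOf (a i) = 390 := fun i =>
    (hMu1 _ (hpos i)).2.2 (cA i) (cB i)
  obtain ⟨b, -, hSb, hob, hlb⟩ := hLow m 390 ι a ha hSt (fun i => by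
    rcases ho i with h | h
    · rw [h]; norm_num
    · rw [h])
  have h0 : (2 : ℚ) * ((∑ i, lam [5] 13 (a i) : ℤ) : ℚ) = 0 := by
    rw [Int.cast_sum, Finset.mul_sum]
    have h1 : ∀ i, (2 : ℚ) * ((lam [5] 13 (a i) : ℤ) : ℚ) =
        -∑ t ∈ univ.filter (fun t : (ZMod 390)ˣ => (t : ZMod 390).val % 5 = 1), sz ((t : ZMod 390) * b i) -
        2 * ∑ t ∈ univ.filter (fun t : (ZMod 390)ˣ => (t : ZMod 390).val % 5 = 2), sz ((t : ZMod 390) * b i) := by
      intro i
      rw [← hlb i]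
      exact hBd1 (b i) (by rw [hob i]; exact ho i)
    rw [Finset.sum_congr rfl fun i _ => h1 i, Finset.sum_sub_distrib, Finset.sum_neg_distrib, ← Finset.mul_sum,
      szsum b hSb, szsum b hSb]
    norm_num
  have h2 : (∑ i, lam [5] 13 (a i) : ℤ) = 0 := by
    have h3 : ((∑ i, lam [5] 13 (a i) : ℤ) : ℚ) = 0 := by linarith
    exact_mod_cast h3
  have h4 := hA 1
  rw [Units.val_one] at h4
  simp only [one_mul] at h4
  rw [h2] at h4
  norm_num at h4

end Pool.Agent.FO
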