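import Pool.Agent.Lib.MP_640417_ag.GT.SpecL

/-!
# Theorem GT (parity functionals), part L: the set `2, 3, 5, 7` (helper80)
-/

set_option autoImplicit false

noncomputable section

namespace Pool.Agent.FO

open Finset Pool.Agent.FC

namespace GBC3Aux

theorem key (hLamB : S_LamB) (hTuL : S_TuL) {m : ℕ} [NeZero m] {ι : Type} [Fintype ι]
    {a : ι → ZMod m} {T : Finset ℕ} (hn : ¬ ChT T fun x => cnt a x - cnt a (-x)) {l : List ℕ}
    {q : ℕ} (hp : Pr l q) (hm : ∀ p, p ∈ q :: l ↔ p ∈ T) (t : (ZMod m)ˣ) :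
    ∃ z : ℤ, ¬ (2 : ℤ) ∣ z ∧ 2 * ∑ i, lam l q ((t : ZMod m) * a i) = ((q : ℤ) - 1) * z := by
  unfold ChT at hn
  push Not at hn
  obtain ⟨z, hz, hz2⟩ := hn q l t hp hm
  refine ⟨z, hz2, ?_⟩
  have h := hTuL m ι a (fun x => lam l q ((t : ZMod m) * x)) (fun x => by
    change lam l q ((t : ZMod m) * -x) = -lam l q ((t : ZMod m) * x)
    rw [mul_neg]
    exact (hLamB l q m hp).2.2.2.1 _)
  rw [← h]
  exact hz

theorem mean (hLamB : S_LamB) (hTuL : S_TuL) (hEqM : S_EqM) {m : ℕ} [NeZero m] {ι : Type}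
    [Fintype ι] {a : ι → ZMod m} {T : Finset ℕ} (hn : ¬ ChT T fun x => cnt a x - cnt a (-x))
    {l : List ℕ} {q : ℕ} (hp : Pr l q) (hm : ∀ p, p ∈ q :: l ↔ p ∈ T) :
    (q : ℚ) - 1 ≤ 2 * ∑ i, mu l q (addOrderOf (a i)) := by
  refine hEqM l q m hp ι a fun t => ?_
  obtain ⟨z, hz2, hz⟩ := key hLamB hTuL hn hp hm t
  have hz0 : z ≠ 0 := fun h => hz2 (by rw [h]; exact dvd_zero 2)
  have hq : (0 : ℤ) ≤ (q : ℤ) - 1 := by
    have : 1 ≤ q := (hp.2.1 q (List.mem_cons_self ..)).one_lt.le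
    omega
  have h1 : 2 * |∑ i, lam l q ((t : ZMod m) * a i)| = ((q : ℤ) - 1) * |z| := by
    rw [← abs_of_nonneg hq, ← abs_mul, ← hz, abs_mul, abs_of_nonneg (show (0 : ℤ) ≤ 2 by norm_num)]
  rw [h1]
  exact le_mul_of_one_le_right hq (Int.one_le_abs hz0)

theorem mem3 {p q r : ℕ} (hp : p.Prime) (hq : q.Prime) (hr : r.Prime) : ∀ s ∈ [p, q, r], s.Prime := by
  intro s hs
  simp only [List.mem_cons, List.not_mem_nil, or_false] at hs
  rcases hs with rfl | rfl | rfl <;> assumption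

theorem prA : Pr [2, 3, 5] 7 := by
  refine ⟨by decide, ?_, by decide, by decide⟩
  intro p hp
  rcases List.mem_cons.1 hp with rfl | hp
  · norm_num
  · exact mem3 Nat.prime_two Nat.prime_three Nat.prime_five p hp

theorem prB : Pr [2, 3, 7] 5 := by
  refine ⟨by decide, ?_, by decide, by decide⟩
  intro p hp
  rcases List.mem_cons.1 hp with rfl | hp
  · norm_num
  · exact mem3 Nat.prime_two Nat.prime_three (by norm_num) p hp

/-- Equality in the sum of at most six values. -/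
theorem eq6 {ι : Type} [Fintype ι] (f : ι → ℚ) (B : ℚ) (hB : 0 ≤ B) (hf : ∀ i, f i ≤ B)
    (hc : Fintype.card ι ≤ 6) (hs : 6 * B ≤ ∑ j, f j) (i : ι) : f i = B := by
  have h1 : ∑ j, (B - f j) ≤ 0 := by
    rw [Finset.sum_sub_distrib, Finset.sum_const, Finset.card_univ, nsmul_eq_mul]
    have h3 : (Fintype.card ι : ℚ) ≤ 6 := by exact_mod_cast hc
    nlinarith
  have h0 : ∀ j ∈ (univ : Finset ι), 0 ≤ B - f j := fun j _ => sub_nonneg.2 (hf j)
  have h2 := (Finset.sum_eq_zero_iff_of_nonneg h0).1 (le_antisymm h1 (Finset.sum_nonneg h0)) i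
    (Finset.mem_univ i)
  linarith

end GBC3Aux

open GBC3Aux in
theorem pBC3 (hLamB : S_LamB) (hTuL : S_TuL) (hEqM : S_EqM) (hLow : S_Low) (hMu3 : S_Mu3)
    (hBd3 : S_Bd3) : S_BC3 := by
  intro m _ ι _ a hc ha hSt
  by_contra hn
  have hmA : ∀ p, p ∈ 7 :: [2, 3, 5] ↔ p ∈ ({2, 3, 5, 7} : Finset ℕ) := by
    intro p
    simp only [List.mem_cons, List.not_mem_nil, or_false, Finset.mem_insert, Finset.mem_singleton]
    tauto
  have hmB : ∀ p, p ∈ 5 :: [2, 3, 7] ↔ p ∈ ({2, 3, 5, 7} : Finset ℕ) := by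
    intro p
    simp only [List.mem_cons, List.not_mem_nil, or_false, Finset.mem_insert, Finset.mem_singleton]
    tauto
  have hA := mean hLamB hTuL hEqM hn prA hmA
  have hB := mean hLamB hTuL hEqM hn prB hmB
  push_cast at hA hB
  have hpos : ∀ i, 0 < addOrderOf (a i) := fun i => addOrderOf_pos (a i)
  have hord : ∀ i, addOrderOf (a i) = 420 := by
    intro i
    have h1 := eq6 (fun j => mu [2, 3, 5] 7 (addOrderOf (a j))) (1 / 2) (by norm_num)
      (fun j => (hMu3 _ (hpos j)).1) hc (by linarith) i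
    have h2 := eq6 (fun j => mu [2, 3, 7] 5 (addOrderOf (a j))) (1 / 3) (by norm_num)
      (fun j => (hMu3 _ (hpos j)).2.1) hc (by linarith) i
    exact (hMu3 _ (hpos i)).2.2 h1 h2
  obtain ⟨b, -, hbS, hbo, hbl⟩ := hLow m 420 ι a ha hSt fun i => by rw [hord i]
  obtain ⟨z, hz2, hz⟩ := key hLamB hTuL hn prA hmA 1
  have hs : ∑ i, ((lam [2, 3, 5] 7 (b i) : ℤ) : ℚ) = 0 := by
    rw [Finset.sum_congr rfl fun i _ => hBd3 (b i) (by rw [hbo i]; exact hord i)]
    rw [Finset.sum_sub_distrib, Finset.sum_neg_distrib, Finset.sum_comm,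
      Finset.sum_eq_zero fun t _ => hbS t, Finset.sum_comm, Finset.sum_eq_zero fun t _ => hbS t,
      neg_zero, sub_zero]
  have hs1 : (∑ i, lam [2, 3, 5] 7 (b i) : ℤ) = 0 := by
    have : ((∑ i, lam [2, 3, 5] 7 (b i) : ℤ) : ℚ) = 0 := by
      push_cast
      exact hs
    exact_mod_cast this
  have e : ∑ i, lam [2, 3, 5] 7 (((1 : (ZMod m)ˣ) : ZMod m) * a i) =
      ∑ i, lam [2, 3, 5] 7 (b i) :=
    Finset.sum_congr rfl fun i _ => by rw [Units.val_one, one_mul, hbl i]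
  rw [e, hs1] at hz
  apply hz2
  push_cast at hz
  have : z = 0 := by omega
  rw [this]
  exact dvd_zero 2

end Pool.Agent.FO
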