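import Pool.Agent.Lib.MP_640417_ag.GT.SpecS

/-!
# Theorem GT (parity functionals), part S: the pair `3, 29` (helper94)
-/

set_option autoImplicit false

noncomputable section

namespace Pool.Agent.FO

open Finset Pool.Agent.FC

namespace GBC4Aux

theorem key (hLamB : S_LamB) (hTuL : S_TuL) {m : ℕ} [NeZero m] {ι : Type} [Fintype ι]
    {a : ι → ZMod m} {T : Finset ℕ} (hn : ¬ ChT T fun x => cnt a x - cnt a (-x)) {l : List ℕ}
    {q : ℕ} (hp : Pr l q) (hm : ∀ p, p ∈ q :: l ↔ p ∈ T) (t : (ZMod m)ˣ) :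
    ∃ z : ℤ, ¬ (2 : ℤ) ∣ z ∧ 2 * ∑ i, lam l q ((t : ZMod m) * a i) = ((q : ℤ) - 1) * z := by
  unfold ChT at hn
  push Not at hn
  obtain ⟨z, hz, hz2⟩ := hn q l t hp hm
  refine ⟨z, hz2, ?_⟩
  have h := hTuL m ι a (fun x => lam l q ((t : ZMod m) * x)) (fun x => by
    rw [mul_neg]
    exact (hLamB l q m hp).2.2.2.1 _)
  rw [← h]
  exact hz

theorem mean (hLamB : S_LamB) (hTuL : S_TuL) (hEqM : S_EqM) {m : ℕ} [NeZero m] {ι : Type}
    [Fintype ι] {a : ι → ZMod m} {T : Finset ℕ} (hn : ¬ ChT T fun x => cnt a x - cnt a (-x))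
    {l : List ℕ} {q : ℕ} (hp : Pr l q) (hm : ∀ p, p ∈ q :: l ↔ p ∈ T) :
    (q : ℚ) - 1 ≤ 2 * ∑ i, mu l q (addOrderOf (a i)) := by
  refine hEqM l q m hp ι a fun t => ?_
  obtain ⟨z, hz2, hz⟩ := key hLamB hTuL hn hp hm t
  have hz0 : z ≠ 0 := fun h => hz2 (by rw [h]; exact dvd_zero 2)
  have hq : (0 : ℤ) ≤ (q : ℤ) - 1 := by
    have : 1 ≤ q := (hp.2.1 q (List.mem_cons_self ..)).one_lt.le
    omega
  have h1 : 2 * |∑ i, lam l q ((t : ZMod m) * a i)| = ((q : ℤ) - 1) * |z| := by
    rw [← abs_of_nonneg hq, ← abs_mul, ← hz, abs_mul, abs_of_nonneg (show (0 : ℤ) ≤ 2 by norm_num)]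
  rw [h1]
  exact le_mul_of_one_le_right hq (Int.one_le_abs hz0)

theorem prA : Pr [3] 29 := by
  refine ⟨by decide, ?_, by decide, by decide⟩
  intro p hp
  simp only [List.mem_cons, List.not_mem_nil, or_false] at hp
  rcases hp with rfl | rfl <;> norm_num

theorem prB : Pr [29] 3 := by
  refine ⟨by decide, ?_, by decide, by decide⟩
  intro p hp
  simp only [List.mem_cons, List.not_mem_nil, or_false] at hp
  rcases hp with rfl | rfl <;> norm_num

/-- Squares of primes in the orders of two elements. -/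
theorem tr {m : ℕ} (p k : ℕ) (hp : p.Prime) (hpk : ¬ p ∣ k) (b b' : ZMod m)
    (h : (p * k) • (b + b') = 0) (hb : p ^ 2 ∣ addOrderOf b) : p ^ 2 ∣ addOrderOf b' := by
  by_contra hn
  have hb'0 : addOrderOf b' • b' = 0 := addOrderOf_nsmul_eq_zero b'
  have fin : ∀ n1 : ℕ, ¬ p ∣ n1 → (p * (k * n1)) • b = 0 → False := by
    intro n1 hn1 h3
    have h4 := hb.trans (addOrderOf_dvd_of_nsmul_eq_zero h3)
    rw [pow_two] at h4
    rcases hp.dvd_mul.1 (Nat.dvd_of_mul_dvd_mul_left hp.pos h4) with h5 | h5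
    · exact hpk h5
    · exact hn1 h5
  by_cases h1 : p ∣ addOrderOf b'
  · obtain ⟨n1, hn1⟩ := h1
    refine fin n1 (fun h3 => hn (by rw [hn1, pow_two]; exact Nat.mul_dvd_mul_left p h3)) ?_
    have e : (p * (k * n1)) • b = n1 • ((p * k) • (b + b')) - k • ((p * n1) • b') := by
      simp only [nsmul_eq_mul]
      push_cast
      ring
    rw [e, h, ← hn1, hb'0, smul_zero, smul_zero, sub_zero]
  · refine fin _ h1 ?_
    have e : (p * (k * addOrderOf b')) • b =
        addOrderOf b' • ((p * k) • (b + b')) - (p * k) • (addOrderOf b' • b') := by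
      simp only [nsmul_eq_mul]
      push_cast
      ring
    rw [e, h, hb'0, smul_zero, smul_zero, sub_zero]

/-- The sum of eight entries. -/
theorem sum0 {m : ℕ} [NeZero m] {ι : Type} [Fintype ι] (a : ι → ZMod m) (ha : ∀ i, a i ≠ 0)
    (hSt : St a) (hc : Fintype.card ι = 8) : ∑ i, a i = 0 := by
  have hm : (m : ℚ) ≠ 0 := by exact_mod_cast NeZero.ne m
  have h1 := hSt 1
  have h2 : ∀ i, sz (((1 : (ZMod m)ˣ) : ZMod m) * a i) = ((a i).val : ℚ) / m - 1 / 2 := by
    intro i
    rw [Units.val_one, one_mul]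
    unfold sz
    rw [if_neg (ha i)]
  rw [Finset.sum_congr rfl fun i _ => h2 i, Finset.sum_sub_distrib, ← Finset.sum_div, Finset.sum_const,
    Finset.card_univ, hc] at h1
  have h3 : (∑ i, ((a i).val : ℚ)) = 4 * m := by
    field_simp at h1
    rw [nsmul_eq_mul] at h1
    push_cast at h1
    linarith
  have h4 : ∑ i, (a i).val = 4 * m := by exact_mod_cast h3
  have h5 : ((∑ i, (a i).val : ℕ) : ZMod m) = ∑ i, a i := by
    rw [Nat.cast_sum]
    exact Finset.sum_congr rfl fun i _ => ZMod.natCast_zmod_val (a i)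
  rw [← h5, h4]
  push_cast
  rw [ZMod.natCast_self, mul_zero]

/-- There is only one element of order two. -/
theorem two {m : ℕ} [NeZero m] {x y : ZMod m} (hx : x ≠ 0) (hx2 : 2 • x = 0) (hy : y ≠ 0)
    (hy2 : 2 • y = 0) : x = y := by
  have key : ∀ x : ZMod m, x ≠ 0 → 2 • x = 0 → 2 * x.val = m := by
    intro x hx h
    have h1 : ((2 * x.val : ℕ) : ZMod m) = 0 := by
      push_cast
      rw [ZMod.natCast_zmod_val, ← h, nsmul_eq_mul]
      push_cast
      rfl
    rw [ZMod.natCast_eq_zero_iff] at h1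
    have h2 : x.val < m := ZMod.val_lt x
    have h3 : x.val ≠ 0 := fun h4 => hx ((ZMod.val_eq_zero x).1 h4)
    obtain ⟨c, hc⟩ := h1
    have hc2 : c < 2 := by
      by_contra h5
      push Not at h5
      have := Nat.mul_le_mul_left m h5
      omega
    have hc0 : c ≠ 0 := by
      rintro rfl
      omega
    have : c = 1 := by omega
    rw [this, mul_one] at hc
    exact hc
  have h1 := key x hx hx2
  have h2 := key y hy hy2
  exact ZMod.val_injective m (by omega)

/-- The nonnegative summands. -/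
theorem pair {ι : Type} [Fintype ι] [DecidableEq ι] (f : ι → ℚ) (hf : ∀ i, f i ≤ 2) (hc : Fintype.card ι = 8)
    (hs : 14 ≤ ∑ j, f j) {x y : ι} (hxy : x ≠ y) : 2 ≤ f x + f y := by
  have h1 : ∑ j ∈ ({x, y} : Finset ι), (2 - f j) ≤ ∑ j, (2 - f j) :=
    Finset.sum_le_univ_sum_of_nonneg fun j => sub_nonneg.2 (hf j)
  rw [Finset.sum_pair hxy, Finset.sum_sub_distrib, Finset.sum_const, Finset.card_univ, hc, nsmul_eq_mul] at h1
  push_cast at h1
  linarith

/-- The sum of `sA` over a tuple. -/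
theorem sumA {ι : Type} [Fintype ι] (b : ι → ZMod 1740) (hb : St b) : ∑ i, sA (b i) = 0 := by
  unfold sA
  rw [Finset.sum_comm]
  exact Finset.sum_eq_zero fun t _ => hb t

end GBC4Aux

open GBC4Aux in
theorem pBC4 (hLamB : S_LamB) (hTuL : S_TuL) (hEqM : S_EqM) (hLow : S_Low) (hMu4 : S_Mu4)
    (hBd4 : S_Bd4) : S_BC4 := by
  classical
  intro m _ ι _ a hc ha hSt
  by_contra hn
  have hmA : ∀ p, p ∈ 29 :: [3] ↔ p ∈ ({3, 29} : Finset ℕ) := by
    intro p
    simp only [List.mem_cons, List.not_mem_nil, or_false, Finset.mem_insert, Finset.mem_singleton]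
    tauto
  have hmB : ∀ p, p ∈ 3 :: [29] ↔ p ∈ ({3, 29} : Finset ℕ) := by
    intro p
    simp only [List.mem_cons, List.not_mem_nil, or_false, Finset.mem_insert, Finset.mem_singleton]
  have hA := mean hLamB hTuL hEqM hn prA hmA
  have hB := mean hLamB hTuL hEqM hn prB hmB
  push_cast at hA hB
  have hpos : ∀ i, 0 < addOrderOf (a i) := fun i => addOrderOf_pos (a i)
  set c : ι → ℚ := fun i => mu [3] 29 (addOrderOf (a i)) with hcdef
  set D : ι → ℚ := fun i => 14 * mu [29] 3 (addOrderOf (a i)) with hDdef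
  have hM : ∀ i, c i ≤ 2 ∧ D i ≤ 2 ∧ (9 ∣ addOrderOf (a i) → 3 * c i ≤ 2) ∧
      (841 ∣ addOrderOf (a i) → 29 * D i ≤ 2) ∧
      (addOrderOf (a i) ≠ 174 → ¬ 9 ∣ addOrderOf (a i) → ¬ 841 ∣ addOrderOf (a i) → c i ≤ 1 ∧ D i ≤ 1 ∧
        (c i = 1 → addOrderOf (a i) = 87 ∨ addOrderOf (a i) = 348 ∨ addOrderOf (a i) = 870)) :=
    fun i => hMu4 _ (hpos i)
  have hcs : 14 ≤ ∑ i, c i := by
    have e : ∑ i, c i = ∑ i, mu [3] 29 (addOrderOf (a i)) := rfl
    rw [e]
    linarith
  have hDs : 14 ≤ ∑ i, D i := by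
    have e : ∑ i, D i = 14 * ∑ i, mu [29] 3 (addOrderOf (a i)) := by rw [Finset.mul_sum]
    rw [e]
    linarith
  obtain ⟨z, hz2, hz⟩ := key hLamB hTuL hn prA hmA 1
  rw [Finset.sum_congr rfl fun i (_ : i ∈ univ) => by rw [Units.val_one, one_mul]] at hz
  push_cast at hz
  -- all orders are good
  have good : (∀ i, addOrderOf (a i) = 174 ∨ addOrderOf (a i) = 87 ∨ addOrderOf (a i) = 348 ∨
      addOrderOf (a i) = 870) → False := by
    intro hord
    obtain ⟨b, -, hbS, hbo, hbl⟩ := hLow m 1740 ι a ha hSt fun i => by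
      rcases hord i with h | h | h | h <;> rw [h] <;> norm_num
    have hs : ∑ i, ((8 : ℚ) * lam [3] 29 (b i)) = 0 := by
      rw [Finset.sum_congr rfl fun i _ => (hBd4 (b i)).1 (by rw [hbo i]; exact hord i)]
      rw [← Finset.mul_sum, sumA b hbS, mul_zero]
    rw [← Finset.mul_sum] at hs
    have hs1 : (∑ i, lam [3] 29 (b i) : ℤ) = 0 := by
      have : ((∑ i, lam [3] 29 (b i) : ℤ) : ℚ) = 0 := by
        push_cast
        linarith
      exact_mod_cast this
    rw [Finset.sum_congr rfl fun i _ => (hbl i [3] 29).symm, hs1] at hz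
    apply hz2
    have : z = 0 := by omega
    rw [this]
    exact dvd_zero 2
  -- the weights
  set w : ι → ℚ := fun i => 3 / 4 * (2 - c i) + 29 / 56 * (2 - D i) with hwdef
  have hw0 : ∀ i, 0 ≤ w i := by
    intro i
    obtain ⟨h1, h2, -⟩ := hM i
    simp only [hwdef]
    linarith
  have hw1 : ∀ i, addOrderOf (a i) ≠ 174 → 1 ≤ w i := by
    intro i hi
    obtain ⟨h1, h2, h3, h4, h5⟩ := hM i
    simp only [hwdef]
    by_cases h9 : 9 ∣ addOrderOf (a i)
    · have := h3 h9
      linarith
    by_cases h8 : 841 ∣ addOrderOf (a i)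
    · have := h4 h8
      linarith
    obtain ⟨h6, h7, -⟩ := h5 hi h9 h8
    linarith
  have hwsum : ∑ i, w i ≤ 71 / 56 * (2 * (Fintype.card ι : ℚ) - 14) := by
    have e : ∑ i, w i = 3 / 4 * (2 * (Fintype.card ι : ℚ) - ∑ i, c i) + 29 / 56 * (2 * (Fintype.card ι : ℚ) - ∑ i, D i) := by
      simp only [hwdef]
      rw [Finset.sum_add_distrib, ← Finset.mul_sum, ← Finset.mul_sum, Finset.sum_sub_distrib,
        Finset.sum_sub_distrib, Finset.sum_const, Finset.card_univ, nsmul_eq_mul]
      ring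
    rw [e]
    linarith
  set B : Finset ι := univ.filter fun i => addOrderOf (a i) ≠ 174 with hBdef
  have hBm : ∀ i, i ∈ B ↔ addOrderOf (a i) ≠ 174 := fun i => by
    rw [hBdef, Finset.mem_filter]
    exact ⟨fun h => h.2, fun h => ⟨Finset.mem_univ i, h⟩⟩
  have hBc : (B.card : ℚ) ≤ 71 / 56 * (2 * (Fintype.card ι : ℚ) - 14) := by
    have h1 : ∑ i ∈ B, (1 : ℚ) ≤ ∑ i ∈ B, w i := Finset.sum_le_sum fun i hi => hw1 i ((hBm i).1 hi)
    have h2 : ∑ i ∈ B, w i ≤ ∑ i, w i := Finset.sum_le_univ_sum_of_nonneg hw0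
    rw [Finset.sum_const, nsmul_eq_mul, mul_one] at h1
    linarith
  have hcQ : (Fintype.card ι : ℚ) ≤ 8 := by exact_mod_cast hc
  have hB3 : B.card < 3 := by
    have : (B.card : ℚ) < 3 := by linarith
    exact_mod_cast this
  have h8 : B.card ≠ 0 → Fintype.card ι = 8 := by
    intro h0
    have h1 : (1 : ℚ) ≤ B.card := by exact_mod_cast Nat.one_le_iff_ne_zero.2 h0
    have h2 : (7 : ℚ) < Fintype.card ι := by linarith
    have h3 : 7 < Fintype.card ι := by exact_mod_cast h2
    omega
  rcases (by omega : B.card = 0 ∨ B.card = 1 ∨ B.card = 2) with h0 | h1 | h2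
  · -- no exception
    rw [Finset.card_eq_zero] at h0
    refine good fun i => Or.inl ?_
    by_contra h
    have := (hBm i).2 h
    rw [h0] at this
    exact Finset.notMem_empty i this
  · -- one exception
    have hc8 := h8 (by omega)
    have hs0 := sum0 a ha hSt hc8
    obtain ⟨x, hx⟩ := Finset.card_eq_one.1 h1
    have hxo : addOrderOf (a x) ≠ 174 := (hBm x).1 (by rw [hx]; exact Finset.mem_singleton_self x)
    have hoth : ∀ i, i ≠ x → addOrderOf (a i) = 174 := by
      intro i hi
      by_contra h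
      have := (hBm i).2 h
      rw [hx, Finset.mem_singleton] at this
      exact hi this
    -- the order divides `174`
    have hx174 : 174 • a x = 0 := by
      have h3 : ∑ i, 174 • a i = 174 • a x := Fintype.sum_eq_single x fun i hi => by
        rw [← hoth i hi]
        exact addOrderOf_nsmul_eq_zero (a i)
      rw [← h3, ← Finset.smul_sum, hs0, smul_zero]
    have hxd : addOrderOf (a x) ∣ 174 := addOrderOf_dvd_of_nsmul_eq_zero hx174
    have hx87 : 87 • a x ≠ 0 := by
      intro h87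
      obtain ⟨y, hy⟩ : ∃ y : ι, y ≠ x := by
        by_contra hno
        push Not at hno
        have : Fintype.card ι ≤ 1 := Fintype.card_le_one_iff.2 fun u v => by rw [hno u, hno v]
        omega
      have hne : ∀ i, i ≠ x → 87 • a i ≠ 0 := by
        intro i hi h
        have h3 := addOrderOf_dvd_of_nsmul_eq_zero h
        rw [hoth i hi] at h3
        omega
      have h22 : ∀ i, i ≠ x → 2 • (87 • a i) = 0 := by
        intro i hi
        have h3 : 174 • a i = 0 := by
          rw [← hoth i hi]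
          exact addOrderOf_nsmul_eq_zero (a i)
        rw [smul_smul]
        exact h3
      have heq : ∀ i, i ≠ x → 87 • a i = 87 • a y := fun i hi =>
        two (hne i hi) (h22 i hi) (hne y hy) (h22 y hy)
      have h3 : ∑ i, 87 • a i = 0 := by rw [← Finset.smul_sum, hs0, smul_zero]
      rw [← Finset.add_sum_erase _ _ (Finset.mem_univ x), h87, zero_add,
        Finset.sum_congr rfl fun i hi => heq i (Finset.ne_of_mem_erase hi), Finset.sum_const,
        Finset.card_erase_of_mem (Finset.mem_univ x), Finset.card_univ, hc8] at h3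
      have h4 : (8 - 1) • (87 • a y) = 87 • a y := by
        have h5 : (8 - 1) • (87 • a y) = 3 • (2 • (87 • a y)) + 87 • a y := by
          simp only [nsmul_eq_mul]
          push_cast
          ring
        rw [h5, h22 y hy, smul_zero, zero_add]
      rw [h4] at h3
      exact hne y hy h3
    have hxn87 : ¬ addOrderOf (a x) ∣ 87 := fun h => hx87 (addOrderOf_dvd_iff_nsmul_eq_zero.1 h)
    have hx3 : addOrderOf (a x) = 2 ∨ addOrderOf (a x) = 6 ∨ addOrderOf (a x) = 58 := by
      have h3 : addOrderOf (a x) ∈ Nat.divisors 174 := Nat.mem_divisors.2 ⟨hxd, by norm_num⟩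
      have h4 : Nat.divisors 174 = {1, 2, 3, 6, 29, 58, 87, 174} := by decide +kernel
      rw [h4] at h3
      simp only [Finset.mem_insert, Finset.mem_singleton] at h3
      rcases h3 with h | h | h | h | h | h | h | h
      · exact absurd (by rw [h]; norm_num) hxn87
      · exact Or.inl h
      · exact absurd (by rw [h]; norm_num) hxn87
      · exact Or.inr (Or.inl h)
      · exact absurd (by rw [h]; norm_num) hxn87
      · exact Or.inr (Or.inr h)
      · exact absurd (by rw [h]) hxn87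
      · exact absurd h hxo
    obtain ⟨b, -, hbS, hbo, hbl⟩ := hLow m 1740 ι a ha hSt fun i => by
      by_cases hi : i = x
      · rw [hi]
        exact hxd.trans (by norm_num)
      · rw [hoth i hi]
        norm_num
    obtain ⟨hb1, hb2⟩ := (hBd4 (b x)).2 (by rw [hbo x]; exact hx3)
    have hs : ∑ i, ((8 : ℚ) * lam [3] 29 (b i) + 3 * sA (b i)) = 3 * sA (b x) := by
      rw [Fintype.sum_eq_single x fun i hi => by
        rw [(hBd4 (b i)).1 (Or.inl (by rw [hbo i]; exact hoth i hi))]
        ring]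
      rw [hb1]
      push_cast
      ring
    rw [Finset.sum_add_distrib, ← Finset.mul_sum, ← Finset.mul_sum, sumA b hbS, mul_zero, add_zero] at hs
    rw [Finset.sum_congr rfl fun i _ => (hbl i [3] 29).symm] at hz
    have hz' : ∑ i, ((lam [3] 29 (b i) : ℤ) : ℚ) = 14 * z := by
      have h3 : (((2 * ∑ i, lam [3] 29 (b i) : ℤ)) : ℚ) = ((28 * z : ℤ) : ℚ) := by rw [hz]
      push_cast at h3
      linarith
    rw [hz'] at hs
    apply hz2
    rcases hb2 with h | h | h
    · rw [h] at hs
      have : (z : ℚ) = 0 := by linarith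
      have : z = 0 := by exact_mod_cast this
      rw [this]
      exact dvd_zero 2
    · rw [h] at hs
      have : (z : ℚ) = 2 := by linarith
      have : z = 2 := by exact_mod_cast this
      rw [this]
    · rw [h] at hs
      have : (z : ℚ) = -2 := by linarith
      have : z = -2 := by exact_mod_cast this
      rw [this]
      norm_num
  · -- two exceptions
    have hc8 := h8 (by omega)
    have hs0 := sum0 a ha hSt hc8
    obtain ⟨x, y, hxy, hBxy⟩ := Finset.card_eq_two.1 h2
    have hxo : addOrderOf (a x) ≠ 174 := (hBm x).1 (by rw [hBxy]; exact Finset.mem_insert_self x {y})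
    have hyo : addOrderOf (a y) ≠ 174 :=
      (hBm y).1 (by rw [hBxy]; exact Finset.mem_insert_of_mem (Finset.mem_singleton_self y))
    have hoth : ∀ i, i ≠ x ∧ i ≠ y → addOrderOf (a i) = 174 := by
      intro i hi
      by_contra h
      have := (hBm i).2 h
      rw [hBxy, Finset.mem_insert, Finset.mem_singleton] at this
      rcases this with h3 | h3
      · exact hi.1 h3
      · exact hi.2 h3
    have h174 : 174 • (a x + a y) = 0 := by
      have h3 : ∑ i, 174 • a i = 174 • a x + 174 • a y := Fintype.sum_eq_add x y hxy fun i hi => by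
        rw [← hoth i hi]
        exact addOrderOf_nsmul_eq_zero (a i)
      rw [smul_add, ← h3, ← Finset.smul_sum, hs0, smul_zero]
    have h174' : 174 • (a y + a x) = 0 := by rw [add_comm]; exact h174
    have hcc := pair c (fun i => (hM i).1) hc8 hcs hxy
    have hDD := pair D (fun i => (hM i).2.1) hc8 hDs hxy
    have t9 : ∀ u v : ι, 174 • (a u + a v) = 0 → 9 ∣ addOrderOf (a u) → 9 ∣ addOrderOf (a v) := by
      intro u v huv hu
      have := tr 3 58 Nat.prime_three (by norm_num) (a u) (a v) huv (by norm_num; exact hu)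
      norm_num at this
      exact this
    have t841 : ∀ u v : ι, 174 • (a u + a v) = 0 → 841 ∣ addOrderOf (a u) → 841 ∣ addOrderOf (a v) := by
      intro u v huv hu
      have := tr 29 6 (by norm_num) (by norm_num) (a u) (a v) huv (by norm_num; exact hu)
      norm_num at this
      exact this
    have n9 : ¬ 9 ∣ addOrderOf (a x) ∧ ¬ 9 ∣ addOrderOf (a y) := by
      have key9 : 9 ∣ addOrderOf (a x) → 9 ∣ addOrderOf (a y) → False := by
        intro h3 h4
        have h5 := (hM x).2.2.1 h3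
        have h6 := (hM y).2.2.1 h4
        linarith
      exact ⟨fun h => key9 h (t9 x y h174 h), fun h => key9 (t9 y x h174' h) h⟩
    have n841 : ¬ 841 ∣ addOrderOf (a x) ∧ ¬ 841 ∣ addOrderOf (a y) := by
      have key8 : 841 ∣ addOrderOf (a x) → 841 ∣ addOrderOf (a y) → False := by
        intro h3 h4
        have h5 := (hM x).2.2.2.1 h3
        have h6 := (hM y).2.2.2.1 h4
        linarith
      exact ⟨fun h => key8 h (t841 x y h174 h), fun h => key8 (t841 y x h174' h) h⟩
    obtain ⟨cx, -, gx⟩ := (hM x).2.2.2.2 hxo n9.1 n841.1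
    obtain ⟨cy, -, gy⟩ := (hM y).2.2.2.2 hyo n9.2 n841.2
    have hcx := gx (by linarith)
    have hcy := gy (by linarith)
    refine good fun i => ?_
    by_cases hi : i = x
    · rw [hi]
      exact Or.inr hcx
    by_cases hi2 : i = y
    · rw [hi2]
      exact Or.inr hcy
    exact Or.inl (hoth i ⟨hi, hi2⟩)

end Pool.Agent.FO
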