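import Pool.Agent.Lib.MP_640417_ag.GT.SpecS

/-!
# Theorem GT (parity functionals), part S: the set `2, 3, 5, 7`, length at most 8 (helper25)
-/

set_option autoImplicit false

noncomputable section

namespace Pool.Agent.FO

open Finset Pool.Agent.FC

namespace GBC5Aux

theorem key (hLamB : S_LamB) (hTuL : S_TuL) {m : ℕ} [NeZero m] {ι : Type} [Fintype ι]
    {a : ι → ZMod m} {T : Finset ℕ} (hn : ¬ ChT T fun x => cnt a x - cnt a (-x)) {l : List ℕ}
    {q : ℕ} (hp : Pr l q) (hm : ∀ p, p ∈ q :: l ↔ p ∈ T) (t : (ZMod m)ˣ) :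
    ∃ z : ℤ, ¬ (2 : ℤ) ∣ z ∧ 2 * ∑ i, lam l q ((t : ZMod m) * a i) = ((q : ℤ) - 1) * z := by
  unfold ChT at hn
  push Not at hn
  obtain ⟨z, hz, hz2⟩ := hn q l t hp hm
  refine ⟨z, hz2, ?_⟩
  have h := hTuL m ι a (fun x => lam l q ((t : ZMod m) * x)) (fun x => by
    rw [mul_neg]
    exact (hLamB l q m hp).2.2.2.1 _)
  rw [← h]
  exact hz

theorem absz {z : ℤ} (hz2 : ¬ (2 : ℤ) ∣ z) : 1 ≤ |z| :=
  Int.one_le_abs fun h => hz2 (by rw [h]; exact dvd_zero 2)

theorem mean (hLamB : S_LamB) (hTuL : S_TuL) (hEqM : S_EqM) {m : ℕ} [NeZero m] {ι : Type}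
    [Fintype ι] {a : ι → ZMod m} {T : Finset ℕ} (hn : ¬ ChT T fun x => cnt a x - cnt a (-x))
    {l : List ℕ} {q : ℕ} (hp : Pr l q) (hm : ∀ p, p ∈ q :: l ↔ p ∈ T) :
    (q : ℚ) - 1 ≤ 2 * ∑ i, mu l q (addOrderOf (a i)) := by
  refine hEqM l q m hp ι a fun t => ?_
  obtain ⟨z, hz2, hz⟩ := key hLamB hTuL hn hp hm t
  have hq : (0 : ℤ) ≤ (q : ℤ) - 1 := by
    have : 1 ≤ q := (hp.2.1 q (List.mem_cons_self ..)).one_lt.le
    omega
  have h1 : 2 * |∑ i, lam l q ((t : ZMod m) * a i)| = ((q : ℤ) - 1) * |z| := by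
    rw [← abs_of_nonneg hq, ← abs_mul, ← hz, abs_mul, abs_of_nonneg (show (0 : ℤ) ≤ 2 by norm_num)]
  rw [h1]
  exact le_mul_of_one_le_right hq (absz hz2)

theorem mem3 {p q r : ℕ} (hp : p.Prime) (hq : q.Prime) (hr : r.Prime) : ∀ s ∈ [p, q, r], s.Prime := by
  intro s hs
  simp only [List.mem_cons, List.not_mem_nil, or_false] at hs
  rcases hs with rfl | rfl | rfl <;> assumption

theorem prA : Pr [2, 3, 5] 7 := by
  refine ⟨by decide, ?_, by decide, by decide⟩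
  intro p hp
  rcases List.mem_cons.1 hp with rfl | hp
  · norm_num
  · exact mem3 Nat.prime_two Nat.prime_three Nat.prime_five p hp

theorem prB : Pr [2, 3, 7] 5 := by
  refine ⟨by decide, ?_, by decide, by decide⟩
  intro p hp
  rcases List.mem_cons.1 hp with rfl | hp
  · norm_num
  · exact mem3 Nat.prime_two Nat.prime_three (by norm_num) p hp

theorem prC : Pr [2, 5, 7] 3 := by
  refine ⟨by decide, ?_, by decide, by decide⟩
  intro p hp
  rcases List.mem_cons.1 hp with rfl | hp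
  · norm_num
  · exact mem3 Nat.prime_two Nat.prime_five (by norm_num) p hp

/-- Equality in the sum of at most eight values. -/
theorem eq8 {ι : Type} [Fintype ι] (f : ι → ℚ) (hf : ∀ i, f i ≤ 1) (hc : Fintype.card ι ≤ 8)
    (hs : 8 ≤ ∑ j, f j) (i : ι) : f i = 1 := by
  have h1 : ∑ j, (1 - f j) ≤ 0 := by
    rw [Finset.sum_sub_distrib, Finset.sum_const, Finset.card_univ, nsmul_eq_mul]
    have h3 : (Fintype.card ι : ℚ) ≤ 8 := by exact_mod_cast hc
    linarith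
  have h0 : ∀ j ∈ (univ : Finset ι), 0 ≤ 1 - f j := fun j _ => sub_nonneg.2 (hf j)
  have h2 := (Finset.sum_eq_zero_iff_of_nonneg h0).1 (le_antisymm h1 (Finset.sum_nonneg h0)) i
    (Finset.mem_univ i)
  linarith

/-- The Stickelberger sums vanish on Stickelberger tuples. -/
theorem sumSN {m : ℕ} [NeZero m] {ι : Type} [Fintype ι] {a : ι → ZMod m} (hSt : St a)
    (c : ℕ → ℚ) (t : (ZMod m)ˣ) : ∑ i, SN c ((t : ZMod m) * a i) = 0 := by
  unfold SN
  rw [← Finset.mul_sum, Finset.sum_comm]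
  have h : ∀ u : (ZMod m)ˣ, ∑ i, c ((u : ZMod m).val % 420) * sz ((u : ZMod m) * ((t : ZMod m) * a i)) = 0 := by
    intro u
    have h1 := hSt (u * t)
    rw [Units.val_mul] at h1
    rw [← Finset.mul_sum, ← mul_zero (c ((u : ZMod m).val % 420)), ← h1]
    refine congrArg _ (Finset.sum_congr rfl fun i _ => ?_)
    rw [mul_assoc]
  rw [Finset.sum_eq_zero fun u _ => h u, mul_zero]

/-- The mean of a function which is large on all conjugates. -/
theorem mtge {m : ℕ} [NeZero m] {ι : Type} [Fintype ι] {a : ι → ZMod m} (Λ : ZMod m → ℚ) (B : ℚ)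
    (h : ∀ t : (ZMod m)ˣ, B ≤ |∑ i, Λ ((t : ZMod m) * a i)|) : B ≤ ∑ i, mt Λ (a i) := by
  unfold mt
  rw [← Finset.sum_div, Finset.sum_comm]
  have h0 : (0 : ℚ) < (m.totient : ℚ) := by exact_mod_cast Nat.totient_pos.2 (NeZero.pos m)
  rw [le_div_iff₀ h0]
  have h1 : ∑ _t : (ZMod m)ˣ, B = B * (m.totient : ℚ) := by
    rw [Finset.sum_const, Finset.card_univ, ZMod.card_units_eq_totient, nsmul_eq_mul, mul_comm]
  rw [← h1]
  exact Finset.sum_le_sum fun t _ => (h t).trans (Finset.abs_sum_le_sum_abs _ _)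

/-- The corrected functionals. -/
theorem cor {m : ℕ} [NeZero m] {ι : Type} [Fintype ι] {a : ι → ZMod m} (hSt : St a)
    (l : List ℕ) (q : ℕ) (c : ℕ → ℚ) (t : (ZMod m)ˣ) :
    ∑ i, ((lam l q ((t : ZMod m) * a i) : ℚ) + SN c ((t : ZMod m) * a i)) =
      ((∑ i, lam l q ((t : ZMod m) * a i) : ℤ) : ℚ) := by
  rw [Finset.sum_add_distrib, sumSN hSt, add_zero]
  push_cast
  rfl

end GBC5Aux

open GBC5Aux in
theorem pBC5 (hLamB : S_LamB) (hTuL : S_TuL) (hEqM : S_EqM) (hLow : S_Low) (hMu5 : S_Mu5)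
    (hRb : S_Rb) (hF2 : S_F2) : S_BC5 := by
  intro m _ ι _ a hc ha hSt
  by_contra hn
  have hmA : ∀ p, p ∈ 7 :: [2, 3, 5] ↔ p ∈ ({2, 3, 5, 7} : Finset ℕ) := by
    intro p
    simp only [List.mem_cons, List.not_mem_nil, or_false, Finset.mem_insert, Finset.mem_singleton]
    tauto
  have hmB : ∀ p, p ∈ 5 :: [2, 3, 7] ↔ p ∈ ({2, 3, 5, 7} : Finset ℕ) := by
    intro p
    simp only [List.mem_cons, List.not_mem_nil, or_false, Finset.mem_insert, Finset.mem_singleton]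
    tauto
  have hmC : ∀ p, p ∈ 3 :: [2, 5, 7] ↔ p ∈ ({2, 3, 5, 7} : Finset ℕ) := by
    intro p
    simp only [List.mem_cons, List.not_mem_nil, or_false, Finset.mem_insert, Finset.mem_singleton]
    tauto
  have hA := mean hLamB hTuL hEqM hn prA hmA
  have hB := mean hLamB hTuL hEqM hn prB hmB
  have hC := mean hLamB hTuL hEqM hn prC hmC
  push_cast at hA hB hC
  have hpos : ∀ i, 0 < addOrderOf (a i) := fun i => addOrderOf_pos (a i)
  have h420 : 420 ∣ m := by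
    by_contra h
    have h1 : ∑ i, mu [2, 3, 5] 7 (addOrderOf (a i)) = 0 := by
      refine Finset.sum_eq_zero fun i _ => ((hMu5 _ (hpos i)).2.2.2.1 fun h2 => h ?_).1
      refine h2.trans (addOrderOf_dvd_of_nsmul_eq_zero ?_)
      rw [nsmul_eq_mul, ZMod.natCast_self, zero_mul]
    rw [h1] at hA
    norm_num at hA
  have h7 : (3 : ℚ) ≤ ∑ i, mt f7 (a i) := by
    refine mtge f7 3 fun t => ?_
    obtain ⟨z, hz2, hz⟩ := key hLamB hTuL hn prA hmA t
    have e : ∑ i, f7 ((t : ZMod m) * a i) = ((∑ i, lam [2, 3, 5] 7 ((t : ZMod m) * a i) : ℤ) : ℚ) :=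
      cor hSt [2, 3, 5] 7 c7 t
    have e2 : ∑ i, lam [2, 3, 5] 7 ((t : ZMod m) * a i) = 3 * z := by
      push_cast at hz
      omega
    rw [e, e2]
    have h1 := absz hz2
    have h2 : (3 : ℤ) ≤ |3 * z| := by
      rw [abs_mul, abs_of_nonneg (show (0 : ℤ) ≤ 3 by norm_num)]
      omega
    exact_mod_cast h2
  have h3 : (1 : ℚ) ≤ ∑ i, mt f3 (a i) := by
    refine mtge f3 1 fun t => ?_
    obtain ⟨z, hz2, hz⟩ := key hLamB hTuL hn prC hmC t
    have e : ∑ i, f3 ((t : ZMod m) * a i) = ((∑ i, lam [2, 5, 7] 3 ((t : ZMod m) * a i) : ℤ) : ℚ) :=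
      cor hSt [2, 5, 7] 3 c3 t
    have e2 : ∑ i, lam [2, 5, 7] 3 ((t : ZMod m) * a i) = z := by
      push_cast at hz
      omega
    rw [e, e2]
    exact_mod_cast absz hz2
  have hw : ∀ i, (2 * mu [2, 3, 5] 7 (addOrderOf (a i)) + 3 * mu [2, 3, 7] 5 (addOrderOf (a i)) +
      6 * mu [2, 5, 7] 3 (addOrderOf (a i))) / 3 + mt f7 (a i) / 3 + mt f3 (a i) = 1 := by
    refine eq8 _ (fun i => (hRb m h420 (a i)).1) hc ?_
    rw [Finset.sum_add_distrib, Finset.sum_add_distrib, ← Finset.sum_div, ← Finset.sum_div,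
      Finset.sum_add_distrib, Finset.sum_add_distrib, ← Finset.mul_sum, ← Finset.mul_sum,
      ← Finset.mul_sum]
    linarith
  have hord : ∀ i, addOrderOf (a i) = 420 ∨ addOrderOf (a i) = 60 ∨ addOrderOf (a i) = 140 :=
    fun i => (hRb m h420 (a i)).2 (hw i)
  obtain ⟨b, -, hbS, hbo, hbl⟩ := hLow m 420 ι a ha hSt fun i => by
    rcases hord i with h | h | h <;> rw [h] <;> norm_num
  choose k hk using fun i => hF2 (b i) (by rw [hbo i]; exact hord i)
  have hs : ∑ i, SN c2 (b i) = 0 := by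
    have h := sumSN hbS c2 1
    simpa using h
  have hs1 : (∑ i, lam [2, 5, 7] 3 (b i) : ℤ) = -(2 * ∑ i, k i) := by
    have h1 : ∑ i, -((lam [2, 5, 7] 3 (b i) : ℚ) + 2 * (k i : ℚ)) = 0 := by
      rw [← hs]
      exact Finset.sum_congr rfl fun i _ => (hk i).symm
    have h2 : ((∑ i, lam [2, 5, 7] 3 (b i) : ℤ) : ℚ) = ((-(2 * ∑ i, k i) : ℤ) : ℚ) := by
      rw [Finset.sum_neg_distrib, Finset.sum_add_distrib, ← Finset.mul_sum] at h1
      push_cast
      linarith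
    exact_mod_cast h2
  obtain ⟨z, hz2, hz⟩ := key hLamB hTuL hn prC hmC 1
  have e : ∑ i, lam [2, 5, 7] 3 (((1 : (ZMod m)ˣ) : ZMod m) * a i) =
      ∑ i, lam [2, 5, 7] 3 (b i) :=
    Finset.sum_congr rfl fun i _ => by rw [Units.val_one, one_mul, hbl i]
  rw [e, hs1] at hz
  apply hz2
  push_cast at hz
  exact ⟨-∑ i, k i, by linarith⟩

end Pool.Agent.FO
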