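import Pool.Agent.Lib.MP_640417_ag.GT.SpecL

/-!
# Theorem GT, part L: finite check at level 390
-/

set_option autoImplicit false

noncomputable section

open Finset Pool.Agent.FC

namespace Pool.Agent.FO

namespace GBd1Aux

/-! ### The units -/

/-- the residues prime to `390` which are `1` modulo `5` -/
private def K1 : List ℕ := [1, 11, 31, 41, 61, 71, 101, 121, 131, 151, 161, 181, 191, 211, 241,
  251, 271, 281, 301, 311, 331, 341, 361, 371]

/-- the residues prime to `390` which are `2` modulo `5` -/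
private def K2 : List ℕ := [7, 17, 37, 47, 67, 77, 97, 107, 127, 137, 157, 167, 187, 197, 217,
  227, 257, 277, 287, 307, 317, 337, 347, 367]

private lemma K1_mem : ∀ k < 390, k ∈ K1 ↔ (k.gcd 390 = 1 ∧ k % 5 = 1) := by
  unfold K1
  decide +kernel

private lemma K2_mem : ∀ k < 390, k ∈ K2 ↔ (k.gcd 390 = 1 ∧ k % 5 = 2) := by
  unfold K2
  decide +kernel

private lemma sum_units (M : ℕ) [NeZero M] (r : ℕ) (K : List ℕ) (hn : K.Nodup)
    (hK : ∀ k ∈ K, k < M)
    (hm : ∀ k < M, k ∈ K ↔ (k.gcd M = 1 ∧ k % 5 = r)) (F : ℕ → ℚ) :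
    ∑ t ∈ univ.filter (fun t : (ZMod M)ˣ => (t : ZMod M).val % 5 = r), F (t : ZMod M).val =
      (K.map F).sum := by
  classical
  rw [← List.sum_toFinset F hn]
  refine Finset.sum_bij (fun t _ => (t : ZMod M).val) ?_ ?_ ?_ ?_
  · intro t ht
    rw [List.mem_toFinset, hm _ (ZMod.val_lt _)]
    exact ⟨ZMod.val_coe_unit_coprime t, (Finset.mem_filter.1 ht).2⟩
  · intro t _ t' _ h
    exact Units.ext (ZMod.val_injective M h)
  · intro k hk
    have hk' := List.mem_toFinset.1 hk
    have h1 := (hm k (hK k hk')).1 hk'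
    have hc : k.Coprime M := h1.1
    refine ⟨ZMod.unitOfCoprime k hc, ?_, ?_⟩
    · rw [Finset.mem_filter]
      refine ⟨Finset.mem_univ _, ?_⟩
      rw [ZMod.coe_unitOfCoprime, ZMod.val_natCast_of_lt (hK k hk')]
      exact h1.2
    · rw [ZMod.coe_unitOfCoprime, ZMod.val_natCast_of_lt (hK k hk')]
  · intro t _
    rfl

private lemma sum_list (M : ℕ) (K : List ℕ) (f : ℕ → ℕ) :
    (K.map fun k => ((f k : ℕ) : ℚ) / M - 1 / 2).sum =
      (((K.map f).sum : ℕ) : ℚ) / M - (K.length : ℚ) / 2 := by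
  induction K with
  | nil => norm_num
  | cons k K ih =>
    rw [List.map_cons, List.sum_cons, ih, List.map_cons, List.sum_cons, List.length_cons]
    push_cast
    ring

private lemma sum_sz (M : ℕ) [NeZero M] (r : ℕ) (K : List ℕ) (hn : K.Nodup)
    (hK : ∀ k ∈ K, k < M)
    (hm : ∀ k < M, k ∈ K ↔ (k.gcd M = 1 ∧ k % 5 = r)) (x : ZMod M) (hx : x ≠ 0) :
    ∑ t ∈ univ.filter (fun t : (ZMod M)ˣ => (t : ZMod M).val % 5 = r),
      sz ((t : ZMod M) * x) =
      (((K.map fun k => k * x.val % M).sum : ℕ) : ℚ) / M - (K.length : ℚ) / 2 := by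
  rw [← sum_list, ← sum_units M r K hn hK hm fun k => ((k * x.val % M : ℕ) : ℚ) / M - 1 / 2]
  refine Finset.sum_congr rfl fun t _ => ?_
  have h1 : (t : ZMod M) * x ≠ 0 := fun h => hx ((Units.mul_right_eq_zero t).1 h)
  unfold sz
  rw [if_neg h1, ZMod.val_mul]

/-! ### The values of the functional -/

/-- the indicator of `v ≡ b` modulo `p` -/
private def ii (v p b : ℤ) : ℤ := if (v - b) % p = 0 then 1 else 0

private lemma fact_one (n p : ℕ) (hn : n ≠ 0) (hp : p.Prime) (h1 : p ∣ n) (h2 : ¬ p ^ 2 ∣ n) :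
    n.factorization p = 1 := by
  have h3 := (hp.dvd_iff_one_le_factorization hn).1 h1
  have h4 : ¬ 2 ≤ n.factorization p := fun h => h2 ((hp.pow_dvd_iff_le_factorization hn).2 h)
  omega

private lemma ik_eq (n p : ℕ) (hn : n ≠ 0) (hp : p.Prime) (h1 : p ∣ n) (h2 : ¬ p ^ 2 ∣ n)
    (y b : ℤ) : ik n y p b = ii y p b := by
  unfold ik ii
  rw [fact_one n p hn hp h1 h2, pow_one]
  by_cases h : (p : ℤ) ∣ y - b
  · rw [if_pos h, if_pos (Int.emod_eq_zero_of_dvd h)]
  · rw [if_neg h, if_neg fun h' => h (Int.dvd_of_emod_eq_zero h')]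

private lemma pf390 : Nat.primeFactors 390 = {2, 3, 5, 13} := by
  have h : (390 : ℕ) = 2 * (3 * (5 * 13)) := by norm_num
  rw [h, Nat.primeFactors_mul (by norm_num) (by norm_num),
    Nat.primeFactors_mul (by norm_num) (by norm_num),
    Nat.primeFactors_mul (by norm_num) (by norm_num), Nat.Prime.primeFactors (by norm_num),
    Nat.Prime.primeFactors (by norm_num), Nat.Prime.primeFactors (by norm_num),
    Nat.Prime.primeFactors (by norm_num)]
  rfl

private lemma pf130 : Nat.primeFactors 130 = {2, 5, 13} := by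
  have h : (130 : ℕ) = 2 * (5 * 13) := by norm_num
  rw [h, Nat.primeFactors_mul (by norm_num) (by norm_num),
    Nat.primeFactors_mul (by norm_num) (by norm_num), Nat.Prime.primeFactors (by norm_num),
    Nat.Prime.primeFactors (by norm_num), Nat.Prime.primeFactors (by norm_num)]
  rfl

private lemma Rf_empty (I : ℕ → ℤ → ℤ) (c : ℤ) (p : ℕ) : Rf I c p ∅ = I p c := by
  have h : (∅ : Finset ℕ).ssubsets = ∅ := by decide
  rw [Rf_eq, h]
  simp [pr]

private lemma Rf_three (I : ℕ → ℤ → ℤ) (c : ℤ) (p : ℕ) :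
    Rf I c p {3} = I 3 c * (I p c - I p (c * 3)) := by
  have h : ({3} : Finset ℕ).ssubsets = {∅} := by decide
  rw [Rf_eq, h, Finset.sum_singleton, Rf_empty]
  simp [pr]
  ring

private lemma ups_three (I : ℕ → ℤ → ℤ) (c : ℤ) :
    ups I [5] c {3} = I 3 c * (I 5 c - I 5 (c * 3)) - I 3 (-c) * (I 5 (-c) - I 5 (-c * 3)) := by
  have h : ({3} : Finset ℕ).powerset = {∅, {3}} := by decide
  have h1 : (∅ : Finset ℕ) ≠ {3} := by decide
  have h2 : ({3} : Finset ℕ) \ ∅ = {3} := by decide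
  have h3 : ({3} : Finset ℕ) \ {3} = ∅ := by decide
  unfold ups
  rw [h, Finset.sum_pair h1, Finset.sum_pair h1, h2, h3]
  unfold ups
  rw [if_neg (Ne.symm h1), if_pos rfl, Rf_three, Rf_three]
  simp
  ring

/-- the value at the level `390` -/
private def A (v : ℤ) : ℤ :=
  (ii v 3 1 * (ii v 5 1 - ii v 5 3) - ii v 3 (-1) * (ii v 5 (-1) - ii v 5 (-3))) -
    (ii v 3 2 * (ii v 5 2 - ii v 5 6) - ii v 3 (-2) * (ii v 5 (-2) - ii v 5 (-6)))

/-- the value at the level `130` -/
private def B (v : ℤ) : ℤ := (ii v 5 1 - ii v 5 (-1)) - (ii v 5 2 - ii v 5 (-2))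

private lemma odd_of (y : ℤ) (h : IsCoprime y 2) : y % 2 = 1 := by
  rcases Int.emod_two_eq_zero_or_one y with h1 | h1
  · obtain ⟨k, hk⟩ : (2 : ℤ) ∣ y := Int.dvd_of_emod_eq_zero h1
    obtain ⟨a, b, hab⟩ := h
    exfalso
    have h2 : (2 : ℤ) ∣ 1 := ⟨a * k + b, by rw [← hab, hk]; ring⟩
    omega
  · exact h1

private lemma ik_two (n : ℕ) (y : ℤ) (hn : n ≠ 0) (h1 : 2 ∣ n) (h2 : ¬ 2 ^ 2 ∣ n)
    (hy : IsCoprime y (n : ℤ)) : ∀ b : ℤ, IsCoprime b ((2 : ℕ) : ℤ) → ik n y 2 b = 1 := by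
  intro b hb
  rw [ik_eq n 2 hn Nat.prime_two h1 h2]
  unfold ii
  have hyo : y % 2 = 1 := odd_of y (hy.of_isCoprime_of_dvd_right (by exact_mod_cast h1))
  have hbo : b % 2 = 1 := odd_of b (by exact_mod_cast hb)
  rw [if_pos (by push_cast; omega)]

private lemma val390 (hUpsL : S_UpsL) (v : ℤ) (hv : IsCoprime v ((390 : ℕ) : ℤ)) :
    Ph [5] 13 390 1 v = A v := by
  have hL : ((Nat.primeFactors 390 \ [5].toFinset).erase 13) = ({2, 3} : Finset ℕ) := by
    rw [pf390]
    decide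
  unfold Ph
  rw [if_pos ⟨by norm_num, fun s hs => by
    rw [List.mem_singleton] at hs
    rw [hs]
    norm_num⟩, hL]
  have h := hUpsL (ik 390 v) [5] 1 {2, 3} 2 (by
      intro s hs
      simp only [Finset.mem_insert, Finset.mem_singleton] at hs
      rcases hs with rfl | rfl <;> norm_num) (by simp) (by simp)
    (ik_two 390 v (by norm_num) (by norm_num) (by norm_num) hv) isCoprime_one_left
  have he : ({2, 3} : Finset ℕ).erase 2 = {3} := by decide
  rw [h, he, ups_three, ups_three]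
  simp only [ik_eq 390 3 (by norm_num) (by norm_num) (by norm_num) (by norm_num),
    ik_eq 390 5 (by norm_num) (by norm_num) (by norm_num) (by norm_num)]
  unfold A
  norm_num

private lemma val130 (hUpsB : S_UpsB) (hUpsL : S_UpsL) (v : ℤ) (hv : IsCoprime v ((130 : ℕ) : ℤ)) :
    Ph [5] 13 130 1 v = B v := by
  have hL : ((Nat.primeFactors 130 \ [5].toFinset).erase 13) = ({2} : Finset ℕ) := by
    rw [pf130]
    decide
  unfold Ph
  rw [if_pos ⟨by norm_num, fun s hs => by
    rw [List.mem_singleton] at hs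
    rw [hs]
    norm_num⟩, hL]
  have h := hUpsL (ik 130 v) [5] 1 {2} 2 (by
      intro s hs
      simp only [Finset.mem_singleton] at hs
      rw [hs]
      norm_num) (by simp) (by simp)
    (ik_two 130 v (by norm_num) (by norm_num) (by norm_num) hv) isCoprime_one_left
  have he : ({2} : Finset ℕ).erase 2 = ∅ := by decide
  rw [h, he, (hUpsB (ik 130 v) (ik 130 v) [5] 1 ∅).2.2.2.2,
    (hUpsB (ik 130 v) (ik 130 v) [5] (((2 : ℕ) : ℤ) * 1) ∅).2.2.2.2]
  simp only [List.map_cons, List.map_nil, List.prod_cons, List.prod_nil, mul_one,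
    ik_eq 130 5 (by norm_num) (by norm_num) (by norm_num) (by norm_num)]
  unfold B
  norm_num

/-! ### The finite check -/

private def Q1 (v : ℕ) : Prop := v.gcd 390 = 1 →
  780 * A (v : ℤ) + (((K1.map fun k => k * v % 390).sum : ℕ) : ℤ) +
    2 * (((K2.map fun k => k * v % 390).sum : ℕ) : ℤ) = 14040

private def Q2 (v : ℕ) : Prop := v.gcd 390 = 3 →
  780 * B ((v / 3 : ℕ) : ℤ) + (((K1.map fun k => k * v % 390).sum : ℕ) : ℤ) +
    2 * (((K2.map fun k => k * v % 390).sum : ℕ) : ℤ) = 14040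

private instance (v : ℕ) : Decidable (Q1 v) := by
  unfold Q1
  infer_instance

private instance (v : ℕ) : Decidable (Q2 v) := by
  unfold Q2
  infer_instance

private lemma check1 : ∀ v < 390, Q1 v := by decide +kernel

private lemma check2 : ∀ v < 390, Q2 v := by decide +kernel

private lemma order_eq (x : ZMod 390) : addOrderOf x = 390 / (390 : ℕ).gcd x.val := by
  have h := ZMod.addOrderOf_coe x.val (n := 390) (by norm_num)
  rw [ZMod.natCast_zmod_val] at h
  exact h

private lemma final (a : ℤ) (s t : ℕ) (h : 780 * a + (s : ℤ) + 2 * (t : ℤ) = 14040) :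
    (2 : ℚ) * (a : ℚ) = -((s : ℚ) / ((390 : ℕ) : ℚ) - ((24 : ℕ) : ℚ) / 2) -
      2 * ((t : ℚ) / ((390 : ℕ) : ℚ) - ((24 : ℕ) : ℚ) / 2) := by
  have h1 : (780 : ℚ) * a + s + 2 * t = 14040 := by exact_mod_cast h
  push_cast
  linarith

end GBd1Aux

open GBd1Aux in
theorem pBd1 (hUpsB : S_UpsB) (hUpsL : S_UpsL) : S_Bd1 := by
  intro x hx
  have hx0 : x ≠ 0 := by
    rintro rfl
    rw [addOrderOf_zero] at hx
    omega
  have hlt : x.val < 390 := ZMod.val_lt x
  rw [sum_sz 390 1 K1 (by unfold K1; decide) (by unfold K1; decide) K1_mem x hx0,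
    sum_sz 390 2 K2 (by unfold K2; decide) (by unfold K2; decide) K2_mem x hx0]
  have hl1 : K1.length = 24 := rfl
  have hl2 : K2.length = 24 := rfl
  rw [hl1, hl2]
  have hg : (390 : ℕ).gcd x.val ∣ 390 := Nat.gcd_dvd_left _ _
  have hg2 : (390 : ℕ).gcd x.val ∣ x.val := Nat.gcd_dvd_right _ _
  have ho := order_eq x
  have hm : 390 / (390 : ℕ).gcd x.val * (390 : ℕ).gcd x.val = 390 := Nat.div_mul_cancel hg
  rw [← ho] at hm
  rcases hx with h | h
  · rw [h] at hm
    have h3 : (390 : ℕ).gcd x.val = 3 := by omega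
    have h3' : x.val.gcd 390 = 3 := (Nat.gcd_comm _ _).trans h3
    refine final _ _ _ ?_
    have e : lam [5] 13 x = B ((x.val / 3 : ℕ) : ℤ) := by
      unfold lam
      rw [h]
      refine val130 hUpsB hUpsL _ ?_
      rw [Nat.isCoprime_iff_coprime]
      have h4 := Nat.coprime_div_gcd_div_gcd (m := x.val) (n := 390) (by rw [h3']; norm_num)
      rw [h3'] at h4
      exact h4
    rw [e]
    exact check2 _ hlt h3'
  · rw [h] at hm
    have h3 : (390 : ℕ).gcd x.val = 1 := by omega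
    have h3' : x.val.gcd 390 = 1 := (Nat.gcd_comm _ _).trans h3
    refine final _ _ _ ?_
    have e : lam [5] 13 x = A ((x.val : ℕ) : ℤ) := by
      unfold lam
      rw [h]
      have h5 : x.val / (390 / 390) = x.val := by norm_num
      rw [h5]
      refine val390 hUpsL _ ?_
      rw [Nat.isCoprime_iff_coprime]
      exact h3'
    rw [e]
    exact check1 _ hlt h3'

end Pool.Agent.FO
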