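import Pool.Agent.Lib.MP_640417_ag.GT.SpecL

/-!
# Theorem GT, part L: the finite check at the level `1380`
-/

set_option autoImplicit false

noncomputable section

open Finset Pool.Agent.FC

namespace Pool.Agent.FO

namespace GBd2Aux

/-! ## Values of the functional -/

/-- the indicator function of `y ≡ b` modulo `k` -/
private def J (k : ℕ) (y b : ℤ) : ℤ := if (y - b) % (k : ℤ) = 0 then 1 else 0

private lemma ik_eq (n : ℕ) (y : ℤ) (s k : ℕ) (h : s ^ n.factorization s = k) (b : ℤ) : ik n y s b = J k y b := by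
  unfold ik J
  rw [h]
  by_cases hd : ((k : ℕ) : ℤ) ∣ y - b
  · rw [if_pos hd, if_pos (Int.emod_eq_zero_of_dvd hd)]
  · rw [if_neg hd, if_neg fun h => hd (Int.dvd_of_emod_eq_zero h)]

private lemma fac (n p k m : ℕ) (hp : p.Prime) (hn : n = p ^ k * m) (hm : ¬ p ∣ m) : n.factorization p = k := by
  have hm0 : m ≠ 0 := fun h => hm (h ▸ dvd_zero p)
  rw [hn, Nat.factorization_mul (pow_ne_zero _ hp.ne_zero) hm0, hp.factorization_pow, Finsupp.add_apply,
    Finsupp.single_eq_same, Nat.factorization_eq_zero_of_not_dvd hm, add_zero]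

private lemma ik_val (n : ℕ) (y : ℤ) (s k m : ℕ) (hs : s.Prime) (hn : n = s ^ k * m) (hm : ¬ s ∣ m) (b : ℤ) :
    ik n y s b = J (s ^ k) y b :=
  ik_eq n y s (s ^ k) (by rw [fac n s k m hs hn hm]) b

private lemma pr_single (s : ℕ) : pr {s} = s := by
  unfold pr
  exact Finset.prod_singleton _ _

private lemma pr_empty : pr ∅ = 1 := by
  unfold pr
  exact Finset.prod_empty

private lemma Rf_empty (I : ℕ → ℤ → ℤ) (c : ℤ) (p : ℕ) : Rf I c p ∅ = I p c := by
  have h1 : (∅ : Finset ℕ).ssubsets = ∅ := by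
    ext C
    rw [Finset.mem_ssubsets]
    exact ⟨fun h => absurd h (Finset.not_ssubset_empty C), fun h => absurd h (Finset.notMem_empty C)⟩
  rw [Rf_eq, h1]
  simp [pr_empty]

private lemma Rf_single (I : ℕ → ℤ → ℤ) (c : ℤ) (p s : ℕ) : Rf I c p {s} = I s c * (I p c - I p (c * s)) := by
  have h1 : ({s} : Finset ℕ).ssubsets = {∅} := by
    ext C
    rw [Finset.mem_ssubsets, Finset.ssubset_singleton_iff, Finset.mem_singleton]
  rw [Rf_eq, h1, Finset.sum_singleton, Rf_empty, pr_single]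
  simp only [Finset.card_singleton, Finset.prod_singleton, Finset.erase_singleton, pr_empty, Finset.sdiff_empty,
    mul_one]
  ring

private lemma ups_one (I : ℕ → ℤ → ℤ) (p : ℕ) (c : ℤ) (s : ℕ) : ups I [p] c {s} =
    I s c * (I p c - I p (c * s)) - I s (-c) * (I p (-c) - I p (-c * s)) := by
  have h1 : ({s} : Finset ℕ).powerset = {∅, {s}} := by
    ext C
    rw [Finset.mem_powerset, Finset.subset_singleton_iff, Finset.mem_insert, Finset.mem_singleton]
  have h2 : (∅ : Finset ℕ) ≠ {s} := (Finset.singleton_ne_empty s).symm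
  unfold ups
  rw [h1, Finset.sum_pair h2, Finset.sum_pair h2]
  unfold ups
  rw [Finset.sdiff_empty, Finset.sdiff_self, if_neg h2.symm, if_pos rfl, Rf_single, Rf_single]
  simp only [List.length_nil]
  ring

private lemma ups_zero (hUpsB : S_UpsB) (I : ℕ → ℤ → ℤ) (p : ℕ) (c : ℤ) : ups I [p] c ∅ = I p c - I p (-c) := by
  rw [(hUpsB I I [p] c ∅).2.2.2.2, List.map_cons, List.map_nil, List.prod_cons, List.prod_nil, mul_one]

private lemma odd_ik (y : ℤ) (hy : y % 2 = 1) (b : ℤ) (hb : IsCoprime b ((2 : ℕ) : ℤ)) : J 2 y b = 1 := by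
  obtain ⟨u, v, h⟩ := hb
  have h1 : b % 2 = 1 := by
    rcases Int.emod_two_eq_zero_or_one b with h2 | h2
    · exfalso
      obtain ⟨w, rfl⟩ := Int.dvd_of_emod_eq_zero h2
      have h3 : 2 * (u * w + v) = 1 := by
        push_cast at h
        linarith
      omega
    · exact h2
  unfold J
  rw [if_pos]
  push_cast
  omega

private lemma Ph_eq (n : ℕ) (y : ℤ) (h1 : 23 ∣ n) (h2 : 3 ∣ n) (L : Finset ℕ)
    (hL : (n.primeFactors \ [3].toFinset).erase 23 = L) : Ph [3] 23 n 1 y = ups (ik n y) [3] 1 L := by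
  unfold Ph
  have h3 : ∀ s ∈ [3], s ∣ n := fun s hs => by
    rw [List.mem_singleton] at hs
    rw [hs]
    exact h2
  rw [if_pos ⟨h1, h3⟩, hL]

private lemma pf69 : (69 : ℕ).primeFactors = {3, 23} := by
  simp [Nat.primeFactors, Nat.primeFactorsList_ofNat]

private lemma pf138 : (138 : ℕ).primeFactors = {2, 3, 23} := by
  simp [Nat.primeFactors, Nat.primeFactorsList_ofNat]

private lemma pf276 : (276 : ℕ).primeFactors = {2, 3, 23} := by
  simp [Nat.primeFactors, Nat.primeFactorsList_ofNat]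

private lemma pf690 : (690 : ℕ).primeFactors = {2, 3, 5, 23} := by
  simp [Nat.primeFactors, Nat.primeFactorsList_ofNat]

/-- the value for the order `69` -/
private def w69 (y : ℤ) : ℤ := J 3 y 1 - J 3 y (-1)

/-- the value for the order `138` -/
private def w138 (y : ℤ) : ℤ := (J 3 y 1 - J 3 y (-1)) - (J 3 y 2 - J 3 y (-2))

/-- the value for the order `276` -/
private def w276 (y : ℤ) : ℤ := J 4 y 1 * (J 3 y 1 - J 3 y 2) - J 4 y (-1) * (J 3 y (-1) - J 3 y (-2))

/-- the value for the order `690` -/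
private def w690 (y : ℤ) : ℤ :=
  (J 5 y 1 * (J 3 y 1 - J 3 y 5) - J 5 y (-1) * (J 3 y (-1) - J 3 y (-5))) -
    (J 5 y 2 * (J 3 y 2 - J 3 y 10) - J 5 y (-2) * (J 3 y (-2) - J 3 y (-10)))

private lemma v69 (hUpsB : S_UpsB) (y : ℤ) : Ph [3] 23 69 1 y = w69 y := by
  have h3 : ∀ b, ik 69 y 3 b = J 3 y b := ik_val 69 y 3 1 23 (by norm_num) (by norm_num) (by norm_num)
  rw [Ph_eq 69 y (by norm_num) (by norm_num) ∅ (by rw [pf69]; rfl), ups_zero hUpsB, h3, h3]
  rfl

private lemma v276 (y : ℤ) : Ph [3] 23 276 1 y = w276 y := by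
  have h3 : ∀ b, ik 276 y 3 b = J 3 y b := ik_val 276 y 3 1 92 (by norm_num) (by norm_num) (by norm_num)
  have h2 : ∀ b, ik 276 y 2 b = J 4 y b := ik_val 276 y 2 2 69 (by norm_num) (by norm_num) (by norm_num)
  rw [Ph_eq 276 y (by norm_num) (by norm_num) {2} (by rw [pf276]; rfl), ups_one, h3, h3, h3, h3, h2, h2]
  unfold w276
  norm_num

private lemma v138 (hUpsB : S_UpsB) (hUpsL : S_UpsL) (y : ℤ) (hy : y % 2 = 1) : Ph [3] 23 138 1 y = w138 y := by
  have h3 : ∀ b, ik 138 y 3 b = J 3 y b := ik_val 138 y 3 1 46 (by norm_num) (by norm_num) (by norm_num)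
  have h2 : ∀ b, ik 138 y 2 b = J 2 y b := ik_val 138 y 2 1 69 (by norm_num) (by norm_num) (by norm_num)
  rw [Ph_eq 138 y (by norm_num) (by norm_num) {2} (by rw [pf138]; rfl),
    hUpsL (ik 138 y) [3] 1 {2} 2 (by norm_num) (by norm_num) (by norm_num)
      (fun b hb => (h2 b).trans (odd_ik y hy b hb)) isCoprime_one_left,
    Finset.erase_singleton, ups_zero hUpsB, ups_zero hUpsB, h3, h3, h3, h3]
  unfold w138
  norm_num

private lemma v690 (hUpsL : S_UpsL) (y : ℤ) (hy : y % 2 = 1) : Ph [3] 23 690 1 y = w690 y := by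
  have h3 : ∀ b, ik 690 y 3 b = J 3 y b := ik_val 690 y 3 1 230 (by norm_num) (by norm_num) (by norm_num)
  have h5 : ∀ b, ik 690 y 5 b = J 5 y b := ik_val 690 y 5 1 138 (by norm_num) (by norm_num) (by norm_num)
  have h2 : ∀ b, ik 690 y 2 b = J 2 y b := ik_val 690 y 2 1 345 (by norm_num) (by norm_num) (by norm_num)
  have e : ({2, 5} : Finset ℕ).erase 2 = {5} := by rfl
  rw [Ph_eq 690 y (by norm_num) (by norm_num) {2, 5} (by rw [pf690]; rfl),
    hUpsL (ik 690 y) [3] 1 {2, 5} 2 (by norm_num) (by norm_num) (by norm_num)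
      (fun b hb => (h2 b).trans (odd_ik y hy b hb)) isCoprime_one_left,
    e, ups_one, ups_one]
  simp only [h3, h5]
  unfold w690
  norm_num

/-! ## The right side -/

/-- the numbers `t < 1380` prime to `1380` with `t ≡ 1` modulo `3` -/
private def Lv : List ℕ :=
  [1, 7, 13, 19, 31, 37, 43, 49, 61, 67, 73, 79, 91, 97, 103, 109, 121, 127, 133, 139, 151, 157, 163,
  169, 181, 187, 193, 199, 211, 217, 223, 229, 241, 247, 259, 271, 277, 283, 289, 301, 307, 313, 319,
  331, 337, 343, 349, 361, 367, 373, 379, 397, 403, 409, 421, 427, 433, 439, 451, 457, 463, 469, 481,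
  487, 493, 499, 511, 517, 523, 541, 547, 553, 559, 571, 577, 583, 589, 601, 607, 613, 619, 631, 637,
  643, 649, 661, 673, 679, 691, 697, 703, 709, 721, 727, 733, 739, 751, 757, 763, 769, 781, 787, 793,
  799, 811, 817, 823, 829, 841, 847, 853, 859, 871, 877, 883, 889, 901, 907, 913, 919, 931, 937, 949,
  961, 967, 973, 979, 991, 997, 1003, 1009, 1021, 1027, 1033, 1039, 1051, 1057, 1063, 1069, 1087,
  1093, 1099, 1111, 1117, 1123, 1129, 1141, 1147, 1153, 1159, 1171, 1177, 1183, 1189, 1201, 1207,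
  1213, 1231, 1237, 1243, 1249, 1261, 1267, 1273, 1279, 1291, 1297, 1303, 1309, 1321, 1327, 1333,
  1339, 1351, 1363, 1369]

/-- the sum of the residues of the `t v` -/
private def Sv (v : ℕ) : ℕ := (Lv.map fun k => k * v % 1380).sum

private lemma Lv_eq : (List.range 1380).filter (fun k => decide (k.gcd 1380 = 1 ∧ k % 3 = 1)) = Lv := by
  decide +kernel

private lemma Lv_len : Lv.length = 176 := by
  decide +kernel

private lemma sum_range (f : ℕ → ℚ) :
    ∑ k ∈ (range 1380).filter (fun k => k.gcd 1380 = 1 ∧ k % 3 = 1), f k = (Lv.map f).sum := by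
  rw [← Lv_eq]
  rfl

private lemma units_sum (M : ℕ) [NeZero M] (g : ℕ → ℚ) :
    ∑ t ∈ univ.filter (fun t : (ZMod M)ˣ => (t : ZMod M).val % 3 = 1), g (t : ZMod M).val =
      ∑ k ∈ (range M).filter (fun k => k.gcd M = 1 ∧ k % 3 = 1), g k := by
  refine Finset.sum_bij (fun t _ => (t : ZMod M).val) (fun t ht => ?_) (fun t _ s _ h => ?_)
    (fun k hk => ?_) (fun t _ => rfl)
  · rw [Finset.mem_filter] at ht
    rw [Finset.mem_filter, Finset.mem_range]
    exact ⟨ZMod.val_lt _, ZMod.val_coe_unit_coprime t, ht.2⟩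
  · exact Units.ext (ZMod.val_injective M h)
  · rw [Finset.mem_filter, Finset.mem_range] at hk
    have h1 : ((ZMod.unitOfCoprime k hk.2.1 : (ZMod M)ˣ) : ZMod M).val = k := by
      rw [ZMod.coe_unitOfCoprime, ZMod.val_natCast, Nat.mod_eq_of_lt hk.1]
    refine ⟨ZMod.unitOfCoprime k hk.2.1, ?_, h1⟩
    rw [Finset.mem_filter, h1]
    exact ⟨Finset.mem_univ _, hk.2.2⟩

private lemma sz_mul (M : ℕ) [NeZero M] (x : ZMod M) (hx : x ≠ 0) (t : (ZMod M)ˣ) :
    sz ((t : ZMod M) * x) = (((t : ZMod M).val * x.val % M : ℕ) : ℚ) / M - 1 / 2 := by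
  have h2 : (t : ZMod M) * x ≠ 0 := fun h => hx (t.isUnit.mul_right_eq_zero.1 h)
  unfold sz
  rw [if_neg h2, ZMod.val_mul]

private lemma list_sum (M v : ℕ) (l : List ℕ) : (l.map fun k => ((k * v % M : ℕ) : ℚ) / M - 1 / 2).sum =
    (((l.map fun k => k * v % M).sum : ℕ) : ℚ) / M - (l.length : ℚ) / 2 := by
  induction l with
  | nil => simp
  | cons a l ih =>
    rw [List.map_cons, List.map_cons, List.sum_cons, List.sum_cons, ih, List.length_cons]
    push_cast
    ring

private lemma half (s : ℚ) : s / ((1380 : ℕ) : ℚ) - ((176 : ℕ) : ℚ) / 2 = s / 1380 - 88 := by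
  norm_num

private lemma sumv (x : ZMod 1380) (hx : x ≠ 0) :
    ∑ t ∈ univ.filter (fun t : (ZMod 1380)ˣ => (t : ZMod 1380).val % 3 = 1), sz ((t : ZMod 1380) * x) =
      (Sv x.val : ℚ) / 1380 - 88 := by
  rw [Finset.sum_congr rfl fun t _ => sz_mul 1380 x hx t,
    units_sum 1380 (fun k => ((k * x.val % 1380 : ℕ) : ℚ) / (1380 : ℕ) - 1 / 2), sum_range, list_sum, Lv_len, half]
  rfl

/-! ## The finite check -/

private def Ck (g : ℕ) (w : ℤ → ℤ) (v : ℕ) : Prop :=
  Nat.gcd 1380 v = g → (3 * (Sv v : ℤ) + 11040 * w ((v / g : ℕ) : ℤ) = 364320 ∧ (g ∣ 10 → (v / g) % 2 = 1))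

private instance (g : ℕ) (w : ℤ → ℤ) (v : ℕ) : Decidable (Ck g w v) := by
  unfold Ck
  infer_instance

private lemma ck69 : ∀ v < 1380, Ck 20 w69 v := by decide +kernel

private lemma ck138 : ∀ v < 1380, Ck 10 w138 v := by decide +kernel

private lemma ck276 : ∀ v < 1380, Ck 5 w276 v := by decide +kernel

private lemma ck690 : ∀ v < 1380, Ck 2 w690 v := by decide +kernel

private lemma finck (x : ZMod 1380) (n g : ℕ) (w : ℤ → ℤ) (hn : addOrderOf x = n) (hg : n * g = 1380) (h1 : n ≠ 1)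
    (hck : ∀ v < 1380, Ck g w v)
    (hw : (g ∣ 10 → (x.val / g) % 2 = 1) → Ph [3] 23 n 1 ((x.val / g : ℕ) : ℤ) = w ((x.val / g : ℕ) : ℤ)) :
    (8 : ℚ) * lam [3] 23 x =
      -3 * ∑ t ∈ univ.filter (fun t : (ZMod 1380)ˣ => (t : ZMod 1380).val % 3 = 1), sz ((t : ZMod 1380) * x) := by
  have hx : x ≠ 0 := by
    rintro rfl
    rw [addOrderOf_zero] at hn
    exact h1 hn.symm
  have h2 : addOrderOf x = 1380 / Nat.gcd 1380 x.val := by
    conv_lhs => rw [← ZMod.natCast_zmod_val x]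
    exact ZMod.addOrderOf_coe x.val (by norm_num)
  have h3 : Nat.gcd 1380 x.val = g := by
    have h4 : Nat.gcd 1380 x.val * (1380 / Nat.gcd 1380 x.val) = 1380 :=
      Nat.mul_div_cancel' (Nat.gcd_dvd_left _ _)
    rw [← h2, hn] at h4
    have hn0 : 0 < n := by
      rcases Nat.eq_zero_or_pos n with h | h
      · rw [h] at hg
        omega
      · exact h
    have h5 : n * Nat.gcd 1380 x.val = n * g := by rw [hg, mul_comm]; exact h4
    exact Nat.eq_of_mul_eq_mul_left hn0 h5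
  obtain ⟨h4, h5⟩ := hck x.val (ZMod.val_lt x) h3
  have hg0 : 1380 / n = g := by
    rw [← hg]
    refine Nat.mul_div_cancel_left _ ?_
    rcases Nat.eq_zero_or_pos n with h | h
    · rw [h] at hg
      omega
    · exact h
  have h6 : lam [3] 23 x = w ((x.val / g : ℕ) : ℤ) := by
    unfold lam
    rw [hn, hg0]
    exact hw h5
  rw [sumv x hx, h6]
  have h7 : 3 * (Sv x.val : ℚ) + 11040 * ((w ((x.val / g : ℕ) : ℤ) : ℤ) : ℚ) = 364320 := by exact_mod_cast h4
  linarith

end GBd2Aux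

open GBd2Aux in
theorem pBd2 (hUpsB : S_UpsB) (hUpsL : S_UpsL) : S_Bd2 := by
  intro x hx
  rcases hx with h | h | h | h
  · exact finck x 138 10 w138 h (by norm_num) (by norm_num) ck138 fun h1 =>
      v138 hUpsB hUpsL _ (by have := h1 (by norm_num); omega)
  · exact finck x 69 20 w69 h (by norm_num) (by norm_num) ck69 fun _ => v69 hUpsB _
  · exact finck x 276 5 w276 h (by norm_num) (by norm_num) ck276 fun _ => v276 _
  · exact finck x 690 2 w690 h (by norm_num) (by norm_num) ck690 fun h1 =>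
      v690 hUpsL _ (by have := h1 (by norm_num); omega)

end Pool.Agent.FO
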