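import Pool.Agent.Lib.MP_640417_ag.GT.SpecL

/-!
# Theorem GT, part L: finite check at level `420`
-/

set_option autoImplicit false

noncomputable section

open Finset Pool.Agent.FC

namespace Pool.Agent.FO

namespace GBd3Aux

/-- indicator of `v ≡ b` modulo `p` -/
private def cI (p v : ℕ) (b : ℤ) : ℤ := if (p : ℤ) ∣ (v : ℤ) - b then 1 else 0

/-- the finite check -/
private def Q (v : ℕ) : Prop := v.gcd 420 = 1 →
  420 * ((cI 4 v 1 - cI 4 v (-1)) * ((cI 3 v 1 - cI 3 v (-1)) * (cI 5 v 1 - cI 5 v (-1)))) =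
    2520 - ((([1, 61, 121, 181, 241, 361] : List ℕ).map fun j => j * v % 420).sum : ℤ) -
      ((([19, 79, 139, 199, 319, 379] : List ℕ).map fun j => j * v % 420).sum : ℤ)

private instance (v : ℕ) : Decidable (Q v) := by
  unfold Q cI
  infer_instance

private theorem chk : ∀ v < 420, Q v := by decide +kernel

private theorem fac (n p v : ℕ) (hn : n ≠ 0) (hp : p.Prime) (h1 : p ^ v ∣ n)
    (h2 : ¬ p ^ (v + 1) ∣ n) : n.factorization p = v := by
  have h3 := (hp.pow_dvd_iff_le_factorization hn).1 h1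
  have h4 : ¬ (v + 1 ≤ n.factorization p) := fun h =>
    h2 ((hp.pow_dvd_iff_le_factorization hn).2 h)
  omega

private theorem pf (p : ℕ) (hp : p.Prime) (h : p ∣ 420) : p = 2 ∨ p = 3 ∨ p = 5 ∨ p = 7 := by
  have h1 : p ∣ 2 * 2 * 3 * 5 * 7 := h
  rw [hp.dvd_mul, hp.dvd_mul, hp.dvd_mul, hp.dvd_mul,
    Nat.prime_dvd_prime_iff_eq hp Nat.prime_two,
    Nat.prime_dvd_prime_iff_eq hp Nat.prime_three,
    Nat.prime_dvd_prime_iff_eq hp Nat.prime_five,
    Nat.prime_dvd_prime_iff_eq hp (by norm_num : Nat.Prime 7)] at h1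
  tauto

/-- The sum over the units in a residue class. -/
private theorem sumU (m : ℕ) [NeZero m] (hm : 1 < m) (x : ZMod m) (hx : x.val.gcd m = 1)
    (r c : ℕ) (l : List ℕ) (hl : l.Nodup)
    (h : (range m).filter (fun j => j % c = r ∧ j.gcd m = 1) = l.toFinset) :
    ∑ t ∈ univ.filter (fun t : (ZMod m)ˣ => (t : ZMod m).val % c = r),
      sz ((t : ZMod m) * x) = (((l.map fun j => j * x.val % m).sum : ℕ) : ℚ) / m -
        (l.length : ℚ) / 2 := by
  have h1 : ∑ t ∈ univ.filter (fun t : (ZMod m)ˣ => (t : ZMod m).val % c = r),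
      sz ((t : ZMod m) * x) =
      ∑ j ∈ (range m).filter (fun j => j % c = r ∧ j.gcd m = 1),
        (((j * x.val % m : ℕ) : ℚ) / m - 1 / 2) := by
    refine Finset.sum_bij (fun t _ => (t : ZMod m).val) ?_ ?_ ?_ ?_
    · intro t ht
      rw [Finset.mem_filter, Finset.mem_range]
      exact ⟨ZMod.val_lt _, (Finset.mem_filter.1 ht).2, ZMod.val_coe_unit_coprime t⟩
    · intro t _ t' _ htt
      exact Units.ext (ZMod.val_injective m htt)
    · intro j hj
      rw [Finset.mem_filter, Finset.mem_range] at hj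
      have hv : ((ZMod.unitOfCoprime j hj.2.2 : (ZMod m)ˣ) : ZMod m).val = j := by
        rw [ZMod.coe_unitOfCoprime]
        exact ZMod.val_cast_of_lt hj.1
      refine ⟨ZMod.unitOfCoprime j hj.2.2, ?_, hv⟩
      rw [Finset.mem_filter]
      refine ⟨Finset.mem_univ _, ?_⟩
      rw [hv]
      exact hj.2.1
    · intro t _
      have h2 : ((t : ZMod m) * x).val = (t : ZMod m).val * x.val % m := ZMod.val_mul _ _
      have h3 : (t : ZMod m) * x ≠ 0 := by
        intro h0
        have h4 : x = 0 := (Units.mul_right_eq_zero t).1 h0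
        rw [h4, ZMod.val_zero, Nat.gcd_zero_left] at hx
        omega
      unfold sz
      rw [if_neg h3, h2]
  rw [h1, h, Finset.sum_sub_distrib, Finset.sum_const, List.toFinset_card_of_nodup hl,
    ← Finset.sum_div, ← Nat.cast_sum, List.sum_toFinset _ hl, nsmul_eq_mul]
  ring

private theorem copBd (m : ℕ) [NeZero m] (x : ZMod m) (hx : addOrderOf x = m) :
    x.val.gcd m = 1 := by
  have h0 : 0 < m := Nat.pos_of_ne_zero (NeZero.ne m)
  have h1 : addOrderOf x = m / Nat.gcd m x.val := by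
    conv_lhs => rw [← ZMod.natCast_zmod_val x]
    exact ZMod.addOrderOf_coe _ (NeZero.ne m)
  rw [hx] at h1
  have h2 : Nat.gcd m x.val ∣ m := Nat.gcd_dvd_left _ _
  have h3 := Nat.div_mul_cancel h2
  rw [← h1] at h3
  rw [Nat.gcd_comm]
  exact Nat.eq_of_mul_eq_mul_left h0 (h3.trans (mul_one m).symm)

private theorem lam_self (m : ℕ) [NeZero m] (x : ZMod m) (hx : addOrderOf x = m) (T : List ℕ)
    (q : ℕ) : lam T q x = Ph T q m 1 ((x.val : ℕ) : ℤ) := by
  unfold lam
  rw [hx, Nat.div_self (Nat.pos_of_ne_zero (NeZero.ne m)), Nat.div_one]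

end GBd3Aux

open GBd3Aux in
theorem pBd3 (hUpsB : S_UpsB) : S_Bd3 := by
  intro x hx
  have hv := ZMod.val_lt x
  have hcop := copBd 420 x hx
  have f2 : Nat.factorization 420 2 = 2 := fac 420 2 2 (by norm_num) (by norm_num) (by norm_num)
    (by norm_num)
  have f3 : Nat.factorization 420 3 = 1 := fac 420 3 1 (by norm_num) (by norm_num) (by norm_num)
    (by norm_num)
  have f5 : Nat.factorization 420 5 = 1 := fac 420 5 1 (by norm_num) (by norm_num) (by norm_num)
    (by norm_num)
  have hE : ((Nat.primeFactors 420 \ ([2, 3, 5] : List ℕ).toFinset).erase 7) = ∅ := by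
    refine Finset.eq_empty_of_forall_notMem fun p hp => ?_
    rw [Finset.mem_erase, Finset.mem_sdiff] at hp
    obtain ⟨h7, hp1, hp2⟩ := hp
    rcases pf p (Nat.prime_of_mem_primeFactors hp1) (Nat.dvd_of_mem_primeFactors hp1) with
      h | h | h | h
    · exact hp2 (by rw [h]; decide)
    · exact hp2 (by rw [h]; decide)
    · exact hp2 (by rw [h]; decide)
    · exact h7 h
  have hlam : lam [2, 3, 5] 7 x = (cI 4 x.val 1 - cI 4 x.val (-1)) *
      ((cI 3 x.val 1 - cI 3 x.val (-1)) * (cI 5 x.val 1 - cI 5 x.val (-1))) := by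
    rw [lam_self 420 x hx]
    generalize x.val = v
    unfold Ph
    rw [if_pos (by decide), hE,
      (hUpsB (ik 420 (v : ℤ)) (ik 420 (v : ℤ)) [2, 3, 5] 1 ∅).2.2.2.2]
    simp only [List.map_cons, List.map_nil, List.prod_cons, List.prod_nil, mul_one]
    unfold ik cI
    rw [f2, f3, f5]
    norm_num
  have hQ := chk _ hv hcop
  rw [sumU 420 (by norm_num) x hcop 1 60 [1, 61, 121, 181, 241, 361] (by decide)
      (by decide +kernel),
    sumU 420 (by norm_num) x hcop 19 60 [19, 79, 139, 199, 319, 379] (by decide)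
      (by decide +kernel), hlam]
  generalize (List.map (fun j => j * x.val % 420) [1, 61, 121, 181, 241, 361]).sum = S1 at hQ ⊢
  generalize (List.map (fun j => j * x.val % 420) [19, 79, 139, 199, 319, 379]).sum = S2 at hQ ⊢
  have hQ' := congrArg (fun z : ℤ => (z : ℚ)) hQ
  simp only [List.length_cons, List.length_nil]
  push_cast at hQ' ⊢
  linarith

end Pool.Agent.FO
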