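import Pool.Agent.Lib.MP_640417_ag.GT.SpecS

/-!
# Theorem GT, part S: the finite check at the level `1740`
-/

set_option autoImplicit false

noncomputable section

open Finset Pool.Agent.FC

namespace Pool.Agent.FO

namespace GBd4Aux

/-! ## Values of the functional -/

/-- the indicator function of `y ≡ b` modulo `k` -/
private def J (k : ℕ) (y b : ℤ) : ℤ := if (y - b) % (k : ℤ) = 0 then 1 else 0

private lemma ik_eq (n : ℕ) (y : ℤ) (s k : ℕ) (h : s ^ n.factorization s = k) (b : ℤ) : ik n y s b = J k y b := by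
  unfold ik J
  rw [h]
  by_cases hd : ((k : ℕ) : ℤ) ∣ y - b
  · rw [if_pos hd, if_pos (Int.emod_eq_zero_of_dvd hd)]
  · rw [if_neg hd, if_neg fun h => hd (Int.dvd_of_emod_eq_zero h)]

private lemma fac (n p k m : ℕ) (hp : p.Prime) (hn : n = p ^ k * m) (hm : ¬ p ∣ m) : n.factorization p = k := by
  have hm0 : m ≠ 0 := fun h => hm (h ▸ dvd_zero p)
  rw [hn, Nat.factorization_mul (pow_ne_zero _ hp.ne_zero) hm0, hp.factorization_pow, Finsupp.add_apply,
    Finsupp.single_eq_same, Nat.factorization_eq_zero_of_not_dvd hm, add_zero]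

private lemma ik_val (n : ℕ) (y : ℤ) (s k m : ℕ) (hs : s.Prime) (hn : n = s ^ k * m) (hm : ¬ s ∣ m) (b : ℤ) :
    ik n y s b = J (s ^ k) y b :=
  ik_eq n y s (s ^ k) (by rw [fac n s k m hs hn hm]) b

private lemma pr_single (s : ℕ) : pr {s} = s := by
  unfold pr
  exact Finset.prod_singleton _ _

private lemma pr_empty : pr ∅ = 1 := by
  unfold pr
  exact Finset.prod_empty

private lemma Rf_empty (I : ℕ → ℤ → ℤ) (c : ℤ) (p : ℕ) : Rf I c p ∅ = I p c := by
  have h1 : (∅ : Finset ℕ).ssubsets = ∅ := by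
    ext C
    rw [Finset.mem_ssubsets]
    exact ⟨fun h => absurd h (Finset.not_ssubset_empty C), fun h => absurd h (Finset.notMem_empty C)⟩
  rw [Rf_eq, h1]
  simp [pr_empty]

private lemma Rf_single (I : ℕ → ℤ → ℤ) (c : ℤ) (p s : ℕ) : Rf I c p {s} = I s c * (I p c - I p (c * s)) := by
  have h1 : ({s} : Finset ℕ).ssubsets = {∅} := by
    ext C
    rw [Finset.mem_ssubsets, Finset.ssubset_singleton_iff, Finset.mem_singleton]
  rw [Rf_eq, h1, Finset.sum_singleton, Rf_empty, pr_single]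
  simp only [Finset.card_singleton, Finset.prod_singleton, Finset.erase_singleton, pr_empty, Finset.sdiff_empty,
    mul_one]
  ring

private lemma ups_one (I : ℕ → ℤ → ℤ) (p : ℕ) (c : ℤ) (s : ℕ) : ups I [p] c {s} =
    I s c * (I p c - I p (c * s)) - I s (-c) * (I p (-c) - I p (-c * s)) := by
  have h1 : ({s} : Finset ℕ).powerset = {∅, {s}} := by
    ext C
    rw [Finset.mem_powerset, Finset.subset_singleton_iff, Finset.mem_insert, Finset.mem_singleton]
  have h2 : (∅ : Finset ℕ) ≠ {s} := (Finset.singleton_ne_empty s).symm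
  unfold ups
  rw [h1, Finset.sum_pair h2, Finset.sum_pair h2]
  unfold ups
  rw [Finset.sdiff_empty, Finset.sdiff_self, if_neg h2.symm, if_pos rfl, Rf_single, Rf_single]
  simp only [List.length_nil]
  ring

private lemma ups_zero (hUpsB : S_UpsB) (I : ℕ → ℤ → ℤ) (p : ℕ) (c : ℤ) : ups I [p] c ∅ = I p c - I p (-c) := by
  rw [(hUpsB I I [p] c ∅).2.2.2.2, List.map_cons, List.map_nil, List.prod_cons, List.prod_nil, mul_one]

private lemma odd_ik (y : ℤ) (hy : y % 2 = 1) (b : ℤ) (hb : IsCoprime b ((2 : ℕ) : ℤ)) : J 2 y b = 1 := by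
  obtain ⟨u, v, h⟩ := hb
  have h1 : b % 2 = 1 := by
    rcases Int.emod_two_eq_zero_or_one b with h2 | h2
    · exfalso
      obtain ⟨w, rfl⟩ := Int.dvd_of_emod_eq_zero h2
      have h3 : 2 * (u * w + v) = 1 := by
        push_cast at h
        linarith
      omega
    · exact h2
  unfold J
  rw [if_pos]
  push_cast
  omega

private lemma Ph_eq (n : ℕ) (y : ℤ) (h1 : 29 ∣ n) (h2 : 3 ∣ n) (L : Finset ℕ)
    (hL : (n.primeFactors \ [3].toFinset).erase 29 = L) : Ph [3] 29 n 1 y = ups (ik n y) [3] 1 L := by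
  unfold Ph
  have h3 : ∀ s ∈ [3], s ∣ n := fun s hs => by
    rw [List.mem_singleton] at hs
    rw [hs]
    exact h2
  rw [if_pos ⟨h1, h3⟩, hL]

private lemma pf87 : (87 : ℕ).primeFactors = {3, 29} := by
  simp [Nat.primeFactors, Nat.primeFactorsList_ofNat]

private lemma pf174 : (174 : ℕ).primeFactors = {2, 3, 29} := by
  simp [Nat.primeFactors, Nat.primeFactorsList_ofNat]

private lemma pf348 : (348 : ℕ).primeFactors = {2, 3, 29} := by
  simp [Nat.primeFactors, Nat.primeFactorsList_ofNat]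

private lemma pf870 : (870 : ℕ).primeFactors = {2, 3, 5, 29} := by
  simp [Nat.primeFactors, Nat.primeFactorsList_ofNat]

/-- the value for the order `87` -/
private def w87 (y : ℤ) : ℤ := J 3 y 1 - J 3 y (-1)

/-- the value for the order `174` -/
private def w174 (y : ℤ) : ℤ := (J 3 y 1 - J 3 y (-1)) - (J 3 y 2 - J 3 y (-2))

/-- the value for the order `348` -/
private def w348 (y : ℤ) : ℤ := J 4 y 1 * (J 3 y 1 - J 3 y 2) - J 4 y (-1) * (J 3 y (-1) - J 3 y (-2))

/-- the value for the order `870` -/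
private def w870 (y : ℤ) : ℤ :=
  (J 5 y 1 * (J 3 y 1 - J 3 y 5) - J 5 y (-1) * (J 3 y (-1) - J 3 y (-5))) -
    (J 5 y 2 * (J 3 y 2 - J 3 y 10) - J 5 y (-2) * (J 3 y (-2) - J 3 y (-10)))

private lemma v87 (hUpsB : S_UpsB) (y : ℤ) : Ph [3] 29 87 1 y = w87 y := by
  have h3 : ∀ b, ik 87 y 3 b = J 3 y b := ik_val 87 y 3 1 29 (by norm_num) (by norm_num) (by norm_num)
  rw [Ph_eq 87 y (by norm_num) (by norm_num) ∅ (by rw [pf87]; rfl), ups_zero hUpsB, h3, h3]
  rfl

private lemma v348 (y : ℤ) : Ph [3] 29 348 1 y = w348 y := by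
  have h3 : ∀ b, ik 348 y 3 b = J 3 y b := ik_val 348 y 3 1 116 (by norm_num) (by norm_num) (by norm_num)
  have h2 : ∀ b, ik 348 y 2 b = J 4 y b := ik_val 348 y 2 2 87 (by norm_num) (by norm_num) (by norm_num)
  rw [Ph_eq 348 y (by norm_num) (by norm_num) {2} (by rw [pf348]; rfl), ups_one, h3, h3, h3, h3, h2, h2]
  unfold w348
  norm_num

private lemma v174 (hUpsB : S_UpsB) (hUpsL : S_UpsL) (y : ℤ) (hy : y % 2 = 1) : Ph [3] 29 174 1 y = w174 y := by
  have h3 : ∀ b, ik 174 y 3 b = J 3 y b := ik_val 174 y 3 1 58 (by norm_num) (by norm_num) (by norm_num)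
  have h2 : ∀ b, ik 174 y 2 b = J 2 y b := ik_val 174 y 2 1 87 (by norm_num) (by norm_num) (by norm_num)
  rw [Ph_eq 174 y (by norm_num) (by norm_num) {2} (by rw [pf174]; rfl),
    hUpsL (ik 174 y) [3] 1 {2} 2 (by norm_num) (by norm_num) (by norm_num)
      (fun b hb => (h2 b).trans (odd_ik y hy b hb)) isCoprime_one_left,
    Finset.erase_singleton, ups_zero hUpsB, ups_zero hUpsB, h3, h3, h3, h3]
  unfold w174
  norm_num

private lemma v870 (hUpsL : S_UpsL) (y : ℤ) (hy : y % 2 = 1) : Ph [3] 29 870 1 y = w870 y := by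
  have h3 : ∀ b, ik 870 y 3 b = J 3 y b := ik_val 870 y 3 1 290 (by norm_num) (by norm_num) (by norm_num)
  have h5 : ∀ b, ik 870 y 5 b = J 5 y b := ik_val 870 y 5 1 174 (by norm_num) (by norm_num) (by norm_num)
  have h2 : ∀ b, ik 870 y 2 b = J 2 y b := ik_val 870 y 2 1 435 (by norm_num) (by norm_num) (by norm_num)
  have e : ({2, 5} : Finset ℕ).erase 2 = {5} := by rfl
  rw [Ph_eq 870 y (by norm_num) (by norm_num) {2, 5} (by rw [pf870]; rfl),
    hUpsL (ik 870 y) [3] 1 {2, 5} 2 (by norm_num) (by norm_num) (by norm_num)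
      (fun b hb => (h2 b).trans (odd_ik y hy b hb)) isCoprime_one_left,
    e, ups_one, ups_one]
  simp only [h3, h5]
  unfold w870
  norm_num

/-! ## The right side -/

/-- the numbers `t < 1740` prime to `1740` with `t ≡ 1` modulo `3` -/
private def Lv : List ℕ :=
  [1, 7, 13, 19, 31, 37, 43, 49, 61, 67, 73, 79, 91, 97, 103, 109, 121, 127, 133, 139, 151, 157,
  163, 169, 181, 187, 193, 199, 211, 217, 223, 229, 241, 247, 253, 259, 271, 277, 283, 289, 301,
  307, 313, 331, 337, 343, 349, 361, 367, 373, 379, 391, 397, 403, 409, 421, 427, 433, 439, 451,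
  457, 463, 469, 481, 487, 499, 511, 517, 523, 529, 541, 547, 553, 559, 571, 577, 583, 589, 601,
  607, 613, 619, 631, 637, 643, 649, 661, 673, 679, 691, 697, 703, 709, 721, 727, 733, 739, 751,
  757, 763, 769, 781, 787, 793, 799, 811, 817, 823, 829, 847, 853, 859, 871, 877, 883, 889, 901,
  907, 913, 919, 931, 937, 943, 949, 961, 967, 973, 979, 991, 997, 1003, 1009, 1021, 1027, 1033,
  1039, 1051, 1057, 1063, 1069, 1081, 1087, 1093, 1099, 1111, 1117, 1123, 1129, 1141, 1147, 1153,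
  1159, 1171, 1177, 1183, 1201, 1207, 1213, 1219, 1231, 1237, 1243, 1249, 1261, 1267, 1273, 1279,
  1291, 1297, 1303, 1309, 1321, 1327, 1333, 1339, 1351, 1357, 1369, 1381, 1387, 1393, 1399, 1411,
  1417, 1423, 1429, 1441, 1447, 1453, 1459, 1471, 1477, 1483, 1489, 1501, 1507, 1513, 1519, 1531,
  1543, 1549, 1561, 1567, 1573, 1579, 1591, 1597, 1603, 1609, 1621, 1627, 1633, 1639, 1651, 1657,
  1663, 1669, 1681, 1687, 1693, 1699, 1717, 1723, 1729]

/-- the sum of the residues of the `t v` -/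
private def Sv (v : ℕ) : ℕ := (Lv.map fun k => k * v % 1740).sum

private lemma Lv_eq : (List.range 1740).filter (fun k => decide (k.gcd 1740 = 1 ∧ k % 3 = 1)) = Lv := by
  decide +kernel

private lemma Lv_len : Lv.length = 224 := by
  decide +kernel

private lemma sum_range (f : ℕ → ℚ) :
    ∑ k ∈ (range 1740).filter (fun k => k.gcd 1740 = 1 ∧ k % 3 = 1), f k = (Lv.map f).sum := by
  rw [← Lv_eq]
  rfl

private lemma units_sum (M : ℕ) [NeZero M] (g : ℕ → ℚ) :
    ∑ t ∈ univ.filter (fun t : (ZMod M)ˣ => (t : ZMod M).val % 3 = 1), g (t : ZMod M).val =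
      ∑ k ∈ (range M).filter (fun k => k.gcd M = 1 ∧ k % 3 = 1), g k := by
  refine Finset.sum_bij (fun t _ => (t : ZMod M).val) (fun t ht => ?_) (fun t _ s _ h => ?_)
    (fun k hk => ?_) (fun t _ => rfl)
  · rw [Finset.mem_filter] at ht
    rw [Finset.mem_filter, Finset.mem_range]
    exact ⟨ZMod.val_lt _, ZMod.val_coe_unit_coprime t, ht.2⟩
  · exact Units.ext (ZMod.val_injective M h)
  · rw [Finset.mem_filter, Finset.mem_range] at hk
    have h1 : ((ZMod.unitOfCoprime k hk.2.1 : (ZMod M)ˣ) : ZMod M).val = k := by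
      rw [ZMod.coe_unitOfCoprime, ZMod.val_natCast, Nat.mod_eq_of_lt hk.1]
    refine ⟨ZMod.unitOfCoprime k hk.2.1, ?_, h1⟩
    rw [Finset.mem_filter, h1]
    exact ⟨Finset.mem_univ _, hk.2.2⟩

private lemma sz_mul (M : ℕ) [NeZero M] (x : ZMod M) (hx : x ≠ 0) (t : (ZMod M)ˣ) :
    sz ((t : ZMod M) * x) = (((t : ZMod M).val * x.val % M : ℕ) : ℚ) / M - 1 / 2 := by
  have h2 : (t : ZMod M) * x ≠ 0 := fun h => hx (t.isUnit.mul_right_eq_zero.1 h)
  unfold sz
  rw [if_neg h2, ZMod.val_mul]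

private lemma list_sum (M v : ℕ) (l : List ℕ) : (l.map fun k => ((k * v % M : ℕ) : ℚ) / M - 1 / 2).sum =
    (((l.map fun k => k * v % M).sum : ℕ) : ℚ) / M - (l.length : ℚ) / 2 := by
  induction l with
  | nil => simp
  | cons a l ih =>
    rw [List.map_cons, List.map_cons, List.sum_cons, List.sum_cons, ih, List.length_cons]
    push_cast
    ring

private lemma half (s : ℚ) : s / ((1740 : ℕ) : ℚ) - ((224 : ℕ) : ℚ) / 2 = s / 1740 - 112 := by
  norm_num

private lemma sumv (x : ZMod 1740) (hx : x ≠ 0) :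
    ∑ t ∈ univ.filter (fun t : (ZMod 1740)ˣ => (t : ZMod 1740).val % 3 = 1), sz ((t : ZMod 1740) * x) =
      (Sv x.val : ℚ) / 1740 - 112 := by
  rw [Finset.sum_congr rfl fun t _ => sz_mul 1740 x hx t,
    units_sum 1740 (fun k => ((k * x.val % 1740 : ℕ) : ℚ) / (1740 : ℕ) - 1 / 2), sum_range, list_sum, Lv_len, half]
  rfl

/-! ## The finite check -/

private def Ck (g : ℕ) (w : ℤ → ℤ) (v : ℕ) : Prop :=
  Nat.gcd 1740 v = g → (3 * (Sv v : ℤ) + 13920 * w ((v / g : ℕ) : ℤ) = 584640 ∧ (g ∣ 10 → (v / g) % 2 = 1))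

private instance (g : ℕ) (w : ℤ → ℤ) (v : ℕ) : Decidable (Ck g w v) := by
  unfold Ck
  infer_instance

private lemma ck87 : ∀ v < 1740, Ck 20 w87 v := by decide +kernel

private lemma ck174 : ∀ v < 1740, Ck 10 w174 v := by decide +kernel

private lemma ck348 : ∀ v < 1740, Ck 5 w348 v := by decide +kernel

private lemma ck870 : ∀ v < 1740, Ck 2 w870 v := by decide +kernel

private lemma finck (x : ZMod 1740) (n g : ℕ) (w : ℤ → ℤ) (hn : addOrderOf x = n) (hg : n * g = 1740) (h1 : n ≠ 1)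
    (hck : ∀ v < 1740, Ck g w v)
    (hw : (g ∣ 10 → (x.val / g) % 2 = 1) → Ph [3] 29 n 1 ((x.val / g : ℕ) : ℤ) = w ((x.val / g : ℕ) : ℤ)) :
    (8 : ℚ) * lam [3] 29 x =
      -3 * ∑ t ∈ univ.filter (fun t : (ZMod 1740)ˣ => (t : ZMod 1740).val % 3 = 1), sz ((t : ZMod 1740) * x) := by
  have hx : x ≠ 0 := by
    rintro rfl
    rw [addOrderOf_zero] at hn
    exact h1 hn.symm
  have h2 : addOrderOf x = 1740 / Nat.gcd 1740 x.val := by
    conv_lhs => rw [← ZMod.natCast_zmod_val x]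
    exact ZMod.addOrderOf_coe x.val (by norm_num)
  have h3 : Nat.gcd 1740 x.val = g := by
    have h4 : Nat.gcd 1740 x.val * (1740 / Nat.gcd 1740 x.val) = 1740 :=
      Nat.mul_div_cancel' (Nat.gcd_dvd_left _ _)
    rw [← h2, hn] at h4
    have hn0 : 0 < n := by
      rcases Nat.eq_zero_or_pos n with h | h
      · rw [h] at hg
        omega
      · exact h
    have h5 : n * Nat.gcd 1740 x.val = n * g := by rw [hg, mul_comm]; exact h4
    exact Nat.eq_of_mul_eq_mul_left hn0 h5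
  obtain ⟨h4, h5⟩ := hck x.val (ZMod.val_lt x) h3
  have hg0 : 1740 / n = g := by
    rw [← hg]
    refine Nat.mul_div_cancel_left _ ?_
    rcases Nat.eq_zero_or_pos n with h | h
    · rw [h] at hg
      omega
    · exact h
  have h6 : lam [3] 29 x = w ((x.val / g : ℕ) : ℤ) := by
    unfold lam
    rw [hn, hg0]
    exact hw h5
  rw [sumv x hx, h6]
  have h7 : 3 * (Sv x.val : ℚ) + 13920 * ((w ((x.val / g : ℕ) : ℤ) : ℤ) : ℚ) = 584640 := by exact_mod_cast h4
  linarith

private def Cz (g a : ℕ) (v : ℕ) : Prop :=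
  Nat.gcd 1740 v = g → ((Sv v : ℤ) = 194880 ∨ (a = 1 ∧ (3 * (Sv v : ℤ) = 974400 ∨ 3 * (Sv v : ℤ) = 194880)))

private instance (g a : ℕ) (v : ℕ) : Decidable (Cz g a v) := by
  unfold Cz
  infer_instance

private lemma cz2 : ∀ v < 1740, Cz 870 0 v := by decide +kernel

private lemma cz6 : ∀ v < 1740, Cz 290 1 v := by decide +kernel

private lemma cz58 : ∀ v < 1740, Cz 30 0 v := by decide +kernel

private lemma gcd_of_ord (x : ZMod 1740) (n g : ℕ) (hn : addOrderOf x = n) (hg : n * g = 1740) :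
    Nat.gcd 1740 x.val = g := by
  have h2 : addOrderOf x = 1740 / Nat.gcd 1740 x.val := by
    conv_lhs => rw [← ZMod.natCast_zmod_val x]
    exact ZMod.addOrderOf_coe x.val (by norm_num)
  have h4 : Nat.gcd 1740 x.val * (1740 / Nat.gcd 1740 x.val) = 1740 :=
    Nat.mul_div_cancel' (Nat.gcd_dvd_left _ _)
  rw [← h2, hn] at h4
  have hn0 : 0 < n := by
    rcases Nat.eq_zero_or_pos n with h | h
    · rw [h] at hg
      omega
    · exact h
  have h5 : n * Nat.gcd 1740 x.val = n * g := by rw [hg, mul_comm]; exact h4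
  exact Nat.eq_of_mul_eq_mul_left hn0 h5

private lemma lowck (x : ZMod 1740) (n g a : ℕ) (hn : addOrderOf x = n) (hg : n * g = 1740) (h1 : n ≠ 1)
    (h0 : ¬ (29 ∣ n ∧ 3 ∣ n)) (hck : ∀ v < 1740, Cz g a v) :
    lam [3] 29 x = 0 ∧ (sA x = 0 ∨ (a = 1 ∧ (3 * sA x = 224 ∨ 3 * sA x = -224))) := by
  have hx : x ≠ 0 := by
    rintro rfl
    rw [addOrderOf_zero] at hn
    exact h1 hn.symm
  constructor
  · unfold lam
    rw [hn]
    unfold Ph
    rw [if_neg]
    rintro ⟨h2, h3⟩
    exact h0 ⟨h2, h3 3 (List.mem_singleton.2 rfl)⟩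
  · have hs : sA x = (Sv x.val : ℚ) / 1740 - 112 := sumv x hx
    rw [hs]
    rcases hck x.val (ZMod.val_lt x) (gcd_of_ord x n g hn hg) with h4 | ⟨ha, h4 | h4⟩
    · left
      have h5 : (Sv x.val : ℚ) = 194880 := by exact_mod_cast h4
      rw [h5]
      norm_num
    · right
      have h5 : 3 * (Sv x.val : ℚ) = 974400 := by exact_mod_cast h4
      refine ⟨ha, Or.inl ?_⟩
      linarith
    · right
      have h5 : 3 * (Sv x.val : ℚ) = 194880 := by exact_mod_cast h4
      refine ⟨ha, Or.inr ?_⟩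
      linarith

end GBd4Aux

open GBd4Aux in
theorem pBd4 (hUpsB : S_UpsB) (hUpsL : S_UpsL) (_hLamB : S_LamB) : S_Bd4 := by
  intro x
  refine ⟨?_, ?_⟩
  · intro hx
    rcases hx with h | h | h | h
    · exact finck x 174 10 w174 h (by norm_num) (by norm_num) ck174 fun h1 =>
        v174 hUpsB hUpsL _ (by have := h1 (by norm_num); omega)
    · exact finck x 87 20 w87 h (by norm_num) (by norm_num) ck87 fun _ => v87 hUpsB _
    · exact finck x 348 5 w348 h (by norm_num) (by norm_num) ck348 fun _ => v348 _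
    · exact finck x 870 2 w870 h (by norm_num) (by norm_num) ck870 fun h1 =>
        v870 hUpsL _ (by have := h1 (by norm_num); omega)
  · intro hx
    rcases hx with h | h | h
    · obtain ⟨h1, h2 | ⟨h2, _⟩⟩ := lowck x 2 870 0 h (by norm_num) (by norm_num) (by norm_num) cz2
      · exact ⟨h1, Or.inl h2⟩
      · exact absurd h2 (by norm_num)
    · obtain ⟨h1, h2 | ⟨_, h2⟩⟩ := lowck x 6 290 1 h (by norm_num) (by norm_num) (by norm_num) cz6
      · exact ⟨h1, Or.inl h2⟩
      · exact ⟨h1, Or.inr h2⟩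
    · obtain ⟨h1, h2 | ⟨h2, _⟩⟩ := lowck x 58 30 0 h (by norm_num) (by norm_num) (by norm_num) cz58
      · exact ⟨h1, Or.inl h2⟩
      · exact absurd h2 (by norm_num)

end Pool.Agent.FO
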