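import Pool.Agent.Lib.MP_640417_ag.GT.SpecR

/-!
# Theorem GT, part R: relations of the Stickelberger functions of the sets `X_S`
-/

set_option autoImplicit false

noncomputable section

open Finset Pool.Agent.FC

namespace Pool.Agent.FO

open GBtRAux in
theorem pBgR (hEuH : S_EuH) (hXgE : S_XgE) (hXgN : S_XgN) (hXgM : S_XgM) : S_BgR := by
  classical
  intro m _ T e hTp hTm hE
  -- representatives
  have hrep : ∀ S ⊆ T, ∀ x ∈ Xs m S, addOrderOf x = dT S ∧ ∃ w : ℤ,
      x = ((m / dT S : ℕ) : ZMod m) * ((w : ℤ) : ZMod m) := by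
    intro S hST x hx
    obtain ⟨-, -, -, s4, -, s6⟩ := gSqX m S (fun q hq => hTp q (hST hq)) ((dT_mono hST).trans hTm)
    unfold Xs at hx
    have ho := s6 x (Finset.mem_filter.1 hx).2
    obtain ⟨w, -, hw⟩ := s4 x ho
    exact ⟨ho, w, hw⟩
  refine ⟨?_, ?_, ?_⟩
  · intro S hST p hpT hpS g
    obtain ⟨-, a3⟩ := hEuH m T e hTp hTm hE S hST
    rw [P_Xs, P_Xs]
    congr 1
    refine Finset.sum_congr rfl fun x hx => ?_
    obtain ⟨-, w, rfl⟩ := hrep S hST x hx
    rw [Units.val_mul, mul_assoc, a3 p hpT hpS w]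
  · intro S hST p hpS g
    have hS'S : S.erase p ⊆ S := Finset.erase_subset p S
    have hS'T := hS'S.trans hST
    have hSp : ∀ q ∈ S, q.Prime := fun q hq => hTp q (hST hq)
    have hSm : dT S ∣ m := (dT_mono hST).trans hTm
    obtain ⟨s1, -, -, -, -, -⟩ := gSqX m S hSp hSm
    obtain ⟨hdd, hcop⟩ := s1 p hpS
    obtain ⟨n1, n3⟩ := hXgN m T e hTp hTm hE S hST p hpS
    have hc : c4 p * dT (S.erase p) = dT S := by rw [mul_comm]; exact hdd
    rw [P_Xs, P_Xs, P_Xs, P_Xs]
    have key : ∑ x ∈ Xs m S, sz ((g : ZMod m) * x) +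
        ∑ x ∈ Xs m S, sz (((g * e p : (ZMod m)ˣ) : ZMod m) * x) =
        ∑ x ∈ Xs m (S.erase p), sz ((g : ZMod m) * x) -
        ∑ x ∈ Xs m (S.erase p),
          sz (((g * ∏ u ∈ nr T p, e u : (ZMod m)ˣ) : ZMod m) * x) := by
      have h1 := hXgE m T e hTp hTm hE S hST p hpS (fun x => sz ((g : ZMod m) * x))
      have h2 : ∑ x ∈ Xs m S, sz (((g * e p : (ZMod m)ˣ) : ZMod m) * x) =
          ∑ x ∈ Xs m S, sz ((g : ZMod m) * ((e p : ZMod m) * x)) := by
        refine Finset.sum_congr rfl fun x _ => ?_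
        rw [Units.val_mul, mul_assoc]
      rw [h2, h1]
      -- fibres
      have h3 : ∑ x ∈ univ.filter (fun x : ZMod m =>
          ((c4 p : ℕ) : ZMod m) * x ∈ Xs m (S.erase p) ∧ addOrderOf x = dT S),
          sz ((g : ZMod m) * x) =
          ∑ y ∈ Xs m (S.erase p), ∑ x ∈ univ.filter (fun x : ZMod m =>
            ((c4 p : ℕ) : ZMod m) * x = y ∧ addOrderOf x = dT S), sz ((g : ZMod m) * x) := by
        rw [← Finset.sum_fiberwise_of_maps_to (g := fun x : ZMod m => ((c4 p : ℕ) : ZMod m) * x)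
          (t := Xs m (S.erase p)) (fun x hx => (Finset.mem_filter.1 hx).2.1)]
        refine Finset.sum_congr rfl fun y hy => ?_
        refine Finset.sum_congr ?_ fun _ _ => rfl
        ext x
        rw [Finset.mem_filter, Finset.mem_filter, Finset.mem_filter]
        constructor
        · rintro ⟨⟨h4, -, h5⟩, h6⟩
          exact ⟨h4, h6, h5⟩
        · rintro ⟨h4, h6, h5⟩
          exact ⟨⟨h4, by rw [h6]; exact hy, h5⟩, h6⟩
      rw [h3, ← n3 (fun y => ∑ x ∈ univ.filter (fun x : ZMod m =>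
            ((c4 p : ℕ) : ZMod m) * x = y ∧ addOrderOf x = dT S), sz ((g : ZMod m) * x)),
        ← n3 (fun x => sz ((g : ZMod m) * x)), ← Finset.sum_sub_distrib]
      refine Finset.sum_congr rfl fun x hx => ?_
      obtain ⟨hz, hy⟩ := n1 x hx
      have h4 := gDsU m p (dT (S.erase p)) (hSp p hpS) hcop (by rw [hc]; exact hSm) _ _
        (hrep _ hS'T _ hy).1 hz rfl g
      rw [hc] at h4
      rw [Units.val_mul, mul_assoc]
      exact h4
    linear_combination 2 * key
  · intro S hST g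
    have h1 := hXgM m T e hTp hTm hE S hST fun x => sz ((g : ZMod m) * x)
    rw [P_Xs, P_Xs, ← mul_neg, ← Finset.sum_neg_distrib]
    congr 1
    have h2 : ∀ x : ZMod m, sz (((g * ∏ p ∈ S34 T, e p : (ZMod m)ˣ) : ZMod m) * x) =
        sz ((g : ZMod m) * (((∏ p ∈ S34 T, e p : (ZMod m)ˣ) : ZMod m) * x)) := by
      intro x
      rw [Units.val_mul, mul_assoc]
    rw [Finset.sum_congr rfl fun x _ => h2 x, h1]
    refine Finset.sum_congr rfl fun x _ => ?_
    rw [mul_neg, (hSzBas m _).1]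

end Pool.Agent.FO
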