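import Pool.Agent.Lib.MP_640417_ag.GT.SpecI

/-!
# Theorem GT, part I, module BsS (helper41): base points
-/

set_option autoImplicit false

noncomputable section

namespace Pool.Agent.FO

open Finset Pool.Agent.FC

theorem pBsS : S_BsS := by
  intro G _ K M hKM
  let r : G → G := fun a => (QuotientGroup.mk a : G ⧸ (K ⊔ M)).out
  have hr : ∀ a, a * (r a)⁻¹ ∈ K ⊔ M := by
    intro a
    have h1 : (QuotientGroup.mk (r a) : G ⧸ (K ⊔ M)) = QuotientGroup.mk a := QuotientGroup.out_eq' _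
    have h2 := QuotientGroup.eq.1 h1
    rwa [mul_comm] at h2
  have hri : ∀ k ∈ K ⊔ M, ∀ a, r (k * a) = r a := by
    intro k hk a
    have h1 : (QuotientGroup.mk (k * a) : G ⧸ (K ⊔ M)) = QuotientGroup.mk a := by
      refine QuotientGroup.eq.2 ?_
      have h2 : (k * a)⁻¹ * a = k⁻¹ := by
        rw [mul_inv_rev, mul_comm a⁻¹, inv_mul_cancel_right]
      rw [h2]
      exact inv_mem hk
    change (QuotientGroup.mk (k * a) : G ⧸ (K ⊔ M)).out = _
    rw [h1]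
  have hxy : ∀ a, ∃ x ∈ K, ∃ y ∈ M, x * y = a * (r a)⁻¹ := fun a => Subgroup.mem_sup.1 (hr a)
  choose x hx y hy h using hxy
  have huni : ∀ x₁ ∈ K, ∀ x₂ ∈ K, ∀ y₁ ∈ M, ∀ y₂ ∈ M, x₁ * y₁ = x₂ * y₂ → x₁ = x₂ := by
    intro x₁ hx₁ x₂ hx₂ y₁ hy₁ y₂ hy₂ he
    have h1 : x₂⁻¹ * x₁ = y₂ * y₁⁻¹ := by
      rw [eq_mul_inv_iff_mul_eq, mul_assoc, he, inv_mul_cancel_left]
    have h2 : x₂⁻¹ * x₁ ∈ K := mul_mem (inv_mem hx₂) hx₁
    have h3 : x₂⁻¹ * x₁ ∈ M := by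
      rw [h1]
      exact mul_mem hy₂ (inv_mem hy₁)
    have h4 : x₂⁻¹ * x₁ = 1 := Subgroup.disjoint_def.1 hKM h2 h3
    exact (inv_mul_eq_one.1 h4).symm
  refine ⟨fun a => (x a)⁻¹, fun a => inv_mem (hx a), ?_, ?_⟩
  · intro k hk a
    have h1 : x (k * a) * y (k * a) = (k * x a) * y a := by
      rw [h, hri k (Subgroup.mem_sup_left hk) a, mul_assoc, mul_assoc, h]
    have h2 := huni _ (hx _) _ (mul_mem hk (hx a)) _ (hy _) _ (hy a) h1
    change (x (k * a))⁻¹ * k = (x a)⁻¹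
    rw [h2, mul_inv_rev, inv_mul_cancel_right]
  · intro z hz a
    have h1 : x (z * a) * y (z * a) = x a * (z * y a) := by
      rw [h, hri z (Subgroup.mem_sup_right hz) a, mul_left_comm, mul_assoc, h]
    have h2 := huni _ (hx _) _ (hx a) _ (hy _) _ (mul_mem hz (hy a)) h1
    change (x (z * a))⁻¹ = (x a)⁻¹
    rw [h2]

end Pool.Agent.FO
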