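import Pool.Agent.Lib.MP_640417_ag.GT.SpecQ

/-!
# Theorem QR: relations of the Stickelberger functions of the sets `X_S`
-/

set_option autoImplicit false

noncomputable section

open Finset Pool.Agent.FC

namespace Pool.Agent.FO

namespace GBtRAux

theorem dT_mono {S T : Finset ℕ} (h : S ⊆ T) : dT S ∣ dT T :=
  Finset.prod_dvd_prod_of_subset S T (fun p => if p = 2 then 4 else p) h

theorem sqi_cast {m : ℕ} [NeZero m] (S : Finset ℕ) (x : ZMod m) :
    ((sqi m (dT S) x : ℤ) : ℚ) = if sqi m (dT S) x = 1 then 1 else 0 := by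
  classical
  by_cases h : ∃ v : ℕ, v.Coprime (dT S) ∧ x = ((m / dT S : ℕ) : ZMod m) * (v : ZMod m) ^ 2
  · have h1 : sqi m (dT S) x = 1 := by
      unfold sqi
      rw [if_pos h]
    rw [h1, if_pos rfl, Int.cast_one]
  · have h1 : sqi m (dT S) x = 0 := by
      unfold sqi
      rw [if_neg h]
    rw [h1, if_neg (by norm_num), Int.cast_zero]

/-- The Stickelberger function as a sum over `X_S`. -/
theorem P_Xs {m : ℕ} [NeZero m] (S : Finset ℕ) (t : ZMod m) :
    P (Aq m S) t = 2 * ∑ x ∈ Xs m S, sz (t * x) := by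
  have h1 : ∑ x : ZMod m, ((sqi m (dT S) x : ℤ) : ℚ) * sz (t * x) = ∑ x ∈ Xs m S, sz (t * x) := by
    unfold Xs
    rw [Finset.sum_filter]
    refine Finset.sum_congr rfl fun x _ => ?_
    rw [sqi_cast]
    split_ifs
    · rw [one_mul]
    · rw [zero_mul]
  have h2 : ∑ x : ZMod m, ((sqi m (dT S) (-x) : ℤ) : ℚ) * sz (t * x) =
      -∑ x ∈ Xs m S, sz (t * x) := by
    rw [← h1, ← Finset.sum_neg_distrib, ← Equiv.sum_comp (Equiv.neg (ZMod m))]
    refine Finset.sum_congr rfl fun x _ => ?_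
    rw [Equiv.neg_apply, neg_neg, mul_neg, (hSzBas m (t * x)).1, mul_neg]
  unfold P Aq
  have h3 : ∀ x : ZMod m, ((sqi m (dT S) x - sqi m (dT S) (-x) : ℤ) : ℚ) * sz (t * x) =
      ((sqi m (dT S) x : ℤ) : ℚ) * sz (t * x) - ((sqi m (dT S) (-x) : ℤ) : ℚ) * sz (t * x) := by
    intro x
    push_cast
    ring
  rw [Finset.sum_congr rfl fun x _ => h3 x, Finset.sum_sub_distrib, h1, h2]
  ring

end GBtRAux

open GBtRAux in
theorem pBtR (hSqX : S_SqX) (hEuA : S_EuA) (hDsU : S_DsU) (hXsE : S_XsE) (hXsN : S_XsN) :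
    S_BtR := by
  classical
  intro m _ T e hT hTm hE
  have hTp : ∀ q ∈ T, q.Prime := fun q hq => (hT q hq).1
  -- representatives
  have hrep : ∀ S ⊆ T, ∀ x ∈ Xs m S, addOrderOf x = dT S ∧ ∃ w : ℤ,
      x = ((m / dT S : ℕ) : ZMod m) * ((w : ℤ) : ZMod m) := by
    intro S hST x hx
    obtain ⟨-, -, -, s4, -, s6⟩ := hSqX m S (fun q hq => hTp q (hST hq)) ((dT_mono hST).trans hTm)
    unfold Xs at hx
    have ho := s6 x (Finset.mem_filter.1 hx).2
    obtain ⟨w, -, hw⟩ := s4 x ho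
    exact ⟨ho, w, hw⟩
  refine ⟨?_, ?_, ?_⟩
  · intro S hST p hpT hpS g
    obtain ⟨-, -, a3⟩ := hEuA m T e hTp hTm hE S hST
    rw [P_Xs, P_Xs]
    congr 1
    refine Finset.sum_congr rfl fun x hx => ?_
    obtain ⟨-, w, rfl⟩ := hrep S hST x hx
    rw [Units.val_mul, mul_assoc, a3 p hpT hpS w]
  · intro S hST p hpS g
    have hS'S : S.erase p ⊆ S := Finset.erase_subset p S
    have hS'T := hS'S.trans hST
    have hSp : ∀ q ∈ S, q.Prime := fun q hq => hTp q (hST hq)
    have hSm : dT S ∣ m := (dT_mono hST).trans hTm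
    obtain ⟨s1, -, -, -, -, -⟩ := hSqX m S hSp hSm
    obtain ⟨hdd, hcop⟩ := s1 p hpS
    obtain ⟨n1, -, n3⟩ := hXsN m T e hT hTm hE S hST p hpS
    have hc : c4 p * dT (S.erase p) = dT S := by rw [mul_comm]; exact hdd
    rw [P_Xs, P_Xs, P_Xs, P_Xs]
    have key : ∑ x ∈ Xs m S, sz ((g : ZMod m) * x) +
        ∑ x ∈ Xs m S, sz (((g * e p : (ZMod m)ˣ) : ZMod m) * x) =
        ∑ x ∈ Xs m (S.erase p), sz ((g : ZMod m) * x) -
        ∑ x ∈ Xs m (S.erase p),
          sz (((g * ∏ u ∈ nr T p, e u : (ZMod m)ˣ) : ZMod m) * x) := by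
      have h1 := hXsE m T e hT hTm hE S hST p hpS (fun x => sz ((g : ZMod m) * x))
      have h2 : ∑ x ∈ Xs m S, sz (((g * e p : (ZMod m)ˣ) : ZMod m) * x) =
          ∑ x ∈ Xs m S, sz ((g : ZMod m) * ((e p : ZMod m) * x)) := by
        refine Finset.sum_congr rfl fun x _ => ?_
        rw [Units.val_mul, mul_assoc]
      rw [h2, h1]
      -- fibres
      have h3 : ∑ x ∈ univ.filter (fun x : ZMod m =>
          ((c4 p : ℕ) : ZMod m) * x ∈ Xs m (S.erase p) ∧ addOrderOf x = dT S),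
          sz ((g : ZMod m) * x) =
          ∑ y ∈ Xs m (S.erase p), ∑ x ∈ univ.filter (fun x : ZMod m =>
            ((c4 p : ℕ) : ZMod m) * x = y ∧ addOrderOf x = dT S), sz ((g : ZMod m) * x) := by
        rw [← Finset.sum_fiberwise_of_maps_to (g := fun x : ZMod m => ((c4 p : ℕ) : ZMod m) * x)
          (t := Xs m (S.erase p)) (fun x hx => (Finset.mem_filter.1 hx).2.1)]
        refine Finset.sum_congr rfl fun y hy => ?_
        refine Finset.sum_congr ?_ fun _ _ => rfl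
        ext x
        rw [Finset.mem_filter, Finset.mem_filter, Finset.mem_filter]
        constructor
        · rintro ⟨⟨h4, -, h5⟩, h6⟩
          exact ⟨h4, h6, h5⟩
        · rintro ⟨h4, h6, h5⟩
          exact ⟨⟨h4, by rw [h6]; exact hy, h5⟩, h6⟩
      rw [h3, ← n3 (fun y => ∑ x ∈ univ.filter (fun x : ZMod m =>
            ((c4 p : ℕ) : ZMod m) * x = y ∧ addOrderOf x = dT S), sz ((g : ZMod m) * x)),
        ← n3 (fun x => sz ((g : ZMod m) * x)), ← Finset.sum_sub_distrib]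
      refine Finset.sum_congr rfl fun x hx => ?_
      obtain ⟨hz, hy⟩ := n1 x hx
      have h4 := hDsU m p (dT (S.erase p)) (hSp p hpS) hcop (by rw [hc]; exact hSm) _ _
        (hrep _ hS'T _ hy).1 hz rfl g
      rw [hc] at h4
      rw [Units.val_mul, mul_assoc]
      exact h4
    linear_combination 2 * key
  · intro S hST g
    obtain ⟨-, a2, -⟩ := hEuA m T e hTp hTm hE S hST
    rw [P_Xs, P_Xs, ← mul_neg, ← Finset.sum_neg_distrib]
    congr 1
    refine Finset.sum_congr rfl fun x hx => ?_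
    obtain ⟨-, w, rfl⟩ := hrep S hST x hx
    rw [Units.val_mul, mul_assoc, a2 w, mul_neg, (hSzBas m _).1]

end Pool.Agent.FO
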