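import Pool.Agent.Lib.MP_640417_ag.GT.SpecI

/-!
# Theorem GT, part I, module CbB: symmetric and alternating sums, basic facts
-/

set_option autoImplicit false

noncomputable section

namespace Pool.Agent.FO

open Finset Pool.Agent.FC

namespace GCbBAux

variable {G : Type} [CommGroup G] (e : ℕ → G)

theorem cb_cons (i : ℕ) (l : List ℕ) (F : G → ℤ) (a : G) :
    Cb e (i :: l) F a = Cb e l F a + Cb e l F (e i * a) := rfl

theorem cs_cons (i : ℕ) (l : List ℕ) (F : G → ℤ) (a : G) :
    Cs e (i :: l) F a = Cs e l F a - Cs e l F (e i * a) := rfl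

theorem cb_add (l : List ℕ) (F F' : G → ℤ) (a : G) :
    Cb e l (fun x => F x + F' x) a = Cb e l F a + Cb e l F' a := by
  induction l generalizing a with
  | nil => rfl
  | cons i l ih =>
    rw [cb_cons, cb_cons, cb_cons, ih, ih]
    ring

theorem cs_add (l : List ℕ) (F F' : G → ℤ) (a : G) :
    Cs e l (fun x => F x + F' x) a = Cs e l F a + Cs e l F' a := by
  induction l generalizing a with
  | nil => rfl
  | cons i l ih =>
    rw [cs_cons, cs_cons, cs_cons, ih, ih]
    ring

theorem cb_tr (l : List ℕ) (F : G → ℤ) (g a : G) :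
    Cb e l (fun x => F (g * x)) a = Cb e l F (g * a) := by
  induction l generalizing a with
  | nil => rfl
  | cons i l ih =>
    rw [cb_cons, cb_cons, ih, ih, mul_left_comm]

theorem cs_tr (l : List ℕ) (F : G → ℤ) (g a : G) :
    Cs e l (fun x => F (g * x)) a = Cs e l F (g * a) := by
  induction l generalizing a with
  | nil => rfl
  | cons i l ih =>
    rw [cs_cons, cs_cons, ih, ih, mul_left_comm]

theorem cb_mul (l : List ℕ) (F : G → ℤ) (c : ℤ) (a : G) :
    Cb e l (fun x => c * F x) a = c * Cb e l F a := by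
  induction l generalizing a with
  | nil => rfl
  | cons i l ih =>
    rw [cb_cons, cb_cons, ih, ih]
    ring

theorem cs_mul (l : List ℕ) (F : G → ℤ) (c : ℤ) (a : G) :
    Cs e l (fun x => c * F x) a = c * Cs e l F a := by
  induction l generalizing a with
  | nil => rfl
  | cons i l ih =>
    rw [cs_cons, cs_cons, ih, ih]
    ring

theorem cb_inv (l : List ℕ) (F : G → ℤ) (j : ℕ) (hj : j ∈ l) (h : e j * e j = 1) (a : G) :
    Cb e l F (e j * a) = Cb e l F a := by
  induction l generalizing a with
  | nil => exact absurd hj List.not_mem_nil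
  | cons i l ih =>
    rw [cb_cons, cb_cons]
    by_cases hji : j = i
    · subst hji
      rw [← mul_assoc, h, one_mul, add_comm]
    · have hjl : j ∈ l := (List.mem_cons.1 hj).resolve_left hji
      rw [ih hjl, mul_left_comm, ih hjl]

theorem cs_inv (l : List ℕ) (F : G → ℤ) (j : ℕ) (hj : j ∈ l) (h : e j * e j = 1) (a : G) :
    Cs e l F (e j * a) = -Cs e l F a := by
  induction l generalizing a with
  | nil => exact absurd hj List.not_mem_nil
  | cons i l ih =>
    rw [cs_cons, cs_cons]
    by_cases hji : j = i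
    · subst hji
      rw [← mul_assoc, h, one_mul]
      ring
    · have hjl : j ∈ l := (List.mem_cons.1 hj).resolve_left hji
      rw [ih hjl, mul_left_comm, ih hjl]
      ring

theorem cb_k (l : List ℕ) (F : G → ℤ) (k : G) (hk : ∀ a, F (k * a) = F a) (a : G) :
    Cb e l F (k * a) = Cb e l F a := by
  rw [← cb_tr, funext hk]

theorem cs_k (l : List ℕ) (F : G → ℤ) (k : G) (hk : ∀ a, F (k * a) = F a) (a : G) :
    Cs e l F (k * a) = Cs e l F a := by
  rw [← cs_tr, funext hk]

theorem cs_zero (l : List ℕ) (F : G → ℤ) (j : ℕ) (hj : j ∈ l) (h : ∀ a, F (e j * a) = F a) (a : G) :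
    Cs e l F a = 0 := by
  induction l generalizing a with
  | nil => exact absurd hj List.not_mem_nil
  | cons i l ih =>
    rw [cs_cons]
    by_cases hji : j = i
    · subst hji
      rw [cs_k e l F (e j) h, sub_self]
    · have hjl : j ∈ l := (List.mem_cons.1 hj).resolve_left hji
      rw [ih hjl, ih hjl, sub_self]

theorem cb_cs (l : List ℕ) (F : G → ℤ) (a : G) : (2 : ℤ) ∣ Cb e l F a - Cs e l F a := by
  induction l generalizing a with
  | nil =>
    have h : Cb e [] F a - Cs e [] F a = 0 := sub_self (F a)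
    rw [h]
    exact dvd_zero 2
  | cons i l ih =>
    rw [cb_cons, cs_cons]
    have h1 := ih a
    have h2 := ih (e i * a)
    omega

theorem cb_two (l : List ℕ) (F F' : G → ℤ) (h : ∀ a, (2 : ℤ) ∣ F a - F' a) (a : G) :
    (2 : ℤ) ∣ Cb e l F a - Cb e l F' a := by
  induction l generalizing a with
  | nil => exact h a
  | cons i l ih =>
    rw [cb_cons, cb_cons]
    have h1 := ih a
    have h2 := ih (e i * a)
    omega

theorem perm (F : G → ℤ) {l l' : List ℕ} (h : l.Perm l') :
    ∀ a, Cb e l F a = Cb e l' F a ∧ Cs e l F a = Cs e l' F a := by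
  induction h with
  | nil => exact fun a => ⟨rfl, rfl⟩
  | cons i _ ih =>
    intro a
    rw [cb_cons, cb_cons, cs_cons, cs_cons, (ih a).1, (ih (e i * a)).1, (ih a).2, (ih (e i * a)).2]
    exact ⟨rfl, rfl⟩
  | swap i j l =>
    intro a
    rw [cb_cons, cb_cons, cb_cons, cb_cons, cb_cons, cb_cons, cs_cons, cs_cons, cs_cons, cs_cons,
      cs_cons, cs_cons, mul_left_comm (e i) (e j) a]
    constructor
    · ring
    · ring
  | trans _ _ ih1 ih2 =>
    intro a
    exact ⟨(ih1 a).1.trans (ih2 a).1, (ih1 a).2.trans (ih2 a).2⟩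

end GCbBAux

open GCbBAux

theorem pCbB : S_CbB := by
  intro G _ e l F F'
  exact ⟨cb_add e l F F', cs_add e l F F', fun g a => ⟨cb_tr e l F g a, cs_tr e l F g a⟩,
    fun c a => ⟨cb_mul e l F c a, cs_mul e l F c a⟩, cb_inv e l F, cs_inv e l F, cs_zero e l F,
    cb_cs e l F, cb_two e l F F', fun k hk a => ⟨cb_k e l F k hk a, cs_k e l F k hk a⟩,
    fun _ h => perm e F h⟩

end Pool.Agent.FO
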