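import Pool.Agent.Lib.MP_640417_ag.GT.SpecQ

/-!
# Theorem QR: sums over sign changes (author helper47)
-/

set_option autoImplicit false

noncomputable section

open Finset Pool.Agent.FC

namespace Pool.Agent.FO

namespace GCbQAux

theorem dT_eq_prod (T : Finset ℕ) : dT T = ∏ p ∈ T, c4 p := rfl

theorem dT_erase {T : Finset ℕ} {p : ℕ} (hp : p ∈ T) : dT T = c4 p * dT (T.erase p) :=
  (Finset.mul_prod_erase T c4 hp).symm

theorem cop_c4 {p q : ℕ} (hp : p.Prime) (hq : q.Prime) (h : p ≠ q) : p.Coprime (c4 q) := by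
  unfold c4
  split_ifs with h2
  · have h3 : p.Coprime 2 := (Nat.coprime_primes hp Nat.prime_two).2 (fun h' => h (h'.trans h2.symm))
    exact h3.pow_right 2
  · exact (Nat.coprime_primes hp hq).2 h

theorem cop_erase {T : Finset ℕ} (hT : ∀ p ∈ T, p.Prime) {p : ℕ} (hp : p ∈ T) :
    p.Coprime (dT (T.erase p)) := by
  rw [dT_eq_prod]
  refine Nat.Coprime.prod_right fun q hq => ?_
  rw [Finset.mem_erase] at hq
  exact cop_c4 (hT p hp) (hT q hq.2) hq.1.symm

theorem c4_pos {p : ℕ} (hp : p.Prime) : 0 < c4 p := by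
  unfold c4
  split_ifs
  · norm_num
  · exact hp.pos

theorem dT_pos {T : Finset ℕ} (hT : ∀ p ∈ T, p.Prime) : 0 < dT T :=
  Finset.prod_pos fun p hp => c4_pos (hT p hp)

theorem c4_pow (p : ℕ) : ∃ k, c4 p = p ^ k ∧ 0 < k := by
  unfold c4
  split_ifs with h
  · exact ⟨2, by rw [h]; norm_num, two_pos⟩
  · exact ⟨1, (pow_one p).symm, one_pos⟩

theorem fac {T : Finset ℕ} (hT : ∀ p ∈ T, p.Prime) {p : ℕ} (hp : p ∈ T) :
    p ^ (dT T).factorization p = c4 p := by
  have hpp := hT p hp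
  obtain ⟨k, hk, -⟩ := c4_pow p
  have hT' : ∀ q ∈ T.erase p, q.Prime := fun q hq => hT q (Finset.mem_of_mem_erase hq)
  have h0 : (dT (T.erase p)).factorization p = 0 := by
    refine Nat.factorization_eq_zero_of_not_dvd fun h => ?_
    have h1 := Nat.Coprime.eq_one_of_dvd (cop_erase hT hp) h
    exact hpp.one_lt.ne' h1
  rw [dT_erase hp, Nat.factorization_mul (c4_pos hpp).ne' (dT_pos hT').ne', Finsupp.add_apply, h0,
    hk, hpp.factorization_pow, Finsupp.single_eq_same, add_zero]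

theorem quo {T : Finset ℕ} (hT : ∀ p ∈ T, p.Prime) {p : ℕ} (hp : p ∈ T) :
    dT T / c4 p = dT (T.erase p) := by
  rw [dT_erase hp]
  exact Nat.mul_div_cancel_left _ (c4_pos (hT p hp))

theorem dvd_erase {T : Finset ℕ} {p q : ℕ} (hq : q ∈ T) (h : q ≠ p) : c4 q ∣ dT (T.erase p) :=
  Finset.dvd_prod_of_mem c4 (Finset.mem_erase.2 ⟨h, hq⟩)

theorem dvd_dT {T : Finset ℕ} {q : ℕ} (hq : q ∈ T) : c4 q ∣ dT T :=
  Finset.dvd_prod_of_mem c4 hq

theorem pdvd_c4 (p : ℕ) : p ∣ c4 p := by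
  unfold c4
  split_ifs with h
  · rw [h]; norm_num
  · exact dvd_rfl

theorem pf {T : Finset ℕ} (hT : ∀ p ∈ T, p.Prime) : (dT T).primeFactors = T := by
  ext q
  rw [Nat.mem_primeFactors_of_ne_zero (dT_pos hT).ne']
  constructor
  · rintro ⟨hq, h⟩
    rw [dT_eq_prod, Prime.dvd_finsetProd_iff hq.prime] at h
    obtain ⟨p, hp, h1⟩ := h
    obtain ⟨k, hk, -⟩ := c4_pow p
    rw [hk] at h1
    rwa [(Nat.prime_dvd_prime_iff_eq hq (hT p hp)).1 (hq.dvd_of_dvd_pow h1)]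
  · intro h
    exact ⟨hT q h, (pdvd_c4 q).trans (dvd_dT h)⟩

theorem val_mul_dvd {D : ℕ} [NeZero D] (u v : (ZMod D)ˣ) :
    ((D : ℕ) : ℤ) ∣ (((u * v : (ZMod D)ˣ) : ZMod D).val : ℤ) - ((u : ZMod D).val : ℤ) * ((v : ZMod D).val : ℤ) := by
  rw [← ZMod.intCast_zmod_eq_zero_iff_dvd]
  push_cast
  rw [ZMod.natCast_zmod_val, ZMod.natCast_zmod_val, ZMod.natCast_zmod_val, sub_self]

theorem cop_val {D : ℕ} [NeZero D] (u : (ZMod D)ˣ) {p : ℕ} (hp : p ∣ D) :
    IsCoprime ((u : ZMod D).val : ℤ) (p : ℤ) := by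
  have h := ZMod.val_coe_unit_coprime u
  exact Nat.isCoprime_iff_coprime.2 (h.coprime_dvd_right hp)

/-- the action of `en D p` on the squares -/
theorem sm_en (hSmu : S_Smu) {T : Finset ℕ} (hT : T34 T) {D : ℕ} [NeZero D] (hD : D = dT T) {p : ℕ}
    (hp : p ∈ T) (u : (ZMod D)ˣ) :
    (sm p (((en D p * u : (ZMod D)ˣ) : ZMod D).val : ℤ) ↔ ¬ sm p ((u : ZMod D).val : ℤ)) ∧
    ∀ q ∈ T, q ≠ p → (sm q (((en D p * u : (ZMod D)ˣ) : ZMod D).val : ℤ) ↔ sm q ((u : ZMod D).val : ℤ)) := by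
  have hTp : ∀ p ∈ T, p.Prime := fun p hp => (hT p hp).1
  have hpf : p ∈ D.primeFactors := by rw [hD, pf hTp]; exact hp
  have hE := (gEn D).1 p hpf
  unfold IsEn at hE
  have e1 : p ^ D.factorization p = c4 p := by rw [hD]; exact fac hTp hp
  rw [e1] at hE
  have e2 : D / c4 p = dT (T.erase p) := by rw [hD]; exact quo hTp hp
  rw [e2] at hE
  obtain ⟨h1, h2⟩ := hE
  have h3 := val_mul_dvd (en D p) u
  have hDd : ∀ q ∈ T, ((c4 q : ℕ) : ℤ) ∣ (D : ℤ) := fun q hq => by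
    rw [hD]; exact_mod_cast dvd_dT hq
  constructor
  · obtain ⟨s1, -, s3, -⟩ := hSmu p (hT p hp).1 (hT p hp).2
    have h4 : ((c4 p : ℕ) : ℤ) ∣ (((en D p * u : (ZMod D)ˣ) : ZMod D).val : ℤ) - (-((u : ZMod D).val : ℤ)) := by
      have h5 := dvd_add ((hDd p hp).trans h3) (h1.mul_right ((u : ZMod D).val : ℤ))
      have e : (((en D p * u : (ZMod D)ˣ) : ZMod D).val : ℤ) -
          ((en D p : ZMod D).val : ℤ) * ((u : ZMod D).val : ℤ) +
          (((en D p : ZMod D).val : ℤ) + 1) * ((u : ZMod D).val : ℤ) =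
          (((en D p * u : (ZMod D)ˣ) : ZMod D).val : ℤ) - (-((u : ZMod D).val : ℤ)) := by ring
      rwa [e] at h5
    rw [s3 _ _ h4, s1 _ (cop_val u ((pdvd_c4 p).trans (by rw [hD]; exact dvd_dT hp)))]
  · intro q hq hqp
    obtain ⟨-, -, s3, -⟩ := hSmu q (hT q hq).1 (hT q hq).2
    have h2' : ((c4 q : ℕ) : ℤ) ∣ ((en D p : ZMod D).val : ℤ) - 1 :=
      (Int.natCast_dvd_natCast.2 (dvd_erase hq hqp)).trans h2
    have h5 := dvd_add ((hDd q hq).trans h3) (h2'.mul_right ((u : ZMod D).val : ℤ))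
    have e : (((en D p * u : (ZMod D)ˣ) : ZMod D).val : ℤ) -
        ((en D p : ZMod D).val : ℤ) * ((u : ZMod D).val : ℤ) +
        (((en D p : ZMod D).val : ℤ) - 1) * ((u : ZMod D).val : ℤ) =
        (((en D p * u : (ZMod D)ˣ) : ZMod D).val : ℤ) - ((u : ZMod D).val : ℤ) := by ring
    rw [e] at h5
    exact s3 _ _ h5

end GCbQAux

open GCbQAux in
theorem pCbQ (hSmu : S_Smu) : S_CbQ := by
  intro T hT D _ hD f hf1 hf0
  have claim : ∀ l : List ℕ, l.Nodup → (∀ p ∈ l, p ∈ T) → ∀ a : (ZMod D)ˣ,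
      ((∀ p ∈ T, p ∉ l → sm p ((a : ZMod D).val : ℤ)) → Cb (en D) l f a = 1) ∧
      (¬ (∀ p ∈ T, p ∉ l → sm p ((a : ZMod D).val : ℤ)) → Cb (en D) l f a = 0) := by
    intro l
    induction l with
    | nil =>
      intro _ _ a
      constructor
      · intro h
        exact hf1 a fun p hp => h p hp (by simp)
      · intro h
        exact hf0 a fun h' => h fun p hp _ => h' p hp
    | cons i l ih =>
      intro hl hlT a
      rw [List.nodup_cons] at hl
      have hi : i ∈ T := hlT i (by simp)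
      have hlT' : ∀ p ∈ l, p ∈ T := fun p hp => hlT p (List.mem_cons_of_mem i hp)
      obtain ⟨A1, A0⟩ := ih hl.2 hlT' a
      obtain ⟨B1, B0⟩ := ih hl.2 hlT' (en D i * a)
      obtain ⟨k1, k2⟩ := sm_en hSmu hT hD hi a
      have eC : Cb (en D) (i :: l) f a = Cb (en D) l f a + Cb (en D) l f (en D i * a) := rfl
      rw [eC]
      have hQ : (∀ p ∈ T, p ∉ l → sm p ((a : ZMod D).val : ℤ)) ↔
          (sm i ((a : ZMod D).val : ℤ) ∧ ∀ p ∈ T, p ∉ i :: l → sm p ((a : ZMod D).val : ℤ)) := by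
        constructor
        · intro h
          exact ⟨h i hi hl.1, fun p hp hpl => h p hp fun h' => hpl (List.mem_cons_of_mem i h')⟩
        · rintro ⟨h, h'⟩ p hp hpl
          by_cases hpi : p = i
          · rw [hpi]; exact h
          · exact h' p hp (by simp [hpi, hpl])
      have hQ' : (∀ p ∈ T, p ∉ l → sm p (((en D i * a : (ZMod D)ˣ) : ZMod D).val : ℤ)) ↔
          (¬ sm i ((a : ZMod D).val : ℤ) ∧ ∀ p ∈ T, p ∉ i :: l → sm p ((a : ZMod D).val : ℤ)) := by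
        constructor
        · intro h
          refine ⟨k1.1 (h i hi hl.1), fun p hp hpl => ?_⟩
          have hpi : p ≠ i := fun h' => hpl (by rw [h']; simp)
          exact (k2 p hp hpi).1 (h p hp fun h' => hpl (List.mem_cons_of_mem i h'))
        · rintro ⟨h, h'⟩ p hp hpl
          by_cases hpi : p = i
          · rw [hpi]; exact k1.2 h
          · exact (k2 p hp hpi).2 (h' p hp (by simp [hpi, hpl]))
      rw [hQ] at A1 A0
      rw [hQ'] at B1 B0
      constructor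
      · intro hR
        by_cases hs : sm i ((a : ZMod D).val : ℤ)
        · rw [A1 ⟨hs, hR⟩, B0 fun h => h.1 hs, add_zero]
        · rw [A0 fun h => hs h.1, B1 ⟨hs, hR⟩, zero_add]
      · intro hR
        rw [A0 fun h => hR h.2, B0 fun h => hR h.2, add_zero]
  intro l hl hlT a
  exact (claim l hl (fun p hp => (hlT p).1 hp) a).1 fun p hp hpl => absurd ((hlT p).2 hp) hpl

end Pool.Agent.FO
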