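import Pool.Agent.Lib.MP_640417_ag.GT.SpecL

/-! # Theorem GT, part L: the numerical condition implies the invariant -/

set_option autoImplicit false

noncomputable section

namespace Pool.Agent.FO

open Finset Pool.Agent.FC

/-- **The general case.** -/
theorem pChN (hLamT : S_LamT) : S_ChN := by
  intro m N _ T hCr ι _ a hN
  obtain ⟨q, l, hPr, hT, hc⟩ := hCr
  obtain ⟨t, ht⟩ := hLamT l q m N hPr hc ι a hN
  refine ⟨q, l, t, hPr, hT, fun z hz => ?_⟩
  simp only at hz
  rw [hz] at ht
  have hq : 0 < (q : ℤ) - 1 := lt_of_le_of_lt (abs_nonneg _) ht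
  have hz0 : z = 0 := by
    by_contra h
    have h1 : 1 ≤ |z| := Int.one_le_abs h
    rw [abs_mul, abs_of_pos hq] at ht
    nlinarith
  rw [hz0]
  exact dvd_zero 2

end Pool.Agent.FO
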