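import Pool.Agent.Lib.MP_640417_ag.GT.SpecK

set_option autoImplicit false

open Finset Pool.Agent.FC

namespace Pool.Agent.FO

namespace GChkBAux

/-- the order of a multiple divides the order -/
private theorem ord_mul {m : ℕ} (t x : ZMod m) : addOrderOf (t * x) ∣ addOrderOf x := by
  rw [addOrderOf_dvd_iff_nsmul_eq_zero]
  have h : addOrderOf x • (t * x) = t * (addOrderOf x • x) := by
    rw [nsmul_eq_mul, nsmul_eq_mul]
    ring
  rw [h, addOrderOf_nsmul_eq_zero, mul_zero]

/-- the primes of the list divide the product -/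
private theorem dvd_dt (l : List ℕ) (q p : ℕ) (hp : p ∈ q :: l) : p ∣ dt l q := by
  unfold dt
  rcases List.mem_cons.1 hp with h | h
  · rw [h]
    exact dvd_mul_right _ _
  · refine dvd_mul_of_dvd_right ?_ _
    have h1 : (if p = 2 then 4 else p) ∣ (l.map fun p => if p = 2 then 4 else p).prod :=
      List.dvd_prod (List.mem_map.2 ⟨p, h, rfl⟩)
    refine dvd_trans ?_ h1
    by_cases h2 : p = 2
    · rw [if_pos h2, h2]
      exact ⟨2, rfl⟩
    · rw [if_neg h2]

/-- a prime which divides the product belongs to the set -/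
private theorem mem_of_dvd (T : Finset ℕ) (hT : ∀ s ∈ T, s.Prime) (p : ℕ) (hp : p.Prime)
    (h : p ∣ dT T) : p ∈ T := by
  unfold dT at h
  obtain ⟨s, hs, hd⟩ := (Prime.dvd_finsetProd_iff hp.prime _).1 h
  by_cases h2 : s = 2
  · rw [if_pos h2] at hd
    have h4 : p ∣ 2 ^ 2 := by
      simpa using hd
    have h5 : p = 2 := (Nat.prime_dvd_prime_iff_eq hp Nat.prime_two).1 (hp.dvd_of_dvd_pow h4)
    rw [h5, ← h2]
    exact hs
  · rw [if_neg h2] at hd
    rw [(Nat.prime_dvd_prime_iff_eq hp (hT s hs)).1 hd]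
    exact hs

end GChkBAux

open GChkBAux in
/-- **The invariant under subtraction.** -/
theorem pChkB (hLamB : S_LamB) (hLamHo : S_LamHo) : S_ChkB := by
  intro m _ A Al hG f hf
  refine ⟨?_, ?_⟩
  · intro h hh T hE hA
    obtain ⟨q, l, t, hP, hm, hz⟩ := hf T hE hA
    refine ⟨q, l, t, hP, hm, ?_⟩
    intro z hs
    obtain ⟨k, hk⟩ := hLamHo l q m hP t h hh
    have h1 : ∑ x, (f x - h x) * lam l q ((t : ZMod m) * x) =
        ∑ x, f x * lam l q ((t : ZMod m) * x) - ∑ x, h x * lam l q ((t : ZMod m) * x) := by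
      rw [← Finset.sum_sub_distrib]
      refine Finset.sum_congr rfl fun x _ => ?_
      ring
    have h2 : ∑ x, f x * lam l q ((t : ZMod m) * x) = ((q : ℤ) - 1) * (z + 2 * k) := by
      have h3 : ∑ x, f x * lam l q ((t : ZMod m) * x) =
          ((q : ℤ) - 1) * z + ∑ x, h x * lam l q ((t : ZMod m) * x) := by
        have h4 : ∑ x, (f x - h x) * lam l q ((t : ZMod m) * x) = ((q : ℤ) - 1) * z := hs
        rw [h1] at h4
        linarith
      rw [h3, hk]
      ring
    have h5 : (2 : ℤ) ∣ z + 2 * k := hz _ h2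
    exact (dvd_add_left (dvd_mul_right 2 k)).1 h5
  · intro T' g hE' hA' hg T hE hA
    obtain ⟨q, l, t, hP, hm, hz⟩ := hf T hE hA
    refine ⟨q, l, t, hP, hm, ?_⟩
    intro z hs
    have hzero : ∀ x, g x * lam l q ((t : ZMod m) * x) = 0 := by
      intro x
      by_contra hne
      have hg0 : g x ≠ 0 := fun h => hne (by rw [h, zero_mul])
      have hl0 : lam l q ((t : ZMod m) * x) ≠ 0 := fun h => hne (by rw [h, mul_zero])
      have hd : dt l q ∣ dT T' :=
        ((hLamB l q m hP).2.2.2.2 _ hl0).trans ((ord_mul _ x).trans (hg x hg0))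
      have hsub : T ⊆ T' := by
        intro p hp
        have hp1 : p ∈ q :: l := (hm p).2 hp
        exact mem_of_dvd T' (fun s hs => Nat.prime_of_mem_primeFactors (hE'.1 hs)) p (hP.2.1 p hp1)
          ((dvd_dt l q p hp1).trans hd)
      exact hA (hG.2.1 T T' hA' hsub hE.2.2.1 hE.2.2.2)
    refine hz z ?_
    have h1 : ∑ x, (f x - g x) * lam l q ((t : ZMod m) * x) =
        ∑ x, f x * lam l q ((t : ZMod m) * x) := by
      refine Finset.sum_congr rfl fun x _ => ?_
      rw [sub_mul, hzero x, sub_zero]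
    rw [← h1]
    exact hs

end Pool.Agent.FO
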