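import Pool.Agent.Lib.MP_640417_ag.GT.SpecJ

/-!
# Theorem GT, part J, module Cnt: the number of units in a residue class
-/

set_option autoImplicit false

open Finset Pool.Agent.FC

namespace Pool.Agent.FO

namespace GCntAux

/-- Two numbers which are congruent modulo all the prime powers of `n` are congruent modulo `n`. -/
theorem dvd_of {n : ℕ} (hn : n ≠ 0) {z : ℤ}
    (h : ∀ p ∈ n.primeFactors, ((p ^ n.factorization p : ℕ) : ℤ) ∣ z) : (n : ℤ) ∣ z := by
  have h1 : (n : ℤ) = ∏ p ∈ n.primeFactors, ((p ^ n.factorization p : ℕ) : ℤ) := by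
    conv_lhs => rw [← Nat.prod_factorization_pow_eq_self hn]
    rw [Finsupp.prod, Nat.cast_prod]
    rfl
  rw [h1]
  refine Finset.prod_dvd_of_coprime ?_ h
  intro p hp p' hp' hne
  have hp1 := Nat.prime_of_mem_primeFactors (Finset.mem_coe.1 hp)
  have hp2 := Nat.prime_of_mem_primeFactors (Finset.mem_coe.1 hp')
  change IsCoprime _ _
  rw [Nat.isCoprime_iff_coprime]
  exact Nat.Coprime.pow _ _ ((Nat.coprime_primes hp1 hp2).2 hne)

end GCntAux

/-- Number of units in a residue class. -/
theorem pCnt : S_Cnt := by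
  intro q n _ hq hqn b
  classical
  have hn0 : n ≠ 0 := NeZero.ne n
  have hqv : q ^ n.factorization q ∣ n := Nat.ordProj_dvd n q
  have : NeZero (q ^ n.factorization q) := ⟨pow_ne_zero _ hq.ne_zero⟩
  set U : Finset (ZMod n)ˣ := univ.filter (fun u : (ZMod n)ˣ => ∀ s ∈ n.primeFactors.erase q,
    ((s ^ n.factorization s : ℕ) : ℤ) ∣ (((u : ZMod n).val : ℕ) : ℤ) - b s) with hU
  have h1 : ∑ v : (ZMod n)ˣ, |∏ s ∈ n.primeFactors.erase q,
      ik n (((v : ZMod n).val : ℕ) : ℤ) s (b s)| = (U.card : ℤ) := by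
    rw [hU, Finset.card_filter, Nat.cast_sum]
    refine Finset.sum_congr rfl fun u _ => ?_
    by_cases h : ∀ s ∈ n.primeFactors.erase q,
        ((s ^ n.factorization s : ℕ) : ℤ) ∣ (((u : ZMod n).val : ℕ) : ℤ) - b s
    · rw [if_pos h, Finset.prod_eq_one]
      · simp
      · intro s hs
        unfold ik
        rw [if_pos (h s hs)]
    · rw [if_neg h]
      push Not at h
      obtain ⟨s, hs, hs'⟩ := h
      rw [Finset.prod_eq_zero hs]
      · simp
      · unfold ik
        rw [if_neg hs']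
  have h2 : U.card ≤ (univ : Finset (ZMod (q ^ n.factorization q))ˣ).card := by
    refine Finset.card_le_card_of_injOn (ZMod.unitsMap hqv) (fun _ _ => Finset.mem_coe.2 (mem_univ _)) ?_
    intro u hu u' hu' h
    have hu1 := (Finset.mem_filter.1 (Finset.mem_coe.1 hu)).2
    have hu2 := (Finset.mem_filter.1 (Finset.mem_coe.1 hu')).2
    have h3 : (n : ℤ) ∣ (((u : ZMod n).val : ℕ) : ℤ) - (((u' : ZMod n).val : ℕ) : ℤ) := by
      refine GCntAux.dvd_of hn0 fun p hp => ?_
      by_cases hpq : p = q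
      · subst hpq
        have h4 := congrArg (fun x : (ZMod (p ^ n.factorization p))ˣ =>
          (x : ZMod (p ^ n.factorization p))) h
        simp only [ZMod.unitsMap_val] at h4
        rw [← ZMod.intCast_zmod_eq_zero_iff_dvd]
        push_cast
        rw [ZMod.natCast_val, ZMod.natCast_val]
        exact sub_eq_zero.2 h4
      · have hps : p ∈ n.primeFactors.erase q := Finset.mem_erase.2 ⟨hpq, hp⟩
        have h4 := dvd_sub (hu1 p hps) (hu2 p hps)
        have e : (((u : ZMod n).val : ℕ) : ℤ) - b p - ((((u' : ZMod n).val : ℕ) : ℤ) - b p) =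
            (((u : ZMod n).val : ℕ) : ℤ) - (((u' : ZMod n).val : ℕ) : ℤ) := by ring
        rwa [e] at h4
    rw [← ZMod.intCast_zmod_eq_zero_iff_dvd] at h3
    push_cast at h3
    rw [ZMod.natCast_zmod_val, ZMod.natCast_zmod_val] at h3
    exact Units.ext (sub_eq_zero.1 h3)
  rw [h1]
  rw [Finset.card_univ, ZMod.card_units_eq_totient] at h2
  exact_mod_cast h2

end Pool.Agent.FO
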