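import Pool.Agent.Lib.MP_640417_ag.GT.SpecK

/-! Theorem GT, part K, module CrN: numerical condition, levels (helper47). -/

set_option autoImplicit false

open Finset Pool.Agent.FC

namespace Pool.Agent.FO

/-- Lower bound for the totient. -/
private theorem GCrN_tot {n : ℕ} (hn : n ≠ 0) {S : Finset ℕ} (hS : S ⊆ n.primeFactors) {q : ℕ}
    (hq : q ∈ S) (hq2 : q ≠ 2) (h2 : 2 ∈ S → n.factorization 2 ≠ 1) :
    kp S * (q ^ n.factorization q).totient ≤ (q - 1) * n.totient := by
  have hv : ∀ s ∈ n.primeFactors, s.Prime ∧ 0 < n.factorization s := fun s hs =>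
    ⟨Nat.prime_of_mem_primeFactors hs,
      (Nat.prime_of_mem_primeFactors hs).factorization_pos_of_dvd hn
        (Nat.dvd_of_mem_primeFactors hs)⟩
  have e1 : n.totient = ∏ s ∈ n.primeFactors, (s ^ n.factorization s).totient := by
    rw [Nat.totient_eq_prod_factorization hn, Finsupp.prod, Nat.support_factorization]
    refine Finset.prod_congr rfl fun s hs => ?_
    rw [Nat.totient_prime_pow (hv s hs).1 (hv s hs).2]
  have e2 : ∏ s ∈ S, (s ^ n.factorization s).totient ≤ n.totient := by
    rw [e1]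
    refine Finset.prod_le_prod_of_subset_of_one_le' hS fun s hs _ => ?_
    exact Nat.totient_pos.2 (pow_pos (hv s hs).1.pos _)
  have e3 : ∀ s ∈ S, kap s ≤ (s ^ n.factorization s).totient := by
    intro s hs
    obtain ⟨h1, h3⟩ := hv s (hS hs)
    rw [Nat.totient_prime_pow h1 h3]
    unfold kap
    split_ifs with h
    · subst h
      have h4 := h2 hs
      have h5 : 2 ^ 1 ≤ 2 ^ (n.factorization 2 - 1) := Nat.pow_le_pow_right (by norm_num) (by omega)
      omega
    · exact Nat.le_mul_of_pos_left _ (pow_pos h1.pos _)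
  have e4 : kp (S.erase q) ≤ ∏ s ∈ S.erase q, (s ^ n.factorization s).totient :=
    Finset.prod_le_prod' fun s hs => e3 s (Finset.mem_of_mem_erase hs)
  have e5 : kp S = (q - 1) * kp (S.erase q) := by
    unfold kp
    rw [← Finset.mul_prod_erase S _ hq]
    congr 1
    unfold kap
    rw [if_neg hq2]
  have e6 : (q ^ n.factorization q).totient * ∏ s ∈ S.erase q, (s ^ n.factorization s).totient =
      ∏ s ∈ S, (s ^ n.factorization s).totient :=
    Finset.mul_prod_erase S (fun s => (s ^ n.factorization s).totient) hq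
  calc kp S * (q ^ n.factorization q).totient
      = (q - 1) * ((q ^ n.factorization q).totient * kp (S.erase q)) := by rw [e5]; ring
    _ ≤ (q - 1) * ((q ^ n.factorization q).totient *
        ∏ s ∈ S.erase q, (s ^ n.factorization s).totient) :=
        Nat.mul_le_mul_left _ (Nat.mul_le_mul_left _ e4)
    _ ≤ (q - 1) * n.totient := by
        rw [e6]
        exact Nat.mul_le_mul_left _ e2

theorem pCrN : S_CrN := by
  intro m N _ T hE hC
  obtain ⟨hTm, hT4, hTn, hT2⟩ := hE
  obtain ⟨hC1, hC2⟩ := hC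
  have hm : m ≠ 0 := NeZero.ne m
  have hTp : ∀ p ∈ T, p.Prime := fun p hp => Nat.prime_of_mem_primeFactors (hTm hp)
  have hcard : 0 < T.card := Finset.card_pos.2 hTn
  -- the prime `q`
  obtain ⟨q, hqT, hq2⟩ : ∃ q ∈ T, q ≠ 2 := by
    by_contra hcon
    push Not at hcon
    have h1 : T ⊆ {2} := fun s hs => Finset.mem_singleton.2 (hcon s hs)
    have h2 := Finset.card_le_card h1
    rw [Finset.card_singleton] at h2
    omega
  have hmem : ∀ p, p ∈ q :: (T.erase q).toList ↔ p ∈ T := by
    intro p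
    rw [List.mem_cons, Finset.mem_toList, Finset.mem_erase]
    constructor
    · rintro (h | h)
      · rw [h]; exact hqT
      · exact h.2
    · intro h
      by_cases hpq : p = q
      · exact Or.inl hpq
      · exact Or.inr ⟨hpq, h⟩
  have hlen : (T.erase q).toList.length = T.card - 1 := by
    rw [Finset.length_toList, Finset.card_erase_of_mem hqT]
  refine ⟨q, (T.erase q).toList, ⟨?_, ?_, hq2, ?_⟩, hmem, ?_⟩
  · rw [List.nodup_cons, Finset.mem_toList]
    exact ⟨Finset.notMem_erase q T, Finset.nodup_toList _⟩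
  · intro p hp
    exact hTp p ((hmem p).1 hp)
  · rw [hlen]
    omega
  intro n hnm hdt
  have hn : n ≠ 0 := fun h => hm (Nat.eq_zero_of_zero_dvd (h ▸ hnm))
  -- the primes in `T` divide `n`
  have hd1 : q ∣ n := (dvd_mul_right q _).trans hdt
  have hd2 : ∀ p ∈ T.erase q, (if p = 2 then 4 else p) ∣ n := by
    intro p hp
    have h1 : (if p = 2 then 4 else p) ∈
        (T.erase q).toList.map (fun p => if p = 2 then 4 else p) :=
      List.mem_map.2 ⟨p, Finset.mem_toList.2 hp, rfl⟩
    exact (List.dvd_prod h1).trans ((dvd_mul_left _ q).trans hdt)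
  have hT4' : 2 ∈ T → 4 ∣ n := by
    intro h
    have h1 := hd2 2 (Finset.mem_erase.2 ⟨fun h => hq2 h.symm, h⟩)
    rwa [if_pos rfl] at h1
  have hTn' : T ⊆ n.primeFactors := by
    intro p hp
    refine Nat.mem_primeFactors.2 ⟨hTp p hp, ?_, hn⟩
    by_cases hpq : p = q
    · rw [hpq]; exact hd1
    · have h1 := hd2 p (Finset.mem_erase.2 ⟨hpq, hp⟩)
      split_ifs at h1 with h2
      · rw [h2]
        exact (by norm_num : 2 ∣ 4).trans h1
      · exact h1
  have hnm' : n.primeFactors ⊆ m.primeFactors := Nat.primeFactors_mono hnm hm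
  have h24 : 2 ∣ n → n.factorization 2 ≠ 1 → 4 ∣ n := by
    intro h1 h2
    have h3 := Nat.prime_two.factorization_pos_of_dvd hn h1
    have h4 : 2 ^ 2 ∣ n := (Nat.prime_two.pow_dvd_iff_le_factorization hn).2 (by omega)
    exact h4
  have h42 : 4 ∣ n → n.factorization 2 ≠ 1 := by
    intro h1 h2
    have h4 : 2 ^ 2 ∣ n := h1
    have h3 := (Nat.prime_two.pow_dvd_iff_le_factorization hn).1 h4
    omega
  have hφ : 0 < (q ^ n.factorization q).totient :=
    Nat.totient_pos.2 (pow_pos (hTp q hqT).pos _)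
  unfold cs
  rw [hlen, Finset.toList_toFinset]
  by_cases hv : n.factorization 2 = 1
  · have h2n : 2 ∣ n := Nat.dvd_of_factorization_pos (by omega)
    have h2T : 2 ∉ T := fun h => h42 (hT4' h) hv
    have eL : (((n.primeFactors \ T.erase q).erase q).filter
        fun s => s ≠ 2 ∨ n.factorization 2 ≠ 1) = (n.primeFactors \ T).erase 2 := by
      ext s
      simp only [Finset.mem_filter, Finset.mem_erase, Finset.mem_sdiff]
      constructor
      · rintro ⟨⟨h1, h2, h3⟩, h4 | h4⟩
        · exact ⟨h4, h2, fun h => h3 ⟨h1, h⟩⟩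
        · exact absurd hv h4
      · rintro ⟨h1, h2, h3⟩
        exact ⟨⟨fun h => h3 (h ▸ hqT), h2, fun h => h3 h.2⟩, Or.inl h1⟩
    rw [eL, if_pos hv]
    have k1 := hC2 (h2n.trans hnm) h2T ((n.primeFactors \ T).erase 2)
      (fun s hs => Finset.mem_erase.2 ⟨(Finset.mem_erase.1 hs).1,
        hnm' (Finset.mem_sdiff.1 (Finset.mem_erase.1 hs).2).1⟩)
      (by
        rw [Finset.disjoint_left]
        intro s hs hs'
        exact (Finset.mem_sdiff.1 (Finset.mem_erase.1 hs').2).2 hs)
    have k2 : T ∪ (n.primeFactors \ T).erase 2 ⊆ n.primeFactors := by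
      intro s hs
      rcases Finset.mem_union.1 hs with h | h
      · exact hTn' h
      · exact (Finset.mem_sdiff.1 (Finset.mem_erase.1 h).2).1
    have k3 := GCrN_tot hn k2 (Finset.mem_union_left _ hqT) hq2 (by
      intro h
      rcases Finset.mem_union.1 h with h | h
      · exact absurd h h2T
      · exact absurd rfl (Finset.mem_erase.1 h).1)
    have k4 := Nat.mul_lt_mul_of_pos_right k1 hφ
    refine lt_of_eq_of_lt ?_ (lt_of_lt_of_le k4 k3)
    ring
  · have eL : (((n.primeFactors \ T.erase q).erase q).filter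
        fun s => s ≠ 2 ∨ n.factorization 2 ≠ 1) = n.primeFactors \ T := by
      ext s
      simp only [Finset.mem_filter, Finset.mem_erase, Finset.mem_sdiff]
      constructor
      · rintro ⟨⟨h1, h2, h3⟩, -⟩
        exact ⟨h2, fun h => h3 ⟨h1, h⟩⟩
      · rintro ⟨h2, h3⟩
        exact ⟨⟨fun h => h3 (h ▸ hqT), h2, fun h => h3 h.2⟩, Or.inr hv⟩
    rw [eL, if_neg hv]
    have k1 := hC1 (n.primeFactors \ T) (fun s hs => hnm' (Finset.mem_sdiff.1 hs).1)
      (by
        rw [Finset.disjoint_left]
        intro s hs hs'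
        exact (Finset.mem_sdiff.1 hs').2 hs)
      (fun h => (h24 (Nat.dvd_of_mem_primeFactors (Finset.mem_sdiff.1 h).1) hv).trans hnm)
    have k2 : T ∪ n.primeFactors \ T ⊆ n.primeFactors := by
      intro s hs
      rcases Finset.mem_union.1 hs with h | h
      · exact hTn' h
      · exact (Finset.mem_sdiff.1 h).1
    have k3 := GCrN_tot hn k2 (Finset.mem_union_left _ hqT) hq2 (fun _ => hv)
    have k4 := Nat.mul_lt_mul_of_pos_right k1 hφ
    refine lt_of_eq_of_lt ?_ (lt_of_lt_of_le k4 k3)
    ring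

end Pool.Agent.FO
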