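import Pool.Agent.Lib.MP_640417_ag.GT.SpecR

/-!
# Pairs of primes, module CtX: number of squares with given residues
-/

set_option autoImplicit false

noncomputable section

namespace Pool.Agent.FO

open Finset Pool.Agent.FC

namespace GCtXAux

theorem c4_dvd (p : ℕ) : c4 p ∣ p ^ 2 := by
  unfold c4
  split_ifs with h
  · rw [h]; norm_num
  · exact dvd_pow_self p (by norm_num)

theorem c4_cop {p q : ℕ} (hp : p.Prime) (hq : q.Prime) (h : p ≠ q) : (c4 p).Coprime (c4 q) :=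
  Nat.Coprime.coprime_dvd_left (c4_dvd p)
    (Nat.Coprime.coprime_dvd_right (c4_dvd q) (Nat.Coprime.pow 2 2 ((Nat.coprime_primes hp hq).2 h)))

theorem dT_eq (S : Finset ℕ) : dT S = ∏ p ∈ S, c4 p := rfl

theorem c4_dvd_dT {S : Finset ℕ} {p : ℕ} (hp : p ∈ S) : ((c4 p : ℕ) : ℤ) ∣ ((dT S : ℕ) : ℤ) := by
  rw [dT_eq]
  exact_mod_cast Finset.dvd_prod_of_mem c4 hp

theorem cop_dT {S : Finset ℕ} (hS : ∀ p ∈ S, p.Prime) {p : ℕ} (hp : p.Prime) (hpS : p ∉ S) :
    (c4 p).Coprime (dT S) := by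
  rw [dT_eq]
  refine Nat.Coprime.prod_right fun q hq => c4_cop hp (hS q hq) ?_
  rintro rfl
  exact hpS hq

theorem c4_odd {q : ℕ} (hq : q ≠ 2) : c4 q = q := if_neg hq

/-- a number which is divisible by all `c4 s` is divisible by `dT S` -/
theorem dT_dvd {S : Finset ℕ} (hS : ∀ p ∈ S, p.Prime) {w : ℤ} (h : ∀ s ∈ S, ((c4 s : ℕ) : ℤ) ∣ w) :
    ((dT S : ℕ) : ℤ) ∣ w := by
  classical
  induction S using Finset.induction_on with
  | empty => rw [dT_eq]; simp
  | insert p S hpS ih =>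
    have e : ((dT (insert p S) : ℕ) : ℤ) = ((c4 p : ℕ) : ℤ) * ((dT S : ℕ) : ℤ) := by
      rw [dT_eq, dT_eq, Finset.prod_insert hpS]
      push_cast
      rfl
    have hS' : ∀ q ∈ S, q.Prime := fun q hq => hS q (Finset.mem_insert_of_mem hq)
    rw [e]
    exact IsCoprime.mul_dvd (Nat.isCoprime_iff_coprime.2 (cop_dT hS' (hS p (Finset.mem_insert_self p S)) hpS))
      (h p (Finset.mem_insert_self p S)) (ih hS' fun s hs => h s (Finset.mem_insert_of_mem hs))

/-- the Chinese remainder theorem -/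
theorem crt {S : Finset ℕ} (hS : ∀ p ∈ S, p.Prime) (b : ℕ → ℤ) : ∃ w : ℤ, ∀ s ∈ S, ((c4 s : ℕ) : ℤ) ∣ w - b s := by
  classical
  induction S using Finset.induction_on with
  | empty => exact ⟨0, fun s hs => absurd hs (Finset.notMem_empty s)⟩
  | insert p S hpS ih =>
    have hS' : ∀ q ∈ S, q.Prime := fun q hq => hS q (Finset.mem_insert_of_mem hq)
    obtain ⟨w, hw⟩ := ih hS'
    obtain ⟨A, B, hAB⟩ := Nat.isCoprime_iff_coprime.2 (cop_dT hS' (hS p (Finset.mem_insert_self p S)) hpS)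
    refine ⟨w + B * ((dT S : ℕ) : ℤ) * (b p - w), fun s hs => ?_⟩
    rcases Finset.mem_insert.1 hs with rfl | hs
    · refine ⟨A * (w - b s), ?_⟩
      linear_combination (b s - w) * hAB
    · have e : w + B * ((dT S : ℕ) : ℤ) * (b p - w) - b s = (w - b s) + ((dT S : ℕ) : ℤ) * (B * (b p - w)) := by ring
      rw [e]
      exact dvd_add (hw s hs) (Dvd.dvd.mul_right (c4_dvd_dT hs) _)

theorem sm_congr {u : ℕ} {w w' : ℤ} (h : ((c4 u : ℕ) : ℤ) ∣ w - w') : sm u w ↔ sm u w' := by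
  have e : ((w : ℤ) : ZMod (c4 u)) = ((w' : ℤ) : ZMod (c4 u)) := by
    rw [eq_comm, ZMod.intCast_eq_intCast_iff_dvd_sub]
    exact h
  unfold sm
  rw [e]

theorem sm_odd {q : ℕ} (hq : q ≠ 2) (w : ℤ) : sm q w ↔ IsSquare ((w : ℤ) : ZMod q) := by
  unfold sm
  rw [c4_odd hq]

theorem cop_c4 {s : ℕ} {w : ℤ} (h : IsCoprime w (s : ℤ)) : IsCoprime w ((c4 s : ℕ) : ℤ) := by
  have h1 : IsCoprime w ((s : ℤ) ^ 2) := h.pow_right
  exact h1.of_isCoprime_of_dvd_right (by exact_mod_cast c4_dvd s)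

/-- the number of non-zero squares modulo an odd prime -/
theorem card_sq {q : ℕ} (hq : q.Prime) (hq2 : q ≠ 2) [NeZero q] [DecidablePred fun r : ZMod q => r ≠ 0 ∧ IsSquare r] :
    2 * (((univ.filter fun r : ZMod q => r ≠ 0 ∧ IsSquare r).card : ℕ) : ℤ) = (q : ℤ) - 1 := by
  have : Fact q.Prime := ⟨hq⟩
  have h1 : ∑ a : ZMod q, quadraticChar (ZMod q) a = 0 := by
    refine quadraticChar_sum_zero ?_
    rw [ZMod.ringChar_zmod_n]
    exact hq2
  have h2 : ∀ a : ZMod q, (2 : ℤ) * (if a ≠ 0 ∧ IsSquare a then 1 else 0) =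
      quadraticChar (ZMod q) a + (1 - if a = 0 then 1 else 0) := by
    intro a
    by_cases ha : a = 0
    · rw [ha]
      simp
    · by_cases hs : IsSquare a
      · rw [(quadraticChar_one_iff_isSquare ha).2 hs, if_pos ⟨ha, hs⟩, if_neg ha]
        norm_num
      · rw [quadraticChar_neg_one_iff_not_isSquare.2 hs, if_neg (fun h => hs h.2), if_neg ha]
        norm_num
  have h3 : ∑ a : ZMod q, ((2 : ℤ) * (if a ≠ 0 ∧ IsSquare a then 1 else 0)) =
      ∑ a : ZMod q, (quadraticChar (ZMod q) a + (1 - if a = 0 then 1 else 0)) :=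
    Finset.sum_congr rfl fun a _ => h2 a
  rw [← Finset.mul_sum, Finset.sum_boole, Finset.sum_add_distrib, h1, Finset.sum_sub_distrib,
    Finset.sum_ite_eq' univ (0 : ZMod q) fun _ => (1 : ℤ)] at h3
  rw [if_pos (Finset.mem_univ _), Finset.sum_const, Finset.card_univ, ZMod.card, nsmul_eq_mul, mul_one, zero_add] at h3
  exact h3

end GCtXAux

open GCtXAux in
theorem pCtX : S_CtX := by
  classical
  intro m _ S q hS hd hqS hq2 b hb Z hZ
  obtain ⟨x1, x2, -, x4, x5, x6⟩ := gSqX m S hS hd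
  obtain ⟨y1, y2⟩ := x1 q hqS
  rw [c4_odd hq2] at y1 y2
  have hq : q.Prime := hS q hqS
  have : NeZero q := ⟨hq.ne_zero⟩
  have hS' : ∀ p ∈ S.erase q, p.Prime := fun p hp => hS p (Finset.mem_of_mem_erase hp)
  have hdd : ((dT S : ℕ) : ℤ) = ((dT (S.erase q) : ℕ) : ℤ) * ((q : ℕ) : ℤ) := by
    rw [← y1]
    push_cast
    rfl
  have hqd : ((q : ℕ) : ℤ) ∣ ((dT S : ℕ) : ℤ) := ⟨_, by rw [hdd]; ring⟩
  -- the elements of `Xs`
  have key : ∀ w : ℤ, ((m / dT S : ℕ) : ZMod m) * ((w : ℤ) : ZMod m) ∈ Xs m S →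
      IsCoprime w (dT S : ℤ) ∧ ∀ u ∈ S, sm u w := by
    intro w hw
    have h1 : sqi m (dT S) (((m / dT S : ℕ) : ZMod m) * ((w : ℤ) : ZMod m)) = 1 := (Finset.mem_filter.1 hw).2
    obtain ⟨w', hw', h2⟩ := x4 _ (x6 _ h1)
    rw [h2] at h1
    have h3 := (x5 w' hw').1 h1
    have h4 := (x2 w w').1 h2
    refine ⟨?_, fun u hu => (sm_congr ((c4_dvd_dT hu).trans h4)).2 (h3 u hu)⟩
    obtain ⟨k, hk⟩ := h4
    have e : w = w' + ((dT S : ℕ) : ℤ) * k := by linear_combination hk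
    rw [e]
    exact IsCoprime.add_mul_left_left hw' k
  by_cases hall : ∀ s ∈ S.erase q, sm s (b s)
  · have hprod : ∏ s ∈ S.erase q, Js s (b s) = 1 := by
      refine Finset.prod_eq_one fun s hs => ?_
      unfold Js
      exact if_pos (hall s hs)
    rw [hprod, mul_one]
    obtain ⟨w0, hw0⟩ := crt hS' b
    obtain ⟨A, B, hAB⟩ := Nat.isCoprime_iff_coprime.2 y2
    -- `A q + B d' = 1`
    let W : ℤ → ℤ := fun t => w0 + B * ((dT (S.erase q) : ℕ) : ℤ) * (t - w0)
    have hW : ∀ t, W t = w0 + B * ((dT (S.erase q) : ℕ) : ℤ) * (t - w0) := fun t => rfl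
    have hW1 : ∀ t, ∀ s ∈ S.erase q, ((c4 s : ℕ) : ℤ) ∣ W t - b s := by
      intro t s hs
      have e : W t - b s = (w0 - b s) + ((dT (S.erase q) : ℕ) : ℤ) * (B * (t - w0)) := by
        rw [hW]
        ring
      rw [e]
      exact dvd_add (hw0 s hs) (Dvd.dvd.mul_right (c4_dvd_dT hs) _)
    have hW2 : ∀ t, ((q : ℕ) : ℤ) ∣ W t - t := by
      intro t
      refine ⟨A * (w0 - t), ?_⟩
      rw [hW]
      linear_combination (t - w0) * hAB
    have hW3 : ∀ r : ZMod q, ((W (r.val : ℤ) : ℤ) : ZMod q) = r := by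
      intro r
      have h1 : ((W (r.val : ℤ) : ℤ) : ZMod q) = (((r.val : ℤ) : ℤ) : ZMod q) := by
        rw [eq_comm, ZMod.intCast_eq_intCast_iff_dvd_sub]
        exact hW2 _
      rw [h1]
      push_cast
      exact ZMod.natCast_zmod_val r
    let f : ZMod q → ZMod m := fun r => ((m / dT S : ℕ) : ZMod m) * ((W (r.val : ℤ) : ℤ) : ZMod m)
    have hf : ∀ r, f r = ((m / dT S : ℕ) : ZMod m) * ((W (r.val : ℤ) : ℤ) : ZMod m) := fun r => rfl
    have hinj : Function.Injective f := by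
      intro r r' h
      rw [hf, hf, x2] at h
      have h1 : ((q : ℕ) : ℤ) ∣ W (r.val : ℤ) - W (r'.val : ℤ) := hqd.trans h
      rw [← hW3 r, ← hW3 r', eq_comm, ZMod.intCast_eq_intCast_iff_dvd_sub]
      exact h1
    have hZe : Z = (univ.filter fun r : ZMod q => r ≠ 0 ∧ IsSquare r).image f := by
      ext x
      rw [hZ, Finset.mem_image]
      constructor
      · rintro ⟨hx, w, rfl, hw⟩
        obtain ⟨k1, k2⟩ := key w hx
        refine ⟨((w : ℤ) : ZMod q), Finset.mem_filter.2 ⟨Finset.mem_univ _, ?_, ?_⟩, ?_⟩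
        · intro h0
          have h1 : ((q : ℕ) : ℤ) ∣ w := (ZMod.intCast_zmod_eq_zero_iff_dvd w q).1 h0
          have h2 : IsUnit ((q : ℕ) : ℤ) := k1.isUnit_of_dvd' h1 hqd
          rw [Int.isUnit_iff] at h2
          have h3 := hq.two_le
          omega
        · exact (sm_odd hq2 w).1 (k2 q hqS)
        · rw [hf, x2, hdd]
          refine IsCoprime.mul_dvd (Nat.isCoprime_iff_coprime.2 y2.symm) ?_ ?_
          · refine dT_dvd hS' fun s hs => ?_
            have e : W (((w : ℤ) : ZMod q).val : ℤ) - w = (W (((w : ℤ) : ZMod q).val : ℤ) - b s) - (w - b s) := by ring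
            rw [e]
            exact dvd_sub (hW1 _ s hs) (hw s hs)
          · have h1 := hW3 ((w : ℤ) : ZMod q)
            rw [eq_comm, ZMod.intCast_eq_intCast_iff_dvd_sub] at h1
            exact h1
      · rintro ⟨r, hr, rfl⟩
        obtain ⟨-, hr0, hrs⟩ := Finset.mem_filter.1 hr
        have hwr := hW3 r
        have hcq : IsCoprime (W (r.val : ℤ)) ((q : ℕ) : ℤ) := by
          have hqp : Prime ((q : ℕ) : ℤ) := Nat.prime_iff_prime_int.1 hq
          refine ((Prime.coprime_iff_not_dvd hqp).2 fun h => ?_).symm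
          rw [← ZMod.intCast_zmod_eq_zero_iff_dvd, hwr] at h
          exact hr0 h
        have hc : IsCoprime (W (r.val : ℤ)) ((dT S : ℕ) : ℤ) := by
          rw [dT_eq]
          push_cast
          refine IsCoprime.prod_right fun s hs => ?_
          by_cases hsq : s = q
          · rw [hsq, c4_odd hq2]
            exact hcq
          · have hs' : s ∈ S.erase q := Finset.mem_erase.2 ⟨hsq, hs⟩
            obtain ⟨k, hk⟩ := hW1 (r.val : ℤ) s hs'
            have e : W (r.val : ℤ) = b s + ((c4 s : ℕ) : ℤ) * k := by linear_combination hk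
            rw [e]
            exact IsCoprime.add_mul_left_left (cop_c4 (hb s hs')) k
        refine ⟨?_, W (r.val : ℤ), hf r, hW1 _⟩
        refine Finset.mem_filter.2 ⟨Finset.mem_univ _, ?_⟩
        rw [hf, x5 _ hc]
        intro u hu
        by_cases huq : u = q
        · rw [huq, sm_odd hq2, hwr]
          exact hrs
        · have hu' : u ∈ S.erase q := Finset.mem_erase.2 ⟨huq, hu⟩
          exact (sm_congr (hW1 _ u hu')).2 (hall u hu')
    rw [hZe, Finset.card_image_of_injective _ hinj]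
    exact card_sq hq hq2
  · push Not at hall
    obtain ⟨s, hs, hns⟩ := hall
    have hprod : ∏ s ∈ S.erase q, Js s (b s) = 0 := by
      refine Finset.prod_eq_zero hs ?_
      unfold Js
      exact if_neg hns
    have hZ0 : Z = ∅ := by
      refine Finset.eq_empty_of_forall_notMem fun x hx => ?_
      obtain ⟨h1, w, rfl, h3⟩ := (hZ x).1 hx
      exact hns ((sm_congr (h3 s hs)).1 ((key w h1).2 s (Finset.mem_of_mem_erase hs)))
    rw [hprod, hZ0]
    simp

end Pool.Agent.FO
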