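import Pool.Agent.Lib.MP_640417_ag.GT.SpecR

/-!
# Das' function of a pair of primes: oddness, orders, parity (author helper69)
-/

set_option autoImplicit false

noncomputable section

open Finset Pool.Agent.FC

namespace Pool.Agent.FO

namespace GDaBAux

/-- the half-system and multiplication by `-1` -/
theorem hs_neg {m : ℕ} [NeZero m] {y : ZMod m} (h : 3 ≤ addOrderOf y) : hs (-y) = 1 - hs y := by
  have hy : y ≠ 0 := by
    rintro rfl
    rw [addOrderOf_zero] at h
    omega
  have h2 : ¬ 2 * y.val = m := by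
    intro h3
    have h4 : 2 • y = 0 := by
      rw [nsmul_eq_mul, ← ZMod.natCast_zmod_val y, ← Nat.cast_mul, h3, ZMod.natCast_self]
    have h5 := Nat.le_of_dvd (by norm_num) (addOrderOf_dvd_of_nsmul_eq_zero h4)
    omega
  have h6 : (-y).val = m - y.val := by
    rw [ZMod.neg_val, if_neg hy]
  have h7 : -y ≠ 0 := neg_ne_zero.2 hy
  have h8 : y.val < m := ZMod.val_lt y
  unfold hs
  rw [h6]
  by_cases h9 : 2 * y.val < m
  · rw [if_neg (by omega), if_pos ⟨hy, h9⟩]
    norm_num
  · rw [if_pos ⟨h7, by omega⟩, if_neg (by omega)]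
    norm_num

/-- `c4 p ≥ 3` -/
theorem c4_ge {p : ℕ} (hp : p.Prime) : 3 ≤ c4 p := by
  unfold c4
  split_ifs with h
  · norm_num
  · have := hp.two_le
    omega

/-- orders of multiples, coprime factor -/
theorem ord_cop {m : ℕ} {x : ZMod m} {n k : ℕ} (hx : addOrderOf x = n) (hk : k ≠ 0) (h : n.Coprime k) :
    addOrderOf ((k : ZMod m) * x) = n := by
  rw [← nsmul_eq_mul, addOrderOf_nsmul' x hk, hx, h.gcd_eq_one, Nat.div_one]

/-- orders of multiples, divisor -/
theorem ord_div {m : ℕ} {x : ZMod m} {n k : ℕ} (hx : addOrderOf x = n * k) (hk : 0 < k) :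
    addOrderOf ((k : ZMod m) * x) = n := by
  rw [← nsmul_eq_mul, addOrderOf_nsmul' x hk.ne', hx, Nat.gcd_eq_right (dvd_mul_left k n),
    Nat.mul_div_cancel _ hk]

/-- the power of `p` in `c4 p * c4 q` -/
theorem fac {p q : ℕ} (hp : p.Prime) (hq : q.Prime) (hpq : p ≠ q) :
    p ^ (c4 p * c4 q).factorization p = c4 p := by
  obtain ⟨i, hi⟩ := GEuEAux.c4_pow (r := p)
  obtain ⟨j, hj⟩ := GEuEAux.c4_pow (r := q)
  have h1 : (p ^ i * q ^ j).factorization p = i := by
    rw [Nat.factorization_mul (pow_ne_zero _ hp.ne_zero) (pow_ne_zero _ hq.ne_zero), Finsupp.add_apply,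
      hp.factorization_pow, Finsupp.single_eq_same, Nat.factorization_eq_zero_of_not_dvd, add_zero]
    intro h
    exact hpq ((Nat.prime_dvd_prime_iff_eq hp hq).1 (hp.dvd_of_dvd_pow h))
  rw [hi, hj, h1]

/-- multiples of elements of order `d` -/
theorem key (m d c c' : ℕ) (h : c' * c = d) (hd : d ∣ m) (w ε v : ℤ) (hw : (c : ℤ) ∣ w - ε) :
    (c' : ZMod m) * (((m / d : ℕ) : ZMod m) * ((w * v : ℤ) : ZMod m)) =
      (c' : ZMod m) * (((m / d : ℕ) : ZMod m) * ((ε * v : ℤ) : ZMod m)) := by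
  obtain ⟨k, hk⟩ := hw
  have h1 : ((c' : ZMod m) * ((m / d : ℕ) : ZMod m)) * (c : ZMod m) = 0 := by
    rw [← Nat.cast_mul, ← Nat.cast_mul]
    have e : c' * (m / d) * c = m := by
      rw [mul_right_comm, h]
      exact Nat.mul_div_cancel' hd
    rw [e, ZMod.natCast_self]
  have h2 : w = ε + c * k := by linarith
  rw [h2]
  push_cast
  linear_combination ((k : ℤ) : ZMod m) * ((v : ℤ) : ZMod m) * h1

/-- the element `el m d (e * a)` -/
theorem el_mul (m d : ℕ) [NeZero m] [NeZero d] (hd : d ∣ m) (e a : (ZMod d)ˣ) :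
    el m d (e * a) = ((m / d : ℕ) : ZMod m) *
      ((((((e : ZMod d).val : ℕ) : ℤ)) * ((((a : ZMod d).val : ℕ) : ℤ)) : ℤ) : ZMod m) := by
  have h1 : ((d : ℕ) : ℤ) ∣ ((((e * a : (ZMod d)ˣ) : ZMod d).val : ℕ) : ℤ) -
      ((((e : ZMod d).val : ℕ) : ℤ)) * ((((a : ZMod d).val : ℕ) : ℤ)) := by
    rw [← ZMod.intCast_zmod_eq_zero_iff_dvd]
    push_cast
    rw [ZMod.natCast_zmod_val, ZMod.natCast_zmod_val, ZMod.natCast_zmod_val]
    ring
  obtain ⟨k, hk⟩ := h1
  have h2 : ((((e * a : (ZMod d)ˣ) : ZMod d).val : ℕ) : ℤ) =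
      ((((e : ZMod d).val : ℕ) : ℤ)) * ((((a : ZMod d).val : ℕ) : ℤ)) + d * k := by linarith
  have h3 : ((m / d : ℕ) : ZMod m) * (d : ZMod m) = 0 := by
    rw [← Nat.cast_mul, Nat.div_mul_cancel hd, ZMod.natCast_self]
  have h4 : el m d (e * a) = ((m / d : ℕ) : ZMod m) *
      ((((((e * a : (ZMod d)ˣ) : ZMod d).val : ℕ) : ℤ) : ℤ) : ZMod m) := by
    rw [Int.cast_natCast]
    rfl
  rw [h4, h2]
  push_cast
  linear_combination ((k : ℤ) : ZMod m) * h3

/-- the element `el m d a` -/
theorem el_int (m d : ℕ) (a : (ZMod d)ˣ) :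
    el m d a = ((m / d : ℕ) : ZMod m) * (((((a : ZMod d).val : ℕ) : ℤ)) : ZMod m) := by
  rw [Int.cast_natCast]
  rfl

/-- parity for one of the two primes -/
theorem par (m d c c' : ℕ) [NeZero m] [NeZero d] (h : c' * c = d) (hd : d ∣ m) (hc : 3 ≤ c) (hc' : 0 < c')
    (e a : (ZMod d)ˣ) (h1 : (c : ℤ) ∣ (((e : ZMod d).val : ℕ) : ℤ) + 1)
    (h2 : (c' : ℤ) ∣ (((e : ZMod d).val : ℕ) : ℤ) - 1) :
    hs ((c' : ZMod m) * el m d (e * a)) = 1 - hs ((c' : ZMod m) * el m d a) ∧
      (c : ZMod m) * el m d (e * a) = (c : ZMod m) * el m d a := by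
  have e1 : (c' : ZMod m) * el m d (e * a) = -((c' : ZMod m) * el m d a) := by
    rw [el_mul m d hd, el_int m d a, key m d c c' h hd _ (-1) _ (by simpa using h1)]
    push_cast
    ring
  have e2 : (c : ZMod m) * el m d (e * a) = (c : ZMod m) * el m d a := by
    rw [el_mul m d hd, el_int m d a, key m d c' c (by rw [mul_comm]; exact h) hd _ 1 _ h2, one_mul]
  refine ⟨?_, e2⟩
  rw [e1]
  refine hs_neg ?_
  have h3 : addOrderOf ((c' : ZMod m) * el m d a) = c := by
    refine ord_div ?_ hc'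
    rw [(hEl m d hd).1 a, ← h, mul_comm]
  rw [h3]
  exact hc

end GDaBAux

open GDaBAux in
theorem pDaB : S_DaB := by
  intro m _ p q hp hq hpq hm
  have hp3 := c4_ge hp
  have hq3 := c4_ge hq
  have hcop : (c4 p).Coprime (c4 q) := GEuEAux.c4_cop hp hq (Ne.symm hpq)
  have hcpq : (c4 p).Coprime q := by
    obtain ⟨i, hi⟩ := GEuEAux.c4_pow (r := p)
    rw [hi]
    exact Nat.Coprime.pow_left i ((Nat.coprime_primes hp hq).2 hpq)
  have hcqp : (c4 q).Coprime p := by
    obtain ⟨i, hi⟩ := GEuEAux.c4_pow (r := q)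
    rw [hi]
    exact Nat.Coprime.pow_left i ((Nat.coprime_primes hq hp).2 (Ne.symm hpq))
  have hdT : dT {p, q} = c4 p * c4 q := by
    change ∏ r ∈ ({p, q} : Finset ℕ), c4 r = c4 p * c4 q
    exact Finset.prod_pair hpq
  refine ⟨fun x => ?_, fun x hx => ?_, fun d _ hd => ?_⟩
  · unfold das
    rw [addOrderOf_neg]
    split_ifs with h1 h2 h3
    · have e1 : addOrderOf (((c4 q : ℕ) : ZMod m) * x) = c4 p := ord_div h1 (by omega)
      have e2 : addOrderOf (((c4 p : ℕ) : ZMod m) * x) = c4 q :=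
        ord_div (by rw [h1, mul_comm]) (by omega)
      rw [mul_neg, mul_neg, hs_neg (by rw [e1]; exact hp3), hs_neg (by rw [e2]; exact hq3)]
      ring
    · have e1 : addOrderOf ((q : ZMod m) * x) = c4 p := ord_cop h2 hq.ne_zero hcpq
      rw [mul_neg, hs_neg (by rw [e1]; exact hp3), hs_neg (by rw [h2]; exact hp3)]
      ring
    · have e1 : addOrderOf ((p : ZMod m) * x) = c4 q := ord_cop h3 hp.ne_zero hcqp
      rw [mul_neg, hs_neg (by rw [h3]; exact hq3), hs_neg (by rw [e1]; exact hq3)]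
      ring
    · rfl
  · rw [hdT]
    unfold das at hx
    split_ifs at hx with h1 h2 h3
    · rw [h1]
    · rw [h2]
      exact dvd_mul_right _ _
    · rw [h3]
      exact dvd_mul_left _ _
    · exact absurd rfl hx
  · have hdm : d ∣ m := by
      rw [hd, hdT]
      exact hm
    have hd' : d = c4 p * c4 q := by rw [hd, hdT]
    have hpf : d.primeFactors = {p, q} := by
      rw [hd]
      refine GOdQAux.pf fun r hr => ?_
      rcases Finset.mem_insert.1 hr with h | h
      · rw [h]; exact hp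
      · rw [Finset.mem_singleton.1 h]; exact hq
    have hF : ∀ u : (ZMod d)ˣ, das m p q (el m d u) =
        hs (((c4 q : ℕ) : ZMod m) * el m d u) - hs (((c4 p : ℕ) : ZMod m) * el m d u) := by
      intro u
      unfold das
      rw [if_pos]
      rw [(hEl m d hdm).1 u]
      exact hd'
    intro l hl hlD q' hq' a
    have hlm : ∀ r, r ∈ l ↔ r = p ∨ r = q := fun r => by
      rw [hlD r, hpf, Finset.mem_insert, Finset.mem_singleton]
    have hone : ∀ r s : ℕ, r ≠ s → (∀ t, t ∈ l ↔ t = r ∨ t = s) → l.erase r = [s] := by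
      intro r s hrs ht
      refine List.perm_singleton.1 ?_
      refine (List.perm_ext_iff_of_nodup (hl.erase r) (List.nodup_singleton s)).2 fun t => ?_
      rw [hl.mem_erase_iff, ht t, List.mem_singleton]
      constructor
      · rintro ⟨h1, h2 | h2⟩
        · exact absurd h2 h1
        · exact h2
      · rintro h
        exact ⟨by rw [h]; exact Ne.symm hrs, Or.inr h⟩
    rcases (hlm q').1 hq' with h | h
    · -- `q' = p`, the sign changes at `q`
      rw [h, hone p q hpq hlm]
      have hE := (gEn d).1 q (by rw [hpf]; simp)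
      unfold IsEn at hE
      have hf : q ^ d.factorization q = c4 q := by
        rw [hd', mul_comm]
        exact fac hq hp (Ne.symm hpq)
      rw [hf] at hE
      have hf2 : d / c4 q = c4 p := by
        rw [hd']
        exact Nat.mul_div_cancel _ (by omega)
      rw [hf2] at hE
      obtain ⟨e1, e2⟩ := par m d (c4 q) (c4 p) hd'.symm hdm hq3 (by omega) (en d q) a hE.1 hE.2
      change ¬ (2 : ℤ) ∣ das m p q (el m d a) - das m p q (el m d (en d q * a))
      rw [hF, hF, e1, e2]
      omega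
    · -- `q' = q`, the sign changes at `p`
      rw [h, hone q p (Ne.symm hpq) fun t => by rw [hlm t, or_comm]]
      have hE := (gEn d).1 p (by rw [hpf]; simp)
      unfold IsEn at hE
      have hf : p ^ d.factorization p = c4 p := by
        rw [hd']
        exact fac hp hq hpq
      rw [hf] at hE
      have hf2 : d / c4 p = c4 q := by
        rw [hd']
        exact Nat.mul_div_cancel_left _ (by omega)
      rw [hf2] at hE
      obtain ⟨e1, e2⟩ := par m d (c4 p) (c4 q) (by rw [hd', mul_comm]) hdm hp3 (by omega) (en d p) a hE.1 hE.2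
      change ¬ (2 : ℤ) ∣ das m p q (el m d a) - das m p q (el m d (en d p * a))
      rw [hF, hF, e1, e2]
      omega

end Pool.Agent.FO
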