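import Pool.Agent.Lib.MP_640417_ag.GT.SpecR

/-!
# Das' function: independence of the level
-/

set_option autoImplicit false

namespace Pool.Agent.FO

open Finset Pool.Agent.FC

namespace GDaIAux

/-- the map `ZMod D → ZMod m`, multiplication by `m / D` -/
noncomputable def e (m D : ℕ) (k : ZMod D) : ZMod m := ((m / D * k.val : ℕ) : ZMod m)

variable {m D : ℕ} [NeZero m] [NeZero D]

theorem div_pos' (h : D ∣ m) : 0 < m / D :=
  Nat.div_pos (Nat.le_of_dvd (NeZero.pos m) h) (NeZero.pos D)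

theorem val_e (h : D ∣ m) (k : ZMod D) : (e m D k).val = m / D * k.val := by
  unfold e
  rw [ZMod.val_natCast, Nat.mod_eq_of_lt]
  have h1 : m / D * k.val < m / D * D := Nat.mul_lt_mul_of_pos_left (ZMod.val_lt k) (div_pos' h)
  rwa [Nat.div_mul_cancel h] at h1

theorem tac_e (h : D ∣ m) (k : ZMod D) :
    (ZMod.toAddCircle (e m D k) : UnitAddCircle) = ZMod.toAddCircle k := by
  rw [ZMod.toAddCircle_apply, ZMod.toAddCircle_apply, val_e h]
  have h2 : ((m / D * k.val : ℕ) : ℝ) / m = (k.val : ℝ) / D := by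
    have hm : (m : ℝ) = ((m / D : ℕ) : ℝ) * D := by
      rw [← Nat.cast_mul, Nat.div_mul_cancel h]
    have hc : ((m / D : ℕ) : ℝ) ≠ 0 := by
      have := div_pos' h
      positivity
    rw [Nat.cast_mul]
    conv_lhs => rw [hm]
    exact mul_div_mul_left _ _ hc
  rw [h2]

theorem mul_e (h : D ∣ m) (c : ℕ) (k : ZMod D) :
    (c : ZMod m) * e m D k = e m D ((c : ZMod D) * k) := by
  apply ZMod.toAddCircle_injective m
  rw [tac_e h, ← nsmul_eq_mul, map_nsmul, tac_e h, ← map_nsmul, nsmul_eq_mul]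

theorem ord_e (h : D ∣ m) (k : ZMod D) : addOrderOf (e m D k) = addOrderOf k := by
  rw [← addOrderOf_injective (ZMod.toAddCircle : ZMod m →+ UnitAddCircle) (ZMod.toAddCircle_injective m),
    tac_e h, addOrderOf_injective (ZMod.toAddCircle : ZMod D →+ UnitAddCircle) (ZMod.toAddCircle_injective D)]

theorem e_eq_zero (h : D ∣ m) (k : ZMod D) : e m D k = 0 ↔ k = 0 := by
  rw [← ZMod.val_eq_zero, val_e h, Nat.mul_eq_zero, ZMod.val_eq_zero]
  have := div_pos' h
  constructor
  · rintro (h1 | h1)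
    · omega
    · exact h1
  · exact Or.inr

theorem hs_e (h : D ∣ m) (k : ZMod D) : hs (e m D k) = hs k := by
  unfold hs
  have h1 : (e m D k ≠ 0 ∧ 2 * (e m D k).val < m) ↔ (k ≠ 0 ∧ 2 * k.val < D) := by
    rw [Ne, e_eq_zero h, val_e h]
    refine and_congr Iff.rfl ?_
    have h2 : 2 * (m / D * k.val) = m / D * (2 * k.val) := by ring
    have h3 : m / D * D = m := Nat.div_mul_cancel h
    rw [h2]
    constructor
    · intro h4
      exact lt_of_mul_lt_mul_left (h4.trans_eq h3.symm) (Nat.zero_le _)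
    · intro h4
      exact (Nat.mul_lt_mul_of_pos_left h4 (div_pos' h)).trans_eq h3
  by_cases h4 : k ≠ 0 ∧ 2 * k.val < D
  · rw [if_pos (h1.2 h4), if_pos h4]
  · rw [if_neg (fun h5 => h4 (h1.1 h5)), if_neg h4]

theorem das_e (h : D ∣ m) (p q : ℕ) (k : ZMod D) : das m p q (e m D k) = das D p q k := by
  unfold das
  simp only [ord_e h, mul_e h, hs_e h]

theorem surj_e (h : D ∣ m) (x : ZMod m) (hx : addOrderOf x ∣ D) : ∃ k : ZMod D, e m D k = x := by
  have h1 : D • x = 0 := addOrderOf_dvd_iff_nsmul_eq_zero.1 hx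
  have h2 : ((D * x.val : ℕ) : ZMod m) = 0 := by
    rw [Nat.cast_mul, ZMod.natCast_zmod_val, ← nsmul_eq_mul]
    exact h1
  rw [ZMod.natCast_eq_zero_iff] at h2
  have h3 : m / D ∣ x.val := by
    have h4 : D * (m / D) ∣ D * x.val := by
      rwa [Nat.mul_div_cancel' h]
    exact Nat.dvd_of_mul_dvd_mul_left (NeZero.pos D) h4
  obtain ⟨j, hj⟩ := h3
  have hjD : j < D := by
    have h5 : x.val < m := ZMod.val_lt x
    rw [hj] at h5
    have h6 : m / D * j < m / D * D := by
      rwa [Nat.div_mul_cancel h]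
    exact lt_of_mul_lt_mul_left h6 (Nat.zero_le _)
  refine ⟨(j : ZMod D), ?_⟩
  unfold e
  rw [ZMod.val_natCast, Nat.mod_eq_of_lt hjD, ← hj, ZMod.natCast_zmod_val]

theorem inj_e (h : D ∣ m) : Function.Injective (e m D) := by
  intro a b hab
  apply ZMod.toAddCircle_injective D
  rw [← tac_e h, ← tac_e h, hab]

theorem cl_e (h : D ∣ m) (f : ZMod m → ℤ) (g : ZMod D → ℤ) (hfg : ∀ k, f (e m D k) = g k)
    (h0 : ∀ x, f x ≠ 0 → addOrderOf x ∣ D) : cl f = cl g := by
  unfold cl
  symm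
  refine Finset.sum_of_injOn (e m D) (inj_e h).injOn (fun _ _ => Finset.mem_coe.2 (Finset.mem_univ _)) ?_ ?_
  · intro x _ hx
    have h1 : f x = 0 := by
      by_contra h2
      obtain ⟨k, hk⟩ := surj_e h x (h0 x h2)
      exact hx ⟨k, Finset.mem_coe.2 (Finset.mem_univ _), hk⟩
    rw [h1, Finsupp.single_zero]
  · intro k _
    rw [tac_e h, hfg]

end GDaIAux

open GDaIAux in
theorem pDaI (h1 : S_DaB) : S_DaI := by
  intro m m' _ _ p q A hp hq hpq hm hm' hA hI
  have hD0 : c4 p * c4 q ≠ 0 := by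
    intro h0
    rw [h0] at hm
    exact NeZero.ne m (Nat.eq_zero_of_zero_dvd hm)
  have : NeZero (c4 p * c4 q) := ⟨hD0⟩
  have hdT : dT {p, q} = c4 p * c4 q := by
    unfold dT c4
    rw [Finset.prod_pair hpq]
  have key : ∀ (n : ℕ) [NeZero n], c4 p * c4 q ∣ n →
      (∀ x : ZMod n, das n p q x = max (das n p q x) 0 - max (das n p q (-x)) 0) ∧
      max (das n p q 0) 0 = 0 ∧
      cl (fun x : ZMod n => max (das n p q x) 0) =
        cl (fun x : ZMod (c4 p * c4 q) => max (das (c4 p * c4 q) p q x) 0) := by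
    intro n _ hn
    obtain ⟨ho, hord, -⟩ := h1 n p q hp hq hpq hn
    refine ⟨?_, ?_, ?_⟩
    · intro x
      rw [ho x]
      rcases le_total (das n p q x) 0 with h | h
      · rw [max_eq_right h, max_eq_left (neg_nonneg.2 h)]
        ring
      · rw [max_eq_left h, max_eq_right (neg_nonpos.2 h)]
        ring
    · have h0 := ho 0
      rw [neg_zero] at h0
      have h00 : das n p q 0 = 0 := by omega
      rw [h00, max_self]
    · refine cl_e hn _ _ ?_ ?_
      · intro k
        rw [das_e hn]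
      · intro x hx
        rw [← hdT]
        apply hord x
        intro h0
        apply hx
        rw [h0, max_self]
  obtain ⟨k1, k2, k3⟩ := key m hm
  obtain ⟨l1, l2, l3⟩ := key m' hm'
  have h5 : InA A (fun x : ZMod m => max (das m p q x) 0 - max (das m p q (-x)) 0) := by
    obtain ⟨g, g0, g1, g2⟩ := hI
    exact ⟨g, g0, fun x => (k1 x).symm.trans (g1 x), g2⟩
  have h6 : cl (fun x : ZMod m => max (das m p q x) 0) ∈ A :=
    (gInA m A hA (fun _ => 0) (fun x : ZMod m => max (das m p q x) 0)).2.2.2 k2 h5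
  exact ⟨fun x => max (das m' p q x) 0, l2, l1, by rw [l3, ← k3]; exact h6⟩

end Pool.Agent.FO
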