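import Pool.Agent.Lib.MP_640417_ag.GT.SpecR

/-!
# Pairs of primes `{p, q}` with `q = 1` modulo `4`, module DaR: Das' function satisfies Stickelberger's relation
-/

set_option autoImplicit false

noncomputable section

open Finset Pool.Agent.FC

namespace Pool.Agent.FO

namespace GDaRAux

theorem c4_three {p : ℕ} (hp : p.Prime) : 3 ≤ c4 p := by
  unfold c4
  have := hp.two_le
  split_ifs with h <;> omega

theorem c4_cop {p q : ℕ} (hp : p.Prime) (hq : q.Prime) (h : p ≠ q) : (c4 p).Coprime (c4 q) := by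
  have h0 : p.Coprime q := (Nat.coprime_primes hp hq).2 h
  unfold c4
  split_ifs with h1 h2 h2
  · exact absurd (h1.trans h2.symm) h
  · subst h1
    exact Nat.Coprime.pow_left 2 h0
  · subst h2
    exact Nat.Coprime.pow_right 2 h0
  · exact h0

theorem q_cop {p q : ℕ} (hp : p.Prime) (hq : q.Prime) (h : p ≠ q) : q.Coprime (c4 p) := by
  have h0 : q.Coprime p := (Nat.coprime_primes hq hp).2 h.symm
  unfold c4
  split_ifs with h1
  · subst h1
    exact Nat.Coprime.pow_right 2 h0
  · exact h0

theorem ord_mul {m : ℕ} {k : ℕ} {z : ZMod m} (h : k.Coprime (addOrderOf z)) :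
    addOrderOf ((k : ZMod m) * z) = addOrderOf z := by
  rw [← nsmul_eq_mul]
  exact Nat.Coprime.addOrderOf_nsmul h.symm

/-- multiplication by a number prime to `c` permutes the elements of order `c` -/
theorem perm {m c k : ℕ} [NeZero m] (hc : 1 < c) (hk : k.Coprime c) (F : ZMod m → ℚ) :
    ∑ z ∈ univ.filter (fun z : ZMod m => addOrderOf z = c), F ((k : ZMod m) * z) =
      ∑ z ∈ univ.filter (fun z : ZMod m => addOrderOf z = c), F z := by
  obtain ⟨u, -, hu⟩ := Nat.exists_mul_mod_eq_one_of_coprime hk hc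
  have huc : u.Coprime c := by
    have h1 : (k * u).gcd c = 1 := by
      rw [Nat.gcd_comm, Nat.gcd_rec, hu, Nat.gcd_one_left]
    exact Nat.Coprime.coprime_mul_left h1
  have hku : ∀ z : ZMod m, addOrderOf z = c → (k : ZMod m) * ((u : ZMod m) * z) = z := by
    intro z hz
    have h1 : c ∣ k * u - 1 := by
      have := Nat.div_add_mod (k * u) c
      exact ⟨k * u / c, by omega⟩
    obtain ⟨j, hj⟩ := h1
    have h2 : k * u = 1 + c * j := by
      have h3 : 0 < k * u := by
        rcases Nat.eq_zero_or_pos (k * u) with h | h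
        · rw [h, Nat.zero_mod] at hu
          omega
        · exact h
      omega
    have h4 : ((c : ℕ) : ZMod m) * z = 0 := by
      rw [← nsmul_eq_mul, ← hz]
      exact addOrderOf_nsmul_eq_zero z
    have h5 : ((k * u : ℕ) : ZMod m) = ((1 + c * j : ℕ) : ZMod m) := by rw [h2]
    push_cast at h5
    linear_combination z * h5 + (j : ZMod m) * h4
  refine Finset.sum_nbij' (fun z => (k : ZMod m) * z) (fun z => (u : ZMod m) * z) ?_ ?_ ?_ ?_ ?_
  · intro z hz
    rw [Finset.mem_filter] at hz ⊢
    refine ⟨Finset.mem_univ _, ?_⟩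
    rw [ord_mul (by rw [hz.2]; exact hk), hz.2]
  · intro z hz
    rw [Finset.mem_filter] at hz ⊢
    refine ⟨Finset.mem_univ _, ?_⟩
    rw [ord_mul (by rw [hz.2]; exact huc), hz.2]
  · intro z hz
    rw [Finset.mem_filter] at hz
    have h1 := hku z hz.2
    linear_combination h1
  · intro z hz
    rw [Finset.mem_filter] at hz
    exact hku z hz.2
  · intro z _
    rfl

/-- the first sum -/
theorem claim {m p q : ℕ} [NeZero m] (hp : p.Prime) (hq : q.Prime) (h : p ≠ q) (hd : c4 p * c4 q ∣ m)
    (g : (ZMod m)ˣ) :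
    ∑ x ∈ univ.filter (fun x : ZMod m => addOrderOf x = c4 p * c4 q),
        (hs (((c4 q : ℕ) : ZMod m) * x) : ℚ) * sz ((g : ZMod m) * x) =
      ∑ z ∈ univ.filter (fun z : ZMod m => addOrderOf z = c4 p),
        ((hs z : ℚ) - (hs ((q : ZMod m) * z) : ℚ)) * sz ((g : ZMod m) * z) := by
  classical
  have hp3 := c4_three hp
  have hq3 := c4_three hq
  have hqc := q_cop hp hq h
  have h1 : ∀ x ∈ univ.filter (fun x : ZMod m => addOrderOf x = c4 p * c4 q),
      ((c4 q : ℕ) : ZMod m) * x ∈ univ.filter (fun z : ZMod m => addOrderOf z = c4 p) := by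
    intro x hx
    rw [Finset.mem_filter] at hx ⊢
    refine ⟨Finset.mem_univ _, ?_⟩
    rw [← nsmul_eq_mul, addOrderOf_nsmul_of_dvd (by omega) (by rw [hx.2]; exact Dvd.intro_left _ rfl), hx.2]
    exact Nat.mul_div_cancel _ (by omega)
  rw [← Finset.sum_fiberwise_of_maps_to h1,
    ← perm (m := m) (c := c4 p) (k := q) (by omega) hqc]
  have h2 : ∀ z ∈ univ.filter (fun z : ZMod m => addOrderOf z = c4 p),
      (∑ x ∈ (univ.filter (fun x : ZMod m => addOrderOf x = c4 p * c4 q)).filter
        (fun x => ((c4 q : ℕ) : ZMod m) * x = (q : ZMod m) * z),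
          (hs (((c4 q : ℕ) : ZMod m) * x) : ℚ) * sz ((g : ZMod m) * x)) =
        (hs ((q : ZMod m) * z) : ℚ) * sz ((g : ZMod m) * ((q : ZMod m) * z)) -
          (hs ((q : ZMod m) * z) : ℚ) * sz ((g : ZMod m) * z) := by
    intro z hz
    rw [Finset.mem_filter] at hz
    have h3 := gDsU m q (c4 p) hq (c4_cop hq hp h.symm) (by rw [mul_comm]; exact hd) ((q : ZMod m) * z) z
      (by rw [ord_mul (by rw [hz.2]; exact hqc), hz.2]) hz.2 rfl g
    rw [← mul_sub, ← h3, Finset.mul_sum, Finset.filter_filter]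
    refine Finset.sum_congr ?_ fun x hx => ?_
    · refine Finset.filter_congr fun x _ => ?_
      rw [mul_comm (c4 q) (c4 p)]
      exact and_comm
    · rw [Finset.mem_filter] at hx
      rw [hx.2.1]
  rw [Finset.sum_congr rfl h2, Finset.sum_sub_distrib,
    perm (m := m) (c := c4 p) (k := q) (by omega) hqc
      (fun y => (hs y : ℚ) * sz ((g : ZMod m) * y)), ← Finset.sum_sub_distrib]
  refine Finset.sum_congr rfl fun z _ => ?_
  ring

end GDaRAux

/-- **DaR.** -/
theorem pDaR : S_DaR := by
  classical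
  intro m _ p q hp hq h hd g
  have hp3 := GDaRAux.c4_three hp
  have hq3 := GDaRAux.c4_three hq
  have hne : c4 p ≠ c4 q := by
    intro h1
    have h2 := GDaRAux.c4_cop hp hq h
    rw [h1, Nat.coprime_self] at h2
    omega
  have hne1 : c4 p ≠ c4 p * c4 q := by nlinarith
  have hne2 : c4 q ≠ c4 p * c4 q := by nlinarith
  have hA := GDaRAux.claim hp hq h hd g
  have hB := GDaRAux.claim hq hp h.symm (by rw [mul_comm]; exact hd) g
  rw [mul_comm (c4 q) (c4 p)] at hB
  have h1 : P (das m p q) (g : ZMod m) =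
      ∑ x, ((if addOrderOf x = c4 p * c4 q then
          (hs (((c4 q : ℕ) : ZMod m) * x) : ℚ) * sz ((g : ZMod m) * x) else 0) -
        (if addOrderOf x = c4 p * c4 q then
          (hs (((c4 p : ℕ) : ZMod m) * x) : ℚ) * sz ((g : ZMod m) * x) else 0) -
        (if addOrderOf x = c4 p then
          ((hs x : ℚ) - (hs ((q : ZMod m) * x) : ℚ)) * sz ((g : ZMod m) * x) else 0) +
        (if addOrderOf x = c4 q then
          ((hs x : ℚ) - (hs ((p : ZMod m) * x) : ℚ)) * sz ((g : ZMod m) * x) else 0)) := by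
    unfold P
    refine Finset.sum_congr rfl fun x _ => ?_
    unfold das
    by_cases h2 : addOrderOf x = c4 p * c4 q
    · rw [if_pos h2, if_pos h2, if_pos h2, if_neg (by rw [h2]; exact hne1.symm),
        if_neg (by rw [h2]; exact hne2.symm)]
      push_cast
      ring
    · rw [if_neg h2, if_neg h2, if_neg h2]
      by_cases h3 : addOrderOf x = c4 p
      · rw [if_pos h3, if_pos h3, if_neg (by rw [h3]; exact hne)]
        push_cast
        ring
      · rw [if_neg h3, if_neg h3]
        by_cases h4 : addOrderOf x = c4 q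
        · rw [if_pos h4, if_pos h4]
          push_cast
          ring
        · rw [if_neg h4, if_neg h4]
          push_cast
          ring
  rw [h1, Finset.sum_add_distrib, Finset.sum_sub_distrib, Finset.sum_sub_distrib, ← Finset.sum_filter,
    ← Finset.sum_filter, ← Finset.sum_filter, ← Finset.sum_filter, hA, hB]
  ring

end Pool.Agent.FO
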