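import Pool.Agent.Lib.MP_640417_ag.GT.SpecK

/-!
# Theorem GT, part K: the difference of two odd classes
-/

set_option autoImplicit false

noncomputable section

namespace Pool.Agent.FO

open Finset Pool.Agent.FC

theorem pDcE (hEn : S_En) : S_DcE := by
  intro d _ hS F1 F2 hF1 hF2 hT1 hT2 hO1 hO2
  have hnd : d.primeFactors.toList.Nodup := Finset.nodup_toList _
  have hmem : ∀ p, p ∈ d.primeFactors.toList ↔ p ∈ d.primeFactors := fun p => Finset.mem_toList
  obtain ⟨hpr, hSq⟩ := (hEn d).2.2 _ hnd hmem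
  obtain ⟨hIv, -⟩ := hSq hS
  have hInd := (pKpBas d).1 _ hnd (fun p hp => (hmem p).1 hp)
  have hT : Tl (Kp d) d.primeFactors.toList (fun u => F1 u - F2 u) = 0 := by
    rw [(gTlBas _ (Kp d) d.primeFactors.toList ⊥ F1 F2).2.1, hT1 _ hmem, hT2 _ hmem]
    funext a
    exact sub_self _
  have hodd : ∀ a, (fun u => F1 u - F2 u) ((d.primeFactors.toList.map (en d)).prod * a) =
      -(fun u => F1 u - F2 u) a := by
    intro a
    rw [hpr]
    change F1 (-1 * a) - F2 (-1 * a) = -(F1 a - F2 a)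
    rw [hF1, hF2]
    ring
  have hpar : ∀ q ∈ d.primeFactors.toList, ∀ a,
      (2 : ℤ) ∣ Cb (en d) (d.primeFactors.toList.erase q) (fun u => F1 u - F2 u) a := by
    intro q hq a
    have h8 := (gCbB _ (en d) (d.primeFactors.toList.erase q) (fun u => F1 u - F2 u)
      F2).2.2.2.2.2.2.2.1 a
    have e1 : (fun u => F1 u - F2 u) = fun u => F1 u + (fun v => (-1 : ℤ) * F2 v) u := by
      funext u
      ring
    have h2 := (gCbB _ (en d) (d.primeFactors.toList.erase q) F1
      (fun v => (-1 : ℤ) * F2 v)).2.1 a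
    have h4 := ((gCbB _ (en d) (d.primeFactors.toList.erase q) F2 F2).2.2.2.1 (-1) a).2
    have e2 : Cs (en d) (d.primeFactors.toList.erase q) (fun u => F1 u - F2 u) a =
        Cs (en d) (d.primeFactors.toList.erase q) F1 a -
          Cs (en d) (d.primeFactors.toList.erase q) F2 a := by
      rw [e1, h2, h4]
      ring
    have o1 := hO1 _ hnd hmem q hq a
    have o2 := hO2 _ hnd hmem q hq a
    rw [e2] at h8
    omega
  obtain ⟨E, hE, hs⟩ := gDecP _ (Kp d) (en d) d.primeFactors.toList hnd hInd hIv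
    (fun u => F1 u - F2 u) hodd hT (Or.inr hpar)
  refine ⟨E, ?_, ?_⟩
  · intro p hp
    obtain ⟨h1, h2⟩ := hE p ((hmem p).2 hp)
    rw [hpr] at h1
    exact ⟨h1, h2⟩
  · intro u
    have := hs u
    rw [Finset.toList_toFinset] at this
    exact this

end Pool.Agent.FO
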