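import Pool.Agent.Lib.MP_640417_ag.GT.SpecK

/-! # Theorem GT, part K: decomposition at one level -/

set_option autoImplicit false

noncomputable section

namespace Pool.Agent.FO

open Finset Pool.Agent.FC

namespace GDcKAux

/-- a level which is not almost squarefree: a common divisor `n ≥ 3` of all `d / p` -/
theorem exN (d : ℕ) (hd4 : d % 4 ≠ 2) (h : ¬ Sqf d) :
    ∃ n, 3 ≤ n ∧ n ∣ d ∧ ∀ p ∈ d.primeFactors, n ∣ d / p := by
  have h1 : ∃ p, p.Prime ∧ p ^ 2 ∣ d ∧ (p ≠ 2 ∨ 8 ∣ d) := by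
    by_contra hc
    refine h ⟨hd4, fun p hp hpd => ?_⟩
    constructor
    · by_contra hp2
      exact hc ⟨p, hp, hpd, Or.inl hp2⟩
    · intro h8
      exact hc ⟨p, hp, hpd, Or.inr h8⟩
  obtain ⟨p, hp, hpd, h2⟩ := h1
  by_cases hp2 : p = 2
  · have h8 : 8 ∣ d := by
      rcases h2 with h2 | h2
      · exact absurd hp2 h2
      · exact h2
    have h4 : 4 ∣ d := (by norm_num : 4 ∣ 8).trans h8
    refine ⟨4, by norm_num, h4, fun q hq => ?_⟩
    have hqp := Nat.prime_of_mem_primeFactors hq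
    have hqd := Nat.dvd_of_mem_primeFactors hq
    refine (Nat.dvd_div_iff_mul_dvd hqd).2 ?_
    by_cases hq2 : q = 2
    · subst hq2
      simpa using h8
    · have hc : Nat.Coprime q 4 := by
        have : Nat.Coprime q 2 := (Nat.coprime_primes hqp Nat.prime_two).2 hq2
        simpa using this.pow_right 2
      exact hc.mul_dvd_of_dvd_of_dvd hqd h4
  · have hp3 : 3 ≤ p := by
      have := hp.two_le
      omega
    have hpd' : p ∣ d := (Dvd.intro_left (p ^ 1) (by ring)).trans hpd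
    refine ⟨p, hp3, hpd', fun q hq => ?_⟩
    have hqp := Nat.prime_of_mem_primeFactors hq
    have hqd := Nat.dvd_of_mem_primeFactors hq
    refine (Nat.dvd_div_iff_mul_dvd hqd).2 ?_
    by_cases hqe : q = p
    · subst hqe
      simpa [pow_two] using hpd
    · exact ((Nat.coprime_primes hqp hp).2 hqe).mul_dvd_of_dvd_of_dvd hqd hpd'

end GDcKAux

/-- **Decomposition at one level.** -/
theorem pDcK (hEn : S_En) : S_DcK := by
  classical
  intro d _ hd24 hd1 F hodd hTl
  have hd4 : d % 4 ≠ 2 := by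
    rcases hd24 with h | h <;> omega
  set l : List ℕ := d.primeFactors.toList with hl
  have hmem : ∀ p, p ∈ l ↔ p ∈ d.primeFactors := fun p => Finset.mem_toList
  have hnd : l.Nodup := Finset.nodup_toList _
  have hfs : l.toFinset = d.primeFactors := Finset.toList_toFinset _
  have hlen : l.length = d.primeFactors.card := Finset.length_toList _
  have hInd : Ind (Kp d) l := (pKpBas d).1 l hnd fun p hp => (hmem p).1 hp
  have hTl0 : Tl (Kp d) l F = 0 := hTl l hmem
  by_cases hS : Sqf d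
  · obtain ⟨hprod, hIvT⟩ := (hEn d).2.2 l hnd hmem
    obtain ⟨hIv, hTop⟩ := hIvT hS
    have hoddt : ∀ a, F ((l.map (en d)).prod * a) = -F a := by
      intro a
      rw [hprod]
      exact hodd a
    have key : (¬ 2 ∣ l.length ∨ ∀ q ∈ l, ∀ a, (2 : ℤ) ∣ Cb (en d) (l.erase q) F a) → ∃ E, Dcm d F E := by
      intro hc
      obtain ⟨E, hE1, hE2⟩ := gDecP _ (Kp d) (en d) l hnd hInd hIv F hoddt hTl0 hc
      refine ⟨E, fun p hp => ?_, fun u => ?_⟩
      · obtain ⟨h1, h2⟩ := hE1 p ((hmem p).2 hp)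
        refine ⟨fun u => ?_, h2⟩
        rw [← h1 u, hprod]
      · rw [hE2 u, hfs]
    rcases (gParC _ (Kp d) (en d) l hnd hInd hIv hTop F hoddt hTl0).2 with hev | hod
    · exact Or.inl (key (Or.inr hev))
    · by_cases h2 : 2 ∣ l.length
      · refine Or.inr ⟨hS, hlen ▸ h2, fun l' hnd' hmem' q hq a => ?_⟩
        have hperm : l.Perm l' := by
          refine (List.perm_ext_iff_of_nodup hnd hnd').2 fun p => ?_
          rw [hmem, hmem']
        have hql : q ∈ l := hperm.mem_iff.2 hq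
        have h3 := ((gCbB _ (en d) (l.erase q) F F).2.2.2.2.2.2.2.2.2.2 (l'.erase q) (hperm.erase q) a).2
        rw [← h3]
        exact hod q hql a
      · exact Or.inl (key (Or.inl h2))
  · obtain ⟨n, hn3, hnd0, hnp⟩ := GDcKAux.exN d hd4 hS
    have hneg : (-1 : (ZMod d)ˣ) ∉ KS (Kp d) l :=
      (pKsNeg d l (fun p hp => (hmem p).1 hp) n hn3 hnd0 fun p hp => hnp p ((hmem p).1 hp)).1
    obtain ⟨E, hE1, hE2⟩ := gDecO _ (Kp d) l hnd hInd (-1) (by simp) hneg F hodd hTl0
    refine Or.inl ⟨E, fun p hp => hE1 p ((hmem p).2 hp), fun u => ?_⟩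
    rw [hE2 u, hfs]

end Pool.Agent.FO
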