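import Pool.Agent.Lib.MP_640417_ag.GT.SpecR
import Mathlib.NumberTheory.LSeries.PrimesInAP

/-!
# Theorem GT, part R, module Dch: auxiliary primes (Dirichlet's theorem)

Author helper27.
-/

set_option autoImplicit false

noncomputable section

open Finset Pool.Agent.FC

namespace Pool.Agent.FO

namespace GDchAux

private theorem c4_odd {q : ℕ} (h : q % 4 = 1) : c4 q = q := by
  unfold c4
  rw [if_neg]
  rintro rfl
  omega

/-- A prime with prescribed residues. -/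
private theorem gen (hS : S_Smg) {q : ℕ} (hq : q.Prime) (h4 : q % 4 = 1) {R : ℕ} (hR : 0 < R)
    (hRq : (4 * q).Coprime R) : ∃ a : ℕ, a.Prime ∧ a % 4 = 3 ∧ ¬ sm q a ∧ (R : ℤ) ∣ (a : ℤ) - 1 := by
  obtain ⟨-, s2, -, -, w, hw, hns⟩ := hS q hq
  have hq0 : 0 < q := hq.pos
  have hqZ : (q : ℤ) ≠ 0 := by exact_mod_cast hq0.ne'
  obtain ⟨w0, hw0⟩ : ∃ w0 : ℕ, (w0 : ℤ) = w % q :=
    ⟨(w % q).toNat, Int.toNat_of_nonneg (Int.emod_nonneg w hqZ)⟩
  have hd0 : (q : ℤ) ∣ (w0 : ℤ) - w := by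
    rw [hw0, ← Int.dvd_neg, neg_sub]
    exact Int.dvd_self_sub_emod
  have hcw : w0.Coprime q := by
    rw [← Nat.isCoprime_iff_coprime]
    obtain ⟨c, hc⟩ := hd0
    have e : (w0 : ℤ) = w + q * c := by linarith
    rw [e]
    exact (IsCoprime.add_mul_left_left_iff).2 hw
  have hq4 : q.Coprime 4 := by
    have h2 : q.Coprime 2 := by
      rw [Nat.coprime_two_right]
      exact ⟨q / 2, by omega⟩
    have h3 : q.Coprime (2 ^ 2) := h2.pow_right 2
    exact h3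
  obtain ⟨k1, a1, a2⟩ := Nat.chineseRemainder hq4 w0 3
  obtain ⟨k, b1, b2⟩ := Nat.chineseRemainder hRq k1 1
  have d1 : k ≡ w0 [MOD q] := (b1.of_dvd (Dvd.intro_left 4 rfl)).trans a1
  have d2 : k ≡ 3 [MOD 4] := (b1.of_dvd (Dvd.intro q rfl)).trans a2
  have e1 : k.Coprime q := by
    unfold Nat.Coprime
    rw [d1.gcd_eq]
    exact hcw
  have e2 : k.Coprime 4 := by
    unfold Nat.Coprime
    rw [d2.gcd_eq]
    norm_num
  have e3 : k.Coprime R := by
    unfold Nat.Coprime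
    rw [b2.gcd_eq, Nat.gcd_one_left]
  have e4 : k.Coprime (4 * q * R) := (e2.mul_right e1).mul_right e3
  have hne : NeZero (4 * q * R) := ⟨(Nat.mul_pos (Nat.mul_pos (by norm_num) hq0) hR).ne'⟩
  have hu : IsUnit ((k : ℕ) : ZMod (4 * q * R)) := (ZMod.isUnit_iff_coprime k _).2 e4
  obtain ⟨a, -, ha, hak⟩ := Nat.forall_exists_prime_gt_and_eq_mod hu 0
  rw [ZMod.natCast_eq_natCast_iff] at hak
  have f1 : a ≡ w0 [MOD q] := (hak.of_dvd ⟨4 * R, by ring⟩).trans d1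
  have f2 : a ≡ 3 [MOD 4] := (hak.of_dvd ⟨q * R, by ring⟩).trans d2
  have f3 : a ≡ 1 [MOD R] := (hak.of_dvd (Dvd.intro_left (4 * q) rfl)).trans b2
  refine ⟨a, ha, ?_, ?_, ?_⟩
  · have h := f2
    unfold Nat.ModEq at h
    exact h
  · intro hsm
    apply hns
    refine (s2 (a : ℤ) w ?_).1 hsm
    rw [c4_odd h4]
    have h := (Nat.modEq_iff_dvd.1 f1.symm)
    have e : (a : ℤ) - w = ((a : ℤ) - w0) + (w0 - w) := by ring
    rw [e]
    exact dvd_add h hd0
  · have h := (Nat.modEq_iff_dvd.1 f3.symm)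
    exact_mod_cast h

end GDchAux

open GDchAux in
theorem pDch (h1 : S_Smg) : S_Dch := by
  intro q hq h4
  refine ⟨?_, ?_⟩
  · obtain ⟨a, a1, a2, a3, -⟩ := gen h1 hq h4 one_pos (Nat.coprime_one_right _)
    exact ⟨a, a1, a2, a3⟩
  · intro r hr hr4 hrq
    have hc : (4 * q).Coprime r := by
      refine Nat.Coprime.mul_left ?_ ((Nat.coprime_primes hq hr).2 hrq.symm)
      have h2 : Nat.Coprime 2 r := by
        rw [Nat.coprime_two_left]
        exact ⟨r / 2, by omega⟩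
      have h3 : Nat.Coprime (2 ^ 2) r := h2.pow_left 2
      exact h3
    obtain ⟨a, a1, a2, a3, a4⟩ := gen h1 hq h4 hr.pos hc
    obtain ⟨-, s2, s3, -⟩ := h1 r hr
    refine ⟨a, a1, a2, a3, (s2 (a : ℤ) 1 ?_).2 s3⟩
    rw [c4_odd hr4]
    exact a4

end Pool.Agent.FO
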