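import Pool.Agent.Lib.MP_640417_ag.GT.SpecI

/-!
# Theorem GT, part I: decomposition in invariant functions
-/

set_option autoImplicit false

noncomputable section

namespace Pool.Agent.FO

open Finset Pool.Agent.FC

theorem pDecN (hBsS : S_BsS) (hRelB : S_RelB) : S_DecN := by
  intro G _ _ K l
  induction l with
  | nil =>
    intro _ _ F hF
    refine ⟨fun _ _ => 0, fun i hi => absurd hi (List.not_mem_nil), ?_⟩
    intro a
    have h : F = 0 := hF
    rw [h]
    simp
  | cons i l ih =>
    intro hnd hI F hF
    obtain ⟨hil, hnd'⟩ := List.nodup_cons.1 hnd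
    obtain ⟨hdis, hI'⟩ := hI
    obtain ⟨β, hβ, hβk, hβy⟩ := hBsS G (K i) (KS K l) hdis
    have h2 := (hRelB G K i l F).2.1 β hβ hβy hF
    obtain ⟨E, hE, hsum⟩ := ih hnd' hI' _ h2
    refine ⟨fun j a => if j = i then F (β a * a) else -E j a, ?_, ?_⟩
    · intro j hj k hk a
      by_cases h : j = i
      · subst h
        have e : β (k * a) * (k * a) = β a * a := by
          rw [← mul_assoc, hβk k hk a]
        simp only [if_true, e]
      · have hj' : j ∈ l := (List.mem_cons.1 hj).resolve_left h
        simp only [h, if_false, hE j hj' k hk a]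
    · intro a
      have hi' : i ∉ l.toFinset := fun h => hil (List.mem_toFinset.1 h)
      rw [List.toFinset_cons, Finset.sum_insert hi']
      have e : ∑ j ∈ l.toFinset, (if j = i then F (β a * a) else -E j a) =
          -∑ j ∈ l.toFinset, E j a := by
        rw [← Finset.sum_neg_distrib]
        refine Finset.sum_congr rfl fun j hj => ?_
        have hne : j ≠ i := fun h => hi' (h ▸ hj)
        rw [if_neg hne]
      have e2 : F (β a * a) - F a = ∑ j ∈ l.toFinset, E j a := hsum a
      rw [e]
      change F a = (if i = i then F (β a * a) else -E i a) + -∑ j ∈ l.toFinset, E j a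
      rw [if_pos rfl]
      linarith

end Pool.Agent.FO
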