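import Pool.Agent.Lib.MP_640417_ag.GT.SpecI

/-!
# Theorem GT, module DecO: odd decomposition, element outside of the product
-/

set_option autoImplicit false

noncomputable section

namespace Pool.Agent.FO

open Finset Pool.Agent.FC

namespace GDecOAux

theorem le_KS {G : Type} [Group G] (K : ℕ → Subgroup G) (l : List ℕ) :
    ∀ i ∈ l, K i ≤ KS K l := by
  induction l with
  | nil => exact fun i hi => absurd hi List.not_mem_nil
  | cons j l ih =>
    intro i hi
    rcases List.mem_cons.1 hi with rfl | hi
    · exact le_sup_left
    · exact (ih i hi).trans le_sup_right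

end GDecOAux

theorem pDecO (hHfS : S_HfS) (hDecN : S_DecN) : S_DecO := by
  intro G _ _ K l hl hI ε hε hεK F hF hT
  obtain ⟨E, hE, hs⟩ := hDecN G K l hl hI F hT
  obtain ⟨h, h1, h2⟩ := hHfS G (KS K l) ε hε hεK
  have hεε : ∀ a : G, ε * (ε * a) = a := fun a => by rw [← mul_assoc, hε, one_mul]
  refine ⟨fun i a => if h a = true then E i a else -E i (ε * a), ?_, ?_⟩
  · intro i hi
    refine ⟨?_, ?_⟩
    · intro a
      change (if h (ε * a) = true then E i (ε * a) else -E i (ε * (ε * a))) =
        -(if h a = true then E i a else -E i (ε * a))
      rw [h2, hεε]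
      cases h a with
      | false => simp
      | true => simp
    · intro k hk a
      change (if h (k * a) = true then E i (k * a) else -E i (ε * (k * a))) =
        if h a = true then E i a else -E i (ε * a)
      rw [h1 k (GDecOAux.le_KS K l i hi hk), hE i hi k hk, mul_left_comm, hE i hi k hk]
  · intro a
    change F a = ∑ i ∈ l.toFinset, if h a = true then E i a else -E i (ε * a)
    by_cases ha : h a = true
    · simp only [if_pos ha]
      exact hs a
    · simp only [if_neg ha, Finset.sum_neg_distrib]
      rw [← hs (ε * a), hF, neg_neg]

end Pool.Agent.FO
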