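import Pool.Agent.Lib.MP_640417_ag.GT.SpecI

/-!
# Theorem GT, part I, module DecP: odd decomposition, the element is the product of the involutions
-/

set_option autoImplicit false

noncomputable section

namespace Pool.Agent.FO

open Finset Pool.Agent.FC

private lemma decP_iv {G : Type} [CommGroup G] {K : ℕ → Subgroup G} {e : ℕ → G} {i : ℕ}
    {l : List ℕ} (h : Iv K e (i :: l)) : Iv K e l :=
  fun j hj => h j (List.mem_cons_of_mem _ hj)

private lemma decP_prod {G : Type} [CommGroup G] {K : ℕ → Subgroup G} {e : ℕ → G} {l : List ℕ}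
    (h : Iv K e l) : (l.map e).prod ∈ KS K l ∧ (l.map e).prod * (l.map e).prod = 1 := by
  induction l with
  | nil => exact ⟨one_mem _, by simp⟩
  | cons i l ih =>
    obtain ⟨h1, h2⟩ := ih (decP_iv h)
    obtain ⟨h3, -, h4⟩ := h i List.mem_cons_self
    rw [List.map_cons, List.prod_cons]
    refine ⟨mul_mem (Subgroup.mem_sup_left h3) (Subgroup.mem_sup_right h1), ?_⟩
    rw [mul_mul_mul_comm, h4, h2, one_mul]

private lemma decP_loc {G : Type} [CommGroup G] {K : ℕ → Subgroup G} {e : ℕ → G} {l : List ℕ}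
    (h : Iv K e l) (F F' : G → ℤ) (a : G) (hF : ∀ y ∈ KS K l, F (y * a) = F' (y * a)) :
    Cb e l F a = Cb e l F' a := by
  induction l generalizing a with
  | nil =>
    have := hF 1 (one_mem _)
    rwa [one_mul] at this
  | cons i l ih =>
    obtain ⟨h3, -, -⟩ := h i List.mem_cons_self
    change Cb e l F a + Cb e l F (e i * a) = Cb e l F' a + Cb e l F' (e i * a)
    rw [ih (decP_iv h) a (fun y hy => hF y (Subgroup.mem_sup_right hy)),
      ih (decP_iv h) (e i * a) (fun y hy => by
        rw [← mul_assoc]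
        exact hF _ (mul_mem (Subgroup.mem_sup_right hy) (Subgroup.mem_sup_left h3)))]

private lemma decP_inv {G : Type} [CommGroup G] {e : ℕ → G} {l : List ℕ} (C : G → ℤ)
    (h : ∀ j ∈ l, ∀ a, C (e j * a) = C a) (a : G) : C ((l.map e).prod * a) = C a := by
  induction l with
  | nil => rw [List.map_nil, List.prod_nil, one_mul]
  | cons i l ih =>
    rw [List.map_cons, List.prod_cons, mul_assoc, h i List.mem_cons_self,
      ih (fun j hj => h j (List.mem_cons_of_mem _ hj))]

private lemma decP_C (hCbB : S_CbB) {G : Type} [CommGroup G] {K : ℕ → Subgroup G} {e : ℕ → G}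
    {i j : ℕ} {l : List ℕ} (h : Iv K e (i :: j :: l)) (F : G → ℤ)
    (hF : ∀ a, F (((i :: j :: l).map e).prod * a) = -F a) (x : G) :
    Cb e l F (e i * x) = -Cb e l F (e j * x) := by
  obtain ⟨-, -, h3, h4, h5, -⟩ := hCbB G e l F F
  have hj := (h j (List.mem_cons_of_mem _ List.mem_cons_self)).2.2
  have h1 : ∀ y, Cb e l F (((i :: j :: l).map e).prod * y) = -Cb e l F y := by
    intro y
    rw [← (h3 _ y).1, show (fun x => F (((i :: j :: l).map e).prod * x)) = fun x => (-1) * F x from
      funext fun z => by rw [hF]; ring, (h4 (-1) y).1]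
    ring
  rw [← h1, List.map_cons, List.map_cons, List.prod_cons, List.prod_cons]
  have h2 : e i * (e j * (l.map e).prod) * (e j * x) = (l.map e).prod * (e i * x) := by
    calc e i * (e j * (l.map e).prod) * (e j * x)
        = (e j * e j) * ((l.map e).prod * (e i * x)) := by
          simp only [mul_assoc, mul_comm, mul_left_comm]
      _ = (l.map e).prod * (e i * x) := by rw [hj, one_mul]
  rw [h2]
  exact (decP_inv (Cb e l F) (fun k hk => h5 k hk
    (h k (List.mem_cons_of_mem _ (List.mem_cons_of_mem _ hk))).2.2) _).symm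

theorem pDecP (hBsS : S_BsS) (hRelB : S_RelB) (hCbB : S_CbB) (hDecO : S_DecO) (hOb : S_Ob) :
    S_DecP := by
  classical
  intro G _ _ K e l hnd hInd hIv F hF hTl hpar
  rcases l with _ | ⟨i, l⟩
  · refine ⟨fun _ _ => 0, fun i hi => by simp at hi, fun a => ?_⟩
    exact congrFun hTl a
  obtain ⟨hdis, hInd'⟩ := hInd
  have hIv' : Iv K e l := decP_iv hIv
  obtain ⟨hi1, hi2, hi3⟩ := hIv i List.mem_cons_self
  obtain ⟨hil, hnd'⟩ := List.nodup_cons.1 hnd
  obtain ⟨hτm, hτ2⟩ := decP_prod hIv'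
  obtain ⟨-, hττ⟩ := decP_prod hIv
  set τ' : G := (l.map e).prod with hτ'
  have hτ : ((i :: l).map e).prod = e i * τ' := by rw [List.map_cons, List.prod_cons]
  rw [hτ] at hF hττ ⊢
  have hτn : e i * τ' ∉ KS K l := by
    intro h
    have h1 : e i ∈ KS K l := by
      have h2 := mul_mem h hτm
      rwa [mul_assoc, hτ2, mul_one] at h2
    exact hi2 (Subgroup.disjoint_def.1 hdis hi1 h1)
  obtain ⟨β, hβ1, hβ2, hβ3⟩ := hBsS G (K i) (KS K l) hdis
  obtain ⟨-, hR2, -, -, -, hR6⟩ := hRelB G K i l F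
  -- the functions
  set F1 : G → ℤ := fun a => F (β a * a) with hF1
  have hF1i : ∀ k ∈ K i, ∀ a, F1 (k * a) = F1 a := by
    intro k hk a
    change F (β (k * a) * (k * a)) = F (β a * a)
    rw [← mul_assoc, hβ2 k hk]
  have hF1t : ∀ a, F1 (τ' * a) = -F (e i * β a * a) := by
    intro a
    change F (β (τ' * a) * (τ' * a)) = _
    rw [hβ3 τ' hτm, ← hF]
    congr 1
    calc β a * (τ' * a) = (e i * e i) * (τ' * (β a * a)) := by
          rw [hi3, one_mul, mul_left_comm]
      _ = e i * τ' * (e i * β a * a) := by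
          simp only [mul_assoc, mul_comm, mul_left_comm]
  have hτinv : ∀ a, τ' * (τ' * a) = a := fun a => by rw [← mul_assoc, hτ2, one_mul]
  set D : G → ℤ := fun a => F (β a * a) - F (e i * β a * a) with hD
  have hD1 : ∀ a, D a = F1 (τ' * a) + F1 a := by
    intro a
    rw [hF1t]
    change F (β a * a) - F (e i * β a * a) = -F (e i * β a * a) + F (β a * a)
    ring
  have hDi : ∀ k ∈ K i, ∀ a, D (k * a) = D a := by
    intro k hk a
    rw [hD1, hD1, mul_left_comm, hF1i k hk, hF1i k hk]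
  have hDT : Tl K l D = 0 := by
    refine hR6 β (fun a => e i * β a) hβ1 (fun a => mul_mem hi1 (hβ1 a)) hβ3 ?_ hTl
    intro y hy a
    rw [hβ3 y hy]
  have hDτ : ∀ a, D (τ' * a) = 1 * D a := by
    intro a
    rw [hD1, hD1, hτinv]
    ring
  have hpar' : (1 : ℤ) = (-1) ^ (l.length + 1) → ∀ a, (2 : ℤ) ∣ Cb e l.tail D a := by
    intro h1 a
    have hodd : Even (l.length + 1) := by
      by_contra h2
      rw [Nat.not_even_iff_odd] at h2
      rw [h2.neg_one_pow] at h1
      norm_num at h1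
    have hq : ∀ a, (2 : ℤ) ∣ Cb e l F a := by
      rcases hpar with h2 | h2
      · exfalso
        apply h2
        rw [List.length_cons]
        exact hodd.two_dvd
      · have h3 := h2 i List.mem_cons_self
        rwa [List.erase_cons_head] at h3
    rcases l with _ | ⟨j, l⟩
    · simp at hodd
    change (2 : ℤ) ∣ Cb e l D a
    have hloc : Cb e l D a =
        Cb e l (fun x => F (β a * x) + (-1) * F (e i * β a * x)) a := by
      apply decP_loc (decP_iv hIv')
      intro y hy
      change F (β (y * a) * (y * a)) - F (e i * β (y * a) * (y * a)) = _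
      rw [hβ3 y (Subgroup.mem_sup_right hy)]
      ring
    obtain ⟨c1, -, c3, c4, -⟩ := hCbB G e l (fun x => F (β a * x))
      (fun x => (-1) * F (e i * β a * x))
    obtain ⟨-, -, -, c4', -⟩ := hCbB G e l (fun x => F (e i * β a * x)) F
    obtain ⟨-, -, c3', -⟩ := hCbB G e l F F
    rw [hloc, c1, (c4' (-1) a).1, (c3' (β a) a).1, (c3' (e i * β a) a).1, mul_assoc,
      decP_C hCbB hIv F (by rw [hτ]; exact hF)]
    have h4 := hq (β a * a)
    change (2 : ℤ) ∣ Cb e l F (β a * a) + Cb e l F (e j * (β a * a)) at h4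
    have h5 : Cb e l F (β a * a) + -1 * -Cb e l F (e j * (β a * a)) =
        Cb e l F (β a * a) + Cb e l F (e j * (β a * a)) := by ring
    rw [h5]
    exact h4
  obtain ⟨ρ, hρT, hρ⟩ := hOb G K e l hInd' hIv' 1 (Or.inl rfl) D hDT hDτ hpar'
  set ρ1 : G → ℤ := fun a => ρ (β a * a) with hρ1
  have hρ1T : Tl K l ρ1 = 0 := (hRelB G K i l ρ).1 β hβ3 hρT
  have hρ1i : ∀ k ∈ K i, ∀ a, ρ1 (k * a) = ρ1 a := by
    intro k hk a
    change ρ (β (k * a) * (k * a)) = ρ (β a * a)
    rw [← mul_assoc, hβ2 k hk]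
  have hDρ : ∀ a, D a = ρ1 a + ρ1 (τ' * a) := by
    intro a
    rw [← hDi (β a) (hβ1 a) a, hρ, one_mul]
    change _ = ρ (β a * a) + ρ (β (τ' * a) * (τ' * a))
    rw [hβ3 τ' hτm, mul_left_comm (β a)]
  set Ei : G → ℤ := fun a => F1 a - ρ1 a with hEi
  have hEii : ∀ k ∈ K i, ∀ a, Ei (k * a) = Ei a := by
    intro k hk a
    change F1 (k * a) - ρ1 (k * a) = F1 a - ρ1 a
    rw [hF1i k hk, hρ1i k hk]
  have hEiτ : ∀ a, Ei (e i * τ' * a) = -Ei a := by
    intro a
    rw [mul_assoc, hEii (e i) hi1]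
    change F1 (τ' * a) - ρ1 (τ' * a) = -(F1 a - ρ1 a)
    have h1 := hD1 a
    have h2 := hDρ a
    linarith
  have hT2 : Tl K l (fun a => F a - Ei a) = 0 := by
    have h1 : (fun a => F a - Ei a) = fun a => ρ1 a - (F (β a * a) - F a) := by
      funext a
      change F a - (F (β a * a) - ρ1 a) = _
      ring
    rw [h1, (gTlBas G K l ⊥ ρ1 (fun a => F (β a * a) - F a)).2.1, hρ1T,
      hR2 β hβ1 hβ3 hTl]
    funext a
    exact sub_zero 0
  obtain ⟨E', hE', hsum⟩ := hDecO G K l hnd' hInd' (e i * τ') hττ hτn (fun a => F a - Ei a)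
    (fun a => by
      change F (e i * τ' * a) - Ei (e i * τ' * a) = -(F a - Ei a)
      rw [hF, hEiτ]
      ring) hT2
  refine ⟨fun j => if j = i then Ei else E' j, ?_, ?_⟩
  · intro j hj
    rcases List.mem_cons.1 hj with rfl | hj'
    · simp only [if_true]
      exact ⟨hEiτ, hEii⟩
    · have hne : j ≠ i := fun h => hil (h ▸ hj')
      simp only [if_neg hne]
      exact hE' j hj'
  · intro a
    rw [List.toFinset_cons, Finset.sum_insert (by rwa [List.mem_toFinset])]
    simp only [if_true]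
    have h1 : ∑ x ∈ l.toFinset, (if x = i then Ei else E' x) a = ∑ x ∈ l.toFinset, E' x a := by
      refine Finset.sum_congr rfl fun x hx => ?_
      have hne : x ≠ i := fun h => hil (h ▸ (List.mem_toFinset.1 hx))
      rw [if_neg hne]
    rw [h1, ← hsum a]
    ring

end Pool.Agent.FO
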