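import Pool.Agent.Lib.MP_640417_ag.GT.Defs0

/-!
# Theorem GT: numbers and conditions used in the proof
-/

set_option autoImplicit false

noncomputable section

namespace Pool.Agent.FO

open Finset Pool.Agent.FC

/-- the thirteen pairs of primes -/
def pl : List (Finset ℕ) := [{2, 3}, {3, 5}, {2, 5}, {3, 7}, {2, 7}, {3, 11}, {5, 7}, {3, 13}, {2, 11}, {3, 17}, {2, 13},
  {3, 19}, {2, 17}]

/-- the numbers `1, 2, 6, 26, 150, …`: `nb k = 1 + ∑_{j < k} C(k, j) nb j` -/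
def nb (k : ℕ) : ℕ := 1 + ∑ j : Fin k, k.choose j.1 * nb j.1
decreasing_by exact j.2

theorem nb_eq (k : ℕ) : nb k = 1 + ∑ j ∈ range k, k.choose j * nb j := by
  rw [nb]
  congr 1
  exact (Finset.sum_range (fun j => k.choose j * nb j)).symm

/-- `nc 0 l = 1` for `l = 0` and `0` otherwise, `nc (k + 1) l = 2 ∑_j C(l, j) nb j nc k (l - j)` -/
def nc : ℕ → ℕ → ℕ
  | 0, l => if l = 0 then 1 else 0
  | k + 1, l => 2 * ∑ j ∈ range (l + 1), l.choose j * nb j * nc k (l - j)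

/-- `p - 1`, and `2` for `p = 2` -/
def kap (p : ℕ) : ℕ := if p = 2 then 2 else p - 1

/-- the product of the `kap p` -/
def kp (S : Finset ℕ) : ℕ := ∏ p ∈ S, kap p

/-- the numerical condition for the set `T`: `2 N nc(|T| - 1, |L|) < ∏_{p ∈ T ∪ L} kap p` for all sets `L` of other primes of `m`
(`2 ∈ L` only if `4 ∣ m`), and, if `m` is even and `2 ∉ T`, `4 N nc(|T| - 1, |L|) < ∏_{p ∈ T ∪ L} kap p` for all sets `L` of other odd primes
of `m` -/
def Crt (m N : ℕ) (T : Finset ℕ) : Prop :=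
  (∀ L ⊆ m.primeFactors, Disjoint T L → (2 ∈ L → 4 ∣ m) → 2 * N * nc (T.card - 1) L.card < kp (T ∪ L)) ∧
  (2 ∣ m → 2 ∉ T → ∀ L ⊆ m.primeFactors.erase 2, Disjoint T L → 4 * N * nc (T.card - 1) L.card < kp (T ∪ L))

/-- the nonempty sets of primes of `m` with an even number of elements, without `2` if `4 ∤ m` -/
def Ess (m : ℕ) (T : Finset ℕ) : Prop := T ⊆ m.primeFactors ∧ (2 ∈ T → 4 ∣ m) ∧ T.Nonempty ∧ 2 ∣ T.card

/-- at most one prime, or the primes are in one of the eight sets (all pairs in these sets are in `pl`) -/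
def Dg (m : ℕ) : Prop :=
  (Pool.Agent.FT.red m).primeFactors.card ≤ 1 ∨
    ∃ S ∈ ([{2, 3, 5}, {2, 3, 7}, {2, 3, 11}, {2, 3, 13}, {2, 3, 17}, {2, 5, 7}, {3, 5, 7}, {3, 19}] : List (Finset ℕ)),
      (Pool.Agent.FT.red m).primeFactors ⊆ S

end Pool.Agent.FO
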