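import Pool.Agent.Lib.MP_640417_ag.FT.Defs

/-!
# Tate characters of Fermat varieties: definitions for the theorem on degrees and dimensions
-/

set_option autoImplicit false

noncomputable section

namespace Pool.Agent.FO

open Finset Pool.Agent.FC

/-- thirteen tuples of residues: `(M, [k_1, k_2, …])` is the tuple `k_1, k_2, …` mod `M` -/
def tp : List (ℕ × List ℕ) :=
  [(12, [1, 4, 9, 10]), (15, [1, 6, 10, 13]), (20, [1, 4, 17, 18]), (21, [1, 4, 18, 19]),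
   (28, [1, 9, 21, 25]), (33, [1, 4, 16, 22, 25, 31]), (35, [1, 1, 17, 21, 30, 34, 31, 22, 16, 2]),
   (39, [1, 16, 22, 7, 34, 37]), (44, [1, 6, 22, 26, 33, 41, 37, 28, 17, 9]),
   (51, [5, 6, 8, 14, 17, 23, 27, 32, 35, 44, 47, 48]), (52, [4, 6, 15, 19, 23, 43, 47, 51]),
   (57, [7, 10, 15, 16, 25, 34, 37, 40, 49, 52]), (68, [1, 5, 9, 21, 24, 37, 41, 45, 52, 53, 58, 62])]

/-- the group generated by `HD` and the sums `∑ [t k_i / M]` for the thirteen tuples `(M, [k_1, k_2, …])` and all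
`t` prime to `M` -/
def G13 : AddSubgroup (UnitAddCircle →₀ ℤ) :=
  HD ⊔ AddSubgroup.closure {f | ∃ (q : ℕ × List ℕ) (t : ℕ), q ∈ tp ∧ t.Coprime q.1 ∧
    f = (q.2.map fun k => Finsupp.single (Pool.Agent.FT.pt q.1 (t * k)) (1 : ℤ)).sum}

/-- the group generated by `G13` and the sums `∑ [t k / 110]`, `k = 1, 24, 62, 71, 81, 91`, `t` prime to `110` -/
def G14 : AddSubgroup (UnitAddCircle →₀ ℤ) :=
  G13 ⊔ AddSubgroup.closure {f | ∃ t : ℕ, t.Coprime 110 ∧
    f = (([1, 24, 62, 71, 81, 91] : List ℕ).map fun k => Finsupp.single (Pool.Agent.FT.pt 110 (t * k)) (1 : ℤ)).sum}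

/-- `(p - 1) / 2`, and `1` for `p = 2` -/
def hf (p : ℕ) : ℕ := if p = 2 then 1 else (p - 1) / 2

/-- the condition on the pairs of primes `p < q` of `m` (`p = 2` only if `4 ∣ m`): the pair is in the list `L` or `N < hf p * hf q`, and
`2 * N < hf p * hf q` if `m` is even and `p` is odd -/
def PairCond (m N : ℕ) (L : List (ℕ × ℕ)) : Prop :=
  ∀ p q : ℕ, p.Prime → q.Prime → p ∣ m → q ∣ m → p < q → (p = 2 → 4 ∣ m) →
    (p, q) ∈ L ∨ (N < hf p * hf q ∧ (2 ∣ m → p ≠ 2 → 2 * N < hf p * hf q))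

/-- the thirteen pairs of primes -/
def pq : List (ℕ × ℕ) := [(2, 3), (2, 5), (2, 7), (2, 11), (2, 13), (2, 17), (3, 5), (3, 7), (3, 11), (3, 13), (3, 17), (3, 19),
  (5, 7)]

end Pool.Agent.FO
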