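import Pool.Agent.Lib.MP_640417_ag.GT.DefsQ

/-!
# Tate characters of Fermat varieties: a class for every prime `1` modulo `4`
-/

set_option autoImplicit false

noncomputable section

namespace Pool.Agent.FO

open Finset Pool.Agent.FC

/-- `{k / M} < 1/2` -/
def lo (M k : ℕ) : Prop := 2 * (k % M) < M

instance (M k : ℕ) : Decidable (lo M k) := inferInstanceAs (Decidable (2 * (k % M) < M))

/-- Let `P = 4` if `p = 2` and `P = p` otherwise. The residues `k` modulo `P q` such that for `x = k / (P q)`: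
`x` has order `P q` and `{q x} < 1/2 < {P x}`, or `x` has order `P` and `{q x} < 1/2 < {x}`, or `x` has order `q` and
`{x} < 1/2 < {p x}`. -/
def dset (P p q : ℕ) : Finset ℕ :=
  (range (P * q)).filter fun k =>
    (k.gcd (P * q) = 1 ∧ lo (P * q) (q * k) ∧ ¬ lo (P * q) (P * k)) ∨
    (k.gcd (P * q) = q ∧ lo (P * q) (q * k) ∧ ¬ lo (P * q) k) ∨
    (k.gcd (P * q) = P ∧ lo (P * q) k ∧ ¬ lo (P * q) (p * k))

/-- the sum `∑ [k / (P q)]` over `k ∈ dset P p q` -/
def dsum (P p q : ℕ) : UnitAddCircle →₀ ℤ :=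
  ∑ k ∈ dset P p q, Finsupp.single (Pool.Agent.FT.pt (P * q) k) (1 : ℤ)

/-- the group generated by `GS` and the sums `dsum P p q` for all primes `q = 1` modulo `4` and `p = 2` or `3` modulo `4` such
that `p` is not a square modulo `q` (`P = 4` if `p = 2`, and `P = p` otherwise) -/
def GC : AddSubgroup (UnitAddCircle →₀ ℤ) :=
  GS ⊔ AddSubgroup.closure {f | ∃ p q : ℕ, p.Prime ∧ q.Prime ∧ (p = 2 ∨ p % 4 = 3) ∧ q % 4 = 1 ∧ ¬ IsSquare ((p : ℕ) : ZMod q) ∧
    f = dsum (if p = 2 then 4 else p) p q}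

end Pool.Agent.FO
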