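import Pool.Agent.Lib.MP_640417_ag.GT.DefsQ

/-!
# Tate characters of Fermat varieties: the conditions on the primes
-/

set_option autoImplicit false

noncomputable section

namespace Pool.Agent.FO

open Finset Pool.Agent.FC

/-- the primes `2`, `3` modulo `4`, and `5`, `13`, `17` -/
def K4 (p : ℕ) : Prop := p = 2 ∨ p % 4 = 3 ∨ p = 5 ∨ p = 13 ∨ p = 17

/-- pairs of primes: both in `K4`, or one of them is `1` modulo `4` and the other one is a square modulo it -/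
def Ex (p q : ℕ) : Prop :=
  (K4 p ∧ K4 q) ∨ (q % 4 = 1 ∧ IsSquare ((p : ℕ) : ZMod q)) ∨ (p % 4 = 1 ∧ IsSquare ((q : ℕ) : ZMod p))

/-- the condition on the pairs of primes `p < q` of `m` (`p = 2` only if `4 ∣ m`): `Ex p q`, or `N < hf p * hf q`, and
`2 * N < hf p * hf q` if `m` is even and `p` is odd -/
def PairF (m N : ℕ) : Prop :=
  ∀ p q : ℕ, p.Prime → q.Prime → p ∣ m → q ∣ m → p < q → (p = 2 → 4 ∣ m) →
    Ex p q ∨ (N < hf p * hf q ∧ (2 ∣ m → p ≠ 2 → 2 * N < hf p * hf q))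

/-- the condition on the sets `T` of four primes of `m` (`2 ∈ T` only if `4 ∣ m`): the primes are `2` or `3` modulo `4`, or
`N < ∏ hf p`, and `2 * N < ∏ hf p` if `m` is even and `2 ∉ T` -/
def QuadF (m N : ℕ) : Prop :=
  ∀ T ⊆ m.primeFactors, T.card = 4 → (2 ∈ T → 4 ∣ m) →
    (∀ p ∈ T, p = 2 ∨ p % 4 = 3) ∨ (N < ∏ p ∈ T, hf p ∧ (2 ∣ m → 2 ∉ T → 2 * N < ∏ p ∈ T, hf p))

end Pool.Agent.FO
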