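import Pool.Agent.Lib.MP_640417_ag.GT.Defs0

/-!
# Tate characters of Fermat varieties: sums over squares
-/

set_option autoImplicit false

noncomputable section

namespace Pool.Agent.FO

open Finset Pool.Agent.FC

/-- the sum `∑ [k / d]` over the squares `k` in the group of units modulo `d` -/
def sqs (d : ℕ) : UnitAddCircle →₀ ℤ := by
  classical
  exact ∑ k ∈ (range d).filter (fun k => k.Coprime d ∧ IsSquare ((k : ℕ) : ZMod d)),
    Finsupp.single (Pool.Agent.FT.pt d k) (1 : ℤ)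

/-- the levels `d > 1` with `d = e` or `d = 4 e`, `e` odd and squarefree -/
def Lev (d : ℕ) : Prop := 1 < d ∧ ∃ e : ℕ, Squarefree e ∧ ¬ 2 ∣ e ∧ (d = e ∨ d = 4 * e)

/-- the group generated by `HD` and the sums `sqs d`, `Lev d` -/
def GS : AddSubgroup (UnitAddCircle →₀ ℤ) := HD ⊔ AddSubgroup.closure {f | ∃ d : ℕ, Lev d ∧ f = sqs d}

/-- eight tuples of residues: `(M, [k_1, k_2, …])` is the tuple `k_1, k_2, …` mod `M` -/
def tp8 : List (ℕ × List ℕ) :=
  [(15, [1, 6, 10, 13]), (20, [1, 4, 17, 18]), (35, [1, 1, 17, 21, 30, 34, 31, 22, 16, 2]),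
   (39, [1, 16, 22, 7, 34, 37]), (51, [5, 6, 8, 14, 17, 23, 27, 32, 35, 44, 47, 48]), (52, [4, 6, 15, 19, 23, 43, 47, 51]),
   (68, [1, 5, 9, 21, 24, 37, 41, 45, 52, 53, 58, 62]), (110, [1, 24, 62, 71, 81, 91])]

/-- the group generated by `GS` and the sums `∑ [t k_i / M]` for the eight tuples `(M, [k_1, k_2, …])` and all `t` prime to `M` -/
def GF : AddSubgroup (UnitAddCircle →₀ ℤ) :=
  GS ⊔ AddSubgroup.closure {f | ∃ (q : ℕ × List ℕ) (t : ℕ), q ∈ tp8 ∧ t.Coprime q.1 ∧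
    f = (q.2.map fun k => Finsupp.single (Pool.Agent.FT.pt q.1 (t * k)) (1 : ℤ)).sum}

/-- the eight pairs of primes -/
def l8 : List (ℕ × ℕ) := [(2, 5), (2, 13), (2, 17), (3, 5), (3, 13), (3, 17), (5, 7), (5, 11)]

/-- the condition on the pairs of primes `p < q` of `m` (`p = 2` only if `4 ∣ m`): the pair is in the list `L`, or the primes are `2`
or `3` modulo `4`, or `N < hf p * hf q`, and `2 * N < hf p * hf q` if `m` is even and `p` is odd -/
def PairQ (m N : ℕ) (L : List (ℕ × ℕ)) : Prop :=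
  ∀ p q : ℕ, p.Prime → q.Prime → p ∣ m → q ∣ m → p < q → (p = 2 → 4 ∣ m) →
    (p, q) ∈ L ∨ ((p = 2 ∨ p % 4 = 3) ∧ q % 4 = 3) ∨ (N < hf p * hf q ∧ (2 ∣ m → p ≠ 2 → 2 * N < hf p * hf q))

end Pool.Agent.FO
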