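import Pool.Agent.Lib.MP_640417_ag.GT.DefsF

/-!
# Tate characters of Fermat varieties: the group with three tuples
-/

set_option autoImplicit false

noncomputable section

namespace Pool.Agent.FO

open Finset Pool.Agent.FC

/-- three tuples of residues: `(M, [k_1, k_2, …])` is the tuple `k_1, k_2, …` mod `M` -/
def tp3 : List (ℕ × List ℕ) :=
  [(20, [1, 4, 17, 18]), (51, [5, 6, 8, 14, 17, 23, 27, 32, 35, 44, 47, 48]), (52, [4, 6, 15, 19, 23, 43, 47, 51])]

/-- the group generated by `GS` and the sums `∑ [t k_i / M]` for the three tuples `(M, [k_1, k_2, …])` and all `t` prime to `M` -/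
def GF3 : AddSubgroup (UnitAddCircle →₀ ℤ) :=
  GS ⊔ AddSubgroup.closure {f | ∃ (q : ℕ × List ℕ) (t : ℕ), q ∈ tp3 ∧ t.Coprime q.1 ∧
    f = (q.2.map fun k => Finsupp.single (Pool.Agent.FT.pt q.1 (t * k)) (1 : ℤ)).sum}

end Pool.Agent.FO
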