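import Pool.Agent.Lib.MP_640417_ag.GT.SpecQ

/-!
# Theorem QR, module DsU: distribution over the elements of maximal order
-/

set_option autoImplicit false

noncomputable section

open Finset Pool.Agent.FC

namespace Pool.Agent.FO

namespace GDsUAux

/-- The distribution relation for a unit `g` and an element `y` of order prime to `c`. -/
theorem dist {m c : ℕ} [NeZero m] (hc : c ∣ m) {y : ZMod m} (hy : c.Coprime (addOrderOf y)) (g : (ZMod m)ˣ) :
    ∑ x ∈ univ.filter (fun x : ZMod m => (c : ZMod m) * x = y), sz ((g : ZMod m) * x) =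
      sz ((g : ZMod m) * y) := by
  have hg : (((g : ZMod m).val : ℕ) : ZMod m) = (g : ZMod m) := ZMod.natCast_zmod_val _
  have hcop : ((g : ZMod m).val).Coprime c := (ZMod.val_coe_unit_coprime g).coprime_dvd_right hc
  obtain ⟨u, v, huv⟩ : IsCoprime (c : ℤ) (addOrderOf y : ℤ) := Nat.isCoprime_iff_coprime.2 hy
  have h1 : (c : ZMod m) * (((u : ℤ) : ZMod m) * y) = y := by
    have h2 : ((addOrderOf y : ℕ) : ZMod m) * y = 0 := by
      rw [← nsmul_eq_mul]
      exact addOrderOf_nsmul_eq_zero y
    have h3 := congrArg (fun k : ℤ => (k : ZMod m) * y) huv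
    simp only [Int.cast_add, Int.cast_mul, Int.cast_natCast, Int.cast_one, one_mul] at h3
    linear_combination h3 - (v : ZMod m) * h2
  have h4 := (hDist m c hc).2 _ hcop (((u : ℤ) : ZMod m) * y)
  rw [h1, hg] at h4
  rw [h4]
  congr 1
  linear_combination (g : ZMod m) * h1

end GDsUAux

/-- **DsU.** -/
theorem pDsU : S_DsU := by
  classical
  intro m p d _ hp hcd hm y z hy hz hpz g
  -- `c4 p = e p`
  obtain ⟨e, hce, hk⟩ : ∃ e : ℕ, c4 p = e * p ∧ ∀ k : ℕ, k ∣ c4 p → k ≠ c4 p → k ∣ e := by
    by_cases h2 : p = 2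
    · refine ⟨2, by rw [c4, if_pos h2, h2], ?_⟩
      intro k h1 h3
      rw [c4, if_pos h2] at h1 h3
      have h4 := Nat.le_of_dvd (by norm_num) h1
      interval_cases k
      · omega
      · norm_num
      · norm_num
      · omega
      · omega
    · refine ⟨1, by rw [c4, if_neg h2, one_mul], ?_⟩
      intro k h1 h3
      rw [c4, if_neg h2] at h1 h3
      rcases (Nat.dvd_prime hp).1 h1 with h4 | h4
      · rw [h4]
      · exact absurd h4 h3
  have hm0 : 0 < m := Nat.pos_of_ne_zero (NeZero.ne m)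
  have hd0 : 0 < d := by
    rcases Nat.eq_zero_or_pos d with h | h
    · rw [h, mul_zero] at hm
      exact absurd (Nat.eq_zero_of_zero_dvd hm) (NeZero.ne m)
    · exact h
  have hc0 : 0 < c4 p := by
    rcases Nat.eq_zero_or_pos (c4 p) with h | h
    · rw [h, zero_mul] at hm
      exact absurd (Nat.eq_zero_of_zero_dvd hm) (NeZero.ne m)
    · exact h
  have he0 : 0 < e := by
    rcases Nat.eq_zero_or_pos e with h | h
    · rw [h, zero_mul] at hce
      omega
    · exact h
  have hlt : e < c4 p := by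
    rw [hce]
    have := hp.two_le
    nlinarith
  have hcm : c4 p ∣ m := (Dvd.intro _ rfl).trans hm
  have hem : e ∣ m := (Dvd.intro _ hce.symm).trans hcm
  have hed : e.Coprime d := hcd.coprime_dvd_left (Dvd.intro _ hce.symm)
  have hpd : p.Coprime d := hcd.coprime_dvd_left (Dvd.intro_left _ hce.symm)
  have key : ∀ x : ZMod m, ((c4 p : ℕ) : ZMod m) * x = y ∧ ¬ addOrderOf x = c4 p * d ↔
      ((e : ℕ) : ZMod m) * x = z := by
    intro x
    constructor
    · rintro ⟨h1, h2⟩
      -- the order of `x` is `d k`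
      have h3 : addOrderOf x ∣ c4 p * d := by
        rw [addOrderOf_dvd_iff_nsmul_eq_zero, mul_nsmul, nsmul_eq_mul (c4 p), h1, ← hy]
        exact addOrderOf_nsmul_eq_zero y
      have h4 : d ∣ addOrderOf x := by
        rw [← hy, addOrderOf_dvd_iff_nsmul_eq_zero, ← h1, ← nsmul_eq_mul, ← mul_nsmul, mul_comm, mul_nsmul,
          addOrderOf_nsmul_eq_zero, nsmul_zero]
      obtain ⟨k, hk1⟩ := h4
      have h5 : k ∣ c4 p := by
        have h6 : d * k ∣ d * c4 p := by rw [← hk1, mul_comm d]; exact h3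
        exact Nat.dvd_of_mul_dvd_mul_left hd0 h6
      have h6 : k ∣ e := hk k h5 fun h7 => h2 (by rw [hk1, h7, mul_comm])
      obtain ⟨j, hj⟩ := h6
      have h7 : (d : ℕ) • (((e : ℕ) : ZMod m) * x - z) = 0 := by
        rw [nsmul_sub]
        have h8 : d • z = 0 := by rw [← hz]; exact addOrderOf_nsmul_eq_zero z
        have h9 : d • (((e : ℕ) : ZMod m) * x) = 0 := by
          rw [← nsmul_eq_mul, ← mul_nsmul, mul_comm e d, hj, ← mul_assoc, ← hk1, mul_comm, mul_nsmul',
            addOrderOf_nsmul_eq_zero, nsmul_zero]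
        rw [h8, h9, sub_zero]
      have h8 : (p : ℕ) • (((e : ℕ) : ZMod m) * x - z) = 0 := by
        rw [nsmul_eq_mul, mul_sub, hpz, ← h1, hce]
        push_cast
        ring
      have h9 := Nat.dvd_gcd (addOrderOf_dvd_of_nsmul_eq_zero h8) (addOrderOf_dvd_of_nsmul_eq_zero h7)
      rw [hpd] at h9
      have h10 := AddMonoid.addOrderOf_eq_one_iff.1 (Nat.dvd_one.1 h9)
      exact sub_eq_zero.1 h10
    · intro h1
      refine ⟨?_, fun h2 => ?_⟩
      · rw [← hpz, ← h1, hce]
        push_cast
        ring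
      · have h3 : addOrderOf x ∣ e * d := by
          rw [addOrderOf_dvd_iff_nsmul_eq_zero, mul_nsmul, nsmul_eq_mul e, h1, ← hz]
          exact addOrderOf_nsmul_eq_zero z
        rw [h2] at h3
        have h4 := Nat.le_of_dvd (Nat.mul_pos he0 hd0) h3
        have h5 : e * d < c4 p * d := Nat.mul_lt_mul_of_pos_right hlt hd0
        omega
  have h1 := GDsUAux.dist (c := c4 p) hcm (y := y) (by rw [hy]; exact hcd) g
  have h2 := GDsUAux.dist (c := e) hem (y := z) (by rw [hz]; exact hed) g
  rw [← h1, ← h2]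
  rw [← Finset.sum_filter_add_sum_filter_not (univ.filter (fun x : ZMod m => ((c4 p : ℕ) : ZMod m) * x = y))
    (fun x => addOrderOf x = c4 p * d), Finset.filter_filter, Finset.filter_filter]
  have h3 : univ.filter (fun x : ZMod m => ((c4 p : ℕ) : ZMod m) * x = y ∧ ¬ addOrderOf x = c4 p * d) =
      univ.filter (fun x : ZMod m => ((e : ℕ) : ZMod m) * x = z) := by
    refine Finset.filter_congr fun x _ => key x
  rw [h3]
  ring

end Pool.Agent.FO
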