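import Pool.Agent.Lib.MP_640417_ag.GT.SpecK

/-!
# Theorem GT, part K: the units `e_p`
-/

set_option autoImplicit false

open Finset Pool.Agent.FC

namespace Pool.Agent.FO

namespace GEnAux

private theorem um_val {d e : ℕ} [NeZero d] (h : e ∣ d) (u : (ZMod d)ˣ) :
    ((ZMod.unitsMap h u : (ZMod e)ˣ) : ZMod e) = (((u : ZMod d).val : ℕ) : ZMod e) := by
  rw [ZMod.unitsMap_val, ZMod.cast_eq_val]

private theorem um_one {d e : ℕ} [NeZero d] (h : e ∣ d) (u : (ZMod d)ˣ) :
    ZMod.unitsMap h u = 1 ↔ (e : ℤ) ∣ (((u : ZMod d).val : ℕ) : ℤ) - 1 := by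
  rw [Units.ext_iff, um_val, Units.val_one, ← ZMod.intCast_zmod_eq_zero_iff_dvd]
  push_cast
  rw [sub_eq_zero]

private theorem um_neg {d e : ℕ} [NeZero d] (h : e ∣ d) (u : (ZMod d)ˣ) :
    ZMod.unitsMap h u = -1 ↔ (e : ℤ) ∣ (((u : ZMod d).val : ℕ) : ℤ) + 1 := by
  rw [Units.ext_iff, um_val, Units.val_neg, Units.val_one, ← ZMod.intCast_zmod_eq_zero_iff_dvd]
  push_cast
  rw [eq_neg_iff_add_eq_zero]

private theorem um_neg_one {d e : ℕ} (h : e ∣ d) : ZMod.unitsMap h (-1) = -1 := by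
  rw [ZMod.unitsMap_def]
  exact Units.map_neg_one _

private theorem um_um {d e n : ℕ} (h : e ∣ d) (h' : n ∣ e) (u : (ZMod d)ˣ) :
    ZMod.unitsMap h' (ZMod.unitsMap h u) = ZMod.unitsMap (h'.trans h) u :=
  DFunLike.congr_fun (ZMod.unitsMap_comp h' h) u

private theorem isEn_iff {d : ℕ} [NeZero d] (p : ℕ) (u : (ZMod d)ˣ) :
    IsEn d p u ↔ ZMod.unitsMap (Nat.ordProj_dvd d p) u = -1 ∧
      ZMod.unitsMap (Nat.ordCompl_dvd d p) u = 1 := by
  rw [um_neg, um_one]
  rfl

private theorem crt {d m n : ℕ} (hd : m * n = d) (hc : m.Coprime n) (hm : m ∣ d) (hn : n ∣ d)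
    (x : (ZMod m)ˣ) (y : (ZMod n)ˣ) :
    ∃ u : (ZMod d)ˣ, ZMod.unitsMap hm u = x ∧ ZMod.unitsMap hn u = y := by
  subst hd
  let e := ZMod.chineseRemainder hc
  have h1 : ∀ z : ZMod (m * n), ZMod.castHom hm (ZMod m) z = (e z).1 := fun z =>
    DFunLike.congr_fun (Subsingleton.elim (ZMod.castHom hm (ZMod m))
      ((RingHom.fst (ZMod m) (ZMod n)).comp e.toRingHom)) z
  have h2 : ∀ z : ZMod (m * n), ZMod.castHom hn (ZMod n) z = (e z).2 := fun z =>
    DFunLike.congr_fun (Subsingleton.elim (ZMod.castHom hn (ZMod n))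
      ((RingHom.snd (ZMod m) (ZMod n)).comp e.toRingHom)) z
  let v : (ZMod m × ZMod n)ˣ := MulEquiv.prodUnits.symm (x, y)
  refine ⟨Units.map (e.symm.toRingHom : ZMod m × ZMod n →* ZMod (m * n)) v, ?_, ?_⟩
  · apply Units.ext
    rw [ZMod.unitsMap_def]
    change ZMod.castHom hm (ZMod m) (e.symm (v : ZMod m × ZMod n)) = x
    rw [h1, RingEquiv.apply_symm_apply]
    rfl
  · apply Units.ext
    rw [ZMod.unitsMap_def]
    change ZMod.castHom hn (ZMod n) (e.symm (v : ZMod m × ZMod n)) = y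
    rw [h2, RingEquiv.apply_symm_apply]
    rfl

private theorem cop {d p : ℕ} [NeZero d] (hp : p ∈ d.primeFactors) :
    (p ^ d.factorization p).Coprime (d / p ^ d.factorization p) :=
  (Nat.coprime_ordCompl (Nat.prime_of_mem_primeFactors hp) (NeZero.ne d)).pow_left _

private theorem dvd_compl {d p r : ℕ} [NeZero d] (hp : p ∈ d.primeFactors) (hr : r ∈ d.primeFactors)
    (h : r ≠ p) : r ^ d.factorization r ∣ d / p ^ d.factorization p := by
  rw [Nat.dvd_div_iff_mul_dvd (Nat.ordProj_dvd d p)]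
  have hc : p.Coprime r := (Nat.coprime_primes (Nat.prime_of_mem_primeFactors hp)
    (Nat.prime_of_mem_primeFactors hr)).mpr (Ne.symm h)
  exact (hc.pow _ _).mul_dvd_of_dvd_of_dvd (Nat.ordProj_dvd d p) (Nat.ordProj_dvd d r)

private theorem one_primes {d : ℕ} [NeZero d] (u : (ZMod d)ˣ)
    (h : ∀ p ∈ d.primeFactors, ZMod.unitsMap (Nat.ordProj_dvd d p) u = 1) : u = 1 := by
  have h1 : (d : ℤ) ∣ (((u : ZMod d).val : ℕ) : ℤ) - 1 := by
    rw [Int.natCast_dvd, Nat.dvd_iff_prime_pow_dvd_dvd]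
    intro p k hp hk
    by_cases hpd : p ∣ d
    · have h2 := (um_one _ u).mp (h p (Nat.mem_primeFactors.mpr ⟨hp, hpd, NeZero.ne d⟩))
      rw [Int.natCast_dvd] at h2
      exact (pow_dvd_pow p ((hp.pow_dvd_iff_le_factorization (NeZero.ne d)).mp hk)).trans h2
    · cases k with
      | zero =>
        rw [pow_zero]
        exact one_dvd _
      | succ k => exact absurd ((dvd_pow_self p (Nat.succ_ne_zero k)).trans hk) hpd
  have h2 := (um_one (dvd_refl d) u).mpr h1
  rwa [ZMod.unitsMap_self] at h2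

private theorem ext_primes {d : ℕ} [NeZero d] (u v : (ZMod d)ˣ)
    (h : ∀ p ∈ d.primeFactors, ZMod.unitsMap (Nat.ordProj_dvd d p) u =
      ZMod.unitsMap (Nat.ordProj_dvd d p) v) : u = v := by
  rw [← mul_inv_eq_one]
  refine one_primes _ fun p hp => ?_
  rw [map_mul, map_inv, h p hp, mul_inv_cancel]

private theorem ext_two {d p : ℕ} [NeZero d] (hp : p ∈ d.primeFactors) (u v : (ZMod d)ˣ)
    (h1 : ZMod.unitsMap (Nat.ordProj_dvd d p) u = ZMod.unitsMap (Nat.ordProj_dvd d p) v)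
    (h2 : ZMod.unitsMap (Nat.ordCompl_dvd d p) u = ZMod.unitsMap (Nat.ordCompl_dvd d p) v) :
    u = v := by
  refine ext_primes _ _ fun r hr => ?_
  by_cases h : r = p
  · subst h
    exact h1
  · rw [← um_um (Nat.ordCompl_dvd d p) (dvd_compl hp hr h) u, h2, um_um]

private theorem en_spec {d p : ℕ} [NeZero d] (hp : p ∈ d.primeFactors) : IsEn d p (en d p) := by
  have h : ∃ u : (ZMod d)ˣ, IsEn d p u := by
    obtain ⟨u, h1, h2⟩ := crt (Nat.ordProj_mul_ordCompl_eq_self d p) (cop hp)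
      (Nat.ordProj_dvd d p) (Nat.ordCompl_dvd d p) (-1) 1
    exact ⟨u, (isEn_iff p u).mpr ⟨h1, h2⟩⟩
  unfold en
  rw [dif_pos h]
  exact h.choose_spec

/-! ### Squarefree levels -/

private theorem mem_Kp {d p : ℕ} [NeZero d] (hs : Sqf d) (hp : p ∈ d.primeFactors) (u : (ZMod d)ˣ)
    (h : ZMod.unitsMap (Nat.ordCompl_dvd d p) u = 1) : u ∈ Kp d p := by
  have hpp : p.Prime := Nat.prime_of_mem_primeFactors hp
  have hpd : p ∣ d := Nat.dvd_of_mem_primeFactors hp
  have hd0 : d ≠ 0 := NeZero.ne d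
  unfold Kp
  rw [dif_pos hpd, MonoidHom.mem_ker, um_one]
  have h1 := (um_one _ u).mp h
  have hf1 : 1 ≤ d.factorization p := (hpp.pow_dvd_iff_le_factorization hd0).mp (by rwa [pow_one])
  by_cases h2 : p ^ 2 ∣ d
  · obtain ⟨rfl, h8⟩ := hs.2 p hpp h2
    have hf2 : 2 ≤ d.factorization 2 := (hpp.pow_dvd_iff_le_factorization hd0).mp h2
    have hf3 : d.factorization 2 = 2 := by
      refine le_antisymm ?_ hf2
      by_contra h3
      exact h8 ((hpp.pow_dvd_iff_le_factorization (k := 3) hd0).mpr (by omega))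
    rw [hf3] at h1
    obtain ⟨e, he⟩ := h2
    have hdv : d / 2 ^ 2 = e := by
      rw [he]
      exact Nat.mul_div_cancel_left e (by norm_num)
    have hd2 : d / 2 = 2 * e := by omega
    rw [hdv] at h1
    have h5 : ¬ 2 ∣ (u : ZMod d).val := by
      intro h6
      have h7 := Nat.dvd_gcd h6 hpd
      rw [ZMod.val_coe_unit_coprime u] at h7
      omega
    have h9 : ((2 * e : ℕ) : ℤ) ∣ (((u : ZMod d).val : ℕ) : ℤ) - 1 := by
      push_cast
      refine IsCoprime.mul_dvd ?_ (by omega) h1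
      have h10 : Nat.Coprime 2 e := by
        rw [Nat.coprime_two_left, ← Nat.not_even_iff_odd, even_iff_two_dvd]
        intro h11
        exact h8 (by omega)
      exact_mod_cast Nat.isCoprime_iff_coprime.mpr h10
    rw [hd2]
    exact h9
  · have hf2 : d.factorization p = 1 := by
      refine le_antisymm ?_ hf1
      by_contra h3
      exact h2 ((hpp.pow_dvd_iff_le_factorization (k := 2) hd0).mpr (by omega))
    rw [hf2, pow_one] at h1
    exact h1

private theorem three_le {d p : ℕ} [NeZero d] (hs : Sqf d) (hp : p ∈ d.primeFactors) :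
    3 ≤ p ^ d.factorization p := by
  have hpp : p.Prime := Nat.prime_of_mem_primeFactors hp
  have hpd : p ∣ d := Nat.dvd_of_mem_primeFactors hp
  have hd0 : d ≠ 0 := NeZero.ne d
  have h2 := hpp.two_le
  by_cases h : p = 2
  · subst h
    have h4 : 2 ^ 2 ∣ d := by
      have := hs.1
      omega
    have hf2 : 2 ≤ d.factorization 2 := (hpp.pow_dvd_iff_le_factorization hd0).mp h4
    calc 3 ≤ 2 ^ 2 := by norm_num
      _ ≤ 2 ^ d.factorization 2 := Nat.pow_le_pow_right (by norm_num) hf2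
  · have hf1 : 1 ≤ d.factorization p := (hpp.pow_dvd_iff_le_factorization hd0).mp (by rwa [pow_one])
    calc 3 ≤ p ^ 1 := by
          rw [pow_one]
          omega
      _ ≤ p ^ d.factorization p := Nat.pow_le_pow_right (by omega) hf1

private theorem KS_mem {d : ℕ} [NeZero d] (hs : Sqf d) : ∀ l : List ℕ, l.Nodup →
    (∀ p ∈ l, p ∈ d.primeFactors) → ∀ u : (ZMod d)ˣ,
    (∀ r ∈ d.primeFactors, r ∉ l → ZMod.unitsMap (Nat.ordProj_dvd d r) u = 1) → u ∈ KS (Kp d) l
  | [], _, _, u, hu => by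
    rw [one_primes u fun p hp => hu p hp List.not_mem_nil]
    exact Subgroup.one_mem _
  | p :: l, hl, h, u, hu => by
    have hp := h p List.mem_cons_self
    obtain ⟨k, h1, h2⟩ := crt (Nat.ordProj_mul_ordCompl_eq_self d p) (cop hp)
      (Nat.ordProj_dvd d p) (Nat.ordCompl_dvd d p) (ZMod.unitsMap (Nat.ordProj_dvd d p) u) 1
    have h3 : k⁻¹ * u ∈ KS (Kp d) l := by
      refine KS_mem hs l (List.nodup_cons.mp hl).2 (fun r hr => h r (List.mem_cons_of_mem _ hr)) _
        fun r hr hrl => ?_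
      by_cases hrp : r = p
      · subst hrp
        rw [map_mul, map_inv, h1, inv_mul_cancel]
      · rw [map_mul, map_inv, ← um_um (Nat.ordCompl_dvd d p) (dvd_compl hp hr hrp) k, h2, map_one,
          inv_one, one_mul]
        refine hu r hr fun h4 => ?_
        rcases List.mem_cons.mp h4 with h5 | h5
        · exact hrp h5
        · exact hrl h5
    have h4 := Subgroup.mul_mem_sup (mem_Kp hs hp k h2) h3
    rw [mul_inv_cancel_left] at h4
    exact h4

end GEnAux

open GEnAux in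
theorem pEn : S_En := by
  intro d _
  refine ⟨fun p hp => en_spec hp, fun p hp u hu => ?_, fun l hl hlm => ⟨?_, fun hs => ⟨?_, ?_⟩⟩⟩
  · have h1 := (isEn_iff p u).mp hu
    have h2 := (isEn_iff p _).mp (en_spec hp)
    exact ext_two hp _ _ (h1.1.trans h2.1.symm) (h1.2.trans h2.2.symm)
  · refine ext_primes _ _ fun p hp => ?_
    rw [map_list_prod, List.map_map, List.prod_map_eq_pow_single p, um_neg_one,
      List.count_eq_one_of_mem hl ((hlm p).mpr hp), pow_one]
    · exact ((isEn_iff p _).mp (en_spec hp)).1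
    · intro r hrp hr
      have hr' := (hlm r).mp hr
      change ZMod.unitsMap (Nat.ordProj_dvd d p) (en d r) = 1
      rw [← um_um (Nat.ordCompl_dvd d r) (dvd_compl hr' hp (Ne.symm hrp)),
        ((isEn_iff r _).mp (en_spec hr')).2, map_one]
  · intro p hp
    have hp' := (hlm p).mp hp
    obtain ⟨h1, h2⟩ := (isEn_iff p _).mp (en_spec hp')
    refine ⟨mem_Kp hs hp' _ h2, fun h3 => ?_, ?_⟩
    · have h4 := (en_spec hp').1
      have h5 := (um_one (Nat.ordProj_dvd d p) (en d p)).mp (by rw [h3, map_one])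
      have h6 := dvd_sub h4 h5
      rw [show ((((en d p : (ZMod d)ˣ) : ZMod d).val : ℕ) : ℤ) + 1 -
        ((((en d p : (ZMod d)ˣ) : ZMod d).val : ℕ) - 1) = 2 by ring] at h6
      have h7 := Int.le_of_dvd (by norm_num) h6
      have h8 := three_le hs hp'
      omega
    · refine ext_two hp' _ _ ?_ ?_
      · rw [map_mul, h1, map_one]
        simp
      · rw [map_mul, h2, map_one, mul_one]
  · rw [eq_top_iff]
    intro u _
    exact KS_mem hs l hl (fun p hp => (hlm p).mp hp) u fun r hr hrl => absurd ((hlm r).mpr hr) hrl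

end Pool.Agent.FO
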