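import Pool.Agent.Lib.MP_640417_ag.GT.SpecL

/-! Theorem GT, part L: mean values. -/

set_option autoImplicit false

noncomputable section

namespace Pool.Agent.FO

open Finset Pool.Agent.FC

private theorem GEqMAux_one (hLamAv : S_LamAv) (l : List ℕ) (q m : ℕ) [NeZero m] (h : Pr l q) (a : ZMod m) :
    ((∑ t : (ZMod m)ˣ, |lam l q ((t : ZMod m) * a)| : ℤ) : ℚ) ≤ m.totient * mu l q (addOrderOf a) := by
  obtain ⟨h1, h2⟩ := hLamAv l q m h a
  unfold mu
  have hn : 0 < addOrderOf a := addOrderOf_pos a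
  have hφ : (0 : ℚ) < ((addOrderOf a).totient : ℚ) := by
    exact_mod_cast Nat.totient_pos.2 hn
  by_cases hd : dt l q ∣ addOrderOf a
  · rw [if_pos hd, ← mul_div_assoc, le_div_iff₀ hφ]
    have h3 : (((addOrderOf a).totient : ℤ) * ∑ t : (ZMod m)ˣ, |lam l q ((t : ZMod m) * a)| : ℤ) ≤
        (m.totient * cs l q (addOrderOf a) : ℤ) := by exact_mod_cast h1
    have h4 : ((((addOrderOf a).totient : ℤ) * ∑ t : (ZMod m)ˣ, |lam l q ((t : ZMod m) * a)| : ℤ) : ℚ) ≤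
        ((m.totient * cs l q (addOrderOf a) : ℤ) : ℚ) := by exact_mod_cast h3
    rw [Int.cast_mul] at h4
    rw [mul_comm]
    push_cast at h4 ⊢
    exact h4
  · rw [if_neg hd, mul_zero]
    have h3 : ∑ t : (ZMod m)ˣ, |lam l q ((t : ZMod m) * a)| = 0 :=
      Finset.sum_eq_zero fun t _ => by rw [h2 hd t, abs_zero]
    rw [h3, Int.cast_zero]

theorem pEqM (hLamAv : S_LamAv) : S_EqM := by
  intro l q m _ h ι _ a ht
  have hφ : (0 : ℚ) < (m.totient : ℚ) := by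
    exact_mod_cast Nat.totient_pos.2 (Nat.pos_of_ne_zero (NeZero.ne m))
  have h1 : ∑ t : (ZMod m)ˣ, ((q : ℤ) - 1) ≤ ∑ t : (ZMod m)ˣ, 2 * ∑ i, |lam l q ((t : ZMod m) * a i)| := by
    refine Finset.sum_le_sum fun t _ => (ht t).trans ?_
    exact mul_le_mul_of_nonneg_left (Finset.abs_sum_le_sum_abs _ _) (by norm_num)
  rw [← Finset.mul_sum, Finset.sum_comm, Finset.sum_const, Finset.card_univ, ZMod.card_units_eq_totient,
    nsmul_eq_mul] at h1
  have h2 : ((m.totient : ℚ) * ((q : ℚ) - 1)) ≤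
      2 * ∑ i, ((∑ t : (ZMod m)ˣ, |lam l q ((t : ZMod m) * a i)| : ℤ) : ℚ) := by
    have h3 := (Int.cast_le (R := ℚ)).2 h1
    push_cast at h3 ⊢
    exact h3
  have h3 : ∑ i, ((∑ t : (ZMod m)ˣ, |lam l q ((t : ZMod m) * a i)| : ℤ) : ℚ) ≤
      ∑ i, (m.totient : ℚ) * mu l q (addOrderOf (a i)) :=
    Finset.sum_le_sum fun i _ => GEqMAux_one hLamAv l q m h (a i)
  rw [← Finset.mul_sum] at h3
  have h4 : (m.totient : ℚ) * ((q : ℚ) - 1) ≤ (m.totient : ℚ) * (2 * ∑ i, mu l q (addOrderOf (a i))) := by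
    linarith
  exact le_of_mul_le_mul_left h4 hφ

end Pool.Agent.FO
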