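import Pool.Agent.Lib.MP_640417_ag.GT.SpecQ

/-!
# Theorem QR: action of the units with prescribed signs
-/

set_option autoImplicit false

noncomputable section

open Finset Pool.Agent.FC

namespace Pool.Agent.FO

namespace GEuAAux

theorem dT_eq (S : Finset ℕ) : dT S = ∏ p ∈ S, c4 p := rfl

theorem c4_coprime {u v : ℕ} (hu : u.Prime) (hv : v.Prime) (h : u ≠ v) : (c4 u).Coprime (c4 v) := by
  have h1 : u.Coprime v := (Nat.coprime_primes hu hv).2 h
  have key : ∀ w : ℕ, ∃ k : ℕ, c4 w = w ^ k := by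
    intro w
    unfold c4
    split_ifs with hw
    · exact ⟨2, by rw [hw]; norm_num⟩
    · exact ⟨1, by rw [pow_one]⟩
  obtain ⟨k, hk⟩ := key u
  obtain ⟨l, hl⟩ := key v
  rw [hk, hl]
  exact Nat.Coprime.pow k l h1

theorem dT_dvd {S : Finset ℕ} (hS : ∀ p ∈ S, p.Prime) {x : ℤ} (h : ∀ u ∈ S, ((c4 u : ℕ) : ℤ) ∣ x) :
    ((dT S : ℕ) : ℤ) ∣ x := by
  rw [dT_eq, Nat.cast_prod]
  refine Finset.prod_dvd_of_coprime ?_ h
  intro u hu v hv huv
  exact Nat.isCoprime_iff_coprime.2 (c4_coprime (hS u hu) (hS v hv) huv)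

theorem mul_eq (m d : ℕ) [NeZero m] (hd : d ∣ m) {k k' : ℤ} (h : ((d : ℕ) : ℤ) ∣ k - k') :
    ((m / d : ℕ) : ZMod m) * ((k : ℤ) : ZMod m) = ((m / d : ℕ) : ZMod m) * ((k' : ℤ) : ZMod m) := by
  obtain ⟨c, hc⟩ := h
  have h1 : k = k' + d * c := by linarith
  have h2 : ((m / d : ℕ) : ZMod m) * ((d : ℕ) : ZMod m) = 0 := by
    rw [← Nat.cast_mul, Nat.div_mul_cancel hd, ZMod.natCast_self]
  rw [h1]
  push_cast
  linear_combination (c : ZMod m) * h2

theorem prod_one {E : ℕ → ℤ} {u : ℕ} {A : Finset ℕ} (h : ∀ p ∈ A, ((c4 u : ℕ) : ℤ) ∣ E p - 1) :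
    ((c4 u : ℕ) : ℤ) ∣ ∏ p ∈ A, E p - 1 := by
  classical
  induction A using Finset.induction_on with
  | empty =>
    rw [Finset.prod_empty, sub_self]
    exact dvd_zero _
  | insert a B ha ih =>
    rw [Finset.prod_insert ha]
    have h1 := h a (Finset.mem_insert_self a B)
    have h2 := ih fun p hp => h p (Finset.mem_insert_of_mem hp)
    have e : E a * ∏ p ∈ B, E p - 1 = (E a - 1) * ∏ p ∈ B, E p + (∏ p ∈ B, E p - 1) := by ring
    rw [e]
    exact dvd_add (h1.mul_right _) h2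

end GEuAAux

open GEuAAux in
theorem pEuA : S_EuA := by
  classical
  intro m _ T e hT hm he S hST
  have hS : ∀ p ∈ S, p.Prime := fun p hp => hT p (hST hp)
  have hdS : dT S ∣ m := by
    refine dvd_trans ?_ hm
    rw [dT_eq, dT_eq]
    exact Finset.prod_dvd_prod_of_subset S T c4 hST
  choose! E hE1 hE2 hE3 using he
  have h1 : ∀ A ⊆ T, ∃ E' : ℤ, IsCoprime E' (dT S : ℤ) ∧ (∀ u ∈ A ∩ S, ((c4 u : ℕ) : ℤ) ∣ E' + 1) ∧
      (∀ u ∈ S \ A, ((c4 u : ℕ) : ℤ) ∣ E' - 1) ∧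
      ∀ w : ℤ, ((∏ p ∈ A, e p : (ZMod m)ˣ) : ZMod m) * (((m / dT S : ℕ) : ZMod m) * ((w : ℤ) : ZMod m)) =
        ((m / dT S : ℕ) : ZMod m) * (((E' * w : ℤ)) : ZMod m) := by
    intro A hA
    have hcast : ((∏ p ∈ A, E p : ℤ) : ZMod m) = ((∏ p ∈ A, e p : (ZMod m)ˣ) : ZMod m) := by
      rw [Int.cast_prod, Units.coe_prod]
      exact Finset.prod_congr rfl fun p hp => hE1 p (hA hp)
    refine ⟨∏ p ∈ A, E p, ?_, ?_, ?_, ?_⟩
    · have hu : IsUnit ((∏ p ∈ A, E p : ℤ) : ZMod m) := by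
        rw [hcast]
        exact Units.isUnit _
      rw [ZMod.coe_int_isUnit_iff_isCoprime] at hu
      refine IsCoprime.of_isCoprime_of_dvd_right hu.symm ?_
      exact_mod_cast hdS
    · intro u hu
      rw [Finset.mem_inter] at hu
      rw [← Finset.mul_prod_erase A E hu.1]
      have h2 := hE2 u (hA hu.1)
      have h3 : ((c4 u : ℕ) : ℤ) ∣ ∏ p ∈ A.erase u, E p - 1 := by
        refine prod_one fun p hp => ?_
        rw [Finset.mem_erase] at hp
        exact hE3 p (hA hp.2) u (hA hu.1) (Ne.symm hp.1)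
      have e3 : E u * ∏ p ∈ A.erase u, E p + 1 =
          (E u + 1) * ∏ p ∈ A.erase u, E p - (∏ p ∈ A.erase u, E p - 1) := by ring
      rw [e3]
      exact dvd_sub (h2.mul_right _) h3
    · intro u hu
      rw [Finset.mem_sdiff] at hu
      refine prod_one fun p hp => ?_
      exact hE3 p (hA hp) u (hST hu.1) (fun h => hu.2 (h ▸ hp))
    · intro w
      rw [← hcast]
      push_cast
      ring
  refine ⟨h1, ?_, ?_⟩
  · intro w
    obtain ⟨E', -, h2, -, h3⟩ := h1 T (Finset.Subset.refl T)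
    have h4 : ((dT S : ℕ) : ℤ) ∣ E' + 1 :=
      dT_dvd hS fun u hu => h2 u (Finset.mem_inter.2 ⟨hST hu, hu⟩)
    rw [h3 w]
    have h5 : ((dT S : ℕ) : ℤ) ∣ E' * w - (-w) := by
      have e4 : E' * w - (-w) = (E' + 1) * w := by ring
      rw [e4]
      exact h4.mul_right w
    rw [mul_eq m (dT S) hdS h5]
    push_cast
    ring
  · intro p hp hpS w
    obtain ⟨E', -, -, h2, h3⟩ := h1 {p} (Finset.singleton_subset_iff.2 hp)
    have h4 : ((dT S : ℕ) : ℤ) ∣ E' - 1 := dT_dvd hS fun u hu => h2 u (Finset.mem_sdiff.2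
      ⟨hu, fun h => hpS (by rw [Finset.mem_singleton] at h; exact h ▸ hu)⟩)
    have h6 := h3 w
    rw [Finset.prod_singleton] at h6
    rw [h6]
    have h5 : ((dT S : ℕ) : ℤ) ∣ E' * w - w := by
      have e4 : E' * w - w = (E' - 1) * w := by ring
      rw [e4]
      exact h4.mul_right w
    exact mul_eq m (dT S) hdS h5

end Pool.Agent.FO
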