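import Pool.Agent.Lib.MP_640417_ag.GT.SpecR

/-!
# Units which are non-squares modulo one prime
-/

set_option autoImplicit false

open Finset Pool.Agent.FC

namespace Pool.Agent.FO

namespace GEuGAux

theorem c4_pow {r : ℕ} : ∃ j : ℕ, c4 r = r ^ j := by
  unfold c4
  split_ifs with h
  · exact ⟨2, by rw [h]; norm_num⟩
  · exact ⟨1, (pow_one r).symm⟩

theorem c4_cop {p u : ℕ} (hp : p.Prime) (hu : u.Prime) (h : u ≠ p) : (c4 p).Coprime (c4 u) := by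
  obtain ⟨i, hi⟩ := c4_pow (r := p)
  obtain ⟨j, hj⟩ := c4_pow (r := u)
  rw [hi, hj]
  exact Nat.Coprime.pow i j ((Nat.coprime_primes hp hu).2 (Ne.symm h))

theorem dT_eq (T : Finset ℕ) : dT T = ∏ p ∈ T, c4 p := rfl

theorem one (hSm : S_Smg) (m : ℕ) [NeZero m] (T : Finset ℕ) (hT : ∀ p ∈ T, p.Prime) (hm : dT T ∣ m)
    (p : ℕ) (hp : p ∈ T) : ∃ U : (ZMod m)ˣ, ∃ E : ℤ, ((E : ℤ) : ZMod m) = (U : ZMod m) ∧
      ¬ sm p E ∧ ∀ u ∈ T, u ≠ p → ((c4 u : ℕ) : ℤ) ∣ E - 1 := by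
  obtain ⟨D', hD'⟩ : ∃ D' : ℕ, D' = ∏ u ∈ T.erase p, c4 u := ⟨_, rfl⟩
  have hD : c4 p * D' = dT T := by
    rw [dT_eq, hD']
    exact Finset.mul_prod_erase T c4 hp
  have hcop : (c4 p).Coprime D' := by
    rw [hD']
    exact Nat.Coprime.prod_right fun u hu =>
      c4_cop (hT p hp) (hT u (mem_of_mem_erase hu)) (ne_of_mem_erase hu)
  obtain ⟨a, b, hab⟩ : IsCoprime ((c4 p : ℕ) : ℤ) ((D' : ℕ) : ℤ) := Nat.isCoprime_iff_coprime.2 hcop
  obtain ⟨-, h2S, -, -, η, hη, hηs⟩ := hSm p (hT p hp)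
  obtain ⟨E0, hE0⟩ : ∃ E0 : ℤ, E0 = η * (b * D') + a * c4 p := ⟨_, rfl⟩
  have h1 : ((c4 p : ℕ) : ℤ) ∣ E0 - η := ⟨a * (1 - η), by rw [hE0]; linear_combination η * hab⟩
  have h2 : ((D' : ℕ) : ℤ) ∣ E0 - 1 := ⟨b * (η - 1), by rw [hE0]; linear_combination hab⟩
  have hηc : IsCoprime η ((c4 p : ℕ) : ℤ) := by
    obtain ⟨j, hj⟩ := c4_pow (r := p)
    rw [hj, Nat.cast_pow]
    exact hη.pow_right
  have c1 : IsCoprime E0 ((c4 p : ℕ) : ℤ) := by
    obtain ⟨k, hk⟩ := h1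
    have e : E0 = η + ((c4 p : ℕ) : ℤ) * k := by linear_combination hk
    rw [e]
    exact IsCoprime.add_mul_left_left hηc k
  have c2 : IsCoprime E0 ((D' : ℕ) : ℤ) := by
    obtain ⟨k, hk⟩ := h2
    have e : E0 = 1 + ((D' : ℕ) : ℤ) * k := by linear_combination hk
    rw [e]
    exact IsCoprime.add_mul_left_left isCoprime_one_left k
  have c3 : IsCoprime E0 ((dT T : ℕ) : ℤ) := by
    rw [← hD, Nat.cast_mul]
    exact c1.mul_right c2
  obtain ⟨f, g, hfg⟩ := c3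
  have h4 : ((E0 : ℤ) : ZMod (dT T)) * ((f : ℤ) : ZMod (dT T)) = 1 := by
    have h3 : ((dT T : ℕ) : ℤ) ∣ 1 - E0 * f := ⟨g, by linear_combination -hfg⟩
    have h := (ZMod.intCast_eq_intCast_iff_dvd_sub (E0 * f) 1 (dT T)).2 h3
    rw [Int.cast_mul, Int.cast_one] at h
    exact h
  have h4' : ((f : ℤ) : ZMod (dT T)) * ((E0 : ℤ) : ZMod (dT T)) = 1 := by
    rw [mul_comm]
    exact h4
  obtain ⟨U, hU⟩ := ZMod.unitsMap_surjective hm ⟨((E0 : ℤ) : ZMod (dT T)), ((f : ℤ) : ZMod (dT T)), h4, h4'⟩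
  refine ⟨U, (((U : ZMod m).val : ℕ) : ℤ), ?_, ?_⟩
  · rw [Int.cast_natCast]
    exact ZMod.natCast_zmod_val _
  · have h5 : ((E0 : ℤ) : ZMod (dT T)) = (((((U : ZMod m).val : ℕ) : ℤ)) : ZMod (dT T)) := by
      have h := congrArg (fun V : (ZMod (dT T))ˣ => (V : ZMod (dT T))) hU
      rw [Int.cast_natCast, ZMod.natCast_val]
      rw [← ZMod.unitsMap_val hm U]
      exact h.symm
    have h6 := (ZMod.intCast_eq_intCast_iff_dvd_sub E0 _ (dT T)).1 h5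
    refine ⟨?_, fun u hu hup => ?_⟩
    · have h8 : ((c4 p : ℕ) : ℤ) ∣ (((U : ZMod m).val : ℕ) : ℤ) - η := by
        have e : (((U : ZMod m).val : ℕ) : ℤ) - η = ((((U : ZMod m).val : ℕ) : ℤ) - E0) + (E0 - η) := by
          ring
        rw [e]
        refine dvd_add (dvd_trans ?_ h6) h1
        rw [← hD]
        exact_mod_cast Dvd.intro _ rfl
      exact fun h9 => hηs ((h2S _ _ h8).1 h9)
    · have e : (((U : ZMod m).val : ℕ) : ℤ) - 1 = ((((U : ZMod m).val : ℕ) : ℤ) - E0) + (E0 - 1) := by ring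
      have h7 : c4 u ∣ D' := by
        rw [hD']
        exact Finset.dvd_prod_of_mem c4 (mem_erase.2 ⟨hup, hu⟩)
      rw [e]
      refine dvd_add (dvd_trans ?_ h6) (dvd_trans ?_ h2)
      · rw [← hD]
        exact_mod_cast h7.mul_left _
      · exact_mod_cast h7

end GEuGAux

theorem pEuG (h : S_Smg) : S_EuG := by
  classical
  intro m _ T hT hm
  refine ⟨fun p => if hp : p ∈ T then (GEuGAux.one h m T hT hm p hp).choose else 1, fun p hp => ?_⟩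
  obtain ⟨E, hE⟩ := (GEuGAux.one h m T hT hm p hp).choose_spec
  refine ⟨E, ?_, hE.2⟩
  rw [hE.1]
  simp only [dif_pos hp]

end Pool.Agent.FO
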