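import Pool.Agent.Lib.MP_640417_ag.GT.SpecR
import Pool.Agent.Lib.MP_640417_ag.GT.EuA

/-!
# Theorem GT, part R: action of the units `e p` (not squares modulo `c4 p`)
-/

set_option autoImplicit false

noncomputable section

open Finset Pool.Agent.FC

namespace Pool.Agent.FO

open GEuAAux in
theorem pEuH (hSmg : S_Smg) : S_EuH := by
  classical
  intro m _ T e hT hm he S hST
  have hS : ∀ p ∈ S, p.Prime := fun p hp => hT p (hST hp)
  have hdS : dT S ∣ m := by
    refine dvd_trans ?_ hm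
    rw [dT_eq, dT_eq]
    exact Finset.prod_dvd_prod_of_subset S T c4 hST
  choose! E hE1 hE2 hE3 using he
  have h1 : ∀ A ⊆ T, ∃ E' : ℤ, IsCoprime E' (dT S : ℤ) ∧ (∀ u ∈ A ∩ S, ¬ sm u E') ∧
      (∀ u ∈ S \ A, ((c4 u : ℕ) : ℤ) ∣ E' - 1) ∧
      ∀ w : ℤ, ((∏ p ∈ A, e p : (ZMod m)ˣ) : ZMod m) * (((m / dT S : ℕ) : ZMod m) * ((w : ℤ) : ZMod m)) =
        ((m / dT S : ℕ) : ZMod m) * (((E' * w : ℤ)) : ZMod m) := by
    intro A hA
    have hcast : ((∏ p ∈ A, E p : ℤ) : ZMod m) = ((∏ p ∈ A, e p : (ZMod m)ˣ) : ZMod m) := by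
      rw [Int.cast_prod, Units.coe_prod]
      exact Finset.prod_congr rfl fun p hp => hE1 p (hA hp)
    refine ⟨∏ p ∈ A, E p, ?_, ?_, ?_, ?_⟩
    · have hu : IsUnit ((∏ p ∈ A, E p : ℤ) : ZMod m) := by
        rw [hcast]
        exact Units.isUnit _
      rw [ZMod.coe_int_isUnit_iff_isCoprime] at hu
      refine IsCoprime.of_isCoprime_of_dvd_right hu.symm ?_
      exact_mod_cast hdS
    · intro u hu
      rw [Finset.mem_inter] at hu
      rw [← Finset.mul_prod_erase A E hu.1]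
      have h3 : ((c4 u : ℕ) : ℤ) ∣ ∏ p ∈ A.erase u, E p - 1 := by
        refine prod_one fun p hp => ?_
        rw [Finset.mem_erase] at hp
        exact hE3 p (hA hp.2) u (hA hu.1) (Ne.symm hp.1)
      have h4 : ((c4 u : ℕ) : ℤ) ∣ E u * ∏ p ∈ A.erase u, E p - E u := by
        have e3 : E u * ∏ p ∈ A.erase u, E p - E u = E u * (∏ p ∈ A.erase u, E p - 1) := by ring
        rw [e3]
        exact h3.mul_left _
      intro h5
      exact hE2 u (hA hu.1) (((hSmg u (hT u (hA hu.1))).2.1 _ _ h4).1 h5)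
    · intro u hu
      rw [Finset.mem_sdiff] at hu
      refine prod_one fun p hp => ?_
      exact hE3 p (hA hp) u (hST hu.1) (fun h => hu.2 (h ▸ hp))
    · intro w
      rw [← hcast]
      push_cast
      ring
  refine ⟨h1, ?_⟩
  intro p hp hpS w
  obtain ⟨E', -, -, h2, h3⟩ := h1 {p} (Finset.singleton_subset_iff.2 hp)
  have h4 : ((dT S : ℕ) : ℤ) ∣ E' - 1 := dT_dvd hS fun u hu => h2 u (Finset.mem_sdiff.2
    ⟨hu, fun h => hpS (by rw [Finset.mem_singleton] at h; exact h ▸ hu)⟩)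
  have h6 := h3 w
  rw [Finset.prod_singleton] at h6
  rw [h6]
  have h5 : ((dT S : ℕ) : ℤ) ∣ E' * w - w := by
    have e4 : E' * w - w = (E' - 1) * w := by ring
    rw [e4]
    exact h4.mul_right w
  exact mul_eq m (dT S) hdS h5

end Pool.Agent.FO
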