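import Pool.Agent.Lib.MP_640417_ag.GT.SpecS

/-!
# Theorem GT, part S: finite check at level `420`, parity
-/

set_option autoImplicit false

noncomputable section

open Finset Pool.Agent.FC

namespace Pool.Agent.FO

namespace GF2Aux

/-- the units modulo `420` -/
private def lU : List ℕ := [
  1, 11, 13, 17, 19, 23, 29, 31, 37, 41, 43, 47, 53, 59, 61, 67, 71, 73, 79, 83, 89, 97, 101,
  103, 107, 109, 113, 121, 127, 131, 137, 139, 143, 149, 151, 157, 163, 167, 169, 173, 179,
  181, 187, 191, 193, 197, 199, 209, 211, 221, 223, 227, 229, 233, 239, 241, 247, 251, 253,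
  257, 263, 269, 271, 277, 281, 283, 289, 293, 299, 307, 311, 313, 317, 319, 323, 331, 337,
  341, 347, 349, 353, 359, 361, 367, 373, 377, 379, 383, 389, 391, 397, 401, 403, 407, 409, 419]

/-- the units with the coefficients `52 c2` -/
private def lC : List (ℕ × ℤ) := [
  (1, 8), (11, 6), (13, 1), (17, 9), (19, -2), (23, 3), (29, 8), (31, 6), (37, 3), (41, 8),
  (43, -1), (47, 3), (53, 9), (59, 6), (61, 2), (67, 9), (71, -8), (73, 9), (79, 2), (83, -1),
  (89, 2), (97, -1), (101, -6), (103, 3), (107, -3), (109, 6), (113, 1), (121, -2), (127, 1),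
  (131, -2), (137, -9), (139, 8), (143, -9), (149, -2), (151, -6), (157, -9), (163, -3),
  (167, 1), (169, -8), (173, -3), (179, -6), (181, -8), (187, -3), (191, 2), (193, -9),
  (197, -1), (199, -6), (209, -8), (211, 8), (221, 6), (223, 1), (227, 9), (229, -2),
  (233, 3), (239, 8), (241, 6), (247, 3), (251, 8), (253, -1), (257, 3), (263, 9), (269, 6),
  (271, 2), (277, 9), (281, -8), (283, 9), (289, 2), (293, -1), (299, 2), (307, -1),
  (311, -6), (313, 3), (317, -3), (319, 6), (323, 1), (331, -2), (337, 1), (341, -2),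
  (347, -9), (349, 8), (353, -9), (359, -2), (361, -6), (367, -9), (373, -3), (377, 1),
  (379, -8), (383, -3), (389, -6), (391, -8), (397, -3), (401, 2), (403, -9), (407, -1),
  (409, -6), (419, -8)]

/-- the numbers `52 c2` -/
private def C2 (y : ℕ) : ℤ :=
  8 * E2 y + 6 * E2 (191 * y) + E2 (97 * y) + 9 * E2 (173 * y) - 2 * E2 (199 * y) + 3 * E2 (347 * y)

private theorem c2_eq (y : ℕ) : c2 y = (C2 y : ℚ) / 52 := by
  unfold c2 C2
  push_cast
  rfl

private theorem lC_eq : lU.map (fun j => (j, C2 (j % 420))) = lC := by decide +kernel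

private theorem lU_nodup : lU.Nodup := by decide +kernel

private theorem lU_fin : (range 420).filter (fun j => j.gcd 420 = 1) = lU.toFinset := by
  decide +kernel

/-- indicator of `v ≡ b` modulo `p` -/
private def cI (p v : ℕ) (b : ℤ) : ℤ := if (p : ℤ) ∣ (v : ℤ) - b then 1 else 0

/-- the integral sum -/
private def S (v : ℕ) : ℤ := (lC.map fun p => p.2 * (2 * ((p.1 * v % 420 : ℕ) : ℤ) - 420)).sum

/-- the finite check -/
private def Q (v : ℕ) : Prop := (v.gcd 420 = 1 → S v = -43680 * E2 v ∧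
    (E2 v - (cI 4 v 1 - cI 4 v (-1)) * ((cI 5 v 1 - cI 5 v (-1)) * (cI 7 v 1 - cI 7 v (-1)))) % 2 = 0) ∧
  (v.gcd 420 = 3 ∨ v.gcd 420 = 7 → S v = 0)

private instance (v : ℕ) : Decidable (Q v) := by
  unfold Q cI
  infer_instance

private theorem chk : ∀ v < 420, Q v := by decide +kernel

private theorem fac (n p v : ℕ) (hn : n ≠ 0) (hp : p.Prime) (h1 : p ^ v ∣ n)
    (h2 : ¬ p ^ (v + 1) ∣ n) : n.factorization p = v := by
  have h3 := (hp.pow_dvd_iff_le_factorization hn).1 h1
  have h4 : ¬ (v + 1 ≤ n.factorization p) := fun h =>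
    h2 ((hp.pow_dvd_iff_le_factorization hn).2 h)
  omega

private theorem pf (p : ℕ) (hp : p.Prime) (h : p ∣ 420) : p = 2 ∨ p = 3 ∨ p = 5 ∨ p = 7 := by
  have h1 : p ∣ 2 * 2 * 3 * 5 * 7 := h
  rw [hp.dvd_mul, hp.dvd_mul, hp.dvd_mul, hp.dvd_mul,
    Nat.prime_dvd_prime_iff_eq hp Nat.prime_two,
    Nat.prime_dvd_prime_iff_eq hp Nat.prime_three,
    Nat.prime_dvd_prime_iff_eq hp Nat.prime_five,
    Nat.prime_dvd_prime_iff_eq hp (by norm_num : Nat.Prime 7)] at h1
  tauto

/-- The sum over the units. -/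
private theorem sumU (m : ℕ) [NeZero m] (c : ℕ → ℚ) (x : ZMod m) (hx : x ≠ 0) :
    ∑ t : (ZMod m)ˣ, c ((t : ZMod m).val % 420) * sz ((t : ZMod m) * x) =
      ∑ j ∈ (range m).filter (fun j => j.gcd m = 1),
        c (j % 420) * (((j * x.val % m : ℕ) : ℚ) / m - 1 / 2) := by
  refine Finset.sum_bij (fun t _ => (t : ZMod m).val) ?_ ?_ ?_ ?_
  · intro t ht
    rw [Finset.mem_filter, Finset.mem_range]
    exact ⟨ZMod.val_lt _, ZMod.val_coe_unit_coprime t⟩
  · intro t _ t' _ htt
    exact Units.ext (ZMod.val_injective m htt)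
  · intro j hj
    rw [Finset.mem_filter, Finset.mem_range] at hj
    have hv : ((ZMod.unitOfCoprime j hj.2 : (ZMod m)ˣ) : ZMod m).val = j := by
      rw [ZMod.coe_unitOfCoprime]
      exact ZMod.val_cast_of_lt hj.1
    exact ⟨ZMod.unitOfCoprime j hj.2, Finset.mem_univ _, hv⟩
  · intro t _
    have h2 : ((t : ZMod m) * x).val = (t : ZMod m).val * x.val % m := ZMod.val_mul _ _
    have h3 : (t : ZMod m) * x ≠ 0 := by
      intro h0
      exact hx ((Units.mul_right_eq_zero t).1 h0)
    unfold sz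
    rw [if_neg h3, h2]

private theorem listS (l : List ℕ) (v : ℕ) :
    ((((l.map fun j => (j, C2 (j % 420))).map fun p : ℕ × ℤ =>
      p.2 * (2 * ((p.1 * v % 420 : ℕ) : ℤ) - 420)).sum : ℤ) : ℚ) =
    (l.map fun j => (43680 : ℚ) *
      (c2 (j % 420) * (((j * v % 420 : ℕ) : ℚ) / (420 : ℕ) - 1 / 2))).sum := by
  induction l with
  | nil => rfl
  | cons j l ih =>
    rw [List.map_cons, List.map_cons, List.sum_cons, List.map_cons, List.sum_cons, Int.cast_add, ih,
      c2_eq]
    congr 1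
    generalize j * v % 420 = w
    push_cast
    ring

/-- The Stickelberger sum at the level `420`. -/
private theorem sn_eq (x : ZMod 420) (hx : x ≠ 0) : SN c2 x = (S x.val : ℚ) / 43680 := by
  have h1 := sumU 420 c2 x hx
  have h2 : (S x.val : ℚ) = (lU.map fun j => (43680 : ℚ) *
      (c2 (j % 420) * (((j * x.val % 420 : ℕ) : ℚ) / (420 : ℕ) - 1 / 2))).sum := by
    unfold S
    rw [← lC_eq]
    exact listS lU x.val
  have h3 : (420 : ℕ).totient = 96 := by decide +kernel
  unfold SN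
  rw [h1, lU_fin, List.sum_toFinset _ lU_nodup, h2, List.sum_map_mul_left, h3]
  push_cast
  ring

private theorem ordG (m : ℕ) [NeZero m] (x : ZMod m) : addOrderOf x * Nat.gcd x.val m = m := by
  have h1 : addOrderOf x = m / Nat.gcd m x.val := by
    conv_lhs => rw [← ZMod.natCast_zmod_val x]
    exact ZMod.addOrderOf_coe _ (NeZero.ne m)
  have h2 : Nat.gcd m x.val ∣ m := Nat.gcd_dvd_left _ _
  rw [h1, Nat.gcd_comm x.val m]
  exact Nat.div_mul_cancel h2

private theorem lam_self (m : ℕ) [NeZero m] (x : ZMod m) (hx : addOrderOf x = m) (T : List ℕ)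
    (q : ℕ) : lam T q x = Ph T q m 1 ((x.val : ℕ) : ℤ) := by
  unfold lam
  rw [hx, Nat.div_self (Nat.pos_of_ne_zero (NeZero.ne m)), Nat.div_one]

private theorem lam_zero (x : ZMod 420) (h : ¬ (3 ∣ addOrderOf x ∧ ∀ s ∈ [2, 5, 7], s ∣ addOrderOf x)) :
    lam [2, 5, 7] 3 x = 0 := by
  unfold lam Ph
  rw [if_neg h]

end GF2Aux

open GF2Aux in
/-- **Level 420, the parity.** -/
theorem pF2 (hUpsB : S_UpsB) (_hLamB : S_LamB) : S_F2 := by
  intro x hx
  have hv := ZMod.val_lt x
  have hord := ordG 420 x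
  have hx0 : x ≠ 0 := by
    rintro rfl
    rw [addOrderOf_zero] at hx
    omega
  rw [sn_eq x hx0]
  obtain ⟨q1, q2⟩ := chk _ hv
  rcases hx with hx | hx | hx
  · rw [hx] at hord
    have hg : Nat.gcd x.val 420 = 1 := by omega
    obtain ⟨q3, q4⟩ := q1 hg
    have f2 : Nat.factorization 420 2 = 2 := fac 420 2 2 (by norm_num) (by norm_num) (by norm_num)
      (by norm_num)
    have f5 : Nat.factorization 420 5 = 1 := fac 420 5 1 (by norm_num) (by norm_num) (by norm_num)
      (by norm_num)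
    have f7 : Nat.factorization 420 7 = 1 := fac 420 7 1 (by norm_num) (by norm_num) (by norm_num)
      (by norm_num)
    have hE : ((Nat.primeFactors 420 \ ([2, 5, 7] : List ℕ).toFinset).erase 3) = ∅ := by
      refine Finset.eq_empty_of_forall_notMem fun p hp => ?_
      rw [Finset.mem_erase, Finset.mem_sdiff] at hp
      obtain ⟨h3, hp1, hp2⟩ := hp
      rcases pf p (Nat.prime_of_mem_primeFactors hp1) (Nat.dvd_of_mem_primeFactors hp1) with
        h | h | h | h
      · exact hp2 (by rw [h]; decide)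
      · exact h3 h
      · exact hp2 (by rw [h]; decide)
      · exact hp2 (by rw [h]; decide)
    have hlam : lam [2, 5, 7] 3 x = (cI 4 x.val 1 - cI 4 x.val (-1)) *
        ((cI 5 x.val 1 - cI 5 x.val (-1)) * (cI 7 x.val 1 - cI 7 x.val (-1))) := by
      rw [lam_self 420 x hx]
      generalize x.val = v
      unfold Ph
      rw [if_pos (by decide), hE,
        (hUpsB (ik 420 (v : ℤ)) (ik 420 (v : ℤ)) [2, 5, 7] 1 ∅).2.2.2.2]
      simp only [List.map_cons, List.map_nil, List.prod_cons, List.prod_nil, mul_one]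
      unfold ik cI
      rw [f2, f5, f7]
      norm_num
    rw [← hlam] at q4
    obtain ⟨k, hk⟩ := Int.dvd_of_emod_eq_zero q4
    refine ⟨k, ?_⟩
    have hk' : (E2 x.val : ℚ) - (lam [2, 5, 7] 3 x : ℚ) = 2 * k := by exact_mod_cast hk
    rw [q3]
    push_cast
    linarith
  · rw [hx] at hord
    have hg : Nat.gcd x.val 420 = 7 := by omega
    rw [q2 (Or.inr hg), lam_zero x (by rw [hx]; decide)]
    exact ⟨0, by norm_num⟩
  · rw [hx] at hord
    have hg : Nat.gcd x.val 420 = 3 := by omega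
    rw [q2 (Or.inl hg), lam_zero x (by rw [hx]; decide)]
    exact ⟨0, by norm_num⟩

end Pool.Agent.FO
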