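import Pool.Agent.Lib.MP_640417_ag.GT.SpecS

/-!
# Theorem GT, part S: finite check at level `420`, the functional of `3`
-/

set_option autoImplicit false

noncomputable section

open Finset Pool.Agent.FC

namespace Pool.Agent.FO

namespace GF3Aux

/-- indicator of `v ≡ b` modulo `p` -/
private def cI (p v : ℕ) (b : ℤ) : ℤ := if (p : ℤ) ∣ (v : ℤ) - b then 1 else 0

/-- the coefficients, multiplied by `52` -/
private def C3 (y : ℕ) : ℤ :=
  -3 * E3 y + 9 * E3 (191 * y) - 2 * E3 (97 * y) + 6 * E3 (173 * y) + E3 (199 * y) + 8 * E3 (347 * y)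

/-- `840 sz` -/
private def zz (r : ℕ) : ℤ := if r = 0 then 0 else 2 * (r : ℤ) - 420

/-- the units modulo `420` -/
private def ul : List ℕ := [
  1, 11, 13, 17, 19, 23, 29, 31, 37, 41, 43, 47, 53, 59, 61, 67, 71, 73, 79, 83, 89, 97, 101,
  103, 107, 109, 113, 121, 127, 131, 137, 139, 143, 149, 151, 157, 163, 167, 169, 173, 179,
  181, 187, 191, 193, 197, 199, 209, 211, 221, 223, 227, 229, 233, 239, 241, 247, 251, 253,
  257, 263, 269, 271, 277, 281, 283, 289, 293, 299, 307, 311, 313, 317, 319, 323, 331, 337,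
  341, 347, 349, 353, 359, 361, 367, 373, 377, 379, 383, 389, 391, 397, 401, 403, 407, 409, 419]

/-- the units with the coefficients -/
private def lp : List (ℕ × ℤ) := [
  (1, -3), (11, 9), (13, -2), (17, 6), (19, 1), (23, 8), (29, 3), (31, -9), (37, 8), (41, 3),
  (43, -2), (47, 8), (53, 6), (59, 9), (61, 1), (67, 6), (71, 3), (73, -6), (79, -1), (83, 2),
  (89, -1), (97, 2), (101, 9), (103, -8), (107, -8), (109, 9), (113, 2), (121, -1), (127, 2),
  (131, -1), (137, -6), (139, 3), (143, 6), (149, 1), (151, 9), (157, 6), (163, 8), (167, -2),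
  (169, 3), (173, 8), (179, -9), (181, 3), (187, 8), (191, 1), (193, 6), (197, -2), (199, 9),
  (209, -3), (211, 3), (221, -9), (223, 2), (227, -6), (229, -1), (233, -8), (239, -3),
  (241, 9), (247, -8), (251, -3), (253, 2), (257, -8), (263, -6), (269, -9), (271, -1),
  (277, -6), (281, -3), (283, 6), (289, 1), (293, -2), (299, 1), (307, -2), (311, -9),
  (313, 8), (317, 8), (319, -9), (323, -2), (331, 1), (337, -2), (341, 1), (347, 6),
  (349, -3), (353, -6), (359, -1), (361, -9), (367, -6), (373, -8), (377, 2), (379, -3),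
  (383, -8), (389, 9), (391, -3), (397, -8), (401, -1), (403, -6), (407, 2), (409, -9),
  (419, 3)]

private theorem lp_eq : ul.map (fun j => (j, C3 j)) = lp := by decide +kernel

private theorem ul_nodup : ul.Nodup := by decide +kernel

private theorem ul_eq : (range 420).filter (fun j => j.gcd 420 = 1) = ul.toFinset := by decide +kernel

/-- the Stickelberger sum, multiplied by `43680` -/
private def NN (v : ℕ) : ℤ := (lp.map fun p => p.2 * zz (p.1 * v % 420)).sum

/-- the finite check -/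
private def Q (v : ℕ) : Prop :=
  (v.gcd 420 = 1 → NN v = -43680 * E3 v ∧
    (cI 4 v 1 - cI 4 v (-1)) * ((cI 5 v 1 - cI 5 v (-1)) * (cI 7 v 1 - cI 7 v (-1))) = E3 v) ∧
  (v.gcd 420 ≠ 1 → v.gcd 420 ≠ 3 → NN v = 0) ∧ (v.gcd 420 = 3 → -43680 ≤ NN v ∧ NN v ≤ 43680)

private instance (v : ℕ) : Decidable (Q v) := by
  unfold Q cI
  infer_instance

private theorem chk : ∀ v < 420, Q v := by decide +kernel

private theorem fac (n p v : ℕ) (hn : n ≠ 0) (hp : p.Prime) (h1 : p ^ v ∣ n)
    (h2 : ¬ p ^ (v + 1) ∣ n) : n.factorization p = v := by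
  have h3 := (hp.pow_dvd_iff_le_factorization hn).1 h1
  have h4 : ¬ (v + 1 ≤ n.factorization p) := fun h =>
    h2 ((hp.pow_dvd_iff_le_factorization hn).2 h)
  omega

private theorem pf (p : ℕ) (hp : p.Prime) (h : p ∣ 420) : p = 2 ∨ p = 3 ∨ p = 5 ∨ p = 7 := by
  have h1 : p ∣ 2 * 2 * 3 * 5 * 7 := h
  rw [hp.dvd_mul, hp.dvd_mul, hp.dvd_mul, hp.dvd_mul,
    Nat.prime_dvd_prime_iff_eq hp Nat.prime_two,
    Nat.prime_dvd_prime_iff_eq hp Nat.prime_three,
    Nat.prime_dvd_prime_iff_eq hp Nat.prime_five,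
    Nat.prime_dvd_prime_iff_eq hp (by norm_num : Nat.Prime 7)] at h1
  tauto

/-- The sum over the units. -/
private theorem sumU (m : ℕ) [NeZero m] (f : ℕ → ℚ) :
    ∑ t : (ZMod m)ˣ, f (t : ZMod m).val = ∑ j ∈ (range m).filter (fun j => j.gcd m = 1), f j := by
  refine Finset.sum_bij (fun t _ => (t : ZMod m).val) ?_ ?_ ?_ ?_
  · intro t ht
    rw [Finset.mem_filter, Finset.mem_range]
    exact ⟨ZMod.val_lt _, ZMod.val_coe_unit_coprime t⟩
  · intro t _ t' _ htt
    exact Units.ext (ZMod.val_injective m htt)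
  · intro j hj
    rw [Finset.mem_filter, Finset.mem_range] at hj
    have hv : ((ZMod.unitOfCoprime j hj.2 : (ZMod m)ˣ) : ZMod m).val = j := by
      rw [ZMod.coe_unitOfCoprime]
      exact ZMod.val_cast_of_lt hj.1
    exact ⟨ZMod.unitOfCoprime j hj.2, Finset.mem_univ _, hv⟩
  · intro t _
    rfl

private theorem sz_eq (t x : ZMod 420) : sz (t * x) = (zz (t.val * x.val % 420) : ℚ) / 840 := by
  have h2 : (t * x).val = t.val * x.val % 420 := ZMod.val_mul _ _
  unfold sz zz
  rw [← h2]
  by_cases h : t * x = 0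
  · rw [if_pos h, if_pos (by rw [h, ZMod.val_zero])]
    norm_num
  · rw [if_neg h, if_neg (fun h0 => h ((ZMod.val_eq_zero _).1 h0))]
    push_cast
    ring

private theorem SN_eq (x : ZMod 420) : SN c3 x = (NN x.val : ℚ) / 43680 := by
  have ht : Nat.totient 420 = 96 := by decide +kernel
  have hc : ∀ y : ℕ, c3 y = (C3 y : ℚ) / 52 := by
    intro y
    unfold c3 C3
    push_cast
    rfl
  have h1 : ∑ t : (ZMod 420)ˣ, c3 ((t : ZMod 420).val % 420) * sz ((t : ZMod 420) * x) =
      ∑ t : (ZMod 420)ˣ, (fun j : ℕ => (C3 j : ℚ) * (zz (j * x.val % 420) : ℚ) / 43680)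
        (t : ZMod 420).val := by
    refine Finset.sum_congr rfl fun t _ => ?_
    rw [Nat.mod_eq_of_lt (ZMod.val_lt _), sz_eq, hc]
    ring
  unfold SN
  rw [h1, sumU 420 (fun j : ℕ => (C3 j : ℚ) * (zz (j * x.val % 420) : ℚ) / 43680), ul_eq,
    List.sum_toFinset _ ul_nodup, ht]
  have h2 : (NN x.val : ℚ) = (ul.map fun j : ℕ => (C3 j : ℚ) * (zz (j * x.val % 420) : ℚ)).sum := by
    have h5 : ∀ l : List ℕ, ((((l.map fun j => (j, C3 j)).map
        fun p => p.2 * zz (p.1 * x.val % 420)).sum : ℤ) : ℚ) =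
        (l.map fun j : ℕ => (C3 j : ℚ) * (zz (j * x.val % 420) : ℚ)).sum := by
      intro l
      induction l with
      | nil => simp
      | cons a l ih =>
        rw [List.map_cons, List.map_cons, List.map_cons, List.sum_cons, List.sum_cons, Int.cast_add, ih,
          Int.cast_mul]
    unfold NN
    rw [← lp_eq]
    exact h5 ul
  have h3 : ∀ l : List ℕ, (l.map fun j : ℕ => (C3 j : ℚ) * (zz (j * x.val % 420) : ℚ) / 43680).sum =
      (l.map fun j : ℕ => (C3 j : ℚ) * (zz (j * x.val % 420) : ℚ)).sum / 43680 := by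
    intro l
    induction l with
    | nil => simp
    | cons a l ih => rw [List.map_cons, List.map_cons, List.sum_cons, List.sum_cons, ih, add_div]
  rw [h3, h2]
  norm_num

private theorem ord_eq (x : ZMod 420) : addOrderOf x = 420 / x.val.gcd 420 := by
  have h1 : addOrderOf x = 420 / Nat.gcd 420 x.val := by
    conv_lhs => rw [← ZMod.natCast_zmod_val x]
    exact ZMod.addOrderOf_coe _ (NeZero.ne 420)
  rw [h1, Nat.gcd_comm]

private theorem lam_self (m : ℕ) [NeZero m] (x : ZMod m) (hx : addOrderOf x = m) (T : List ℕ)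
    (q : ℕ) : lam T q x = Ph T q m 1 ((x.val : ℕ) : ℤ) := by
  unfold lam
  rw [hx, Nat.div_self (Nat.pos_of_ne_zero (NeZero.ne m)), Nat.div_one]

end GF3Aux

open GF3Aux in
theorem pF3 (hUpsB : S_UpsB) : S_F3 := by
  intro x
  have hv := ZMod.val_lt x
  obtain ⟨hQ1, hQ2, hQ3⟩ := chk _ hv
  have ho := ord_eq x
  have hg : x.val.gcd 420 ∣ 420 := Nat.gcd_dvd_right _ _
  have hg0 : 0 < x.val.gcd 420 := Nat.gcd_pos_of_pos_right _ (by norm_num)
  have hog : addOrderOf x * x.val.gcd 420 = 420 := by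
    rw [ho]
    exact Nat.div_mul_cancel hg
  refine ⟨fun hx => ?_, fun hx hx' => ?_, fun hx => ?_⟩
  · have hcop : x.val.gcd 420 = 1 := by
      rw [hx] at hog
      omega
    obtain ⟨h1, h2⟩ := hQ1 hcop
    have f2 : Nat.factorization 420 2 = 2 := fac 420 2 2 (by norm_num) (by norm_num) (by norm_num)
      (by norm_num)
    have f5 : Nat.factorization 420 5 = 1 := fac 420 5 1 (by norm_num) (by norm_num) (by norm_num)
      (by norm_num)
    have f7 : Nat.factorization 420 7 = 1 := fac 420 7 1 (by norm_num) (by norm_num) (by norm_num)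
      (by norm_num)
    have hE : ((Nat.primeFactors 420 \ ([2, 5, 7] : List ℕ).toFinset).erase 3) = ∅ := by
      refine Finset.eq_empty_of_forall_notMem fun p hp => ?_
      rw [Finset.mem_erase, Finset.mem_sdiff] at hp
      obtain ⟨h7, hp1, hp2⟩ := hp
      rcases pf p (Nat.prime_of_mem_primeFactors hp1) (Nat.dvd_of_mem_primeFactors hp1) with
        h | h | h | h
      · exact hp2 (by rw [h]; decide)
      · exact h7 h
      · exact hp2 (by rw [h]; decide)
      · exact hp2 (by rw [h]; decide)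
    have hlam : lam [2, 5, 7] 3 x = (cI 4 x.val 1 - cI 4 x.val (-1)) *
        ((cI 5 x.val 1 - cI 5 x.val (-1)) * (cI 7 x.val 1 - cI 7 x.val (-1))) := by
      rw [lam_self 420 x hx]
      generalize x.val = v
      unfold Ph
      rw [if_pos (by decide), hE,
        (hUpsB (ik 420 (v : ℤ)) (ik 420 (v : ℤ)) [2, 5, 7] 1 ∅).2.2.2.2]
      simp only [List.map_cons, List.map_nil, List.prod_cons, List.prod_nil, mul_one]
      unfold ik cI
      rw [f2, f5, f7]
      norm_num
    rw [SN_eq, hlam, h2, h1]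
    push_cast
    ring
  · rw [SN_eq, hQ2 ?_ ?_]
    · norm_num
    · intro h
      rw [h] at hog
      omega
    · intro h
      rw [h] at hog
      omega
  · have h3 : x.val.gcd 420 = 3 := by
      rw [hx] at hog
      omega
    obtain ⟨h4, h5⟩ := hQ3 h3
    have h6 : (-43680 : ℚ) ≤ NN x.val := by exact_mod_cast h4
    have h7 : (NN x.val : ℚ) ≤ 43680 := by exact_mod_cast h5
    rw [SN_eq, abs_le]
    constructor
    · rw [le_div_iff₀ (by norm_num)]
      linarith
    · rw [div_le_iff₀ (by norm_num)]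
      linarith

end Pool.Agent.FO
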