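import Pool.Agent.Lib.MP_640417_ag.GT.SpecS

/-!
# Theorem GT, part S: finite check at level `420`, the functional of `7`
-/

set_option autoImplicit false

noncomputable section

open Finset Pool.Agent.FC

namespace Pool.Agent.FO

namespace GF7Aux

/-- `840 sz` -/
private def s (y : ℕ) : ℤ := if y = 0 then 0 else 2 * (y : ℤ) - 420

/-- the units with `E7 = 1` -/
private def LP : List ℕ := [1, 11, 19, 29, 61, 71, 79, 89, 121, 131, 139, 149, 181, 191, 199, 209, 241,
  251, 269, 311, 319, 361, 379, 389]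

/-- the units with `E7 = -1` -/
private def LM : List ℕ := [31, 41, 59, 101, 109, 151, 169, 179, 211, 221, 229, 239, 271, 281, 289, 299,
  331, 341, 349, 359, 391, 401, 409, 419]

private def G (v : ℕ) : ℤ := (LP.map fun j => s (j * v % 420)).sum - (LM.map fun j => s (j * v % 420)).sum

/-- the finite check -/
private def Q (v : ℕ) : Prop := (v.gcd 420 = 1 → G v = -3360 * E7 v) ∧
  (v.gcd 420 ≠ 1 → v.gcd 420 ≠ 7 → G v = 0) ∧ (v.gcd 420 = 7 → -10080 ≤ G v ∧ G v ≤ 10080)

private instance (v : ℕ) : Decidable (Q v) := by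
  unfold Q
  infer_instance

private theorem chk : ∀ v < 420, Q v := by decide +kernel

private theorem s_eq (y : ℕ) (hy : y < 420) : sz ((y : ℕ) : ZMod 420) = (s y : ℚ) / 840 := by
  unfold sz s
  have h1 : ((y : ℕ) : ZMod 420).val = y := ZMod.val_cast_of_lt hy
  by_cases h0 : y = 0
  · rw [if_pos h0, h0, Nat.cast_zero, if_pos rfl, Int.cast_zero, zero_div]
  · have h2 : ((y : ℕ) : ZMod 420) ≠ 0 := by
      intro h
      rw [h, ZMod.val_zero] at h1
      exact h0 h1.symm
    rw [if_neg h2, if_neg h0, h1]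
    push_cast
    ring

private theorem val7 : ∀ j < 420, j.gcd 420 = 1 →
    E7 j = (if j ∈ LP then 1 else 0) - (if j ∈ LM then 1 else 0) := by decide +kernel

private theorem sub7 : ∀ j ∈ LP ++ LM, j < 420 ∧ j.gcd 420 = 1 := by decide +kernel

private theorem sumL (l : List ℕ) (hl : l.Nodup) (h : ∀ j ∈ l, j < 420 ∧ j.gcd 420 = 1) (F : ℕ → ℤ) :
    ∑ j ∈ (range 420).filter (fun j => j.gcd 420 = 1), (if j ∈ l then 1 else 0) * F j = (l.map F).sum := by
  rw [← List.sum_toFinset F hl]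
  have h1 : ∑ j ∈ (range 420).filter (fun j => j.gcd 420 = 1), (if j ∈ l then 1 else 0) * F j =
      ∑ j ∈ (range 420).filter (fun j => j.gcd 420 = 1), (if j ∈ l.toFinset then F j else 0) := by
    refine Finset.sum_congr rfl fun j _ => ?_
    by_cases hj : j ∈ l
    · rw [if_pos hj, if_pos (List.mem_toFinset.2 hj), one_mul]
    · rw [if_neg hj, if_neg (fun h2 => hj (List.mem_toFinset.1 h2)), zero_mul]
  rw [h1, ← Finset.sum_filter]
  refine Finset.sum_congr ?_ fun _ _ => rfl
  ext j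
  rw [Finset.mem_filter, Finset.mem_filter, Finset.mem_range, List.mem_toFinset]
  exact ⟨fun h2 => h2.2, fun h2 => ⟨h j h2, h2⟩⟩

private theorem sumG (m : ℕ) [NeZero m] (F : ℕ → ℚ) : ∑ t : (ZMod m)ˣ, F (t : ZMod m).val =
    ∑ j ∈ (range m).filter (fun j => j.gcd m = 1), F j := by
  refine Finset.sum_bij (fun t _ => (t : ZMod m).val) ?_ ?_ ?_ ?_
  · intro t _
    rw [Finset.mem_filter, Finset.mem_range]
    exact ⟨ZMod.val_lt _, ZMod.val_coe_unit_coprime t⟩
  · intro t _ t' _ htt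
    exact Units.ext (ZMod.val_injective m htt)
  · intro j hj
    rw [Finset.mem_filter, Finset.mem_range] at hj
    have hv : ((ZMod.unitOfCoprime j hj.2 : (ZMod m)ˣ) : ZMod m).val = j := by
      rw [ZMod.coe_unitOfCoprime]
      exact ZMod.val_cast_of_lt hj.1
    exact ⟨ZMod.unitOfCoprime j hj.2, Finset.mem_univ _, hv⟩
  · intro t _
    rfl

/-- The Stickelberger sum. -/
private theorem SN_eq (x : ZMod 420) : SN c7 x = (G x.val : ℚ) / 3360 := by
  have h96 : Nat.totient 420 = 96 := by decide +kernel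
  have h1 : ∑ t : (ZMod 420)ˣ, c7 ((t : ZMod 420).val % 420) * sz ((t : ZMod 420) * x) =
      ∑ j ∈ (range 420).filter (fun j => j.gcd 420 = 1),
        ((E7 j * s (j * x.val % 420) : ℤ) : ℚ) / 3360 := by
    rw [← sumG 420 fun j => ((E7 j * s (j * x.val % 420) : ℤ) : ℚ) / 3360]
    refine Finset.sum_congr rfl fun t _ => ?_
    have h2 : (t : ZMod 420) * x = (((t : ZMod 420).val * x.val % 420 : ℕ) : ZMod 420) := by
      rw [ZMod.natCast_mod, Nat.cast_mul, ZMod.natCast_zmod_val, ZMod.natCast_zmod_val]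
    rw [h2, s_eq _ (Nat.mod_lt _ (by norm_num)), Nat.mod_eq_of_lt (ZMod.val_lt _)]
    unfold c7
    push_cast
    ring
  unfold SN
  rw [h1, h96, ← Finset.sum_div, ← Int.cast_sum]
  have h2 : ∑ j ∈ (range 420).filter (fun j => j.gcd 420 = 1), E7 j * s (j * x.val % 420) = G x.val := by
    unfold G
    rw [← sumL LP (by decide +kernel) (fun j hj => sub7 j (List.mem_append_left _ hj)) fun j => s (j * x.val % 420),
      ← sumL LM (by decide +kernel) (fun j hj => sub7 j (List.mem_append_right _ hj)) fun j => s (j * x.val % 420),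
      ← Finset.sum_sub_distrib]
    refine Finset.sum_congr rfl fun j hj => ?_
    rw [Finset.mem_filter, Finset.mem_range] at hj
    rw [val7 j hj.1 hj.2]
    ring
  rw [h2]
  norm_num

private theorem ord (x : ZMod 420) : addOrderOf x * x.val.gcd 420 = 420 := by
  have h1 : addOrderOf x = 420 / Nat.gcd 420 x.val := by
    conv_lhs => rw [← ZMod.natCast_zmod_val x]
    exact ZMod.addOrderOf_coe _ (by norm_num)
  rw [h1, Nat.gcd_comm]
  exact Nat.div_mul_cancel (Nat.gcd_dvd_right _ _)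

/-- indicator of `v ≡ b` modulo `p` -/
private def cI (p v : ℕ) (b : ℤ) : ℤ := if (p : ℤ) ∣ (v : ℤ) - b then 1 else 0

private theorem chkI : ∀ v < 420, v.gcd 420 = 1 → (cI 4 v 1 - cI 4 v (-1)) *
    ((cI 3 v 1 - cI 3 v (-1)) * (cI 5 v 1 - cI 5 v (-1))) = E7 v := by
  unfold cI
  decide +kernel

private theorem fac (n p v : ℕ) (hn : n ≠ 0) (hp : p.Prime) (h1 : p ^ v ∣ n)
    (h2 : ¬ p ^ (v + 1) ∣ n) : n.factorization p = v := by
  have h3 := (hp.pow_dvd_iff_le_factorization hn).1 h1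
  have h4 : ¬ (v + 1 ≤ n.factorization p) := fun h =>
    h2 ((hp.pow_dvd_iff_le_factorization hn).2 h)
  omega

private theorem pf (p : ℕ) (hp : p.Prime) (h : p ∣ 420) : p = 2 ∨ p = 3 ∨ p = 5 ∨ p = 7 := by
  have h1 : p ∣ 2 * 2 * 3 * 5 * 7 := h
  rw [hp.dvd_mul, hp.dvd_mul, hp.dvd_mul, hp.dvd_mul,
    Nat.prime_dvd_prime_iff_eq hp Nat.prime_two,
    Nat.prime_dvd_prime_iff_eq hp Nat.prime_three,
    Nat.prime_dvd_prime_iff_eq hp Nat.prime_five,
    Nat.prime_dvd_prime_iff_eq hp (by norm_num : Nat.Prime 7)] at h1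
  tauto

private theorem lam_self (m : ℕ) [NeZero m] (x : ZMod m) (hx : addOrderOf x = m) (T : List ℕ)
    (q : ℕ) : lam T q x = Ph T q m 1 ((x.val : ℕ) : ℤ) := by
  unfold lam
  rw [hx, Nat.div_self (Nat.pos_of_ne_zero (NeZero.ne m)), Nat.div_one]

private theorem lam7 (hUpsB : S_UpsB) (x : ZMod 420) (hx : addOrderOf x = 420) :
    lam [2, 3, 5] 7 x = E7 x.val := by
  have hcop : x.val.gcd 420 = 1 := by
    have := ord x
    rw [hx] at this
    omega
  have f2 : Nat.factorization 420 2 = 2 := fac 420 2 2 (by norm_num) (by norm_num) (by norm_num)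
    (by norm_num)
  have f3 : Nat.factorization 420 3 = 1 := fac 420 3 1 (by norm_num) (by norm_num) (by norm_num)
    (by norm_num)
  have f5 : Nat.factorization 420 5 = 1 := fac 420 5 1 (by norm_num) (by norm_num) (by norm_num)
    (by norm_num)
  have hE : ((Nat.primeFactors 420 \ ([2, 3, 5] : List ℕ).toFinset).erase 7) = ∅ := by
    refine Finset.eq_empty_of_forall_notMem fun p hp => ?_
    rw [Finset.mem_erase, Finset.mem_sdiff] at hp
    obtain ⟨h7, hp1, hp2⟩ := hp
    rcases pf p (Nat.prime_of_mem_primeFactors hp1) (Nat.dvd_of_mem_primeFactors hp1) with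
      h | h | h | h
    · exact hp2 (by rw [h]; decide)
    · exact hp2 (by rw [h]; decide)
    · exact hp2 (by rw [h]; decide)
    · exact h7 h
  rw [← chkI _ (ZMod.val_lt x) hcop, lam_self 420 x hx]
  generalize x.val = v
  unfold Ph
  rw [if_pos (by decide), hE,
    (hUpsB (ik 420 (v : ℤ)) (ik 420 (v : ℤ)) [2, 3, 5] 1 ∅).2.2.2.2]
  simp only [List.map_cons, List.map_nil, List.prod_cons, List.prod_nil, mul_one]
  unfold ik cI
  rw [f2, f3, f5]
  norm_num

end GF7Aux

open GF7Aux in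
theorem pF7 (hUpsB : S_UpsB) : S_F7 := by
  intro x
  have hQ := chk x.val (ZMod.val_lt x)
  have ho := ord x
  rw [SN_eq]
  refine ⟨fun hx => ?_, fun h1 h2 => ?_, fun hx => ?_⟩
  · rw [lam7 hUpsB x hx]
    have hg : x.val.gcd 420 = 1 := by
      rw [hx] at ho
      omega
    rw [hQ.1 hg]
    push_cast
    ring
  · have hg1 : x.val.gcd 420 ≠ 1 := by
      intro h
      rw [h] at ho
      omega
    have hg7 : x.val.gcd 420 ≠ 7 := by
      intro h
      rw [h] at ho
      omega
    rw [hQ.2.1 hg1 hg7, Int.cast_zero, zero_div]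
  · have hg : x.val.gcd 420 = 7 := by
      rw [hx] at ho
      omega
    obtain ⟨h1, h2⟩ := hQ.2.2 hg
    have h1' : (-10080 : ℚ) ≤ (G x.val : ℚ) := by exact_mod_cast h1
    have h2' : (G x.val : ℚ) ≤ 10080 := by exact_mod_cast h2
    rw [abs_le]
    constructor
    · linarith
    · linarith

end Pool.Agent.FO
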