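import Pool.Agent.Lib.MP_640417_ag.GT.SpecR

/-!
# Theorem GT, part R: functionals of functions with odd parity
-/

set_option autoImplicit false

noncomputable section

namespace Pool.Agent.FO

open Finset Pool.Agent.FC

namespace GFodAux

/-- `dt l q` is `dT` of the set of the primes in `q :: l` -/
theorem dt_dT {l : List ℕ} {q : ℕ} (hP : Pr l q) : dt l q = dT (q :: l).toFinset := by
  have h1 : dt l q = ((q :: l).map fun p => if p = 2 then 4 else p).prod := by
    rw [List.map_cons, List.prod_cons, if_neg hP.2.2.1]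
    rfl
  rw [h1, ← List.prod_toFinset _ hP.1]
  rfl

/-- `dT T` is squarefree in the sense of `Sqf` -/
theorem sqf {T : Finset ℕ} (hT : ∀ p ∈ T, p.Prime) : Sqf (dT T) := by
  have hpf := GCbQAux.pf hT
  have h0 : dT T ≠ 0 := (GCbQAux.dT_pos hT).ne'
  have hv : ∀ p ∈ T, p ^ (dT T).factorization p = c4 p := fun p hp => GCbQAux.fac hT hp
  have hmem : ∀ p : ℕ, p.Prime → p ∣ dT T → p ∈ T := by
    intro p hp h
    rw [← hpf]
    exact (Nat.mem_primeFactors_of_ne_zero h0).2 ⟨hp, h⟩
  refine ⟨fun h4 => ?_, fun p hp h2 => ?_⟩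
  · have h2 : 2 ∣ dT T := by omega
    have h3 : c4 2 ∣ dT T := GCbQAux.dvd_dT (hmem 2 Nat.prime_two h2)
    have h5 : c4 2 = 4 := by
      unfold c4
      rw [if_pos rfl]
    rw [h5] at h3
    omega
  · have hpT : p ∈ T := hmem p hp ((dvd_pow_self p two_ne_zero).trans h2)
    have h3 : 2 ≤ (dT T).factorization p := (hp.pow_dvd_iff_le_factorization h0).1 h2
    have h4 := hv p hpT
    by_cases h5 : p = 2
    · refine ⟨h5, fun h8 => ?_⟩
      subst h5
      have h6 : 3 ≤ (dT T).factorization 2 :=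
        (hp.pow_dvd_iff_le_factorization h0).1 (by norm_num; exact h8)
      have h7 : 2 ^ 3 ≤ 2 ^ (dT T).factorization 2 := Nat.pow_le_pow_right (by norm_num) h6
      rw [h4] at h7
      unfold c4 at h7
      rw [if_pos rfl] at h7
      norm_num at h7
    · exfalso
      have h7 : p ^ 2 ≤ p ^ (dT T).factorization p := Nat.pow_le_pow_right hp.pos h3
      rw [h4] at h7
      unfold c4 at h7
      rw [if_neg h5] at h7
      have h8 := hp.two_le
      nlinarith

end GFodAux

open GFodAux GStKAux in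
theorem pFod : S_Fod := by
  intro m _ l q d _ hP hd hdm f hf hR hord hOd
  have hTp : ∀ p ∈ (q :: l).toFinset, p.Prime := fun p hp => hP.2.1 p (List.mem_toFinset.1 hp)
  have hdT : d = dT (q :: l).toFinset := hd.trans (dt_dT hP)
  have hS : Sqf d := by
    rw [hdT]
    exact sqf hTp
  have hm : ∀ p, p ∈ q :: l ↔ p ∈ d.primeFactors := by
    intro p
    rw [hdT, GCbQAux.pf hTp, List.mem_toFinset]
  have hodd : ∀ u : (ZMod d)ˣ, f (el m d (-1 * u)) = -f (el m d u) := by
    intro u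
    rw [neg_one_mul, (hEl m d hdm).2.2.2.2.1 u, hf]
  have hTl : TlA d fun u => f (el m d u) :=
    pTopG m d hdm f hf hR fun x hx hdx => Nat.dvd_antisymm (hord x hx) hdx
  obtain ⟨-, -, hE3⟩ := gEn d
  obtain ⟨hprod, hE4⟩ := hE3 (q :: l) hP.1 hm
  obtain ⟨hIv, hKS⟩ := hE4 hS
  have hInd : Ind (Kp d) (q :: l) := (pKpBas d).1 (q :: l) hP.1 fun p hp => (hm p).1 hp
  have hF : ∀ a : (ZMod d)ˣ, (fun u : (ZMod d)ˣ => f (el m d u)) (((q :: l).map (en d)).prod * a) =
      -(fun u : (ZMod d)ˣ => f (el m d u)) a := by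
    intro a
    rw [hprod]
    exact hodd a
  have hpar := (gParC (ZMod d)ˣ (Kp d) (en d) (q :: l) hP.1 hInd hIv hKS
    (fun u => f (el m d u)) hF (hTl (q :: l) hm)).1 q List.mem_cons_self
  rw [List.erase_cons_head] at hpar
  obtain ⟨a, ha⟩ := gLamTop l q m d hP hd hdm (fun u => f (el m d u)) hpar 1
  have hOd2 := hOd (q :: l) hP.1 hm q List.mem_cons_self a
  rw [List.erase_cons_head] at hOd2
  have hle : ∀ x, f x ≠ 0 → addOrderOf x ≤ d := fun x hx =>
    Nat.le_of_dvd (Nat.pos_of_ne_zero (NeZero.ne d)) (hord x hx)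
  refine ⟨_, hOd2, ?_⟩
  rw [← ha, ← top_sum gLamB hdm hP hd.symm f hle 1]
  refine Finset.sum_congr rfl fun x _ => ?_
  rw [Units.val_one, one_mul]

end Pool.Agent.FO
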