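import Pool.Agent.Lib.MP_640417_ag.GT.SpecQ

/-!
# Theorem QR, module G14F: the six tuples whose level has only the prime factors 2 and 3 modulo 4

Author helper27.
-/

set_option autoImplicit false

noncomputable section

open Finset Pool.Agent.FC

namespace Pool.Agent.FO

namespace GG14FAux

/-- the tuple `t k_i` modulo `M` -/
private def aa (M t : ℕ) (ks : List ℕ) (i : Fin ks.length) : ZMod M := ((t * ks.get i : ℕ) : ZMod M)

private theorem sum_get {A : Type*} [AddCommMonoid A] (l : List ℕ) (f : ℕ → A) :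
    ∑ i : Fin l.length, f (l.get i) = (l.map f).sum := by
  simp

private theorem sz_nat {M : ℕ} [NeZero M] (j : ℕ) (hj : j % M ≠ 0) :
    sz ((j : ℕ) : ZMod M) = ((j % M : ℕ) : ℚ) / M - 1 / 2 := by
  unfold sz
  rw [if_neg, ZMod.val_natCast]
  intro h
  rw [ZMod.natCast_eq_zero_iff] at h
  exact hj (Nat.mod_eq_zero_of_dvd h)

private theorem sum_zero {M : ℕ} [NeZero M] (ks : List ℕ) (t : ℕ)
    (hs : 2 * (ks.map fun k => t * k % M).sum = M * ks.length) :
    ∑ i : Fin ks.length, (((t * ks.get i % M : ℕ) : ℚ) / M - 1 / 2) = 0 := by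
  have h2 : (M : ℚ) ≠ 0 := by exact_mod_cast NeZero.ne M
  have h3 : ∑ i : Fin ks.length, (t * ks.get i % M) = (ks.map fun k => t * k % M).sum := by
    rw [sum_get ks (fun k => t * k % M)]
  rw [Finset.sum_sub_distrib, ← Finset.sum_div, ← Nat.cast_sum, h3]
  have h4 : (2 : ℚ) * ((ks.map fun k => t * k % M).sum : ℕ) = M * ks.length := by exact_mod_cast hs
  simp only [Finset.sum_const, Finset.card_univ, Fintype.card_fin, nsmul_eq_mul]
  field_simp
  linarith

/-- One tuple. -/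
private theorem one (hQ : S_QR) (M : ℕ) [NeZero M] (ks : List ℕ) (t : ℕ)
    (hp : ∀ p < M + 1, p.Prime → p ∣ M → p = 2 ∨ p % 4 = 3)
    (hlt : ∀ k ∈ ks, 0 < k ∧ k < M)
    (hsum : ∀ u < M, u.Coprime M → 2 * (ks.map fun k => u * k % M).sum = M * ks.length)
    (ht : t.Coprime M) :
    (ks.map fun k => Finsupp.single (Pool.Agent.FT.pt M (t * k)) (1 : ℤ)).sum ∈ GS := by
  have hM : 0 < M := Nat.pos_of_ne_zero (NeZero.ne M)
  have hnd : ∀ (s : ℕ), s.Coprime M → ∀ i : Fin ks.length, s * ks.get i % M ≠ 0 := by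
    intro s hs i h
    have h2 := hlt _ (List.get_mem ks i)
    have h4 : M ∣ ks.get i := hs.symm.dvd_of_dvd_mul_left (Nat.dvd_of_mod_eq_zero h)
    have h5 := Nat.le_of_dvd h2.1 h4
    omega
  have hne : ∀ i, aa M t ks i ≠ 0 := by
    intro i h
    unfold aa at h
    rw [ZMod.natCast_eq_zero_iff] at h
    exact hnd t ht i (Nat.mod_eq_zero_of_dvd h)
  have hSt : St (aa M t ks) := by
    intro u
    have hu : Nat.Coprime (u : ZMod M).val M := ZMod.val_coe_unit_coprime u
    have hut : ((u : ZMod M).val * t).Coprime M := hu.mul_left ht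
    have hc : ((u : ZMod M).val * t % M).Coprime M := by
      unfold Nat.Coprime at hut ⊢
      rw [Nat.gcd_comm, Nat.gcd_rec] at hut
      exact hut
    have h0 : ∀ i, sz ((u : ZMod M) * aa M t ks i) =
        (((((u : ZMod M).val * t % M) * ks.get i % M : ℕ)) : ℚ) / M - 1 / 2 := by
      intro i
      have h1 : (u : ZMod M) * aa M t ks i = ((((u : ZMod M).val * t) * ks.get i : ℕ) : ZMod M) := by
        unfold aa
        nth_rewrite 1 [← ZMod.natCast_zmod_val (u : ZMod M)]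
        push_cast
        ring
      rw [h1, sz_nat _ (hnd _ hut i), Nat.mod_mul_mod]
    rw [Finset.sum_congr rfl fun i _ => h0 i]
    exact sum_zero ks _ (hsum _ (Nat.mod_lt _ hM) hc)
  have h := hQ M (fun p hp1 hp2 => hp p (Nat.lt_succ_of_le (Nat.le_of_dvd hM hp2)) hp1 hp2)
    (Fin ks.length) (aa M t ks) hne hSt
  have e : clt (aa M t ks) =
      (ks.map fun k => Finsupp.single (Pool.Agent.FT.pt M (t * k)) (1 : ℤ)).sum := by
    unfold clt
    rw [← sum_get ks (fun k => Finsupp.single (Pool.Agent.FT.pt M (t * k)) (1 : ℤ))]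
    refine Finset.sum_congr rfl fun i _ => ?_
    unfold aa Pool.Agent.FT.pt
    rw [ZMod.toAddCircle_natCast]
  rwa [e] at h

private theorem chk : ∀ w ∈ tp, w ∈ tp8 ∨ (w.1 ≠ 0 ∧
    (∀ p < w.1 + 1, p.Prime → p ∣ w.1 → p = 2 ∨ p % 4 = 3) ∧ (∀ k ∈ w.2, 0 < k ∧ k < w.1) ∧
    ∀ u < w.1, u.Coprime w.1 → 2 * (w.2.map fun k => u * k % w.1).sum = w.1 * w.2.length) := by
  unfold tp tp8
  decide +kernel

end GG14FAux

open GG14FAux in
theorem pG14F : S_G14F := by
  intro hQ
  have hGS : GS ≤ GF := le_sup_left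
  have h8 : ∀ (q : ℕ × List ℕ) (t : ℕ), q ∈ tp8 → t.Coprime q.1 →
      (q.2.map fun k => Finsupp.single (Pool.Agent.FT.pt q.1 (t * k)) (1 : ℤ)).sum ∈ GF :=
    fun q t hq ht => AddSubgroup.mem_sup_right (AddSubgroup.subset_closure ⟨q, t, hq, ht, rfl⟩)
  have hG13 : G13 ≤ GF := by
    refine sup_le (le_trans le_sup_left hGS) ?_
    rw [AddSubgroup.closure_le]
    rintro f ⟨q, t, hq, ht, rfl⟩
    rcases chk q hq with h | ⟨h0, h1, h2, h3⟩
    · exact h8 q t h ht
    · have : NeZero q.1 := ⟨h0⟩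
      exact hGS (one hQ q.1 q.2 t h1 h2 h3 ht)
  refine sup_le hG13 ?_
  rw [AddSubgroup.closure_le]
  rintro f ⟨t, ht, rfl⟩
  exact h8 (110, [1, 24, 62, 71, 81, 91]) t (by unfold tp8; simp) ht

end Pool.Agent.FO
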