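import Pool.Agent.Lib.MP_640417_ag.GT.PdQ
import Pool.Agent.Lib.MP_640417_ag.GT.DefsF

/-!
# Theorem GT: the pairs and quadruples of primes
-/

set_option autoImplicit false

open Finset Pool.Agent.FC

namespace Pool.Agent.FO

/-- sets of primes which are `2` or `3` modulo `4`, and the pairs `p, q` with `Ex p q` -/
def AlF (T : Finset ℕ) : Prop := T34 T ∨ ∃ p q : ℕ, p < q ∧ T = {p, q} ∧ Ex p q

namespace GPcAux

theorem prod_mono {T' T : Finset ℕ} (hP : ∀ p ∈ T, p.Prime) (h : T' ⊆ T) : ∏ p ∈ T', hf p ≤ ∏ p ∈ T, hf p := by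
  rw [← prod_sdiff h]
  exact Nat.le_mul_of_pos_left _ (prod_pos fun s hs => one_le_hf (hP s (mem_sdiff.1 hs).1))

theorem cr1_sub {m N : ℕ} {T' T : Finset ℕ} (hP : ∀ p ∈ T, p.Prime) (h : T' ⊆ T)
    (h1 : N < ∏ p ∈ T', hf p ∧ (2 ∣ m → 2 ∉ T' → 2 * N < ∏ p ∈ T', hf p)) : Cr1 m N T :=
  ⟨h1.1.trans_le (prod_mono hP h), fun h2 h3 => (h1.2 h2 fun h4 => h3 (h h4)).trans_le (prod_mono hP h)⟩

end GPcAux

open GPcAux

/-- **The sets of primes, final form.** -/
theorem condFF (hMx : S_Mx) (hNcR : S_NcR) (hKmn : S_Kmn) {m N : ℕ} (hPC : PairF m N) (hQC : QuadF m N) :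
    ∀ T, Ess m T → AlF T ∨ Crt m N T := by
  have h1 : ∀ T, Ess m T → AlF T ∨ Cr1 m N T := by
    intro T hT
    obtain ⟨hTm, hT4, hTn, hTe⟩ := id hT
    have hP : ∀ p ∈ T, p.Prime := fun p hp => Nat.prime_of_mem_primeFactors (hTm hp)
    have hc := hTn.card_pos
    by_cases hT34 : T34 T
    · exact Or.inl (Or.inl hT34)
    by_cases h2 : T.card = 2
    · obtain ⟨p, hp, q, hq, hpq⟩ := two_lt (show 2 ≤ T.card by omega)
      rcases hPC p q (hP p hp) (hP q hq) (Nat.dvd_of_mem_primeFactors (hTm hp)) (Nat.dvd_of_mem_primeFactors (hTm hq)) hpq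
        (fun h => hT4 (h ▸ hp)) with h3 | h3
      · refine Or.inl (Or.inr ⟨p, q, hpq, ?_, h3⟩)
        symm
        refine eq_of_subset_of_card_le ?_ ?_
        · intro y hy
          rw [mem_insert, mem_singleton] at hy
          rcases hy with rfl | rfl
          · exact hp
          · exact hq
        · rw [h2, card_pair hpq.ne]
      · exact Or.inr (cr1_pair hT hp hq hpq h3)
    · obtain ⟨p0, hp0, hp04⟩ : ∃ p0 ∈ T, ¬ (p0 = 2 ∨ p0 % 4 = 3) := by
        by_contra hcon
        push Not at hcon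
        exact hT34 fun p hp => ⟨hP p hp, hcon p hp⟩
      obtain ⟨T', hT', hT'T, hT'c⟩ := exists_subsuperset_card_eq (s := {p0}) (t := T) (n := 4)
        (singleton_subset_iff.2 hp0) (by rw [card_singleton]; omega) (by omega)
      rcases hQC T' (hT'T.trans hTm) hT'c (fun h => hT4 (hT'T h)) with h3 | h3
      · exact absurd (h3 p0 (hT' (mem_singleton_self p0))) hp04
      · exact Or.inr (cr1_sub hP hT'T h3)
  intro T hT
  by_cases hA : AlF T
  · exact Or.inl hA
  · refine Or.inr (crt_ofQ hMx hNcR hKmn m N AlF ?_ (fun T h => Or.inl h) h1 T hT hA)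
    rintro T (h | ⟨p, q, hpq, rfl, -⟩)
    · exact Or.inr h
    · exact Or.inl (card_pair hpq.ne)

namespace GPcAux

theorem k4_of {p : ℕ} (hp : p.Prime) (h : p < 29) : K4 p := by
  unfold K4
  interval_cases p <;> first | (exfalso; revert hp; norm_num; done) | omega

/-- the pairs with `hf p * hf q < 20`, except `3, 29` -/
theorem pair_small {p q : ℕ} (hp : p.Prime) (hq : q.Prime) (hpq : p < q) (h : ¬ (p = 3 ∧ q = 29)) (hb : hf p * hf q < 20)
    (h2 : p = 2 → hf q < 14) : Ex p q := by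
  have hhq : 2 * hf q + 1 = q := by
    have h3 := hp.two_le
    have h4 := (hq.eq_two_or_odd).resolve_left (by omega)
    unfold hf
    rw [if_neg (by omega)]
    omega
  have hp1 := one_le_hf hp
  by_cases hq29 : q < 29
  · exact Or.inl ⟨k4_of hp (by omega), k4_of hq hq29⟩
  · have hq14 : 14 ≤ hf q := by omega
    have hp1' : hf p < 2 := by
      by_contra hcon
      have h5 : 2 * 14 ≤ hf p * hf q := Nat.mul_le_mul (by omega) hq14
      omega
    have hp3 : p = 2 ∨ p = 3 := by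
      unfold hf at hp1'
      split_ifs at hp1' with h6
      · exact Or.inl h6
      · have h7 := (hp.eq_two_or_odd).resolve_left h6
        have h8 := hp.two_le
        omega
    rcases hp3 with rfl | rfl
    · have := h2 rfl
      omega
    · have h3 : hf 3 = 1 := rfl
      rw [h3, one_mul] at hb
      have hq41 : q < 41 := by omega
      have h37 : q = 31 ∨ q = 37 := by
        have h9 : 29 ≤ q := by omega
        interval_cases q <;> first | (exfalso; revert hq; norm_num; done) | (exfalso; exact h ⟨rfl, rfl⟩) | simp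
      rcases h37 with rfl | rfl
      · exact Or.inl ⟨Or.inr (Or.inl (by decide)), Or.inr (Or.inl (by decide))⟩
      · exact Or.inr (Or.inl ⟨by decide, ⟨15, by decide⟩⟩)

/-- products of `hf` over four primes -/
theorem quad_small (hKmn : S_Kmn) {T : Finset ℕ} (hP : ∀ p ∈ T, p.Prime) (hc : T.card = 4) :
    (2 ∉ T → 30 ≤ ∏ p ∈ T, hf p) ∧ (T ≠ {2, 3, 5, 7} → 10 ≤ ∏ p ∈ T, hf p) := by
  obtain ⟨-, -, -, -, -, k1, -, -, k2⟩ := hKmn T hP
  have h1 := kp_hf hP
  rw [hc] at h1
  refine ⟨fun h2 => ?_, fun h2 => ?_⟩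
  · have := (k2 h2).2.2.1 (by omega)
    omega
  · have := k1 hc h2
    omega

end GPcAux

/-- length at most `8` -/
theorem pairF8 {m N : ℕ} (hN : N ≤ 8) (hd : ¬ 174 ∣ m) : PairF m N := by
  intro p q hp hq hpm hqm hpq h24
  by_cases hp2 : p = 2
  · subst hp2
    have h3 : hf 2 = 1 := rfl
    by_cases h14 : hf q < 14
    · exact Or.inl (pair_small hp hq hpq (by omega) (by rw [h3]; omega) fun _ => h14)
    · exact Or.inr ⟨by rw [h3]; omega, fun _ h => absurd rfl h⟩
  · by_cases h20 : hf p * hf q < 20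
    · by_cases h29 : p = 3 ∧ q = 29
      · obtain ⟨rfl, rfl⟩ := h29
        have h3 : hf 3 * hf 29 = 14 := rfl
        exact Or.inr ⟨by rw [h3]; omega, fun h2 _ => absurd (by omega) hd⟩
      · exact Or.inl (pair_small hp hq hpq h29 h20 fun h => absurd h hp2)
    · exact Or.inr ⟨by omega, fun _ _ => by omega⟩

/-- length at most `8` -/
theorem quadF8 (hKmn : S_Kmn) {m N : ℕ} (hN : N ≤ 8) (hd : ¬ 420 ∣ m) : QuadF m N := by
  intro T hTm hc h24
  right
  have hP : ∀ p ∈ T, p.Prime := fun p hp => Nat.prime_of_mem_primeFactors (hTm hp)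
  obtain ⟨k1, k2⟩ := quad_small hKmn hP hc
  have hT : T ≠ {2, 3, 5, 7} := by
    rintro rfl
    have h2 := h24 (by simp)
    have h3 : 3 ∣ m := Nat.dvd_of_mem_primeFactors (hTm (by simp))
    have h5 : 5 ∣ m := Nat.dvd_of_mem_primeFactors (hTm (by simp))
    have h7 : 7 ∣ m := Nat.dvd_of_mem_primeFactors (hTm (by simp))
    exact hd (by omega)
  have h1 := k2 hT
  exact ⟨by omega, fun _ h => by have := k1 h; omega⟩

/-- odd levels, length at most `12` -/
theorem pairF12 {m N : ℕ} (hN : N ≤ 12) (hm2 : ¬ 2 ∣ m) : PairF m N := by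
  intro p q hp hq hpm hqm hpq h24
  have hp2 : p ≠ 2 := by
    rintro rfl
    exact hm2 hpm
  by_cases h20 : hf p * hf q < 20
  · by_cases h29 : p = 3 ∧ q = 29
    · obtain ⟨rfl, rfl⟩ := h29
      have h3 : hf 3 * hf 29 = 14 := rfl
      exact Or.inr ⟨by rw [h3]; omega, fun h2 _ => absurd h2 hm2⟩
    · exact Or.inl (pair_small hp hq hpq h29 h20 fun h => absurd h hp2)
  · exact Or.inr ⟨by omega, fun h2 _ => absurd h2 hm2⟩

/-- odd levels, length at most `12` -/
theorem quadF12 (hKmn : S_Kmn) {m N : ℕ} (hN : N ≤ 12) (hm2 : ¬ 2 ∣ m) : QuadF m N := by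
  intro T hTm hc h24
  right
  have hP : ∀ p ∈ T, p.Prime := fun p hp => Nat.prime_of_mem_primeFactors (hTm hp)
  have h2 : 2 ∉ T := fun h => hm2 (Nat.dvd_of_mem_primeFactors (hTm h))
  have h1 := (quad_small hKmn hP hc).1 h2
  exact ⟨by omega, fun _ _ => by omega⟩

end Pool.Agent.FO
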