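import Pool.Agent.Lib.MP_640417_ag.GT.MainQ
import Pool.Agent.Lib.MP_640417_ag.GT.PdF
import Pool.Agent.Lib.MP_640417_ag.GT.DefsR

/-!
# The tuples of `G14` are in `GF3`

Adapted from G14F.lean (helper27).
-/

set_option autoImplicit false

noncomputable section

open Finset Pool.Agent.FC

namespace Pool.Agent.FO

/-- levels with at most three primes, all in `K4` -/
theorem ess3 {M : ℕ} (hK : ∀ p : ℕ, p.Prime → p ∣ M → K4 p) (hc : M.primeFactors.card ≤ 3) (T : Finset ℕ) (hT : Ess M T) :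
    AlF T := by
  obtain ⟨hTm, hT4, hTn, hTe⟩ := hT
  have hc1 := card_le_card hTm
  have hc2 := hTn.card_pos
  have h2 : T.card = 2 := by omega
  obtain ⟨p, hp, q, hq, hpq⟩ := GPcAux.two_lt (show 2 ≤ T.card by omega)
  refine Or.inr ⟨p, q, hpq, ?_, Or.inl ⟨?_, ?_⟩⟩
  · symm
    refine eq_of_subset_of_card_le ?_ ?_
    · intro y hy
      rw [mem_insert, mem_singleton] at hy
      rcases hy with rfl | rfl
      · exact hp
      · exact hq
    · rw [h2, card_pair hpq.ne]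
  · exact hK p (Nat.prime_of_mem_primeFactors (hTm hp)) (Nat.dvd_of_mem_primeFactors (hTm hp))
  · exact hK q (Nat.prime_of_mem_primeFactors (hTm hq)) (Nat.dvd_of_mem_primeFactors (hTm hq))

namespace GG14RAux

/-- the tuple `t k_i` modulo `M` -/
private def aa (M t : ℕ) (ks : List ℕ) (i : Fin ks.length) : ZMod M := ((t * ks.get i : ℕ) : ZMod M)

private theorem sum_get {A : Type*} [AddCommMonoid A] (l : List ℕ) (f : ℕ → A) :
    ∑ i : Fin l.length, f (l.get i) = (l.map f).sum := by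
  simp

private theorem sz_nat {M : ℕ} [NeZero M] (j : ℕ) (hj : j % M ≠ 0) :
    sz ((j : ℕ) : ZMod M) = ((j % M : ℕ) : ℚ) / M - 1 / 2 := by
  unfold sz
  rw [if_neg, ZMod.val_natCast]
  intro h
  rw [ZMod.natCast_eq_zero_iff] at h
  exact hj (Nat.mod_eq_zero_of_dvd h)

private theorem sum_zero {M : ℕ} [NeZero M] (ks : List ℕ) (t : ℕ)
    (hs : 2 * (ks.map fun k => t * k % M).sum = M * ks.length) :
    ∑ i : Fin ks.length, (((t * ks.get i % M : ℕ) : ℚ) / M - 1 / 2) = 0 := by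
  have h2 : (M : ℚ) ≠ 0 := by exact_mod_cast NeZero.ne M
  have h3 : ∑ i : Fin ks.length, (t * ks.get i % M) = (ks.map fun k => t * k % M).sum := by
    rw [sum_get ks (fun k => t * k % M)]
  rw [Finset.sum_sub_distrib, ← Finset.sum_div, ← Nat.cast_sum, h3]
  have h4 : (2 : ℚ) * ((ks.map fun k => t * k % M).sum : ℕ) = M * ks.length := by exact_mod_cast hs
  simp only [Finset.sum_const, Finset.card_univ, Fintype.card_fin, nsmul_eq_mul]
  field_simp
  linarith

/-- One tuple. -/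
private theorem one (M : ℕ) [NeZero M] (hG : GdA M GF3 AlF) (ks : List ℕ) (t : ℕ)
    (hp : ∀ p < M + 1, p.Prime → p ∣ M → p = 2 ∨ p % 4 = 3 ∨ p = 5 ∨ p = 13 ∨ p = 17) (hc : M.primeFactorsList.toFinset.card ≤ 3)
    (hlt : ∀ k ∈ ks, 0 < k ∧ k < M)
    (hsum : ∀ u < M, u.Coprime M → 2 * (ks.map fun k => u * k % M).sum = M * ks.length)
    (ht : t.Coprime M) :
    (ks.map fun k => Finsupp.single (Pool.Agent.FT.pt M (t * k)) (1 : ℤ)).sum ∈ GF3 := by
  have hM : 0 < M := Nat.pos_of_ne_zero (NeZero.ne M)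
  have hnd : ∀ (s : ℕ), s.Coprime M → ∀ i : Fin ks.length, s * ks.get i % M ≠ 0 := by
    intro s hs i h
    have h2 := hlt _ (List.get_mem ks i)
    have h4 : M ∣ ks.get i := hs.symm.dvd_of_dvd_mul_left (Nat.dvd_of_mod_eq_zero h)
    have h5 := Nat.le_of_dvd h2.1 h4
    omega
  have hne : ∀ i, aa M t ks i ≠ 0 := by
    intro i h
    unfold aa at h
    rw [ZMod.natCast_eq_zero_iff] at h
    exact hnd t ht i (Nat.mod_eq_zero_of_dvd h)
  have hSt : St (aa M t ks) := by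
    intro u
    have hu : Nat.Coprime (u : ZMod M).val M := ZMod.val_coe_unit_coprime u
    have hut : ((u : ZMod M).val * t).Coprime M := hu.mul_left ht
    have hc : ((u : ZMod M).val * t % M).Coprime M := by
      unfold Nat.Coprime at hut ⊢
      rw [Nat.gcd_comm, Nat.gcd_rec] at hut
      exact hut
    have h0 : ∀ i, sz ((u : ZMod M) * aa M t ks i) =
        (((((u : ZMod M).val * t % M) * ks.get i % M : ℕ)) : ℚ) / M - 1 / 2 := by
      intro i
      have h1 : (u : ZMod M) * aa M t ks i = ((((u : ZMod M).val * t) * ks.get i : ℕ) : ZMod M) := by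
        unfold aa
        nth_rewrite 1 [← ZMod.natCast_zmod_val (u : ZMod M)]
        push_cast
        ring
      rw [h1, sz_nat _ (hnd _ hut i), Nat.mod_mul_mod]
    rw [Finset.sum_congr rfl fun i _ => h0 i]
    exact sum_zero ks _ (hsum _ (Nat.mod_lt _ hM) hc)
  have h := gGTt M ks.length GF3 AlF hG (fun T hT hA => absurd (ess3 (fun p hp1 hp2 =>
    hp p (Nat.lt_succ_of_le (Nat.le_of_dvd hM hp2)) hp1 hp2) hc T hT) hA)
    (Fin ks.length) (aa M t ks) (by simp) hne hSt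
  have e : clt (aa M t ks) =
      (ks.map fun k => Finsupp.single (Pool.Agent.FT.pt M (t * k)) (1 : ℤ)).sum := by
    unfold clt
    rw [← sum_get ks (fun k => Finsupp.single (Pool.Agent.FT.pt M (t * k)) (1 : ℤ))]
    refine Finset.sum_congr rfl fun i _ => ?_
    unfold aa Pool.Agent.FT.pt
    rw [ZMod.toAddCircle_natCast]
  rwa [e] at h

private theorem chk : ∀ w ∈ (110, [1, 24, 62, 71, 81, 91]) :: tp, (w.1 ≠ 0 ∧
    (∀ p < w.1 + 1, p.Prime → p ∣ w.1 → p = 2 ∨ p % 4 = 3 ∨ p = 5 ∨ p = 13 ∨ p = 17) ∧ w.1.primeFactorsList.toFinset.card ≤ 3 ∧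
    (∀ k ∈ w.2, 0 < k ∧ k < w.1) ∧
    ∀ u < w.1, u.Coprime w.1 → 2 * (w.2.map fun k => u * k % w.1).sum = w.1 * w.2.length) := by
  unfold tp
  decide +kernel

end GG14RAux

open GG14RAux in
/-- the tuples of `G14` are in `GF3` -/
theorem pG14R (hG : ∀ (m : ℕ) [NeZero m], GdA m GF3 AlF) : G14 ≤ GF3 := by
  have key : ∀ (q : ℕ × List ℕ) (t : ℕ), q ∈ (110, [1, 24, 62, 71, 81, 91]) :: tp → t.Coprime q.1 →
      (q.2.map fun k => Finsupp.single (Pool.Agent.FT.pt q.1 (t * k)) (1 : ℤ)).sum ∈ GF3 := by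
    intro q t hq ht
    obtain ⟨h0, h1, h2, h3, h4⟩ := chk q hq
    have : NeZero q.1 := ⟨h0⟩
    exact one q.1 (hG q.1) q.2 t h1 h2 h3 h4 ht
  have hHD : HD ≤ GF3 := (le_sup_left : HD ≤ GS).trans le_sup_left
  have hG13 : G13 ≤ GF3 := by
    refine sup_le hHD ?_
    rw [AddSubgroup.closure_le]
    rintro f ⟨q, t, hq, ht, rfl⟩
    exact key q t (List.mem_cons_of_mem _ hq) ht
  refine sup_le hG13 ?_
  rw [AddSubgroup.closure_le]
  rintro f ⟨t, ht, rfl⟩
  exact key (110, [1, 24, 62, 71, 81, 91]) t List.mem_cons_self ht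

end Pool.Agent.FO
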