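import Pool.Agent.Lib.MP_640417_ag.GT.SpecL

/-!
# Theorem GT, module G55: the class of the pair `5, 11`
-/

set_option autoImplicit false

noncomputable section

open Finset Pool.Agent.FC

namespace Pool.Agent.FO

namespace GG55Aux

/-- the tuple `(m / M) k_i` -/
private def aa (m M : ℕ) (ks : List ℕ) (i : Fin ks.length) : ZMod m :=
  ((m / M * ks.get i : ℕ) : ZMod m)

section

variable {m M : ℕ} [NeZero m] [NeZero M]

omit [NeZero m] [NeZero M] in
private theorem val_mul (hM : M ∣ m) (j : ℕ) : (((m / M * j : ℕ)) : ZMod m).val = m / M * (j % M) := by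
  rw [ZMod.val_natCast]
  have h1 : m / M * M = m := Nat.div_mul_cancel hM
  calc m / M * j % m = m / M * j % (m / M * M) := by rw [h1]
    _ = m / M * (j % M) := Nat.mul_mod_mul_left _ _ _

private theorem div_pos' (hM : M ∣ m) : 0 < m / M :=
  Nat.div_pos (Nat.le_of_dvd (Nat.pos_of_ne_zero (NeZero.ne m)) hM) (Nat.pos_of_ne_zero (NeZero.ne M))

private theorem eq_iff (hM : M ∣ m) (j j' : ℕ) :
    ((m / M * j : ℕ) : ZMod m) = ((m / M * j' : ℕ) : ZMod m) ↔ j % M = j' % M := by
  constructor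
  · intro h
    have h1 := congrArg ZMod.val h
    rw [val_mul hM, val_mul hM] at h1
    exact Nat.eq_of_mul_eq_mul_left (div_pos' hM) h1
  · intro h
    apply ZMod.val_injective
    rw [val_mul hM, val_mul hM, h]

private theorem eq_zero_iff (hM : M ∣ m) (j : ℕ) : ((m / M * j : ℕ) : ZMod m) = 0 ↔ j % M = 0 := by
  have h := eq_iff hM j 0
  rw [Nat.mul_zero, Nat.cast_zero, Nat.zero_mod] at h
  exact h

private theorem sz_mul (hM : M ∣ m) (j : ℕ) (hj : j % M ≠ 0) :
    sz ((m / M * j : ℕ) : ZMod m) = ((j % M : ℕ) : ℚ) / M - 1 / 2 := by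
  unfold sz
  rw [if_neg (fun h => hj ((eq_zero_iff hM j).1 h)), val_mul hM]
  have h1 : ((m / M : ℕ) : ℚ) ≠ 0 := by exact_mod_cast (div_pos' hM).ne'
  have h2 : (M : ℚ) ≠ 0 := by exact_mod_cast NeZero.ne M
  have h3 : (m : ℚ) = (m / M : ℕ) * M := by
    rw [← Nat.cast_mul, Nat.div_mul_cancel hM]
  rw [h3]
  push_cast
  field_simp

private theorem cnt_aa (hM : M ∣ m) (ks : List ℕ) (hlt : ∀ k ∈ ks, 0 < k ∧ k < M) (w : ℕ) (hw : w < M) :
    cnt (aa m M ks) ((m / M * w : ℕ) : ZMod m) =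
      ((univ.filter (fun i : Fin ks.length => ks.get i = w)).card : ℤ) := by
  unfold cnt
  congr 2
  ext i
  simp only [mem_filter, mem_univ, true_and]
  unfold aa
  rw [eq_iff hM, Nat.mod_eq_of_lt hw, Nat.mod_eq_of_lt (hlt _ (List.get_mem _ _)).2]

omit [NeZero m] [NeZero M] in
private theorem neg_mul' (hM : M ∣ m) (v : ℕ) (hv : v ≤ M) :
    -((m / M * v : ℕ) : ZMod m) = ((m / M * (M - v) : ℕ) : ZMod m) := by
  rw [neg_eq_iff_add_eq_zero, ← Nat.cast_add, ← Nat.mul_add, Nat.add_sub_cancel' hv,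
    Nat.div_mul_cancel hM, ZMod.natCast_self]

private theorem sum_get {A : Type*} [AddCommMonoid A] (l : List ℕ) (f : ℕ → A) :
    ∑ i : Fin l.length, f (l.get i) = (l.map f).sum := by
  simp

private theorem sum_zero (ks : List ℕ) (t : ℕ)
    (hs : 2 * (ks.map fun k => t * k % M).sum = M * ks.length) :
    ∑ i : Fin ks.length, (((t * ks.get i % M : ℕ) : ℚ) / M - 1 / 2) = 0 := by
  have h2 : (M : ℚ) ≠ 0 := by exact_mod_cast NeZero.ne M
  have h3 : ∑ i : Fin ks.length, (t * ks.get i % M) = (ks.map fun k => t * k % M).sum := by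
    rw [sum_get ks (fun k => t * k % M)]
  rw [Finset.sum_sub_distrib, ← Finset.sum_div, ← Nat.cast_sum, h3]
  have h4 : (2 : ℚ) * ((ks.map fun k => t * k % M).sum : ℕ) = M * ks.length := by exact_mod_cast hs
  simp only [Finset.sum_const, Finset.card_univ, Fintype.card_fin, nsmul_eq_mul]
  field_simp
  linarith

end

private theorem count_get (ks : List ℕ) (w : ℕ) :
    (univ.filter (fun i : Fin ks.length => ks.get i = w)).card = ks.count w := by
  rw [Finset.card_filter, sum_get ks (fun k => if k = w then 1 else 0)]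
  induction ks with
  | nil => rfl
  | cons a ks ih =>
    rw [List.map_cons, List.sum_cons, ih, List.count_cons, add_comm]
    congr 1
    by_cases h : a = w
    · rw [if_pos h, if_pos (beq_iff_eq.2 h)]
    · rw [if_neg h, if_neg (fun h' => h (beq_iff_eq.1 h'))]

/-- `[k/110] + [(k + 55)/110] - [2 k/110]`. -/
private theorem dd (k k' l : ℕ) (hk : ¬ 110 ∣ 2 * k) (h1 : k' % 110 = (k + 55) % 110)
    (h2 : l % 110 = 2 * k % 110) :
    Finsupp.single (Pool.Agent.FT.pt 110 k) (1 : ℤ) + Finsupp.single (Pool.Agent.FT.pt 110 k') 1 -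
      Finsupp.single (Pool.Agent.FT.pt 110 l) 1 ∈ HD := by
  obtain ⟨-, p2, p3, p4, p5, -, -, -⟩ := Pool.Agent.FT.hPt
  have h := (Pool.Agent.FT.hHDf).2.1 2 (Pool.Agent.FT.pt 110 k) (by norm_num) (by
    rw [p4, Ne, p3 110 (2 * k) (by norm_num)]
    exact hk)
  have e : Finset.Ico 1 2 = {1} := rfl
  rw [e, Finset.sum_singleton, p5 110 k 2 1 (by norm_num) (by norm_num), p4] at h
  have e1 : Pool.Agent.FT.pt 110 (k + 1 * (110 / 2)) = Pool.Agent.FT.pt 110 k' := by
    rw [p2 110 _ _ (by norm_num)]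
    unfold Nat.ModEq
    rw [h1]
  have e2 : Pool.Agent.FT.pt 110 (2 * k) = Pool.Agent.FT.pt 110 l := by
    rw [p2 110 _ _ (by norm_num)]
    unfold Nat.ModEq
    rw [h2]
  rw [e1, e2] at h
  exact h

/-- `[k/110] + [k'/110]`, `k + k' = 0` modulo `110`. -/
private theorem ee (k k' : ℕ) (hk : ¬ 110 ∣ k) (h : 110 ∣ k + k') :
    Finsupp.single (Pool.Agent.FT.pt 110 k) (1 : ℤ) + Finsupp.single (Pool.Agent.FT.pt 110 k') 1 ∈ HD := by
  obtain ⟨-, p2, p3, p4, p5, -, -, p8⟩ := Pool.Agent.FT.hPt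
  have h1 := (Pool.Agent.FT.hHDf).1 (Pool.Agent.FT.pt 110 k) (by
    rw [Ne, p3 110 k (by norm_num)]
    exact hk)
  rw [p8 110 k k' (by norm_num) h]
  exact h1

private theorem tr {A : AddSubgroup (UnitAddCircle →₀ ℤ)} {x y : UnitAddCircle →₀ ℤ} (h : y ∈ A)
    (e : x = y) : x ∈ A := by
  rw [e]
  exact h

private theorem HD_le : HD ≤ G14 := le_sup_left.trans le_sup_left

/-- The class. -/
private theorem cls : (([1, 12, 16, 26, 27, 31, 36, 37, 42, 47] : List ℕ).map fun k =>
    Finsupp.single (Pool.Agent.FT.pt 55 k) (1 : ℤ)).sum ∈ G14 := by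
  have hg : (([1, 24, 62, 71, 81, 91] : List ℕ).map fun k =>
      Finsupp.single (Pool.Agent.FT.pt 110 (1 * k)) (1 : ℤ)).sum ∈ G14 :=
    AddSubgroup.mem_sup_right (AddSubgroup.subset_closure ⟨1, Nat.coprime_one_left _, rfl⟩)
  have hp : ∀ k : ℕ, Pool.Agent.FT.pt 55 k = Pool.Agent.FT.pt 110 (k * 2) := by
    intro k
    obtain ⟨-, -, -, -, -, p6, -, -⟩ := Pool.Agent.FT.hPt
    rw [p6 110 55 k (by norm_num) ⟨2, rfl⟩]
  have a1 := HD_le (dd 1 56 2 (by norm_num) (by norm_num) (by norm_num))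
  have a2 := HD_le (dd 71 16 32 (by norm_num) (by norm_num) (by norm_num))
  have a3 := HD_le (dd 81 26 52 (by norm_num) (by norm_num) (by norm_num))
  have a4 := HD_le (dd 91 36 72 (by norm_num) (by norm_num) (by norm_num))
  have b1 := HD_le (ee 54 56 (by norm_num) (by norm_num))
  have b2 := HD_le (ee 94 16 (by norm_num) (by norm_num))
  have b3 := HD_le (ee 84 26 (by norm_num) (by norm_num))
  have b4 := HD_le (ee 74 36 (by norm_num) (by norm_num))
  have c1 := G14.sub_mem b1 a1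
  have c2 := G14.sub_mem b2 a2
  have c3 := G14.sub_mem b3 a3
  have c4 := G14.sub_mem b4 a4
  have hall := G14.add_mem hg (G14.add_mem (G14.add_mem c1 c2) (G14.add_mem c3 c4))
  simp only [hp]
  simp only [List.map_cons, List.map_nil, List.sum_cons, List.sum_nil, one_mul, add_zero, Nat.reduceMul]
    at hall ⊢
  refine tr hall ?_
  abel

/-- One tuple. -/
private theorem one (m M : ℕ) [NeZero m] [NeZero M] (hM : M ∣ m) (ks : List ℕ)
    (hq : (ks.map fun k => Finsupp.single (Pool.Agent.FT.pt M (1 * k)) (1 : ℤ)).sum ∈ G14) (hM1 : 1 < M)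
    (hlt : ∀ k ∈ ks, 0 < k ∧ k < M)
    (hsum : ∀ u < M, u.Coprime M → 2 * (ks.map fun k => u * k % M).sum = M * ks.length) :
    ∃ g : ZMod m → ℤ, InA G14 g ∧ IsOdd g ∧ Rl g ∧ (∀ x, g x ≠ 0 → addOrderOf x ∣ M) ∧
    ∀ u : (ZMod M)ˣ, g (el m M u) = (ks.count (u : ZMod M).val : ℤ) -
      ks.count (M - (u : ZMod M).val) := by
  classical
  obtain ⟨t1, t2, _, _, t5, t6⟩ := hTup m (Fin ks.length) (aa m M ks)
  have hne : ∀ i, aa m M ks i ≠ 0 := by
    intro i h
    have h1 := (eq_zero_iff hM _).1 h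
    have h2 := hlt _ (List.get_mem ks i)
    rw [Nat.mod_eq_of_lt h2.2] at h1
    omega
  refine ⟨fun x => cnt (aa m M ks) x - cnt (aa m M ks) (-x), ⟨cnt (aa m M ks), t6 hne, fun x => rfl, ?_⟩,
    t1, ?_, ?_, ?_⟩
  · rw [← t5]
    have h1 : ∀ k : ℕ, ZMod.toAddCircle ((m / M * k : ℕ) : ZMod m) = Pool.Agent.FT.pt M (1 * k) := by
      intro k
      rw [ZMod.toAddCircle_natCast]
      unfold Pool.Agent.FT.pt
      congr 1
      have h2 : (M : ℝ) ≠ 0 := by exact_mod_cast NeZero.ne M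
      have h3 : ((m / M : ℕ) : ℝ) ≠ 0 := by exact_mod_cast (div_pos' hM).ne'
      have h4 : (m : ℝ) = (m / M : ℕ) * M := by
        rw [← Nat.cast_mul, Nat.div_mul_cancel hM]
      rw [h4, one_mul]
      push_cast
      field_simp
    unfold clt
    have h5 := sum_get ks
      (fun k => Finsupp.single (Pool.Agent.FT.pt M (1 * k)) (1 : ℤ))
    rw [← h5] at hq
    refine tr hq ?_
    refine Finset.sum_congr rfl fun i _ => ?_
    unfold aa
    rw [h1]
  · intro t
    rw [t2]
    have hu : Nat.Coprime (t : ZMod m).val m := ZMod.val_coe_unit_coprime t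
    have huM : Nat.Coprime (t : ZMod m).val M := hu.coprime_dvd_right hM
    have h0 : ∀ i, sz ((t : ZMod m) * aa m M ks i) =
        ((((t : ZMod m).val % M) * ks.get i % M : ℕ) : ℚ) / M - 1 / 2 := by
      intro i
      have h1 : (t : ZMod m) * aa m M ks i = ((m / M * ((t : ZMod m).val * ks.get i) : ℕ) : ZMod m) := by
        unfold aa
        nth_rewrite 1 [← ZMod.natCast_zmod_val (t : ZMod m)]
        push_cast
        ring
      have h2 := hlt _ (List.get_mem ks i)
      have h3 : (t : ZMod m).val * ks.get i % M ≠ 0 := by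
        intro h
        have h4 : M ∣ ks.get i := huM.symm.dvd_of_dvd_mul_left (Nat.dvd_of_mod_eq_zero h)
        have h5 := Nat.le_of_dvd h2.1 h4
        omega
      rw [h1, sz_mul hM _ h3, Nat.mod_mul_mod]
    rw [Finset.sum_congr rfl fun i _ => h0 i]
    have hc : ((t : ZMod m).val % M).Coprime M := by
      have h5 := Nat.gcd_rec M (t : ZMod m).val
      unfold Nat.Coprime at huM ⊢
      rw [Nat.gcd_comm] at huM
      rw [← h5, huM]
    rw [sum_zero ks _ (hsum _ (Nat.mod_lt _ (Nat.pos_of_ne_zero (NeZero.ne M))) hc), mul_zero]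
  · intro x hx
    have hord : ∀ i, addOrderOf (aa m M ks i) ∣ M := by
      intro i
      apply addOrderOf_dvd_of_nsmul_eq_zero
      unfold aa
      rw [nsmul_eq_mul, ← Nat.cast_mul]
      have h1 : M * (m / M * ks.get i) = m * ks.get i := by
        rw [← Nat.mul_assoc, Nat.mul_div_cancel' hM]
      rw [h1, Nat.cast_mul, ZMod.natCast_self, zero_mul]
    have hc : ∀ y, cnt (aa m M ks) y ≠ 0 → ∃ i, aa m M ks i = y := by
      intro y hy
      by_contra hcon
      push Not at hcon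
      apply hy
      unfold cnt
      rw [Finset.filter_eq_empty_iff.2 (fun i _ => hcon i)]
      rfl
    by_cases h1 : cnt (aa m M ks) x = 0
    · have h2 : cnt (aa m M ks) (-x) ≠ 0 := by
        intro h2
        apply hx
        change cnt (aa m M ks) x - cnt (aa m M ks) (-x) = 0
        rw [h1, h2, sub_zero]
      obtain ⟨i, hi⟩ := hc _ h2
      have h3 := hord i
      rwa [hi, addOrderOf_neg] at h3
    · obtain ⟨i, hi⟩ := hc _ h1
      rw [← hi]
      exact hord i
  · intro u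
    have hel : el m M u = ((m / M * (u : ZMod M).val : ℕ) : ZMod m) := by
      unfold el
      push_cast
      rfl
    have hul : (u : ZMod M).val < M := ZMod.val_lt _
    have hu0 : 0 < (u : ZMod M).val := by
      rcases Nat.eq_zero_or_pos (u : ZMod M).val with h | h
      · have h1 := ZMod.val_coe_unit_coprime u
        rw [h, Nat.coprime_zero_left] at h1
        omega
      · exact h
    change cnt (aa m M ks) (el m M u) - cnt (aa m M ks) (-el m M u) = _
    rw [hel, neg_mul' hM _ hul.le, cnt_aa hM ks hlt _ hul, cnt_aa hM ks hlt _ (by omega),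
      count_get, count_get]

private theorem chk : (∀ k ∈ ([1, 12, 16, 26, 27, 31, 36, 37, 42, 47] : List ℕ), 0 < k ∧ k < 55) ∧
    ∀ u < 55, u.Coprime 55 → 2 * (([1, 12, 16, 26, 27, 31, 36, 37, 42, 47] : List ℕ).map
      fun k => u * k % 55).sum = 55 * ([1, 12, 16, 26, 27, 31, 36, 37, 42, 47] : List ℕ).length := by
  decide +kernel

end GG55Aux

open GG55Aux in
theorem pG55 : S_G55 := by
  intro m _ hm
  have hc := cls
  refine one m 55 hm [1, 12, 16, 26, 27, 31, 36, 37, 42, 47] ?_ (by norm_num) chk.1 chk.2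
  simp only [one_mul]
  exact hc

end Pool.Agent.FO
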