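import Pool.Agent.Lib.MP_640417_ag.GT.SpecK

/-! # Theorem GT for functions: the induction -/

set_option autoImplicit false

open Finset Pool.Agent.FC

namespace Pool.Agent.FO

namespace GGTAux

theorem od_sub {m : ℕ} {f g : ZMod m → ℤ} (hf : IsOdd f) (hg : IsOdd g) :
    IsOdd fun x => f x - g x := by
  intro x
  have h1 := hf x
  have h2 := hg x
  show f (-x) - g (-x) = -(f x - g x)
  rw [h1, h2]
  ring

theorem P_sub {m : ℕ} [NeZero m] (f g : ZMod m → ℤ) (t : ZMod m) :
    P (fun x => f x - g x) t = P f t - P g t := by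
  unfold P
  rw [← sum_sub_distrib]
  refine sum_congr rfl fun x _ => ?_
  push_cast
  ring

theorem rl_sub {m : ℕ} [NeZero m] {f g : ZMod m → ℤ} (hf : Rl f) (hg : Rl g) :
    Rl fun x => f x - g x := by
  intro t
  rw [P_sub, hf t, hg t, sub_zero]

theorem main (hInA : S_InA) (hChkB : S_ChkB) (hStK : S_StK) (m : ℕ) [NeZero m]
    (A : AddSubgroup (UnitAddCircle →₀ ℤ)) (Al : Finset ℕ → Prop) (hG : GdA m A Al) :
    ∀ (D : ℕ) (f : ZMod m → ℤ), IsOdd f → Rl f → Chk Al f →
      (∀ x, f x ≠ 0 → addOrderOf x ≤ D) → InA A f := by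
  have hHD : HD ≤ A := hG.1
  intro D
  induction D with
  | zero =>
    intro f _ _ _ hD
    have h0 : ∀ x, f x = 0 := by
      intro x
      by_contra hx
      have h1 := hD x hx
      have h2 : 0 < addOrderOf x := addOrderOf_pos x
      omega
    have h3 : f = fun _ => 0 := funext h0
    rw [h3]
    exact (hInA m A hHD f f).2.2.1
  | succ D ih =>
    intro f hf hr hc hD
    by_cases hex : ∃ x, f x ≠ 0 ∧ addOrderOf x = D + 1
    · obtain ⟨x0, hx0, hox⟩ := hex
      have hdm : D + 1 ∣ m := by
        have h1 : addOrderOf x0 ∣ Fintype.card (ZMod m) := addOrderOf_dvd_card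
        rwa [hox, ZMod.card] at h1
      have fin : ∀ h : ZMod m → ℤ, InA A h → IsOdd h → Rl h → Chk Al (fun x => f x - h x) →
          (∀ x, f x - h x ≠ 0 → addOrderOf x < D + 1) → InA A f := by
        intro h h1 h2 h3 h4 h5
        have h6 := ih (fun x => f x - h x) (od_sub hf h2) (rl_sub hr h3) h4
          (fun x hx => Nat.lt_succ_iff.1 (h5 x hx))
        have h7 := (hInA m A hHD h (fun x => f x - h x)).2.1 h1 h6
        have h8 : (fun x => h x + (f x - h x)) = f := by
          funext x
          ring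
        rwa [h8] at h7
      have h1D : 1 < D + 1 := by
        by_contra hlt
        have h1 : addOrderOf x0 = 1 := by omega
        rw [AddMonoid.addOrderOf_eq_one_iff] at h1
        have h2 := hf x0
        rw [h1, neg_zero] at h2
        apply hx0
        rw [h1]
        omega
      by_cases h2 : (D + 1) % 4 = 2
      · obtain ⟨h, hh, hlt, -⟩ := pStepBG m (D + 1) hdm h2 f hf hD
        have h3 := (hHoBas m h h).1 hh
        exact fin h ((hInA m A hHD h h).1 hh) h3.1 h3.2 ((hChkB m A Al hG f hc).1 h hh) hlt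
      · have h3 : ¬ 2 ∣ D + 1 ∨ 4 ∣ D + 1 := by omega
        haveI : NeZero (D + 1) := ⟨by omega⟩
        obtain ⟨h, k1, k2, k3, k4, k5⟩ := hStK m A Al hG (D + 1) hdm h1D h3 f hf hr hD hc
        exact fin h k1 k2 k3 k4 k5
    · refine ih f hf hr hc fun x hx => ?_
      have h1 := hD x hx
      have h2 : addOrderOf x ≠ D + 1 := fun h => hex ⟨x, hx, h⟩
      omega

end GGTAux

theorem pGT (hInA : S_InA) (hChkB : S_ChkB) (hStK : S_StK) : S_GT := by
  intro m _ A Al hG f hf hr hc
  refine GGTAux.main hInA hChkB hStK m A Al hG m f hf hr hc fun x _ => ?_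
  have h1 : addOrderOf x ∣ Fintype.card (ZMod m) := addOrderOf_dvd_card
  rw [ZMod.card] at h1
  exact Nat.le_of_dvd (Nat.pos_of_ne_zero (NeZero.ne m)) h1

end Pool.Agent.FO
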