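import Pool.Agent.Lib.MP_640417_ag.GT.SpecL

/-!
# Theorem GT, part L: Theorem GT6 (length at most 6, all levels)
-/

set_option autoImplicit false

noncomputable section

open Finset Pool.Agent.FC

namespace Pool.Agent.FO

theorem pGT6 (hInA : S_InA) (hGT : S_GT) (hGmA : S_GmA) (hGmB : S_GmB) (hCrN : S_CrN) (hChN : S_ChN)
    (hNm6 : S_Nm6) (hBC1 : S_BC1) (hBC2 : S_BC2) (hBC3 : S_BC3) : S_GT6 := by
  intro m _ ι _ a hc ha hSt
  obtain ⟨t1, t2, -, -, t5, t6⟩ := hTup m ι a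
  have hRl : Rl (fun x => cnt a x - cnt a (-x)) := by
    intro t
    rw [t2, hSt t, mul_zero]
  have key : ∀ T, Ess m T → T ∉ pl → (T = {5, 11} → ¬ 110 ∣ m) →
      ChT T fun x => cnt a x - cnt a (-x) := by
    intro T hT hpl h511
    by_cases h1 : T = {5, 13}
    · rw [h1]
      exact hBC1 m ι a hc ha hSt
    by_cases h2 : T = {3, 23}
    · rw [h2]
      exact hBC2 m ι a hc ha hSt
    by_cases h3 : T = {2, 3, 5, 7}
    · rw [h3]
      exact hBC3 m ι a hc ha hSt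
    exact hChN m 6 T (hCrN m 6 T hT (hNm6 m 6 (Nat.pos_of_ne_zero (NeZero.ne m)) le_rfl T hT hpl h511
      h1 h2 h3)) ι a hc
  have fin : ∀ (A : AddSubgroup (UnitAddCircle →₀ ℤ)) (Al : Finset ℕ → Prop), GdA m A Al →
      Chk Al (fun x => cnt a x - cnt a (-x)) → clt a ∈ A := by
    intro A Al hA hChk
    have hI := hGT m A Al hA _ t1 hRl hChk
    rw [t5]
    exact (hInA m A hA.1 (cnt a) (cnt a)).2.2.2 (t6 ha) hI
  refine ⟨fin G14 Al14 (hGmB m) ?_, fun h110 => fin G13 _ (hGmA m) ?_⟩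
  · intro T hT hAl
    exact key T hT (fun h => hAl (Or.inl h)) (fun h => absurd (Or.inr h) hAl)
  · intro T hT hAl
    exact key T hT hAl (fun _ => h110)

end Pool.Agent.FO
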