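import Pool.Agent.Lib.MP_640417_ag.GT.SpecL

/-!
# Theorem GT (parity functionals), part S: length at most 8, all levels

The sets `{3, 29}` and `{2, 3, 5, 7}` are excluded for length at most `8` and all levels (the only sets which are left in length `8` after the
pairs in `Al`).

Every `S_X : Prop` is to be proved as `theorem pX : S_X` or from the stated hypotheses. Proved facts which may be used directly: all theorems
available through the imports (`FO/Main.lean`, `FO/Fin2.lean`: `pDist`, `pEl`, `pElP`, `St_of_RelOn, RelOn_of_St, exists_toAddCircle,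
smul_toAddCircle` and so on). Templates: `GT/Mu2.lean`, `GT/Mu3.lean`, `GT/Bd2.lean`, `GT/Bd3.lean`, `GT/BC2.lean`, `GT/BC3.lean` (copy them).
-/

set_option autoImplicit false

noncomputable section

namespace Pool.Agent.FO

open Finset Pool.Agent.FC

/-! ## Part A: the pair `3, 29` -/

/-- the partial Stickelberger sum of the class `1` modulo `3` at the level `1740` -/
def sA (x : ZMod 1740) : ℚ :=
  ∑ t ∈ univ.filter (fun t : (ZMod 1740)ˣ => (t : ZMod 1740).val % 3 = 1), sz ((t : ZMod 1740) * x)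

/-- **Bounds for the pair `3, 29`.**  As `S_Mu2` (file `GT/Mu2.lean`), with `T = {3, 29}`, `kp T = 56`; if `87 ∤ n` both are `0`. Let `B = 28 ρ nc 1 |L| / kp (T ∪ L)`. By `S_MuK` `mu [3] 29 n ≤ B` and `14 mu [29] 3 n ≤ B`, and `3 mu [3] 29 n ≤ B` if `9 ∣ n`,
`29 (14 mu [29] 3 n) ≤ B` if `841 ∣ n`; `s mu [3] 29 n ≤ B` if `s ≠ 29` has a larger exponent than the minimal one. Values of `B`: `ρ = 2` (sets `L` without `2`): `L = ∅`: `2`; `L = {s}`: `4 / kap s`, which is `1` for `s = 5` and `≤ 2 / 3` for `s ≥ 7`; `|L| = 2`: `12 / kp L ≤ 12 / 24`;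
`|L| ≥ 3`: `56 nc < kp` (`S_Grw`, `k = 1`, `l = 3`, sets without `2`: `56 * 52 < 5760`), `B < 1`. `ρ = 1`: `L = ∅`: `1`; `L = {s}`: `2 / kap s`: `1` for `s = 2` and `≤ 1 / 2` otherwise; `|L| = 2`: `6 / kp L ≤ 6 / 8` (`3 ∉ L`); `|L| = 3`: `26 / kp L ≤ 26 / 48`; `|L| ≥ 4`: `28 nc < kp` (`S_Grw`,
`k = 1`, `l = 4`: `28 * 300 < 11520`). So `B ≤ 2`; `B = 2` only for `ρ = 2`, `L = ∅`, and then `n = 2 * 3 ^ a * 29 ^ b`, so `n = 174` or `9 ∣ n` or `841 ∣ n`. Otherwise `B ≤ 1`, with equality only for `ρ = 2`, `L = {5}`, or `ρ = 1`, `L = ∅` or `{2}`; if `mu [3] 29 n = 1` and `9 ∤ n`, `841 ∤ n` then no exponent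
is larger than the minimal one: `n = 870, 87, 348`.
Hypotheses you may use: `S_MuK`, `S_Kmn`, `S_Grw`. -/
def S_Mu4 : Prop := ∀ n : ℕ, 0 < n → mu [3] 29 n ≤ 2 ∧ 14 * mu [29] 3 n ≤ 2 ∧ (9 ∣ n → 3 * mu [3] 29 n ≤ 2) ∧
  (841 ∣ n → 29 * (14 * mu [29] 3 n) ≤ 2) ∧
  (n ≠ 174 → ¬ 9 ∣ n → ¬ 841 ∣ n → mu [3] 29 n ≤ 1 ∧ 14 * mu [29] 3 n ≤ 1 ∧
    (mu [3] 29 n = 1 → n = 87 ∨ n = 348 ∨ n = 870))

/-- **Level 1740.**  First part: as `S_Bd2` (file `GT/Bd2.lean`, level `1380 = 20 * 69`; now `1740 = 20 * 87`, `23` replaced by `29`, `276, 690` by `348, 870`): the values of `lam [3] 29` are, `x = (1740 / n) y`, `χ` the character modulo `3`: `χ(y), 2 χ(y), χ(y), χ(y)` for the orders `87, 174, 348, 870`, and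
`3 sA = -8 χ(y), -16 χ(y), -8 χ(y), -8 χ(y)`. Second part: `lam [3] 29 x = 0` because `29` or `3` does not divide the order (definition of `Ph`, or `S_LamB` (5)); finite check: `sA = 0` for the orders `2`, `58`, `3 sA = ± 224` for the order `6`. Verified numerically.
Hypotheses you may use: `S_UpsB`, `S_UpsL`, `S_LamB`. -/
def S_Bd4 : Prop := ∀ x : ZMod 1740,
  ((addOrderOf x = 174 ∨ addOrderOf x = 87 ∨ addOrderOf x = 348 ∨ addOrderOf x = 870) →
    (8 : ℚ) * lam [3] 29 x = -3 * sA x) ∧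
  ((addOrderOf x = 2 ∨ addOrderOf x = 6 ∨ addOrderOf x = 58) →
    lam [3] 29 x = 0 ∧ (sA x = 0 ∨ 3 * sA x = 224 ∨ 3 * sA x = -224))

/-- **The pair `3, 29`.**  Suppose not. As in `S_BC2` (file `GT/BC2.lean`): for all `t` and both functionals `2 ∑_i lam (t a_i) = (q - 1) z` with `z` odd, and `14 ≤ ∑ c_i`, `14 ≤ ∑ D_i` with `c_i = mu [3] 29 (ord a_i) ≤ 2`, `D_i = 14 mu [29] 3 (ord a_i) ≤ 2`. Put `u_i = 2 - c_i`, `v_i = 2 - D_i`,
`w_i = (3 / 4) u_i + (29 / 56) v_i ≥ 0`. If `ord a_i ≠ 174` then `w_i ≥ 1` (`S_Mu4`: `9 ∣ ord`: `u_i ≥ 4 / 3`; `841 ∣ ord`: `v_i ≥ 56 / 29`; otherwise `u_i, v_i ≥ 1`). With `N = card ι`: `∑ u_i ≤ 2 N - 14`, `∑ v_i ≤ 2 N - 14`, so `∑ w_i ≤ (2 N - 14) * 71 / 56`, which is `≤ 142 / 56 < 3` for `N = 8`, `0` for `N = 7`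
and negative for `N ≤ 6`. So `N ≥ 7`, at most two orders are not `174`, and none if `N = 7`.
(r = 0) All orders are `174`: `S_Low` with `s = 1740` and `S_Bd4`, `∑_i sA (b i) = 0` because of `St b`: `∑_i lam [3] 29 (b i) = 0`, `z = 0` for `t = 1`, a contradiction.
Let now `N = 8`. `St a` for `t = 1` (all `a_i ≠ 0`): `∑ (a_i).val = 4 m`, so `∑_i a_i = 0` in `ZMod m`.
(r = 2) Let `b, b'` be the two entries whose order is not `174`. The other six have `c_i, D_i ≤ 2`, so `c + c' ≥ 2` and `D + D' ≥ 2`. `174 b = -174 b'`, so `174 b` and `174 b'` have the same order. `9 ∣ ord b` if and only if `3 ∣ ord (174 b)` (`ord (174 b) = ord b / gcd (ord b, 174)`), so if `9 ∣ ord b` then also `9 ∣ ord b'`, and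
`c + c' ≤ 4 / 3`, a contradiction; the same for `841` (`29 ∣ ord (174 b)`): `D + D' ≤ 4 / 29`. So `c, c' ≤ 1` (`S_Mu4`), hence `c = c' = 1` and the orders of `b, b'` are in `{87, 348, 870}`; the contradiction as in the case `r = 0`.
(r = 1) Let `b` be the entry whose order is not `174`. `174 b = -∑ 174 a_i = 0`, so `ord b ∣ 174`. `87 a_i` is the element of order `2` for the seven others, so `87 b = -7 (87 a_i) ≠ 0` and `ord b ∤ 87`: `ord b` is even, `ord b ∈ {2, 6, 58}`. `S_Low` with `s = 1740` and `S_Bd4`: the sum over the seven others is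
`8 ∑ lam [3] 29 = -3 ∑ sA = 3 sA b` (`∑` over all eight is `0`), `lam [3] 29 b = 0`, so `8 * 14 z = 3 sA b ∈ {0, 224, -224}`, `z ∈ {0, 2, -2}`, a contradiction.
Hypotheses you may use: `S_LamB`, `S_TuL`, `S_EqM`, `S_Low`, `S_Mu4`, `S_Bd4`. -/
def S_BC4 : Prop := ∀ (m : ℕ) [NeZero m] (ι : Type) [Fintype ι] (a : ι → ZMod m), Fintype.card ι ≤ 8 → (∀ i, a i ≠ 0) →
  St a → ChT {3, 29} fun x => cnt a x - cnt a (-x)

/-! ## Part B: the set `2, 3, 5, 7` -/

/-- the signs modulo `4`, `3`, `5` -/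
def E7 (y : ℕ) : ℤ := (if y % 4 = 1 then 1 else -1) * (if y % 3 = 1 then 1 else -1) *
  (if y % 5 = 1 then 1 else if y % 5 = 4 then -1 else 0)

/-- the signs modulo `4`, `5`, `7` -/
def E3 (y : ℕ) : ℤ := (if y % 4 = 1 then 1 else -1) * (if y % 5 = 1 then 1 else if y % 5 = 4 then -1 else 0) *
  (if y % 7 = 1 then 1 else if y % 7 = 6 then -1 else 0)

/-- the signs modulo `3`, `5`, `7` -/
def E2 (y : ℕ) : ℤ := (if y % 3 = 1 then 1 else -1) * (if y % 5 = 1 then 1 else if y % 5 = 4 then -1 else 0) *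
  (if y % 7 = 1 then 1 else if y % 7 = 6 then -1 else 0)

/-- the coefficients of the Stickelberger sums for `lam [2, 3, 5] 7` -/
def c7 (y : ℕ) : ℚ := (E7 y : ℚ) / 4

/-- the coefficients for `lam [2, 5, 7] 3` (`191, 97, 173, 199, 347` are the inverses of `11, 13, 17, 19, 23` modulo `420`) -/
def c3 (y : ℕ) : ℚ := (-3 * (E3 y : ℚ) + 9 * E3 (191 * y) - 2 * E3 (97 * y) + 6 * E3 (173 * y) + E3 (199 * y) +
  8 * E3 (347 * y)) / 52

/-- the coefficients for the product of the signs modulo `3`, `5`, `7` -/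
def c2 (y : ℕ) : ℚ := (8 * (E2 y : ℚ) + 6 * E2 (191 * y) + E2 (97 * y) + 9 * E2 (173 * y) - 2 * E2 (199 * y) +
  3 * E2 (347 * y)) / 52

/-- normalised Stickelberger sums with coefficients depending on the class modulo `420` -/
def SN {m : ℕ} [NeZero m] (c : ℕ → ℚ) (x : ZMod m) : ℚ :=
  96 / (m.totient : ℚ) * ∑ t : (ZMod m)ˣ, c ((t : ZMod m).val % 420) * sz ((t : ZMod m) * x)

/-- the mean of the absolute values of `Λ (t x)` -/
def mt {m : ℕ} [NeZero m] (Λ : ZMod m → ℚ) (x : ZMod m) : ℚ := (∑ t : (ZMod m)ˣ, |Λ ((t : ZMod m) * x)|) / m.totient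

/-- `lam [2, 3, 5] 7`, corrected by a Stickelberger sum -/
def f7 {m : ℕ} [NeZero m] (x : ZMod m) : ℚ := lam [2, 3, 5] 7 x + SN c7 x

/-- `lam [2, 5, 7] 3`, corrected by a Stickelberger sum -/
def f3 {m : ℕ} [NeZero m] (x : ZMod m) : ℚ := lam [2, 5, 7] 3 x + SN c3 x

/-- **Bounds for the set `2, 3, 5, 7`.**  As `S_Mu3` (file `GT/Mu3.lean`), `T = {2, 3, 5, 7}`, `kp T = 96`; if `420 ∤ n` all are `0`; `ρ = 1`. `S_MuK`: `mu [2, 3, 5] 7 n ≤ 6 nc 3 |L| / kp`, `mu [2, 3, 7] 5 n ≤ 4 nc / kp`, `mu [2, 5, 7] 3 n ≤ 2 nc / kp`; with `B = 12 nc 3 |L| / kp (T ∪ L)` the bounds are `B / 2, B / 3, B / 6`.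
`B ≤ 1`; `L = ∅`: `B = 1`; `L = {s}`, `s ≥ 11`: `B = 6 / kap s ≤ 3 / 5`; `|L| ≥ 2`: `20 nc 3 |L| < kp` (`S_Grw`, `k = 3`, `l = 2`: `20 * 336 < 11520`), `B < 3 / 5`. Second part: the sum `mu [2, 3, 5] 7 + mu [2, 3, 7] 5 + 3 mu [2, 5, 7] 3` is `≤ 4 B / 3 ≤ 4 / 5 < 5 / 6` if `L ≠ ∅`. If `L = ∅` and `n ≠ 420` then some prime `s ∈ T` has a
larger exponent than in `420` (`S_MuK`, last part, with a factor `1 / s` for the functionals with `q ≠ s`): `8 ∣ n`: `≤ (4 / 3) / 2`; `9 ∣ n`: `≤ 1 / 6 + 1 / 9 + 1 / 2 = 7 / 9`; `25 ∣ n`: `≤ 1 / 10 + 1 / 3 + 1 / 10`; `49 ∣ n`: `≤ 1 / 2 + 1 / 21 + 1 / 14`: all `< 5 / 6`.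
Hypotheses you may use: `S_MuK`, `S_Kmn`, `S_Grw`. -/
def S_Mu5 : Prop := ∀ n : ℕ, 0 < n →
  mu [2, 3, 5] 7 n ≤ 1 / 2 ∧ mu [2, 3, 7] 5 n ≤ 1 / 3 ∧ mu [2, 5, 7] 3 n ≤ 1 / 6 ∧
  (¬ 420 ∣ n → mu [2, 3, 5] 7 n = 0 ∧ mu [2, 3, 7] 5 n = 0 ∧ mu [2, 5, 7] 3 n = 0) ∧
  (n ≠ 420 → mu [2, 3, 5] 7 n + mu [2, 3, 7] 5 n + 3 * mu [2, 5, 7] 3 n < 5 / 6)

/-- **Level 420, the functional of `7`.**  Order `420`: `lam [2, 3, 5] 7 x = E7 x.val` (as in `S_Bd3`, file `GT/Bd3.lean`). Here `φ(420) = 96`, so `SN c7 x = ∑_t c7(t) sz(t x)`. Finite checks (multiply by `4 * 840`). Verified numerically: the absolute value is `3` for order `60`.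
Hypotheses you may use: `S_UpsB`. -/
def S_F7 : Prop := ∀ x : ZMod 420, (addOrderOf x = 420 → SN c7 x = -lam [2, 3, 5] 7 x) ∧
  (addOrderOf x ≠ 420 → addOrderOf x ≠ 60 → SN c7 x = 0) ∧ (addOrderOf x = 60 → |SN c7 x| ≤ 3)

/-- **Level 420, the functional of `3`.**  Order `420`: `lam [2, 5, 7] 3 x = E3 x.val` (`L = ∅`, `S_UpsB` (5), as in `GT/Bd3.lean`). `SN c3 x = ∑_t c3(t) sz(t x)`. Finite checks (multiply by `52 * 840`). Verified numerically: the absolute value is `1` for order `140`.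
Hypotheses you may use: `S_UpsB`. -/
def S_F3 : Prop := ∀ x : ZMod 420, (addOrderOf x = 420 → SN c3 x = -lam [2, 5, 7] 3 x) ∧
  (addOrderOf x ≠ 420 → addOrderOf x ≠ 140 → SN c3 x = 0) ∧ (addOrderOf x = 140 → |SN c3 x| ≤ 1)

/-- **Level 420, the parity.**  Order `420`: `SN c2 x = -E2 x.val` (finite check), `lam [2, 5, 7] 3 x = E3 x.val`, and `E2 y`, `E3 y` have the same parity for odd `y` prime to `3` (both are `± 1` if `y` is `± 1` modulo `5` and modulo `7`, otherwise both are `0`). Orders `60`, `140`: `SN c2 x = 0` (finite check), `lam [2, 5, 7] 3 x = 0` because `420` does not divide the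
order (definition of `Ph`, or `S_LamB` (5)); `k = 0`. Verified numerically.
Hypotheses you may use: `S_UpsB`, `S_LamB`. -/
def S_F2 : Prop := ∀ x : ZMod 420, (addOrderOf x = 420 ∨ addOrderOf x = 60 ∨ addOrderOf x = 140) →
  ∃ k : ℤ, SN c2 x = -((lam [2, 5, 7] 3 x : ℚ) + 2 * k)

/-- **Units.**  Let `n = ord x`, `x = el m n u`, `y = el m n v` (`pEl` (3)). `pElP` (2): `v = k' u` with `k' ∈ Kp n p`, that is `k' ≡ 1` modulo `n / p`. Since the exponent of `p` in `n` is larger than in `420`, `gcd(n, 420)` divides `n / p`, so `k' ≡ 1` modulo `gcd(n, 420)`, and there is an integer `t0` with `t0 ≡ k'` modulo `n` and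
`t0 ≡ 1` modulo `420` (`Nat.chineseRemainder'` or `Int.exists_..`); it is prime to `lcm(n, 420)`, which divides `m`, so it can be changed modulo this number to be prime to `m` (`ZMod.unitsMap_surjective`). `k x = k' x = y` (`pEl` (4)). -/
def S_Ku : Prop := ∀ (m p : ℕ) [NeZero m], 420 ∣ m → p.Prime → ∀ x : ZMod m,
  Nat.factorization 420 p < (addOrderOf x).factorization p →
  ∀ y : ZMod m, (p : ZMod m) * y = p * x → addOrderOf y = addOrderOf x →
    ∃ k : (ZMod m)ˣ, (k : ZMod m).val % 420 = 1 ∧ y = (k : ZMod m) * x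

/-- **Averaging.**  (0) If `k` is a unit with `k.val % 420 = 1` then `SN c (k x) = SN c x` (substitute `t = t' k⁻¹`; `420 ∣ m`, `(t' k⁻¹).val ≡ t'.val` modulo `420`). By `S_Ku`, `SN c y = SN c x` for all `y` with `p y = p x` and `ord y = ord x`. `pDist` for `z = t x`, summed over `t` with `c(t)`: `∑_{y : p y = p x} SN c y = SN c (p x)` (for a unit `t` the map `y ↦ t y` is a
bijection from `{y | p y = p x}` to `{y | p y = p (t x)}`; second part of `S_Dist`, or directly). There are `p` solutions `y` (`p ∣ m`). Let `n = ord x`. Their orders are `n`, or `n / p` (only if `p ∤ n / p`) (`pElP` (4), `ord (p x) = n / p` by `pElP` (1)). If `p² ∣ n` all `p` solutions have order `n`: (1). If `p² ∤ n` exactly one solution `x'` has order `n / p`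
(`pElP` (5) for uniqueness; existence: `p` is invertible modulo `n / p`, so `p x = p x'` with `x'` a multiple of `p x`), and the `p - 1` others have order `n`: (2).
Hypotheses you may use: `S_Ku`. -/
def S_Kb : Prop := ∀ (c : ℕ → ℚ) (m p : ℕ) [NeZero m], 420 ∣ m → p.Prime → ∀ x : ZMod m,
  Nat.factorization 420 p < (addOrderOf x).factorization p →
  addOrderOf ((p : ZMod m) * x) = addOrderOf x / p ∧
  (p ^ 2 ∣ addOrderOf x → (p : ℚ) * SN c x = SN c ((p : ZMod m) * x)) ∧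
  (¬ p ^ 2 ∣ addOrderOf x → ∃ x' : ZMod m, addOrderOf x' = addOrderOf x / p ∧ (p : ZMod m) * x' = p * x ∧
    ((p : ℚ) - 1) * SN c x = SN c ((p : ZMod m) * x) - SN c x')

/-- **Means.**  (0) `mt Λ` has the same value at two elements of the same order (they are unit multiples of each other: `pEl` (3), (4), surjectivity of `ZMod.unitsMap`; substitute). Strong induction on `n = ord x`. If `n ∣ 420` then `gcd(n, 420) = n`, so `mt (SN c) x = mt (SN c) y` by (0). Otherwise there is a prime `p` with a larger exponent in `n` than in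
`420` (`Nat.factorization_le_iff_dvd`, or directly). Use `S_Kb` for all `t x` (same order): if `p² ∣ n`: `mt (SN c) x = mt (SN c) (p x) / p ≤ mt (SN c) (p x) / 2`. If `p² ∤ n` then `p ∤ 420`, so `p ≥ 11`; for `t x` the element `x'_t` has order `n / p` and `p x'_t = p t x`, so `x'_t = t x'_1` by uniqueness (`pElP` (5)), and
`(p - 1) mt (SN c) x ≤ mt (SN c) (p x) + mt (SN c) x'_1 = 2 mt (SN c) (p x)` by (0) (both have order `n / p`), so `mt (SN c) x ≤ mt (SN c) (p x) / 5`. `gcd(n / p, 420) = gcd(n, 420)`: apply the induction hypothesis (first part) to `p x`.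
Hypotheses you may use: `S_Kb`. -/
def S_Kc : Prop := ∀ (c : ℕ → ℚ) (m : ℕ) [NeZero m], 420 ∣ m → ∀ x y : ZMod m,
  addOrderOf y = Nat.gcd (addOrderOf x) 420 →
    mt (SN c) x ≤ mt (SN c) y ∧ (¬ addOrderOf x ∣ 420 → 2 * mt (SN c) x ≤ mt (SN c) y)

/-- **Transfer to the level 420.**  `x = (m / 420) y.val` for a unique `y : ZMod 420` (`x.val` is divisible by `m / 420` because `420 x = 0`); equal orders, and equal values of `lam` (as in `S_Low`, file `GT/Low.lean`). For the unit `t` of `ZMod m` with image `t'` in `ZMod 420`: `sz (t x) = sz (t' y)` (`(t x).val / m = (t' y).val / 420`), and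
`c ((t : ZMod m).val % 420) = c (t'.val % 420)`; `(ZMod m)ˣ → (ZMod 420)ˣ` is surjective with fibres of `φ(m) / 96` elements (`ZMod.unitsMap_surjective`; all fibres of a group homomorphism have the same size), and `φ(420) = 96`. -/
def S_Kd : Prop := ∀ (m : ℕ) [NeZero m], 420 ∣ m → ∀ x : ZMod m, addOrderOf x ∣ 420 →
  ∃ y : ZMod 420, addOrderOf y = addOrderOf x ∧ (∀ l q, lam l q y = lam l q x) ∧ ∀ c : ℕ → ℚ, SN c y = SN c x

/-- **The weight.**  Let `n = ord x`, `g = gcd(n, 420)`, `y` an element of order `g` (for example `(n / g) x`). `t x` and `t y` have the orders `n` and `g`.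
(a) `n = 420`: by `S_Kd`, `S_F7`, `S_F3` (for all `t x`) `f7 (t x) = 0 = f3 (t x)`, so both `mt` are `0`, and the rest is `≤ (2 / 2 + 3 / 3 + 6 / 6) / 3 = 1` by `S_Mu5`.
(b) `420 ∣ n`, `n ≠ 420`: `g = 420`, `mt f7 x ≤ (∑_t |lam [2, 3, 5] 7 (t x)|) / φ(m) + mt (SN c7) x ≤ mu [2, 3, 5] 7 n + mt (SN c7) y / 2` (`S_LamAv` and the definition of `mu`, as in the first lemma of `GT/EqM.lean`; `S_Kc`), and `|SN c7 (t y)| = |lam [2, 3, 5] 7 (t y)|` by (a), so `mt (SN c7) y ≤ mu [2, 3, 5] 7 420 ≤ 1 / 2`. So `mt f7 x ≤ mu [2, 3, 5] 7 n + 1 / 4`; in the same way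
`mt f3 x ≤ mu [2, 5, 7] 3 n + 1 / 12`. The weight is `≤ mu [2, 3, 5] 7 n + mu [2, 3, 7] 5 n + 3 mu [2, 5, 7] 3 n + 1 / 12 + 1 / 12 < 5 / 6 + 1 / 6 = 1` by `S_Mu5`.
(c) `420 ∤ n`: the `mu` are `0` and `lam (t x) = 0` (`S_LamAv` (2) or `S_LamB` (5), `dt = 420`), so `mt f7 x = mt (SN c7) x`, `mt f3 x = mt (SN c3) x`. `mt (SN c7) y` is `0` if `g ≠ 60` and `≤ 3` if `g = 60`; `mt (SN c3) y` is `0` if `g ≠ 140` and `≤ 1` if `g = 140` (`S_Kd`, `S_F7`, `S_F3`; `g ≠ 420`). So `mt f7 x / 3 + mt f3 x ≤ 1`, and if it is `1` then `g = 60` or `g = 140`, and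
`n ∣ 420` (otherwise a factor `1 / 2` by `S_Kc`), so `n = g`.
Hypotheses you may use: `S_LamB`, `S_LamAv`, `S_Mu5`, `S_F7`, `S_F3`, `S_Kc`, `S_Kd`. -/
def S_Rb : Prop := ∀ (m : ℕ) [NeZero m], 420 ∣ m → ∀ x : ZMod m,
  (2 * mu [2, 3, 5] 7 (addOrderOf x) + 3 * mu [2, 3, 7] 5 (addOrderOf x) + 6 * mu [2, 5, 7] 3 (addOrderOf x)) / 3 +
    mt f7 x / 3 + mt f3 x ≤ 1 ∧
  ((2 * mu [2, 3, 5] 7 (addOrderOf x) + 3 * mu [2, 3, 7] 5 (addOrderOf x) + 6 * mu [2, 5, 7] 3 (addOrderOf x)) / 3 +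
    mt f7 x / 3 + mt f3 x = 1 → addOrderOf x = 420 ∨ addOrderOf x = 60 ∨ addOrderOf x = 140)

/-- **The set `2, 3, 5, 7`.**  Suppose not. As in `S_BC3` (file `GT/BC3.lean`), for all `t`: `2 ∑_i lam [2, 3, 5] 7 (t a_i) = 6 z`, `2 ∑_i lam [2, 3, 7] 5 (t a_i) = 4 z'`, `2 ∑_i lam [2, 5, 7] 3 (t a_i) = 2 z''` with odd `z, z', z''`; so `3 ≤ ∑ mu [2, 3, 5] 7`, `2 ≤ ∑ mu [2, 3, 7] 5`, `1 ≤ ∑ mu [2, 5, 7] 3` (values at the orders of the `a_i`). If `420 ∤ m` all `mu` are `0`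
(`ord a_i ∣ m`, `S_Mu5`), a contradiction. So `420 ∣ m`. `∑_i SN c (t a_i) = 0` for all `c`, `t` by `St a` (exchange the sums), so `|∑_i f7 (t a_i)| = |∑_i lam [2, 3, 5] 7 (t a_i)| ≥ 3`, hence `∑_i mt f7 (a_i) ≥ 3`, and in the same way `∑_i mt f3 (a_i) ≥ 1`. So the sum over `i` of the weights of `S_Rb` is at least `(6 + 6 + 6) / 3 + 1 + 1 = 8`; each is at most `1` and `card ι ≤ 8`,
so all are `1` and all orders are `420`, `60` or `140`. `S_Low` with `s = 420`: `b : ι → ZMod 420`. `S_F2`: `SN c2 (b i) = -(lam [2, 5, 7] 3 (b i) + 2 k_i)`, and `∑_i SN c2 (b i) = 0` by `St b`, so `∑_i lam [2, 5, 7] 3 (b i) = -2 ∑ k_i` is even. But `2 ∑_i lam [2, 5, 7] 3 (b i) = 2 ∑_i lam [2, 5, 7] 3 (a i) = 2 z''` with `z''` odd (`t = 1`): a contradiction.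
Hypotheses you may use: `S_LamB`, `S_TuL`, `S_EqM`, `S_Low`, `S_Mu5`, `S_Rb`, `S_F2`. -/
def S_BC5 : Prop := ∀ (m : ℕ) [NeZero m] (ι : Type) [Fintype ι] (a : ι → ZMod m), Fintype.card ι ≤ 8 → (∀ i, a i ≠ 0) →
  St a → ChT {2, 3, 5, 7} fun x => cnt a x - cnt a (-x)

end Pool.Agent.FO
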