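import Pool.Agent.Lib.MP_640417_ag.GT.MainR
import Pool.Agent.Lib.MP_640417_ag.GT.SpecS

/-!
# Theorem GT: length at most 8, all levels
-/

set_option autoImplicit false

noncomputable section

namespace Pool.Agent.FO

open Finset Pool.Agent.FC

private lemma nb0 : nb 0 = 1 := by rw [nb_eq]; rfl

private lemma nb1 : nb 1 = 2 := by
  rw [nb_eq, Finset.sum_range_one, nb0]
  rfl

private lemma nc_succ' (k l : ℕ) :
    nc (k + 1) l = 2 * ∑ j ∈ range (l + 1), l.choose j * nb j * nc k (l - j) := rfl

private lemma nc0' (l : ℕ) : nc 0 l = if l = 0 then 1 else 0 := rfl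

private lemma nc1' (l : ℕ) : nc 1 l = 2 * nb l := by
  rw [show (1 : ℕ) = 0 + 1 from rfl, nc_succ', Finset.sum_range_succ]
  rw [Finset.sum_eq_zero, Nat.choose_self, Nat.sub_self, nc0', if_pos rfl]
  · ring
  · intro j hj
    have := Finset.mem_range.1 hj
    rw [nc0', if_neg (by omega), mul_zero]

private lemma ncz (k : ℕ) : nc (k + 1) 0 = 2 * nc k 0 := by
  rw [nc_succ', Finset.sum_range_one, nb0]
  simp

private lemma nc20 : nc 2 0 = 4 := by
  rw [ncz, nc1', nb0]

private lemma nc21 : nc 2 1 = 16 := by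
  rw [show (2 : ℕ) = 1 + 1 from rfl, nc_succ', Finset.sum_range_succ, Finset.sum_range_one,
    nc1', nc1', nb0, nb1]
  rfl

private lemma nc30 : nc 3 0 = 8 := by
  rw [ncz, nc20]

private lemma nc31 : nc 3 1 = 48 := by
  rw [show (3 : ℕ) = 2 + 1 from rfl, nc_succ', Finset.sum_range_succ, Finset.sum_range_one,
    nb0, nb1, nc21, show 1 - 1 = 0 from rfl, nc20]
  rfl

private lemma nc50 : nc 5 0 = 32 := by
  rw [ncz, ncz, nc30]

/-- the sets of primes, length at most `8` -/
theorem nm8 (hMx : S_Mx) (hNcR : S_NcR) (hKmn : S_Kmn) (hGrw : S_Grw) (m : ℕ) : ∀ T, Ess m T →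
    AlF T ∨ T = {3, 29} ∨ T = {2, 3, 5, 7} ∨ Crt m 8 T := by
  classical
  intro T hT
  obtain ⟨hT1, hT2, hT3, hT4⟩ := id hT
  have hTp : ∀ s ∈ T, s.Prime := fun s hs => Nat.prime_of_mem_primeFactors (hT1 hs)
  obtain ⟨c, hc⟩ := hT4
  have hc0 : 0 < c := by
    have := hT3.card_pos
    omega
  by_cases hAl : AlF T
  · exact Or.inl hAl
  by_cases h29 : T = {3, 29}
  · exact Or.inr (Or.inl h29)
  by_cases h2357 : T = {2, 3, 5, 7}
  · exact Or.inr (Or.inr (Or.inl h2357))
  refine Or.inr (Or.inr (Or.inr ?_))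
  obtain ⟨-, -, -, -, -, kT6, -⟩ := hKmn T hTp
  rcases (show c = 1 ∨ 2 ≤ c by omega) with h | h2c
  · -- pairs
    subst h
    have hT2' : T.card = 2 := by omega
    obtain ⟨p, hp, q, hq, hpq⟩ := GPcAux.two_lt (show 2 ≤ T.card by omega)
    have hTe : T = {p, q} := by
      symm
      refine eq_of_subset_of_card_le ?_ ?_
      · intro y hy
        rw [mem_insert, mem_singleton] at hy
        rcases hy with rfl | rfl
        · exact hp
        · exact hq
      · rw [hT2', card_pair hpq.ne]
    have hEx : ¬ Ex p q := fun h => hAl (Or.inr ⟨p, q, hpq, hTe, h⟩)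
    have hn29 : ¬ (p = 3 ∧ q = 29) := by
      rintro ⟨rfl, rfl⟩
      exact h29 hTe
    have hk : (p = 2 → 14 ≤ hf q) ∧ (p ≠ 2 → 20 ≤ hf p * hf q) := by
      constructor
      · rintro rfl
        by_contra hcon
        push Not at hcon
        have h3 : hf 2 = 1 := rfl
        exact hEx (GPcAux.pair_small (hTp _ hp) (hTp _ hq) hpq hn29 (by rw [h3]; omega) fun _ => hcon)
      · intro hp2
        by_contra hcon
        push Not at hcon
        exact hEx (GPcAux.pair_small (hTp _ hp) (hTp _ hq) hpq hn29 hcon fun h => absurd h hp2)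
    have hkp : kp T = 4 * (hf p * hf q) := by
      rw [GPcAux.kp_hf hTp, hT2', hTe, prod_pair hpq.ne]
      norm_num
    refine GPcAux.crt_two hMx hNcR hKmn hTp hT2' ⟨?_, fun _ h2T => ?_⟩
    · rw [hkp]
      by_cases hp2 : p = 2
      · have h3 := hk.1 hp2
        subst hp2
        have h4 : hf 2 = 1 := rfl
        rw [h4]
        omega
      · have h3 := hk.2 hp2
        omega
    · have hp2 : p ≠ 2 := by
        rintro rfl
        exact h2T hp
      have h3 := hk.2 hp2
      rw [hkp]
      omega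
  · refine ⟨?_, ?_⟩
    · intro L hL hd h2L
      have hLp : ∀ s ∈ L, s.Prime := fun s hs => Nat.prime_of_mem_primeFactors (hL hs)
      have hUp : ∀ s ∈ T ∪ L, s.Prime := by
        intro s hs
        rcases Finset.mem_union.1 hs with h | h
        · exact hTp s h
        · exact hLp s h
      have hUc : (T ∪ L).card = T.card + L.card := Finset.card_union_of_disjoint hd
      change 16 * nc (T.card - 1) L.card < kp (T ∪ L)
      rcases (show c = 2 ∨ 3 ≤ c by omega) with h | h
      · subst h
        rw [show T.card - 1 = 3 by omega]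
        rcases (show L.card = 0 ∨ 1 ≤ L.card by omega) with h | h
        · rw [h, nc30, Finset.card_eq_zero.1 h, Finset.union_empty]
          have := kT6 (by omega) h2357
          omega
        · refine (hGrw (fun _ => True) (fun _ _ _ => trivial) 16 3 1 ?_).1 L.card h (T ∪ L) hUp
            trivial (by omega)
          intro S hS _ hSc
          have := (hKmn S hS).2.2.2.1 (by omega)
          rw [nc31]
          omega
      · have h1 := (hGrw (fun _ => True) (fun _ _ _ => trivial) 16 5 0 (by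
          intro S hS _ hSc
          have := (hKmn S hS).2.2.2.2.1 (by omega)
          rw [nc50]
          omega)).2 rfl (c - 3) L.card (T ∪ L) hUp trivial (by omega)
        rwa [show 5 + 2 * (c - 3) = T.card - 1 by omega] at h1
    · intro h2m h2T L hL hd
      have hLp : ∀ s ∈ L, s.Prime :=
        fun s hs => Nat.prime_of_mem_primeFactors (Finset.mem_of_mem_erase (hL hs))
      have h2L : 2 ∉ L := fun h => (Finset.mem_erase.1 (hL h)).1 rfl
      have hUp : ∀ s ∈ T ∪ L, s.Prime := by
        intro s hs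
        rcases Finset.mem_union.1 hs with h | h
        · exact hTp s h
        · exact hLp s h
      have h2U : 2 ∉ T ∪ L := by
        rw [Finset.mem_union]
        tauto
      have hUc : (T ∪ L).card = T.card + L.card := Finset.card_union_of_disjoint hd
      have hR : ∀ (S : Finset ℕ) (p : ℕ), 2 ∉ S → 2 ∉ S.erase p :=
        fun S p h h' => h (Finset.mem_of_mem_erase h')
      change 32 * nc (T.card - 1) L.card < kp (T ∪ L)
      have h1 := (hGrw (fun S => 2 ∉ S) hR 32 3 0 (by
        intro S hS h2S hSc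
        have := ((hKmn S hS).2.2.2.2.2.2.2.2 h2S).2.2.1 (by omega)
        rw [nc30]
        omega)).2 rfl (c - 2) L.card (T ∪ L) hUp h2U (by omega)
      rwa [show 3 + 2 * (c - 2) = T.card - 1 by omega] at h1

/-- **Length at most `8`, all levels.** -/
theorem pGT8 (hMx : S_Mx) (hNcR : S_NcR) (hKmn : S_Kmn) (hGrw : S_Grw) (hInA : S_InA) (hGT : S_GT) (hCrN : S_CrN)
    (hChN : S_ChN) (hBC4 : S_BC4) (hBC5 : S_BC5) (m : ℕ) [NeZero m] (hG : GdA m GF3 AlF) (ι : Type) [Fintype ι]
    (a : ι → ZMod m) (hc : Fintype.card ι ≤ 8) (ha : ∀ i, a i ≠ 0) (hSt : St a) : clt a ∈ GF3 := by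
  obtain ⟨t1, t2, -, -, t5, t6⟩ := hTup m ι a
  have hRl : Rl (fun x => cnt a x - cnt a (-x)) := by
    intro t
    rw [t2, hSt t, mul_zero]
  have hChk : Chk AlF (fun x => cnt a x - cnt a (-x)) := by
    intro T hT hAl
    rcases (nm8 hMx hNcR hKmn hGrw m T hT).resolve_left hAl with h | h | h
    · rw [h]
      exact hBC4 m ι a hc ha hSt
    · rw [h]
      exact hBC5 m ι a hc ha hSt
    · exact hChN m 8 T (hCrN m 8 T hT h) ι a hc
  have hI := hGT m GF3 AlF hG _ t1 hRl hChk
  rw [t5]
  exact (hInA m GF3 hG.1 (cnt a) (cnt a)).2.2.2 (t6 ha) hI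

end Pool.Agent.FO
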