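import Pool.Agent.Lib.MP_640417_ag.GT.SpecK

/-!
# Theorem GT, part K: Theorem GT for tuples
-/

set_option autoImplicit false

noncomputable section

open Finset Pool.Agent.FC

namespace Pool.Agent.FO

theorem pGTt (hLamT : S_LamT) (hInA : S_InA) (hGT : S_GT) : S_GTt := by
  intro m N _ A Al hA hC ι _ a hN ha hSt
  obtain ⟨t1, t2, -, -, t5, t6⟩ := hTup m ι a
  have hRl : Rl (fun x => cnt a x - cnt a (-x)) := by
    intro t
    rw [t2, hSt t, mul_zero]
  have hChk : Chk Al (fun x => cnt a x - cnt a (-x)) := by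
    intro T hT hAl
    obtain ⟨q, l, hPr, hmem, hin⟩ := hC T hT hAl
    obtain ⟨t, ht⟩ := hLamT l q m N hPr hin ι a hN
    refine ⟨q, l, t, hPr, hmem, fun z hz => ?_⟩
    rw [hz, abs_mul] at ht
    have hq1 : (1 : ℤ) ≤ (q : ℤ) - 1 := by
      have h2 := (hPr.2.1 q List.mem_cons_self).two_le
      have h3 : (2 : ℤ) ≤ q := by exact_mod_cast h2
      linarith
    rw [abs_of_pos (by linarith : (0 : ℤ) < (q : ℤ) - 1)] at ht
    have hz0 : |z| < 1 := by
      by_contra hcon
      push Not at hcon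
      nlinarith
    rw [Int.abs_lt_one_iff.1 hz0]
    exact dvd_zero 2
  have hI := hGT m A Al hA _ t1 hRl hChk
  rw [t5]
  exact (hInA m A hA.1 (cnt a) (cnt a)).2.2.2 (t6 ha) hI

end Pool.Agent.FO
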