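import Pool.Agent.Lib.MP_640417_ag.GT.SpecK
import Pool.Agent.Lib.MP_640417_ag.FO.Fin2

/-!
# Theorem GT (parity functionals), part L: length at most 6, all levels

The sets `{5, 13}`, `{3, 23}`, `{2, 3, 5, 7}` are excluded for all levels, so that only the class of `{5, 11}` remains.

Every `S_X : Prop` is to be proved as `theorem pX : S_X` or from the stated hypotheses. Proved facts which may be used directly: all theorems
available through the imports (part I: `gParC, gDecP, gCbB` and so on; `FO/Main.lean`; `FO/Fin2.lean`: `St_of_RelOn, RelOn_of_St,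
exists_toAddCircle, smul_toAddCircle` and so on).
-/

set_option autoImplicit false

noncomputable section

namespace Pool.Agent.FO

open Finset Pool.Agent.FC

/-! ## Definitions -/

/-- the bound for the mean value of the functional at the level `n` -/
def mu (l : List ℕ) (q n : ℕ) : ℚ := by
  classical
  exact if dt l q ∣ n then (cs l q n : ℚ) / n.totient else 0

/-- some functional of `T` does not take an odd multiple of `q - 1` on `f` -/
def ChT {m : ℕ} [NeZero m] (T : Finset ℕ) (f : ZMod m → ℤ) : Prop :=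
  ∃ (q : ℕ) (l : List ℕ) (t : (ZMod m)ˣ), Pr l q ∧ (∀ p, p ∈ q :: l ↔ p ∈ T) ∧
    ∀ z : ℤ, ∑ x, f x * lam l q ((t : ZMod m) * x) = ((q : ℤ) - 1) * z → (2 : ℤ) ∣ z

/-- the thirteen pairs and `{5, 11}` -/
def Al14 (T : Finset ℕ) : Prop := T ∈ pl ∨ T = {5, 11}

/-! ## General facts -/

/-- **Sums over tuples.**  `∑_x cnt a x Λ(x) = ∑_i Λ(a i)`, and `∑_x cnt a (-x) Λ(x) = ∑_i Λ(-a i) = -∑_i Λ(a i)`. -/
def S_TuL : Prop := ∀ (m : ℕ) [NeZero m] (ι : Type) [Fintype ι] (a : ι → ZMod m) (Λ : ZMod m → ℤ), (∀ x, Λ (-x) = -Λ x) →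
  ∑ x, (cnt a x - cnt a (-x)) * Λ x = 2 * ∑ i, Λ (a i)

/-- **Mean values.**  Sum over `t`: `φ(m) (q - 1) ≤ 2 ∑_i ∑_t |lam (t a_i)| ≤ 2 ∑_i φ(m) mu (ord a_i)` by `S_LamAv` (both parts). Divide by `φ(m)`.
Hypotheses you may use: `S_LamAv`. -/
def S_EqM : Prop := ∀ (l : List ℕ) (q m : ℕ) [NeZero m], Pr l q → ∀ (ι : Type) [Fintype ι] (a : ι → ZMod m),
  (∀ t : (ZMod m)ˣ, (q : ℤ) - 1 ≤ 2 * |∑ i, lam l q ((t : ZMod m) * a i)|) →
    (q : ℚ) - 1 ≤ 2 * ∑ i, mu l q (addOrderOf (a i))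

/-- **The general case.**  As in the proof of `pGTt`: `CrN` gives `q`, `l`, and `S_LamT` gives `t` with `|∑ f lam| < q - 1`, so if the sum is `(q - 1) z` then `z = 0`.
Hypotheses you may use: `S_LamT`. -/
def S_ChN : Prop := ∀ (m N : ℕ) [NeZero m] (T : Finset ℕ), CrN m N T → ∀ (ι : Type) [Fintype ι] (a : ι → ZMod m),
  Fintype.card ι ≤ N → ChT T fun x => cnt a x - cnt a (-x)

/-- **Lowering the level.**  `exists_toAddCircle` gives `b i` with `toAddCircle (b i) = toAddCircle (a i)` (`s * a i`: `addOrderOf (toAddCircle x) = addOrderOf x` because `toAddCircle` is injective); `St b` by `RelOn_of_St`, `St_of_RelOn`. `(a i).val / m = (b i).val / s` as real numbers (both in `[0, 1)`), so with `n` the common order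
`(a i).val / (m / n) = n (a i).val / m = n (b i).val / s = (b i).val / (s / n)`, and the values of `lam` agree. -/
def S_Low : Prop := ∀ (m s : ℕ) [NeZero m] [NeZero s] (ι : Type) [Fintype ι] (a : ι → ZMod m), (∀ i, a i ≠ 0) → St a →
  (∀ i, addOrderOf (a i) ∣ s) → ∃ b : ι → ZMod s, (∀ i, b i ≠ 0) ∧ St b ∧ (∀ i, addOrderOf (b i) = addOrderOf (a i)) ∧
    ∀ i l q, lam l q (b i) = lam l q (a i)

/-! ## Numerical bounds -/

/-- **Bounds for `mu`.**  `T` is the set of the elements of `q :: l`, `S = n.primeFactors`, `L` the set of the other primes of `n` (without `2` if `v_2(n) = 1`), `ρ = 2` if `v_2(n) = 1`, otherwise `1`. `(n.primeFactors \ l.toFinset).erase q` filtered is `L`, so `cs l q n = ρ nc |l| |L| φ(q ^ v)`;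
`φ(n) = φ(q ^ v) ∏_{s ∈ S, s ≠ q} φ(s ^ v_s)`, `φ(s ^ v_s) ≥ kap s` for all `s ∈ T ∪ L`, `s ≠ q` (`4 ∣ n` if `2 ∈ T ∪ L`; if `v_2(n) = 1` then `φ(2) = 1` and `2 ∉ T`), `kap q = q - 1`: first part. Second part: `φ(s ^ v_s) ≥ s * kap s` if `s² ∣ n`, `s` odd, or `8 ∣ n`, `s = 2`. -/
def S_MuK : Prop := ∀ (l : List ℕ) (q n : ℕ), Pr l q → 0 < n → dt l q ∣ n → ∀ T L : Finset ℕ, T = (q :: l).toFinset →
  L = (n.primeFactors \ T).filter (fun s => s ≠ 2 ∨ n.factorization 2 ≠ 1) →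
  (T ∪ L = n.primeFactors.filter (fun s => s ≠ 2 ∨ n.factorization 2 ≠ 1)) ∧ Disjoint T L ∧
  (2 ∈ T ∪ L → 4 ∣ n) ∧
  (mu l q n ≤ (if n.factorization 2 = 1 then 2 else 1) * ((q : ℚ) - 1) * nc l.length L.card / kp (T ∪ L)) ∧
  ∀ s ∈ T ∪ L, s ≠ q → (s ≠ 2 → s ^ 2 ∣ n) → (s = 2 → 8 ∣ n) →
    (s : ℚ) * mu l q n ≤ (if n.factorization 2 = 1 then 2 else 1) * ((q : ℚ) - 1) * nc l.length L.card / kp (T ∪ L)

/-- **The pair `5, 13`.**  `T = {5, 13}`, `kp T = 48`; if `dt = 65` does not divide `n` both are `0`. Let `ρ`, `L` be as in `S_MuK`. CLAIM: `12 ρ nc 1 |L| ≤ kp (T ∪ L)`, with equality only for `ρ = 2`, `L = ∅` or `L = {3}`. `ρ = 2` (`2 ∉ L`): `|L| = 0`: `48 ≤ 48`; `|L| = 1`: `96 ≤ 48 kap s`, equality for `s = 3`; `|L| ≥ 2`: `24 nc 1 |L| < kp` by `S_Grw`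
(`k = 1`, `l = 2`, sets without `2`: `288 < 480`). `ρ = 1`: `24 < 48`, `48 < 96`, `|L| = 2`: `144 < 48 * 4`; `|L| ≥ 3`: `S_Grw` (`k = 1`, `l = 3`: `12 * 52 < 960`). Since `S_MuK` bounds `mu [5] 13 n` by `12 ρ nc / kp` and `mu [13] 5 n` by `4 ρ nc / kp`, the two inequalities follow. If both are equalities then `ρ = 2`, `L = ∅` or `{3}`, and
by the last part of `S_MuK` no prime `s ≠ 13` (first) and no prime `s ≠ 5` (second) has a larger exponent than `1`: `n = 2 * 5 * 13` or `2 * 3 * 5 * 13`.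
Hypotheses you may use: `S_MuK`, `S_Kmn`, `S_Grw`. -/
def S_Mu1 : Prop := ∀ n : ℕ, 0 < n → mu [5] 13 n ≤ 1 ∧ mu [13] 5 n ≤ 1 / 3 ∧
  (mu [5] 13 n = 1 → mu [13] 5 n = 1 / 3 → n = 130 ∨ n = 390)

/-- **The pair `3, 23`.**  `T = {3, 23}`, `kp T = 44`; if `69 ∤ n` both are `0`. Let `B = 22 ρ nc 1 |L| / kp (T ∪ L)`. By `S_MuK` `mu [3] 23 n ≤ B` and `11 mu [23] 3 n ≤ B`, and `≤ B / s` if `s ≠ 23`, respectively `s ≠ 3`, has a larger exponent than the minimal one. Values of `B`: `ρ = 2`: `L = ∅`: `2`; `L = {s}`: `4 / kap s`, which is `1` for `s = 5` and `≤ 2 / 3` for `s ≥ 7`;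
`|L| = 2`: `12 / kp L ≤ 12 / 24`; `|L| ≥ 3`: `44 nc < kp` (`S_Grw`, `k = 1`, `l = 3`, sets without `2`: `44 * 52 < 5760`), `B < 1`. `ρ = 1`: `L = ∅`: `1`; `L = {s}`: `2 / kap s`, `1` for `s = 2` and `≤ 1 / 2` otherwise; `|L| = 2`: `6 / kp L ≤ 6 / 8` (`3 ∉ L`); `|L| = 3`: `26 / kp L ≤ 26 / 48` (`L` has no `3`: at least `2 * 4 * 6`); `|L| ≥ 4`: `22 nc < kp` (`S_Grw`, `k = 1`, `l = 4`:
`22 * 300 < 11520`). So `B = 2` (`n = 2 * 3 ^ a * 23 ^ b`), or `B ≤ 1`, with equality only for `ρ = 2`, `L = {5}`, or `ρ = 1`, `L = ∅` or `{2}`.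
(1), (2): `B ≤ 2`. (3) If `B ≤ 1` the sum is `≤ 2`. If `B = 2` and `n ≠ 138`: `a ≥ 2`, the sum is `≤ 2 / 3 + 2`, or `b ≥ 2`: `≤ 2 + 2 / 23`. (4) If `B < 1` impossible. If `B = 1` no exponent is larger than the minimal one (one of the two would be smaller): `n = 690, 69, 276`. If `B = 2`: `a ≥ 2` gives `mu [3] 23 n ≤ 2 / 3`, `b ≥ 2` gives `mu [23] 3 n ≤ 2 / (11 * 23)`; so `n = 138`.
Hypotheses you may use: `S_MuK`, `S_Kmn`, `S_Grw`. -/
def S_Mu2 : Prop := ∀ n : ℕ, 0 < n → mu [3] 23 n ≤ 2 ∧ mu [23] 3 n ≤ 2 / 11 ∧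
  (n ≠ 138 → mu [3] 23 n + 11 * mu [23] 3 n ≤ 8 / 3) ∧
  (1 ≤ mu [3] 23 n → 1 / 11 ≤ mu [23] 3 n → n = 138 ∨ n = 69 ∨ n = 276 ∨ n = 690)

/-- **The set `2, 3, 5, 7`.**  `T = {2, 3, 5, 7}`, `kp T = 96`; if `420 ∤ n` both are `0`; `4 ∣ n`, so `ρ = 1`. `12 nc 3 |L| ≤ kp (T ∪ L)` with equality only for `L = ∅` (`12 * 8 = 96`; `|L| ≥ 1`: `S_Grw`, `k = 3`, `l = 1`: `12 * 48 < 960`). `S_MuK`: `mu [2, 3, 5] 7 n ≤ 6 nc / kp`, `mu [2, 3, 7] 5 n ≤ 4 nc / kp`. If both are equalities: `L = ∅`, and no prime has a larger exponent than in `420`.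
Hypotheses you may use: `S_MuK`, `S_Kmn`, `S_Grw`. -/
def S_Mu3 : Prop := ∀ n : ℕ, 0 < n → mu [2, 3, 5] 7 n ≤ 1 / 2 ∧ mu [2, 3, 7] 5 n ≤ 1 / 3 ∧
  (mu [2, 3, 5] 7 n = 1 / 2 → mu [2, 3, 7] 5 n = 1 / 3 → n = 420)

/-! ## Finite checks: the functional is a combination of Stickelberger sums -/

/-- **Level 390.**  Values (`y` prime to the order, `x = (390 / n) y`): order `130`: `Ph [5] 13 130 1 y = ups 1 ∅ - ups 2 ∅` (`S_UpsL` with `r = 2`, `ik 130 y 2 b = 1` for odd `b`), which is `1, -1, 1, -1` for `y ≡ 1, 2, 3, 4` modulo `5` (`S_UpsB` (5)). Order `390`: `ups 1 {3} - ups 2 {3}` with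
`ups c {3} = I 3 c (I 5 c - I 5 (3 c)) - I 3 (-c) (I 5 (-c) - I 5 (-3 c))`, `I = ik 390 y` (definition: the subsets of `{3}`), which is `1` for `y ≡ 1`, `-1` for `y ≡ 4` modulo `5` and `0` otherwise. The right side depends only on `y` modulo `5` too (`t ↦ t t0` with `t0 ≡ 1` modulo `5`), or check all `x` with `x.val < 390` directly (`sz x = x.val / 390 - 1 / 2`; sums of
natural numbers, `decide`). Verified numerically.
Hypotheses you may use: `S_UpsB`, `S_UpsL`. -/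
def S_Bd1 : Prop := ∀ x : ZMod 390, (addOrderOf x = 130 ∨ addOrderOf x = 390) →
  (2 : ℚ) * lam [5] 13 x = -∑ t ∈ univ.filter (fun t : (ZMod 390)ˣ => (t : ZMod 390).val % 5 = 1), sz ((t : ZMod 390) * x) -
    2 * ∑ t ∈ univ.filter (fun t : (ZMod 390)ˣ => (t : ZMod 390).val % 5 = 2), sz ((t : ZMod 390) * x)

/-- **Level 1380.**  Values of `lam [3] 23`, `x = (1380 / n) y`, `χ` the character modulo `3` (`L = ∅, {2}, {2}, {2, 5}`): order `69`: `I 3 1 - I 3 (-1) = χ(y)`; order `138`: `2 χ(y)` (`S_UpsL`, `r = 2`); order `276`: `ups 1 {2}` with `ups c {s} = I s c (I 3 c - I 3 (s c)) - I s (-c) (I 3 (-c) - I 3 (-s c))`; order `690`: `ups 1 {5} - ups 2 {5}`. All depend on `y` modulo `12` or `15`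
only (in fact `± χ(y)`). Compare with the right side (finite check as in `S_Bd1`; the right side is multiplied by `χ(t0)` if `x` is replaced by `t0 x`). Verified numerically.
Hypotheses you may use: `S_UpsB`, `S_UpsL`. -/
def S_Bd2 : Prop := ∀ x : ZMod 1380, (addOrderOf x = 138 ∨ addOrderOf x = 69 ∨ addOrderOf x = 276 ∨ addOrderOf x = 690) →
  (8 : ℚ) * lam [3] 23 x = -3 * ∑ t ∈ univ.filter (fun t : (ZMod 1380)ˣ => (t : ZMod 1380).val % 3 = 1), sz ((t : ZMod 1380) * x)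

/-- **Level 420.**  `lam [2, 3, 5] 7 x = (I 2 1 - I 2 (-1)) (I 3 1 - I 3 (-1)) (I 5 1 - I 5 (-1))` with `I = ik 420 x.val` for `x` of order `420` (`L = ∅`, `S_UpsB` (5)): the product of the signs modulo `4` and `3` and of `1, 0, 0, -1` for `x.val ≡ 1, 2, 3, 4` modulo `5`. Finite check for the `96` values of `x`. Verified numerically.
Hypotheses you may use: `S_UpsB`. -/
def S_Bd3 : Prop := ∀ x : ZMod 420, addOrderOf x = 420 →
  (lam [2, 3, 5] 7 x : ℚ) = -∑ t ∈ univ.filter (fun t : (ZMod 420)ˣ => (t : ZMod 420).val % 60 = 1), sz ((t : ZMod 420) * x) -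
    ∑ t ∈ univ.filter (fun t : (ZMod 420)ˣ => (t : ZMod 420).val % 60 = 19), sz ((t : ZMod 420) * x)

/-! ## The three sets -/

/-- **The pair `5, 13`.**  Suppose not. Then for both `(l, q) = ([5], 13), ([13], 5)` and all `t` there is an odd `z` with `2 ∑_i lam (t a_i) = (q - 1) z` (`S_TuL`, `S_LamB` (4)), so `q - 1 ≤ 2 |∑|`. `S_EqM`: `6 ≤ ∑ mu [5] 13`, `2 ≤ ∑ mu [13] 5`; by `S_Mu1` and `card ι ≤ 6` there are six indices and all values are equal to the bounds, so all orders are `130` or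
`390`. `S_Low` with `s = 390` and `S_Bd1`: `2 ∑_i lam [5] 13 (a i) = 0` by `St b`: a contradiction for `t = 1`.
Hypotheses you may use: `S_LamB`, `S_TuL`, `S_EqM`, `S_Low`, `S_Mu1`, `S_Bd1`. -/
def S_BC1 : Prop := ∀ (m : ℕ) [NeZero m] (ι : Type) [Fintype ι] (a : ι → ZMod m), Fintype.card ι ≤ 6 → (∀ i, a i ≠ 0) →
  St a → ChT {5, 13} fun x => cnt a x - cnt a (-x)

/-- **The pair `3, 23`.**  Suppose not; as in `S_BC1`: `11 ≤ ∑ mu [3] 23`, `1 ≤ ∑ mu [23] 3`. Let `w_i = mu [3] 23 + 11 mu [23] 3` at `ord a_i`: `∑ w_i ≥ 22`, `w_i ≤ 4`, and `w_i ≤ 8 / 3` if `ord a_i ≠ 138` (`S_Mu2`). If at most four orders are `138` then `∑ w_i ≤ 16 + 16 / 3 < 22`. So at least five orders are `138`, there are six indices, and for the sixth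
`mu [3] 23 ≥ 11 - 10`, `mu [23] 3 ≥ 1 - 10 / 11`, so its order is `138, 69, 276` or `690`. `S_Low` with `s = 1380` and `S_Bd2`: `∑_i lam [3] 23 (a i) = 0`: a contradiction for `t = 1`.
Hypotheses you may use: `S_LamB`, `S_TuL`, `S_EqM`, `S_Low`, `S_Mu2`, `S_Bd2`. -/
def S_BC2 : Prop := ∀ (m : ℕ) [NeZero m] (ι : Type) [Fintype ι] (a : ι → ZMod m), Fintype.card ι ≤ 6 → (∀ i, a i ≠ 0) →
  St a → ChT {3, 23} fun x => cnt a x - cnt a (-x)

/-- **The set `2, 3, 5, 7`.**  Suppose not; as in `S_BC1` with `(l, q) = ([2, 3, 5], 7), ([2, 3, 7], 5)`: `3 ≤ ∑ mu [2, 3, 5] 7`, `2 ≤ ∑ mu [2, 3, 7] 5`; by `S_Mu3` all six orders are `420`. `S_Low` with `s = 420` and `S_Bd3`: `∑_i lam [2, 3, 5] 7 (a i) = 0`: a contradiction.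
Hypotheses you may use: `S_LamB`, `S_TuL`, `S_EqM`, `S_Low`, `S_Mu3`, `S_Bd3`. -/
def S_BC3 : Prop := ∀ (m : ℕ) [NeZero m] (ι : Type) [Fintype ι] (a : ι → ZMod m), Fintype.card ι ≤ 6 → (∀ i, a i ≠ 0) →
  St a → ChT {2, 3, 5, 7} fun x => cnt a x - cnt a (-x)

/-! ## Length at most 6 -/

/-- **The other sets.**  As `pNum6` (file `GT/Num6.lean`): there the conditions `¬ 110 ∣ m`, `¬ 130 ∣ m`, `¬ 138 ∣ m`, `¬ 420 ∣ m` are only used to exclude `{5, 11}`, `{5, 13}`, `{3, 23}` in the second half (where `2 ∣ m`, so `110 ∣ m` for `{5, 11}`) and `{2, 3, 5, 7}` in the first half.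
Hypotheses you may use: `S_Kmn`, `S_Grw`, `S_Prs`. -/
def S_Nm6 : Prop := ∀ m N : ℕ, 0 < m → N ≤ 6 → ∀ T, Ess m T → T ∉ pl → (T = {5, 11} → ¬ 110 ∣ m) → T ≠ {5, 13} → T ≠ {3, 23} →
  T ≠ {2, 3, 5, 7} → Crt m N T

/-- **The class of the pair `5, 11`.**  `k = (1, 12, 16, 26, 27, 31, 36, 37, 42, 47)`, `M = 55`. As in `S_Gm1`: `g(x) = cnt a x - cnt a (-x)` with `a i = (m / 55) k_i`, `2 ∑ (t k_i mod 55) = 550` for all `t < 55` prime to `55`. `clt a ∈ G14`: modulo `HD` `[y] + [y + 1/2] = [2 y]` and `[y] = -[-y]`, so `[1/110] = [1/55] + [27/55]`,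
`[71/110] = [16/55] + [47/55]`, `[81/110] = [26/55] + [42/55]`, `[91/110] = [36/55] + [37/55]` (for example `[1/110] + [56/110] = [2/110]`, `[56/110] = [28/55] = -[27/55]`), `[24/110] = [12/55]`, `[62/110] = [31/55]`: the sum of the ten classes is the generator of `G14` with `t = 1`. -/
def S_G55 : Prop := ∀ (m : ℕ) [NeZero m], 55 ∣ m → ∃ g : ZMod m → ℤ, InA G14 g ∧ IsOdd g ∧ Rl g ∧
  (∀ x, g x ≠ 0 → addOrderOf x ∣ 55) ∧
  ∀ u : (ZMod 55)ˣ, g (el m 55 u) = (([1, 12, 16, 26, 27, 31, 36, 37, 42, 47] : List ℕ).count (u : ZMod 55).val : ℤ) -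
    ([1, 12, 16, 26, 27, 31, 36, 37, 42, 47] : List ℕ).count (55 - (u : ZMod 55).val)

/-- **The group `G14`.**  `HD ≤ G13 ≤ G14`; for the pairs in `pl` use `S_GmA` (`InA G13 g` implies `InA G14 g`); for `{5, 11}`: `S_G55`, and the parity by a finite check as in `S_Gm2` (file `GT/Gm2.lean`; `e_5 = 34`, `e_11 = 21` modulo `55`). A nonempty subset of `{5, 11}` with an even number of elements is `{5, 11}`.
Hypotheses you may use: `S_En`, `S_GmA`, `S_G55`. -/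
def S_GmB : Prop := ∀ (m : ℕ) [NeZero m], GdA m G14 Al14

/-- **THEOREM GT6.**  `f(x) = cnt a x - cnt a (-x)`: odd, `Rl f` (`hTup`). First part: `Chk Al14 f`: for `T ∉ Al14`: `S_BC1`, `S_BC2`, `S_BC3` for the three sets, otherwise `S_Nm6`, `S_CrN`, `S_ChN` (with `N = 6`). `S_GT` with `A = G14` (`S_GmB`), `S_InA` (4) with `g = cnt a`, `clt a = cl (cnt a)`. Second part: the same with `Al = (· ∈ pl)`, `A = G13` (`S_GmA`): for `T = {5, 11}` use
`S_Nm6` (`¬ 110 ∣ m`).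
Hypotheses you may use: `S_InA`, `S_GT`, `S_GmA`, `S_GmB`, `S_CrN`, `S_ChN`, `S_Nm6`, `S_BC1`, `S_BC2`, `S_BC3`. -/
def S_GT6 : Prop := ∀ (m : ℕ) [NeZero m] (ι : Type) [Fintype ι] (a : ι → ZMod m), Fintype.card ι ≤ 6 →
  (∀ i, a i ≠ 0) → St a → clt a ∈ G14 ∧ (¬ 110 ∣ m → clt a ∈ G13)

end Pool.Agent.FO
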