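import Pool.Agent.Lib.MP_640417_ag.GT.SpecQ
import Pool.Agent.Lib.MP_640417_ag.GT.SpecL

/-!
# Theorem QR, module GdF: the group `GF`
-/

set_option autoImplicit false

noncomputable section

open Finset Pool.Agent.FC

namespace Pool.Agent.FO

namespace GGdFAux

private lemma GS_le : GS ≤ GF := le_sup_left

private lemma HD_le : HD ≤ GF := le_trans (le_sup_left : HD ≤ GS) GS_le

private lemma InA_mono {A B : AddSubgroup (UnitAddCircle →₀ ℤ)} (hAB : A ≤ B) {m : ℕ} [NeZero m]
    {f : ZMod m → ℤ} (h : InA A f) : InA B f := by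
  obtain ⟨g, h0, h1, h2⟩ := h
  exact ⟨g, h0, h1, hAB h2⟩

private lemma Al15_of (T : Finset ℕ) (h : Al14 T) : Al15 T := by
  rcases h with h | h
  · exact Or.inl h
  · exact Or.inr (Or.inl h)

private lemma Al15_cases (T : Finset ℕ) (h : Al15 T) : Al14 T ∨ T34 T := by
  rcases h with h | h | h
  · exact Or.inl (Or.inl h)
  · exact Or.inl (Or.inr h)
  · exact Or.inr h

end GGdFAux

open GGdFAux in
theorem pGdF (hGmB : S_GmB) (hGdQ : S_GdQ) : S_GdF := by
  intro hle m _
  obtain ⟨-, hB2, hB3⟩ := hGmB m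
  refine ⟨HD_le, ?_, ?_⟩
  · intro T T' hT' hsub hne hev
    rcases Al15_cases T' hT' with h | h
    · exact Al15_of T (hB2 T T' h hsub hne hev)
    · exact Or.inr (Or.inr fun p hp => h p (hsub hp))
  · intro T hE hT
    rcases Al15_cases T hT with h | h
    · obtain ⟨g, g1, g2⟩ := hB3 T hE h
      exact ⟨g, InA_mono hle g1, g2⟩
    · obtain ⟨g, g1, g2⟩ := hGdQ m T hE h
      exact ⟨g, InA_mono GS_le g1, g2⟩

end Pool.Agent.FO
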