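import Pool.Agent.Lib.MP_640417_ag.GT.SpecR

/-!
# Pairs of primes: the final statement
-/

set_option autoImplicit false

noncomputable section

open Finset Pool.Agent.FC

namespace Pool.Agent.FO

private theorem ns5 : ¬ sm 5 ((2 : ℕ) : ℤ) := by
  unfold sm
  rw [show c4 5 = 5 from rfl]
  have h : (((2 : ℕ) : ℤ) : ZMod 5) = 2 := by norm_num
  rw [h]
  decide

private theorem ns13 : ¬ sm 13 ((2 : ℕ) : ℤ) := by
  unfold sm
  rw [show c4 13 = 13 from rfl]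
  have h : (((2 : ℕ) : ℤ) : ZMod 13) = 2 := by norm_num
  rw [h]
  decide

private theorem ns17 : ¬ sm 17 ((3 : ℕ) : ℤ) := by
  unfold sm
  rw [show c4 17 = 17 from rfl]
  have h : (((3 : ℕ) : ℤ) : ZMod 17) = 3 := by norm_num
  rw [h]
  decide

theorem pGdL (h1 : S_Gm3) (h2 : S_GdR) : S_GdL := by
  obtain ⟨g5, g13, g17⟩ := h1
  refine ⟨fun m _ => ?_, fun m _ => h2 GS _ le_rfl (fun p hp => Or.inl hp) m⟩
  have hG : GS ≤ GF3 := le_sup_left
  have hK : ∀ p, K4 p → (p = 2 ∨ p % 4 = 3) ∨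
      (p % 4 = 1 ∧ ∃ s : ℕ, s.Prime ∧ (s = 2 ∨ s % 4 = 3) ∧ ¬ sm p s ∧ Pd GF3 s p) := by
    intro p hp
    rcases hp with rfl | hp | rfl | rfl | rfl
    · exact Or.inl (Or.inl rfl)
    · exact Or.inl (Or.inr hp)
    · exact Or.inr ⟨rfl, 2, Nat.prime_two, Or.inl rfl, ns5, g5⟩
    · exact Or.inr ⟨rfl, 2, Nat.prime_two, Or.inl rfl, ns13, g13⟩
    · exact Or.inr ⟨rfl, 3, Nat.prime_three, Or.inr rfl, ns17, g17⟩
  exact h2 GF3 K4 hG hK m

end Pool.Agent.FO
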