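import Pool.Agent.Lib.MP_640417_ag.GT.SpecQ

/-!
# Theorem QR, module GdQ: the class of a set of primes
-/

set_option autoImplicit false

noncomputable section

open Finset Pool.Agent.FC

namespace Pool.Agent.FO

namespace GGdQAux

private lemma dT_dvd (m : ℕ) (T : Finset ℕ) (hE : Ess m T) : dT T ∣ m := by
  obtain ⟨h1, h2, -, -⟩ := hE
  have hp : ∀ p ∈ T, p.Prime := fun p hp => Nat.prime_of_mem_primeFactors (h1 hp)
  have hc : ∀ p, (if p = 2 then 4 else p) = p ^ (if p = 2 then 2 else 1) := by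
    intro p
    split_ifs with h
    · rw [h]; norm_num
    · rw [pow_one]
  have h3 : ((∏ p ∈ T, (((if p = 2 then 4 else p : ℕ)) : ℤ))) ∣ (m : ℤ) := by
    refine Finset.prod_dvd_of_coprime ?_ ?_
    · intro p hpT q hqT hpq
      change IsCoprime (((if p = 2 then 4 else p : ℕ)) : ℤ) (((if q = 2 then 4 else q : ℕ)) : ℤ)
      rw [Nat.isCoprime_iff_coprime, hc, hc]
      exact Nat.Coprime.pow _ _ ((Nat.coprime_primes (hp p hpT) (hp q hqT)).2 hpq)
    · intro p hpT
      rw [Int.natCast_dvd_natCast]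
      split_ifs with h
      · rw [h] at hpT
        exact h2 hpT
      · exact Nat.dvd_of_mem_primeFactors (h1 hpT)
  have h4 : ((dT T : ℕ) : ℤ) = ∏ p ∈ T, (((if p = 2 then 4 else p : ℕ)) : ℤ) := by
    unfold dT
    exact Nat.cast_prod _ _
  rw [← h4] at h3
  exact Int.natCast_dvd_natCast.1 h3

private lemma cl_neg' {m : ℕ} [NeZero m] (f : ZMod m → ℤ) : cl (fun x => -f x) = -cl f := by
  unfold cl
  rw [← Finset.sum_neg_distrib]
  refine Finset.sum_congr rfl fun x _ => ?_
  rw [Finsupp.single_neg]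

private lemma sub_dvd {S T : Finset ℕ} (h : S ⊆ T) : dT S ∣ dT T :=
  Finset.prod_dvd_prod_of_subset _ _ _ h

private lemma dT_pos {T : Finset ℕ} (h : ∀ p ∈ T, p.Prime) : 0 < dT T := by
  refine Finset.prod_pos fun p hp => ?_
  split_ifs
  · norm_num
  · exact (h p hp).pos

/-- the functions with property `InA A` -/
private def SA (m : ℕ) [NeZero m] (A : AddSubgroup (UnitAddCircle →₀ ℤ)) (hA : HD ≤ A) :
    AddSubgroup (ZMod m → ℤ) where
  carrier := {f | InA A f}
  zero_mem' := (gInA m A hA (fun _ => 0) (fun _ => 0)).2.2.1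
  add_mem' := fun {f g} hf hg => (gInA m A hA f g).2.1 hf hg
  neg_mem' := by
    rintro f ⟨g, h0, h1, h2⟩
    refine ⟨fun x => -g x, ?_, fun x => ?_, ?_⟩
    · change -g 0 = 0
      rw [h0, neg_zero]
    · rw [Pi.neg_apply, h1]
      ring
    · rw [cl_neg']
      exact neg_mem h2

/-- the odd functions -/
private def SO (m : ℕ) : AddSubgroup (ZMod m → ℤ) where
  carrier := {f | IsOdd f}
  zero_mem' := fun x => by simp
  add_mem' := fun {f g} hf hg x => by
    rw [Pi.add_apply, Pi.add_apply, hf x, hg x]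
    ring
  neg_mem' := fun {f} hf x => by
    rw [Pi.neg_apply, Pi.neg_apply, hf x]

/-- the functions supported on the orders which divide `d` -/
private def SD (m d : ℕ) : AddSubgroup (ZMod m → ℤ) where
  carrier := {f | ∀ x, f x ≠ 0 → addOrderOf x ∣ d}
  zero_mem' := fun x h => absurd rfl h
  add_mem' := fun {f g} hf hg x h => by
    by_cases h1 : f x = 0
    · refine hg x fun h2 => h ?_
      rw [Pi.add_apply, h1, h2, add_zero]
    · exact hf x h1
  neg_mem' := fun {f} hf x h => hf x fun h1 => h (by rw [Pi.neg_apply, h1, neg_zero])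

private lemma sqi_one {m d : ℕ} {x : ZMod m} (h : sqi m d x ≠ 0) : sqi m d x = 1 := by
  unfold sqi at *
  split_ifs at * with h1
  · rfl
  · exact absurd rfl h

end GGdQAux

open GGdQAux in
theorem pGdQ (hRzB : S_RzB) (hSqX : S_SqX) (hRlQ : S_RlQ) (hOdQ : S_OdQ) (hInQ : S_InQ) :
    S_GdQ := by
  intro m _ T hE h34
  have hp : ∀ p ∈ T, p.Prime := fun p hp => (h34 p hp).1
  have hdm : dT T ∣ m := dT_dvd m T hE
  have hUm : ∀ U ⊆ T, dT U ∣ m := fun U hU => (sub_dvd hU).trans hdm
  have hUp : ∀ U ⊆ T, ∀ p ∈ U, p.Prime := fun U hU p h => hp p (hU h)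
  have hHD : HD ≤ GS := le_sup_left
  -- orders
  have hord : ∀ U ⊆ T, ∀ x : ZMod m, Aq m U x ≠ 0 → addOrderOf x = dT U := by
    intro U hU x hx
    have h6 := (hSqX m U (hUp U hU) (hUm U hU)).2.2.2.2.2
    unfold Aq at hx
    by_cases h1 : sqi m (dT U) x = 0
    · have h2 : sqi m (dT U) (-x) ≠ 0 := fun h2 => hx (by rw [h1, h2, sub_zero])
      have h3 := h6 _ (sqi_one h2)
      rwa [addOrderOf_neg] at h3
    · exact h6 x (sqi_one h1)
  refine ⟨Rz (nr T) (Aq m) T, ?_, ?_, ?_, ?_, ?_⟩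
  · exact hRzB.2.1 (ZMod m → ℤ) (SA m GS hHD) (nr T) (Aq m) T
      fun U hU => hInQ m U (hUp U hU) (hUm U hU)
  · refine hRzB.2.1 (ZMod m → ℤ) (SO m) (nr T) (Aq m) T fun U _ x => ?_
    unfold Aq
    rw [neg_neg]
    ring
  · exact hRlQ m T h34 hdm hE.2.2.2
  · refine hRzB.2.1 (ZMod m → ℤ) (SD m (dT T)) (nr T) (Aq m) T fun U hU x hx => ?_
    rw [hord U hU x hx]
    exact sub_dvd hU
  · intro d _ hd
    have hdm' : d ∣ m := hd ▸ hdm
    obtain ⟨e1, -, -, -, e5, -⟩ := pEl m d hdm'
    obtain ⟨q1, -, -, -, q5, -⟩ := hSqX m T hp hdm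
    have hlt : ∀ U ⊂ T, dT U < dT T := by
      intro U hU
      obtain ⟨p, hpT, h1⟩ := Finset.ssubset_iff_exists_subset_erase.1 hU
      have h2 := Nat.le_of_dvd (dT_pos fun q hq => hp q (Finset.mem_of_mem_erase hq)) (sub_dvd h1)
      have h3 := (q1 p hpT).1
      have h4 : 2 ≤ c4 p := by
        unfold c4
        split_ifs
        · norm_num
        · exact (hp p hpT).two_le
      have h5 : 0 < dT (T.erase p) := dT_pos fun q hq => hp q (Finset.mem_of_mem_erase hq)
      nlinarith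
    have hval : ∀ u : (ZMod d)ˣ, Rz (nr T) (Aq m) T (el m d u) =
        sqi m (dT T) (el m d u) - sqi m (dT T) (el m d (-u)) := by
      intro u
      rw [hRzB.2.2 (ZMod m) (nr T) (Aq m) T (el m d u) ?_, e5]
      · rfl
      · intro U hU
        by_contra h
        have h1 := hord U hU.subset _ h
        rw [e1, hd] at h1
        exact (hlt U hU).ne' h1
    have key : ∀ u : (ZMod d)ˣ, sqi m (dT T) (el m d u) = 1 ↔
        ∀ p ∈ T, sm p ((u : ZMod d).val : ℤ) := by
      intro u
      have h1 : IsCoprime (((u : ZMod d).val : ℕ) : ℤ) (dT T : ℤ) := by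
        rw [← hd]
        exact Nat.isCoprime_iff_coprime.2 (ZMod.val_coe_unit_coprime u)
      have h2 := q5 _ h1
      rw [Int.cast_natCast, ← hd] at h2
      rw [← hd]
      exact h2
    have hf := hOdQ T h34 d hd (fun u => sqi m (dT T) (el m d u)) ?_ ?_
    · have e : (fun u => Rz (nr T) (Aq m) T (el m d u)) =
          fun u => sqi m (dT T) (el m d u) - sqi m (dT T) (el m d (-u)) := funext hval
      rw [e]
      exact hf
    · intro u hu
      exact (key u).2 hu
    · intro u hu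
      by_contra h
      exact hu ((key u).1 (sqi_one h))

end Pool.Agent.FO
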