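import Pool.Agent.Lib.MP_640417_ag.GT.SpecR

/-!
# Pairs of primes: the theorem on pairs
-/

set_option autoImplicit false

noncomputable section

open Finset Pool.Agent.FC

namespace Pool.Agent.FO

namespace GGdRAux

theorem pd_comm {A : AddSubgroup (UnitAddCircle →₀ ℤ)} {p q : ℕ} (h : Pd A p q) : Pd A q p := by
  intro m _ hE
  have e : ({q, p} : Finset ℕ) = {p, q} := Finset.pair_comm q p
  rw [e] at hE ⊢
  exact h m hE

theorem sm_of {q p : ℕ} (hq : q % 4 = 1) (h : IsSquare ((p : ℕ) : ZMod q)) : sm q p := by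
  have hc : c4 q = q := by
    unfold c4
    rw [if_neg]
    rintro rfl
    omega
  unfold sm
  rw [hc, Int.cast_natCast]
  exact h

theorem c34 {p : ℕ} (hp : p.Prime) : (p = 2 ∨ p % 4 = 3) ∨ p % 4 = 1 := by
  rcases hp.eq_two_or_odd with h | h
  · exact Or.inl (Or.inl h)
  · omega

end GGdRAux

open GGdRAux in
theorem pGdR (hGdU : S_GdU) (hPdA : S_PdA) : S_GdR := by
  intro A K hA hK m _
  obtain ⟨h1, h2, h3⟩ := hPdA A hA
  -- one of the two primes is a square modulo the other one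
  have hsq : ∀ p q : ℕ, p.Prime → q.Prime → p ≠ q → q % 4 = 1 → IsSquare ((p : ℕ) : ZMod q) →
      Pd A p q := by
    intro p q hp hq hpq hq1 hs
    rcases c34 hp with h | h
    · exact h1 p q hp hq h hq1 (sm_of hq1 hs)
    · exact pd_comm (h3 q p hq hq1 hp h (Ne.symm hpq) (Or.inl (sm_of hq1 hs)))
  -- all pairs
  have hall : ∀ p q : ℕ, p.Prime → q.Prime → p ≠ q →
      ((K p ∧ K q) ∨ (q % 4 = 1 ∧ IsSquare ((p : ℕ) : ZMod q)) ∨
        (p % 4 = 1 ∧ IsSquare ((q : ℕ) : ZMod p))) → T34 {p, q} ∨ Pd A p q := by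
    intro p q hp hq hpq h
    rcases h with ⟨hKp, hKq⟩ | ⟨hq1, hs⟩ | ⟨hp1, hs⟩
    · rcases hK p hKp with h4 | ⟨h4, s, hs, hs3, hsm, hsP⟩
      · rcases hK q hKq with h5 | ⟨h5, s, hs, hs3, hsm, hsP⟩
        · left
          intro x hx
          rcases Finset.mem_insert.1 hx with rfl | hx
          · exact ⟨hp, h4⟩
          · rw [Finset.mem_singleton.1 hx]
            exact ⟨hq, h5⟩
        · exact Or.inr (h2 q s hq h5 hs hs3 hsm hsP p hp h4)
      · rcases hK q hKq with h5 | ⟨h5, s', hs', hs3', hsm', hsP'⟩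
        · exact Or.inr (pd_comm (h2 p s hp h4 hs hs3 hsm hsP q hq h5))
        · exact Or.inr (h3 p q hp h4 hq h5 hpq (Or.inr ⟨h2 p s hp h4 hs hs3 hsm hsP,
            h2 q s' hq h5 hs' hs3' hsm' hsP'⟩))
    · exact Or.inr (hsq p q hp hq hpq hq1 hs)
    · exact Or.inr (pd_comm (hsq q p hq hp (Ne.symm hpq) hp1 hs))
  obtain ⟨g1, g2, g3⟩ := hGdU A (fun T => ∃ p q : ℕ, p ≠ q ∧ T = {p, q} ∧ Pd A p q) hA
    (fun T h => h) m
  refine ⟨g1, ?_, ?_⟩
  · intro T T' hT' hTT hne hev
    rcases hT' with h | ⟨p, q, hpq, hT, hc⟩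
    · left
      intro x hx
      exact h x (hTT hx)
    · right
      refine ⟨p, q, hpq, ?_, hc⟩
      have hcard : ({p, q} : Finset ℕ).card = 2 := Finset.card_pair (Nat.ne_of_lt hpq)
      have h4 : 0 < T.card := Finset.card_pos.2 hne
      have h5 : 2 ≤ T.card := Nat.le_of_dvd h4 hev
      rw [← hT]
      refine Finset.eq_of_subset_of_card_le hTT ?_
      rw [hT, hcard]
      exact h5
  · intro T hE hT
    refine g3 T hE ?_
    rcases hT with h | ⟨p, q, hpq, hT, hc⟩
    · exact Or.inl h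
    · have hpr : ∀ x ∈ T, x.Prime := by
        intro x hx
        exact Nat.prime_of_mem_primeFactors (hE.1 hx)
      have hp : p.Prime := hpr p (by rw [hT]; exact Finset.mem_insert_self p {q})
      have hq : q.Prime := hpr q (by
        rw [hT]
        exact Finset.mem_insert_of_mem (Finset.mem_singleton_self q))
      have hne : p ≠ q := Nat.ne_of_lt hpq
      rcases hall p q hp hq hne hc with h | h
      · left
        rw [hT]
        exact h
      · exact Or.inr ⟨p, q, hne, hT, h⟩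

end Pool.Agent.FO
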