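import Pool.Agent.Lib.MP_640417_ag.GT.SpecR

/-!
# Pairs of primes: the hypotheses on the group for pairs and for sets of primes `2` or `3` modulo `4`
-/

set_option autoImplicit false

noncomputable section

open Finset Pool.Agent.FC

namespace Pool.Agent.FO

namespace GGdUAux

private lemma InA_mono {A B : AddSubgroup (UnitAddCircle →₀ ℤ)} (hAB : A ≤ B) {m : ℕ} [NeZero m]
    {f : ZMod m → ℤ} (h : InA A f) : InA B f := by
  obtain ⟨g, h0, h1, h2⟩ := h
  exact ⟨g, h0, h1, hAB h2⟩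

private lemma sub_pair {T : Finset ℕ} {p q : ℕ} (hpq : p ≠ q) (h : T ⊆ {p, q}) (hne : T.Nonempty)
    (h2 : 2 ∣ T.card) : T = {p, q} := by
  refine Finset.eq_of_subset_of_card_le h ?_
  rw [Finset.card_pair hpq]
  exact Nat.le_of_dvd (Finset.card_pos.2 hne) h2

end GGdUAux

open GGdUAux in
theorem pGdU : S_GdU := by
  intro A Q hA hQ m _
  refine ⟨le_trans (le_sup_left : HD ≤ GS) hA, ?_, ?_⟩
  · rintro T T' (h | h) hsub hne hev
    · exact Or.inl fun p hp => h p (hsub hp)
    · obtain ⟨p, q, hpq, rfl, -⟩ := hQ T' h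
      have hT : T = {p, q} := sub_pair hpq hsub hne hev
      subst hT
      exact Or.inr h
  · rintro T hE (h | h)
    · obtain ⟨g, g1, g2⟩ := gGdQ m T hE h
      exact ⟨g, InA_mono hA g1, g2⟩
    · obtain ⟨p, q, -, rfl, hPd⟩ := hQ T h
      exact hPd m hE

end Pool.Agent.FO
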