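import Pool.Agent.Lib.MP_640417_ag.GT.SpecK

/-!
# Theorem GT, module Gm1: Stickelberger's relation for the thirteen tuples
-/

set_option autoImplicit false

noncomputable section

open Finset Pool.Agent.FC

namespace Pool.Agent.FO

namespace GGm1Aux

/-- the tuple `(m / M) k_i` -/
private def aa (m M : ℕ) (ks : List ℕ) (i : Fin ks.length) : ZMod m :=
  ((m / M * ks.get i : ℕ) : ZMod m)

section

variable {m M : ℕ} [NeZero m] [NeZero M]

omit [NeZero m] [NeZero M] in
private theorem val_mul (hM : M ∣ m) (j : ℕ) : (((m / M * j : ℕ)) : ZMod m).val = m / M * (j % M) := by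
  rw [ZMod.val_natCast]
  have h1 : m / M * M = m := Nat.div_mul_cancel hM
  calc m / M * j % m = m / M * j % (m / M * M) := by rw [h1]
    _ = m / M * (j % M) := Nat.mul_mod_mul_left _ _ _

private theorem div_pos' (hM : M ∣ m) : 0 < m / M :=
  Nat.div_pos (Nat.le_of_dvd (Nat.pos_of_ne_zero (NeZero.ne m)) hM) (Nat.pos_of_ne_zero (NeZero.ne M))

private theorem eq_iff (hM : M ∣ m) (j j' : ℕ) :
    ((m / M * j : ℕ) : ZMod m) = ((m / M * j' : ℕ) : ZMod m) ↔ j % M = j' % M := by
  constructor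
  · intro h
    have h1 := congrArg ZMod.val h
    rw [val_mul hM, val_mul hM] at h1
    exact Nat.eq_of_mul_eq_mul_left (div_pos' hM) h1
  · intro h
    apply ZMod.val_injective
    rw [val_mul hM, val_mul hM, h]

private theorem eq_zero_iff (hM : M ∣ m) (j : ℕ) : ((m / M * j : ℕ) : ZMod m) = 0 ↔ j % M = 0 := by
  have h := eq_iff hM j 0
  rw [Nat.mul_zero, Nat.cast_zero, Nat.zero_mod] at h
  exact h

private theorem sz_mul (hM : M ∣ m) (j : ℕ) (hj : j % M ≠ 0) :
    sz ((m / M * j : ℕ) : ZMod m) = ((j % M : ℕ) : ℚ) / M - 1 / 2 := by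
  unfold sz
  rw [if_neg (fun h => hj ((eq_zero_iff hM j).1 h)), val_mul hM]
  have h1 : ((m / M : ℕ) : ℚ) ≠ 0 := by exact_mod_cast (div_pos' hM).ne'
  have h2 : (M : ℚ) ≠ 0 := by exact_mod_cast NeZero.ne M
  have h3 : (m : ℚ) = (m / M : ℕ) * M := by
    rw [← Nat.cast_mul, Nat.div_mul_cancel hM]
  rw [h3]
  push_cast
  field_simp

private theorem cnt_aa (hM : M ∣ m) (ks : List ℕ) (hlt : ∀ k ∈ ks, 0 < k ∧ k < M) (w : ℕ) (hw : w < M) :
    cnt (aa m M ks) ((m / M * w : ℕ) : ZMod m) =
      ((univ.filter (fun i : Fin ks.length => ks.get i = w)).card : ℤ) := by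
  unfold cnt
  congr 2
  ext i
  simp only [mem_filter, mem_univ, true_and]
  unfold aa
  rw [eq_iff hM, Nat.mod_eq_of_lt hw, Nat.mod_eq_of_lt (hlt _ (List.get_mem _ _)).2]

omit [NeZero m] [NeZero M] in
private theorem neg_mul' (hM : M ∣ m) (v : ℕ) (hv : v ≤ M) :
    -((m / M * v : ℕ) : ZMod m) = ((m / M * (M - v) : ℕ) : ZMod m) := by
  rw [neg_eq_iff_add_eq_zero, ← Nat.cast_add, ← Nat.mul_add, Nat.add_sub_cancel' hv,
    Nat.div_mul_cancel hM, ZMod.natCast_self]

private theorem sum_get {A : Type*} [AddCommMonoid A] (l : List ℕ) (f : ℕ → A) :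
    ∑ i : Fin l.length, f (l.get i) = (l.map f).sum := by
  simp

private theorem sum_zero (ks : List ℕ) (t : ℕ)
    (hs : 2 * (ks.map fun k => t * k % M).sum = M * ks.length) :
    ∑ i : Fin ks.length, (((t * ks.get i % M : ℕ) : ℚ) / M - 1 / 2) = 0 := by
  have h2 : (M : ℚ) ≠ 0 := by exact_mod_cast NeZero.ne M
  have h3 : ∑ i : Fin ks.length, (t * ks.get i % M) = (ks.map fun k => t * k % M).sum := by
    rw [sum_get ks (fun k => t * k % M)]
  rw [Finset.sum_sub_distrib, ← Finset.sum_div, ← Nat.cast_sum, h3]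
  have h4 : (2 : ℚ) * ((ks.map fun k => t * k % M).sum : ℕ) = M * ks.length := by exact_mod_cast hs
  simp only [Finset.sum_const, Finset.card_univ, Fintype.card_fin, nsmul_eq_mul]
  field_simp
  linarith

end

private theorem count_get (ks : List ℕ) (w : ℕ) :
    (univ.filter (fun i : Fin ks.length => ks.get i = w)).card = ks.count w := by
  rw [Finset.card_filter, sum_get ks (fun k => if k = w then 1 else 0)]
  induction ks with
  | nil => rfl
  | cons a ks ih =>
    rw [List.map_cons, List.sum_cons, ih, List.count_cons, add_comm]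
    congr 1
    by_cases h : a = w
    · rw [if_pos h, if_pos (beq_iff_eq.2 h)]
    · rw [if_neg h, if_neg (fun h' => h (beq_iff_eq.1 h'))]

/-- One tuple. -/
private theorem one (m M : ℕ) [NeZero m] [NeZero M] (hM : M ∣ m) (ks : List ℕ)
    (hq : (M, ks) ∈ tp) (hM1 : 1 < M)
    (hlt : ∀ k ∈ ks, 0 < k ∧ k < M)
    (hsum : ∀ u < M, u.Coprime M → 2 * (ks.map fun k => u * k % M).sum = M * ks.length) :
    ∃ g : ZMod m → ℤ, InA G13 g ∧ IsOdd g ∧ Rl g ∧ (∀ x, g x ≠ 0 → addOrderOf x ∣ M) ∧
    ∀ u : (ZMod M)ˣ, g (el m M u) = (ks.count (u : ZMod M).val : ℤ) -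
      ks.count (M - (u : ZMod M).val) := by
  classical
  obtain ⟨t1, t2, _, _, t5, t6⟩ := hTup m (Fin ks.length) (aa m M ks)
  have hne : ∀ i, aa m M ks i ≠ 0 := by
    intro i h
    have h1 := (eq_zero_iff hM _).1 h
    have h2 := hlt _ (List.get_mem ks i)
    rw [Nat.mod_eq_of_lt h2.2] at h1
    omega
  refine ⟨fun x => cnt (aa m M ks) x - cnt (aa m M ks) (-x), ⟨cnt (aa m M ks), t6 hne, fun x => rfl, ?_⟩,
    t1, ?_, ?_, ?_⟩
  · rw [← t5]
    refine AddSubgroup.mem_sup_right (AddSubgroup.subset_closure ⟨(M, ks), 1, hq, Nat.coprime_one_left _, ?_⟩)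
    have h1 : ∀ k : ℕ, ZMod.toAddCircle ((m / M * k : ℕ) : ZMod m) = Pool.Agent.FT.pt M (1 * k) := by
      intro k
      rw [ZMod.toAddCircle_natCast]
      unfold Pool.Agent.FT.pt
      congr 1
      have h2 : (M : ℝ) ≠ 0 := by exact_mod_cast NeZero.ne M
      have h3 : ((m / M : ℕ) : ℝ) ≠ 0 := by exact_mod_cast (div_pos' hM).ne'
      have h4 : (m : ℝ) = (m / M : ℕ) * M := by
        rw [← Nat.cast_mul, Nat.div_mul_cancel hM]
      rw [h4, one_mul]
      push_cast
      field_simp
    unfold clt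
    have h5 := sum_get ks
      (fun k => Finsupp.single (Pool.Agent.FT.pt M (1 * k)) (1 : ℤ))
    rw [← h5]
    refine Finset.sum_congr rfl fun i _ => ?_
    unfold aa
    rw [h1]
  · intro t
    rw [t2]
    have hu : Nat.Coprime (t : ZMod m).val m := ZMod.val_coe_unit_coprime t
    have huM : Nat.Coprime (t : ZMod m).val M := hu.coprime_dvd_right hM
    have h0 : ∀ i, sz ((t : ZMod m) * aa m M ks i) =
        ((((t : ZMod m).val % M) * ks.get i % M : ℕ) : ℚ) / M - 1 / 2 := by
      intro i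
      have h1 : (t : ZMod m) * aa m M ks i = ((m / M * ((t : ZMod m).val * ks.get i) : ℕ) : ZMod m) := by
        unfold aa
        nth_rewrite 1 [← ZMod.natCast_zmod_val (t : ZMod m)]
        push_cast
        ring
      have h2 := hlt _ (List.get_mem ks i)
      have h3 : (t : ZMod m).val * ks.get i % M ≠ 0 := by
        intro h
        have h4 : M ∣ ks.get i := huM.symm.dvd_of_dvd_mul_left (Nat.dvd_of_mod_eq_zero h)
        have h5 := Nat.le_of_dvd h2.1 h4
        omega
      rw [h1, sz_mul hM _ h3, Nat.mod_mul_mod]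
    rw [Finset.sum_congr rfl fun i _ => h0 i]
    have hc : ((t : ZMod m).val % M).Coprime M := by
      have h5 := Nat.gcd_rec M (t : ZMod m).val
      unfold Nat.Coprime at huM ⊢
      rw [Nat.gcd_comm] at huM
      rw [← h5, huM]
    rw [sum_zero ks _ (hsum _ (Nat.mod_lt _ (Nat.pos_of_ne_zero (NeZero.ne M))) hc), mul_zero]
  · intro x hx
    have hord : ∀ i, addOrderOf (aa m M ks i) ∣ M := by
      intro i
      apply addOrderOf_dvd_of_nsmul_eq_zero
      unfold aa
      rw [nsmul_eq_mul, ← Nat.cast_mul]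
      have h1 : M * (m / M * ks.get i) = m * ks.get i := by
        rw [← Nat.mul_assoc, Nat.mul_div_cancel' hM]
      rw [h1, Nat.cast_mul, ZMod.natCast_self, zero_mul]
    have hc : ∀ y, cnt (aa m M ks) y ≠ 0 → ∃ i, aa m M ks i = y := by
      intro y hy
      by_contra hcon
      push Not at hcon
      apply hy
      unfold cnt
      rw [Finset.filter_eq_empty_iff.2 (fun i _ => hcon i)]
      rfl
    by_cases h1 : cnt (aa m M ks) x = 0
    · have h2 : cnt (aa m M ks) (-x) ≠ 0 := by
        intro h2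
        apply hx
        change cnt (aa m M ks) x - cnt (aa m M ks) (-x) = 0
        rw [h1, h2, sub_zero]
      obtain ⟨i, hi⟩ := hc _ h2
      have h3 := hord i
      rwa [hi, addOrderOf_neg] at h3
    · obtain ⟨i, hi⟩ := hc _ h1
      rw [← hi]
      exact hord i
  · intro u
    have hel : el m M u = ((m / M * (u : ZMod M).val : ℕ) : ZMod m) := by
      unfold el
      push_cast
      rfl
    have hul : (u : ZMod M).val < M := ZMod.val_lt _
    have hu0 : 0 < (u : ZMod M).val := by
      rcases Nat.eq_zero_or_pos (u : ZMod M).val with h | h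
      · have h1 := ZMod.val_coe_unit_coprime u
        rw [h, Nat.coprime_zero_left] at h1
        omega
      · exact h
    change cnt (aa m M ks) (el m M u) - cnt (aa m M ks) (-el m M u) = _
    rw [hel, neg_mul' hM _ hul.le, cnt_aa hM ks hlt _ hul, cnt_aa hM ks hlt _ (by omega),
      count_get, count_get]

private theorem chk : ∀ w ∈ tp, 1 < w.1 ∧ (∀ k ∈ w.2, 0 < k ∧ k < w.1) ∧
    ∀ u < w.1, u.Coprime w.1 → 2 * (w.2.map fun k => u * k % w.1).sum = w.1 * w.2.length := by
  unfold tp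
  decide +kernel

end GGm1Aux

open GGm1Aux in
theorem pGm1 : S_Gm1 := by
  intro m _ w hw _ hwm
  obtain ⟨h1, h2, h3⟩ := chk w hw
  exact one m w.1 hwm w.2 hw h1 h2 h3

end Pool.Agent.FO
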