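import Pool.Agent.Lib.MP_640417_ag.GT.SpecK

/-!
# Theorem GT, part K: the group `G13` and the thirteen pairs
-/

set_option autoImplicit false

noncomputable section

open Finset Pool.Agent.FC

namespace Pool.Agent.FO

namespace GGmAAux

private lemma pl_card : ∀ T ∈ pl, T.card = 2 := by
  intro T hT
  simp only [pl, List.mem_cons, List.not_mem_nil, or_false] at hT
  rcases hT with rfl | rfl | rfl | rfl | rfl | rfl | rfl | rfl | rfl | rfl | rfl | rfl | rfl <;> rfl

private lemma pl_tp : ∀ T ∈ pl, ∃ k, (dT T, k) ∈ tp := by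
  intro T hT
  simp only [pl, List.mem_cons, List.not_mem_nil, or_false] at hT
  rcases hT with rfl | rfl | rfl | rfl | rfl | rfl | rfl | rfl | rfl | rfl | rfl | rfl | rfl
  · exact ⟨[1, 4, 9, 10], by decide⟩
  · exact ⟨[1, 6, 10, 13], by decide⟩
  · exact ⟨[1, 4, 17, 18], by decide⟩
  · exact ⟨[1, 4, 18, 19], by decide⟩
  · exact ⟨[1, 9, 21, 25], by decide⟩
  · exact ⟨[1, 4, 16, 22, 25, 31], by decide⟩
  · exact ⟨[1, 1, 17, 21, 30, 34, 31, 22, 16, 2], by decide⟩
  · exact ⟨[1, 16, 22, 7, 34, 37], by decide⟩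
  · exact ⟨[1, 6, 22, 26, 33, 41, 37, 28, 17, 9], by decide⟩
  · exact ⟨[5, 6, 8, 14, 17, 23, 27, 32, 35, 44, 47, 48], by decide⟩
  · exact ⟨[4, 6, 15, 19, 23, 43, 47, 51], by decide⟩
  · exact ⟨[7, 10, 15, 16, 25, 34, 37, 40, 49, 52], by decide⟩
  · exact ⟨[1, 5, 9, 21, 24, 37, 41, 45, 52, 53, 58, 62], by decide⟩

private lemma dT_dvd (m : ℕ) (T : Finset ℕ) (hE : Ess m T) : dT T ∣ m := by
  obtain ⟨h1, h2, -, -⟩ := hE
  have hp : ∀ p ∈ T, p.Prime := fun p hp => Nat.prime_of_mem_primeFactors (h1 hp)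
  have hc : ∀ p, (if p = 2 then 4 else p) = p ^ (if p = 2 then 2 else 1) := by
    intro p
    split_ifs with h
    · rw [h]; norm_num
    · rw [pow_one]
  have h3 : ((∏ p ∈ T, (((if p = 2 then 4 else p : ℕ)) : ℤ))) ∣ (m : ℤ) := by
    refine Finset.prod_dvd_of_coprime ?_ ?_
    · intro p hpT q hqT hpq
      change IsCoprime (((if p = 2 then 4 else p : ℕ)) : ℤ) (((if q = 2 then 4 else q : ℕ)) : ℤ)
      rw [Nat.isCoprime_iff_coprime, hc, hc]
      exact Nat.Coprime.pow _ _ ((Nat.coprime_primes (hp p hpT) (hp q hqT)).2 hpq)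
    · intro p hpT
      rw [Int.natCast_dvd_natCast]
      split_ifs with h
      · rw [h] at hpT
        exact h2 hpT
      · exact Nat.dvd_of_mem_primeFactors (h1 hpT)
  have h4 : ((dT T : ℕ) : ℤ) = ∏ p ∈ T, (((if p = 2 then 4 else p : ℕ)) : ℤ) := by
    unfold dT
    exact Nat.cast_prod _ _
  rw [← h4] at h3
  exact Int.natCast_dvd_natCast.1 h3

end GGmAAux

open GGmAAux in
theorem pGmA (hGm1 : S_Gm1) (hGm2 : S_Gm2) : S_GmA := by
  intro m _
  refine ⟨le_sup_left, ?_, ?_⟩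
  · intro T T' hT' hsub hne hev
    have h1 := pl_card T' hT'
    have h2 := Finset.card_le_card hsub
    have h3 := Finset.card_pos.2 hne
    have h4 : T = T' := Finset.eq_of_subset_of_card_le hsub (by omega)
    rw [h4]
    exact hT'
  · intro T hE hT
    obtain ⟨k, hk⟩ := pl_tp T hT
    have hd := dT_dvd m T hE
    have : NeZero (dT T) := ⟨fun h => NeZero.ne m (by
      rw [h] at hd
      exact Nat.eq_zero_of_zero_dvd hd)⟩
    obtain ⟨g, g1, g2, g3, g4, g5⟩ := hGm1 m (dT T, k) hk hd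
    refine ⟨g, g1, g2, g3, g4, ?_⟩
    intro d _ hdT
    subst hdT
    have h5 := hGm2 (dT T) k hk
    have h6 : (fun u : (ZMod (dT T))ˣ => g (el m (dT T) u)) = fun u : (ZMod (dT T))ˣ =>
        ((k.count (u : ZMod (dT T)).val : ℤ) - k.count (dT T - (u : ZMod (dT T)).val)) :=
      funext fun u => g5 u
    rw [h6]
    exact h5

end Pool.Agent.FO
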