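import Pool.Agent.Lib.MP_640417_ag.GT.SpecL

/-!
# Theorem GT, part L: the group `G14`
-/

set_option autoImplicit false

noncomputable section

open Finset Pool.Agent.FC

namespace Pool.Agent.FO

namespace GGmBAux

/-- the value of the function at the residue `x` -/
private def cv (M : ℕ) (k : List ℕ) (x : ℕ) : ℤ := (k.count x : ℤ) - k.count (M - x)

/-- the finite check for one residue -/
private def Q0 (M : ℕ) (k : List ℕ) (E x : ℕ) : Prop :=
  x.gcd M = 1 → (cv M k x - cv M k (E * x % M)) % 2 ≠ 0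

private instance (M : ℕ) (k : List ℕ) (E x : ℕ) : Decidable (Q0 M k E x) := by
  unfold Q0
  infer_instance

/-- the finite check for one `E` -/
private def Q1 (M : ℕ) (k : List ℕ) (a b E : ℕ) : Prop :=
  (E + 1) % a = 0 → E % b = 1 → ∀ x < M, Q0 M k E x

private instance (M : ℕ) (k : List ℕ) (a b E : ℕ) : Decidable (Q1 M k a b E) := by
  unfold Q1
  infer_instance

/-- the finite check: `E` is `-1` modulo `a` and `1` modulo `b` -/
private def Q (M : ℕ) (k : List ℕ) (a b : ℕ) : Prop := ∀ E < M, Q1 M k a b E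

private instance (M : ℕ) (k : List ℕ) (a b : ℕ) : Decidable (Q M k a b) := by
  unfold Q
  infer_instance

private lemma erase_two (l : List ℕ) (hl : l.Nodup) (s t : ℕ) (hst : s ≠ t)
    (h : ∀ p, p ∈ l ↔ p = s ∨ p = t) : l.erase s = [t] := by
  have h1 : (l.erase s).Nodup := hl.erase s
  have h2 : (l.erase s).Perm [t] := by
    refine (List.perm_ext_iff_of_nodup h1 (List.nodup_singleton t)).2 fun r => ?_
    rw [hl.mem_erase_iff, h, List.mem_singleton]
    constructor
    · rintro ⟨h3, h4⟩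
      exact h4.resolve_left h3
    · rintro rfl
      exact ⟨fun e => hst e.symm, Or.inr rfl⟩
  exact List.perm_singleton.1 h2

private lemma key (M : ℕ) [NeZero M] (k : List ℕ) (a b : ℕ) (hb : 1 < b) (hQ : Q M k a b) (e : (ZMod M)ˣ)
    (h1 : ((a : ℕ) : ℤ) ∣ (((e : ZMod M).val : ℕ) : ℤ) + 1)
    (h2 : ((b : ℕ) : ℤ) ∣ (((e : ZMod M).val : ℕ) : ℤ) - 1) (x : (ZMod M)ˣ) :
    ¬ (2 : ℤ) ∣ ((k.count (x : ZMod M).val : ℤ) - k.count (M - (x : ZMod M).val)) -
      ((k.count ((e * x : (ZMod M)ˣ) : ZMod M).val : ℤ) -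
        k.count (M - ((e * x : (ZMod M)ˣ) : ZMod M).val)) := by
  have c1 : ((e : ZMod M).val + 1) % a = 0 := by
    refine Nat.mod_eq_zero_of_dvd ?_
    exact_mod_cast h1
  have c2 : (e : ZMod M).val % b = 1 := by
    have h3 : (((e : ZMod M).val : ℕ) : ℤ) % (b : ℤ) = 1 % (b : ℤ) :=
      (Int.emod_emod_of_dvd _ (dvd_refl _)).symm.trans (by
        rw [Int.emod_emod_of_dvd _ (dvd_refl _)]
        exact Int.ModEq.symm ((Int.modEq_iff_dvd).2 h2))
    have h4 : (1 : ℤ) % (b : ℤ) = 1 := Int.emod_eq_of_lt (by norm_num) (by exact_mod_cast hb)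
    rw [h4] at h3
    exact_mod_cast h3
  have h3 := hQ _ (ZMod.val_lt (e : ZMod M)) c1 c2 _ (ZMod.val_lt (x : ZMod M))
    (ZMod.val_coe_unit_coprime x)
  have h4 : ((e * x : (ZMod M)ˣ) : ZMod M).val = (e : ZMod M).val * (x : ZMod M).val % M := by
    rw [Units.val_mul, ZMod.val_mul]
  rw [h4]
  intro hd
  exact h3 (Int.emod_eq_zero_of_dvd hd)

private lemma one (hEn : S_En) (M p q v w : ℕ) [NeZero M] (k : List ℕ) (hp : p.Prime)
    (hq : q.Prime) (hpq : p ≠ q) (hv : v ≠ 0) (hw : w ≠ 0) (hM : M = p ^ v * q ^ w)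
    (h1 : Q M k (p ^ v) (q ^ w)) (h2 : Q M k (q ^ w) (p ^ v)) :
    OdP M fun u => (k.count (u : ZMod M).val : ℤ) - k.count (M - (u : ZMod M).val) := by
  have hcop : (p ^ v).Coprime (q ^ w) := Nat.Coprime.pow _ _ ((Nat.coprime_primes hp hq).2 hpq)
  have hpf : ∀ r, r ∈ M.primeFactors ↔ r = p ∨ r = q := by
    intro r
    rw [hM, hcop.primeFactors_mul, Nat.primeFactors_prime_pow hv hp,
      Nat.primeFactors_prime_pow hw hq, Finset.mem_union, Finset.mem_singleton,
      Finset.mem_singleton]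
  have fp : M.factorization p = v := by
    rw [hM, Nat.factorization_mul (pow_ne_zero _ hp.ne_zero) (pow_ne_zero _ hq.ne_zero),
      hp.factorization_pow, hq.factorization_pow, Finsupp.add_apply, Finsupp.single_eq_same,
      Finsupp.single_eq_of_ne hpq, add_zero]
  have fq : M.factorization q = w := by
    rw [hM, Nat.factorization_mul (pow_ne_zero _ hp.ne_zero) (pow_ne_zero _ hq.ne_zero),
      hp.factorization_pow, hq.factorization_pow, Finsupp.add_apply, Finsupp.single_eq_same,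
      Finsupp.single_eq_of_ne (Ne.symm hpq), zero_add]
  have hpv : 0 < p ^ v := pow_pos hp.pos _
  have hqw : 0 < q ^ w := pow_pos hq.pos _
  have hpv1 : 1 < p ^ v := Nat.one_lt_pow hv hp.one_lt
  have hqw1 : 1 < q ^ w := Nat.one_lt_pow hw hq.one_lt
  obtain ⟨e1, -, -⟩ := hEn M
  have ep := e1 p ((hpf p).2 (Or.inl rfl))
  have eq' := e1 q ((hpf q).2 (Or.inr rfl))
  unfold IsEn at ep eq'
  rw [fp] at ep
  rw [fq] at eq'
  have d1 : M / p ^ v = q ^ w := by
    rw [hM]
    exact Nat.mul_div_cancel_left _ hpv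
  have d2 : M / q ^ w = p ^ v := by
    rw [hM]
    exact Nat.mul_div_cancel _ hqw
  rw [d1] at ep
  rw [d2] at eq'
  intro l hl hmem s hs a
  have hmem' : ∀ r, r ∈ l ↔ r = p ∨ r = q := fun r => (hmem r).trans (hpf r)
  rcases (hmem' s).1 hs with rfl | rfl
  · rw [erase_two l hl s q hpq hmem']
    exact key M k (q ^ w) (s ^ v) hpv1 h2 _ eq'.1 eq'.2 a
  · rw [erase_two l hl s p (Ne.symm hpq) (fun r => (hmem' r).trans or_comm)]
    exact key M k (p ^ v) (s ^ w) hqw1 h1 _ ep.1 ep.2 a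

private lemma G13_le : G13 ≤ G14 := le_sup_left

private lemma HD_le : HD ≤ G14 :=
  le_trans (le_sup_left : HD ≤ G13) G13_le

private lemma InA_mono {m : ℕ} [NeZero m] {f : ZMod m → ℤ} (h : InA G13 f) : InA G14 f := by
  obtain ⟨g, h0, h1, h2⟩ := h
  exact ⟨g, h0, h1, G13_le h2⟩

private lemma dT_eq : dT {5, 11} = 55 := by
  unfold dT
  rw [Finset.prod_pair (by norm_num)]
  norm_num

end GGmBAux

open GGmBAux in
theorem pGmB (hEn : S_En) (hGmA : S_GmA) (hG55 : S_G55) : S_GmB := by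
  intro m _
  obtain ⟨-, hA2, hA3⟩ := hGmA m
  refine ⟨HD_le, ?_, ?_⟩
  · intro T T' hT' hsub hne hev
    rcases hT' with hT' | rfl
    · exact Or.inl (hA2 T T' hT' hsub hne hev)
    · right
      have h2 := Finset.card_le_card hsub
      have h3 := Finset.card_pos.2 hne
      have h5 : ({5, 11} : Finset ℕ).card = 2 := rfl
      exact Finset.eq_of_subset_of_card_le hsub (by omega)
  · intro T hE hT
    rcases hT with hT | rfl
    · obtain ⟨g, g1, g2⟩ := hA3 T hE hT
      exact ⟨g, InA_mono g1, g2⟩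
    · have h5 : 5 ∣ m := Nat.dvd_of_mem_primeFactors (hE.1 (by simp))
      have h11 : 11 ∣ m := Nat.dvd_of_mem_primeFactors (hE.1 (by simp))
      have h55 : 55 ∣ m := (by norm_num : Nat.Coprime 5 11).mul_dvd_of_dvd_of_dvd h5 h11
      obtain ⟨g, g1, g2, g3, g4, g5⟩ := hG55 m h55
      refine ⟨g, g1, g2, g3, ?_, ?_⟩
      · intro x hx
        rw [dT_eq]
        exact g4 x hx
      · intro d _ hd
        rw [dT_eq] at hd
        subst hd
        have h6 : (fun u : (ZMod 55)ˣ => g (el m 55 u)) = fun u : (ZMod 55)ˣ =>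
            ((([1, 12, 16, 26, 27, 31, 36, 37, 42, 47] : List ℕ).count (u : ZMod 55).val : ℤ) -
              ([1, 12, 16, 26, 27, 31, 36, 37, 42, 47] : List ℕ).count (55 - (u : ZMod 55).val)) :=
          funext fun u => g5 u
        rw [h6]
        exact one hEn 55 5 11 1 1 _ (by norm_num) (by norm_num) (by norm_num) (by norm_num)
          (by norm_num) (by norm_num) (by decide +kernel) (by decide +kernel)

end Pool.Agent.FO
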