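import Pool.Agent.Lib.MP_640417_ag.GT.SpecK

/-!
# Theorem GT, part K: growth of the numerical condition
-/

set_option autoImplicit false

open Finset Pool.Agent.FC

namespace Pool.Agent.FO

namespace GGrwAux

theorem kp_erase {S : Finset ℕ} {p : ℕ} (h : p ∈ S) : kap p * kp (S.erase p) = kp S :=
  Finset.mul_prod_erase S kap h

theorem two_le_kap {p : ℕ} (hp : p.Prime) : 2 ≤ kap p := by
  unfold kap
  split_ifs with h
  · exact le_rfl
  · have := hp.two_le
    omega

theorem nc_zero (k : ℕ) : nc (k + 1) 0 = 2 * nc k 0 := by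
  have h1 : nb 0 = 1 := by
    rw [nb_eq, Finset.range_zero, Finset.sum_empty, add_zero]
  have h2 : nc (k + 1) 0 = 2 * ∑ j ∈ range (0 + 1), (0 : ℕ).choose j * nb j * nc k (0 - j) := rfl
  rw [h2, zero_add, Finset.sum_range_one, h1]
  simp

/-- the first part -/
theorem first (hMx : S_Mx) (hNcR : S_NcR) (R : Finset ℕ → Prop) (hR : ∀ S p, R S → R (S.erase p))
    (C k l : ℕ)
    (h0 : ∀ S : Finset ℕ, (∀ s ∈ S, s.Prime) → R S → S.card = k + 1 + l → C * nc k l < kp S)
    (l' : ℕ) (hl : l ≤ l') :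
    ∀ S : Finset ℕ, (∀ s ∈ S, s.Prime) → R S → S.card = k + 1 + l' → C * nc k l' < kp S := by
  induction l', hl using Nat.le_induction with
  | base => exact h0
  | succ m hm ih =>
    intro S hS hRS hc
    have hne : S.Nonempty := by
      rw [← Finset.card_pos, hc]
      omega
    have hp : S.max' hne ∈ S := S.max'_mem hne
    have h1 := (hMx S (S.max' hne) hS hp (fun s hs => S.le_max' s hs)).1
    rw [hc] at h1
    have h2 : 2 * (m + k) ≤ kap (S.max' hne) := by omega
    have h3 := ih (S.erase (S.max' hne)) (fun s hs => hS s (Finset.mem_of_mem_erase hs))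
      (hR S _ hRS) (by rw [Finset.card_erase_of_mem hp, hc]; omega)
    have h4 := hNcR.2 k m
    have h5 : 0 < kap (S.max' hne) := by
      have := two_le_kap (hS _ hp)
      omega
    rw [← kp_erase hp]
    calc C * nc k (m + 1) ≤ C * (2 * (m + k) * nc k m) := Nat.mul_le_mul_left C h4
      _ = 2 * (m + k) * (C * nc k m) := by ring
      _ ≤ kap (S.max' hne) * (C * nc k m) := Nat.mul_le_mul_right _ h2
      _ < kap (S.max' hne) * kp (S.erase (S.max' hne)) := Nat.mul_lt_mul_of_pos_left h3 h5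

/-- the second part, `l' = 0` -/
theorem second (R : Finset ℕ → Prop) (hR : ∀ S p, R S → R (S.erase p)) (C k : ℕ)
    (h0 : ∀ S : Finset ℕ, (∀ s ∈ S, s.Prime) → R S → S.card = k + 1 + 0 → C * nc k 0 < kp S) (j : ℕ) :
    ∀ S : Finset ℕ, (∀ s ∈ S, s.Prime) → R S → S.card = k + 2 * j + 1 + 0 →
      C * nc (k + 2 * j) 0 < kp S := by
  induction j with
  | zero => exact h0
  | succ j ih =>
    intro S hS hRS hc
    obtain ⟨p, hp⟩ : S.Nonempty := by
      rw [← Finset.card_pos, hc]
      omega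
    have hc1 : (S.erase p).card = k + 2 * j + 2 := by
      rw [Finset.card_erase_of_mem hp, hc]
      omega
    obtain ⟨q, hq⟩ : (S.erase p).Nonempty := by
      rw [← Finset.card_pos, hc1]
      omega
    have hc2 : ((S.erase p).erase q).card = k + 2 * j + 1 + 0 := by
      rw [Finset.card_erase_of_mem hq, hc1]
      omega
    have h3 := ih ((S.erase p).erase q)
      (fun s hs => hS s (Finset.mem_of_mem_erase (Finset.mem_of_mem_erase hs)))
      (hR _ _ (hR _ _ hRS)) hc2
    have h4 : nc (k + 2 * (j + 1)) 0 = 4 * nc (k + 2 * j) 0 := by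
      have e : k + 2 * (j + 1) = (k + 2 * j + 1) + 1 := by ring
      rw [e, nc_zero, nc_zero]
      ring
    have h5 : 2 ≤ kap p := two_le_kap (hS p hp)
    have h6 : 2 ≤ kap q := two_le_kap (hS q (Finset.mem_of_mem_erase hq))
    rw [← kp_erase hp, ← kp_erase hq, h4]
    have h7 : 4 ≤ kap p * kap q := Nat.mul_le_mul h5 h6
    calc C * (4 * nc (k + 2 * j) 0) = 4 * (C * nc (k + 2 * j) 0) := by ring
      _ < 4 * kp ((S.erase p).erase q) := Nat.mul_lt_mul_of_pos_left h3 (by norm_num)
      _ ≤ (kap p * kap q) * kp ((S.erase p).erase q) := Nat.mul_le_mul_right _ h7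
      _ = kap p * (kap q * kp ((S.erase p).erase q)) := by ring

end GGrwAux

open GGrwAux in
theorem pGrw (hMx : S_Mx) (hNcR : S_NcR) : S_Grw := by
  intro R hR C k l h0
  refine ⟨fun l' hl => first hMx hNcR R hR C k l h0 l' hl, ?_⟩
  rintro rfl j l'
  exact first hMx hNcR R hR C (k + 2 * j) 0 (second R hR C k h0 j) l' (Nat.zero_le _)

end Pool.Agent.FO
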