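import Pool.Agent.Lib.MP_640417_ag.GT.SpecI

set_option autoImplicit false

open Finset Pool.Agent.FC

namespace Pool.Agent.FO

theorem pHfS : S_HfS := by
  classical
  intro G _ M ε h2 hε
  set M' : Subgroup G := M ⊔ Subgroup.zpowers ε with hM'
  let r : G → G := fun a => Quotient.out (QuotientGroup.mk a : G ⧸ M')
  have hr : ∀ a b : G, a⁻¹ * b ∈ M' → r a = r b := fun a b hab => by
    change Quotient.out (QuotientGroup.mk a : G ⧸ M') = Quotient.out (QuotientGroup.mk b : G ⧸ M')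
    rw [QuotientGroup.eq.mpr hab]
  have hx : ∀ a : G, a * (r a)⁻¹ ∈ M' := fun a => by
    have h1 : (QuotientGroup.mk (r a) : G ⧸ M') = QuotientGroup.mk a := Quotient.out_eq _
    rw [QuotientGroup.eq] at h1
    rwa [mul_comm]
  have hM'M : ∀ x ∈ M', x ∈ M ∨ ε * x ∈ M := by
    intro x hx
    rw [hM', Subgroup.mem_sup] at hx
    obtain ⟨y, hy, z, hz, rfl⟩ := hx
    rw [Subgroup.mem_zpowers_iff] at hz
    obtain ⟨n, rfl⟩ := hz
    rcases Int.even_or_odd' n with ⟨j, rfl | rfl⟩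
    · left
      rw [zpow_mul, zpow_two, h2, one_zpow, mul_one]
      exact hy
    · right
      rw [zpow_add, zpow_mul, zpow_two, h2, one_zpow, one_mul, zpow_one, mul_left_comm, h2, mul_one]
      exact hy
  have hk : ∀ k ∈ M, ∀ a, r (k * a) = r a := fun k hk a => hr _ _ (by
    have : (k * a)⁻¹ * a = k⁻¹ := by
      rw [mul_inv, mul_assoc, inv_mul_cancel, mul_one]
    rw [this]
    exact Subgroup.mem_sup_left (M.inv_mem hk))
  have he : ∀ a, r (ε * a) = r a := fun a => hr _ _ (by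
    have : (ε * a)⁻¹ * a = ε⁻¹ := by
      rw [mul_inv, mul_assoc, inv_mul_cancel, mul_one]
    rw [this]
    exact Subgroup.mem_sup_right (Subgroup.inv_mem _ (Subgroup.mem_zpowers ε)))
  refine ⟨fun a => decide (a * (r a)⁻¹ ∈ M), fun k hkM a => ?_, fun a => ?_⟩
  · rw [decide_eq_decide, hk k hkM a, mul_assoc]
    exact Subgroup.mul_mem_cancel_left M hkM
  · change decide (ε * a * (r (ε * a))⁻¹ ∈ M) = !decide (a * (r a)⁻¹ ∈ M)
    rw [he a, mul_assoc]
    by_cases h : a * (r a)⁻¹ ∈ M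
    · have h3 : ε * (a * (r a)⁻¹) ∉ M := fun h3 => hε ((Subgroup.mul_mem_cancel_right M h).mp h3)
      rw [decide_eq_true h, decide_eq_false h3]
      rfl
    · have h3 : ε * (a * (r a)⁻¹) ∈ M := (hM'M _ (hx a)).resolve_left h
      rw [decide_eq_false h, decide_eq_true h3]
      rfl

end Pool.Agent.FO
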