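import Pool.Agent.Lib.MP_640417_ag.GT.SpecK

/-!
# Theorem GT, part K, module InA: odd parts of functions with class in `A`

Adapted from `FO/InG.lean` (helper63).
-/

set_option autoImplicit false

noncomputable section

open Finset Pool.Agent.FC

namespace Pool.Agent.FO

namespace GInAAux

private lemma cl_add {m : ℕ} [NeZero m] (f g : ZMod m → ℤ) :
    cl (fun x => f x + g x) = cl f + cl g := by
  unfold cl
  rw [← Finset.sum_add_distrib]
  refine Finset.sum_congr rfl fun x _ => ?_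
  rw [Finsupp.single_add]

private lemma cl_zero {m : ℕ} [NeZero m] : cl (fun _ : ZMod m => 0) = 0 := by
  unfold cl
  simp

private lemma cl_sum {m : ℕ} [NeZero m] (s : Finset ℕ) (h : ℕ → ZMod m → ℤ) :
    cl (fun x => ∑ p ∈ s, h p x) = ∑ p ∈ s, cl (h p) := by
  classical
  induction s using Finset.induction_on with
  | empty =>
    rw [Finset.sum_empty]
    unfold cl
    simp
  | insert p s hp ih =>
    rw [Finset.sum_insert hp, ← ih, ← cl_add]
    congr 1
    funext x
    exact Finset.sum_insert hp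

private lemma max_sub (a : ℤ) : max a 0 - max (-a) 0 = a := by
  omega

private lemma of_inHo {m : ℕ} [NeZero m] {A : AddSubgroup (UnitAddCircle →₀ ℤ)} (hA : HD ≤ A)
    {f : ZMod m → ℤ} (hIn : InHo f) : InA A f := by
  obtain ⟨G, hG, hGe⟩ := hIn
  obtain ⟨G', hG'a⟩ : ∃ G' : ℕ → ZMod m → ℤ, ∀ p z, G' p z = max (G p z) 0 :=
    ⟨fun p z => max (G p z) 0, fun _ _ => rfl⟩
  have hsub : ∀ p ∈ m.primeFactors, ∀ z, G' p z - G' p (-z) = G p z := by
    intro p hp z
    rw [hG'a, hG'a, (hG p hp).1 z]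
    exact max_sub _
  refine ⟨fun x => ∑ p ∈ m.primeFactors, hD p (G' p) x, ?_, ?_, ?_⟩
  · refine Finset.sum_eq_zero fun p _ => ?_
    unfold hD
    rw [mul_zero, sub_self]
  · intro x
    rw [hGe, ← Finset.sum_sub_distrib]
    refine Finset.sum_congr rfl fun p hp => ?_
    unfold hD
    rw [← hsub p hp, ← hsub p hp x, mul_neg]
    ring
  · rw [cl_sum]
    refine hA (AddSubgroup.sum_mem _ fun p hp => ?_)
    refine pClHd m p (Nat.dvd_of_mem_primeFactors hp) (G' p) ?_ ?_
    · have h1 := (hG p hp).1 0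
      rw [neg_zero] at h1
      rw [hG'a]
      omega
    · intro z hz
      refine (hG p hp).2 z fun h => hz ?_
      rw [hG'a, h, max_self]

private lemma add' {m : ℕ} [NeZero m] {A : AddSubgroup (UnitAddCircle →₀ ℤ)} {f g : ZMod m → ℤ}
    (hf : InA A f) (hg : InA A g) : InA A (fun x => f x + g x) := by
  obtain ⟨f1, hf0, hf1, hf2⟩ := hf
  obtain ⟨g1, hg0, hg1, hg2⟩ := hg
  refine ⟨fun x => f1 x + g1 x, ?_, fun x => ?_, ?_⟩
  · simp only [hf0, hg0, add_zero]
  · simp only [hf1 x, hg1 x]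
    ring
  · rw [cl_add]
    exact AddSubgroup.add_mem _ hf2 hg2

private lemma cl_mem {m : ℕ} [NeZero m] {A : AddSubgroup (UnitAddCircle →₀ ℤ)} (hA : HD ≤ A)
    {g : ZMod m → ℤ} (hg0 : g 0 = 0) (h : InA A (fun x => g x - g (-x))) : cl g ∈ A := by
  obtain ⟨g', h0, h1, h2⟩ := h
  have hcl : cl g = cl g' + cl (fun x => g x - g' x) := by
    rw [← cl_add]
    congr 1
    funext x
    ring
  rw [hcl]
  refine AddSubgroup.add_mem _ h2 (hA (pClEven m _ ?_ fun x => ?_))
  · simp only [hg0, h0, sub_zero]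
  · have h3 := h1 x
    simp only at h3
    linarith

end GInAAux

open GInAAux in
/-- **InA.** -/
theorem pInA : S_InA := by
  intro m _ A hA f g
  refine ⟨of_inHo hA, add', ⟨fun _ => 0, rfl, fun _ => by ring, ?_⟩, cl_mem hA⟩
  rw [cl_zero]
  exact AddSubgroup.zero_mem _

end Pool.Agent.FO
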