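import Pool.Agent.Lib.MP_640417_ag.GT.SpecQ

/-!
# Theorem QR: sums over squares are in the group
-/

set_option autoImplicit false

noncomputable section

open Finset Pool.Agent.FC

namespace Pool.Agent.FO

namespace GInQAux

private theorem sqi_iff {m d : ℕ} (x : ZMod m) :
    sqi m d x = 1 ↔ ∃ v : ℕ, v.Coprime d ∧ x = ((m / d : ℕ) : ZMod m) * (v : ZMod m) ^ 2 := by
  unfold sqi
  split_ifs with h
  · exact ⟨fun _ => h, fun _ => rfl⟩
  · exact ⟨fun h1 => absurd h1 zero_ne_one, fun h1 => absurd h1 h⟩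

private theorem sqi_zero {m d : ℕ} (x : ZMod m) (h : sqi m d x ≠ 1) : sqi m d x = 0 := by
  unfold sqi at h ⊢
  split_ifs with h1
  · rw [if_pos h1] at h
    exact absurd rfl h
  · rfl

private theorem empty_sq {m : ℕ} (x : ZMod m) : sqi m 1 x = 1 ↔ x = 0 := by
  rw [sqi_iff, Nat.div_one, ZMod.natCast_self]
  constructor
  · rintro ⟨v, -, hv⟩
    rw [hv, zero_mul]
  · rintro rfl
    exact ⟨0, Nat.coprime_one_right _, by rw [zero_mul]⟩

private theorem aq_empty (m : ℕ) (x : ZMod m) : Aq m ∅ x = 0 := by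
  have h0 : dT ∅ = 1 := by simp [dT]
  unfold Aq
  rw [h0]
  by_cases hx : x = 0
  · rw [hx, neg_zero, sub_self]
  · have h1 : sqi m 1 x = 0 := sqi_zero _ fun h => hx ((empty_sq x).1 h)
    have h2 : sqi m 1 (-x) = 0 := sqi_zero _ fun h => hx (neg_eq_zero.1 ((empty_sq (-x)).1 h))
    rw [h1, h2, sub_zero]

private theorem lev {S : Finset ℕ} (hS : ∀ p ∈ S, p.Prime) (h0 : S.Nonempty) : Lev (dT S) := by
  have hd0 : dT S ≠ 0 := by
    unfold dT
    refine Finset.prod_ne_zero_iff.2 fun p hp => ?_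
    have := (hS p hp).ne_zero
    split_ifs
    · norm_num
    · exact this
  refine ⟨?_, ∏ p ∈ S.erase 2, p, ?_, ?_, ?_⟩
  · obtain ⟨p, hp⟩ := h0
    have h1 : (if p = 2 then 4 else p) ∣ dT S := Finset.dvd_prod_of_mem (fun p => if p = 2 then 4 else p) hp
    have h2 := Nat.le_of_dvd (Nat.pos_of_ne_zero hd0) h1
    have h3 := (hS p hp).one_lt
    split_ifs at h2
    · omega
    · omega
  · refine Finset.squarefree_prod_of_pairwise_isCoprime (fun p hp q hq hpq => ?_)
      fun p hp => (hS p (Finset.mem_of_mem_erase hp)).squarefree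
    have hp' := hS p (Finset.mem_of_mem_erase (Finset.mem_coe.1 hp))
    have hq' := hS q (Finset.mem_of_mem_erase (Finset.mem_coe.1 hq))
    exact Nat.coprime_iff_isRelPrime.1 ((Nat.coprime_primes hp' hq').2 hpq)
  · intro h
    obtain ⟨p, hp, h2⟩ := (Nat.prime_two.prime.dvd_finsetProd_iff _).1 h
    have h3 := (Nat.prime_dvd_prime_iff_eq Nat.prime_two (hS p (Finset.mem_of_mem_erase hp))).1 h2
    exact (Finset.mem_erase.1 hp).1 h3.symm
  · have he : ∀ T : Finset ℕ, 2 ∉ T → ∏ p ∈ T, (if p = 2 then 4 else p) = ∏ p ∈ T, p := by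
      intro T hT
      refine Finset.prod_congr rfl fun p hp => if_neg ?_
      rintro rfl
      exact hT hp
    by_cases h2 : 2 ∈ S
    · right
      unfold dT
      rw [← Finset.mul_prod_erase S _ h2, he _ (Finset.notMem_erase 2 S), if_pos rfl]
    · left
      unfold dT
      rw [he S h2, Finset.erase_eq_of_notMem h2]

private theorem circ {m d : ℕ} [NeZero m] (hd : d ∣ m) (k : ℕ) :
    ZMod.toAddCircle (((m / d : ℕ) : ZMod m) * (k : ZMod m)) = Pool.Agent.FT.pt d k := by
  have hm0 : m ≠ 0 := NeZero.ne m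
  have hd0 : d ≠ 0 := by
    rintro rfl
    exact hm0 (Nat.eq_zero_of_zero_dvd hd)
  have hpos : 0 < m / d := Nat.div_pos (Nat.le_of_dvd (Nat.pos_of_ne_zero hm0) hd) (Nat.pos_of_ne_zero hd0)
  rw [← Nat.cast_mul, ZMod.toAddCircle_natCast]
  unfold Pool.Agent.FT.pt
  congr 1
  have h2 : (d : ℝ) ≠ 0 := by exact_mod_cast hd0
  have h3 : ((m / d : ℕ) : ℝ) ≠ 0 := by exact_mod_cast hpos.ne'
  have h4 : (m : ℝ) = (m / d : ℕ) * d := by
    rw [← Nat.cast_mul, Nat.div_mul_cancel hd]
  rw [h4]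
  push_cast
  field_simp

private theorem sqs_eq (d : ℕ) : ∃ K : Finset ℕ, (∀ k, k ∈ K ↔ k < d ∧ k.Coprime d ∧ IsSquare ((k : ℕ) : ZMod d)) ∧
    sqs d = ∑ k ∈ K, Finsupp.single (Pool.Agent.FT.pt d k) (1 : ℤ) := by
  classical
  unfold sqs
  refine ⟨_, fun k => ?_, rfl⟩
  rw [Finset.mem_filter, Finset.mem_range]

end GInQAux

open GInQAux in
theorem pInQ (hSqX : S_SqX) : S_InQ := by
  classical
  intro m _ S hS hd
  rcases S.eq_empty_or_nonempty with rfl | h0
  · refine ⟨fun _ => 0, rfl, fun x => ?_, ?_⟩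
    · rw [aq_empty, sub_zero]
    · have h1 : cl (fun _ : ZMod m => (0 : ℤ)) = 0 := by
        unfold cl
        simp
      rw [h1]
      exact GS.zero_mem
  · obtain ⟨-, x2, -, -, -, x6⟩ := hSqX m S hS hd
    have hL := lev hS h0
    have hm0 : m ≠ 0 := NeZero.ne m
    have hd0 : dT S ≠ 0 := by
      have := hL.1
      omega
    have : NeZero (dT S) := ⟨hd0⟩
    -- two natural numbers
    have heq : ∀ a b : ℕ, ((m / dT S : ℕ) : ZMod m) * (a : ZMod m) = ((m / dT S : ℕ) : ZMod m) * (b : ZMod m) ↔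
        (a : ZMod (dT S)) = (b : ZMod (dT S)) := by
      intro a b
      have h1 := x2 (a : ℤ) (b : ℤ)
      rw [Int.cast_natCast, Int.cast_natCast] at h1
      rw [h1, ← ZMod.intCast_eq_intCast_iff_dvd_sub, Int.cast_natCast, Int.cast_natCast]
      exact eq_comm
    refine ⟨sqi m (dT S), ?_, fun x => rfl, ?_⟩
    · apply sqi_zero
      intro h
      have h1 := x6 0 h
      rw [addOrderOf_zero] at h1
      have := hL.1
      omega
    · refine AddSubgroup.mem_sup_right (AddSubgroup.subset_closure ⟨dT S, hL, ?_⟩)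
      have hcl : cl (sqi m (dT S)) = ∑ x ∈ univ.filter (fun x : ZMod m => sqi m (dT S) x = 1),
          Finsupp.single (ZMod.toAddCircle x) (1 : ℤ) := by
        unfold cl
        rw [Finset.sum_filter]
        refine Finset.sum_congr rfl fun x _ => ?_
        split_ifs with h
        · rw [h]
        · rw [sqi_zero x h, Finsupp.single_zero]
      rw [hcl]
      obtain ⟨K, hK, hs⟩ := sqs_eq (dT S)
      rw [hs]
      symm
      refine Finset.sum_bij (fun k _ => ((m / dT S : ℕ) : ZMod m) * (k : ZMod m)) ?_ ?_ ?_ ?_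
      · intro k hk
        obtain ⟨hk1, hk2, r, hr⟩ := (hK k).1 hk
        refine Finset.mem_filter.2 ⟨Finset.mem_univ _, (sqi_iff _).2 ⟨r.val, ?_, ?_⟩⟩
        · have hu : IsUnit (r * r) := by
            rw [← hr]
            exact (ZMod.isUnit_iff_coprime k (dT S)).2 hk2
          have hu' : IsUnit r := isUnit_of_mul_isUnit_left hu
          have h1 : IsUnit ((r.val : ℕ) : ZMod (dT S)) := by
            rwa [ZMod.natCast_zmod_val]
          exact (ZMod.isUnit_iff_coprime _ _).1 h1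
        · rw [← Nat.cast_pow]
          refine (heq k (r.val ^ 2)).2 ?_
          rw [hr, Nat.cast_pow, ZMod.natCast_zmod_val, sq]
      · intro k hk k' hk' h
        have hk1 := ((hK k).1 hk).1
        have hk1' := ((hK k').1 hk').1
        have h1 := (heq k k').1 h
        have h2 := (ZMod.natCast_eq_natCast_iff' _ _ _).1 h1
        rwa [Nat.mod_eq_of_lt hk1, Nat.mod_eq_of_lt hk1'] at h2
      · intro x hx
        obtain ⟨v, hv, hxv⟩ := (sqi_iff x).1 (Finset.mem_filter.1 hx).2
        refine ⟨v ^ 2 % dT S, (hK _).2 ⟨Nat.mod_lt _ (Nat.pos_of_ne_zero hd0), ?_, ?_⟩, ?_⟩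
        · unfold Nat.Coprime
          rw [← Nat.gcd_rec, Nat.gcd_comm]
          exact hv.pow_left 2
        · rw [ZMod.natCast_mod]
          exact ⟨(v : ZMod (dT S)), by rw [Nat.cast_pow, sq]⟩
        · rw [hxv, ← Nat.cast_pow]
          refine (heq _ _).2 ?_
          rw [ZMod.natCast_mod]
      · intro k _
        rw [circ hd]

end Pool.Agent.FO
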