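import Pool.Agent.Lib.MP_640417_ag.GT.SpecS

/-!
# Theorem GT, part S: averaging of the Stickelberger sums
-/

set_option autoImplicit false

noncomputable section

open Finset Pool.Agent.FC

namespace Pool.Agent.FO

namespace GKbAux

/-- the number of solutions -/
private lemma card_fib (m q : ℕ) [NeZero m] (hqp : q.Prime) (hqm : q ∣ m) (x0 : ZMod m) :
    #(univ.filter fun x : ZMod m => (q : ZMod m) * x = q * x0) = q := by
  have hm : 0 < m := Nat.pos_of_ne_zero (NeZero.ne m)
  have hM : 0 < m / q := Nat.div_pos (Nat.le_of_dvd hm hqm) hqp.pos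
  have hmul : q * (m / q) = m := Nat.mul_div_cancel' hqm
  have hlt : ∀ i < q, i * (m / q) < m := by
    intro i hi
    calc i * (m / q) < q * (m / q) := Nat.mul_lt_mul_of_pos_right hi hM
      _ = m := hmul
  have h : #(range q) = #(univ.filter fun x : ZMod m => (q : ZMod m) * x = q * x0) := by
    apply Finset.card_bij (fun i _ => x0 + ((i * (m / q) : ℕ) : ZMod m))
    · intro i _
      rw [mem_filter]
      refine ⟨mem_univ _, ?_⟩
      rw [mul_add, ← Nat.cast_mul, mul_left_comm, hmul]
      simp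
    · intro i hi j hj h
      have h' := add_left_cancel h
      rw [ZMod.natCast_eq_natCast_iff', Nat.mod_eq_of_lt (hlt i (mem_range.1 hi)),
        Nat.mod_eq_of_lt (hlt j (mem_range.1 hj))] at h'
      exact Nat.eq_of_mul_eq_mul_right hM h'
    · intro x hx
      rw [mem_filter] at hx
      have h1 : (q : ZMod m) * (x - x0) = 0 := by
        rw [mul_sub, hx.2, sub_self]
      have h2 : m ∣ q * (x - x0).val := by
        rw [← ZMod.natCast_eq_zero_iff, Nat.cast_mul, ZMod.natCast_zmod_val]
        exact h1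
      have h3 : (m / q) ∣ (x - x0).val := by
        apply Nat.dvd_of_mul_dvd_mul_left hqp.pos
        rw [hmul]
        exact h2
      obtain ⟨i, hi⟩ := h3
      refine ⟨i, ?_, ?_⟩
      · rw [mem_range]
        by_contra hcon
        push Not at hcon
        have h4 := ZMod.val_lt (x - x0)
        rw [hi] at h4
        nlinarith
      · have h5 : ((x - x0).val : ZMod m) = x - x0 := ZMod.natCast_zmod_val _
        rw [mul_comm i, ← hi, h5]
        ring
  rw [← h, card_range]

/-- the sums do not change if the element is multiplied by a unit which is `1` modulo `420` -/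
private lemma SN_unit (c : ℕ → ℚ) (m : ℕ) [NeZero m] (h420 : 420 ∣ m) (x : ZMod m) (k : (ZMod m)ˣ)
    (hk : (k : ZMod m).val % 420 = 1) : SN c ((k : ZMod m) * x) = SN c x := by
  unfold SN
  congr 1
  refine Fintype.sum_equiv (Equiv.mulRight k) _ _ fun t => ?_
  have h1 : (((t * k : (ZMod m)ˣ) : ZMod m)).val % 420 = (t : ZMod m).val % 420 := by
    rw [Units.val_mul, ZMod.val_mul, Nat.mod_mod_of_dvd _ h420, Nat.mul_mod, hk, mul_one, Nat.mod_mod]
  show c ((t : ZMod m).val % 420) * sz ((t : ZMod m) * ((k : ZMod m) * x)) =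
    c ((((t * k : (ZMod m)ˣ) : ZMod m)).val % 420) * sz (((t * k : (ZMod m)ˣ) : ZMod m) * x)
  rw [h1, Units.val_mul, mul_assoc]

/-- the distribution relation for the sums -/
private lemma SN_dist (c : ℕ → ℚ) (m p : ℕ) [NeZero m] (hpm : p ∣ m) (x : ZMod m) :
    ∑ y ∈ univ.filter (fun y : ZMod m => (p : ZMod m) * y = p * x), SN c y = SN c ((p : ZMod m) * x) := by
  unfold SN
  rw [← Finset.mul_sum, Finset.sum_comm]
  congr 1
  refine Finset.sum_congr rfl fun t _ => ?_
  rw [← Finset.mul_sum]
  congr 1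
  have h1 : (t : ZMod m).val.Coprime p := Nat.Coprime.coprime_dvd_right hpm (ZMod.val_coe_unit_coprime t)
  have h2 := (hDist m p hpm).2 (t : ZMod m).val h1 x
  rw [ZMod.natCast_zmod_val] at h2
  rw [h2]
  congr 1
  ring

/-- the element of order `ord (p x)` -/
private lemma exists_low (m p d : ℕ) [NeZero m] (hc : p.Coprime d) (x : ZMod m)
    (hd : addOrderOf ((p : ZMod m) * x) = d) :
    ∃ x' : ZMod m, addOrderOf x' = d ∧ (p : ZMod m) * x' = p * x := by
  obtain ⟨a, b, hab⟩ : IsCoprime (p : ℤ) (d : ℤ) := Nat.isCoprime_iff_coprime.2 hc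
  set z : ZMod m := (p : ZMod m) * x with hz
  have h0 : (d : ZMod m) * z = 0 := by
    have h := addOrderOf_nsmul_eq_zero z
    rw [hd, nsmul_eq_mul] at h
    exact h
  have hab' : (a : ZMod m) * (p : ZMod m) + (b : ZMod m) * (d : ZMod m) = 1 := by
    have := congrArg (fun z : ℤ => (z : ZMod m)) hab
    push_cast at this
    exact this
  have h1 : (p : ZMod m) * ((a : ZMod m) * z) = z := by
    calc (p : ZMod m) * ((a : ZMod m) * z) = ((a : ZMod m) * (p : ZMod m) + (b : ZMod m) * (d : ZMod m)) * z -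
        (b : ZMod m) * ((d : ZMod m) * z) := by ring
      _ = z := by rw [hab', h0]; ring
  refine ⟨(a : ZMod m) * z, ?_, h1⟩
  have h2 : addOrderOf ((a : ZMod m) * z) ∣ d := by
    rw [← hd]
    apply addOrderOf_dvd_of_nsmul_eq_zero
    rw [nsmul_eq_mul, hd]
    calc (d : ZMod m) * ((a : ZMod m) * z) = (a : ZMod m) * ((d : ZMod m) * z) := by ring
      _ = 0 := by rw [h0, mul_zero]
  have h3 : d ∣ addOrderOf ((a : ZMod m) * z) := by
    conv_lhs => rw [← hd, ← h1]
    apply addOrderOf_dvd_of_nsmul_eq_zero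
    rw [nsmul_eq_mul]
    have h4 := addOrderOf_nsmul_eq_zero ((a : ZMod m) * z)
    rw [nsmul_eq_mul] at h4
    calc ((addOrderOf ((a : ZMod m) * z) : ℕ) : ZMod m) * ((p : ZMod m) * ((a : ZMod m) * z)) =
        (p : ZMod m) * (((addOrderOf ((a : ZMod m) * z) : ℕ) : ZMod m) * ((a : ZMod m) * z)) := by ring
      _ = 0 := by rw [h4, mul_zero]
  exact Nat.dvd_antisymm h2 h3

end GKbAux

open GKbAux in
theorem pKb (hKu : S_Ku) : S_Kb := by
  intro c m p _ h420 hp x hfac
  set n := addOrderOf x with hn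
  have hn0 : 0 < n := by
    rw [hn]
    exact addOrderOf_pos x
  have hNn : NeZero n := ⟨hn0.ne'⟩
  have hnm : n ∣ m := by
    have h := addOrderOf_dvd_card (x := x)
    rwa [ZMod.card] at h
  have hpn : p ∣ n := by
    apply Nat.dvd_of_factorization_pos
    omega
  have hpm : p ∣ m := hpn.trans hnm
  obtain ⟨u, hu⟩ := (hEl m n hnm).2.2.1 x hn.symm
  obtain ⟨E1, -, -, E4, E5⟩ := hElP m n p hnm hp hpn
  have hord : addOrderOf ((p : ZMod m) * x) = n / p := by
    rw [← hu]
    exact E1 u
  refine ⟨hord, ?_, ?_⟩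
  · intro hp2
    have hpd : p ∣ n / p := by
      obtain ⟨w, hw⟩ := hp2
      refine ⟨w, ?_⟩
      rw [hw, pow_two, mul_assoc]
      exact Nat.mul_div_cancel_left _ hp.pos
    have h1 : ∀ y ∈ univ.filter (fun y : ZMod m => (p : ZMod m) * y = p * x), SN c y = SN c x := by
      intro y hy
      rw [mem_filter] at hy
      rcases E4 y (by rw [hy.2]; exact hord) with h | h
      · obtain ⟨k, hk, rfl⟩ := hKu m p h420 hp x hfac y hy.2 (h.trans hn)
        exact SN_unit c m h420 x k hk
      · exact absurd hpd h.2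
    rw [← SN_dist c m p hpm x, Finset.sum_congr rfl h1, Finset.sum_const, card_fib m p hp hpm x, nsmul_eq_mul]
  · intro hp2
    have hpd : ¬ p ∣ n / p := by
      rintro ⟨w, hw⟩
      apply hp2
      refine ⟨w, ?_⟩
      rw [pow_two, mul_assoc, ← hw, Nat.mul_div_cancel' hpn]
    obtain ⟨x', hx1, hx2⟩ := exists_low m p (n / p) ((Nat.Prime.coprime_iff_not_dvd hp).2 hpd) x hord
    refine ⟨x', hx1, hx2, ?_⟩
    have hmem : x' ∈ univ.filter (fun y : ZMod m => (p : ZMod m) * y = p * x) := by
      rw [mem_filter]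
      exact ⟨mem_univ _, hx2⟩
    have h1 : ∀ y ∈ (univ.filter (fun y : ZMod m => (p : ZMod m) * y = p * x)).erase x', SN c y = SN c x := by
      intro y hy
      rw [mem_erase, mem_filter] at hy
      rcases E4 y (by rw [hy.2.2]; exact hord) with h | h
      · obtain ⟨k, hk, rfl⟩ := hKu m p h420 hp x hfac y hy.2.2 (h.trans hn)
        exact SN_unit c m h420 x k hk
      · exact absurd (E5 hpd y x' h.1 hx1 (by rw [hy.2.2, hx2])) hy.1
    rw [← SN_dist c m p hpm x, ← Finset.add_sum_erase _ _ hmem, Finset.sum_congr rfl h1, Finset.sum_const,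
      card_erase_of_mem hmem, card_fib m p hp hpm x, nsmul_eq_mul, Nat.cast_sub hp.one_lt.le]
    push_cast
    ring

end Pool.Agent.FO
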