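import Pool.Agent.Lib.MP_640417_ag.GT.SpecS

/-!
# Theorem GT, part S, module Kc: means of Stickelberger sums
-/

set_option autoImplicit false

noncomputable section

open Finset Pool.Agent.FC

namespace Pool.Agent.FO

namespace GKcAux

variable {m : ℕ} [NeZero m]

theorem mt_nonneg (Λ : ZMod m → ℚ) (x : ZMod m) : 0 ≤ mt Λ x := by
  unfold mt
  exact div_nonneg (Finset.sum_nonneg fun _ _ => abs_nonneg _) (Nat.cast_nonneg _)

/-- substitution of a unit -/
theorem mt_unit (Λ : ZMod m → ℚ) (x : ZMod m) (u : (ZMod m)ˣ) : mt Λ ((u : ZMod m) * x) = mt Λ x := by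
  unfold mt
  congr 1
  refine Fintype.sum_equiv (Equiv.mulRight u) _ _ fun t => ?_
  simp only [Equiv.coe_mulRight, Units.val_mul, mul_assoc]

theorem ord_dvd (x : ZMod m) : addOrderOf x ∣ m := by
  rw [addOrderOf_dvd_iff_nsmul_eq_zero, nsmul_eq_mul, ZMod.natCast_self, zero_mul]

theorem ord_pos (x : ZMod m) : 0 < addOrderOf x :=
  Nat.pos_of_ne_zero fun h => NeZero.ne m (Nat.eq_zero_of_zero_dvd (h ▸ ord_dvd x))

/-- elements of the same order are unit multiples -/
theorem ex_unit {x y : ZMod m} (h : addOrderOf x = addOrderOf y) : ∃ u : (ZMod m)ˣ, y = (u : ZMod m) * x := by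
  haveI : NeZero (addOrderOf x) := ⟨(ord_pos x).ne'⟩
  obtain ⟨-, -, h3, h4, -⟩ := hEl m (addOrderOf x) (ord_dvd x)
  obtain ⟨u, hu⟩ := h3 x rfl
  obtain ⟨v, hv⟩ := h3 y h.symm
  obtain ⟨w, hw⟩ := ZMod.unitsMap_surjective (ord_dvd x) (v * u⁻¹)
  refine ⟨w, ?_⟩
  have h5 := h4 w u
  rw [hw, inv_mul_cancel_right, hu, hv] at h5
  exact h5.symm

theorem mt_ord (Λ : ZMod m → ℚ) {x y : ZMod m} (h : addOrderOf x = addOrderOf y) : mt Λ x = mt Λ y := by
  obtain ⟨u, rfl⟩ := ex_unit h
  exact (mt_unit Λ x u).symm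

theorem ord_unit (x : ZMod m) (u : (ZMod m)ˣ) : addOrderOf ((u : ZMod m) * x) = addOrderOf x := by
  have h1 : ∀ (w : (ZMod m)ˣ) (y : ZMod m), addOrderOf ((w : ZMod m) * y) ∣ addOrderOf y := by
    intro w y
    rw [addOrderOf_dvd_iff_nsmul_eq_zero, nsmul_eq_mul, mul_left_comm, ← nsmul_eq_mul,
      addOrderOf_nsmul_eq_zero, mul_zero]
  refine Nat.dvd_antisymm (h1 u x) ?_
  have h2 := h1 u⁻¹ ((u : ZMod m) * x)
  rwa [Units.inv_mul_cancel_left] at h2

/-- the greatest common divisor with `420` -/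
theorem gcd_div {n p : ℕ} (hn : 0 < n) (hp : p.Prime) (h : Nat.factorization 420 p < n.factorization p) :
    p ∣ n ∧ Nat.gcd (n / p) 420 = Nat.gcd n 420 := by
  have hpn : p ∣ n := Nat.dvd_of_factorization_pos (by omega)
  obtain ⟨k, rfl⟩ := hpn
  have hk0 : k ≠ 0 := by
    rintro rfl
    simp at hn
  rw [Nat.mul_div_cancel_left _ hp.pos]
  refine ⟨Dvd.intro _ rfl, Nat.dvd_antisymm (Nat.gcd_dvd_gcd_of_dvd_left _ (Dvd.intro_left _ rfl)) ?_⟩
  refine Nat.dvd_gcd ?_ (Nat.gcd_dvd_right _ _)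
  have hg0 : Nat.gcd (p * k) 420 ≠ 0 := Nat.gcd_ne_zero_right (by norm_num)
  rw [← Nat.factorization_le_iff_dvd hg0 hk0]
  intro q
  by_cases hq : q = p
  · subst hq
    have h1 : (Nat.gcd (q * k) 420).factorization q ≤ Nat.factorization 420 q :=
      (Nat.factorization_le_iff_dvd hg0 (by norm_num)).2 (Nat.gcd_dvd_right _ _) q
    rw [Nat.factorization_mul hp.ne_zero hk0, Finsupp.add_apply, hp.factorization_self] at h
    omega
  · have h1 : (Nat.gcd (p * k) 420).factorization q ≤ (p * k).factorization q :=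
      (Nat.factorization_le_iff_dvd hg0 (by positivity)).2 (Nat.gcd_dvd_left _ _) q
    rw [Nat.factorization_mul hp.ne_zero hk0, Finsupp.add_apply, hp.factorization,
      Finsupp.single_eq_of_ne hq, zero_add] at h1
    exact h1

theorem ex_prime {n : ℕ} (hn : 0 < n) (h : ¬ n ∣ 420) :
    ∃ p : ℕ, p.Prime ∧ Nat.factorization 420 p < n.factorization p := by
  rw [← Nat.factorization_le_iff_dvd hn.ne' (by norm_num)] at h
  have h1 : ∃ p, ¬ n.factorization p ≤ Nat.factorization 420 p := by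
    by_contra hc
    push_neg at hc
    exact h hc
  obtain ⟨p, hp⟩ := h1
  refine ⟨p, ?_, not_le.1 hp⟩
  by_contra hc
  rw [Nat.factorization_eq_zero_of_not_prime _ hc] at hp
  exact hp (Nat.zero_le _)

/-- one step -/
theorem step (hKb : S_Kb) (c : ℕ → ℚ) (hm : 420 ∣ m) (x : ZMod m) {p : ℕ} (hp : p.Prime)
    (h : Nat.factorization 420 p < (addOrderOf x).factorization p) :
    addOrderOf ((p : ZMod m) * x) = addOrderOf x / p ∧ 2 * mt (SN c) x ≤ mt (SN c) ((p : ZMod m) * x) := by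
  obtain ⟨h1, -, -⟩ := hKb c m p hm hp x h
  refine ⟨h1, ?_⟩
  have h' : ∀ t : (ZMod m)ˣ, Nat.factorization 420 p < (addOrderOf ((t : ZMod m) * x)).factorization p := by
    intro t
    rw [ord_unit]
    exact h
  have hpos : (0 : ℚ) ≤ (m.totient : ℚ) := Nat.cast_nonneg _
  have ecomm : ∀ t : (ZMod m)ˣ, (p : ZMod m) * ((t : ZMod m) * x) = (t : ZMod m) * ((p : ZMod m) * x) :=
    fun t => mul_left_comm _ _ _
  by_cases h2 : p ^ 2 ∣ addOrderOf x
  · have h3 : ∀ t : (ZMod m)ˣ, (p : ℚ) * |SN c ((t : ZMod m) * x)| = |SN c ((t : ZMod m) * ((p : ZMod m) * x))| := by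
      intro t
      obtain ⟨-, k2, -⟩ := hKb c m p hm hp _ (h' t)
      have k3 := k2 (by rw [ord_unit]; exact h2)
      rw [ecomm] at k3
      rw [← k3, abs_mul, Nat.abs_cast]
    have h4 : (p : ℚ) * mt (SN c) x = mt (SN c) ((p : ZMod m) * x) := by
      unfold mt
      rw [← mul_div_assoc, Finset.mul_sum]
      congr 1
      exact Finset.sum_congr rfl fun t _ => h3 t
    rw [← h4]
    have h5 : (2 : ℚ) ≤ p := by exact_mod_cast hp.two_le
    exact mul_le_mul_of_nonneg_right h5 (mt_nonneg _ _)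
  · obtain ⟨-, -, k3⟩ := hKb c m p hm hp x h
    obtain ⟨x1, hx1, hx2, -⟩ := k3 h2
    have hpn : p ∣ addOrderOf x := Nat.dvd_of_factorization_pos (by omega)
    -- `p` is prime to `ord x / p`
    have hcop : p.Coprime (addOrderOf x / p) := by
      rw [Nat.Prime.coprime_iff_not_dvd hp]
      intro h5
      apply h2
      obtain ⟨j, hj⟩ := h5
      refine ⟨j, ?_⟩
      have := Nat.div_mul_cancel hpn
      rw [hj] at this
      rw [← this]
      ring
    -- `p ≥ 11`
    have hp11 : 11 ≤ p := by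
      have h5 : (addOrderOf x).factorization p ≤ 1 := by
        by_contra hc
        exact h2 ((Nat.Prime.pow_dvd_iff_le_factorization hp (ord_pos x).ne').2 (by omega))
      have h6 : ¬ p ∣ 420 := by
        intro h7
        have h8 : 0 < Nat.factorization 420 p := hp.factorization_pos_of_dvd (by norm_num) h7
        omega
      by_contra hc
      have h7 : p ≤ 10 := by omega
      have h8 : p ∣ 420 ∨ ¬ p.Prime := by
        clear * - h7
        interval_cases p <;> first
          | (left; norm_num; done)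
          | (right; norm_num; done)
      rcases h8 with h8 | h8
      · exact h6 h8
      · exact h8 hp
    have key : ∀ t : (ZMod m)ˣ, ((p : ℚ) - 1) * |SN c ((t : ZMod m) * x)| ≤
        |SN c ((t : ZMod m) * ((p : ZMod m) * x))| + |SN c ((t : ZMod m) * x1)| := by
      intro t
      obtain ⟨-, -, k4⟩ := hKb c m p hm hp _ (h' t)
      obtain ⟨x2, hy1, hy2, hy3⟩ := k4 (by rw [ord_unit]; exact h2)
      rw [ord_unit] at hy1
      have e : x2 = (t : ZMod m) * x1 := by
        have h5 : (p : ℕ) • (x2 - (t : ZMod m) * x1) = 0 := by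
          rw [nsmul_eq_mul, mul_sub, hy2, mul_left_comm (p : ZMod m) (t : ZMod m) x1, hx2, ecomm, sub_self]
        have h6 : (addOrderOf x / p) • (x2 - (t : ZMod m) * x1) = 0 := by
          rw [nsmul_sub, ← hy1, addOrderOf_nsmul_eq_zero, hy1, ← hx1, nsmul_eq_mul,
            mul_left_comm, ← nsmul_eq_mul, addOrderOf_nsmul_eq_zero, mul_zero, sub_zero]
        have h7 := Nat.dvd_gcd (addOrderOf_dvd_of_nsmul_eq_zero h5) (addOrderOf_dvd_of_nsmul_eq_zero h6)
        rw [hcop] at h7
        exact sub_eq_zero.1 (AddMonoid.addOrderOf_eq_one_iff.1 (Nat.dvd_one.1 h7))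
      rw [ecomm, e] at hy3
      have hp1 : (0 : ℚ) ≤ (p : ℚ) - 1 := by
        have : (11 : ℚ) ≤ p := by exact_mod_cast hp11
        linarith
      rw [← abs_of_nonneg hp1, ← abs_mul, hy3]
      exact abs_sub _ _
    have h8 : ((p : ℚ) - 1) * mt (SN c) x ≤ mt (SN c) ((p : ZMod m) * x) + mt (SN c) x1 := by
      unfold mt
      rw [← add_div, ← mul_div_assoc, Finset.mul_sum, ← Finset.sum_add_distrib]
      exact div_le_div_of_nonneg_right (Finset.sum_le_sum fun t _ => key t) hpos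
    have h9 : mt (SN c) x1 = mt (SN c) ((p : ZMod m) * x) := mt_ord _ (by rw [hx1, h1])
    rw [h9] at h8
    have h10 : (11 : ℚ) ≤ p := by exact_mod_cast hp11
    have h11 := mt_nonneg (SN c) x
    nlinarith

end GKcAux

/-- **Kc.** -/
theorem pKc (hKb : S_Kb) : S_Kc := by
  intro c m _ hm x y
  have key : ∀ (n : ℕ) (x : ZMod m), addOrderOf x = n → ∀ y : ZMod m, addOrderOf y = Nat.gcd n 420 →
      mt (SN c) x ≤ mt (SN c) y ∧ (¬ n ∣ 420 → 2 * mt (SN c) x ≤ mt (SN c) y) := by
    intro n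
    induction n using Nat.strong_induction_on with
    | _ n ih =>
      intro x hx y hy
      have hn : 0 < n := hx ▸ GKcAux.ord_pos x
      by_cases h : n ∣ 420
      · rw [Nat.gcd_eq_left h] at hy
        exact ⟨(GKcAux.mt_ord _ (hx.trans hy.symm)).le, fun h' => absurd h h'⟩
      · obtain ⟨p, hp, hf⟩ := GKcAux.ex_prime hn h
        obtain ⟨hd, hg⟩ := GKcAux.gcd_div hn hp hf
        obtain ⟨s1, s2⟩ := GKcAux.step hKb c hm x hp (by rw [hx]; exact hf)
        rw [hx] at s1
        have hlt : n / p < n := Nat.div_lt_self hn hp.one_lt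
        have h1 := (ih (n / p) hlt _ s1 y (by rw [hg]; exact hy)).1
        have h2 := GKcAux.mt_nonneg (SN c) x
        exact ⟨by linarith, fun _ => by linarith⟩
  intro h
  exact key (addOrderOf x) x rfl y h

end Pool.Agent.FO
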