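import Pool.Agent.Lib.MP_640417_ag.GT.SpecL

/-!
# Theorem GT, part L: lowering the level of a tuple
-/

set_option autoImplicit false

noncomputable section

namespace Pool.Agent.FO

open Finset Pool.Agent.FC

namespace GLowAux

theorem ord_circle {m : ℕ} [NeZero m] (x : ZMod m) :
    addOrderOf (ZMod.toAddCircle x : UnitAddCircle) = addOrderOf x :=
  addOrderOf_injective (ZMod.toAddCircle (N := m)) (ZMod.toAddCircle_injective m) x

/-- the fractions agree -/
theorem cross {m s : ℕ} [NeZero m] [NeZero s] (x : ZMod m) (y : ZMod s)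
    (h : (ZMod.toAddCircle y : UnitAddCircle) = ZMod.toAddCircle x) : y.val * m = x.val * s := by
  have hm : (0 : ℝ) < m := by exact_mod_cast Nat.pos_of_ne_zero (NeZero.ne m)
  have hs : (0 : ℝ) < s := by exact_mod_cast Nat.pos_of_ne_zero (NeZero.ne s)
  rw [ZMod.toAddCircle_apply, ZMod.toAddCircle_apply] at h
  have hx : (x.val : ℝ) / m ∈ Set.Ico (0 : ℝ) (0 + 1) := by
    refine ⟨by positivity, ?_⟩
    rw [zero_add, div_lt_one hm]
    exact_mod_cast ZMod.val_lt x
  have hy : (y.val : ℝ) / s ∈ Set.Ico (0 : ℝ) (0 + 1) := by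
    refine ⟨by positivity, ?_⟩
    rw [zero_add, div_lt_one hs]
    exact_mod_cast ZMod.val_lt y
  have h1 := (AddCircle.coe_eq_coe_iff_of_mem_Ico hy hx).1 h
  rw [div_eq_div_iff hs.ne' hm.ne'] at h1
  exact_mod_cast h1

theorem val_div {m : ℕ} [NeZero m] (x : ZMod m) {n : ℕ} (hn : addOrderOf x = n) :
    n ∣ m ∧ 0 < n ∧ ∃ A : ℕ, x.val = m / n * A := by
  have hm : 0 < m := Nat.pos_of_ne_zero (NeZero.ne m)
  have h1 : n ∣ m := by
    rw [← hn, addOrderOf_dvd_iff_nsmul_eq_zero, nsmul_eq_mul, ZMod.natCast_self, zero_mul]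
  have hn0 : 0 < n := Nat.pos_of_dvd_of_pos h1 hm
  refine ⟨h1, hn0, ?_⟩
  have h2 : m ∣ n * x.val := by
    have h3 : n • x = 0 := by rw [← hn, addOrderOf_nsmul_eq_zero]
    rw [← ZMod.natCast_eq_zero_iff, Nat.cast_mul, ZMod.natCast_zmod_val, ← nsmul_eq_mul]
    exact h3
  have h4 : n * (m / n) ∣ n * x.val := by
    rw [Nat.mul_div_cancel' h1]
    exact h2
  exact Nat.dvd_of_mul_dvd_mul_left hn0 h4

theorem lam_eq {m s : ℕ} [NeZero m] [NeZero s] (x : ZMod m) (y : ZMod s)
    (h : (ZMod.toAddCircle y : UnitAddCircle) = ZMod.toAddCircle x)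
    (ho : addOrderOf y = addOrderOf x) (l : List ℕ) (q : ℕ) : lam l q y = lam l q x := by
  obtain ⟨n, hn⟩ : ∃ n, addOrderOf x = n := ⟨_, rfl⟩
  have hc := cross x y h
  obtain ⟨⟨r, hr⟩, hn0, A, hA⟩ := val_div x hn
  obtain ⟨⟨r', hr'⟩, -, B, hB⟩ := val_div y (ho.trans hn)
  have h1 : m / n = r := by rw [hr, Nat.mul_div_cancel_left _ hn0]
  have h2 : s / n = r' := by rw [hr', Nat.mul_div_cancel_left _ hn0]
  have hr0 : 0 < r := by
    rcases Nat.eq_zero_or_pos r with h0 | h0
    · rw [h0, mul_zero] at hr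
      exact absurd hr (NeZero.ne m)
    · exact h0
  have hr0' : 0 < r' := by
    rcases Nat.eq_zero_or_pos r' with h0 | h0
    · rw [h0, mul_zero] at hr'
      exact absurd hr' (NeZero.ne s)
    · exact h0
  have hAB : B = A := by
    rw [hA, hB, h1, h2] at hc
    have h3 : (r' * r * n) * B = (r' * r * n) * A := by
      calc (r' * r * n) * B = r' * B * (n * r) := by ring
        _ = r' * B * m := by rw [← hr]
        _ = r * A * s := hc
        _ = r * A * (n * r') := by rw [← hr']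
        _ = (r' * r * n) * A := by ring
    exact Nat.eq_of_mul_eq_mul_left (Nat.mul_pos (Nat.mul_pos hr0' hr0) hn0) h3
  unfold lam
  rw [ho, hn, h1, h2, hA, hB, h1, h2, Nat.mul_div_cancel_left _ hr0, Nat.mul_div_cancel_left _ hr0',
    hAB]

end GLowAux

open GLowAux

theorem pLow : S_Low := by
  intro m s _ _ ι _ a ha0 hSt hord
  have h1 : ∀ i, s • (ZMod.toAddCircle (a i) : UnitAddCircle) = 0 := by
    intro i
    rw [← addOrderOf_dvd_iff_nsmul_eq_zero, ord_circle]
    exact hord i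
  choose b hb using fun i => exists_toAddCircle (h1 i)
  have hb0 : ∀ i, b i ≠ 0 := by
    intro i h0
    have h2 := hb i
    rw [h0, map_zero] at h2
    exact toAddCircle_ne_zero (ha0 i) h2.symm
  have hob : ∀ i, addOrderOf (b i) = addOrderOf (a i) := by
    intro i
    rw [← ord_circle, ← ord_circle, hb i]
  refine ⟨b, hb0, ?_, hob, fun i l q => lam_eq (a i) (b i) (hb i) (hob i) l q⟩
  refine St_of_RelOn b hb0 ?_
  have h2 := RelOn_of_St a ha0 hSt
  have h3 : (fun i => (ZMod.toAddCircle (b i) : UnitAddCircle)) =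
      fun i => (ZMod.toAddCircle (a i) : UnitAddCircle) := funext hb
  rw [h3]
  exact h2

end Pool.Agent.FO
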