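import Pool.Agent.Lib.MP_640417_ag.GT.SpecS
import Pool.Agent.Lib.MP_640417_ag.GT.Low

/-!
# Theorem GT, part S: transfer to the level 420
-/

set_option autoImplicit false

noncomputable section

namespace Pool.Agent.FO

open Finset Pool.Agent.FC

/-- Sums over a surjective homomorphism of finite groups, rational values. -/
private theorem GKd_fib {G H : Type} [Group G] [Fintype G] [Group H] [Fintype H] (f : G →* H)
    (hf : Function.Surjective f) (g : H → ℚ) :
    (Fintype.card H : ℚ) * ∑ t, g (f t) = (Fintype.card G : ℚ) * ∑ w, g w := by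
  classical
  have h1 : ∀ w : H, (univ.filter fun t : G => f t = w).card =
      (univ.filter fun t : G => f t = 1).card := by
    intro w
    exact MonoidHom.card_fiber_eq_of_mem_range f (hf w) (hf 1)
  have h2 : ∑ t, g (f t) = ((univ.filter fun t : G => f t = 1).card : ℚ) * ∑ w, g w := by
    rw [← Finset.sum_fiberwise univ f (fun t => g (f t)), Finset.mul_sum]
    refine Finset.sum_congr rfl fun w _ => ?_
    have h3 : ∀ t ∈ univ.filter (fun t : G => f t = w), g (f t) = g w := by
      intro t ht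
      rw [(Finset.mem_filter.1 ht).2]
    rw [Finset.sum_congr rfl h3, Finset.sum_const, nsmul_eq_mul, h1 w]
  have h4 : Fintype.card G = Fintype.card H * (univ.filter fun t : G => f t = 1).card := by
    rw [← Finset.card_univ, Finset.card_eq_sum_card_fiberwise (f := f) (t := univ)
      (fun _ _ => Finset.mem_coe.2 (Finset.mem_univ _)), Finset.sum_congr rfl fun w _ => h1 w,
      Finset.sum_const, smul_eq_mul, Finset.card_univ]
  rw [h2, h4]
  push_cast
  ring

/-- the sawtooth function depends only on the point of the circle -/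
private theorem GKd_sz {m s : ℕ} [NeZero m] [NeZero s] (x : ZMod m) (y : ZMod s)
    (h : (ZMod.toAddCircle y : UnitAddCircle) = ZMod.toAddCircle x) : sz y = sz x := by
  have hc := GLowAux.cross x y h
  have hm : (m : ℚ) ≠ 0 := Nat.cast_ne_zero.2 (NeZero.ne m)
  have hs : (s : ℚ) ≠ 0 := Nat.cast_ne_zero.2 (NeZero.ne s)
  unfold sz
  by_cases hx : x = 0
  · have hy : y = 0 := by
      apply ZMod.toAddCircle_injective s
      rw [h, hx, map_zero, map_zero]
    rw [if_pos hx, if_pos hy]
  · have hy : y ≠ 0 := by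
      intro hy
      apply hx
      apply ZMod.toAddCircle_injective m
      rw [← h, hy, map_zero, map_zero]
    have h1 : (y.val : ℚ) / s = (x.val : ℚ) / m := by
      rw [div_eq_div_iff hs hm]
      exact_mod_cast hc
    rw [if_neg hx, if_neg hy, h1]

private theorem GKd_val {m s : ℕ} [NeZero m] [NeZero s] (hd : s ∣ m) (t : (ZMod m)ˣ) :
    ((ZMod.unitsMap hd t : (ZMod s)ˣ) : ZMod s).val = (t : ZMod m).val % s := by
  rw [ZMod.unitsMap_val hd t, ← ZMod.val_natCast, ZMod.natCast_val]

theorem pKd : S_Kd := by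
  intro m _ hd x hx
  have h1 : (420 : ℕ) • (ZMod.toAddCircle x : UnitAddCircle) = 0 := by
    rw [← addOrderOf_dvd_iff_nsmul_eq_zero, GLowAux.ord_circle]
    exact hx
  obtain ⟨y, hy⟩ := exists_toAddCircle h1
  have ho : addOrderOf y = addOrderOf x := by
    rw [← GLowAux.ord_circle, ← GLowAux.ord_circle, hy]
  refine ⟨y, ho, fun l q => GLowAux.lam_eq x y hy ho l q, fun c => ?_⟩
  -- the circle points of the unit multiples agree
  have h2 : ∀ t : (ZMod m)ˣ, (ZMod.toAddCircle
      (((ZMod.unitsMap hd t : (ZMod 420)ˣ) : ZMod 420) * y) : UnitAddCircle) =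
      ZMod.toAddCircle ((t : ZMod m) * x) := by
    intro t
    have e1 : ((t : ZMod m) * x) = (((t : ZMod m).val : ℕ) : ZMod m) * x := by
      rw [ZMod.natCast_zmod_val]
    have e2 : ((ZMod.unitsMap hd t : (ZMod 420)ˣ) : ZMod 420) =
        (((t : ZMod m).val : ℕ) : ZMod 420) := by
      rw [ZMod.unitsMap_val hd t, ZMod.natCast_val]
    rw [e1, e2, ← smul_toAddCircle, ← smul_toAddCircle, hy]
  have h3 : ∀ t : (ZMod m)ˣ, c ((t : ZMod m).val % 420) * sz ((t : ZMod m) * x) =
      (fun w : (ZMod 420)ˣ => c ((w : ZMod 420).val % 420) * sz ((w : ZMod 420) * y))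
        (ZMod.unitsMap hd t) := by
    intro t
    show _ = c (((ZMod.unitsMap hd t : (ZMod 420)ˣ) : ZMod 420).val % 420) *
      sz (((ZMod.unitsMap hd t : (ZMod 420)ˣ) : ZMod 420) * y)
    rw [GKd_sz _ _ (h2 t), GKd_val hd t, Nat.mod_mod]
  have h4 := GKd_fib (ZMod.unitsMap hd) (ZMod.unitsMap_surjective hd)
    (fun w : (ZMod 420)ˣ => c ((w : ZMod 420).val % 420) * sz ((w : ZMod 420) * y))
  rw [ZMod.card_units_eq_totient, ZMod.card_units_eq_totient] at h4
  have h5 : Nat.totient 420 = 96 := by decide +kernel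
  have hφ : (m.totient : ℚ) ≠ 0 :=
    Nat.cast_ne_zero.2 (Nat.totient_pos.2 (Nat.pos_of_ne_zero (NeZero.ne m))).ne'
  unfold SN
  rw [Finset.sum_congr rfl fun t _ => h3 t, h5]
  rw [h5] at h4
  have h6 : (96 : ℚ) / (m.totient : ℚ) *
      ∑ t : (ZMod m)ˣ, (fun w : (ZMod 420)ˣ => c ((w : ZMod 420).val % 420) *
        sz ((w : ZMod 420) * y)) (ZMod.unitsMap hd t) =
      ∑ w : (ZMod 420)ˣ, c ((w : ZMod 420).val % 420) * sz ((w : ZMod 420) * y) := by
    rw [div_mul_eq_mul_div, div_eq_iff hφ, mul_comm _ (m.totient : ℚ)]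
    exact_mod_cast h4
  rw [h6]
  norm_num

end Pool.Agent.FO
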