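import Pool.Agent.Lib.MP_640417_ag.GT.SpecK

/-!
# Theorem GT, module Kmn: smallest products over sets of primes
-/

set_option autoImplicit false

noncomputable section

namespace Pool.Agent.FO

open Finset Pool.Agent.FC

private lemma Kmn_kap {p : ℕ} (hp : p.Prime) : 2 ≤ kap p := by
  unfold kap
  split_ifs with h
  · exact le_rfl
  · have := hp.two_le
    omega

private lemma Kmn_pos {S : Finset ℕ} (hS : ∀ s ∈ S, s.Prime) : 1 ≤ kp S := by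
  unfold kp
  exact Finset.prod_pos fun p hp => lt_of_lt_of_le (by norm_num) (Kmn_kap (hS p hp))

private lemma Kmn_max {S : Finset ℕ} (h : 1 ≤ S.card) :
    ∃ p ∈ S, (∀ s ∈ S, s ≤ p) ∧ kp S = kap p * kp (S.erase p) ∧ (S.erase p).card + 1 = S.card := by
  have hne : S.Nonempty := Finset.card_pos.1 h
  refine ⟨S.max' hne, S.max'_mem hne, fun s hs => S.le_max' s hs, ?_, ?_⟩
  · unfold kp
    exact (Finset.mul_prod_erase S kap (S.max'_mem hne)).symm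
  · exact Finset.card_erase_add_one (S.max'_mem hne)

private lemma Kmn_er {S : Finset ℕ} (hS : ∀ s ∈ S, s.Prime) (p : ℕ) : ∀ s ∈ S.erase p, s.Prime :=
  fun s hs => hS s (Finset.mem_of_mem_erase hs)

private lemma Kmn_b1 {S : Finset ℕ} (hS : ∀ s ∈ S, s.Prime) (h : 1 ≤ S.card) : 2 ≤ kp S := by
  obtain ⟨p, hp, -, e, -⟩ := Kmn_max h
  rw [e]
  exact Nat.mul_le_mul (Kmn_kap (hS p hp)) (Kmn_pos (Kmn_er hS p))

private lemma Kmn_b2 {S : Finset ℕ} (hS : ∀ s ∈ S, s.Prime) (h : 2 ≤ S.card) : 4 ≤ kp S := by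
  obtain ⟨p, hp, -, e, hc⟩ := Kmn_max (S := S) (by omega)
  rw [e]
  exact Nat.mul_le_mul (Kmn_kap (hS p hp)) (Kmn_b1 (Kmn_er hS p) (by omega))

private lemma Kmn_st {c a b : ℕ} {S : Finset ℕ} {R : Finset ℕ → Prop} (hS : ∀ s ∈ S, s.Prime)
    (hR : ∀ p, R (S.erase p)) (h : c + 1 ≤ S.card)
    (h1 : ∀ p ∈ S, (∀ s ∈ S, s ≤ p) → a ≤ kap p)
    (h2 : ∀ T : Finset ℕ, (∀ s ∈ T, s.Prime) → R T → c ≤ T.card → b ≤ kp T) : a * b ≤ kp S := by
  obtain ⟨p, hp, hm, e, hc⟩ := Kmn_max (S := S) (by omega)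
  rw [e]
  exact Nat.mul_le_mul (h1 p hp hm) (h2 _ (Kmn_er hS p) (hR p) (by omega))

private lemma Kmn_b3 (hMx : S_Mx) {S : Finset ℕ} (hS : ∀ s ∈ S, s.Prime) (h : 3 ≤ S.card) :
    16 ≤ kp S :=
  Kmn_st (c := 2) (a := 4) (b := 4) (R := fun _ => True) hS (fun _ => trivial) h
    (fun p hp hm => (hMx S p hS hp hm).2.1 h) fun _ hT _ hc => Kmn_b2 hT hc

private lemma Kmn_b4 (hMx : S_Mx) {S : Finset ℕ} (hS : ∀ s ∈ S, s.Prime) (h : 4 ≤ S.card) :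
    96 ≤ kp S :=
  Kmn_st (c := 3) (a := 6) (b := 16) (R := fun _ => True) hS (fun _ => trivial) h
    (fun p hp hm => (hMx S p hS hp hm).2.2.1 h) fun _ hT _ hc => Kmn_b3 hMx hT hc

private lemma Kmn_b5 (hMx : S_Mx) {S : Finset ℕ} (hS : ∀ s ∈ S, s.Prime) (h : 5 ≤ S.card) :
    960 ≤ kp S :=
  Kmn_st (c := 4) (a := 10) (b := 96) (R := fun _ => True) hS (fun _ => trivial) h
    (fun p hp hm => (hMx S p hS hp hm).2.2.2.1 h) fun _ hT _ hc => Kmn_b4 hMx hT hc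

private lemma Kmn_b6 (hMx : S_Mx) {S : Finset ℕ} (hS : ∀ s ∈ S, s.Prime) (h : 6 ≤ S.card) :
    11520 ≤ kp S :=
  Kmn_st (c := 5) (a := 12) (b := 960) (R := fun _ => True) hS (fun _ => trivial) h
    (fun p hp hm => (hMx S p hS hp hm).2.2.2.2.1 h) fun _ hT _ hc => Kmn_b5 hMx hT hc

private lemma Kmn_c2 (hMx : S_Mx) {S : Finset ℕ} (hS : ∀ s ∈ S, s.Prime) (h2 : 2 ∉ S)
    (h : 2 ≤ S.card) : 8 ≤ kp S :=
  Kmn_st (c := 1) (a := 4) (b := 2) (R := fun _ => True) hS (fun _ => trivial) h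
    (fun p hp hm => ((hMx S p hS hp hm).2.2.2.2.2 h2).1 h) fun _ hT _ hc => Kmn_b1 hT hc

private lemma Kmn_n2 {S : Finset ℕ} (h2 : 2 ∉ S) (p : ℕ) : 2 ∉ S.erase p :=
  fun h => h2 (Finset.mem_of_mem_erase h)

private lemma Kmn_c3 (hMx : S_Mx) {S : Finset ℕ} (hS : ∀ s ∈ S, s.Prime) (h2 : 2 ∉ S)
    (h : 3 ≤ S.card) : 48 ≤ kp S :=
  Kmn_st (c := 2) (a := 6) (b := 8) (R := fun T => 2 ∉ T) hS (Kmn_n2 h2) h
    (fun p hp hm => ((hMx S p hS hp hm).2.2.2.2.2 h2).2.1 h) fun _ hT hR hc => Kmn_c2 hMx hT hR hc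

private lemma Kmn_c4 (hMx : S_Mx) {S : Finset ℕ} (hS : ∀ s ∈ S, s.Prime) (h2 : 2 ∉ S)
    (h : 4 ≤ S.card) : 480 ≤ kp S :=
  Kmn_st (c := 3) (a := 10) (b := 48) (R := fun T => 2 ∉ T) hS (Kmn_n2 h2) h
    (fun p hp hm => ((hMx S p hS hp hm).2.2.2.2.2 h2).2.2.1 h)
    fun _ hT hR hc => Kmn_c3 hMx hT hR hc

private lemma Kmn_c5 (hMx : S_Mx) {S : Finset ℕ} (hS : ∀ s ∈ S, s.Prime) (h2 : 2 ∉ S)
    (h : 5 ≤ S.card) : 5760 ≤ kp S :=
  Kmn_st (c := 4) (a := 12) (b := 480) (R := fun T => 2 ∉ T) hS (Kmn_n2 h2) h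
    (fun p hp hm => ((hMx S p hS hp hm).2.2.2.2.2 h2).2.2.2 h)
    fun _ hT hR hc => Kmn_c4 hMx hT hR hc

/-- The primes below `11`. -/
private lemma Kmn_lt11 {p : ℕ} (hp : p.Prime) (h : p < 11) : p ∈ ({2, 3, 5, 7} : Finset ℕ) := by
  interval_cases p <;> first | decide | (exfalso; revert hp; decide)

private lemma Kmn_lt5 {p : ℕ} (hp : p.Prime) (h : p < 5) : p ∈ ({2, 3} : Finset ℕ) := by
  interval_cases p <;> first | decide | (exfalso; revert hp; decide)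

private lemma Kmn_six (hMx : S_Mx) {S : Finset ℕ} (hS : ∀ s ∈ S, s.Prime) (h : S.card = 4)
    (hne : S ≠ {2, 3, 5, 7}) : 160 ≤ kp S := by
  refine Kmn_st (c := 3) (a := 10) (b := 16) (R := fun _ => True) hS (fun _ => trivial) h.ge
    (fun p hp hm => ?_) fun _ hT _ hc => Kmn_b3 hMx hT hc
  have h11 : 11 ≤ p := by
    by_contra hcon
    apply hne
    refine Finset.eq_of_subset_of_card_le (fun s hs => ?_) ?_
    · exact Kmn_lt11 (hS s hs) (by have := hm s hs; omega)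
    · rw [h]
      exact Finset.card_le_four
  unfold kap
  split_ifs <;> omega

private lemma Kmn_seven {S : Finset ℕ} (hS : ∀ s ∈ S, s.Prime) (h : S.card = 2)
    (hne : S ≠ {2, 3}) : 8 ≤ kp S := by
  refine Kmn_st (c := 1) (a := 4) (b := 2) (R := fun _ => True) hS (fun _ => trivial) h.ge
    (fun p hp hm => ?_) fun _ hT _ hc => Kmn_b1 hT hc
  have h5 : 5 ≤ p := by
    by_contra hcon
    apply hne
    refine Finset.eq_of_subset_of_card_le (fun s hs => ?_) ?_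
    · exact Kmn_lt5 (hS s hs) (by have := hm s hs; omega)
    · rw [h]
      exact Finset.card_le_two
  unfold kap
  split_ifs <;> omega

theorem pKmn (hMx : S_Mx) : S_Kmn := by
  intro S hS
  refine ⟨Kmn_b2 hS, Kmn_b3 hMx hS, Kmn_b4 hMx hS, Kmn_b5 hMx hS, Kmn_b6 hMx hS, Kmn_six hMx hS,
    Kmn_seven hS, Kmn_b1 hS, fun h2 => ⟨Kmn_c2 hMx hS h2, Kmn_c3 hMx hS h2, Kmn_c4 hMx hS h2,
    Kmn_c5 hMx hS h2⟩⟩

end Pool.Agent.FO
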