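import Pool.Agent.Lib.MP_640417_ag.GT.SpecS

/-!
# Theorem GT, module Ku: units which fix the class modulo 420
-/

set_option autoImplicit false

noncomputable section

open Finset Pool.Agent.FC

namespace Pool.Agent.FO

namespace GKuAux

private theorem gcd_dvd (n p : ℕ) (hn : n ≠ 0) (hp : p.Prime)
    (h : Nat.factorization 420 p < n.factorization p) : p ∣ n ∧ Nat.gcd n 420 ∣ n / p := by
  have hpn : p ∣ n := by
    by_contra hc
    rw [Nat.factorization_eq_zero_of_not_dvd hc] at h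
    omega
  refine ⟨hpn, ?_⟩
  obtain ⟨c, hc⟩ := Nat.gcd_dvd_left n 420
  have hpc : p ∣ c := by
    by_contra hcon
    have h1 : p ^ n.factorization p ∣ n.gcd 420 * c := by
      rw [← hc]
      exact Nat.ordProj_dvd n p
    have h2 : (p ^ n.factorization p).Coprime c := Nat.Coprime.pow_left _ ((hp.coprime_iff_not_dvd).2 hcon)
    have h3 : p ^ n.factorization p ∣ 420 := (h2.dvd_of_dvd_mul_right h1).trans (Nat.gcd_dvd_right n 420)
    have h4 := (hp.pow_dvd_iff_le_factorization (by norm_num)).1 h3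
    omega
  obtain ⟨e, he⟩ := hpc
  have h5 : n / p = n.gcd 420 * e := by
    rw [Nat.div_eq_iff_eq_mul_left hp.pos hpn]
    calc n = n.gcd 420 * c := hc
      _ = n.gcd 420 * e * p := by rw [he]; ring
  rw [h5]
  exact Dvd.intro _ rfl

end GKuAux

open GKuAux in
theorem pKu : S_Ku := by
  intro m p _ h420 hp x hv y hxy hord
  obtain ⟨n, hn⟩ : ∃ n, n = addOrderOf x := ⟨_, rfl⟩
  rw [← hn] at hv hord
  have hn0 : n ≠ 0 := by
    rw [hn]
    exact (addOrderOf_pos x).ne'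
  have : NeZero n := ⟨hn0⟩
  have hd : n ∣ m := by
    have h := addOrderOf_dvd_card (x := x)
    rwa [ZMod.card, ← hn] at h
  obtain ⟨hpn, hg⟩ := gcd_dvd n p hn0 hp hv
  obtain ⟨-, -, e3, e4, -, -⟩ := pEl m n hd
  obtain ⟨u, hu⟩ := e3 x hn.symm
  obtain ⟨v, hv'⟩ := e3 y hord
  have hn1 : 1 < n := lt_of_lt_of_le hp.one_lt (Nat.le_of_dvd (Nat.pos_of_ne_zero hn0) hpn)
  obtain ⟨k', hk', hvk⟩ := ((pElP pEl m n p hd hp hpn).2.1 u v).1 (by rw [hu, hv']; exact hxy.symm)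
  -- the class of `k'` modulo `gcd (n, 420)`
  have hker : ZMod.unitsMap (Nat.div_dvd_of_dvd hpn) k' = ZMod.unitsMap (Nat.div_dvd_of_dvd hpn) 1 := by
    unfold Kp at hk'
    rw [dif_pos hpn, MonoidHom.mem_ker] at hk'
    rw [hk', map_one]
  rw [ElPAux.castHom_iff] at hker
  have hone : ((1 : (ZMod n)ˣ) : ZMod n).val = 1 := by
    have : Fact (1 < n) := ⟨hn1⟩
    rw [Units.val_one]
    exact ZMod.val_one n
  rw [hone] at hker
  have hmod : (k' : ZMod n).val ≡ 1 [MOD Nat.gcd n 420] := by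
    rw [← Int.natCast_modEq_iff]
    refine (Int.modEq_iff_dvd.2 ?_).symm
    exact (Int.natCast_dvd_natCast.2 hg).trans hker
  obtain ⟨t0, ht1, ht2⟩ := Nat.chineseRemainder' hmod
  have hc1 : t0.Coprime n := by
    unfold Nat.Coprime
    rw [ht1.gcd_eq]
    exact ZMod.val_coe_unit_coprime k'
  have hc2 : t0.Coprime 420 := by
    unfold Nat.Coprime
    rw [ht2.gcd_eq]
    norm_num
  have hc : t0.Coprime (Nat.lcm n 420) :=
    Nat.Coprime.coprime_dvd_right (Nat.lcm_dvd (Dvd.intro _ rfl) (Dvd.intro_left _ rfl)) (hc1.mul_right hc2)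
  have hL : Nat.lcm n 420 ∣ m := Nat.lcm_dvd hd h420
  obtain ⟨k, hk⟩ := ZMod.unitsMap_surjective hL (ZMod.unitOfCoprime t0 hc)
  have hkm : (k : ZMod m).val ≡ t0 [MOD Nat.lcm n 420] := by
    rw [← ZMod.natCast_eq_natCast_iff]
    have h := congrArg (fun w : (ZMod (Nat.lcm n 420))ˣ => (w : ZMod (Nat.lcm n 420))) hk
    change ((ZMod.unitsMap hL k : (ZMod (Nat.lcm n 420))ˣ) : ZMod (Nat.lcm n 420)) =
      (ZMod.unitOfCoprime t0 hc : ZMod (Nat.lcm n 420)) at h
    rw [ZMod.unitsMap_val, ZMod.cast_eq_val, ZMod.coe_unitOfCoprime] at h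
    exact h
  refine ⟨k, ?_, ?_⟩
  · have h := (hkm.of_dvd (Nat.dvd_lcm_right n 420)).trans ht2
    exact h
  · have hkk : ZMod.unitsMap hd k = k' := by
      apply Units.ext
      rw [ZMod.unitsMap_val, ZMod.cast_eq_val, ← ZMod.natCast_zmod_val (k' : ZMod n), ZMod.natCast_eq_natCast_iff]
      exact (hkm.of_dvd (Nat.dvd_lcm_left n 420)).trans ht1
    rw [← hu, e4 k u, hkk, ← hvk, hv']

end Pool.Agent.FO
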