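import Pool.Agent.Lib.MP_640417_ag.GT.SpecJ

/-!
# Theorem GT, part J: mean value over the units of `ZMod m`
-/

set_option autoImplicit false

noncomputable section

open Finset Pool.Agent.FC

namespace Pool.Agent.FO

/-- Sums over a surjective homomorphism of finite groups. -/
private theorem GLamAv_fib {G H : Type} [Group G] [Fintype G] [Group H] [Fintype H] (f : G →* H)
    (hf : Function.Surjective f) (g : H → ℤ) :
    (Fintype.card H : ℤ) * ∑ t, g (f t) = (Fintype.card G : ℤ) * ∑ w, g w := by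
  classical
  have h1 : ∀ w : H, (univ.filter fun t : G => f t = w).card =
      (univ.filter fun t : G => f t = 1).card := by
    intro w
    exact MonoidHom.card_fiber_eq_of_mem_range f (hf w) (hf 1)
  have h2 : ∑ t, g (f t) = ((univ.filter fun t : G => f t = 1).card : ℤ) * ∑ w, g w := by
    rw [← Finset.sum_fiberwise univ f (fun t => g (f t)), Finset.mul_sum]
    refine Finset.sum_congr rfl fun w _ => ?_
    have h3 : ∀ t ∈ univ.filter (fun t : G => f t = w), g (f t) = g w := by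
      intro t ht
      rw [(Finset.mem_filter.1 ht).2]
    rw [Finset.sum_congr rfl h3, Finset.sum_const, nsmul_eq_mul, h1 w]
  have h4 : Fintype.card G = Fintype.card H * (univ.filter fun t : G => f t = 1).card := by
    rw [← Finset.card_univ, Finset.card_eq_sum_card_fiberwise (f := f) (t := univ)
      (fun _ _ => Finset.mem_coe.2 (Finset.mem_univ _)), Finset.sum_congr rfl fun w _ => h1 w, Finset.sum_const,
      smul_eq_mul, Finset.card_univ]
  rw [h2, h4]
  push_cast
  ring

theorem pLamAv (hLamB : S_LamB) (hMean : S_Mean) : S_LamAv := by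
  classical
  intro T q m _ hPr a
  obtain ⟨n, hna⟩ : ∃ n, n = addOrderOf a := ⟨_, rfl⟩
  rw [← hna]
  have hn : n ∣ m := by
    have h := addOrderOf_dvd_card (x := a)
    rw [ZMod.card] at h
    rwa [hna]
  have hn0 : n ≠ 0 := by
    rintro rfl
    exact NeZero.ne m (Nat.eq_zero_of_zero_dvd hn)
  have : NeZero n := ⟨hn0⟩
  obtain ⟨e1, -, e3, e4, -, -⟩ := hEl m n hn
  obtain ⟨u, rfl⟩ := e3 a hna.symm
  obtain ⟨l1, -, l3, -, l5⟩ := hLamB T q m hPr
  have hval : ∀ v : (ZMod n)ˣ, lam T q (el m n v) = Ph T q n 1 (((v : ZMod n).val : ℕ) : ℤ) := by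
    intro v
    obtain ⟨h1, h2⟩ := l3 n hn v
    rw [h2]
    exact (l1 n _ hn h1).2
  refine ⟨?_, ?_⟩
  · have h1 : ∀ t : (ZMod m)ˣ, |lam T q ((t : ZMod m) * el m n u)| =
        |Ph T q n 1 ((((ZMod.unitsMap hn t * u : (ZMod n)ˣ) : ZMod n).val : ℕ) : ℤ)| := by
      intro t
      rw [e4 t u, hval]
    have h2 := GLamAv_fib (ZMod.unitsMap hn) (ZMod.unitsMap_surjective hn)
      (fun w => |Ph T q n 1 ((((w * u : (ZMod n)ˣ) : ZMod n).val : ℕ) : ℤ)|)
    have h3 : ∑ w : (ZMod n)ˣ, |Ph T q n 1 ((((w * u : (ZMod n)ˣ) : ZMod n).val : ℕ) : ℤ)| =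
        ∑ v : (ZMod n)ˣ, |Ph T q n 1 (((v : ZMod n).val : ℕ) : ℤ)| :=
      Equiv.sum_comp (Equiv.mulRight u)
        (fun v : (ZMod n)ˣ => |Ph T q n 1 (((v : ZMod n).val : ℕ) : ℤ)|)
    rw [Finset.sum_congr rfl fun t _ => h1 t]
    rw [ZMod.card_units_eq_totient, ZMod.card_units_eq_totient] at h2
    rw [h2, h3]
    exact mul_le_mul_of_nonneg_left (hMean T q n hPr) (Int.natCast_nonneg _)
  · intro hd t
    by_contra h
    apply hd
    have h1 := l5 _ h
    rwa [e4 t u, e1] at h1

end Pool.Agent.FO
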