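import Pool.Agent.Lib.MP_640417_ag.GT.SpecJ

/-!
# The functional on `ZMod m`: values
-/

set_option autoImplicit false

open Finset Pool.Agent.FC

namespace Pool.Agent.FO

namespace GLamBAux

/-- `(m / n) y` only depends on `y` modulo `n` -/
theorem mul_congr {m n : ℕ} (hnm : n ∣ m) {y y' : ℤ} (h : (n : ℤ) ∣ y - y') :
    ((m / n : ℕ) : ZMod m) * (y : ZMod m) = ((m / n : ℕ) : ZMod m) * (y' : ZMod m) := by
  obtain ⟨z, hz⟩ := h
  have h1 : y = y' + n * z := by linarith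
  have h2 : ((m / n : ℕ) : ZMod m) * (n : ZMod m) = 0 := by
    rw [← Nat.cast_mul, Nat.div_mul_cancel hnm, ZMod.natCast_self]
  rw [h1]
  push_cast
  rw [mul_add, ← mul_assoc, h2, zero_mul, add_zero]

/-- the element of a unit -/
theorem el_int {m d : ℕ} (u : (ZMod d)ˣ) :
    el m d u = ((m / d : ℕ) : ZMod m) * ((((u : ZMod d).val : ℕ) : ℤ) : ZMod m) := by
  rw [el, Int.cast_natCast]

/-- every `y` prime to `n` is congruent to a unit -/
theorem exists_unit {n : ℕ} [NeZero n] {y : ℤ} (hy : IsCoprime y (n : ℤ)) :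
    ∃ u : (ZMod n)ˣ, (n : ℤ) ∣ y - (((u : ZMod n).val : ℕ) : ℤ) := by
  obtain ⟨u, hu⟩ := (ZMod.coe_int_isUnit_iff_isCoprime y n).2 hy.symm
  refine ⟨u, ?_⟩
  rw [← ZMod.intCast_zmod_eq_zero_iff_dvd]
  push_cast
  rw [ZMod.natCast_zmod_val, hu, sub_self]

/-- the number of the element of a unit -/
theorem val_el {m d : ℕ} [NeZero m] [NeZero d] (hd : d ∣ m) (u : (ZMod d)ˣ) :
    (el m d u).val = m / d * (u : ZMod d).val := by
  have h1 : m / d * (u : ZMod d).val < m := by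
    calc m / d * (u : ZMod d).val < m / d * d :=
          Nat.mul_lt_mul_of_pos_left (ZMod.val_lt _)
            (Nat.div_pos (Nat.le_of_dvd (NeZero.pos m) hd) (NeZero.pos d))
      _ = m := Nat.div_mul_cancel hd
  rw [el, ← Nat.cast_mul, ZMod.val_natCast_of_lt h1]

/-- the value of the functional -/
theorem lam_el {m d : ℕ} [NeZero m] [NeZero d] (hd : d ∣ m) (T : List ℕ) (q : ℕ) (u : (ZMod d)ˣ) :
    lam T q (el m d u) = Ph T q d 1 (((u : ZMod d).val : ℕ) : ℤ) := by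
  have h1 : addOrderOf (el m d u) = d := (hEl m d hd).1 u
  have h2 : 0 < m / d := Nat.div_pos (Nat.le_of_dvd (NeZero.pos m) hd) (NeZero.pos d)
  rw [lam, h1, val_el hd, Nat.mul_div_cancel_left _ h2]

/-- the first part -/
theorem part1 (hPhBas : S_PhBas) {T : List ℕ} {q m : ℕ} [NeZero m] (hT : Pr T q) {n : ℕ} {y : ℤ}
    (hn : n ∣ m) (hy : IsCoprime y (n : ℤ)) :
    addOrderOf (((m / n : ℕ) : ZMod m) * (y : ZMod m)) = n ∧
      lam T q (((m / n : ℕ) : ZMod m) * (y : ZMod m)) = Ph T q n 1 y := by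
  have hn0 : n ≠ 0 := fun h => NeZero.ne m (Nat.eq_zero_of_zero_dvd (h ▸ hn))
  haveI : NeZero n := ⟨hn0⟩
  obtain ⟨u, hu⟩ := exists_unit hy
  rw [mul_congr hn hu, ← el_int]
  refine ⟨(hEl m n hn).1 u, ?_⟩
  rw [lam_el hn]
  obtain ⟨z, hz⟩ := hu
  have h1 : y = (((u : ZMod n).val : ℕ) : ℤ) + n * z := by linarith
  conv_rhs => rw [h1]
  exact ((hPhBas T q n 1 _ hT (Nat.pos_of_ne_zero hn0)).1 z).symm

/-- the numbers of units are prime to the modulus -/
theorem cop_unit {d : ℕ} (u : (ZMod d)ˣ) : IsCoprime (((u : ZMod d).val : ℕ) : ℤ) (d : ℤ) :=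
  Nat.isCoprime_iff_coprime.2 (ZMod.val_coe_unit_coprime u)

/-- the second part -/
theorem part2 {m : ℕ} [NeZero m] (x : ZMod m) : ∃ y : ℤ, IsCoprime y (addOrderOf x : ℤ) ∧
    addOrderOf x ∣ m ∧ x = ((m / addOrderOf x : ℕ) : ZMod m) * (y : ZMod m) := by
  have h1 : addOrderOf x ∣ m := by
    have h := addOrderOf_dvd_card (x := x)
    rwa [ZMod.card] at h
  have h2 : addOrderOf x ≠ 0 := fun h => NeZero.ne m (Nat.eq_zero_of_zero_dvd (h ▸ h1))
  haveI : NeZero (addOrderOf x) := ⟨h2⟩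
  obtain ⟨u, hu⟩ := (hEl m (addOrderOf x) h1).2.2.1 x rfl
  refine ⟨_, cop_unit u, h1, ?_⟩
  rw [← el_int, hu]

end GLamBAux

open GLamBAux in
theorem pLamB (hPhBas : S_PhBas) : S_LamB := by
  intro T q m _ hT
  refine ⟨fun n y hn hy => part1 hPhBas hT hn hy, fun x => part2 x,
    fun d _ _ u => ⟨cop_unit u, el_int u⟩, ?_, ?_⟩
  · intro x
    obtain ⟨y, hy, hn, hx⟩ := part2 x
    have hpos : 0 < addOrderOf x := Nat.pos_of_dvd_of_pos hn (NeZero.pos m)
    have h1 := (part1 hPhBas hT hn hy).2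
    have hy' : IsCoprime (-y) (addOrderOf x : ℤ) := hy.neg_left
    have h2 := (part1 hPhBas hT hn hy').2
    have hneg : -x = ((m / addOrderOf x : ℕ) : ZMod m) * ((-y : ℤ) : ZMod m) := by
      push_cast
      rw [mul_neg, ← hx]
    rw [← hx] at h1
    rw [← hneg] at h2
    rw [h1, h2]
    have hB := hPhBas T q (addOrderOf x) 1 y hT hpos
    have hr : IsCoprime (-1 : ℤ) (addOrderOf x : ℤ) := isCoprime_one_left.neg_left
    have hd : (addOrderOf x : ℤ) ∣ -1 * -y - y := by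
      have : -1 * -y - y = 0 := by ring
      rw [this]
      exact dvd_zero _
    rw [hB.2.2.1 (-1) (-y) hr hd, neg_one_mul]
    exact hB.2.1
  · intro x hne
    obtain ⟨y, hy, hn, hx⟩ := part2 x
    have hpos : 0 < addOrderOf x := Nat.pos_of_dvd_of_pos hn (NeZero.pos m)
    have h1 := (part1 hPhBas hT hn hy).2
    rw [← hx] at h1
    rw [h1] at hne
    exact (hPhBas T q (addOrderOf x) 1 y hT hpos).2.2.2 isCoprime_one_left hy hne

end Pool.Agent.FO
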