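import Pool.Agent.Lib.MP_640417_ag.GT.SpecJ

/-!
# Theorem GT, part J: the functional on sums of Hasse-Davenport relations
-/

set_option autoImplicit false

noncomputable section

namespace Pool.Agent.FO

open Finset Pool.Agent.FC

namespace GLamHoAux

theorem even_sum (m : ℕ) [NeZero m] (b : ZMod m → ℤ) (he : ∀ z, b (-z) = b z)
    (h0 : ∀ z, -z = z → b z = 0) : (2 : ℤ) ∣ ∑ z, b z := by
  have h : ((∑ z, b z : ℤ) : ZMod 2) = 0 := by
    rw [Int.cast_sum]
    refine Finset.sum_involution (fun z _ => -z) ?_ ?_ ?_ ?_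
    · intro z _
      rw [he z]
      exact CharTwo.add_self_eq_zero _
    · intro z _ hz hzz
      exact hz (by rw [h0 z hzz, Int.cast_zero])
    · intro z _
      exact Finset.mem_univ _
    · intro z _
      exact neg_neg z
  exact (ZMod.intCast_zmod_eq_zero_iff_dvd _ 2).1 h

theorem even_sum_mul (m : ℕ) [NeZero m] (d : ℤ) (B : ZMod m → ℤ) (hd : ∀ z, d ∣ B z)
    (he : ∀ z, B (-z) = B z) (h0 : ∀ z, -z = z → B z = 0) : 2 * d ∣ ∑ z, B z := by
  have h1 : ∀ z, B z = d * (B z / d) := fun z => (Int.mul_ediv_cancel' (hd z)).symm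
  obtain ⟨c, hc⟩ := even_sum m (fun z => B z / d) (fun z => by rw [he z])
    (fun z hz => by rw [h0 z hz, Int.zero_ediv])
  refine ⟨c, ?_⟩
  calc ∑ z, B z = ∑ z, d * (B z / d) := Finset.sum_congr rfl fun z _ => h1 z
    _ = d * ∑ z, B z / d := by rw [Finset.mul_sum]
    _ = 2 * d * c := by rw [hc]; ring

/-- fibrewise summation -/
theorem fib (m p : ℕ) [NeZero m] (G Λ : ZMod m → ℤ) :
    ∑ x, hD p G x * Λ x =
      ∑ z, G z * (∑ x ∈ univ.filter (fun x : ZMod m => (p : ZMod m) * x = z), Λ x - Λ z) := by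
  have h1 : ∑ x, G ((p : ZMod m) * x) * Λ x =
      ∑ z, G z * ∑ x ∈ univ.filter (fun x : ZMod m => (p : ZMod m) * x = z), Λ x := by
    rw [← Finset.sum_fiberwise univ (fun x : ZMod m => (p : ZMod m) * x)]
    refine Finset.sum_congr rfl fun z _ => ?_
    rw [Finset.mul_sum]
    refine Finset.sum_congr rfl fun x hx => ?_
    rw [(Finset.mem_filter.1 hx).2]
  have h2 : ∀ x, hD p G x * Λ x = G ((p : ZMod m) * x) * Λ x - G x * Λ x := by
    intro x
    unfold hD
    ring
  calc ∑ x, hD p G x * Λ x = ∑ x, (G ((p : ZMod m) * x) * Λ x - G x * Λ x) :=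
        Finset.sum_congr rfl fun x _ => h2 x
    _ = ∑ z, G z * ∑ x ∈ univ.filter (fun x : ZMod m => (p : ZMod m) * x = z), Λ x -
          ∑ x, G x * Λ x := by rw [Finset.sum_sub_distrib, h1]
    _ = _ := by
        rw [← Finset.sum_sub_distrib]
        exact Finset.sum_congr rfl fun z _ => by ring

/-- multiplication by a unit on the fibres -/
theorem fib_unit (m r : ℕ) [NeZero m] (t : (ZMod m)ˣ) (F : ZMod m → ℤ) (x0 : ZMod m) :
    ∑ x ∈ univ.filter (fun x : ZMod m => (r : ZMod m) * x = r * x0), F ((t : ZMod m) * x) =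
      ∑ x ∈ univ.filter (fun x : ZMod m => (r : ZMod m) * x = r * ((t : ZMod m) * x0)), F x := by
  refine Finset.sum_bij' (fun x _ => (t : ZMod m) * x) (fun x _ => ((t⁻¹ : (ZMod m)ˣ) : ZMod m) * x)
    ?_ ?_ ?_ ?_ ?_
  · intro x hx
    rw [Finset.mem_filter] at hx ⊢
    refine ⟨Finset.mem_univ _, ?_⟩
    rw [mul_left_comm, hx.2]
    ring
  · intro x hx
    rw [Finset.mem_filter] at hx ⊢
    refine ⟨Finset.mem_univ _, ?_⟩
    rw [mul_left_comm, hx.2, mul_left_comm _ (r : ZMod m), Units.inv_mul_cancel_left]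
  · intro x _
    exact Units.inv_mul_cancel_left t x
  · intro x _
    exact Units.mul_inv_cancel_left t x
  · intro x _
    rfl

/-- the sum over the fibre of `-z` -/
theorem fib_neg (m r : ℕ) [NeZero m] (Λ : ZMod m → ℤ) (ho : ∀ x, Λ (-x) = -Λ x) (z : ZMod m) :
    ∑ x ∈ univ.filter (fun x : ZMod m => (r : ZMod m) * x = -z), Λ x =
      -∑ x ∈ univ.filter (fun x : ZMod m => (r : ZMod m) * x = z), Λ x := by
  rw [← Finset.sum_neg_distrib]
  refine Finset.sum_bij' (fun x _ => -x) (fun x _ => -x) ?_ ?_ ?_ ?_ ?_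
  · intro x hx
    rw [Finset.mem_filter] at hx ⊢
    exact ⟨Finset.mem_univ _, by rw [mul_neg, hx.2, neg_neg]⟩
  · intro x hx
    rw [Finset.mem_filter] at hx ⊢
    exact ⟨Finset.mem_univ _, by rw [mul_neg, hx.2]⟩
  · intro x _
    exact neg_neg x
  · intro x _
    exact neg_neg x
  · intro x _
    rw [ho, neg_neg]

end GLamHoAux

open GLamHoAux in
theorem pLamHo (hLamB : S_LamB) (hLamR : S_LamR) : S_LamHo := by
  intro T q m _ hPr t h hh
  obtain ⟨-, -, -, hodd, -⟩ := hLamB T q m hPr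
  obtain ⟨G, hG, hsum⟩ := hh
  have ho : ∀ x : ZMod m, lam T q ((t : ZMod m) * -x) = -lam T q ((t : ZMod m) * x) := by
    intro x
    rw [mul_neg, hodd]
  have e1 : ∑ x, h x * lam T q ((t : ZMod m) * x) =
      ∑ p ∈ m.primeFactors, ∑ x, hD p (G p) x * lam T q ((t : ZMod m) * x) := by
    rw [Finset.sum_comm]
    refine Finset.sum_congr rfl fun x _ => ?_
    rw [hsum x, Finset.sum_mul]
  rw [e1]
  refine Finset.dvd_sum fun p hp => ?_
  obtain ⟨hGo, hGs⟩ := hG p hp
  have hpp : p.Prime := Nat.prime_of_mem_primeFactors hp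
  have hpm : p ∣ m := Nat.dvd_of_mem_primeFactors hp
  rw [fib m p (G p) (fun x => lam T q ((t : ZMod m) * x))]
  by_cases hpq : p = q
  · refine even_sum_mul m ((q : ℤ) - 1) _ ?_ ?_ ?_
    · intro z
      by_cases hz : G p z = 0
      · rw [hz, zero_mul]
        exact dvd_zero _
      · obtain ⟨x0, hx0⟩ := hGs z hz
        have h2 := (hLamR T q m p hPr hpp hpm ((t : ZMod m) * x0)).2 hpq
        refine Dvd.dvd.mul_left ?_ _
        rw [hx0]
        show ((q : ℤ) - 1) ∣ ∑ x ∈ univ.filter (fun x : ZMod m => (p : ZMod m) * x = p * x0),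
          lam T q ((t : ZMod m) * x) - lam T q ((t : ZMod m) * ((p : ZMod m) * x0))
        rw [fib_unit m p t (lam T q) x0, mul_left_comm (t : ZMod m)]
        exact h2
    · intro z
      show G p (-z) * (∑ x ∈ univ.filter (fun x : ZMod m => (p : ZMod m) * x = -z),
          lam T q ((t : ZMod m) * x) - lam T q ((t : ZMod m) * -z)) =
        G p z * (∑ x ∈ univ.filter (fun x : ZMod m => (p : ZMod m) * x = z),
          lam T q ((t : ZMod m) * x) - lam T q ((t : ZMod m) * z))
      rw [fib_neg m p (fun x => lam T q ((t : ZMod m) * x)) ho z, ho z, hGo z]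
      ring
    · intro z hz
      have h3 : G p z = 0 := by
        have := hGo z
        rw [hz] at this
        linarith
      rw [h3, zero_mul]
  · have e0 : ∑ z, G p z * (∑ x ∈ univ.filter (fun x : ZMod m => (p : ZMod m) * x = z),
        lam T q ((t : ZMod m) * x) - lam T q ((t : ZMod m) * z)) = 0 := by
      refine Finset.sum_eq_zero fun z _ => ?_
      by_cases hz : G p z = 0
      · rw [hz, zero_mul]
      · obtain ⟨x0, hx0⟩ := hGs z hz
        have h2 := (hLamR T q m p hPr hpp hpm ((t : ZMod m) * x0)).1 hpq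
        rw [hx0, fib_unit m p t (lam T q) x0, mul_left_comm (t : ZMod m), h2, sub_self, mul_zero]
    rw [e0]
    exact dvd_zero _

end Pool.Agent.FO
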