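import Pool.Agent.Lib.MP_640417_ag.GT.SpecJ

/-!
# Theorem GT, part J: distribution relations for the functional on `ZMod m`
-/

set_option autoImplicit false

noncomputable section

namespace Pool.Agent.FO

open Finset Pool.Agent.FC

private lemma crit (m d N : ℕ) [NeZero m] (h : m = d * N) (a b : ℤ) :
    (d : ZMod m) * (a : ZMod m) = (d : ZMod m) * (b : ZMod m) ↔ (N : ℤ) ∣ a - b := by
  have hd : (d : ℤ) ≠ 0 := by
    intro h0
    have h1 : d = 0 := by exact_mod_cast h0
    rw [h1, zero_mul] at h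
    exact NeZero.ne m h
  have h1 : ∀ a : ℤ, (d : ZMod m) * (a : ZMod m) = ((d * a : ℤ) : ZMod m) := fun a => by push_cast; rfl
  rw [h1, h1, eq_comm, ZMod.intCast_eq_intCast_iff_dvd_sub]
  have h2 : ((m : ℕ) : ℤ) = d * N := by exact_mod_cast h
  rw [h2, ← mul_sub]
  exact mul_dvd_mul_iff_left hd

private lemma uniq (r n : ℕ) (y : ℤ) (hr : r.Prime) (hn : ¬ r ∣ n) :
    ∃ j0 : ℕ, j0 < r ∧ ∀ j : ℕ, j < r → ((r : ℤ) ∣ y + j * n ↔ j = j0) := by
  have hc : IsCoprime (r : ℤ) (n : ℤ) := Nat.isCoprime_iff_coprime.2 ((Nat.Prime.coprime_iff_not_dvd hr).2 hn)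
  obtain ⟨a, b, hab⟩ := hc
  have hr0 : (0 : ℤ) < r := by exact_mod_cast hr.pos
  have h0 := Int.emod_nonneg (-(y * b)) hr0.ne'
  have h1 := Int.emod_lt_of_pos (-(y * b)) hr0
  have h2 : (r : ℤ) ∣ -(y * b) % r - -(y * b) := by
    have := Int.emod_add_mul_ediv (-(y * b)) r
    exact ⟨-(-(y * b) / r), by linarith⟩
  have h3 : (((-(y * b) % r).toNat : ℕ) : ℤ) = -(y * b) % r := Int.toNat_of_nonneg h0
  have h4 : (r : ℤ) ∣ y + (-(y * b) % r) * n := by
    obtain ⟨c, hc⟩ := h2
    refine ⟨y * a + c * n, ?_⟩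
    linear_combination (n : ℤ) * hc - y * hab
  refine ⟨(-(y * b) % r).toNat, by omega, fun j hj => ⟨fun h => ?_, fun h => ?_⟩⟩
  · have h5 : (r : ℤ) ∣ ((j : ℤ) - -(y * b) % r) * n := by
      have := dvd_sub h h4
      have e : y + (j : ℤ) * n - (y + (-(y * b) % r) * n) = ((j : ℤ) - -(y * b) % r) * n := by ring
      rwa [e] at this
    have h6 : (r : ℤ) ∣ (j : ℤ) - -(y * b) % r := by
      rcases (Nat.prime_iff_prime_int.1 hr).dvd_or_dvd h5 with h | h
      · exact h
      · exact absurd (by exact_mod_cast h) hn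
    obtain ⟨c, hc⟩ := h6
    have h7 : c = 0 := by
      have h8 : (j : ℤ) < r := by exact_mod_cast hj
      have h9 : (0 : ℤ) ≤ j := Int.natCast_nonneg j
      by_contra hne
      rcases lt_or_gt_of_ne hne with h | h
      · nlinarith
      · nlinarith
    rw [h7, mul_zero] at hc
    omega
  · rw [h, h3]
    exact h4

private lemma ncop (r n : ℕ) (x : ℤ) (hr : r.Prime) (hx : IsCoprime x (n : ℤ)) :
    ¬ IsCoprime x ((r * n : ℕ) : ℤ) ↔ (r : ℤ) ∣ x := by
  have hp := Nat.prime_iff_prime_int.1 hr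
  constructor
  · intro h
    by_contra h1
    apply h
    push_cast
    exact IsCoprime.mul_right ((Prime.coprime_iff_not_dvd hp).2 h1).symm hx
  · intro h h1
    push_cast at h1
    exact (Prime.coprime_iff_not_dvd hp).1 h1.of_mul_right_left.symm h

theorem pLamR (hPhBas : S_PhBas) (hPhR : S_PhR) (hPhQ : S_PhQ) (hLamB : S_LamB) : S_LamR := by
  classical
  intro T q m r _ hT hr hrm x0
  obtain ⟨hL1, hL2, -, -, -⟩ := hLamB T q m hT
  obtain ⟨y, hy, hnm, hz⟩ := hL2 ((r : ZMod m) * x0)
  generalize addOrderOf ((r : ZMod m) * x0) = n at hy hnm hz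
  have hm0 : 0 < m := Nat.pos_of_ne_zero (NeZero.ne m)
  have hn0 : 0 < n := Nat.pos_of_dvd_of_pos hnm hm0
  have hp := Nat.prime_iff_prime_int.1 hr
  have hz' : lam T q ((r : ZMod m) * x0) = Ph T q n 1 y := by
    rw [hz]
    exact (hL1 n y hnm hy).2
  obtain ⟨d, hd⟩ := hnm
  have hmn : m / n = d := by
    rw [hd]
    exact Nat.mul_div_cancel_left d hn0
  rw [hmn] at hz
  have hrd : r ∣ d := by
    have h1 : (m : ℤ) ∣ d * y - r * x0.val := by
      rw [← ZMod.intCast_zmod_eq_zero_iff_dvd]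
      push_cast
      rw [ZMod.natCast_zmod_val, ← hz, sub_self]
    have h2 : (r : ℤ) ∣ d * y := by
      have h3 : (r : ℤ) ∣ d * y - r * x0.val := dvd_trans (by exact_mod_cast hrm) h1
      have h4 := dvd_add h3 (dvd_mul_right (r : ℤ) (x0.val : ℤ))
      rwa [sub_add_cancel] at h4
    rcases hp.dvd_or_dvd h2 with h | h
    · exact_mod_cast h
    · by_contra h5
      have h6 : r ∣ n := by
        rw [hd] at hrm
        rcases hr.dvd_mul.1 hrm with h | h
        · exact h
        · exact absurd h h5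
      have h7 : (r : ℤ) ∣ (n : ℤ) := by exact_mod_cast h6
      exact hp.not_isUnit (hy.isUnit_of_dvd' h h7)
  obtain ⟨d', hd'⟩ := hrd
  have hmd : m = d' * (r * n) := by
    rw [hd, hd']
    ring
  have hmd2 : m / (r * n) = d' := by
    rw [hmd]
    exact Nat.mul_div_cancel d' (Nat.mul_pos hr.pos hn0)
  have hmZ : (m : ℤ) = d' * (r * n) := by exact_mod_cast hmd
  have hdZ : (d : ℤ) = r * d' := by exact_mod_cast hd'
  have hd0 : (d' : ℤ) ≠ 0 := by
    intro h0
    rw [h0, zero_mul] at hmZ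
    have : m = 0 := by exact_mod_cast hmZ
    omega
  set X : ℕ → ZMod m := fun j => (d' : ZMod m) * ((y + j * n : ℤ) : ZMod m) with hX
  have hXr : ∀ j, (r : ZMod m) * X j = r * x0 := by
    intro j
    rw [hz]
    have e : (r : ZMod m) * X j = (((d : ℤ) * y + j * m : ℤ) : ZMod m) := by
      rw [hX, hdZ, hmZ]
      push_cast
      ring
    rw [e]
    push_cast
    rw [ZMod.natCast_self, mul_zero, add_zero]
  have hset : univ.filter (fun x : ZMod m => (r : ZMod m) * x = r * x0) = (range r).image X := by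
    ext x
    rw [mem_filter, mem_image]
    constructor
    · rintro ⟨-, hx⟩
      have h1 : (m : ℤ) ∣ r * x.val - d * y := by
        rw [← ZMod.intCast_zmod_eq_zero_iff_dvd]
        push_cast
        rw [ZMod.natCast_zmod_val, hx, hz, sub_self]
      obtain ⟨t, ht⟩ := h1
      have hr0 : (0 : ℤ) < r := by exact_mod_cast hr.pos
      have h2 : (x.val : ℤ) = d' * (y + n * t) := by
        apply mul_left_cancel₀ hr0.ne'
        rw [hmZ, hdZ] at ht
        linear_combination ht
      have h3 := Int.emod_nonneg t hr0.ne'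
      have h4 := Int.emod_lt_of_pos t hr0
      have h5 : ((t % r).toNat : ℤ) = t % r := Int.toNat_of_nonneg h3
      refine ⟨(t % r).toNat, mem_range.2 (by omega), ?_⟩
      have h6 : x = (d' : ZMod m) * ((y + n * t : ℤ) : ZMod m) := by
        have h7 : x = ((x.val : ℤ) : ZMod m) := by
          push_cast
          rw [ZMod.natCast_zmod_val]
        rw [h7, h2]
        push_cast
        rfl
      rw [h6]
      refine (crit m d' (r * n) hmd _ _).2 ?_
      rw [h5]
      have h8 := Int.emod_add_mul_ediv t r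
      refine ⟨-(t / r), ?_⟩
      push_cast
      linear_combination (n : ℤ) * h8
    · rintro ⟨j, -, rfl⟩
      exact ⟨mem_univ _, hXr j⟩
  have hinj : Set.InjOn X (range r : Set ℕ) := by
    intro i hi j hj hij
    have h1 := (crit m d' (r * n) hmd _ _).1 hij
    have hi' : i < r := by simpa using hi
    have hj' : j < r := by simpa using hj
    have h2 : (r : ℤ) * n ∣ ((i : ℤ) - j) * n := by
      have e : y + (i : ℤ) * n - (y + j * n) = ((i : ℤ) - j) * n := by ring
      rw [e] at h1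
      exact_mod_cast h1
    have h3 : (r : ℤ) ∣ (i : ℤ) - j := (mul_dvd_mul_iff_right (by exact_mod_cast hn0.ne')).1 h2
    have h4 : ((i : ℤ) - j) = 0 := by
      apply Int.eq_zero_of_abs_lt_dvd h3
      rw [abs_lt]
      constructor <;> omega
    omega
  rw [hset, sum_image hinj, hz']
  set J : Finset ℕ := (range r).filter (fun j : ℕ => IsCoprime (y + j * n) ((r * n : ℕ) : ℤ)) with hJ
  have hyj : ∀ j : ℕ, IsCoprime (y + j * n) (n : ℤ) := fun j => IsCoprime.add_mul_right_left hy j
  have hJ1 : ∀ j ∈ J, lam T q (X j) = Ph T q (r * n) 1 (y + j * n) := by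
    intro j hj
    have h1 := (hL1 (r * n) (y + j * n) ⟨d', by rw [hmd]; ring⟩ (mem_filter.1 hj).2).2
    rw [hmd2] at h1
    exact h1
  have hJ2 : ∀ j ∈ (range r).filter (fun j : ℕ => ¬IsCoprime (y + j * n) ((r * n : ℕ) : ℤ)),
      lam T q (X j) = Ph T q n (r * 1) y ∧ ¬ r ∣ n := by
    intro j hj
    obtain ⟨w, hw⟩ := (ncop r n _ hr (hyj j)).1 (mem_filter.1 hj).2
    have hrn : ¬ r ∣ n := by
      intro h
      have h1 : (r : ℤ) ∣ (n : ℤ) := by exact_mod_cast h
      have h2 : (r : ℤ) ∣ y + j * n := ⟨w, hw⟩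
      exact hp.not_isUnit ((hyj j).isUnit_of_dvd' h2 h1)
    refine ⟨?_, hrn⟩
    have hwn : IsCoprime w (n : ℤ) := by
      have h1 := hyj j
      rw [hw] at h1
      exact h1.of_mul_left_right
    have h1 := (hL1 n w ⟨d, hd⟩ hwn).2
    rw [hmn] at h1
    have h2 : X j = (d : ZMod m) * (w : ZMod m) := by
      change (d' : ZMod m) * ((y + j * n : ℤ) : ZMod m) = _
      rw [hw, hd']
      push_cast
      ring
    rw [h2, h1]
    refine (hPhBas T q n 1 y hT hn0).2.2.1 r w (Nat.isCoprime_iff_coprime.2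
      ((Nat.Prime.coprime_iff_not_dvd hr).2 hrn)) ?_
    rw [← hw]
    exact ⟨j, by ring⟩
  have hsum : ∑ j ∈ range r, lam T q (X j) = ∑ j ∈ J, Ph T q (r * n) 1 (y + j * n) +
      if r ∣ n then 0 else Ph T q n (r * 1) y := by
    rw [← sum_filter_add_sum_filter_not (range r)
      (fun j : ℕ => IsCoprime (y + j * n) ((r * n : ℕ) : ℤ))]
    congr 1
    · exact sum_congr rfl hJ1
    · rw [sum_congr rfl (fun j hj => (hJ2 j hj).1), sum_const]
      split_ifs with h
      · have h1 : (range r).filter (fun j : ℕ => ¬IsCoprime (y + j * n) ((r * n : ℕ) : ℤ)) = ∅ := by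
          apply eq_empty_of_forall_notMem
          intro j hj
          exact (hJ2 j hj).2 h
        rw [h1, card_empty, zero_smul]
      · obtain ⟨j0, hj0, hj1⟩ := uniq r n y hr h
        have h1 : (range r).filter (fun j : ℕ => ¬IsCoprime (y + j * n) ((r * n : ℕ) : ℤ)) = {j0} := by
          ext j
          rw [mem_filter, mem_range, mem_singleton, ncop r n _ hr (hyj j)]
          constructor
          · rintro ⟨h2, h3⟩
            exact (hj1 j h2).1 h3
          · rintro rfl
            exact ⟨hj0, (hj1 j hj0).2 rfl⟩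
        rw [h1, card_singleton, one_smul]
  have hJm : ∀ j, j ∈ J ↔ j < r ∧ IsCoprime (y + j * n) ((r * n : ℕ) : ℤ) := by
    intro j
    rw [hJ, mem_filter, mem_range]
  rw [hsum]
  refine ⟨fun hrq => ?_, fun hrq => ?_⟩
  · rw [hPhR T q n r 1 y hT hn0 hr hrq isCoprime_one_left hy J hJm]
    split_ifs
    · rw [add_zero]
    · rw [sub_add_cancel]
  · subst hrq
    have h1 := hPhQ T r n 1 y hT hn0 hy J hJm
    have h2 : (if r ∣ n then 0 else Ph T r n (r * 1) y) = 0 := by
      split_ifs with h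
      · rfl
      · unfold Ph
        rw [if_neg (fun h' => h h'.1)]
    rw [h2, add_zero]
    exact h1

end Pool.Agent.FO
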