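import Pool.Agent.Lib.MP_640417_ag.GT.SpecJ

/-!
# Theorem GT, part J, module LamT: tuples, a unit with a small value
-/

set_option autoImplicit false

noncomputable section

namespace Pool.Agent.FO

open Finset Pool.Agent.FC

private theorem LamT_cnt {m : ℕ} [NeZero m] {ι : Type} [Fintype ι] (a : ι → ZMod m)
    (Λ : ZMod m → ℤ) : ∑ x, cnt a x * Λ x = ∑ i, Λ (a i) := by
  classical
  have h : ∀ x, cnt a x * Λ x = ∑ i, if a i = x then Λ (a i) else 0 := by
    intro x
    have e : cnt a x = (({i | a i = x} : Finset ι).card : ℤ) := by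
      unfold cnt
      rcongr
    rw [e, ← sum_filter, ← nsmul_eq_mul, ← sum_const]
    apply sum_congr rfl
    intro i hi
    rw [(mem_filter.1 hi).2]
  simp_rw [h]
  rw [sum_comm]
  apply sum_congr rfl
  intro i _
  rw [sum_ite_eq univ (a i) (fun _ => Λ (a i)), if_pos (mem_univ _)]

theorem pLamT (hLamB : S_LamB) (hLamAv : S_LamAv) : S_LamT := by
  intro T q m N _ hPr hN ι _ a hc
  have hodd := (hLamB T q m hPr).2.2.2.1
  have hq3 : 3 ≤ q := by
    have h1 := hPr.2.1 q (List.mem_cons_self)
    have h2 := h1.two_le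
    have h3 := hPr.2.2.1
    omega
  have hval : ∀ t : (ZMod m)ˣ, ∑ x, (cnt a x - cnt a (-x)) * lam T q ((t : ZMod m) * x) =
      2 * ∑ i, lam T q ((t : ZMod m) * a i) := by
    intro t
    have h1 := LamT_cnt a (fun x => lam T q ((t : ZMod m) * x))
    have h2 : ∑ x, cnt a (-x) * lam T q ((t : ZMod m) * x) =
        -∑ x, cnt a x * lam T q ((t : ZMod m) * x) := by
      rw [← sum_neg_distrib, ← Equiv.sum_comp (Equiv.neg (ZMod m))]
      apply sum_congr rfl
      intro x _
      rw [Equiv.neg_apply, neg_neg, mul_neg, hodd, mul_neg]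
    simp_rw [sub_mul]
    rw [sum_sub_distrib, h2, h1]
    ring
  have hφ : 0 < m.totient := Nat.totient_pos.2 (Nat.pos_of_ne_zero (NeZero.ne m))
  rcases Nat.eq_zero_or_pos (Fintype.card ι) with h0 | h0
  · refine ⟨1, ?_⟩
    have : IsEmpty ι := Fintype.card_eq_zero_iff.1 h0
    rw [hval, sum_of_isEmpty, mul_zero, abs_zero]
    have : (3 : ℤ) ≤ q := by exact_mod_cast hq3
    linarith
  · have hqz : (3 : ℤ) ≤ q := by exact_mod_cast hq3
    have hφz : (0 : ℤ) < m.totient := by exact_mod_cast hφ
    have hNz : (0 : ℤ) < N := by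
      have : 0 < N := by omega
      exact_mod_cast this
    have key : ∀ i, 2 * N * ∑ t : (ZMod m)ˣ, |lam T q ((t : ZMod m) * a i)| <
        ((q : ℤ) - 1) * m.totient := by
      intro i
      obtain ⟨h1, h2⟩ := hLamAv T q m hPr (a i)
      by_cases hd : dt T q ∣ addOrderOf (a i)
      · have hn : addOrderOf (a i) ∣ m := by
          have := addOrderOf_dvd_card (x := a i)
          rwa [ZMod.card] at this
        have h3 := hN _ hn hd
        have hn0 : 0 < (addOrderOf (a i)).totient :=
          Nat.totient_pos.2 (Nat.pos_of_dvd_of_pos hn (Nat.pos_of_ne_zero (NeZero.ne m)))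
        have hn0z : (0 : ℤ) < (addOrderOf (a i)).totient := by exact_mod_cast hn0
        have h3z : 2 * (N : ℤ) * cs T q (addOrderOf (a i)) <
            ((q : ℤ) - 1) * (addOrderOf (a i)).totient := by
          have : ((2 * N * cs T q (addOrderOf (a i)) : ℕ) : ℤ) <
            (((q - 1) * (addOrderOf (a i)).totient : ℕ) : ℤ) := by exact_mod_cast h3
          rw [Nat.cast_mul, Nat.cast_mul, Nat.cast_mul, Nat.cast_sub (by omega)] at this
          simpa using this
        refine lt_of_mul_lt_mul_left ?_ hn0z.le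
        calc ((addOrderOf (a i)).totient : ℤ) *
              (2 * N * ∑ t : (ZMod m)ˣ, |lam T q ((t : ZMod m) * a i)|)
            = 2 * N * (((addOrderOf (a i)).totient : ℤ) *
              ∑ t : (ZMod m)ˣ, |lam T q ((t : ZMod m) * a i)|) := by ring
          _ ≤ 2 * N * (m.totient * cs T q (addOrderOf (a i))) :=
              mul_le_mul_of_nonneg_left h1 (by linarith)
          _ = m.totient * (2 * N * cs T q (addOrderOf (a i))) := by ring
          _ < m.totient * (((q : ℤ) - 1) * (addOrderOf (a i)).totient) :=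
              mul_lt_mul_of_pos_left h3z hφz
          _ = ((addOrderOf (a i)).totient : ℤ) * (((q : ℤ) - 1) * m.totient) := by ring
      · have h3 : ∑ t : (ZMod m)ˣ, |lam T q ((t : ZMod m) * a i)| = 0 := by
          apply sum_eq_zero
          intro t _
          rw [h2 hd t, abs_zero]
        rw [h3, mul_zero]
        exact mul_pos (by linarith) hφz
    have hsum : 2 * ∑ t : (ZMod m)ˣ, ∑ i, |lam T q ((t : ZMod m) * a i)| <
        ((q : ℤ) - 1) * m.totient := by
      rw [sum_comm]
      refine lt_of_mul_lt_mul_left ?_ hNz.le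
      have hne : (univ : Finset ι).Nonempty := by
        rw [← card_pos]
        exact h0
      calc (N : ℤ) * (2 * ∑ i, ∑ t : (ZMod m)ˣ, |lam T q ((t : ZMod m) * a i)|)
          = ∑ i, 2 * N * ∑ t : (ZMod m)ˣ, |lam T q ((t : ZMod m) * a i)| := by
            rw [← mul_sum]
            ring
        _ < ∑ _i : ι, ((q : ℤ) - 1) * m.totient := sum_lt_sum_of_nonempty hne fun i _ => key i
        _ = Fintype.card ι * (((q : ℤ) - 1) * m.totient) := by
            rw [sum_const, nsmul_eq_mul]
            rfl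
        _ ≤ N * (((q : ℤ) - 1) * m.totient) := by
            apply mul_le_mul_of_nonneg_right
            · exact_mod_cast hc
            · exact (mul_pos (by linarith) hφz).le
    by_contra hcon
    push Not at hcon
    have h4 : ∀ t : (ZMod m)ˣ, (q : ℤ) - 1 ≤ 2 * ∑ i, |lam T q ((t : ZMod m) * a i)| := by
      intro t
      refine (hcon t).trans ?_
      rw [hval, abs_mul]
      have : |(2 : ℤ)| = 2 := rfl
      rw [this]
      exact mul_le_mul_of_nonneg_left (abs_sum_le_sum_abs _ _) (by norm_num)
    have h5 : ((q : ℤ) - 1) * m.totient ≤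
        2 * ∑ t : (ZMod m)ˣ, ∑ i, |lam T q ((t : ZMod m) * a i)| := by
      calc ((q : ℤ) - 1) * m.totient = ∑ _t : (ZMod m)ˣ, ((q : ℤ) - 1) := by
            rw [sum_const, nsmul_eq_mul, card_univ, ZMod.card_units_eq_totient]
            ring
        _ ≤ ∑ t : (ZMod m)ˣ, 2 * ∑ i, |lam T q ((t : ZMod m) * a i)| := sum_le_sum fun t _ => h4 t
        _ = 2 * ∑ t : (ZMod m)ˣ, ∑ i, |lam T q ((t : ZMod m) * a i)| := by rw [mul_sum]
    linarith

end Pool.Agent.FO
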