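import Pool.Agent.Lib.MP_640417_ag.GT.SpecK

/-!
# Theorem GT, part K, module LamTop: values of the functional on the top level
-/

set_option autoImplicit false

open Finset Pool.Agent.FC

namespace Pool.Agent.FO

namespace GLamTopAux

/-- the number of a unit -/
private def vl {d : ℕ} (u : (ZMod d)ˣ) : ℤ := (((u : ZMod d).val : ℕ) : ℤ)

private theorem vl_mul {d : ℕ} [NeZero d] (u v : (ZMod d)ˣ) :
    (d : ℤ) ∣ vl (u * v) - vl u * vl v := by
  rw [← ZMod.intCast_zmod_eq_zero_iff_dvd]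
  unfold vl
  push_cast
  rw [ZMod.natCast_zmod_val, ZMod.natCast_zmod_val, ZMod.natCast_zmod_val, sub_self]

private theorem ik_iff {n s : ℕ} {y y' b b' : ℤ}
    (h : ((s ^ n.factorization s : ℕ) : ℤ) ∣ y - b ↔ ((s ^ n.factorization s : ℕ) : ℤ) ∣ y' - b') :
    ik n y s b = ik n y' s b' := by
  unfold ik
  exact if_congr h rfl rfl

private theorem pow_dvd_div {d p j : ℕ} [NeZero d] (hp : p ∈ d.primeFactors)
    (hj : j ∈ d.primeFactors) (hne : p ≠ j) :
    p ^ d.factorization p ∣ d / j ^ d.factorization j := by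
  have hpp := Nat.prime_of_mem_primeFactors hp
  have hjp := Nat.prime_of_mem_primeFactors hj
  have h1 : (p ^ d.factorization p).Coprime (j ^ d.factorization j) :=
    Nat.Coprime.pow _ _ ((Nat.coprime_primes hpp hjp).2 hne)
  have h2 : p ^ d.factorization p ∣ j ^ d.factorization j * (d / j ^ d.factorization j) := by
    rw [Nat.mul_div_cancel' (Nat.ordProj_dvd d j)]
    exact Nat.ordProj_dvd d p
  exact h1.dvd_of_dvd_mul_left h2

private theorem ik_ne {d p j : ℕ} [NeZero d] (hE : ∀ p ∈ d.primeFactors, IsEn d p (en d p))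
    (hp : p ∈ d.primeFactors) (hj : j ∈ d.primeFactors) (hne : p ≠ j) (u : (ZMod d)ˣ) (b : ℤ) :
    ik d (vl (en d j * u)) p b = ik d (vl u) p b := by
  have h1 : ((p ^ d.factorization p : ℕ) : ℤ) ∣ vl (en d j * u) - vl (en d j) * vl u :=
    (Int.natCast_dvd_natCast.2 (Nat.ordProj_dvd d p)).trans (vl_mul _ _)
  have h2 : ((p ^ d.factorization p : ℕ) : ℤ) ∣ vl (en d j) - 1 :=
    (Int.natCast_dvd_natCast.2 (pow_dvd_div hp hj hne)).trans (hE j hj).2
  have h3 : ((p ^ d.factorization p : ℕ) : ℤ) ∣ vl (en d j * u) - vl u := by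
    have e : vl (en d j * u) - vl u = (vl (en d j * u) - vl (en d j) * vl u) +
        (vl (en d j) - 1) * vl u := by ring
    rw [e]
    exact dvd_add h1 (Dvd.dvd.mul_right h2 _)
  refine ik_iff ?_
  have e : vl (en d j * u) - b = (vl (en d j * u) - vl u) + (vl u - b) := by ring
  rw [e]
  exact (Int.dvd_add_right h3)

private theorem ik_eq {d p : ℕ} [NeZero d] (hE : ∀ p ∈ d.primeFactors, IsEn d p (en d p))
    (hp : p ∈ d.primeFactors) (u : (ZMod d)ˣ) :
    ik d (vl (en d p * u)) p (-1) = ik d (vl u) p 1 := by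
  have h1 : ((p ^ d.factorization p : ℕ) : ℤ) ∣ vl (en d p * u) - vl (en d p) * vl u :=
    (Int.natCast_dvd_natCast.2 (Nat.ordProj_dvd d p)).trans (vl_mul _ _)
  have h2 : ((p ^ d.factorization p : ℕ) : ℤ) ∣ vl (en d p) + 1 := (hE p hp).1
  have h3 : ((p ^ d.factorization p : ℕ) : ℤ) ∣ vl (en d p * u) + vl u := by
    have e : vl (en d p * u) + vl u = (vl (en d p * u) - vl (en d p) * vl u) +
        (vl (en d p) + 1) * vl u := by ring
    rw [e]
    exact dvd_add h1 (Dvd.dvd.mul_right h2 _)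
  refine ik_iff ?_
  have e : vl (en d p * u) - -1 = (vl (en d p * u) + vl u) + -(vl u - 1) := by ring
  rw [e, Int.dvd_add_right h3, dvd_neg]

private theorem Cs_mul {G : Type} [Group G] (e : ℕ → G) (g F : G → ℤ) :
    ∀ l : List ℕ, (∀ j ∈ l, ∀ u, g (e j * u) = g u) → ∀ a,
      Cs e l (fun x => F x * g x) a = g a * Cs e l F a
  | [], _, a => mul_comm _ _
  | i :: l, h, a => by
    have ih := Cs_mul e g F l fun j hj => h j (List.mem_cons_of_mem _ hj)
    rw [Cs, Cs, ih, ih, h i List.mem_cons_self]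
    ring

private theorem claim {d : ℕ} [NeZero d] (hE : ∀ p ∈ d.primeFactors, IsEn d p (en d p)) :
    ∀ l : List ℕ, l.Nodup → (∀ p ∈ l, p ∈ d.primeFactors) → ∀ F : (ZMod d)ˣ → ℤ,
      ∑ u, F u * (l.map fun p => ik d (vl u) p 1 - ik d (vl u) p (-1)).prod =
        ∑ u, (l.map fun p => ik d (vl u) p 1).prod * Cs (en d) l F u
  | [], _, _, F => by
    refine Finset.sum_congr rfl fun u _ => ?_
    rw [List.map_nil, List.prod_nil, List.map_nil, List.prod_nil, mul_one, one_mul]
    rfl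
  | i :: l, hl, hp, F => by
    have hil : i ∉ l := (List.nodup_cons.1 hl).1
    have hi := hp i List.mem_cons_self
    have hp' : ∀ p ∈ l, p ∈ d.primeFactors := fun p h => hp p (List.mem_cons_of_mem _ h)
    have ih := claim hE l (List.nodup_cons.1 hl).2 hp'
      (fun u => F u * (ik d (vl u) i 1 - ik d (vl u) i (-1)))
    have e1 : ∑ u, F u * ((i :: l).map fun p => ik d (vl u) p 1 - ik d (vl u) p (-1)).prod =
        ∑ u, F u * (ik d (vl u) i 1 - ik d (vl u) i (-1)) *
          (l.map fun p => ik d (vl u) p 1 - ik d (vl u) p (-1)).prod := by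
      refine Finset.sum_congr rfl fun u _ => ?_
      rw [List.map_cons, List.prod_cons, mul_assoc]
    have e2 : ∀ u, Cs (en d) l (fun u => F u * (ik d (vl u) i 1 - ik d (vl u) i (-1))) u =
        (ik d (vl u) i 1 - ik d (vl u) i (-1)) * Cs (en d) l F u := by
      intro u
      refine Cs_mul (en d) (fun u => ik d (vl u) i 1 - ik d (vl u) i (-1)) F l (fun j hj v => ?_) u
      have hne : i ≠ j := fun h => hil (h ▸ hj)
      change ik d (vl (en d j * v)) i 1 - ik d (vl (en d j * v)) i (-1) = _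
      rw [ik_ne hE hi (hp' j hj) hne, ik_ne hE hi (hp' j hj) hne]
    rw [e1, ih]
    have e3 : ∑ u, (l.map fun p => ik d (vl u) p 1).prod *
        (ik d (vl u) i (-1) * Cs (en d) l F u) =
        ∑ u, (l.map fun p => ik d (vl u) p 1).prod *
        (ik d (vl u) i 1 * Cs (en d) l F (en d i * u)) := by
      rw [← Equiv.sum_comp (Equiv.mulLeft (en d i))]
      refine Finset.sum_congr rfl fun u _ => ?_
      rw [Equiv.coe_mulLeft, ik_eq hE hi]
      congr 2
      refine List.map_congr_left fun p hpl => ?_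
      exact ik_ne hE (hp' p hpl) hi (fun h => hil (h ▸ hpl)) u 1
    have e4 : ∑ u, (l.map fun p => ik d (vl u) p 1).prod *
        Cs (en d) l (fun u => F u * (ik d (vl u) i 1 - ik d (vl u) i (-1))) u =
        ∑ u, (l.map fun p => ik d (vl u) p 1).prod * (ik d (vl u) i 1 * Cs (en d) l F u) -
        ∑ u, (l.map fun p => ik d (vl u) p 1).prod * (ik d (vl u) i (-1) * Cs (en d) l F u) := by
      rw [← Finset.sum_sub_distrib]
      refine Finset.sum_congr rfl fun u _ => ?_
      rw [e2]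
      ring
    rw [e4, e3, ← Finset.sum_sub_distrib]
    refine Finset.sum_congr rfl fun u _ => ?_
    rw [List.map_cons, List.prod_cons, Cs]
    ring

private theorem mem_sK {G : Type} [Group G] [Fintype G] (K : Subgroup G) (u : G) :
    u ∈ sK K ↔ u ∈ K := by
  classical
  unfold sK
  rw [Finset.mem_filter]
  exact ⟨fun h => h.2, fun h => ⟨Finset.mem_univ _, h⟩⟩

/-- prime divisors of the number `dt T q` -/
private theorem dvd_R {T : List ℕ} {p : ℕ} (hp : p.Prime) (hT : ∀ s ∈ T, s.Prime) :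
    p ∣ (T.map fun s => if s = 2 then 4 else s).prod ↔ p ∈ T := by
  constructor
  · intro h
    obtain ⟨a, ha, hpa⟩ := (Nat.Prime.prime hp).dvd_prod_iff.1 h
    obtain ⟨s, hs, rfl⟩ := List.mem_map.1 ha
    by_cases h2 : s = 2
    · rw [if_pos h2] at hpa
      have h4 : p ∣ 2 := by
        have e : (4 : ℕ) = 2 ^ 2 := rfl
        rw [e] at hpa
        exact hp.dvd_of_dvd_pow hpa
      rw [(Nat.prime_dvd_prime_iff_eq hp Nat.prime_two).1 h4, ← h2]
      exact hs
    · rw [if_neg h2] at hpa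
      rw [(Nat.prime_dvd_prime_iff_eq hp (hT s hs)).1 hpa]
      exact hs
  · intro h
    have h1 : (if p = 2 then 4 else p) ∣ (T.map fun s => if s = 2 then 4 else s).prod :=
      List.dvd_prod (List.mem_map.2 ⟨p, h, rfl⟩)
    refine Dvd.dvd.trans ?_ h1
    by_cases h2 : p = 2
    · rw [if_pos h2, h2]
      exact ⟨2, rfl⟩
    · rw [if_neg h2]

end GLamTopAux

open GLamTopAux in
/-- **LamTop.** -/
theorem pLamTop (hEn : S_En) (hUpsB : S_UpsB) (hLamB : S_LamB) : S_LamTop := by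
  intro T q m d _ _ hPr hd hdm F hF t
  obtain ⟨hnd, hpr, hq2, -⟩ := id hPr
  have hqp : q.Prime := hpr q List.mem_cons_self
  have hTp : ∀ s ∈ T, s.Prime := fun s hs => hpr s (List.mem_cons_of_mem _ hs)
  have hqT : q ∉ T := (List.nodup_cons.1 hnd).1
  have hTn : T.Nodup := (List.nodup_cons.1 hnd).2
  have hd0 : d ≠ 0 := NeZero.ne d
  obtain ⟨R, hR⟩ : ∃ R, R = (T.map fun p => if p = 2 then 4 else p).prod := ⟨_, rfl⟩
  have hdR : d = q * R := by rw [hd, dt, hR]
  have hR0 : R ≠ 0 := fun h => hd0 (by rw [hdR, h, mul_zero])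
  have hqR : ¬ q ∣ R := by
    rw [hR, dvd_R hqp hTp]
    exact hqT
  have hdq : d / q = R := by rw [hdR, Nat.mul_div_cancel_left _ hqp.pos]
  have hqd : q ∣ d := ⟨R, hdR⟩
  have hTd : ∀ s ∈ T, s ∣ d := fun s hs => by
    rw [hdR, hR]
    exact Dvd.dvd.mul_left ((dvd_R (hTp s hs) hTp).2 hs) q
  have hpf : ∀ p, p ∈ d.primeFactors ↔ p = q ∨ p ∈ T := by
    intro p
    rw [Nat.mem_primeFactors]
    constructor
    · rintro ⟨h1, h2, -⟩
      rw [hdR, h1.dvd_mul, Nat.prime_dvd_prime_iff_eq h1 hqp, hR, dvd_R h1 hTp] at h2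
      exact h2
    · rintro (rfl | h)
      · exact ⟨hqp, hqd, hd0⟩
      · exact ⟨hTp p h, hTd p h, hd0⟩
  have hTpf : ∀ p ∈ T, p ∈ d.primeFactors := fun p hp => (hpf p).2 (Or.inr hp)
  have hL : (d.primeFactors \ T.toFinset).erase q = ∅ := by
    refine Finset.eq_empty_of_forall_notMem fun p hp => ?_
    rw [Finset.mem_erase, Finset.mem_sdiff, List.mem_toFinset, hpf] at hp
    rcases hp.2.1 with h | h
    · exact hp.1 h
    · exact hp.2.2 h
  -- the values
  have hval : ∀ u : (ZMod d)ˣ, lam T q (el m d u) =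
      (T.map fun p => ik d (vl u) p 1 - ik d (vl u) p (-1)).prod := by
    intro u
    obtain ⟨h1, -, h3, -⟩ := hLamB T q m hPr
    obtain ⟨h4, h5⟩ := h3 d hdm u
    rw [h5, (h1 d _ hdm h4).2, Ph, if_pos ⟨hqd, hTd⟩, hL, (hUpsB _ (ik d 0) T 1 ∅).2.2.2.2]
    rfl
  set tb : (ZMod d)ˣ := ZMod.unitsMap hdm t with htb
  have hE := (hEn d).1
  have hsum : ∑ u, F u * lam T q ((t : ZMod m) * el m d u) =
      ∑ u, (T.map fun p => ik d (vl u) p 1).prod * Cs (en d) T (fun x => F (tb⁻¹ * x)) u := by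
    rw [← claim hE T hTn hTpf (fun x => F (tb⁻¹ * x))]
    refine Eq.trans ?_ (Equiv.sum_comp (Equiv.mulLeft tb) _)
    refine Finset.sum_congr rfl fun u _ => ?_
    rw [Equiv.coe_mulLeft, (hEl m d hdm).2.2.2.1 t u, hval]
    change F u * _ = F (tb⁻¹ * (tb * u)) * _
    rw [inv_mul_cancel_left]
  -- the group `Kp d q`
  have hKp : ∀ u : (ZMod d)ˣ, u ∈ Kp d q ↔ (R : ℤ) ∣ vl u - 1 := by
    intro u
    unfold Kp
    rw [dif_pos hqd, MonoidHom.mem_ker, Units.ext_iff, ZMod.unitsMap_val, ZMod.cast_eq_val,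
      Units.val_one, ← Nat.cast_one, ZMod.natCast_eq_natCast_iff, hdq]
    rw [← Nat.cast_one (R := ℤ)]
    exact ⟨fun h => Nat.modEq_iff_dvd.1 h.symm, fun h => (Nat.modEq_iff_dvd.2 h).symm⟩
  have hprod : ∀ u : (ZMod d)ˣ, (T.map fun p => ik d (vl u) p 1).prod =
      if u ∈ sK (Kp d q) then 1 else 0 := by
    intro u
    have hmem := mem_sK (Kp d q) u
    by_cases h : (R : ℤ) ∣ vl u - 1
    · rw [if_pos (hmem.2 ((hKp u).2 h))]
      refine List.prod_eq_one fun x hx => ?_
      obtain ⟨p, hp, rfl⟩ := List.mem_map.1 hx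
      have hpq : p ≠ q := fun e => hqT (e ▸ hp)
      have h1 : p ^ d.factorization p ∣ R := by
        have h2 : p ^ d.factorization p ∣ q * R := by
          rw [← hdR]
          exact Nat.ordProj_dvd d p
        exact (Nat.Coprime.pow_left _ ((Nat.coprime_primes (hTp p hp) hqp).2 hpq)).dvd_of_dvd_mul_left h2
      unfold ik
      rw [if_pos ((Int.natCast_dvd_natCast.2 h1).trans h)]
    · rw [if_neg fun h' => h ((hKp u).1 (hmem.1 h'))]
      have h1 : ∃ p ∈ T, ¬ ((p ^ d.factorization p : ℕ) : ℤ) ∣ vl u - 1 := by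
        by_contra hno
        refine h ?_
        rw [Int.natCast_dvd, Nat.dvd_iff_prime_pow_dvd_dvd]
        intro p k hp hk
        rcases Nat.eq_zero_or_pos k with rfl | hk0
        · rw [pow_zero]
          exact one_dvd _
        have h2 : p ∣ R := (dvd_pow_self p hk0.ne').trans hk
        rw [hR, dvd_R hp hTp] at h2
        have h3 : ((p ^ d.factorization p : ℕ) : ℤ) ∣ vl u - 1 := by
          by_contra h4
          exact hno ⟨p, h2, h4⟩
        have h5 : p ^ k ∣ p ^ d.factorization p := by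
          refine pow_dvd_pow p ?_
          refine (hp.pow_dvd_iff_le_factorization hd0).1 ?_
          rw [hdR]
          exact Dvd.dvd.mul_left hk q
        exact h5.trans (Int.natCast_dvd.1 h3)
      obtain ⟨p, hp, hpn⟩ := h1
      refine List.prod_eq_zero (List.mem_map.2 ⟨p, hp, ?_⟩)
      unfold ik
      rw [if_neg hpn]
  have hcard : ((sK (Kp d q)).card : ℤ) = q - 1 := by
    rw [(pKpBas d).2 q ((hpf q).2 (Or.inl rfl)), if_neg]
    rintro ⟨c, hc⟩
    refine hqR ⟨c, ?_⟩
    have h1 : q * R = q * (q * c) := by rw [← hdR, hc, sq, mul_assoc]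
    exact Nat.eq_of_mul_eq_mul_left hqp.pos h1
  refine ⟨tb⁻¹, ?_⟩
  rw [hsum]
  have hterm : ∀ u : (ZMod d)ˣ, (T.map fun p => ik d (vl u) p 1).prod *
      Cs (en d) T (fun x => F (tb⁻¹ * x)) u =
      if u ∈ sK (Kp d q) then Cs (en d) T F tb⁻¹ else 0 := by
    intro u
    rw [hprod]
    split_ifs with h
    · rw [one_mul, ((gCbB _ (en d) T F F).2.2.1 tb⁻¹ u).2, mul_comm tb⁻¹ u]
      exact hF u ((mem_sK _ _).1 h) tb⁻¹
    · rw [zero_mul]
  rw [Finset.sum_congr rfl fun u _ => hterm u, ← Finset.sum_filter, Finset.sum_const]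
  have hfil : Finset.filter (fun u => u ∈ sK (Kp d q)) Finset.univ = sK (Kp d q) := by
    ext u
    rw [Finset.mem_filter]
    exact ⟨fun h => h.2, fun h => ⟨Finset.mem_univ _, h⟩⟩
  rw [hfil, nsmul_eq_mul, hcard]

end Pool.Agent.FO
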