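import Pool.Agent.Lib.MP_640417_ag.GT.SpecR

/-!
# Pairs of primes: functionals of the coset sums
-/

set_option autoImplicit false

noncomputable section

namespace Pool.Agent.FO

open Finset Pool.Agent.FC

namespace GLmAAux

/-- `c4 p` is a power of `p` -/
theorem c4_pow (p : ℕ) : ∃ k : ℕ, k ≠ 0 ∧ c4 p = p ^ k := by
  unfold c4
  split_ifs with h
  · exact ⟨2, by norm_num, by rw [h]; norm_num⟩
  · exact ⟨1, by norm_num, by rw [pow_one]⟩

theorem c4_ne {p : ℕ} (hp : p.Prime) : c4 p ≠ 0 := by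
  obtain ⟨k, -, hk⟩ := c4_pow p
  rw [hk]
  exact pow_ne_zero k hp.ne_zero

theorem dT_eq (S : Finset ℕ) : dT S = ∏ p ∈ S, c4 p := rfl

theorem dT_ne {S : Finset ℕ} (hS : ∀ p ∈ S, p.Prime) : dT S ≠ 0 := by
  rw [dT_eq]
  exact Finset.prod_ne_zero_iff.2 fun p hp => c4_ne (hS p hp)

theorem dvd_dT_iff {S : Finset ℕ} (hS : ∀ p ∈ S, p.Prime) {p : ℕ} (hp : p.Prime) :
    p ∣ dT S ↔ p ∈ S := by
  rw [dT_eq]
  constructor
  · intro h
    obtain ⟨s, hs, h1⟩ := (Prime.dvd_finsetProd_iff hp.prime _).1 h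
    obtain ⟨k, -, hk⟩ := c4_pow s
    rw [hk] at h1
    have h2 : p = s := (Nat.prime_dvd_prime_iff_eq hp (hS s hs)).1 (hp.dvd_of_dvd_pow h1)
    rw [h2]
    exact hs
  · intro h
    obtain ⟨k, hk0, hk⟩ := c4_pow p
    refine Dvd.dvd.trans ?_ (Finset.dvd_prod_of_mem _ h)
    rw [hk]
    exact dvd_pow_self p hk0

theorem dT_primeFactors {S : Finset ℕ} (hS : ∀ p ∈ S, p.Prime) : (dT S).primeFactors = S := by
  ext p
  rw [Nat.mem_primeFactors]
  constructor
  · rintro ⟨hp, h, -⟩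
    exact (dvd_dT_iff hS hp).1 h
  · intro h
    exact ⟨hS p h, (dvd_dT_iff hS (hS p h)).2 h, dT_ne hS⟩

theorem dT_fact {S : Finset ℕ} (hS : ∀ p ∈ S, p.Prime) {s : ℕ} (hs : s ∈ S) :
    s ^ (dT S).factorization s = c4 s := by
  have hsp := hS s hs
  have hS' : ∀ p ∈ S.erase s, p.Prime := fun p hp => hS p (Finset.mem_of_mem_erase hp)
  have h1 : dT S = c4 s * dT (S.erase s) := by
    rw [dT_eq, dT_eq, Finset.mul_prod_erase S c4 hs]
  obtain ⟨k, -, hk⟩ := c4_pow s
  have h2 : (dT (S.erase s)).factorization s = 0 := by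
    refine Nat.factorization_eq_zero_of_not_dvd fun h => ?_
    exact (Finset.notMem_erase s S) ((dvd_dT_iff hS' hsp).1 h)
  rw [h1, Nat.factorization_mul (c4_ne hsp) (dT_ne hS'), Finsupp.add_apply, h2, add_zero, hk,
    Nat.factorization_pow, Finsupp.smul_apply, Nat.Prime.factorization_self hsp, smul_eq_mul, mul_one]

theorem dvd_dt {l : List ℕ} {q p : ℕ} (h : p ∈ q :: l) : p ∣ dt l q := by
  unfold dt
  rcases List.mem_cons.1 h with rfl | h
  · exact Dvd.intro _ rfl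
  · refine Dvd.dvd.mul_left ?_ q
    refine Dvd.dvd.trans ?_ (List.dvd_prod (List.mem_map.2 ⟨p, h, rfl⟩))
    split_ifs with h2
    · rw [h2]
      norm_num
    · exact dvd_rfl

theorem sqi_or (m d : ℕ) (x : ZMod m) : sqi m d x = 1 ∨ sqi m d x = 0 := by
  unfold sqi
  split_ifs
  · exact Or.inl rfl
  · exact Or.inr rfl

/-- the sum of an odd function -/
theorem sum_odd {m : ℕ} [NeZero m] (S : Finset ℕ) (f : ZMod m → ℤ) (hf : ∀ x, f (-x) = -f x) :
    ∑ x, Aq m S x * f x = 2 * ∑ x ∈ Xs m S, f x := by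
  have h1 : ∑ x : ZMod m, sqi m (dT S) x * f x = ∑ x ∈ Xs m S, f x := by
    unfold Xs
    rw [Finset.sum_filter]
    refine Finset.sum_congr rfl fun x _ => ?_
    rcases sqi_or m (dT S) x with h | h
    · rw [h, if_pos rfl, one_mul]
    · rw [h, if_neg (by norm_num), zero_mul]
  have h2 : ∑ x : ZMod m, sqi m (dT S) (-x) * f x = -∑ x ∈ Xs m S, f x := by
    rw [← h1, ← Finset.sum_neg_distrib, ← Equiv.sum_comp (Equiv.neg (ZMod m))]
    refine Finset.sum_congr rfl fun x _ => ?_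
    rw [Equiv.neg_apply, neg_neg, hf, mul_neg]
  have h3 : ∀ x : ZMod m, Aq m S x * f x = sqi m (dT S) x * f x - sqi m (dT S) (-x) * f x := by
    intro x
    unfold Aq
    ring
  rw [Finset.sum_congr rfl fun x _ => h3 x, Finset.sum_sub_distrib, h1, h2]
  ring

/-- the values of `ik` -/
theorem prod_ik {S : Finset ℕ} (hS : ∀ p ∈ S, p.Prime) {S' : Finset ℕ} (hS' : S' ⊆ S) (w : ℤ)
    (b : ℕ → ℤ) [Decidable (∀ s ∈ S', ((c4 s : ℕ) : ℤ) ∣ w - b s)] :
    ∏ s ∈ S', ik (dT S) w s (b s) = if ∀ s ∈ S', ((c4 s : ℕ) : ℤ) ∣ w - b s then 1 else 0 := by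
  classical
  have h1 : ∀ s ∈ S', ik (dT S) w s (b s) = if ((c4 s : ℕ) : ℤ) ∣ w - b s then 1 else 0 := by
    intro s hs
    unfold ik
    rw [dT_fact hS (hS' hs)]
  rw [Finset.prod_congr rfl h1, Finset.prod_boole]
  split_ifs <;> rfl

end GLmAAux

open GLmAAux in
theorem pLmA (h1 : S_CtX) : S_LmA := by
  classical
  intro m _ S l q hS hSm hPr
  obtain ⟨hnd, hpr, hq2, hodd⟩ := hPr
  obtain ⟨l1, l2, -, l4, l5⟩ := gLamB l q m ⟨hnd, hpr, hq2, hodd⟩
  obtain ⟨-, s2, s3, s4, s5, s6⟩ := gSqX m S hS hSm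
  have hX : ∀ x ∈ Xs m S, addOrderOf x = dT S := by
    intro x hx
    unfold Xs at hx
    exact s6 x (Finset.mem_filter.1 hx).2
  rw [sum_odd S (lam l q) l4]
  unfold vv
  split_ifs with hc
  · -- all primes are in `S`
    have hqS : q ∈ S := hc q List.mem_cons_self
    have hlS : ∀ s ∈ l, s ∈ S := fun s hs => hc s (List.mem_cons_of_mem q hs)
    have hql : q ∉ l := (List.nodup_cons.1 hnd).1
    have hS' : l.toFinset ∪ (S \ l.toFinset).erase q = S.erase q := by
      ext s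
      rw [Finset.mem_union, Finset.mem_erase, Finset.mem_erase, Finset.mem_sdiff, List.mem_toFinset]
      constructor
      · rintro (h | ⟨h, h', -⟩)
        · exact ⟨fun h2 => hql (h2 ▸ h), hlS s h⟩
        · exact ⟨h, h'⟩
      · rintro ⟨h, h'⟩
        by_cases h2 : s ∈ l
        · exact Or.inl h2
        · exact Or.inr ⟨h, h', h2⟩
    have hTm := gTmUps l 1 ((S \ l.toFinset).erase q) (List.nodup_cons.1 hnd).2
      (fun s hs => hpr s (List.mem_cons_of_mem q hs))
      (fun s hs => hS s (Finset.mem_sdiff.1 (Finset.mem_of_mem_erase hs)).1)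
      (fun s hs h => (Finset.mem_sdiff.1 (Finset.mem_of_mem_erase h)).2 (List.mem_toFinset.2 hs))
      (fun s _ => isCoprime_one_left)
    rw [hS'] at hTm
    obtain ⟨sg, b, -, hb, hI0⟩ := hTm
    have hI : ∀ I : ℕ → ℤ → ℤ, ups I l 1 ((S \ l.toFinset).erase q) =
        ∑ i, sg i * ∏ s ∈ S.erase q, I s (b i s) := hI0
    -- representatives
    have hrep : ∀ x : ZMod m, ∃ w : ℤ, x ∈ Xs m S → IsCoprime w (dT S : ℤ) ∧
        x = ((m / dT S : ℕ) : ZMod m) * ((w : ℤ) : ZMod m) := by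
      intro x
      by_cases hx : x ∈ Xs m S
      · obtain ⟨w, hw⟩ := s4 x (hX x hx)
        exact ⟨w, fun _ => hw⟩
      · exact ⟨0, fun h => absurd h hx⟩
    choose w hw using hrep
    have hlam : ∀ x ∈ Xs m S, lam l q x =
        ∑ i, sg i * if ∀ s ∈ S.erase q, ((c4 s : ℕ) : ℤ) ∣ w x - b i s then 1 else 0 := by
      intro x hx
      obtain ⟨hwc, hwx⟩ := hw x hx
      have e1 : lam l q x = Ph l q (dT S) 1 (w x) := by
        conv_lhs => rw [hwx]
        exact (l1 (dT S) (w x) hSm hwc).2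
      have e2 : Ph l q (dT S) 1 (w x) =
          ups (ik (dT S) (w x)) l 1 ((S \ l.toFinset).erase q) := by
        unfold Ph
        rw [if_pos ⟨(dvd_dT_iff hS (hS q hqS)).2 hqS, fun s hs =>
          (dvd_dT_iff hS (hS s (hlS s hs))).2 (hlS s hs)⟩, dT_primeFactors hS]
      rw [e1, e2, hI]
      refine Finset.sum_congr rfl fun i _ => ?_
      rw [prod_ik hS (Finset.erase_subset q S)]
    have hcard : ∀ i, 2 * (((Xs m S).filter
        fun x => ∀ s ∈ S.erase q, ((c4 s : ℕ) : ℤ) ∣ w x - b i s).card : ℤ) =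
        ((q : ℤ) - 1) * ∏ s ∈ S.erase q, Js s (b i s) := by
      intro i
      refine h1 m S q hS hSm hqS hq2 (b i) (hb i) _ fun x => ?_
      rw [Finset.mem_filter]
      refine and_congr_right fun hx => ?_
      obtain ⟨-, hwx⟩ := hw x hx
      constructor
      · intro h
        exact ⟨w x, hwx, h⟩
      · rintro ⟨w', hw', h⟩ s hs
        have h2 : ((dT S : ℕ) : ℤ) ∣ w x - w' := by
          rw [← s2, ← hwx, ← hw']
        have h3 : ((c4 s : ℕ) : ℤ) ∣ ((dT S : ℕ) : ℤ) := by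
          refine Int.natCast_dvd_natCast.2 ?_
          rw [dT_eq]
          exact Finset.dvd_prod_of_mem _ (Finset.mem_of_mem_erase hs)
        have h4 : w x - b i s = (w x - w') + (w' - b i s) := by ring
        rw [h4]
        exact dvd_add (h3.trans h2) (h s hs)
    rw [Finset.sum_congr rfl hlam, Finset.sum_comm, hI, Finset.mul_sum, Finset.mul_sum]
    refine Finset.sum_congr rfl fun i _ => ?_
    rw [← Finset.mul_sum, Finset.sum_boole]
    linear_combination sg i * hcard i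
  · push Not at hc
    obtain ⟨p, hp, hpS⟩ := hc
    rw [mul_zero]
    have h2 : ∑ x ∈ Xs m S, lam l q x = 0 := by
      refine Finset.sum_eq_zero fun x hx => ?_
      by_contra hne
      have h3 := (dvd_dt hp).trans (l5 x hne)
      rw [hX x hx] at h3
      exact hpS ((dvd_dT_iff hS (hpr p hp)).1 h3)
    rw [h2, mul_zero]

end Pool.Agent.FO
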