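import Pool.Agent.Lib.MP_640417_ag.GT.SpecI

/-!
# Theorem GT, part I, module Ob: the obstruction lemma
-/

set_option autoImplicit false

noncomputable section

namespace Pool.Agent.FO

open Finset Pool.Agent.FC

namespace GObAux

theorem left_le {G : Type} [Group G] (K : ℕ → Subgroup G) (i : ℕ) (l : List ℕ) :
    K i ≤ KS K (i :: l) := le_sup_left

theorem right_le {G : Type} [Group G] (K : ℕ → Subgroup G) (i : ℕ) (l : List ℕ) :
    KS K l ≤ KS K (i :: l) := le_sup_right

theorem prod_mem {G : Type} [CommGroup G] (K : ℕ → Subgroup G) (e : ℕ → G) :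
    ∀ l : List ℕ, (∀ q ∈ l, e q ∈ K q) → (l.map e).prod ∈ KS K l
  | [], _ => by
    rw [List.map_nil, List.prod_nil]
    exact one_mem _
  | i :: l, h => by
    rw [List.map_cons, List.prod_cons]
    exact mul_mem (left_le K i l (h i List.mem_cons_self))
      (right_le K i l (prod_mem K e l fun q hq => h q (List.mem_cons_of_mem _ hq)))

theorem prod_sq {G : Type} [CommGroup G] (e : ℕ → G) :
    ∀ l : List ℕ, (∀ q ∈ l, e q * e q = 1) → (l.map e).prod * (l.map e).prod = 1
  | [], _ => by
    rw [List.map_nil, List.prod_nil, one_mul]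
  | i :: l, h => by
    rw [List.map_cons, List.prod_cons, mul_mul_mul_comm, h i List.mem_cons_self,
      prod_sq e l fun q hq => h q (List.mem_cons_of_mem _ hq), one_mul]

theorem prod_ne {G : Type} [CommGroup G] (K : ℕ → Subgroup G) (e : ℕ → G) (j : ℕ) (l : List ℕ)
    (hI : Ind K (j :: l)) (hv : Iv K e (j :: l)) : ((j :: l).map e).prod ≠ 1 := by
  intro h
  rw [List.map_cons, List.prod_cons] at h
  have h1 : e j ∈ K j := (hv j List.mem_cons_self).1
  have h2 : (l.map e).prod ∈ KS K l :=
    prod_mem K e l fun q hq => (hv q (List.mem_cons_of_mem _ hq)).1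
  have h3 : e j = ((l.map e).prod)⁻¹ := eq_inv_of_mul_eq_one_left h
  have h4 : e j ∈ KS K l := by
    rw [h3]
    exact inv_mem h2
  exact (hv j List.mem_cons_self).2.1 (Subgroup.disjoint_def.1 hI.1 h1 h4)

theorem Cb_loc {G : Type} [CommGroup G] (K : ℕ → Subgroup G) (e : ℕ → G) (F F' : G → ℤ) :
    ∀ l : List ℕ, (∀ q ∈ l, e q ∈ K q) → ∀ a : G,
      (∀ y ∈ KS K l, F (y * a) = F' (y * a)) → Cb e l F a = Cb e l F' a
  | [], _, a, h => by
    have := h 1 (one_mem _)
    rw [one_mul] at this
    exact this
  | i :: l, hq, a, h => by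
    have h1 := Cb_loc K e F F' l (fun q hq' => hq q (List.mem_cons_of_mem _ hq')) a
      (fun y hy => h y (right_le K i l hy))
    have h2 := Cb_loc K e F F' l (fun q hq' => hq q (List.mem_cons_of_mem _ hq')) (e i * a)
      (fun y hy => by
        rw [← mul_assoc]
        exact h (y * e i) (mul_mem (right_le K i l hy) (left_le K i l (hq i List.mem_cons_self))))
    change Cb e l F a + Cb e l F (e i * a) = Cb e l F' a + Cb e l F' (e i * a)
    rw [h1, h2]

theorem inv_prod {G : Type} [CommGroup G] (e : ℕ → G) (C : G → ℤ) :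
    ∀ l : List ℕ, (∀ q ∈ l, ∀ x, C (e q * x) = C x) → ∀ x, C ((l.map e).prod * x) = C x
  | [], _, x => by rw [List.map_nil, List.prod_nil, one_mul]
  | i :: l, h, x => by
    rw [List.map_cons, List.prod_cons, mul_assoc, h i List.mem_cons_self,
      inv_prod e C l (fun q hq => h q (List.mem_cons_of_mem _ hq))]

theorem two_s {s : ℤ} (hs : s = 1 ∨ s = -1) (x : ℤ) : (2 : ℤ) ∣ s * x - x := by
  rcases hs with rfl | rfl
  · exact ⟨0, by ring⟩
  · exact ⟨-x, by ring⟩

theorem par {G : Type} [CommGroup G] (hCb : S_CbB) (e : ℕ → G) (i j : ℕ) (l : List ℕ)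
    (he : ∀ q ∈ i :: j :: l, e q * e q = 1) (s : ℤ) (hs : s = 1 ∨ s = -1) (z : G → ℤ)
    (hz : ∀ a, z (((i :: j :: l).map e).prod * a) = s * z a) (x : G) :
    (2 : ℤ) ∣ (Cb e l z (e i * x) + Cb e l z x) - Cb e (j :: l) z x := by
  obtain ⟨-, -, c3, c4, c5, -⟩ := hCb G e l z z
  have hel : ∀ q ∈ l, e q * e q = 1 := fun q hq =>
    he q (List.mem_cons_of_mem _ (List.mem_cons_of_mem _ hq))
  have hej : e j * e j = 1 := he j (List.mem_cons_of_mem _ List.mem_cons_self)
  have hC1 : ∀ q ∈ l, ∀ x, Cb e l z (e q * x) = Cb e l z x := fun q hq => c5 q hq (hel q hq)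
  have hC2 : ∀ x, Cb e l z (((i :: j :: l).map e).prod * x) = s * Cb e l z x := by
    intro x
    rw [← (c3 _ x).1, ← (c4 s x).1]
    congr 1
    funext y
    exact hz y
  have hC3 : ∀ x, Cb e l z (e i * (e j * x)) = s * Cb e l z x := by
    intro x
    rw [← hC2 x, List.map_cons, List.map_cons, List.prod_cons, List.prod_cons]
    have h1 : e i * (e j * (l.map e).prod) * x = (l.map e).prod * (e i * (e j * x)) := by
      rw [mul_assoc, mul_assoc, mul_left_comm (e j), mul_left_comm (e i)]
    rw [h1]
    exact (inv_prod e (Cb e l z) l hC1 _).symm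
  have h1 := hC3 (e j * x)
  rw [← mul_assoc (e j), hej, one_mul] at h1
  change (2 : ℤ) ∣ (Cb e l z (e i * x) + Cb e l z x) - (Cb e l z x + Cb e l z (e j * x))
  have h2 : s * Cb e l z (e j * x) + Cb e l z x - (Cb e l z x + Cb e l z (e j * x)) =
      s * Cb e l z (e j * x) - Cb e l z (e j * x) := by ring
  rw [h1, h2]
  exact two_s hs _

end GObAux

open GObAux

theorem pOb (hHfS : S_HfS) (hBsS : S_BsS) (hRelB : S_RelB) (hCbB : S_CbB) : S_Ob := by
  intro G _ _ K e l
  induction l with
  | nil =>
    intro _ _ s _ z hz _ _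
    refine ⟨z, hz, fun a => ?_⟩
    have h0 : z = 0 := hz
    rw [h0]
    change (0 : ℤ) = 0 + s * 0
    ring
  | cons i l' ih =>
    intro hI hv s hs z hz hzt hpar
    cases l' with
    | nil =>
      have hinv : ∀ k ∈ K i, ∀ a, z (k * a) = z a := (gTBas G (K i) (K i) z z).2.2.2.2.2.2.2.1.1 hz
      have hτ : (([i] : List ℕ).map e).prod = e i := by
        rw [List.map_cons, List.map_nil, List.prod_cons, List.prod_nil, mul_one]
      have hei : e i ∈ K i := (hv i List.mem_cons_self).1
      rw [hτ] at hzt ⊢
      rcases hs with rfl | rfl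
      · have h2 := hpar (by norm_num)
        refine ⟨fun a => z a / 2, ?_, ?_⟩
        · refine (gTBas G (K i) (K i) (fun a => z a / 2) z).2.2.2.2.2.2.2.1.2 ?_
          intro k hk a
          rw [hinv k hk a]
        · intro a
          change z a = z a / 2 + 1 * (z (e i * a) / 2)
          rw [hinv (e i) hei a]
          have h3 : (2 : ℤ) ∣ z a := h2 a
          omega
      · have h0 : ∀ a, z a = 0 := by
          intro a
          have h1 := hzt a
          rw [hinv (e i) hei a] at h1
          omega
        refine ⟨z, hz, fun a => ?_⟩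
        rw [h0, h0]
        ring
    | cons j l =>
      obtain ⟨hI1, hI2⟩ := hI
      have hv' : Iv K e (j :: l) := fun q hq => hv q (List.mem_cons_of_mem _ hq)
      obtain ⟨hei, hei1, hei2⟩ := hv i List.mem_cons_self
      set τ' : G := ((j :: l).map e).prod with hτ'
      have hτ : ((i :: j :: l).map e).prod = e i * τ' := by
        rw [List.map_cons, List.prod_cons]
      have hss : s * s = 1 := by
        rcases hs with rfl | rfl <;> norm_num
      have hτm : τ' ∈ KS K (j :: l) := prod_mem K e (j :: l) fun q hq => (hv' q hq).1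
      have hτs : τ' * τ' = 1 := prod_sq e (j :: l) fun q hq => (hv' q hq).2.2
      have hτn : τ' ≠ 1 := prod_ne K e j l hI2 hv'
      have hτK : τ' ∉ K i := fun h => hτn (Subgroup.disjoint_def.1 hI1 h hτm)
      have htM : e i * τ' ∉ KS K (j :: l) := by
        intro h
        have h1 : e i ∈ KS K (j :: l) := by
          have h2 := mul_mem h (inv_mem hτm)
          rwa [mul_inv_cancel_right] at h2
        exact hei1 (Subgroup.disjoint_def.1 hI1 hei h1)
      have hts : (e i * τ') * (e i * τ') = 1 := by
        rw [mul_mul_mul_comm, hei2, hτs, one_mul]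
      rw [hτ] at hzt ⊢
      obtain ⟨β, hβ1, hβ2, hβ3⟩ := hBsS G (K i) (KS K (j :: l)) hI1
      obtain ⟨r1, r2, r3, r4, r5, r6⟩ := hRelB G K i (j :: l) z
      obtain ⟨a1, a2, a3, a4, a5, a6⟩ := gTlBas G K (j :: l) (K i) z z
      -- the function z1
      have hz1i : ∀ F : G → ℤ, ∀ k ∈ K i, ∀ a, F (β (k * a) * (k * a)) = F (β a * a) := by
        intro F k hk a
        rw [← mul_assoc, hβ2 k hk a]
      have hz1t : ∀ F : G → ℤ, ∀ a, F (β (τ' * a) * (τ' * a)) = F (τ' * (β a * a)) := by
        intro F a
        rw [hβ3 τ' hτm a, mul_left_comm]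
      have hz1s : ∀ a, z (β (τ' * a) * (τ' * a)) = s * z (e i * (β a * a)) := by
        intro a
        rw [hz1t z a, ← hzt]
        congr 1
        rw [mul_mul_mul_comm (e i) τ' (e i), hei2, one_mul]
      -- the function D
      set D : G → ℤ := fun a => s * (z (e i * β a * a) - z (β a * a)) with hD
      have hDz : ∀ a, D a = z (β (τ' * a) * (τ' * a)) - s * z (β a * a) := by
        intro a
        rw [hz1s a]
        change s * (z (e i * β a * a) - z (β a * a)) = _
        rw [mul_assoc (e i)]
        ring
      have hDi : ∀ k ∈ K i, ∀ a, D (k * a) = D a := by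
        intro k hk a
        rw [hDz, hDz, hz1i z k hk a, mul_left_comm τ' k a, hz1i z k hk]
      have hDT : Tl K (j :: l) D = 0 := by
        have h1 := r6 (fun a => e i * β a) β (fun a => mul_mem hei (hβ1 a)) hβ1
          (fun y hy a => by
            rw [hβ3 y hy a]) hβ3 hz
        have h2 := (gTlBas G K (j :: l) (K i) (fun a => z (e i * β a * a) - z (β a * a)) z).2.2.2.2.1 s
        rw [h1] at h2
        rw [hD, h2]
        funext a
        exact mul_zero s
      have hDt : ∀ a, D (τ' * a) = -s * D a := by
        intro a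
        rw [hDz, hDz, ← mul_assoc τ' τ' a, hτs, one_mul]
        linear_combination (-(z (β a * a))) * hss
      have hDp : -s = (-1) ^ ((j :: l).length + 1) → ∀ a, (2 : ℤ) ∣ Cb e (j :: l).tail D a := by
        intro hsp a
        have hsp' : s = (-1) ^ ((i :: j :: l).length + 1) := by
          have h1 : (i :: j :: l).length = (j :: l).length + 1 := rfl
          rw [h1, pow_succ, ← hsp]
          ring
        have h1 : (2 : ℤ) ∣ Cb e (j :: l) z (β a * a) := hpar hsp' (β a * a)
        have h2 := par hCbB e i j l (fun q hq => (hv q hq).2.2) s hs z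
          (fun a => by rw [hτ]; exact hzt a) (β a * a)
        change (2 : ℤ) ∣ Cb e l D a
        have h3 : Cb e l D a = Cb e l (fun x => s * (z (e i * β a * x) - z (β a * x))) a := by
          refine Cb_loc K e D _ l (fun q hq => (hv' q (List.mem_cons_of_mem _ hq)).1) a ?_
          intro y hy
          change s * (z (e i * β (y * a) * (y * a)) - z (β (y * a) * (y * a))) =
            s * (z (e i * β a * (y * a)) - z (β a * (y * a)))
          rw [hβ3 y (right_le K j l hy) a]
        have h4 := (hCbB G e l (fun x => s * (z (e i * β a * x) - z (β a * x)))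
          (fun x => z (e i * β a * x) + z (β a * x))).2.2.2.2.2.2.2.2.1 (fun x => by
            rcases hs with h | h
            · rw [h]
              exact ⟨-z (β a * x), by ring⟩
            · rw [h]
              exact ⟨-z (e i * β a * x), by ring⟩) a
        have h5 := (hCbB G e l (fun x => z (e i * β a * x)) (fun x => z (β a * x))).1 a
        have h6 := ((hCbB G e l z z).2.2.1 (e i * β a) a).1
        have h7 := ((hCbB G e l z z).2.2.1 (β a) a).1
        rw [h5, h6, h7, mul_assoc (e i)] at h4
        rw [h3]
        have h8 := dvd_add h4 (dvd_add h2 h1)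
        refine (dvd_iff_dvd_of_dvd_sub (a := (2 : ℤ)) ?_).1 h8
        exact ⟨0, by ring⟩
      obtain ⟨ρ, hρ1, hρ2⟩ := ih hI2 hv' (-s) (by rcases hs with h | h <;> rw [h] <;> norm_num) D
        hDT hDt hDp
      have hρ3 : Tl K (j :: l) (fun a => ρ (β a * a)) = 0 :=
        (hRelB G K i (j :: l) ρ).1 β hβ3 hρ1
      have hρ4 : ∀ a, D a = ρ (β a * a) - s * ρ (β (τ' * a) * (τ' * a)) := by
        intro a
        rw [← hDi (β a) (hβ1 a) a, hρ2, hz1t ρ a]
        ring
      -- the function v
      set v : G → ℤ := fun a => z (β a * a) + s * ρ (β a * a) with hvd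
      have hvi : ∀ k ∈ K i, ∀ a, v (k * a) = v a := by
        intro k hk a
        change z (β (k * a) * (k * a)) + s * ρ (β (k * a) * (k * a)) = z (β a * a) + s * ρ (β a * a)
        rw [hz1i z k hk a, hz1i ρ k hk a]
      have hvt : ∀ a, v (τ' * a) = s * v a := by
        intro a
        have h1 := hDz a
        rw [hρ4 a] at h1
        change z (β (τ' * a) * (τ' * a)) + s * ρ (β (τ' * a) * (τ' * a)) =
          s * (z (β a * a) + s * ρ (β a * a))
        linear_combination -h1 - ρ (β a * a) * hss
      have hvT : Tl K (j :: l) (fun a => z a - v a) = 0 := by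
        have h1 := r2 β hβ1 hβ3 hz
        have h2 := (gTlBas G K (j :: l) (K i) (fun a => z (β a * a) - z a) z).2.2.2.2.1 (-1)
        have h3 := (gTlBas G K (j :: l) (K i) (fun a => ρ (β a * a)) z).2.2.2.2.1 (-s)
        have h4 := (gTlBas G K (j :: l) (K i) (fun a => -1 * (z (β a * a) - z a))
          (fun a => -s * ρ (β a * a))).1
        have h5 : (fun a => z a - v a) = fun a => -1 * (z (β a * a) - z a) + -s * ρ (β a * a) := by
          funext a
          change z a - (z (β a * a) + s * ρ (β a * a)) = _
          ring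
        rw [h5, h4, h2, h3, h1, hρ3]
        funext a
        change -1 * (0 : ℤ) + -s * 0 = 0
        ring
      -- half-systems
      obtain ⟨h', hh1, hh2⟩ := hHfS G (K i) τ' hτs hτK
      obtain ⟨h, hg1, hg2⟩ := hHfS G (KS K (j :: l)) (e i * τ') hts htM
      set w : G → ℤ := fun a => if h' a = true then v a else 0 with hw
      have hwi : ∀ k ∈ K i, ∀ a, w (k * a) = w a := by
        intro k hk a
        change (if h' (k * a) = true then v (k * a) else 0) = if h' a = true then v a else 0
        rw [hh1 k hk a, hvi k hk a]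
      have hwt : ∀ a, w a + s * w (τ' * a) = v a := by
        intro a
        change (if h' a = true then v a else 0) +
          s * (if h' (τ' * a) = true then v (τ' * a) else 0) = v a
        rw [hh2 a]
        cases h' a with
        | true =>
          rw [if_pos rfl, if_neg (by decide)]
          ring
        | false =>
          rw [if_neg (by decide), if_pos (by decide), hvt a]
          linear_combination (v a) * hss
      have hw1 : Tl K (i :: j :: l) w = 0 := (hRelB G K i (j :: l) w).2.2.1 hwi
      set u : G → ℤ := fun a => if (!h a) = true then z a - v a else 0 with hu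
      have hu1 : Tl K (j :: l) u = 0 :=
        (hRelB G K i (j :: l) (fun a => z a - v a)).2.2.2.2.1 (fun a => !h a)
          (fun y hy a => by
            rw [hg1 y hy a]) hvT
      have hu2 : Tl K (i :: j :: l) u = 0 := (hRelB G K i (j :: l) u).2.2.2.1 hu1
      refine ⟨fun a => w a + u a, ?_, ?_⟩
      · rw [(gTlBas G K (i :: j :: l) (K i) w u).1, hw1, hu2]
        funext a
        change (0 : ℤ) + 0 = 0
        ring
      · intro a
        have e1 : w (e i * τ' * a) = w (τ' * a) := by
          rw [mul_assoc]
          exact hwi (e i) hei _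
        have e2 : v (e i * τ' * a) = s * v a := by
          rw [mul_assoc, hvi (e i) hei, hvt]
        have e3 := hwt a
        have e4 : u (e i * τ' * a) = if h a = true then s * z a - s * v a else 0 := by
          change (if (!h (e i * τ' * a)) = true then z (e i * τ' * a) - v (e i * τ' * a) else 0) = _
          rw [hg2 a, Bool.not_not, hzt a, e2]
        have e5 : u a = if (!h a) = true then z a - v a else 0 := rfl
        change z a = w a + u a + s * (w (e i * τ' * a) + u (e i * τ' * a))
        rw [e1, e4, e5]
        cases h a with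
        | true =>
          rw [if_neg (by decide), if_pos rfl]
          linear_combination -e3 - (z a - v a) * hss
        | false =>
          rw [if_pos (by decide), if_neg (by decide)]
          linear_combination -e3

end Pool.Agent.FO
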