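import Pool.Agent.Lib.MP_640417_ag.GT.SpecI

/-!
# Theorem GT, module ParC: the parity class of a relation
-/

set_option autoImplicit false

noncomputable section

namespace Pool.Agent.FO

open Finset Pool.Agent.FC

namespace GParCAux

variable {G : Type} [CommGroup G]

theorem Cs_zero (e : ℕ → G) (l : List ℕ) : ∀ a, Cs e l (fun _ => 0) a = 0 := by
  induction l with
  | nil => exact fun _ => rfl
  | cons i l ih =>
    intro a
    change Cs e l (fun _ => 0) a - Cs e l (fun _ => 0) (e i * a) = 0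
    rw [ih, ih, sub_zero]

theorem Cs_sum (hCbB : S_CbB) (e : ℕ → G) (l : List ℕ) (E : ℕ → G → ℤ) (s : Finset ℕ) (a : G) :
    Cs e l (fun x => ∑ i ∈ s, E i x) a = ∑ i ∈ s, Cs e l (E i) a := by
  induction s using Finset.induction_on with
  | empty =>
    simp only [Finset.sum_empty]
    exact Cs_zero e l a
  | insert i s hi ih =>
    simp only [Finset.sum_insert hi]
    rw [(hCbB G e l (E i) (fun x => ∑ i ∈ s, E i x)).2.1 a, ih]

/-- Parity is invariant under the product of the subgroups. -/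
theorem par_KS (K : ℕ → Subgroup G) (l : List ℕ) (D : G → ℤ)
    (h : ∀ i ∈ l, ∀ k ∈ K i, ∀ a, (2 : ℤ) ∣ D (k * a) - D a) :
    ∀ k ∈ KS K l, ∀ a, (2 : ℤ) ∣ D (k * a) - D a := by
  induction l with
  | nil =>
    intro k hk a
    have hk' : k = 1 := Subgroup.mem_bot.1 hk
    rw [hk', one_mul, sub_self]
    exact dvd_zero 2
  | cons i l ih =>
    intro k hk a
    obtain ⟨x, hx, y, hy, rfl⟩ := Subgroup.mem_sup.1 hk
    have h1 := h i List.mem_cons_self x hx (y * a)
    have h2 := ih (fun j hj => h j (List.mem_cons_of_mem _ hj)) y hy a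
    rw [mul_assoc]
    have h3 := dvd_add h1 h2
    rwa [sub_add_sub_cancel] at h3

/-- Invariance of the symmetric sum under products of the `e j`. -/
theorem Cb_prod (hCbB : S_CbB) (e : ℕ → G) (L : List ℕ) (F : G → ℤ)
    (he : ∀ j ∈ L, e j * e j = 1) (M : List ℕ) (hM : ∀ j ∈ M, j ∈ L) :
    ∀ a, Cb e L F ((M.map e).prod * a) = Cb e L F a := by
  induction M with
  | nil =>
    intro a
    rw [List.map_nil, List.prod_nil, one_mul]
  | cons j M ih =>
    intro a
    have hj := hM j List.mem_cons_self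
    rw [List.map_cons, List.prod_cons, mul_assoc, (hCbB G e L F F).2.2.2.2.1 j hj (he j hj),
      ih fun i hi => hM i (List.mem_cons_of_mem _ hi)]

/-- The parities agree. -/
theorem par_qq (hCbB : S_CbB) (e : ℕ → G) (l : List ℕ) (F : G → ℤ)
    (he : ∀ j ∈ l, e j * e j = 1) (hF : ∀ a, F ((l.map e).prod * a) = -F a) (q q' : ℕ)
    (hq : q ∈ l) (hq' : q' ∈ l) (hne : q ≠ q') (a : G) :
    (2 : ℤ) ∣ Cb e (l.erase q) F a - Cb e (l.erase q') F a := by
  have hq1 : q' ∈ l.erase q := (List.mem_erase_of_ne hne.symm).2 hq'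
  have hq2 : q ∈ l.erase q' := (List.mem_erase_of_ne hne).2 hq
  set L := (l.erase q).erase q' with hL
  have p1 : (l.erase q).Perm (q' :: L) := List.perm_cons_erase hq1
  have p2 : (l.erase q').Perm (q :: L) := by
    rw [hL, List.erase_comm]
    exact List.perm_cons_erase hq2
  have p3 : l.Perm (q :: q' :: L) := (List.perm_cons_erase hq).trans (p1.cons q)
  have e1 : Cb e (l.erase q) F a = Cb e L F a + Cb e L F (e q' * a) :=
    ((hCbB G e (l.erase q) F F).2.2.2.2.2.2.2.2.2.2 _ p1 a).1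
  have e2 : Cb e (l.erase q') F a = Cb e L F a + Cb e L F (e q * a) :=
    ((hCbB G e (l.erase q') F F).2.2.2.2.2.2.2.2.2.2 _ p2 a).1
  have hLl : ∀ j ∈ L, j ∈ l := fun j hj => List.mem_of_mem_erase (List.mem_of_mem_erase hj)
  have hτ : (l.map e).prod = (L.map e).prod * (e q * e q') := by
    rw [(p3.map e).prod_eq, List.map_cons, List.map_cons, List.prod_cons, List.prod_cons,
      ← mul_assoc, mul_comm]
  have hneg : ∀ x, Cb e L F ((l.map e).prod * x) = -Cb e L F x := by
    intro x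
    rw [← ((hCbB G e L F F).2.2.1 (l.map e).prod x).1]
    have h1 : (fun x => F ((l.map e).prod * x)) = fun x => (-1) * F x := by
      funext y
      rw [hF, neg_one_mul]
    rw [h1, ((hCbB G e L F F).2.2.2.1 (-1) x).1, neg_one_mul]
  have h3 : Cb e L F (e q' * a) = -Cb e L F (e q * a) := by
    rw [← hneg, hτ, mul_assoc, Cb_prod hCbB e L F (fun j hj => he j (hLl j hj)) L fun _ h => h]
    congr 1
    have h4 := he q hq
    calc e q' * a = (e q * e q) * (e q' * a) := by rw [h4, one_mul]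
      _ = e q * e q' * (e q * a) := by
        rw [mul_mul_mul_comm, mul_assoc]
  rw [e1, e2, h3]
  exact ⟨-Cb e L F (e q * a), by ring⟩

end GParCAux

open GParCAux in
theorem pParC (hDecN : S_DecN) (hCbB : S_CbB) : S_ParC := by
  intro G _ _ K e l hl hI hv hK F hF hT
  obtain ⟨E, hE, hs⟩ := hDecN G K l hl hI F hT
  have hFE : F = fun x => ∑ i ∈ l.toFinset, E i x := funext hs
  have he : ∀ j ∈ l, e j * e j = 1 := fun j hj => (hv j hj).2.2
  -- the alternating sums
  have hCs : ∀ q ∈ l, ∀ a, Cs e (l.erase q) F a = Cs e (l.erase q) (E q) a := by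
    intro q hq a
    rw [hFE, Cs_sum hCbB]
    refine Finset.sum_eq_single q (fun i hi hiq => ?_) (fun h => absurd (List.mem_toFinset.2 hq) h)
    have hi' : i ∈ l := List.mem_toFinset.1 hi
    exact (hCbB G e (l.erase q) (E i) F).2.2.2.2.2.2.1 i ((List.mem_erase_of_ne hiq).2 hi')
      (fun b => hE i hi' (e i) (hv i hi').1 b) a
  have h1 : ∀ q ∈ l, ∀ k ∈ K q, ∀ a, Cs e (l.erase q) F (k * a) = Cs e (l.erase q) F a := by
    intro q hq k hk a
    rw [hCs q hq, hCs q hq]
    exact ((hCbB G e (l.erase q) (E q) F).2.2.2.2.2.2.2.2.2.1 k (fun b => hE q hq k hk b) a).2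
  refine ⟨h1, ?_⟩
  have h8 : ∀ q a, (2 : ℤ) ∣ Cb e (l.erase q) F a - Cs e (l.erase q) F a := fun q a =>
    (hCbB G e (l.erase q) F F).2.2.2.2.2.2.2.1 a
  have hqq : ∀ q ∈ l, ∀ q' ∈ l, ∀ a, (2 : ℤ) ∣ Cb e (l.erase q) F a - Cb e (l.erase q') F a := by
    intro q hq q' hq' a
    rcases eq_or_ne q q' with rfl | hne
    · rw [sub_self]
      exact dvd_zero 2
    · exact par_qq hCbB e l F he hF q q' hq hq' hne a
  have hall : ∀ q ∈ l, ∀ k a, (2 : ℤ) ∣ Cb e (l.erase q) F (k * a) - Cb e (l.erase q) F a := by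
    intro q hq k a
    refine par_KS K l (Cb e (l.erase q) F) (fun i hi k hk b => ?_) k
      (by rw [hK]; exact Subgroup.mem_top k) a
    have a1 := hqq q hq i hi (k * b)
    have a2 := hqq q hq i hi b
    have a3 := h8 i (k * b)
    have a4 := h8 i b
    rw [h1 i hi k hk b] at a3
    omega
  by_cases hp : ∀ q ∈ l, ∀ a, (2 : ℤ) ∣ Cb e (l.erase q) F a
  · exact Or.inl hp
  · right
    push Not at hp
    obtain ⟨q0, hq0, a0, hn⟩ := hp
    intro q hq a h
    apply hn
    have a1 := h8 q a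
    have a2 := hqq q hq q0 hq0 a
    have a3 := hall q0 hq0 (a0 * a⁻¹) a
    rw [inv_mul_cancel_right] at a3
    omega

end Pool.Agent.FO
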