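import Pool.Agent.Lib.MP_640417_ag.GT.SpecI

/-!
# Theorem GT, part I, module RelB: relations, basic facts
-/

set_option autoImplicit false

noncomputable section

namespace Pool.Agent.FO

open Finset Pool.Agent.FC

namespace GRelBAux

variable {G : Type} [CommGroup G] [Fintype G]

/-- Local replacement of the argument. -/
theorem tloc (K : ℕ → Subgroup G) (l : List ℕ) (F : G → ℤ) (β : G → G)
    (hβ : ∀ y ∈ KS K l, ∀ a, β (y * a) = β a) (a : G) :
    Tl K l (fun x => F (β x * x)) a = Tl K l F (β a * a) := by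
  have h1 := gTlLoc G K l (fun x => F (β x * x)) (fun x => F (β a * x)) a (by
    intro b hb
    rw [hβ b hb])
  rw [h1]
  exact congrFun ((gTlBas G K l ⊥ F F).2.2.1 (β a)) a

theorem tlc (K : ℕ → Subgroup G) (i : ℕ) (l : List ℕ) (F : G → ℤ) :
    Tl K (i :: l) F = T (K i) (Tl K l F) :=
  (gTlBas G K l (K i) F F).2.2.2.1

theorem tinv (K : ℕ → Subgroup G) (i : ℕ) (l : List ℕ) (F : G → ℤ) (h : Tl K (i :: l) F = 0) :
    ∀ k ∈ K i, ∀ a, Tl K l F (k * a) = Tl K l F a := by
  rw [tlc] at h
  exact (gTBas G (K i) ⊥ (Tl K l F) F).2.2.2.2.2.2.2.1.1 h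

end GRelBAux

open GRelBAux in
theorem pRelB : S_RelB := by
  intro G _ _ K i l F
  have hsub : ∀ A B : G → ℤ, Tl K l (fun a => A a - B a) = fun a => Tl K l A a - Tl K l B a :=
    fun A B => (gTlBas G K l ⊥ A B).2.1
  have hz : Tl K l (fun _ => 0) = fun _ => 0 := (gTlBas G K l ⊥ F F).2.2.2.2.2
  refine ⟨?_, ?_, ?_, ?_, ?_, ?_⟩
  · intro β hβ h
    funext a
    rw [tloc K l F β hβ a, h]
    rfl
  · intro β hβi hβ h
    funext a
    rw [hsub (fun a => F (β a * a)) F]
    change Tl K l (fun a => F (β a * a)) a - Tl K l F a = 0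
    rw [tloc K l F β hβ a, tinv K i l F h _ (hβi a), sub_self]
  · intro h
    have h1 : T (K i) F = 0 := (gTBas G (K i) ⊥ F F).2.2.2.2.2.2.2.1.2 h
    change Tl K l (T (K i) F) = 0
    rw [h1]
    exact hz
  · intro h
    rw [tlc, h]
    exact (gTBas G (K i) ⊥ F F).2.2.2.2.2.2.2.2.2
  · intro h hh hF
    funext a
    cases ha : h a with
    | true =>
      have h1 := gTlLoc G K l (fun a => if h a = true then F a else 0) F a (by
        intro b hb
        rw [hh b hb, if_pos ha])
      rw [h1, hF]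
    | false =>
      have h1 := gTlLoc G K l (fun a => if h a = true then F a else 0) (fun _ => 0) a (by
        intro b hb
        rw [hh b hb, ha]
        rfl)
      rw [h1, hz]
      rfl
  · intro β γ hβi hγi hβ hγ h
    funext a
    rw [hsub (fun a => F (β a * a)) (fun a => F (γ a * a))]
    change Tl K l (fun a => F (β a * a)) a - Tl K l (fun a => F (γ a * a)) a = 0
    rw [tloc K l F β hβ a, tloc K l F γ hγ a, tinv K i l F h _ (hβi a), tinv K i l F h _ (hγi a),
      sub_self]

end Pool.Agent.FO
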