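import Pool.Agent.Lib.MP_640417_ag.GT.HfS
import Pool.Agent.Lib.MP_640417_ag.GT.BsS
import Pool.Agent.Lib.MP_640417_ag.GT.RelB
import Pool.Agent.Lib.MP_640417_ag.GT.DecN
import Pool.Agent.Lib.MP_640417_ag.GT.DecO
import Pool.Agent.Lib.MP_640417_ag.GT.CbB
import Pool.Agent.Lib.MP_640417_ag.GT.Ob
import Pool.Agent.Lib.MP_640417_ag.GT.DecP
import Pool.Agent.Lib.MP_640417_ag.GT.ParC

/-! # Theorem GT, part I: assembly -/

set_option autoImplicit false

namespace Pool.Agent.FO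

theorem gHfS : S_HfS := pHfS
theorem gBsS : S_BsS := pBsS
theorem gRelB : S_RelB := pRelB
theorem gCbB : S_CbB := pCbB
theorem gDecN : S_DecN := pDecN gBsS gRelB
theorem gDecO : S_DecO := pDecO gHfS gDecN
theorem gOb : S_Ob := pOb gHfS gBsS gRelB gCbB
theorem gDecP : S_DecP := pDecP gBsS gRelB gCbB gDecO gOb
theorem gParC : S_ParC := pParC gDecN gCbB

end Pool.Agent.FO
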