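import Pool.Agent.Lib.MP_640417_ag.GT.SpecJ

/-!
# Theorem GT, part J, module Mean: mean value of the functional at one level
-/

set_option autoImplicit false

noncomputable section

namespace Pool.Agent.FO

open Finset Pool.Agent.FC

namespace GMeanAux

/-- The value of a unit is prime to the modulus. -/
private theorem gcop (n : ℕ) [NeZero n] (v : (ZMod n)ˣ) :
    IsCoprime (((v : ZMod n).val : ℕ) : ℤ) (n : ℤ) :=
  Nat.isCoprime_iff_coprime.2 (ZMod.val_coe_unit_coprime v)

/-- The indicator at `2` if `2` exactly divides the level. -/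
private theorem ik2 (n : ℕ) (h : n.factorization 2 = 1) (y b : ℤ) (hy : ¬ (2 : ℤ) ∣ y)
    (hb : ¬ (2 : ℤ) ∣ b) : ik n y 2 b = 1 := by
  unfold ik
  rw [if_pos]
  rw [h, pow_one]
  have : (2 : ℤ) ∣ y - b := by omega
  exact_mod_cast this

/-- The value of a unit is odd for even moduli. -/
private theorem godd (n : ℕ) [NeZero n] (h2 : 2 ∣ n) (v : (ZMod n)ˣ) :
    ¬ (2 : ℤ) ∣ (((v : ZMod n).val : ℕ) : ℤ) := by
  intro h
  have h1 : (2 : ℤ) ∣ (n : ℤ) := by exact_mod_cast h2
  have h3 := (gcop n v).isUnit_of_dvd' h h1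
  rw [Int.isUnit_iff] at h3
  omega

end GMeanAux

open GMeanAux in
theorem pMean (hPhBas : S_PhBas) (hUpsL : S_UpsL) (hTmUps : S_TmUps) (hTmUse : S_TmUse)
    (hCnt : S_Cnt) : S_Mean := by
  classical
  intro T q n _ hT
  have hn0 : 0 < n := Nat.pos_of_ne_zero (NeZero.ne n)
  obtain ⟨hnd, hpr, hq2, hodd⟩ := id hT
  have hqT : q ∉ T := (List.nodup_cons.1 hnd).1
  have hTn : T.Nodup := (List.nodup_cons.1 hnd).2
  have hqp : q.Prime := hpr q List.mem_cons_self
  have hTp : ∀ s ∈ T, s.Prime := fun s hs => hpr s (List.mem_cons_of_mem _ hs)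
  have hnn : (0 : ℤ) ≤ cs T q n := Int.natCast_nonneg _
  by_cases hP : q ∣ n ∧ ∀ s ∈ T, s ∣ n
  swap
  · rw [Finset.sum_eq_zero]
    · exact hnn
    · intro v _
      unfold Ph
      rw [if_neg hP, abs_zero]
  obtain ⟨hqn, hTd⟩ := hP
  have hPh : ∀ y : ℤ, Ph T q n 1 y = ups (ik n y) T 1 ((n.primeFactors \ T.toFinset).erase q) := by
    intro y
    unfold Ph
    rw [if_pos ⟨hqn, hTd⟩]
  obtain ⟨L, hL⟩ : ∃ L, L = (n.primeFactors \ T.toFinset).erase q := ⟨_, rfl⟩
  rw [← hL] at hPh
  have hLmem : ∀ s, s ∈ L ↔ s ≠ q ∧ s ∈ n.primeFactors ∧ s ∉ T := by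
    intro s
    rw [hL, Finset.mem_erase, Finset.mem_sdiff, List.mem_toFinset]
  have hLp : ∀ s ∈ L, s.Prime := fun s hs => Nat.prime_of_mem_primeFactors ((hLmem s).1 hs).2.1
  have hTL : ∀ s ∈ T, s ∉ L := fun s hs h => ((hLmem s).1 h).2.2 hs
  have hSL : T.toFinset ∪ L = n.primeFactors.erase q := by
    ext s
    rw [Finset.mem_union, List.mem_toFinset, hLmem, Finset.mem_erase]
    constructor
    · rintro (h | ⟨h1, h2, -⟩)
      · exact ⟨fun h1 => hqT (h1 ▸ h), Nat.mem_primeFactors.2 ⟨hTp s h, hTd s h, hn0.ne'⟩⟩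
      · exact ⟨h1, h2⟩
    · rintro ⟨h1, h2⟩
      by_cases h3 : s ∈ T
      · exact Or.inl h3
      · exact Or.inr ⟨h1, h2, h3⟩
  by_cases h2 : n.factorization 2 = 1
  · have h2n : 2 ∣ n := by
      by_contra h
      rw [Nat.factorization_eq_zero_of_not_dvd h] at h2
      exact absurd h2 (by norm_num)
    by_cases h2T : 2 ∈ T
    · -- everything vanishes
      rw [Finset.sum_eq_zero]
      · exact hnn
      · intro v _
        rw [abs_eq_zero]
        by_contra h
        have h3 := (hPhBas T q n 1 _ hT hn0).2.2.2 isCoprime_one_left (gcop n v) h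
        have h4 : 4 ∣ n := by
          refine (Dvd.dvd.mul_left ?_ q).trans h3
          refine List.dvd_prod (List.mem_map.2 ⟨2, h2T, if_pos rfl⟩)
        have h5 : 2 ^ 2 ∣ n := h4
        rw [Nat.prime_two.pow_dvd_iff_le_factorization hn0.ne', h2] at h5
        omega
    · have h2L : 2 ∈ L := (hLmem 2).2 ⟨fun h => hq2 h.symm,
        Nat.mem_primeFactors.2 ⟨Nat.prime_two, h2n, hn0.ne'⟩, h2T⟩
      have hfil : L.filter (fun s => s ≠ 2 ∨ n.factorization 2 ≠ 1) = L.erase 2 := by
        ext s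
        rw [Finset.mem_filter, Finset.mem_erase]
        constructor
        · rintro ⟨h3, h4 | h4⟩
          · exact ⟨h4, h3⟩
          · exact absurd h2 h4
        · rintro ⟨h3, h4⟩
          exact ⟨h4, Or.inl h3⟩
      have hcs : (cs T q n : ℤ) = 2 * (nc T.length (L.erase 2).card *
          ((q ^ n.factorization q).totient : ℤ)) := by
        unfold cs
        rw [← hL, hfil, if_pos h2]
        push_cast
        ring
      have hL'p : ∀ s ∈ L.erase 2, s.Prime := fun s hs => hLp s (Finset.mem_of_mem_erase hs)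
      have hTL' : ∀ s ∈ T, s ∉ L.erase 2 := fun s hs h => hTL s hs (Finset.mem_of_mem_erase h)
      have hS' : T.toFinset ∪ L = insert 2 (T.toFinset ∪ L.erase 2) := by
        ext s
        simp only [Finset.mem_union, Finset.mem_insert, Finset.mem_erase, List.mem_toFinset]
        constructor
        · rintro (h | h)
          · exact Or.inr (Or.inl h)
          · by_cases h3 : s = 2
            · exact Or.inl h3
            · exact Or.inr (Or.inr ⟨h3, h⟩)
        · rintro (h | h | ⟨-, h⟩)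
          · exact Or.inr (h ▸ h2L)
          · exact Or.inl h
          · exact Or.inr h
      have h2S' : 2 ∉ T.toFinset ∪ L.erase 2 := by
        rw [Finset.mem_union, List.mem_toFinset]
        rintro (h | h)
        · exact h2T h
        · exact Finset.notMem_erase 2 L h
      have hB : ∀ b : ℕ → ℤ, ∑ v : (ZMod n)ˣ, |∏ s ∈ T.toFinset ∪ L.erase 2,
          ik n (((v : ZMod n).val : ℕ) : ℤ) s (b s)| ≤ ((q ^ n.factorization q).totient : ℤ) := by
        intro b
        have h3 := hCnt q n hqp hqn (Function.update b 2 1)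
        rw [← hSL, hS'] at h3
        refine le_trans (le_of_eq ?_) h3
        refine Finset.sum_congr rfl fun v _ => ?_
        rw [Finset.prod_insert h2S', Function.update_self,
          ik2 n h2 _ _ (godd n h2n v) (by norm_num), one_mul]
        congr 1
        refine Finset.prod_congr rfl fun s hs => ?_
        have hs2 : s ≠ 2 := by
          rintro rfl
          exact h2S' hs
        rw [Function.update_of_ne hs2]
      have h1c : ∀ s ∈ T.toFinset ∪ L.erase 2, IsCoprime (1 : ℤ) (s : ℤ) := fun s _ =>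
        isCoprime_one_left
      have h2c : ∀ s ∈ T.toFinset ∪ L.erase 2, IsCoprime (((2 : ℕ) : ℤ) * 1) (s : ℤ) := by
        intro s hs
        have hs2 : s ≠ 2 := by
          rintro rfl
          exact h2S' hs
        have hsp : s.Prime := by
          rcases Finset.mem_union.1 hs with h | h
          · exact hTp s (List.mem_toFinset.1 h)
          · exact hL'p s h
        rw [mul_one, Nat.isCoprime_iff_coprime]
        exact (Nat.coprime_primes Nat.prime_two hsp).2 (fun h => hs2 h.symm)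
      have t1 := (hTmUse _ _ _ (hTmUps T 1 (L.erase 2) hTn hTp hL'p hTL' h1c)).2.2
        (ZMod n)ˣ (fun v => ik n (((v : ZMod n).val : ℕ) : ℤ)) _ hB
      have t2 := (hTmUse _ _ _ (hTmUps T (((2 : ℕ) : ℤ) * 1) (L.erase 2) hTn hTp hL'p hTL' h2c)).2.2
        (ZMod n)ˣ (fun v => ik n (((v : ZMod n).val : ℕ) : ℤ)) _ hB
      have hstep : ∀ v : (ZMod n)ˣ, |Ph T q n 1 (((v : ZMod n).val : ℕ) : ℤ)| ≤
          |ups (ik n (((v : ZMod n).val : ℕ) : ℤ)) T 1 (L.erase 2)| +
          |ups (ik n (((v : ZMod n).val : ℕ) : ℤ)) T (((2 : ℕ) : ℤ) * 1) (L.erase 2)| := by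
        intro v
        rw [hPh, hUpsL _ T 1 L 2 hLp h2L h2T (fun b hb => ik2 n h2 _ _ (godd n h2n v) ?_)
          isCoprime_one_left]
        · exact abs_sub _ _
        · intro h
          have h3 := hb.isUnit_of_dvd' h (by norm_num : (2 : ℤ) ∣ ((2 : ℕ) : ℤ))
          rw [Int.isUnit_iff] at h3
          omega
      refine (Finset.sum_le_sum fun v _ => hstep v).trans ?_
      rw [Finset.sum_add_distrib, hcs]
      linarith
  · have hfil : L.filter (fun s => s ≠ 2 ∨ n.factorization 2 ≠ 1) = L :=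
      Finset.filter_true_of_mem fun s _ => Or.inr h2
    have hcs : (cs T q n : ℤ) = nc T.length L.card * ((q ^ n.factorization q).totient : ℤ) := by
      unfold cs
      rw [← hL, hfil, if_neg h2]
      push_cast
      ring
    have hB : ∀ b : ℕ → ℤ, ∑ v : (ZMod n)ˣ, |∏ s ∈ T.toFinset ∪ L,
        ik n (((v : ZMod n).val : ℕ) : ℤ) s (b s)| ≤ ((q ^ n.factorization q).totient : ℤ) := by
      intro b
      rw [hSL]
      exact hCnt q n hqp hqn b
    have t1 := (hTmUse _ _ _ (hTmUps T 1 L hTn hTp hLp hTL (fun s _ => isCoprime_one_left))).2.2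
      (ZMod n)ˣ (fun v => ik n (((v : ZMod n).val : ℕ) : ℤ)) _ hB
    rw [hcs]
    refine le_trans (le_of_eq ?_) t1
    exact Finset.sum_congr rfl fun v _ => by rw [hPh]

end Pool.Agent.FO
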