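import Pool.Agent.Lib.MP_640417_ag.GT.SpecK

/-! Theorem GT, part K, module Mx: largest element of a set of primes (helper47). -/

set_option autoImplicit false

open Finset Pool.Agent.FC

namespace Pool.Agent.FO

private theorem GMx_card {S : Finset ℕ} (hS : ∀ s ∈ S, s.Prime) {n : ℕ} (h : ∀ s ∈ S, s < n) :
    S.card ≤ ((range n).filter Nat.Prime).card := by
  refine Finset.card_le_card fun s hs => ?_
  rw [Finset.mem_filter, Finset.mem_range]
  exact ⟨h s hs, hS s hs⟩

private theorem GMx_card2 {S : Finset ℕ} (hS : ∀ s ∈ S, s.Prime) (h2 : 2 ∉ S) {n : ℕ}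
    (h : ∀ s ∈ S, s < n) : S.card ≤ (((range n).filter Nat.Prime).erase 2).card := by
  refine Finset.card_le_card fun s hs => ?_
  rw [Finset.mem_erase, Finset.mem_filter, Finset.mem_range]
  exact ⟨fun h => h2 (h ▸ hs), h s hs, hS s hs⟩

private theorem GMx_kap {p : ℕ} {n : ℕ} (hn : 3 ≤ n) (h : kap p < n - 1) : p < n := by
  unfold kap at h
  split_ifs at h with h2 <;> omega

theorem pMx : S_Mx := by
  intro S p hS hp hmax
  have hpp : p.Prime := hS p hp
  have hlt : ∀ n, 3 ≤ n → kap p < n - 1 → ∀ s ∈ S, s < n := fun n hn h s hs =>
    lt_of_le_of_lt (hmax s hs) (GMx_kap hn h)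
  have c5 : ((range 5).filter Nat.Prime).card = 2 := by decide
  have c7 : ((range 7).filter Nat.Prime).card = 3 := by decide
  have c11 : ((range 11).filter Nat.Prime).card = 4 := by decide
  have c13 : ((range 13).filter Nat.Prime).card = 5 := by decide
  have d5 : (((range 5).filter Nat.Prime).erase 2).card = 1 := by decide
  have d7 : (((range 7).filter Nat.Prime).erase 2).card = 2 := by decide
  have d11 : (((range 11).filter Nat.Prime).erase 2).card = 3 := by decide
  have d13 : (((range 13).filter Nat.Prime).erase 2).card = 4 := by decide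
  refine ⟨?_, ?_, ?_, ?_, ?_, fun h2 => ⟨?_, ?_, ?_, ?_⟩⟩
  · by_cases h2 : p = 2
    · have h1 : S.card ≤ 1 := by
        refine Finset.card_le_one.2 fun a ha b hb => ?_
        have ha1 := hmax a ha
        have hb1 := hmax b hb
        have ha2 := (hS a ha).two_le
        have hb2 := (hS b hb).two_le
        omega
      omega
    · have h3 : p % 2 = 1 := (hpp.eq_two_or_odd).resolve_left h2
      have hsub : S ⊆ insert 2 ((range ((p - 1) / 2)).image fun i => 2 * i + 3) := by
        intro s hs
        rw [Finset.mem_insert, Finset.mem_image]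
        rcases (hS s hs).eq_two_or_odd with h | h
        · exact Or.inl h
        · right
          have h4 := hmax s hs
          have h5 := (hS s hs).two_le
          refine ⟨(s - 3) / 2, ?_, ?_⟩
          · rw [Finset.mem_range]
            omega
          · omega
      have h4 : S.card ≤ (p - 1) / 2 + 1 := by
        refine (Finset.card_le_card hsub).trans ((Finset.card_insert_le _ _).trans ?_)
        refine Nat.add_le_add_right (Finset.card_image_le.trans ?_) 1
        rw [Finset.card_range]
      unfold kap
      rw [if_neg h2]
      omega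
  · intro hc
    by_contra hcon
    have := GMx_card hS (hlt 5 (by norm_num) (by omega))
    omega
  · intro hc
    by_contra hcon
    have := GMx_card hS (hlt 7 (by norm_num) (by omega))
    omega
  · intro hc
    by_contra hcon
    have := GMx_card hS (hlt 11 (by norm_num) (by omega))
    omega
  · intro hc
    by_contra hcon
    have := GMx_card hS (hlt 13 (by norm_num) (by omega))
    omega
  · intro hc
    by_contra hcon
    have := GMx_card2 hS h2 (hlt 5 (by norm_num) (by omega))
    omega
  · intro hc
    by_contra hcon
    have := GMx_card2 hS h2 (hlt 7 (by norm_num) (by omega))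
    omega
  · intro hc
    by_contra hcon
    have := GMx_card2 hS h2 (hlt 11 (by norm_num) (by omega))
    omega
  · intro hc
    by_contra hcon
    have := GMx_card2 hS h2 (hlt 13 (by norm_num) (by omega))
    omega

end Pool.Agent.FO
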