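import Pool.Agent.Lib.MP_640417_ag.GT.SpecJ

/-!
# Theorem GT, part J, module NcR: growth of the numbers of terms
-/

set_option autoImplicit false

noncomputable section

namespace Pool.Agent.FO

open Finset Pool.Agent.FC

private theorem NcR_ch (n k : ℕ) (h : k ≤ n) : (n + 1).choose k ≤ (n + 1) * n.choose k := by
  have h1 := Nat.choose_mul_succ_eq n k
  have h2 : 1 ≤ n + 1 - k := by omega
  calc (n + 1).choose k = (n + 1).choose k * 1 := (mul_one _).symm
    _ ≤ (n + 1).choose k * (n + 1 - k) := Nat.mul_le_mul_left _ h2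
    _ = (n + 1) * n.choose k := by rw [← h1, mul_comm]

private theorem NcR_nb (l : ℕ) : nb (l + 1) ≤ 2 * (l + 1) * nb l := by
  have h1 : nb (l + 1) ≤ 1 + (l + 1) * (∑ k ∈ range l, l.choose k * nb k + nb l) := by
    rw [nb_eq (l + 1), sum_range_succ, mul_add, mul_sum]
    apply Nat.add_le_add_left
    apply Nat.add_le_add
    · apply sum_le_sum
      intro k hk
      rw [← mul_assoc]
      exact Nat.mul_le_mul_right _ (NcR_ch l k (mem_range.1 hk).le)
    · have := NcR_ch l l le_rfl
      rw [Nat.choose_self, mul_one] at this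
      exact Nat.mul_le_mul_right _ this
  have h2 := nb_eq l
  have h3 : (l + 1) * (∑ k ∈ range l, l.choose k * nb k + nb l) + (l + 1) = (l + 1) * (nb l + nb l) := by
    have h4 : ∑ k ∈ range l, l.choose k * nb k + nb l + 1 = nb l + nb l := by omega
    rw [← h4]
    ring
  have h5 : 2 * (l + 1) * nb l = (l + 1) * (nb l + nb l) := by ring
  rw [h5, ← h3]
  omega

private theorem NcR_nc (k l : ℕ) : nc k (l + 1) ≤ 2 * (l + k) * nc k l := by
  induction k generalizing l with
  | zero =>
    simp [nc]
  | succ k ih =>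
    have e1 : nc (k + 1) (l + 1) = 2 * (∑ j ∈ range (l + 1), l.choose j * (nb j * nc k (l + 1 - j)) +
        ∑ j ∈ range (l + 1), l.choose j * (nb (j + 1) * nc k (l - j))) := by
      have := Finset.sum_choose_succ_mul (R := ℕ) (fun j i => nb j * nc k i) l
      simp only [Nat.cast_id] at this
      rw [← this]
      change 2 * ∑ j ∈ range (l + 1 + 1), (l + 1).choose j * nb j * nc k (l + 1 - j) = _
      simp only [mul_assoc]
    have e2 : nc (k + 1) l = 2 * ∑ j ∈ range (l + 1), l.choose j * nb j * nc k (l - j) := rfl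
    rw [e1, e2, ← sum_add_distrib]
    have h : ∀ j ∈ range (l + 1), l.choose j * (nb j * nc k (l + 1 - j)) +
        l.choose j * (nb (j + 1) * nc k (l - j)) ≤
        2 * (l + (k + 1)) * (l.choose j * nb j * nc k (l - j)) := by
      intro j hj
      have hjl : j ≤ l := by
        have := mem_range.1 hj
        omega
      have e3 : l + 1 - j = l - j + 1 := by omega
      have h1 := ih (l - j)
      have h2 := NcR_nb j
      rw [e3, ← mul_add]
      have h3 : nb j * nc k (l - j + 1) + nb (j + 1) * nc k (l - j) ≤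
          2 * (l + (k + 1)) * (nb j * nc k (l - j)) := by
        calc nb j * nc k (l - j + 1) + nb (j + 1) * nc k (l - j)
            ≤ nb j * (2 * (l - j + k) * nc k (l - j)) + 2 * (j + 1) * nb j * nc k (l - j) :=
              Nat.add_le_add (Nat.mul_le_mul_left _ h1) (Nat.mul_le_mul_right _ h2)
          _ = 2 * ((l - j) + j + (k + 1)) * (nb j * nc k (l - j)) := by ring
          _ = 2 * (l + (k + 1)) * (nb j * nc k (l - j)) := by rw [Nat.sub_add_cancel hjl]
      calc l.choose j * (nb j * nc k (l - j + 1) + nb (j + 1) * nc k (l - j))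
          ≤ l.choose j * (2 * (l + (k + 1)) * (nb j * nc k (l - j))) := Nat.mul_le_mul_left _ h3
        _ = 2 * (l + (k + 1)) * (l.choose j * nb j * nc k (l - j)) := by ring
    calc 2 * ∑ j ∈ range (l + 1), (l.choose j * (nb j * nc k (l + 1 - j)) +
          l.choose j * (nb (j + 1) * nc k (l - j)))
        ≤ 2 * ∑ j ∈ range (l + 1), 2 * (l + (k + 1)) * (l.choose j * nb j * nc k (l - j)) :=
          Nat.mul_le_mul_left _ (sum_le_sum h)
      _ = 2 * (l + (k + 1)) * (2 * ∑ j ∈ range (l + 1), l.choose j * nb j * nc k (l - j)) := by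
          rw [← mul_sum]
          ring

theorem pNcR : S_NcR := ⟨NcR_nb, NcR_nc⟩

end Pool.Agent.FO
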