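import Pool.Agent.Lib.MP_640417_ag.GT.SpecK

/-!
# Theorem GT, module NumA: levels with at most three essential primes
-/

set_option autoImplicit false

noncomputable section

namespace Pool.Agent.FO

open Finset Pool.Agent.FC

private theorem NumA_fin : ∀ S ∈ ([{2, 3, 5}, {2, 3, 7}, {2, 3, 11}, {2, 3, 13}, {2, 3, 17},
    {2, 5, 7}, {3, 5, 7}, {3, 19}] : List (Finset ℕ)), ∀ T ∈ S.powerset, T.Nonempty → 2 ∣ T.card →
    T ∈ pl := by
  unfold pl
  decide

/-- **All lengths.** -/
theorem pNumA : S_NumA := by
  intro m hm hD T hT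
  obtain ⟨h1, h2, h3, h4⟩ := hT
  have hsub : T ⊆ (Pool.Agent.FT.red m).primeFactors := by
    intro p hp
    have hp1 := h1 hp
    rw [Nat.mem_primeFactors] at hp1 ⊢
    unfold Pool.Agent.FT.red
    split_ifs with h
    · refine ⟨hp1.1, ?_, ?_⟩
      · have hp2 : p ≠ 2 := by
          rintro rfl
          have := h2 hp
          omega
        have hm2 : m = 2 * (m / 2) := by omega
        have hd := hp1.2.1
        rw [hm2] at hd
        rcases (hp1.1.dvd_mul).1 hd with h5 | h5
        · exact absurd ((Nat.prime_dvd_prime_iff_eq hp1.1 Nat.prime_two).1 h5) hp2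
        · exact h5
      · omega
    · exact hp1
  rcases hD with hD | ⟨S, hS, hSs⟩
  · have h5 := (Finset.card_le_card hsub).trans hD
    have h6 := h3.card_pos
    omega
  · exact NumA_fin S hS T (Finset.mem_powerset.2 (hsub.trans hSs)) h3 h4

end Pool.Agent.FO
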