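import Pool.Agent.Lib.MP_640417_ag.GT.SpecK

/-!
# Theorem GT, part K: the numerical condition for odd levels, length at most `10`
-/

set_option autoImplicit false

noncomputable section

namespace Pool.Agent.FO

open Finset Pool.Agent.FC

private lemma nb0 : nb 0 = 1 := by
  rw [nb_eq]
  rfl

private lemma nb1 : nb 1 = 2 := by
  rw [nb_eq 1, sum_range_one, nb0]
  rfl

private lemma nb2 : nb 2 = 6 := by
  rw [nb_eq 2, sum_range_succ, sum_range_one, nb0, nb1]
  rfl

private lemma nc0 (l : ℕ) : nc 0 l = if l = 0 then 1 else 0 := rfl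

private lemma ncs (k l : ℕ) : nc (k + 1) l = 2 * ∑ j ∈ range (l + 1), l.choose j * nb j * nc k (l - j) := rfl

private lemma nc10 : nc 1 0 = 2 := by
  rw [ncs, sum_range_one, nb0]
  rfl

private lemma nc11 : nc 1 1 = 4 := by
  rw [ncs, sum_range_succ, sum_range_one, nb0, nb1]
  rfl

private lemma nc12 : nc 1 2 = 12 := by
  rw [ncs, sum_range_succ, sum_range_succ, sum_range_one, nb0, nb1, nb2]
  rfl

private lemma nc30 : nc 3 0 = 8 := by
  rw [ncs, sum_range_one, nb0, ncs, sum_range_one, nb0]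
  change 2 * (1 * 1 * (2 * (1 * 1 * nc 1 0))) = 8
  rw [nc10]

theorem pNumO (hKmn : S_Kmn) (hGrw : S_Grw) (hPrs : S_Prs) : S_NumO := by
  intro m N hm h2 hN T hT hTp
  obtain ⟨hTm, -, hTn, hTe⟩ := hT
  refine ⟨fun L hL hd _ => ?_, fun h => absurd h h2⟩
  have hTP : ∀ s ∈ T, s.Prime := fun s hs => Nat.prime_of_mem_primeFactors (hTm hs)
  have hLP : ∀ s ∈ L, s.Prime := fun s hs => Nat.prime_of_mem_primeFactors (hL hs)
  have hm2 : ∀ s ∈ m.primeFactors, s ≠ 2 := by
    rintro s hs rfl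
    exact h2 (Nat.dvd_of_mem_primeFactors hs)
  have hT2 : 2 ∉ T := fun h => hm2 2 (hTm h) rfl
  have hL2 : 2 ∉ L := fun h => hm2 2 (hL h) rfl
  have hSP : ∀ s ∈ T ∪ L, s.Prime := by
    intro s hs
    rcases mem_union.1 hs with h | h
    · exact hTP s h
    · exact hLP s h
  have hS2 : 2 ∉ T ∪ L := by
    intro h
    rcases mem_union.1 h with h | h
    · exact hT2 h
    · exact hL2 h
  have hcard : (T ∪ L).card = T.card + L.card := card_union_of_disjoint hd
  have hkp : kp (T ∪ L) = kp T * kp L := prod_union hd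
  have hN10 : N ≤ 10 := by omega
  obtain ⟨t, ht⟩ := hTe
  have ht0 := hTn.card_pos
  have hR : ∀ (S : Finset ℕ) (p : ℕ), 2 ∉ S → 2 ∉ S.erase p := fun S p h h' => h (mem_of_mem_erase h')
  rcases Nat.lt_or_ge t 2 with h | h
  · have hT1 : T.card = 2 := by omega
    obtain ⟨-, hP1, -, -⟩ := hPrs T hTP hT1 hTp
    obtain ⟨hP2, hP3⟩ := hP1 hT2
    have hkT : (N ≤ 9 ∧ 40 ≤ kp T) ∨ 44 ≤ kp T := by
      rcases hN with h9 | ⟨-, h55⟩
      · exact Or.inl ⟨h9, hP2⟩
      · refine Or.inr (hP3 ?_)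
        rintro rfl
        apply h55
        have h5 : 5 ∣ m := Nat.dvd_of_mem_primeFactors (hTm (by simp))
        have h11 : 11 ∣ m := Nat.dvd_of_mem_primeFactors (hTm (by simp))
        omega
    rw [hT1]
    change 2 * N * nc 1 L.card < kp (T ∪ L)
    by_cases hl : 2 ≤ L.card
    · refine (hGrw (fun S => 2 ∉ S) hR (2 * N) 1 2 ?_).1 L.card hl (T ∪ L) hSP hS2 (by omega)
      intro S hS h2S hSc
      have h1 := ((hKmn S hS).2.2.2.2.2.2.2.2 h2S).2.2.1 (by omega)
      rw [nc12]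
      omega
    · have hl1 : L.card = 0 ∨ L.card = 1 := by omega
      rw [hkp]
      rcases hl1 with hl1 | hl1
      · have h1 : kp L = 1 := by
          rw [card_eq_zero.1 hl1]
          rfl
        rw [hl1, h1, nc10]
        omega
      · have h1 : 2 ≤ kp L := (hKmn L hLP).2.2.2.2.2.2.2.1 (by omega)
        rw [hl1, nc11]
        have h3 : kp T * 2 ≤ kp T * kp L := Nat.mul_le_mul_left _ h1
        omega
  · obtain ⟨j, rfl⟩ := Nat.exists_eq_add_of_le h
    have hc : T.card - 1 = 3 + 2 * j := by omega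
    rw [hc]
    refine (hGrw (fun S => 2 ∉ S) hR (2 * N) 3 0 ?_).2 rfl j L.card (T ∪ L) hSP hS2 (by omega)
    intro S hS h2S hSc
    have h1 := ((hKmn S hS).2.2.2.2.2.2.2.2 h2S).2.2.1 (by omega)
    rw [nc30]
    omega

end Pool.Agent.FO
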