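import Pool.Agent.Lib.MP_640417_ag.GT.SpecJ

set_option autoImplicit false

open Finset Pool.Agent.FC

namespace Pool.Agent.FO

namespace GPhBasAux

theorem ordD (n s : ℕ) : ((s ^ n.factorization s : ℕ) : ℤ) ∣ (n : ℤ) :=
  Int.natCast_dvd_natCast.2 (Nat.ordProj_dvd n s)

theorem ikAdd (n : ℕ) (y z : ℤ) : ik n (y + n * z) = ik n y := by
  funext s b
  unfold ik
  have h : ((s ^ n.factorization s : ℕ) : ℤ) ∣ y + n * z - b ↔ ((s ^ n.factorization s : ℕ) : ℤ) ∣ y - b := by
    have e : y + n * z - b = (y - b) + n * z := by ring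
    rw [e]
    exact (Int.dvd_add_left ((ordD n s).mul_right z))
  by_cases h1 : ((s ^ n.factorization s : ℕ) : ℤ) ∣ y - b
  · rw [if_pos h1, if_pos (h.2 h1)]
  · rw [if_neg h1, if_neg (fun h2 => h1 (h.1 h2))]

theorem ikMul (n : ℕ) (y r w : ℤ) (hr : IsCoprime r (n : ℤ)) (hd : (n : ℤ) ∣ r * w - y) (s : ℕ) (b : ℤ) :
    ik n w s b = ik n y s (r * b) := by
  unfold ik
  have hc : IsCoprime ((s ^ n.factorization s : ℕ) : ℤ) r := (hr.of_isCoprime_of_dvd_right (ordD n s)).symm
  have hd1 : ((s ^ n.factorization s : ℕ) : ℤ) ∣ r * w - y := (ordD n s).trans hd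
  have h : ((s ^ n.factorization s : ℕ) : ℤ) ∣ y - r * b ↔ ((s ^ n.factorization s : ℕ) : ℤ) ∣ w - b := by
    have e : r * (w - b) = (r * w - y) + (y - r * b) := by ring
    constructor
    · intro h1
      apply hc.dvd_of_dvd_mul_left
      rw [e]
      exact dvd_add hd1 h1
    · intro h1
      have h2 : ((s ^ n.factorization s : ℕ) : ℤ) ∣ r * (w - b) := h1.mul_left r
      rw [e] at h2
      exact (Int.dvd_add_right hd1).1 h2
  by_cases h1 : ((s ^ n.factorization s : ℕ) : ℤ) ∣ w - b
  · rw [if_pos h1, if_pos (h.2 h1)]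
  · rw [if_neg h1, if_neg (fun h2 => h1 (h.1 h2))]

theorem copP (p : ℕ) (hp : p.Prime) (T : List ℕ) (hT : ∀ s ∈ T, s.Prime) (hn : p ∉ T) :
    Nat.Coprime p ((T.map fun p => if p = 2 then 4 else p).prod) := by
  induction T with
  | nil => simp
  | cons a T ih =>
    rw [List.map_cons, List.prod_cons]
    apply Nat.Coprime.mul_right
    · have ha : a.Prime := hT a (List.mem_cons_self)
      have hpa : p ≠ a := fun h => hn (h ▸ List.mem_cons_self)
      have hc : Nat.Coprime p a := (Nat.coprime_primes hp ha).2 hpa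
      by_cases h2 : a = 2
      · rw [if_pos h2]
        rw [h2] at hc
        have : (4 : ℕ) = 2 ^ 2 := by norm_num
        rw [this]
        exact hc.pow_right 2
      · rw [if_neg h2]
        exact hc
    · exact ih (fun s hs => hT s (List.mem_cons_of_mem _ hs)) (fun h => hn (List.mem_cons_of_mem _ h))

theorem prodD (n : ℕ) (T : List ℕ) (hT : ∀ s ∈ T, s.Prime) (hN : T.Nodup)
    (hd : ∀ s ∈ T, (if s = 2 then 4 else s) ∣ n) : (T.map fun p => if p = 2 then 4 else p).prod ∣ n := by
  induction T with
  | nil => simp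
  | cons a T ih =>
    rw [List.map_cons, List.prod_cons]
    have hN' := List.nodup_cons.1 hN
    have ha : a.Prime := hT a (List.mem_cons_self)
    apply Nat.Coprime.mul_dvd_of_dvd_of_dvd
    · have hc := copP a ha T (fun s hs => hT s (List.mem_cons_of_mem _ hs)) hN'.1
      by_cases h2 : a = 2
      · rw [if_pos h2]
        rw [h2] at hc
        have : (4 : ℕ) = 2 ^ 2 := by norm_num
        rw [this]
        exact hc.pow_left 2
      · rw [if_neg h2]
        exact hc
    · exact hd a (List.mem_cons_self)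
    · exact ih (fun s hs => hT s (List.mem_cons_of_mem _ hs)) hN'.2 (fun s hs => hd s (List.mem_cons_of_mem _ hs))

theorem oddSub (a b : ℤ) (ha : IsCoprime a 2) (hb : IsCoprime b 2) : (2 : ℤ) ∣ a - b := by
  have h1 : ¬ (2 : ℤ) ∣ a := fun h => by
    have := ha.isUnit_of_dvd' h (dvd_refl 2)
    rw [Int.isUnit_iff] at this
    omega
  have h2 : ¬ (2 : ℤ) ∣ b := fun h => by
    have := hb.isUnit_of_dvd' h (dvd_refl 2)
    rw [Int.isUnit_iff] at this
    omega
  omega

end GPhBasAux

open GPhBasAux in
theorem pPhBas (hUpsB : S_UpsB) (hUpsT : S_UpsT) : S_PhBas := by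
  classical
  intro T q n c y hPr hn
  obtain ⟨hN, hP, hq2, hTl⟩ := hPr
  have hN' := List.nodup_cons.1 hN
  have hPT : ∀ s ∈ T, s.Prime := fun s hs => hP s (List.mem_cons_of_mem _ hs)
  have hPq : q.Prime := hP q (List.mem_cons_self)
  refine ⟨?_, ?_, ?_, ?_⟩
  · intro z
    unfold Ph
    rw [ikAdd]
  · unfold Ph
    by_cases h : q ∣ n ∧ ∀ s ∈ T, s ∣ n
    · rw [if_pos h, if_pos h, (hUpsB (ik n y) (ik n y) T c _).1]
      have : Odd T.length := by
        rw [← Nat.not_even_iff_odd, even_iff_two_dvd]
        exact hTl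
      rw [this.neg_one_pow]
      ring
    · rw [if_neg h, if_neg h]
      rfl
  · intro r w hr hd
    unfold Ph
    by_cases h : q ∣ n ∧ ∀ s ∈ T, s ∣ n
    · rw [if_pos h, if_pos h]
      exact (hUpsB (ik n y) (ik n w) T c _).2.2.1 r (fun s b => ikMul n y r w hr hd s b)
    · rw [if_neg h, if_neg h]
  · intro hc hy hne
    unfold Ph at hne
    by_cases h : q ∣ n ∧ ∀ s ∈ T, s ∣ n
    · rw [if_pos h] at hne
      have key : ∀ s ∈ T, (if s = 2 then 4 else s) ∣ n := by
        intro s hs
        by_cases h2 : s = 2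
        · rw [if_pos h2]
          by_contra h4
          apply hne
          subst h2
          have h2n : 2 ∣ n := h.2 2 hs
          have hv : n.factorization 2 = 1 := by
            have e1 := (Nat.Prime.pow_dvd_iff_le_factorization Nat.prime_two hn.ne' (k := 1)).1 (by simpa using h2n)
            have e2 : ¬ 2 ≤ n.factorization 2 := fun e => h4 ((Nat.Prime.pow_dvd_iff_le_factorization Nat.prime_two hn.ne' (k := 2)).2 e)
            omega
          have h2z : (2 : ℤ) ∣ (n : ℤ) := by exact_mod_cast h2n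
          have hc2 : IsCoprime c 2 := hc.of_isCoprime_of_dvd_right h2z
          have hy2 : IsCoprime y 2 := hy.of_isCoprime_of_dvd_right h2z
          refine hUpsT (ik n y) T c _ 2 ?_ hPT hN'.2 ?_ hs ?_ (by exact_mod_cast hc2)
          · intro s hs1
            exact Nat.prime_of_mem_primeFactors (mem_sdiff.1 (mem_of_mem_erase hs1)).1
          · intro s hs1 hs2
            exact (mem_sdiff.1 (mem_of_mem_erase hs2)).2 (List.mem_toFinset.2 hs1)
          · intro b hb
            have hb2 : IsCoprime b 2 := by exact_mod_cast hb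
            unfold ik
            rw [hv]
            rw [if_pos]
            have := oddSub y b hy2 hb2
            simpa using this
        · rw [if_neg h2]
          exact h.2 s hs
      unfold dt
      apply Nat.Coprime.mul_dvd_of_dvd_of_dvd
      · exact copP q hPq T hPT hN'.1
      · exact h.1
      · exact prodD n T hPT hN'.2 key
    · rw [if_neg h] at hne
      exact absurd rfl hne

end Pool.Agent.FO
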