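import Pool.Agent.Lib.MP_640417_ag.GT.SpecJ

/-!
# Theorem GT, part J: distribution relations between the levels, `r = q`
-/

set_option autoImplicit false

open Finset Pool.Agent.FC

namespace Pool.Agent.FO

namespace GPhQAux

theorem fact_ne {q n s : ℕ} (hq : q.Prime) (hn : 0 < n) (hs : s ≠ q) :
    (q * n).factorization s = n.factorization s := by
  rw [Nat.factorization_mul hq.ne_zero hn.ne', hq.factorization, Finsupp.add_apply,
    Finsupp.single_apply, if_neg hs.symm, zero_add]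

theorem ik_eq {q n s : ℕ} (hq : q.Prime) (hn : 0 < n) (hs : s ≠ q) (y : ℤ) (j : ℕ) :
    ik (q * n) (y + j * n) s = ik n y s := by
  classical
  funext b
  unfold ik
  rw [fact_ne hq hn hs]
  have h : ((s ^ n.factorization s : ℕ) : ℤ) ∣ (j : ℤ) * n :=
    Dvd.dvd.mul_left (Int.natCast_dvd_natCast.2 (Nat.ordProj_dvd n s)) _
  have h2 : ((s ^ n.factorization s : ℕ) : ℤ) ∣ y + j * n - b ↔
      ((s ^ n.factorization s : ℕ) : ℤ) ∣ y - b := by
    have e : y + j * n - b = (y - b) + j * n := by ring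
    rw [e]
    exact dvd_add_left h
  by_cases h3 : ((s ^ n.factorization s : ℕ) : ℤ) ∣ y - b
  · rw [if_pos h3, if_pos (h2.2 h3)]
  · rw [if_neg h3, if_neg (fun h' => h3 (h2.1 h'))]

/-- the common value -/
noncomputable def VV (T : List ℕ) (q n : ℕ) (c y : ℤ) : ℤ := by
  classical
  exact if ∀ s ∈ T, s ∣ n then ups (ik n y) T c ((n.primeFactors \ T.toFinset).erase q) else 0

theorem Ph_dvd {T : List ℕ} {q n : ℕ} (c y : ℤ) (h : q ∣ n) : Ph T q n c y = VV T q n c y := by
  classical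
  unfold Ph VV
  by_cases h1 : ∀ s ∈ T, s ∣ n
  · rw [if_pos ⟨h, h1⟩, if_pos h1]
  · rw [if_neg (fun h' => h1 h'.2), if_neg h1]

theorem Ph_not {T : List ℕ} {q n : ℕ} (c y : ℤ) (h : ¬ q ∣ n) : Ph T q n c y = 0 := by
  classical
  unfold Ph
  rw [if_neg (fun h' => h h'.1)]

theorem Ph_eq (hU : S_UpsB) {T : List ℕ} {q n : ℕ} (hT : Pr T q) (hn : 0 < n) (c y : ℤ) (j : ℕ) :
    Ph T q (q * n) c (y + j * n) = VV T q n c y := by
  classical
  obtain ⟨hnd, hpr, -, -⟩ := hT
  have hq : q.Prime := hpr q List.mem_cons_self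
  have hqT : q ∉ T := (List.nodup_cons.1 hnd).1
  have hL : ((q * n).primeFactors \ T.toFinset).erase q = (n.primeFactors \ T.toFinset).erase q := by
    rw [Nat.primeFactors_mul hq.ne_zero hn.ne', hq.primeFactors]
    ext s
    simp only [Finset.mem_erase, Finset.mem_sdiff, Finset.mem_union, Finset.mem_singleton]
    constructor
    · rintro ⟨h1, h2 | h2, h3⟩
      · exact absurd h2 h1
      · exact ⟨h1, h2, h3⟩
    · rintro ⟨h1, h2, h3⟩
      exact ⟨h1, Or.inr h2, h3⟩
  have hd : (∀ s ∈ T, s ∣ q * n) ↔ ∀ s ∈ T, s ∣ n := by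
    constructor
    · intro h s hs
      have hsp : s.Prime := hpr s (List.mem_cons_of_mem _ hs)
      rcases (hsp.dvd_mul).1 (h s hs) with h1 | h1
      · rw [(Nat.prime_dvd_prime_iff_eq hsp hq).1 h1] at hs
        exact absurd hs hqT
      · exact h1
    · intro h s hs
      exact Dvd.dvd.mul_left (h s hs) _
  unfold Ph VV
  rw [hL]
  by_cases h1 : ∀ s ∈ T, s ∣ n
  · rw [if_pos ⟨dvd_mul_right q n, hd.2 h1⟩, if_pos h1]
    refine (hU (ik n y) (ik (q * n) (y + j * n)) T c _).2.2.2.1 ?_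
    rintro s (hs | hs)
    · refine ik_eq hq hn ?_ y j
      rintro rfl
      exact hqT hs
    · exact ik_eq hq hn (Finset.ne_of_mem_erase hs) y j
  · rw [if_neg (fun h' => h1 (hd.1 h'.2)), if_neg h1]

theorem cop_iff {q n : ℕ} (hq : q.Prime) {y : ℤ} (hy : IsCoprime y (n : ℤ)) (j : ℕ) :
    IsCoprime (y + j * n) ((q * n : ℕ) : ℤ) ↔ ¬ (q : ℤ) ∣ y + j * n := by
  have h1 : IsCoprime (y + j * n) (n : ℤ) := by
    have := hy.add_mul_right_left (j : ℤ)
    rwa [mul_comm] at this ⊢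
  have hqp : Prime (q : ℤ) := Nat.prime_iff_prime_int.1 hq
  rw [Nat.cast_mul, IsCoprime.mul_right_iff]
  constructor
  · rintro ⟨h2, -⟩
    exact hqp.coprime_iff_not_dvd.1 h2.symm
  · intro h2
    exact ⟨(hqp.coprime_iff_not_dvd.2 h2).symm, h1⟩

end GPhQAux

open GPhQAux in
theorem pPhQ (hUpsB : S_UpsB) : S_PhQ := by
  classical
  intro T q n c y hT hn hy J hJ
  have hq : q.Prime := hT.2.1 q List.mem_cons_self
  have hs : ∑ j ∈ J, Ph T q (q * n) c (y + j * n) = (J.card : ℤ) * VV T q n c y := by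
    rw [Finset.sum_congr rfl (fun j _ => Ph_eq hUpsB hT hn c y j), Finset.sum_const, nsmul_eq_mul]
  rw [hs]
  by_cases hqn : q ∣ n
  · have hc : J = Finset.range q := by
      ext j
      rw [hJ, Finset.mem_range, cop_iff hq hy]
      refine ⟨fun h => h.1, fun h => ⟨h, fun hd => ?_⟩⟩
      have h1 : (q : ℤ) ∣ (n : ℤ) := Int.natCast_dvd_natCast.2 hqn
      have h2 : (q : ℤ) ∣ y := (dvd_add_left (Dvd.dvd.mul_left h1 _)).1 hd
      have h3 : IsUnit (q : ℤ) := hy.isUnit_of_dvd' h2 h1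
      exact (Nat.prime_iff_prime_int.1 hq).not_isUnit h3
    rw [Ph_dvd c y hqn, hc, Finset.card_range]
    exact ⟨VV T q n c y, by ring⟩
  · have : Fact q.Prime := ⟨hq⟩
    have hn0 : (n : ZMod q) ≠ 0 := by
      rwa [Ne, ZMod.natCast_eq_zero_iff]
    have key : ∀ j : ℕ, (q : ℤ) ∣ y + j * n ↔ (j : ZMod q) = -(y : ZMod q) * (n : ZMod q)⁻¹ := by
      intro j
      rw [← ZMod.intCast_zmod_eq_zero_iff_dvd]
      push_cast
      constructor
      · intro h
        rw [eq_mul_inv_iff_mul_eq₀ hn0]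
        linear_combination h
      · intro h
        rw [h]
        field_simp
        ring
    have hc : J = (Finset.range q).erase (-(y : ZMod q) * (n : ZMod q)⁻¹).val := by
      ext j
      rw [hJ, Finset.mem_erase, Finset.mem_range, cop_iff hq hy, key]
      constructor
      · rintro ⟨h1, h2⟩
        refine ⟨?_, h1⟩
        rintro rfl
        exact h2 (ZMod.natCast_zmod_val _)
      · rintro ⟨h1, h2⟩
        refine ⟨h2, fun h3 => h1 ?_⟩
        rw [← h3, ZMod.val_natCast, Nat.mod_eq_of_lt h2]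
    have hcard : J.card = q - 1 := by
      rw [hc, Finset.card_erase_of_mem (Finset.mem_range.2 (ZMod.val_lt _)), Finset.card_range]
    rw [Ph_not c y hqn, hcard, Nat.cast_sub hq.one_le, Nat.cast_one, sub_zero]
    exact dvd_mul_right _ _

end Pool.Agent.FO
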