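import Pool.Agent.Lib.MP_640417_ag.GT.SpecK

/-!
# Pairs of primes which are not in the list
-/

set_option autoImplicit false

open Finset Pool.Agent.FC

namespace Pool.Agent.FO

namespace GPrsAux

/-- the product for a pair -/
theorem kp_pair {p q : ℕ} (h : p ≠ q) : kp {p, q} = kap p * kap q := by
  rw [kp, Finset.prod_pair h]

/-- the value at an odd prime -/
theorem kap_odd {q : ℕ} (h : 2 < q) : kap q = q - 1 := by
  rw [kap, if_neg (by omega)]

/-- the cases -/
theorem cases_pair {p q : ℕ} (hp : p.Prime) (hq : q.Prime) (hpq : p < q) (h : ({p, q} : Finset ℕ) ∉ pl) :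
    (p = 2 ∧ 19 ≤ q) ∨ (p = 3 ∧ (q = 23 ∨ 29 ≤ q)) ∨ (p = 5 ∧ (q = 11 ∨ q = 13 ∨ 17 ≤ q)) ∨
      (7 ≤ p ∧ 11 ≤ q) := by
  have hp2 := hp.two_le
  by_cases h7 : 7 ≤ p
  · right; right; right
    refine ⟨h7, ?_⟩
    by_contra hq11
    push Not at hq11
    have h8 : 8 ≤ q := by omega
    interval_cases q <;> revert hq <;> norm_num
  · push Not at h7
    interval_cases p
    · left
      refine ⟨rfl, ?_⟩
      by_contra hq19
      push Not at hq19
      interval_cases q <;> first | exact h (by decide) | (revert hq; norm_num; done)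
    · right; left
      refine ⟨rfl, ?_⟩
      by_contra hcon
      push Not at hcon
      obtain ⟨h23, h29⟩ := hcon
      interval_cases q <;> first | omega | exact h (by decide) | (revert hq; norm_num; done)
    · exact absurd hp (by norm_num)
    · right; right; left
      refine ⟨rfl, ?_⟩
      by_contra hcon
      push Not at hcon
      obtain ⟨h11, h13, h17⟩ := hcon
      interval_cases q <;> first | omega | exact h (by decide) | (revert hq; norm_num; done)
    · exact absurd hp (by norm_num)

end GPrsAux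

open GPrsAux in
theorem pPrs : S_Prs := by
  intro T hT hc hpl
  have key : ∃ p q : ℕ, p < q ∧ T = {p, q} := by
    obtain ⟨x, y, hxy, rfl⟩ := Finset.card_eq_two.1 hc
    rcases lt_or_gt_of_ne hxy with h | h
    · exact ⟨x, y, h, rfl⟩
    · exact ⟨y, x, h, Finset.pair_comm x y⟩
  obtain ⟨p, q, hpq, rfl⟩ := key
  have hp : p.Prime := hT p (by simp)
  have hq : q.Prime := hT q (by simp)
  rw [kp_pair hpq.ne]
  rcases cases_pair hp hq hpq hpl with ⟨rfl, h⟩ | ⟨rfl, h⟩ | ⟨rfl, h⟩ | ⟨h7, h⟩
  · have h2 : (2 : ℕ) ∈ ({2, q} : Finset ℕ) := by simp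
    have hk : kap 2 = 2 := rfl
    refine ⟨?_, fun h' => absurd h2 h', fun h' => absurd h2 h', fun h' => absurd h2 h'⟩
    rw [hk, kap_odd (by omega)]
    omega
  · have hk : kap 3 = 2 := rfl
    rw [hk, kap_odd (show 2 < q by omega)]
    refine ⟨by omega, fun _ => ⟨by omega, fun _ => by omega⟩, fun _ h1 _ _ => ?_, fun _ _ => by omega⟩
    rcases h with rfl | h
    · exact absurd rfl h1
    · omega
  · have hk : kap 5 = 4 := rfl
    rw [hk, kap_odd (show 2 < q by omega)]
    refine ⟨by omega, fun _ => ⟨by omega, fun h1 => ?_⟩, fun _ _ h1 h2 => ?_, fun _ _ => by omega⟩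
    · rcases h with rfl | h
      · exact absurd rfl h1
      · omega
    · rcases h with rfl | rfl | h
      · exact absurd rfl h1
      · exact absurd rfl h2
      · omega
  · have h60 : 60 ≤ kap p * kap q := by
      rw [kap_odd (show 2 < p by omega), kap_odd (show 2 < q by omega)]
      calc 60 = 6 * 10 := by norm_num
        _ ≤ (p - 1) * (q - 1) := Nat.mul_le_mul (by omega) (by omega)
    exact ⟨by omega, fun _ => ⟨by omega, fun _ => by omega⟩, fun _ _ _ _ => by omega, fun _ _ => by omega⟩

end Pool.Agent.FO
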