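import Pool.Agent.Lib.MP_640417_ag.GT.SpecJ

/-!
# Theorem GT, part J, module RfP: the prime `p` drops out of the telescoping product
-/

set_option autoImplicit false

namespace Pool.Agent.FO

open Finset Pool.Agent.FC

/-- **RfP.** -/
theorem pRfP : S_RfP := by
  intro I c p A hp hA hpA hI hc
  induction A using Finset.strongInduction with
  | H A ih =>
    rcases A.eq_empty_or_nonempty with rfl | hne
    · rw [Rf_eq, if_pos rfl]
      have h1 : I p (c * pr ∅) = 1 := by
        refine hI _ ?_
        rw [pr, Finset.prod_empty, mul_one]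
        exact hc
      have h5 : (∅ : Finset ℕ).ssubsets = ∅ := by
        refine Finset.eq_empty_of_forall_notMem fun C hC => ?_
        exact Finset.not_ssubset_empty C (Finset.mem_ssubsets.1 hC)
      rw [h1, Finset.prod_empty, Finset.card_empty, h5, Finset.sum_empty]
      norm_num
    · rw [Rf_eq, if_neg hne.ne_empty]
      have h1 : I p (c * pr A) = 1 := by
        refine hI _ (IsCoprime.mul_left hc ?_)
        rw [pr]
        refine IsCoprime.prod_left fun s hs => ?_
        rw [Nat.isCoprime_iff_coprime]
        exact (Nat.coprime_primes (hA s hs) hp).2 fun e => hpA (e ▸ hs)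
      have h2 : ∑ C ∈ A.ssubsets, (-1 : ℤ) ^ ((A \ C).card + 1) *
          (∏ s ∈ A \ C, I s (c * pr (A.erase s))) * Rf I c p C =
          (-1) ^ ((A \ ∅).card + 1) * (∏ s ∈ A \ ∅, I s (c * pr (A.erase s))) * Rf I c p ∅ := by
        refine Finset.sum_eq_single ∅ (fun C hC hC0 => ?_) (fun h => ?_)
        · have h3 := Finset.mem_ssubsets.1 hC
          rw [ih C h3 (fun s hs => hA s (h3.1 hs)) (fun h => hpA (h3.1 h)), if_neg hC0, mul_zero]
        · exact absurd (Finset.empty_mem_ssubsets hne) h
      have h4 : Rf I c p ∅ = 1 := by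
        rw [ih ∅ (Finset.empty_ssubset.2 hne) (fun s hs => absurd hs (Finset.notMem_empty s))
          (Finset.notMem_empty p), if_pos rfl]
      rw [h2, h4, h1, Finset.sdiff_empty, pow_succ]
      ring

end Pool.Agent.FO
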