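import Pool.Agent.Lib.MP_640417_ag.GT.SpecK

/-!
# Theorem GT, part K: the induction step
-/

set_option autoImplicit false

noncomputable section

namespace Pool.Agent.FO

open Finset Pool.Agent.FC

namespace GStKAux

theorem P_sub {m : ℕ} [NeZero m] (f g : ZMod m → ℤ) (t : ZMod m) :
    P (fun x => f x - g x) t = P f t - P g t := by
  unfold P
  rw [← Finset.sum_sub_distrib]
  refine Finset.sum_congr rfl fun x _ => ?_
  push_cast
  ring

theorem P_add {m : ℕ} [NeZero m] (f g : ZMod m → ℤ) (t : ZMod m) :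
    P (fun x => f x + g x) t = P f t + P g t := by
  unfold P
  rw [← Finset.sum_add_distrib]
  refine Finset.sum_congr rfl fun x _ => ?_
  push_cast
  ring

/-- the prime powers in a level which is squarefree in the sense of `Sqf` -/
theorem pw {d : ℕ} [NeZero d] (hS : Sqf d) {p : ℕ} (hp : p ∈ d.primeFactors) :
    p ^ d.factorization p = if p = 2 then 4 else p := by
  have hd0 : d ≠ 0 := NeZero.ne d
  have hpp : p.Prime := Nat.prime_of_mem_primeFactors hp
  have hpd : p ∣ d := Nat.dvd_of_mem_primeFactors hp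
  have h1 : 1 ≤ d.factorization p := (hpp.dvd_iff_one_le_factorization hd0).1 hpd
  by_cases h2 : p = 2
  · subst h2
    rw [if_pos rfl]
    have h4 : 4 ∣ d := by
      have := hS.1
      omega
    have h5 : 2 ≤ d.factorization 2 := (hpp.pow_dvd_iff_le_factorization hd0).1 (by norm_num; exact h4)
    have h6 : ¬ 3 ≤ d.factorization 2 := by
      intro h7
      have h8 : 2 ^ 3 ∣ d := (hpp.pow_dvd_iff_le_factorization hd0).2 h7
      have h9 : 2 ^ 2 ∣ d := (hpp.pow_dvd_iff_le_factorization hd0).2 h5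
      exact (hS.2 2 hpp h9).2 (by norm_num at h8; exact h8)
    have h7 : d.factorization 2 = 2 := by omega
    rw [h7]
    norm_num
  · rw [if_neg h2]
    have h3 : ¬ 2 ≤ d.factorization p := by
      intro h4
      exact h2 (hS.2 p hpp ((hpp.pow_dvd_iff_le_factorization hd0).2 h4)).1
    have h4 : d.factorization p = 1 := by omega
    rw [h4, pow_one]

theorem dT_eq {d : ℕ} [NeZero d] (hS : Sqf d) : dT d.primeFactors = d := by
  have hd0 : d ≠ 0 := NeZero.ne d
  have h1 : ∏ p ∈ d.primeFactors, p ^ d.factorization p = d := by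
    have := Nat.factorization_prod_pow_eq_self hd0
    rwa [Finsupp.prod, Nat.support_factorization] at this
  unfold dT
  calc ∏ p ∈ d.primeFactors, (if p = 2 then 4 else p)
      = ∏ p ∈ d.primeFactors, p ^ d.factorization p :=
        Finset.prod_congr rfl fun p hp => (pw hS hp).symm
    _ = d := h1

theorem dt_eq {d : ℕ} [NeZero d] (hS : Sqf d) {l : List ℕ} {q : ℕ} (hP : Pr l q)
    (hm : ∀ p, p ∈ q :: l ↔ p ∈ d.primeFactors) : dt l q = d := by
  have h1 : dt l q = ((q :: l).map fun p => if p = 2 then 4 else p).prod := by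
    rw [List.map_cons, List.prod_cons, if_neg hP.2.2.1]
    rfl
  have h2 : (q :: l).toFinset = d.primeFactors := by
    ext p
    rw [List.mem_toFinset]
    exact hm p
  rw [h1, ← List.prod_toFinset _ hP.1, h2]
  exact dT_eq hS

theorem ord_mul {m : ℕ} [NeZero m] (t : (ZMod m)ˣ) (x : ZMod m) :
    addOrderOf ((t : ZMod m) * x) = addOrderOf x :=
  addOrderOf_injective (AddMonoidHom.mulLeft (t : ZMod m)) (fun a b hab => by
    have h1 : (t : ZMod m) * a = t * b := hab
    exact (Units.mul_right_inj t).1 h1) x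

/-- the orders in the difference are smaller than `d` -/
theorem small {m d : ℕ} [NeZero m] [NeZero d] (f h : ZMod m → ℤ) (hf : ∀ x, f x ≠ 0 → addOrderOf x ≤ d)
    (h1 : ∀ x, addOrderOf x = d → h x = f x)
    (h2 : ∀ x, h x ≠ 0 → addOrderOf x = d ∨ ∃ p ∈ d.primeFactors, addOrderOf x = d / p) :
    ∀ x, f x - h x ≠ 0 → addOrderOf x < d := by
  intro x hx
  by_contra hcon
  have hge : d ≤ addOrderOf x := not_lt.1 hcon
  by_cases hfx : f x = 0
  · have hhx : h x ≠ 0 := by
      intro h0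
      rw [hfx, h0, sub_zero] at hx
      exact hx rfl
    rcases h2 x hhx with h3 | ⟨p, hp, h3⟩
    · rw [h1 x h3, sub_self] at hx
      exact hx rfl
    · have h4 : d / p < d := Nat.div_lt_self (Nat.pos_of_ne_zero (NeZero.ne d))
        (Nat.prime_of_mem_primeFactors hp).one_lt
      omega
  · have h3 : addOrderOf x = d := le_antisymm (hf x hfx) hge
    rw [h1 x h3, sub_self] at hx
    exact hx rfl

/-- the value of the functional is the value at the top level -/
theorem top_sum (hLamB : S_LamB) {m d : ℕ} [NeZero m] [NeZero d] (hdm : d ∣ m) {l : List ℕ} {q : ℕ}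
    (hP : Pr l q) (hd : dt l q = d) (f : ZMod m → ℤ) (hf : ∀ x, f x ≠ 0 → addOrderOf x ≤ d)
    (t : (ZMod m)ˣ) : ∑ x, f x * lam l q ((t : ZMod m) * x) =
      ∑ u : (ZMod d)ˣ, f (el m d u) * lam l q ((t : ZMod m) * el m d u) := by
  classical
  obtain ⟨-, h2, h3, -⟩ := hEl m d hdm
  have e5 : ∑ u : (ZMod d)ˣ, f (el m d u) * lam l q ((t : ZMod m) * el m d u) =
      ∑ x ∈ (univ : Finset (ZMod d)ˣ).image (el m d), f x * lam l q ((t : ZMod m) * x) := by
    rw [Finset.sum_image]
    intro u _ v _ huv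
    exact h2 u v huv
  rw [e5]
  symm
  refine Finset.sum_subset (Finset.subset_univ _) fun x _ hx => ?_
  by_contra hne
  have hfx : f x ≠ 0 := left_ne_zero_of_mul hne
  have hlx : lam l q ((t : ZMod m) * x) ≠ 0 := right_ne_zero_of_mul hne
  have h4 : dt l q ∣ addOrderOf ((t : ZMod m) * x) := (hLamB l q m hP).2.2.2.2 _ hlx
  rw [hd, ord_mul] at h4
  have h5 : addOrderOf x = d := le_antisymm (hf x hfx)
    (Nat.le_of_dvd (addOrderOf_pos x) h4)
  obtain ⟨u, hu⟩ := h3 x h5
  exact hx (Finset.mem_image.2 ⟨u, Finset.mem_univ _, hu⟩)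

/-- case 2a is impossible -/
theorem caseA (hLamB : S_LamB) (hEn : S_En) (hLamTop : S_LamTop) {m d : ℕ} [NeZero m] [NeZero d]
    (hdm : d ∣ m) (hS : Sqf d) (f : ZMod m → ℤ) (hf : ∀ x, f x ≠ 0 → addOrderOf x ≤ d)
    (hodd : ∀ u : (ZMod d)ˣ, f (el m d (-1 * u)) = -f (el m d u))
    (hTl : TlA d fun u => f (el m d u)) (hOd : OdP d fun u => f (el m d u))
    (q : ℕ) (l : List ℕ) (t : (ZMod m)ˣ) (hP : Pr l q)
    (hm : ∀ p, p ∈ q :: l ↔ p ∈ d.primeFactors)
    (hz : ∀ z : ℤ, ∑ x, f x * lam l q ((t : ZMod m) * x) = ((q : ℤ) - 1) * z → (2 : ℤ) ∣ z) : False := by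
  have hd : dt l q = d := dt_eq hS hP hm
  obtain ⟨-, -, hE3⟩ := hEn d
  obtain ⟨hprod, hE4⟩ := hE3 (q :: l) hP.1 hm
  obtain ⟨hIv, hKS⟩ := hE4 hS
  have hInd : Ind (Kp d) (q :: l) := (pKpBas d).1 (q :: l) hP.1 fun p hp => (hm p).1 hp
  have hF : ∀ a : (ZMod d)ˣ, (fun u : (ZMod d)ˣ => f (el m d u)) (((q :: l).map (en d)).prod * a) =
      -(fun u : (ZMod d)ˣ => f (el m d u)) a := by
    intro a
    rw [hprod]
    exact hodd a
  have hpar := (gParC (ZMod d)ˣ (Kp d) (en d) (q :: l) hP.1 hInd hIv hKS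
    (fun u => f (el m d u)) hF (hTl (q :: l) hm)).1 q List.mem_cons_self
  rw [List.erase_cons_head] at hpar
  obtain ⟨a, ha⟩ := hLamTop l q m d hP hd.symm hdm (fun u => f (el m d u)) hpar t
  have hOd2 := hOd (q :: l) hP.1 hm q List.mem_cons_self a
  rw [List.erase_cons_head] at hOd2
  exact hOd2 (hz _ ((top_sum hLamB hdm hP hd f hf t).trans ha))

end GStKAux

open GStKAux

theorem pStK (hLamB : S_LamB) (hEn : S_En) (hDcK : S_DcK) (hDcE : S_DcE) (hLamTop : S_LamTop)
    (hInA : S_InA) (hChkB : S_ChkB) : S_StK := by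
  intro m _ A Al hGd d _ hdm h1d h24 f hf hR hsup hChk
  have hd0 : d ≠ 0 := NeZero.ne d
  have hodd : ∀ g : ZMod m → ℤ, IsOdd g → ∀ u : (ZMod d)ˣ, g (el m d (-1 * u)) = -g (el m d u) := by
    intro g hg u
    rw [neg_one_mul, (hEl m d hdm).2.2.2.2.1 u, hg]
  have hTl : TlA d fun u => f (el m d u) := by
    refine pTopG m d hdm f hf hR fun x hx hdx => ?_
    exact le_antisymm (hsup x hx) (Nat.le_of_dvd (addOrderOf_pos x) hdx)
  rcases hDcK d h24 h1d (fun u => f (el m d u)) (hodd f hf) hTl with ⟨E, hE⟩ | ⟨hS, hcard, hOd⟩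
  · -- case 1
    obtain ⟨h, hh, heq, hs, -⟩ := pStepGen m d hdm h24 f E hE
    refine ⟨h, (hInA m A hGd.1 h h).1 hh, ((hHoBas m h h).1 hh).1, ((hHoBas m h h).1 hh).2,
      (hChkB m A Al hGd f hChk).1 h hh, small f h hsup heq hs⟩
  · -- case 2
    have hEss : Ess m d.primeFactors := by
      refine ⟨Nat.primeFactors_mono hdm (NeZero.ne m), fun h2 => ?_, ?_, hcard⟩
      · rcases h24 with h | h
        · exact absurd (Nat.dvd_of_mem_primeFactors h2) h
        · exact h.trans hdm
      · exact Nat.nonempty_primeFactors.2 h1d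
    by_cases hAl : Al d.primeFactors
    · obtain ⟨g, hgA, hgo, hgR, hgs, hgO⟩ := hGd.2.2 d.primeFactors hEss hAl
      have hdT : dT d.primeFactors = d := dT_eq hS
      have hgs' : ∀ x, g x ≠ 0 → addOrderOf x ∣ d := by
        intro x hx
        have := hgs x hx
        rwa [hdT] at this
      have hTlg : TlA d fun u => g (el m d u) :=
        pTopG m d hdm g hgo hgR fun x hx hdx => Nat.dvd_antisymm (hgs' x hx) hdx
      obtain ⟨E, hE⟩ := hDcE d hS (fun u => f (el m d u)) (fun u => g (el m d u)) (hodd f hf)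
        (hodd g hgo) hTl hTlg hOd (hgO d hdT.symm)
      obtain ⟨h1, hh, heq, hs, -⟩ := pStepGen m d hdm h24 (fun x => f x - g x) E hE
      have hh2 := (hHoBas m h1 h1).1 hh
      have hf1 : ∀ x, f x - g x ≠ 0 → addOrderOf x ≤ d := by
        intro x hx
        by_cases hfx : f x = 0
        · have hgx : g x ≠ 0 := by
            intro h0
            rw [hfx, h0, sub_zero] at hx
            exact hx rfl
          exact Nat.le_of_dvd (Nat.pos_of_ne_zero hd0) (hgs' x hgx)
        · exact hsup x hfx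
      have hChk1 : Chk Al fun x => f x - g x :=
        (hChkB m A Al hGd f hChk).2 d.primeFactors g hEss hAl hgs
      have hChk2 := (hChkB m A Al hGd (fun x => f x - g x) hChk1).1 h1 hh
      have hfun : (fun x => f x - (g x + h1 x)) = fun x => f x - g x - h1 x := by
        funext x
        rw [sub_add_eq_sub_sub]
      refine ⟨fun x => g x + h1 x, (hInA m A hGd.1 g h1).2.1 hgA ((hInA m A hGd.1 h1 h1).1 hh),
        fun x => ?_, fun t => ?_, ?_, fun x hx => ?_⟩
      · show g (-x) + h1 (-x) = -(g x + h1 x)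
        rw [hgo x, hh2.1 x, neg_add]
      · rw [P_add, hgR t, hh2.2 t, add_zero]
      · show Chk Al fun x => f x - (g x + h1 x)
        rw [hfun]
        exact hChk2
      · refine small (fun x => f x - g x) h1 hf1 heq hs x ?_
        show f x - g x - h1 x ≠ 0
        rw [← sub_add_eq_sub_sub]
        exact hx
    · exfalso
      obtain ⟨q, l, t, hP, hm, hz⟩ := hChk d.primeFactors hEss hAl
      exact caseA hLamB hEn hLamTop hdm hS f hsup (hodd f hf) hTl hOd q l t hP hm hz

end Pool.Agent.FO
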