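import Pool.Agent.Lib.MP_640417_ag.GT.SpecJ

/-!
# Theorem GT, part J: sums of products, basic facts
-/

set_option autoImplicit false

noncomputable section

namespace Pool.Agent.FO

open Finset Pool.Agent.FC

namespace GTmBasAux

theorem mk {ι : Type} [Fintype ι] {S : Finset ℕ} {N : ℕ} {f : (ℕ → ℤ → ℤ) → ℤ}
    (hN : Fintype.card ι = N) (sg : ι → ℤ) (b : ι → ℕ → ℤ) (h1 : ∀ i, |sg i| ≤ 1)
    (h2 : ∀ i, ∀ s ∈ S, IsCoprime (b i s) (s : ℤ))
    (h3 : ∀ I, f I = ∑ i, sg i * ∏ s ∈ S, I s (b i s)) : Tm S N f := by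
  have e : ι ≃ Fin N := Fintype.equivFinOfCardEq hN
  refine ⟨fun i => sg (e.symm i), fun i => b (e.symm i), fun i => h1 _, fun i => h2 _, fun I => ?_⟩
  rw [h3 I]
  exact (Equiv.sum_comp e.symm (fun i => sg i * ∏ s ∈ S, I s (b i s))).symm

theorem add (S : Finset ℕ) (N N' : ℕ) (f g : (ℕ → ℤ → ℤ) → ℤ) (hf : Tm S N f) (hg : Tm S N' g) :
    Tm S (N + N') fun I => f I + g I := by
  obtain ⟨sg, b, h1, h2, h3⟩ := hf
  obtain ⟨sg', b', h1', h2', h3'⟩ := hg
  refine mk (ι := Fin N ⊕ Fin N') (by simp) (Sum.elim sg sg') (Sum.elim b b') ?_ ?_ ?_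
  · rintro (i | i)
    · exact h1 i
    · exact h1' i
  · rintro (i | i)
    · exact h2 i
    · exact h2' i
  · intro I
    rw [Fintype.sum_sum_type, h3 I, h3' I]
    rfl

theorem zero (S : Finset ℕ) (N : ℕ) : Tm S N fun _ => 0 :=
  ⟨fun _ => 0, fun _ _ => 1, fun _ => by norm_num, fun _ _ _ => isCoprime_one_left, fun I => by
    simp⟩

theorem mul (S S' : Finset ℕ) (N N' : ℕ) (f g : (ℕ → ℤ → ℤ) → ℤ) (hf : Tm S N f)
    (hg : Tm S' N' g) (hd : Disjoint S S') : Tm (S ∪ S') (N * N') fun I => f I * g I := by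
  classical
  obtain ⟨sg, b, h1, h2, h3⟩ := hf
  obtain ⟨sg', b', h1', h2', h3'⟩ := hg
  refine mk (ι := Fin N × Fin N') (by simp) (fun x => sg x.1 * sg' x.2)
    (fun x s => if s ∈ S then b x.1 s else b' x.2 s) ?_ ?_ ?_
  · intro x
    rw [abs_mul]
    exact mul_le_one₀ (h1 _) (abs_nonneg _) (h1' _)
  · intro x s hs
    by_cases h : s ∈ S
    · rw [if_pos h]
      exact h2 _ s h
    · rw [if_neg h]
      exact h2' _ s ((Finset.mem_union.1 hs).resolve_left h)
  · intro I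
    rw [Fintype.sum_prod_type, h3 I, h3' I, Finset.sum_mul_sum]
    refine Finset.sum_congr rfl fun i _ => Finset.sum_congr rfl fun j _ => ?_
    rw [Finset.prod_union hd]
    have e1 : ∏ s ∈ S, I s (if s ∈ S then b i s else b' j s) = ∏ s ∈ S, I s (b i s) :=
      Finset.prod_congr rfl fun s hs => by rw [if_pos hs]
    have e2 : ∏ s ∈ S', I s (if s ∈ S then b i s else b' j s) = ∏ s ∈ S', I s (b' j s) :=
      Finset.prod_congr rfl fun s hs => by rw [if_neg (Finset.disjoint_right.1 hd hs)]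
    rw [e1, e2]
    ring

theorem sum (S : Finset ℕ) (J : Finset (Finset ℕ)) (n : Finset ℕ → ℕ)
    (F : Finset ℕ → (ℕ → ℤ → ℤ) → ℤ) :
    (∀ j ∈ J, Tm S (n j) (F j)) → Tm S (∑ j ∈ J, n j) fun I => ∑ j ∈ J, F j I := by
  classical
  induction J using Finset.induction_on with
  | empty =>
    intro _
    simp only [Finset.sum_empty]
    exact zero S 0
  | insert a J ha ih =>
    intro h
    simp only [Finset.sum_insert ha]
    exact add S _ _ _ _ (h a (Finset.mem_insert_self _ _))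
      (ih fun j hj => h j (Finset.mem_insert_of_mem hj))

theorem congr (S : Finset ℕ) (N : ℕ) (f g : (ℕ → ℤ → ℤ) → ℤ) (h : ∀ I, f I = g I)
    (hf : Tm S N f) : Tm S N g := by
  obtain ⟨sg, b, h1, h2, h3⟩ := hf
  exact ⟨sg, b, h1, h2, fun I => by rw [← h I, h3 I]⟩

end GTmBasAux

theorem pTmBas : S_TmBas := by
  intro S S' N N' f g
  refine ⟨GTmBasAux.add S N N' f g, GTmBasAux.mul S S' N N' f g, ?_, GTmBasAux.zero S N, ?_,
    GTmBasAux.sum S, ?_, GTmBasAux.congr S N f g⟩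
  · rintro c hc ⟨sg, b, h1, h2, h3⟩
    refine ⟨fun i => c * sg i, b, fun i => ?_, h2, fun I => ?_⟩
    · rw [abs_mul]
      exact mul_le_one₀ hc (abs_nonneg _) (h1 _)
    · simp only [h3 I, Finset.mul_sum, mul_assoc]
  · intro b hb
    refine ⟨fun _ => 1, fun _ => b, fun _ => by norm_num, fun _ => hb, fun I => ?_⟩
    simp
  · intro hN hf
    obtain ⟨k, rfl⟩ := Nat.exists_eq_add_of_le hN
    exact GTmBasAux.congr S (N + k) _ _ (fun I => add_zero _)
      (GTmBasAux.add S N k f (fun _ => 0) hf (GTmBasAux.zero S k))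

end Pool.Agent.FO
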