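import Pool.Agent.Lib.MP_640417_ag.GT.SpecJ

/-! Theorem GT, part J, module TmRf: terms of `Rf` (helper47). -/

set_option autoImplicit false

open Finset Pool.Agent.FC

namespace Pool.Agent.FO

private theorem GTmRf_cop {A : Finset ℕ} {r : ℕ} (hA : ∀ s ∈ A, s.Prime) (hr : r.Prime)
    (hrA : r ∉ A) : IsCoprime (pr A) (r : ℤ) := by
  unfold pr
  refine IsCoprime.prod_left fun s hs => ?_
  refine Nat.isCoprime_iff_coprime.2 ((Nat.coprime_primes (hA s hs) hr).2 ?_)
  rintro rfl
  exact hrA hs

/-- The number of the terms. -/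
private theorem GTmRf_num (A : Finset ℕ) : 1 + ∑ C ∈ A.ssubsets, nb C.card = nb A.card := by
  have h1 : ∑ C ∈ A.ssubsets, nb C.card + nb A.card = ∑ C ∈ A.powerset, nb C.card :=
    Finset.sum_erase_add A.powerset (fun C => nb C.card) (Finset.mem_powerset_self A)
  rw [Finset.sum_powerset_apply_card (fun j => nb j), Finset.sum_range_succ, Nat.choose_self,
    one_smul] at h1
  have h2 := nb_eq A.card
  simp only [smul_eq_mul] at h1
  omega

theorem pTmRf (hTmBas : S_TmBas) : S_TmRf := by
  intro c p A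
  induction A using Finset.strongInduction with
  | H A ih =>
    intro hp hA hpA hc
    have hpr : ∀ s ∈ insert p A, s.Prime := by
      intro s hs
      rcases Finset.mem_insert.1 hs with rfl | h
      · exact hp
      · exact hA s h
    have hcop : ∀ s ∈ insert p A, IsCoprime (c * pr (A.erase s)) (s : ℤ) := fun s hs =>
      (hc s hs).mul_left (GTmRf_cop (fun t ht => hA t (Finset.mem_of_mem_erase ht)) (hpr s hs)
        (Finset.notMem_erase s A))
    -- the first term
    have t1 : Tm (insert p A) 1 fun I => (-1) ^ A.card *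
        ∏ s ∈ insert p A, I s (c * pr (A.erase s)) :=
      (hTmBas (insert p A) ∅ 1 0 (fun I => ∏ s ∈ insert p A, I s (c * pr (A.erase s)))
        (fun _ => 0)).2.2.1 ((-1) ^ A.card) (by rw [abs_pow, abs_neg, abs_one, one_pow])
        ((hTmBas (insert p A) ∅ 0 0 (fun _ => 0) (fun _ => 0)).2.2.2.2.1 _ hcop)
    -- the other terms
    have t2 : ∀ C ∈ A.ssubsets, Tm (insert p A) (nb C.card) fun I => (-1) ^ ((A \ C).card + 1) *
        ((∏ s ∈ A \ C, I s (c * pr (A.erase s))) * Rf I c p C) := by
      intro C hC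
      have hCA : C ⊂ A := Finset.mem_ssubsets.1 hC
      have u1 := ih C hCA hp (fun s hs => hA s (hCA.1 hs)) (fun h => hpA (hCA.1 h))
        (fun s hs => hc s (Finset.insert_subset_insert p hCA.1 hs))
      have u2 : Tm (A \ C) 1 fun I => ∏ s ∈ A \ C, I s (c * pr (A.erase s)) :=
        (hTmBas (A \ C) ∅ 0 0 (fun _ => 0) (fun _ => 0)).2.2.2.2.1 _
          fun s hs => hcop s (Finset.mem_insert_of_mem (Finset.mem_sdiff.1 hs).1)
      have u3 := (hTmBas (A \ C) (insert p C) 1 (nb C.card)
        (fun I => ∏ s ∈ A \ C, I s (c * pr (A.erase s))) (fun I => Rf I c p C)).2.1 u2 u1 (by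
          rw [Finset.disjoint_left]
          intro s hs hs'
          rcases Finset.mem_insert.1 hs' with rfl | h
          · exact hpA (Finset.mem_sdiff.1 hs).1
          · exact (Finset.mem_sdiff.1 hs).2 h)
      have e1 : A \ C ∪ insert p C = insert p A := by
        ext s
        simp only [Finset.mem_union, Finset.mem_sdiff, Finset.mem_insert]
        constructor
        · rintro (⟨h1, -⟩ | h1 | h1)
          · exact Or.inr h1
          · exact Or.inl h1
          · exact Or.inr (hCA.1 h1)
        · rintro (h1 | h1)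
          · exact Or.inr (Or.inl h1)
          · by_cases h2 : s ∈ C
            · exact Or.inr (Or.inr h2)
            · exact Or.inl ⟨h1, h2⟩
      rw [e1, one_mul] at u3
      exact (hTmBas (insert p A) ∅ (nb C.card) 0
        (fun I => (∏ s ∈ A \ C, I s (c * pr (A.erase s))) * Rf I c p C) (fun _ => 0)).2.2.1
        ((-1) ^ ((A \ C).card + 1)) (by rw [abs_pow, abs_neg, abs_one, one_pow]) u3
    have t3 := (hTmBas (insert p A) ∅ 0 0 (fun _ => 0) (fun _ => 0)).2.2.2.2.2.1 A.ssubsets
      (fun C => nb C.card) (fun C I => (-1) ^ ((A \ C).card + 1) *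
        ((∏ s ∈ A \ C, I s (c * pr (A.erase s))) * Rf I c p C)) t2
    have t4 := (hTmBas (insert p A) ∅ 1 (∑ C ∈ A.ssubsets, nb C.card)
      (fun I => (-1) ^ A.card * ∏ s ∈ insert p A, I s (c * pr (A.erase s)))
      (fun I => ∑ C ∈ A.ssubsets, (-1) ^ ((A \ C).card + 1) *
        ((∏ s ∈ A \ C, I s (c * pr (A.erase s))) * Rf I c p C))).1 t1 t3
    rw [GTmRf_num] at t4
    refine (hTmBas (insert p A) ∅ (nb A.card) 0 _ (fun I => Rf I c p A)).2.2.2.2.2.2.2 ?_ t4
    intro I
    rw [Rf_eq I c p A, Finset.prod_insert hpA, Finset.erase_eq_of_notMem hpA]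
    refine congrArg₂ _ rfl (Finset.sum_congr rfl fun C _ => ?_)
    rw [mul_assoc]

end Pool.Agent.FO
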