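import Pool.Agent.Lib.MP_640417_ag.GT.SpecJ

/-!
# Theorem GT, part J, module TmUps: terms of `ups`
-/

set_option autoImplicit false

noncomputable section

namespace Pool.Agent.FO

open Finset Pool.Agent.FC

namespace GTmUpsAux

theorem pr_cop {A : Finset ℕ} {s : ℕ} (hA : ∀ t ∈ A, t.Prime) (hs : s.Prime) (h : s ∉ A) :
    IsCoprime (pr A) (s : ℤ) := by
  unfold pr
  refine IsCoprime.prod_left ?_
  intro t ht
  rw [Nat.isCoprime_iff_coprime]
  refine (Nat.coprime_primes (hA t ht) hs).2 ?_
  rintro rfl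
  exact h ht

theorem key (hTmBas : S_TmBas) (hTmRf : S_TmRf) (p : ℕ) (T : List ℕ)
    (ih : ∀ (c : ℤ) (L : Finset ℕ), T.Nodup → (∀ s ∈ T, s.Prime) → (∀ s ∈ L, s.Prime) →
      (∀ s ∈ T, s ∉ L) → (∀ s ∈ T.toFinset ∪ L, IsCoprime c (s : ℤ)) →
      Tm (T.toFinset ∪ L) (nc T.length L.card) fun I => ups I T c L)
    (c : ℤ) (L : Finset ℕ) (hnd : (p :: T).Nodup) (hT : ∀ s ∈ p :: T, s.Prime)
    (hL : ∀ s ∈ L, s.Prime) (hTL : ∀ s ∈ p :: T, s ∉ L)
    (hc : ∀ s ∈ (p :: T).toFinset ∪ L, IsCoprime c (s : ℤ)) :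
    Tm ((p :: T).toFinset ∪ L)
      (∑ j ∈ range (L.card + 1), L.card.choose j * nb j * nc T.length (L.card - j))
      (fun I => ∑ A ∈ L.powerset, Rf I c p A * ups I T (c * pr A) (L \ A)) := by
  have hp : p.Prime := hT p List.mem_cons_self
  have hpL : p ∉ L := hTL p List.mem_cons_self
  have hpT : p ∉ T := (List.nodup_cons.1 hnd).1
  have hTn : T.Nodup := (List.nodup_cons.1 hnd).2
  have hsum : (∑ j ∈ range (L.card + 1), L.card.choose j * nb j * nc T.length (L.card - j)) =
      ∑ A ∈ L.powerset, nb A.card * nc T.length (L.card - A.card) := by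
    have h := Finset.sum_powerset_apply_card (x := L) (fun j => nb j * nc T.length (L.card - j))
    rw [h]
    refine Finset.sum_congr rfl ?_
    intro j _
    rw [smul_eq_mul, mul_assoc]
  rw [hsum]
  refine (hTmBas ((p :: T).toFinset ∪ L) ∅ 0 0 (fun _ => 0) (fun _ => 0)).2.2.2.2.2.1 L.powerset
    (fun A => nb A.card * nc T.length (L.card - A.card))
    (fun A I => Rf I c p A * ups I T (c * pr A) (L \ A)) ?_
  intro A hA
  have hAL : A ⊆ L := Finset.mem_powerset.1 hA
  have hcard : (L \ A).card = L.card - A.card := Finset.card_sdiff_of_subset hAL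
  have hpA : p ∉ A := fun h => hpL (hAL h)
  have h1 : Tm (insert p A) (nb A.card) fun I => Rf I c p A := by
    refine hTmRf c p A hp (fun s hs => hL s (hAL hs)) hpA ?_
    intro s hs
    refine hc s ?_
    rcases Finset.mem_insert.1 hs with h | h
    · subst h
      exact Finset.mem_union_left _ (by simp)
    · exact Finset.mem_union_right _ (hAL h)
  have h2 : Tm (T.toFinset ∪ (L \ A)) (nc T.length (L.card - A.card)) fun I =>
      ups I T (c * pr A) (L \ A) := by
    rw [← hcard]
    refine ih (c * pr A) (L \ A) hTn (fun s hs => hT s (List.mem_cons_of_mem _ hs))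
      (fun s hs => hL s (Finset.mem_sdiff.1 hs).1)
      (fun s hs h => hTL s (List.mem_cons_of_mem _ hs) (Finset.mem_sdiff.1 h).1) ?_
    intro s hs
    rcases Finset.mem_union.1 hs with h | h
    · have h' : s ∈ T := List.mem_toFinset.1 h
      refine IsCoprime.mul_left (hc s (Finset.mem_union_left _
        (List.mem_toFinset.2 (List.mem_cons_of_mem _ h')))) ?_
      exact pr_cop (fun t ht => hL t (hAL ht)) (hT s (List.mem_cons_of_mem _ h'))
        (fun h3 => hTL s (List.mem_cons_of_mem _ h') (hAL h3))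
    · have h' := Finset.mem_sdiff.1 h
      refine IsCoprime.mul_left (hc s (Finset.mem_union_right _ h'.1)) ?_
      exact pr_cop (fun t ht => hL t (hAL ht)) (hL s h'.1) h'.2
  have hdis : Disjoint (insert p A) (T.toFinset ∪ (L \ A)) := by
    rw [Finset.disjoint_left]
    intro s hs hs'
    rcases Finset.mem_insert.1 hs with h | h
    · subst h
      rcases Finset.mem_union.1 hs' with h' | h'
      · exact hpT (List.mem_toFinset.1 h')
      · exact hpL (Finset.mem_sdiff.1 h').1
    · rcases Finset.mem_union.1 hs' with h' | h'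
      · exact hTL s (List.mem_cons_of_mem _ (List.mem_toFinset.1 h')) (hAL h)
      · exact (Finset.mem_sdiff.1 h').2 h
  have hun : insert p A ∪ (T.toFinset ∪ (L \ A)) = (p :: T).toFinset ∪ L := by
    ext s
    simp only [Finset.mem_union, Finset.mem_insert, Finset.mem_sdiff, List.mem_toFinset,
      List.mem_cons]
    constructor
    · rintro ((h | h) | (h | h))
      · exact Or.inl (Or.inl h)
      · exact Or.inr (hAL h)
      · exact Or.inl (Or.inr h)
      · exact Or.inr h.1
    · rintro ((h | h) | h)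
      · exact Or.inl (Or.inl h)
      · exact Or.inr (Or.inl h)
      · by_cases hsA : s ∈ A
        · exact Or.inl (Or.inr hsA)
        · exact Or.inr (Or.inr ⟨h, hsA⟩)
  have h3 := (hTmBas (insert p A) (T.toFinset ∪ (L \ A)) (nb A.card)
    (nc T.length (L.card - A.card)) (fun I => Rf I c p A)
    (fun I => ups I T (c * pr A) (L \ A))).2.1 h1 h2 hdis
  rw [hun] at h3
  exact h3

end GTmUpsAux

theorem pTmUps (hTmBas : S_TmBas) (hTmRf : S_TmRf) : S_TmUps := by
  intro T
  induction T with
  | nil =>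
    intro c L _ _ _ _ _
    rw [List.toFinset_nil, Finset.empty_union, List.length_nil]
    by_cases hL : L = ∅
    · subst hL
      have h := (hTmBas ∅ ∅ 1 1 (fun _ => 0) (fun _ => 0)).2.2.2.2.1 (fun _ => 1) (by simp)
      have h0 : nc 0 (∅ : Finset ℕ).card = 1 := by simp [nc]
      rw [h0]
      refine (hTmBas ∅ ∅ 1 1 _ _).2.2.2.2.2.2.2 ?_ h
      intro I
      simp [ups]
    · have h0 : nc 0 L.card = 0 := by simp [nc, hL]
      rw [h0]
      refine (hTmBas L L 0 0 _ _).2.2.2.2.2.2.2 ?_
        ((hTmBas L L 0 0 (fun _ => 0) (fun _ => 0)).2.2.2.1)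
      intro I
      simp [ups, hL]
  | cons p T ih =>
    intro c L hnd hT hL hTL hc
    have k1 := GTmUpsAux.key hTmBas hTmRf p T ih c L hnd hT hL hTL hc
    have k2 := GTmUpsAux.key hTmBas hTmRf p T ih (-c) L hnd hT hL hTL
      (fun s hs => (hc s hs).neg_left)
    have k3 := (hTmBas ((p :: T).toFinset ∪ L) ∅ _ 0 _ (fun _ => 0)).2.2.1
      ((-1) ^ (T.length + 1)) (by rw [abs_pow, abs_neg, abs_one, one_pow]) k2
    have k4 := (hTmBas ((p :: T).toFinset ∪ L) ∅ _ _ _ _).1 k1 k3
    have hn : nc (p :: T).length L.card =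
        (∑ j ∈ range (L.card + 1), L.card.choose j * nb j * nc T.length (L.card - j)) +
        ∑ j ∈ range (L.card + 1), L.card.choose j * nb j * nc T.length (L.card - j) := by
      rw [List.length_cons, nc, two_mul]
    rw [hn]
    exact k4

end Pool.Agent.FO
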