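import Pool.Agent.Lib.MP_640417_ag.GT.SpecJ

/-!
# Theorem GT, part J: sums of products, linearity in one factor, bound
-/

set_option autoImplicit false

noncomputable section

namespace Pool.Agent.FO

open Finset Pool.Agent.FC

theorem pTmUse : S_TmUse := by
  classical
  rintro S N f ⟨sg, b, h1, h2, h3⟩
  refine ⟨?_, ?_, ?_⟩
  · intro J I I0 r hr hI hsum
    have e : ∀ j ∈ J, f (I j) = ∑ i, sg i * (I j r (b i r) * ∏ s ∈ S.erase r, I0 s (b i s)) := by
      intro j hj
      rw [h3 (I j)]
      refine Finset.sum_congr rfl fun i _ => ?_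
      rw [← Finset.mul_prod_erase S (fun s => I j s (b i s)) hr]
      congr 2
      refine Finset.prod_congr rfl fun s hs => ?_
      have hs' := Finset.mem_erase.1 hs
      exact hI j hj s hs'.2 hs'.1 _ (h2 i s hs'.2)
    rw [Finset.sum_congr rfl e, Finset.sum_comm, h3 I0]
    refine Finset.sum_congr rfl fun i _ => ?_
    rw [← Finset.mul_sum, ← Finset.sum_mul, hsum _ (h2 i r hr),
      ← Finset.mul_prod_erase S (fun s => I0 s (b i s)) hr]
  · intro I I0 h
    rw [h3 I, h3 I0]
    refine Finset.sum_congr rfl fun i _ => ?_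
    congr 1
    exact Finset.prod_congr rfl fun s hs => h s hs _ (h2 i s hs)
  · intro V _ I B hB
    have e : ∀ v : V, |f (I v)| ≤ ∑ i, |∏ s ∈ S, I v s (b i s)| := by
      intro v
      rw [h3 (I v)]
      refine (Finset.abs_sum_le_sum_abs _ _).trans (Finset.sum_le_sum fun i _ => ?_)
      rw [abs_mul]
      exact mul_le_of_le_one_left (abs_nonneg _) (h1 i)
    calc ∑ v, |f (I v)| ≤ ∑ v, ∑ i, |∏ s ∈ S, I v s (b i s)| :=
          Finset.sum_le_sum fun v _ => e v
      _ = ∑ i, ∑ v, |∏ s ∈ S, I v s (b i s)| := Finset.sum_comm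
      _ ≤ ∑ _i : Fin N, B := Finset.sum_le_sum fun i _ => hB (b i)
      _ = N * B := by
        rw [Finset.sum_const, Finset.card_univ, Fintype.card_fin, nsmul_eq_mul]

end Pool.Agent.FO
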