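import Pool.Agent.Lib.MP_640417_ag.GT.SpecJ

set_option autoImplicit false

open Finset Pool.Agent.FC

namespace Pool.Agent.FO

namespace GUpsBAux

theorem ups_cons (I : ℕ → ℤ → ℤ) (p : ℕ) (T : List ℕ) (c : ℤ) (L : Finset ℕ) :
    ups I (p :: T) c L = ∑ A ∈ L.powerset, Rf I c p A * ups I T (c * pr A) (L \ A) +
      (-1) ^ (T.length + 1) * ∑ A ∈ L.powerset, Rf I (-c) p A * ups I T (-c * pr A) (L \ A) := by
  rw [ups]

theorem ups_nil (I : ℕ → ℤ → ℤ) (c : ℤ) (L : Finset ℕ) :
    ups I [] c L = if L = ∅ then 1 else 0 := by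
  rw [ups]

theorem sq1 (k : ℕ) : ((-1 : ℤ)) ^ k * (-1) ^ k = 1 := by
  rw [← mul_pow]; simp

/-- (1) sign -/
theorem sign (I : ℕ → ℤ → ℤ) (T : List ℕ) (c : ℤ) (L : Finset ℕ) :
    ups I T (-c) L = (-1) ^ T.length * ups I T c L := by
  cases T with
  | nil => rw [ups_nil, ups_nil]; simp
  | cons p T =>
    rw [ups_cons, ups_cons, List.length_cons]
    have e := sq1 (T.length + 1)
    rw [neg_neg]
    rw [mul_add, ← mul_assoc, e, one_mul, add_comm]

/-- (2) scaling for `Rf` -/
theorem scR (I I' : ℕ → ℤ → ℤ) (a : ℤ) (h : ∀ s b, I' s b = I s (a * b)) (c : ℤ) (p : ℕ) (A : Finset ℕ) :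
    Rf I' c p A = Rf I (a * c) p A := by
  induction A using Finset.strongInduction with
  | H A ih =>
    rw [Rf_eq, Rf_eq]
    congr 1
    · congr 1
      rw [h, mul_assoc]
      congr 1
      exact Finset.prod_congr rfl fun s _ => by rw [h, mul_assoc]
    · refine Finset.sum_congr rfl fun C hC => ?_
      rw [ih C (Finset.mem_ssubsets.1 hC)]
      congr 2
      exact Finset.prod_congr rfl fun s _ => by rw [h, mul_assoc]

/-- (3) scaling for `ups` -/
theorem scU (I I' : ℕ → ℤ → ℤ) (a : ℤ) (h : ∀ s b, I' s b = I s (a * b)) (T : List ℕ) :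
    ∀ (c : ℤ) (L : Finset ℕ), ups I' T c L = ups I T (a * c) L := by
  induction T with
  | nil => intro c L; rw [ups_nil, ups_nil]
  | cons p T ih =>
    intro c L
    rw [ups_cons, ups_cons]
    congr 1
    · refine Finset.sum_congr rfl fun A _ => ?_
      rw [scR I I' a h, ih, mul_assoc]
    · congr 1
      refine Finset.sum_congr rfl fun A _ => ?_
      rw [scR I I' a h, ih]
      congr 2
      · ring
      · ring

/-- (4) for `Rf` -/
theorem cgR (I I' : ℕ → ℤ → ℤ) (c : ℤ) (p : ℕ) (A : Finset ℕ) :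
    (∀ s, s = p ∨ s ∈ A → I' s = I s) → Rf I' c p A = Rf I c p A := by
  induction A using Finset.strongInduction with
  | H A ih =>
    intro h
    rw [Rf_eq, Rf_eq]
    congr 1
    · congr 1
      rw [h p (Or.inl rfl)]
      congr 1
      exact Finset.prod_congr rfl fun s hs => by rw [h s (Or.inr hs)]
    · refine Finset.sum_congr rfl fun C hC => ?_
      have hC' := Finset.mem_ssubsets.1 hC
      rw [ih C hC' fun s hs => h s (hs.imp id fun hs => hC'.1 hs)]
      congr 2
      exact Finset.prod_congr rfl fun s hs => by rw [h s (Or.inr (Finset.mem_sdiff.1 hs).1)]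

/-- (4) for `ups` -/
theorem cgU (I I' : ℕ → ℤ → ℤ) (T : List ℕ) :
    ∀ (c : ℤ) (L : Finset ℕ), (∀ s, s ∈ T ∨ s ∈ L → I' s = I s) → ups I' T c L = ups I T c L := by
  induction T with
  | nil => intro c L _; rw [ups_nil, ups_nil]
  | cons p T ih =>
    intro c L h
    rw [ups_cons, ups_cons]
    have key : ∀ (d : ℤ) (A : Finset ℕ), A ∈ L.powerset →
        Rf I' d p A * ups I' T (d * pr A) (L \ A) = Rf I d p A * ups I T (d * pr A) (L \ A) := by
      intro d A hA
      have hA' := Finset.mem_powerset.1 hA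
      rw [cgR I I' d p A fun s hs => ?_, ih (d * pr A) (L \ A) fun s hs => ?_]
      · rcases hs with hs | hs
        · exact h s (Or.inl (List.mem_cons_of_mem p hs))
        · exact h s (Or.inr (Finset.mem_sdiff.1 hs).1)
      · rcases hs with hs | hs
        · exact h s (Or.inl (by rw [hs]; exact List.mem_cons_self))
        · exact h s (Or.inr (hA' hs))
    congr 1
    · exact Finset.sum_congr rfl fun A hA => key c A hA
    · congr 1
      exact Finset.sum_congr rfl fun A hA => key (-c) A hA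

theorem Rf_empty (I : ℕ → ℤ → ℤ) (c : ℤ) (p : ℕ) : Rf I c p ∅ = I p c := by
  rw [Rf_eq]
  have h1 : (∅ : Finset ℕ).ssubsets = ∅ := by decide
  rw [h1]
  simp [pr]

/-- (5) the empty set -/
theorem emp (I : ℕ → ℤ → ℤ) (T : List ℕ) :
    ∀ c : ℤ, ups I T c ∅ = (T.map fun p => I p c - I p (-c)).prod := by
  induction T with
  | nil => intro c; rw [ups_nil]; simp
  | cons p T ih =>
    intro c
    rw [ups_cons, Finset.powerset_empty, Finset.sum_singleton, Finset.sum_singleton, Rf_empty, Rf_empty]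
    have h1 : pr ∅ = 1 := by simp [pr]
    rw [h1, mul_one, mul_one, Finset.empty_sdiff, sign, ih c, List.map_cons, List.prod_cons]
    have e := sq1 T.length
    rw [pow_succ]
    generalize (T.map fun p => I p c - I p (-c)).prod = U at *
    generalize ((-1 : ℤ)) ^ T.length = w at *
    linear_combination (-(I p (-c)) * U) * e

end GUpsBAux

open GUpsBAux in
theorem pUpsB : S_UpsB := by
  intro I I' T c L
  exact ⟨sign I T c L, fun a h p A => scR I I' a h c p A, fun a h => scU I I' a h T c L,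
    fun h => cgU I I' T c L h, emp I T c⟩

end Pool.Agent.FO
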