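import Pool.Agent.Lib.MP_640417_ag.GT.SpecJ

/-! Theorem GT, part J, module UpsL: a prime of `L` drops out (helper47). -/

set_option autoImplicit false

open Finset Pool.Agent.FC

namespace Pool.Agent.FO

private theorem GUpsL_cop {A : Finset ℕ} {r : ℕ} (hA : ∀ s ∈ A, s.Prime) (hr : r.Prime)
    (hrA : r ∉ A) : IsCoprime (pr A) (r : ℤ) := by
  unfold pr
  refine IsCoprime.prod_left fun s hs => ?_
  refine Nat.isCoprime_iff_coprime.2 ((Nat.coprime_primes (hA s hs) hr).2 ?_)
  rintro rfl
  exact hrA hs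

/-- The sum over the subsets. -/
private theorem GUpsL_step (hRfOne : S_RfOne) (I : ℕ → ℤ → ℤ) (T : List ℕ) (p r : ℕ)
    (L' : Finset ℕ) (hL : ∀ s ∈ L', s.Prime) (hr : r.Prime) (hrL : r ∉ L') (hpr : p ≠ r)
    (hI : ∀ b : ℤ, IsCoprime b (r : ℤ) → I r b = 1)
    (ih : ∀ (c : ℤ) (L : Finset ℕ), (∀ s ∈ L, s.Prime) → r ∈ L → IsCoprime c (r : ℤ) →
      ups I T c L = ups I T c (L.erase r) - ups I T (r * c) (L.erase r))
    (c : ℤ) (hc : IsCoprime c (r : ℤ)) :
    ∑ A ∈ (insert r L').powerset, Rf I c p A * ups I T (c * pr A) (insert r L' \ A) =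
      ∑ A ∈ L'.powerset, Rf I c p A * ups I T (c * pr A) (L' \ A) -
      ∑ A ∈ L'.powerset, Rf I (r * c) p A * ups I T (r * c * pr A) (L' \ A) := by
  rw [Finset.sum_powerset_insert hrL, ← Finset.sum_add_distrib, ← Finset.sum_sub_distrib]
  refine Finset.sum_congr rfl fun A hA => ?_
  have hAL : A ⊆ L' := Finset.mem_powerset.1 hA
  have hrA : r ∉ A := fun h => hrL (hAL h)
  have e1 : (insert r L' \ A).erase r = L' \ A := by
    ext x
    simp only [Finset.mem_erase, Finset.mem_sdiff, Finset.mem_insert]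
    constructor
    · rintro ⟨h1, h2 | h2, h3⟩
      · exact absurd h2 h1
      · exact ⟨h2, h3⟩
    · rintro ⟨h1, h2⟩
      exact ⟨fun h => hrL (h ▸ h1), Or.inr h1, h2⟩
  have e2 : insert r L' \ insert r A = L' \ A := by
    ext x
    simp only [Finset.mem_sdiff, Finset.mem_insert, not_or]
    constructor
    · rintro ⟨h2 | h2, h3, h4⟩
      · exact absurd h2 h3
      · exact ⟨h2, h4⟩
    · rintro ⟨h1, h2⟩
      exact ⟨Or.inr h1, fun h => hrL (h ▸ h1), h2⟩
  have h1 := ih (c * pr A) (insert r L' \ A) (by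
    intro s hs
    rcases Finset.mem_insert.1 (Finset.mem_sdiff.1 hs).1 with rfl | h
    · exact hr
    · exact hL s h) (Finset.mem_sdiff.2 ⟨Finset.mem_insert_self _ _, hrA⟩)
    (hc.mul_left (GUpsL_cop (fun s hs => hL s (hAL hs)) hr hrA))
  have h2 := hRfOne I c p (insert r A) r (by
    intro s hs
    rcases Finset.mem_insert.1 hs with rfl | h
    · exact hr
    · exact hL s (hAL h)) (Finset.mem_insert_self _ _) hpr hI hc
  have h3 : pr (insert r A) = r * pr A := by
    unfold pr
    rw [Finset.prod_insert hrA]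
  rw [Finset.erase_insert hrA] at h2
  rw [h1, h2, h3, e1, e2, show (r : ℤ) * (c * pr A) = r * c * pr A by ring,
    show c * ((r : ℤ) * pr A) = r * c * pr A by ring]
  ring

theorem pUpsL (hRfOne : S_RfOne) : S_UpsL := by
  intro I T
  induction T with
  | nil =>
    intro c L r hL hrL hrT hI hc
    have h1 : L ≠ ∅ := fun h => by rw [h] at hrL; exact absurd hrL (Finset.notMem_empty r)
    simp only [ups]
    rw [if_neg h1, sub_self]
  | cons p T ih =>
    intro c L r hL hrL hrT hI hc
    have hpr : p ≠ r := fun h => hrT (by rw [h]; exact List.mem_cons_self)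
    have hrT' : r ∉ T := fun h => hrT (List.mem_cons_of_mem _ h)
    have hr : r.Prime := hL r hrL
    have key := GUpsL_step hRfOne I T p r (L.erase r) (fun s hs => hL s (Finset.mem_of_mem_erase hs))
      hr (Finset.notMem_erase r L) hpr hI
      (fun c L hL hrL hc => ih c L r hL hrL hrT' hI hc)
    have k1 := key c hc
    have k2 := key (-c) hc.neg_left
    rw [Finset.insert_erase hrL] at k1 k2
    rw [mul_neg] at k2
    simp only [ups]
    rw [k1, k2]
    ring

end Pool.Agent.FO
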