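import Pool.Agent.Lib.MP_640417_ag.GT.SpecJ

/-!
# Theorem GT, part J: a prime of `T` drops out
-/

set_option autoImplicit false

noncomputable section

namespace Pool.Agent.FO

open Finset Pool.Agent.FC

namespace GUpsTAux

theorem cop_pr (A : Finset ℕ) (r : ℕ) (hr : r.Prime) (hA : ∀ s ∈ A, s.Prime) (hrA : r ∉ A) :
    IsCoprime (pr A) (r : ℤ) := by
  unfold pr
  apply IsCoprime.prod_left
  intro s hs
  rw [Nat.isCoprime_iff_coprime]
  exact (Nat.coprime_primes (hA s hs) hr).2 (fun h => hrA (h ▸ hs))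

theorem one_term (hRfP : S_RfP) (I : ℕ → ℤ → ℤ) (T : List ℕ) (c : ℤ) (L : Finset ℕ) (p : ℕ)
    (hL : ∀ s ∈ L, s.Prime) (hp : p.Prime) (hpL : p ∉ L)
    (hI : ∀ b : ℤ, IsCoprime b (p : ℤ) → I p b = 1) (hc : IsCoprime c (p : ℤ)) :
    ∑ A ∈ L.powerset, Rf I c p A * ups I T (c * pr A) (L \ A) = ups I T c L := by
  rw [Finset.sum_eq_single ∅]
  · rw [hRfP I c p ∅ hp (by simp) (by simp) hI hc, if_pos rfl, one_mul]
    unfold pr
    rw [Finset.prod_empty, mul_one, Finset.sdiff_empty]
  · intro A hA hA0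
    have hAL := Finset.mem_powerset.1 hA
    rw [hRfP I c p A hp (fun s hs => hL s (hAL hs)) (fun h => hpL (hAL h)) hI hc, if_neg hA0,
      zero_mul]
  · intro h
    exact absurd (Finset.empty_mem_powerset L) h

end GUpsTAux

open GUpsTAux in
theorem pUpsT (hRfP : S_RfP) (hUpsB : S_UpsB) : S_UpsT := by
  intro I T
  induction T with
  | nil =>
    intro c L r _ _ _ _ hr
    exact absurd hr (by simp)
  | cons p T ih =>
    intro c L r hL hT hnd hTL hr hI hc
    have hrL : r ∉ L := hTL r hr
    have hrp : r.Prime := hT r hr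
    have hnd' := List.nodup_cons.1 hnd
    change ∑ A ∈ L.powerset, Rf I c p A * ups I T (c * pr A) (L \ A) +
      (-1) ^ (T.length + 1) * ∑ A ∈ L.powerset, Rf I (-c) p A * ups I T (-c * pr A) (L \ A) = 0
    rcases List.mem_cons.1 hr with h | h
    · subst h
      rw [one_term hRfP I T c L r hL hrp hrL hI hc,
        one_term hRfP I T (-c) L r hL hrp hrL hI hc.neg_left, (hUpsB I I T c L).1, ← mul_assoc,
        ← pow_add]
      have e : (-1 : ℤ) ^ (T.length + 1 + T.length) = -1 := by
        rw [show T.length + 1 + T.length = 2 * T.length + 1 by ring, pow_succ, pow_mul]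
        norm_num
      rw [e]
      ring
    · have key : ∀ d : ℤ, IsCoprime d (r : ℤ) →
          ∑ A ∈ L.powerset, Rf I d p A * ups I T (d * pr A) (L \ A) = 0 := by
        intro d hd
        apply Finset.sum_eq_zero
        intro A hA
        have hAL := Finset.mem_powerset.1 hA
        rw [ih (d * pr A) (L \ A) r (fun s hs => hL s (Finset.mem_sdiff.1 hs).1)
          (fun s hs => hT s (List.mem_cons_of_mem p hs)) hnd'.2
          (fun s hs h' => hTL s (List.mem_cons_of_mem p hs) (Finset.mem_sdiff.1 h').1) h hI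
          (hd.mul_left (cop_pr A r hrp (fun s hs => hL s (hAL hs)) (fun h' => hrL (hAL h')))),
          mul_zero]
      rw [key c hc, key (-c) hc.neg_left, mul_zero, add_zero]

end Pool.Agent.FO
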