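import Pool.Agent.Lib.MP_640417_ag.GT.RfOne
import Pool.Agent.Lib.MP_640417_ag.GT.RfP
import Pool.Agent.Lib.MP_640417_ag.GT.UpsB
import Pool.Agent.Lib.MP_640417_ag.GT.UpsL
import Pool.Agent.Lib.MP_640417_ag.GT.UpsT
import Pool.Agent.Lib.MP_640417_ag.GT.TmBas
import Pool.Agent.Lib.MP_640417_ag.GT.TmUse
import Pool.Agent.Lib.MP_640417_ag.GT.TmRf
import Pool.Agent.Lib.MP_640417_ag.GT.TmUps
import Pool.Agent.Lib.MP_640417_ag.GT.PhBas
import Pool.Agent.Lib.MP_640417_ag.GT.PhR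
import Pool.Agent.Lib.MP_640417_ag.GT.PhQ
import Pool.Agent.Lib.MP_640417_ag.GT.LamB
import Pool.Agent.Lib.MP_640417_ag.GT.LamR
import Pool.Agent.Lib.MP_640417_ag.GT.LamHo
import Pool.Agent.Lib.MP_640417_ag.GT.Cnt
import Pool.Agent.Lib.MP_640417_ag.GT.Mean
import Pool.Agent.Lib.MP_640417_ag.GT.LamAv
import Pool.Agent.Lib.MP_640417_ag.GT.LamT
import Pool.Agent.Lib.MP_640417_ag.GT.NcR
import Pool.Agent.Lib.MP_640417_ag.GT.En
import Pool.Agent.Lib.MP_640417_ag.GT.DcK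
import Pool.Agent.Lib.MP_640417_ag.GT.DcE
import Pool.Agent.Lib.MP_640417_ag.GT.LamTop
import Pool.Agent.Lib.MP_640417_ag.GT.InA
import Pool.Agent.Lib.MP_640417_ag.GT.ChkB
import Pool.Agent.Lib.MP_640417_ag.GT.StK
import Pool.Agent.Lib.MP_640417_ag.GT.GT
import Pool.Agent.Lib.MP_640417_ag.GT.GTt
import Pool.Agent.Lib.MP_640417_ag.GT.Gm1
import Pool.Agent.Lib.MP_640417_ag.GT.Gm2
import Pool.Agent.Lib.MP_640417_ag.GT.GmA
import Pool.Agent.Lib.MP_640417_ag.GT.CrN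
import Pool.Agent.Lib.MP_640417_ag.GT.Mx
import Pool.Agent.Lib.MP_640417_ag.GT.Kmn
import Pool.Agent.Lib.MP_640417_ag.GT.Grw
import Pool.Agent.Lib.MP_640417_ag.GT.Prs
import Pool.Agent.Lib.MP_640417_ag.GT.NumO
import Pool.Agent.Lib.MP_640417_ag.GT.NumA

/-! # Theorem GT, parts J and K: assembly -/

set_option autoImplicit false

namespace Pool.Agent.FO

theorem gRfOne : S_RfOne := pRfOne
theorem gRfP : S_RfP := pRfP
theorem gUpsB : S_UpsB := pUpsB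
theorem gUpsL : S_UpsL := pUpsL gRfOne
theorem gUpsT : S_UpsT := pUpsT gRfP gUpsB
theorem gTmBas : S_TmBas := pTmBas
theorem gTmUse : S_TmUse := pTmUse
theorem gTmRf : S_TmRf := pTmRf gTmBas
theorem gTmUps : S_TmUps := pTmUps gTmBas gTmRf
theorem gPhBas : S_PhBas := pPhBas gUpsB gUpsT
theorem gPhR : S_PhR := pPhR gUpsL gUpsT gTmUps gTmUse
theorem gPhQ : S_PhQ := pPhQ gUpsB
theorem gLamB : S_LamB := pLamB gPhBas
theorem gLamR : S_LamR := pLamR gPhBas gPhR gPhQ gLamB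
theorem gLamHo : S_LamHo := pLamHo gLamB gLamR
theorem gCnt : S_Cnt := pCnt
theorem gMean : S_Mean := pMean gPhBas gUpsL gTmUps gTmUse gCnt
theorem gLamAv : S_LamAv := pLamAv gLamB gMean
theorem gLamT : S_LamT := pLamT gLamB gLamAv
theorem gNcR : S_NcR := pNcR
theorem gEn : S_En := pEn
theorem gDcK : S_DcK := pDcK gEn
theorem gDcE : S_DcE := pDcE gEn
theorem gLamTop : S_LamTop := pLamTop gEn gUpsB gLamB
theorem gInA : S_InA := pInA
theorem gChkB : S_ChkB := pChkB gLamB gLamHo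
theorem gStK : S_StK := pStK gLamB gEn gDcK gDcE gLamTop gInA gChkB
theorem gGT : S_GT := pGT gInA gChkB gStK
theorem gGTt : S_GTt := pGTt gLamT gInA gGT
theorem gGm1 : S_Gm1 := pGm1
theorem gGm2 : S_Gm2 := pGm2 gEn
theorem gGmA : S_GmA := pGmA gGm1 gGm2
theorem gCrN : S_CrN := pCrN
theorem gMx : S_Mx := pMx
theorem gKmn : S_Kmn := pKmn gMx
theorem gGrw : S_Grw := pGrw gMx gNcR
theorem gPrs : S_Prs := pPrs
theorem gNumO : S_NumO := pNumO gKmn gGrw gPrs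
theorem gNumA : S_NumA := pNumA

end Pool.Agent.FO
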