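import Pool.Agent.Lib.MP_640417_ag.GT.SpecL

/-!
# Theorem GT, part L, module Mu1: the bounds for the pair 5, 13
-/

set_option autoImplicit false

noncomputable section

namespace Pool.Agent.FO

open Finset Pool.Agent.FC

namespace GMu1Aux

private lemma nb0 : nb 0 = 1 := by
  rw [nb_eq]
  rfl

private lemma nb1 : nb 1 = 2 := by
  rw [nb_eq 1, sum_range_one, nb0]
  rfl

private lemma nb2 : nb 2 = 6 := by
  rw [nb_eq 2, sum_range_succ, sum_range_one, nb0, nb1]
  rfl

private lemma nb3 : nb 3 = 26 := by
  rw [nb_eq, sum_range_succ, sum_range_succ, sum_range_one, nb0, nb1, nb2]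
  rfl

private lemma ncs (k l : ℕ) :
    nc (k + 1) l = 2 * ∑ j ∈ range (l + 1), l.choose j * nb j * nc k (l - j) := rfl

private lemma nc0 (l : ℕ) : nc 0 l = if l = 0 then 1 else 0 := rfl

private lemma nc1 (l : ℕ) : nc 1 l = 2 * nb l := by
  rw [show (1 : ℕ) = 0 + 1 from rfl, ncs, sum_range_succ]
  rw [sum_eq_zero, Nat.choose_self, Nat.sub_self, nc0, if_pos rfl]
  · ring
  · intro j hj
    have := mem_range.1 hj
    rw [nc0, if_neg (by omega), mul_zero]

private lemma kpT : kp {5, 13} = 48 := by
  unfold kp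
  rw [prod_pair (by norm_num)]
  rfl

/-- the numerical inequality -/
private lemma claim (hKmn : S_Kmn) (hGrw : S_Grw) (n : ℕ) (L : Finset ℕ)
    (hL : L = (n.primeFactors \ {5, 13}).filter (fun s => s ≠ 2 ∨ n.factorization 2 ≠ 1))
    (hd : Disjoint {5, 13} L) :
    (n.factorization 2 = 1 → 24 * nc 1 L.card ≤ kp ({5, 13} ∪ L) ∧
      (24 * nc 1 L.card = kp ({5, 13} ∪ L) → L = ∅ ∨ L = {3})) ∧
    (n.factorization 2 ≠ 1 → 12 * nc 1 L.card < kp ({5, 13} ∪ L)) := by
  classical
  have hLp : ∀ s ∈ L, s.Prime := by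
    intro s hs
    rw [hL, mem_filter, mem_sdiff] at hs
    exact Nat.prime_of_mem_primeFactors hs.1.1
  have hUp : ∀ s ∈ ({5, 13} : Finset ℕ) ∪ L, s.Prime := by
    intro s hs
    rcases mem_union.1 hs with h | h
    · rcases mem_insert.1 h with h | h
      · rw [h]
        norm_num
      · rw [mem_singleton.1 h]
        norm_num
    · exact hLp s h
  have hUc : (({5, 13} : Finset ℕ) ∪ L).card = 2 + L.card := by
    rw [card_union_of_disjoint hd]
    rfl
  have hkU : kp ({5, 13} ∪ L) = 48 * kp L := by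
    rw [← kpT]
    exact prod_union hd
  obtain ⟨kL2, -, -, -, -, -, -, kL1, -⟩ := hKmn L hLp
  refine ⟨fun hv => ?_, fun hv => ?_⟩
  · have hL2 : 2 ∉ L := by
      intro h
      rw [hL, mem_filter] at h
      rcases h.2 with h | h
      · exact h rfl
      · exact h hv
    have hU2 : 2 ∉ ({5, 13} : Finset ℕ) ∪ L := by
      intro h
      rcases mem_union.1 h with h | h
      · revert h
        decide
      · exact hL2 h
    rcases (show L.card = 0 ∨ L.card = 1 ∨ 2 ≤ L.card by omega) with h | h | h
    · refine ⟨?_, fun _ => Or.inl (card_eq_zero.1 h)⟩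
      rw [h, nc1, nb0, card_eq_zero.1 h, union_empty, kpT]
    · obtain ⟨s, hs⟩ := card_eq_one.1 h
      have hsp : s.Prime := hLp s (by rw [hs]; exact mem_singleton_self s)
      have hs2 : s ≠ 2 := by
        rintro rfl
        exact hL2 (by rw [hs]; exact mem_singleton_self 2)
      have hk : kp L = s - 1 := by
        rw [hs]
        unfold kp
        rw [prod_singleton]
        unfold kap
        rw [if_neg hs2]
      have hs3 := hsp.two_le
      rw [h, nc1, nb1, hkU, hk]
      refine ⟨by omega, fun h1 => Or.inr ?_⟩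
      have : s = 3 := by omega
      rw [hs, this]
    · have h1 : 24 * nc 1 L.card < kp ({5, 13} ∪ L) := by
        refine (hGrw (fun S => 2 ∉ S) (fun S p h h' => h (mem_of_mem_erase h')) 24 1 2 ?_).1
          L.card h ({5, 13} ∪ L) hUp hU2 (by omega)
        intro S hS h2S hSc
        have h1 := ((hKmn S hS).2.2.2.2.2.2.2.2 h2S).2.2.1 (by omega)
        rw [nc1, nb2]
        omega
      exact ⟨h1.le, fun h2 => absurd h2 h1.ne⟩
  · rcases (show L.card = 0 ∨ L.card = 1 ∨ L.card = 2 ∨ 3 ≤ L.card by omega) with h | h | h | h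
    · rw [h, nc1, nb0, card_eq_zero.1 h, union_empty, kpT]
      norm_num
    · rw [h, nc1, nb1, hkU]
      have := kL1 (by omega)
      omega
    · rw [h, nc1, nb2, hkU]
      have := kL2 (by omega)
      omega
    · refine (hGrw (fun _ => True) (fun _ _ _ => trivial) 12 1 3 ?_).1 L.card h ({5, 13} ∪ L) hUp
        trivial (by omega)
      intro S hS _ hSc
      have := (hKmn S hS).2.2.2.1 (by omega)
      rw [nc1, nb3]
      omega

private lemma kp_pos (S : Finset ℕ) (hS : ∀ s ∈ S, s.Prime) : 0 < kp S := by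
  refine prod_pos fun s hs => ?_
  have := (hS s hs).two_le
  unfold kap
  split_ifs <;> omega

/-- the level in the extremal case -/
private lemma lvlMu1 (n : ℕ) (hn : 0 < n) (L : Finset ℕ) (hL : L = ∅ ∨ L = {3})
    (hv : n.factorization 2 = 1)
    (hU : ({5, 13} : Finset ℕ) ∪ L = n.primeFactors.filter (fun s => s ≠ 2 ∨ n.factorization 2 ≠ 1))
    (hsq : ∀ s ∈ ({5, 13} : Finset ℕ) ∪ L, ¬ s ^ 2 ∣ n) : n = 130 ∨ n = 390 := by
  classical
  have h2 : 2 ∈ n.primeFactors := by
    rw [Nat.mem_primeFactors]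
    refine ⟨Nat.prime_two, ?_, hn.ne'⟩
    exact Nat.dvd_of_factorization_pos (by omega)
  have hP : n.primeFactors = insert 2 (({5, 13} : Finset ℕ) ∪ L) := by
    rw [hU]
    ext s
    rw [mem_insert, mem_filter]
    constructor
    · intro h
      by_cases hs : s = 2
      · exact Or.inl hs
      · exact Or.inr ⟨h, Or.inl hs⟩
    · rintro (h | h)
      · rw [h]
        exact h2
      · exact h.1
  have hsf : Squarefree n := by
    rw [Nat.squarefree_iff_prime_squarefree]
    intro p hp hpn
    have hpn' : p ^ 2 ∣ n := by rwa [pow_two]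
    have hpm : p ∈ n.primeFactors :=
      Nat.mem_primeFactors.2 ⟨hp, dvd_trans (dvd_mul_right p p) hpn, hn.ne'⟩
    rw [hP, mem_insert] at hpm
    rcases hpm with h | h
    · subst h
      have := (Nat.prime_two.pow_dvd_iff_le_factorization hn.ne').1 hpn'
      omega
    · exact hsq p h hpn'
  have hprod := Nat.prod_primeFactors_of_squarefree hsf
  rcases hL with h | h
  · left
    rw [← hprod, hP, h]
    rfl
  · right
    rw [← hprod, hP, h]
    rfl

private lemma mu_zero (l : List ℕ) (q n : ℕ) (h : ¬ dt l q ∣ n) : mu l q n = 0 := by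
  unfold mu
  rw [if_neg h]

private lemma pr1 : Pr [5] 13 := by
  refine ⟨by decide, ?_, by norm_num, by decide⟩
  intro p hp
  rcases List.mem_cons.1 hp with h | h
  · rw [h]
    norm_num
  · rw [List.mem_singleton.1 h]
    norm_num

private lemma pr2 : Pr [13] 5 := by
  refine ⟨by decide, ?_, by norm_num, by decide⟩
  intro p hp
  rcases List.mem_cons.1 hp with h | h
  · rw [h]
    norm_num
  · rw [List.mem_singleton.1 h]
    norm_num

private lemma dt1 : dt [5] 13 = 65 := rfl

private lemma dt2 : dt [13] 5 = 65 := rfl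

end GMu1Aux

open GMu1Aux

theorem pMu1 (hMuK : S_MuK) (hKmn : S_Kmn) (hGrw : S_Grw) : S_Mu1 := by
  classical
  intro n hn
  by_cases hdv : 65 ∣ n
  · set L : Finset ℕ := (n.primeFactors \ {5, 13}).filter
      (fun s => s ≠ 2 ∨ n.factorization 2 ≠ 1) with hL
    obtain ⟨a1, a2, -, a4, a5⟩ := hMuK [5] 13 n pr1 hn (by rw [dt1]; exact hdv) {5, 13} L
      (by decide) hL
    obtain ⟨-, -, -, b4, b5⟩ := hMuK [13] 5 n pr2 hn (by rw [dt2]; exact hdv) {5, 13} L
      (by decide) hL
    obtain ⟨c1, c2⟩ := claim hKmn hGrw n L hL a2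
    have hUp : ∀ s ∈ ({5, 13} : Finset ℕ) ∪ L, s.Prime := by
      intro s hs
      rw [a1, mem_filter] at hs
      exact Nat.prime_of_mem_primeFactors hs.1
    have hk : (0 : ℚ) < kp ({5, 13} ∪ L) := by
      exact_mod_cast kp_pos _ hUp
    rw [show ([5] : List ℕ).length = 1 from rfl] at a4 a5
    rw [show ([13] : List ℕ).length = 1 from rfl] at b4 b5
    by_cases hv : n.factorization 2 = 1
    · obtain ⟨d1, d2⟩ := c1 hv
      rw [if_pos hv] at a4 b4
      have d1' : (24 : ℚ) * nc 1 L.card ≤ kp ({5, 13} ∪ L) := by exact_mod_cast d1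
      refine ⟨?_, ?_, fun e1 e2 => ?_⟩
      · refine a4.trans ?_
        rw [div_le_iff₀ hk]
        push_cast
        linarith
      · refine b4.trans ?_
        rw [div_le_iff₀ hk]
        push_cast
        linarith
      · have e3 : (24 : ℚ) * nc 1 L.card = kp ({5, 13} ∪ L) := by
          rw [e1, le_div_iff₀ hk] at a4
          push_cast at a4
          linarith
        have e4 := d2 (by exact_mod_cast e3)
        refine lvlMu1 n hn L e4 hv a1 fun s hs hsn => ?_
        have hs2 : s ≠ 2 := by
          rintro rfl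
          rw [a1, mem_filter] at hs
          rcases hs.2 with h | h
          · exact h rfl
          · exact h hv
        have hs1 : (2 : ℚ) ≤ s := by exact_mod_cast (hUp s hs).two_le
        by_cases h13 : s = 13
        · have h5 := b5 s hs (by rw [h13]; norm_num) (fun _ => hsn) (fun h => absurd h hs2)
          rw [if_pos hv, e2, le_div_iff₀ hk] at h5
          push_cast at h5
          nlinarith
        · have h5 := a5 s hs h13 (fun _ => hsn) (fun h => absurd h hs2)
          rw [if_pos hv, e1, le_div_iff₀ hk] at h5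
          push_cast at h5
          nlinarith
    · have d1 := c2 hv
      rw [if_neg hv] at a4 b4
      have d1' : (12 : ℚ) * nc 1 L.card < kp ({5, 13} ∪ L) := by exact_mod_cast d1
      have a6 : mu [5] 13 n < 1 := by
        refine lt_of_le_of_lt a4 ?_
        rw [div_lt_iff₀ hk]
        push_cast
        linarith
      refine ⟨a6.le, ?_, fun e1 _ => absurd e1 a6.ne⟩
      refine b4.trans ?_
      rw [div_le_iff₀ hk]
      push_cast
      linarith
  · have h1 : mu [5] 13 n = 0 := mu_zero _ _ _ (by rw [dt1]; exact hdv)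
    have h2 : mu [13] 5 n = 0 := mu_zero _ _ _ (by rw [dt2]; exact hdv)
    refine ⟨by rw [h1]; norm_num, by rw [h2]; norm_num, fun e1 _ => ?_⟩
    rw [h1] at e1
    norm_num at e1

end Pool.Agent.FO
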