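import Pool.Agent.Lib.MP_640417_ag.GT.SpecL

/-!
# Theorem GT, part L: numerical bounds, the pair `3, 23`
-/

set_option autoImplicit false

noncomputable section

open Finset Pool.Agent.FC

namespace Pool.Agent.FO

namespace GMu2Aux

private lemma nb0 : nb 0 = 1 := by
  rw [nb_eq]
  rfl

private lemma nb1 : nb 1 = 2 := by
  rw [nb_eq, Finset.sum_range_one, nb0]
  rfl

private lemma nb2 : nb 2 = 6 := by
  rw [nb_eq, Finset.sum_range_succ, Finset.sum_range_one, nb0, nb1]
  rfl

private lemma nb3 : nb 3 = 26 := by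
  rw [nb_eq, Finset.sum_range_succ, Finset.sum_range_succ, Finset.sum_range_one, nb0, nb1, nb2]
  rfl

private lemma nb4 : nb 4 = 150 := by
  rw [nb_eq, Finset.sum_range_succ, Finset.sum_range_succ, Finset.sum_range_succ,
    Finset.sum_range_one, nb0, nb1, nb2, nb3]
  rfl

private lemma nc_one (l : ℕ) : nc 1 l = 2 * nb l := by
  have h0 : ∀ l, nc 0 l = if l = 0 then 1 else 0 := fun l => by rw [nc]
  have h1 : nc 1 l = 2 * ∑ j ∈ range (l + 1), l.choose j * nb j * nc 0 (l - j) := by rw [nc]
  rw [h1, Finset.sum_range_succ, Finset.sum_eq_zero, h0, Nat.sub_self, if_pos rfl, Nat.choose_self]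
  · ring
  · intro j hj
    rw [h0, if_neg, mul_zero]
    have := Finset.mem_range.1 hj
    omega

private lemma pr1 : Pr [3] 23 := by
  refine ⟨by decide, ?_, by decide, by decide⟩
  intro p hp
  simp only [List.mem_cons, List.not_mem_nil, or_false] at hp
  rcases hp with rfl | rfl <;> norm_num

private lemma pr2 : Pr [23] 3 := by
  refine ⟨by decide, ?_, by decide, by decide⟩
  intro p hp
  simp only [List.mem_cons, List.not_mem_nil, or_false] at hp
  rcases hp with rfl | rfl <;> norm_num

private lemma mu_neg (l : List ℕ) (q n : ℕ) (h : ¬ dt l q ∣ n) : mu l q n = 0 := by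
  unfold mu
  exact if_neg h

private lemma fin_eq (n D : ℕ) (hD : D ∣ n)
    (h : ∀ r, r.Prime → r ∣ n → ¬ (r * D ∣ n)) : n = D := by
  obtain ⟨k, hk⟩ := hD
  by_cases h1 : k = 1
  · rw [hk, h1, mul_one]
  · obtain ⟨r, hr, hrk⟩ := Nat.exists_prime_and_dvd h1
    exact absurd (by rw [hk, mul_comm r D]; exact Nat.mul_dvd_mul_left D hrk)
      (h r hr (by rw [hk]; exact hrk.mul_left D))

/-- The classification of the bounds. -/
private lemma cls (hKmn : S_Kmn) (hGrw : S_Grw) (v : ℕ) (T L : Finset ℕ) (hT : T = {3, 23})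
    (hd : Disjoint T L) (hpr : ∀ s ∈ T ∪ L, s.Prime) (h2 : v = 1 → 2 ∉ T ∪ L) :
    ((if v = 1 then 2 else 1) * 22 * nc 1 L.card = 2 * kp (T ∪ L) ∧ v = 1 ∧ L = ∅) ∨
    ((if v = 1 then 2 else 1) * 22 * nc 1 L.card = kp (T ∪ L) ∧
      ((v = 1 ∧ L = {5}) ∨ (v ≠ 1 ∧ L = ∅) ∨ (v ≠ 1 ∧ L = {2}))) ∨
    (if v = 1 then 2 else 1) * 22 * nc 1 L.card < kp (T ∪ L) := by
  have hkT : kp T = 44 := by rw [hT]; rfl
  have hk : kp (T ∪ L) = 44 * kp L := by
    unfold kp at hkT ⊢
    rw [Finset.prod_union hd, hkT]
  have hcT : T.card = 2 := by rw [hT]; rfl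
  have hcard : (T ∪ L).card = 2 + L.card := by rw [Finset.card_union_of_disjoint hd, hcT]
  have h3L : 3 ∉ L := fun h => Finset.disjoint_left.1 hd (by rw [hT]; simp) h
  have hprI : ∀ s ∈ insert 3 L, s.Prime := fun s hs => by
    rcases Finset.mem_insert.1 hs with rfl | hs
    · norm_num
    · exact hpr s (Finset.mem_union_right _ hs)
  have hcI : (insert 3 L).card = L.card + 1 := Finset.card_insert_of_notMem h3L
  have hkI : kp (insert 3 L) = 2 * kp L := by
    unfold kp
    rw [Finset.prod_insert h3L]
    rfl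
  obtain ⟨k2, k3, k4, k5, k6, -, -, -, ko⟩ := hKmn (insert 3 L) hprI
  by_cases hv : v = 1
  · rw [if_pos hv]
    have h2' := h2 hv
    have h2I : 2 ∉ insert 3 L := fun h => by
      rcases Finset.mem_insert.1 h with h | h
      · exact absurd h (by norm_num)
      · exact h2' (Finset.mem_union_right _ h)
    obtain ⟨o2, o3, -, -⟩ := ko h2I
    rcases Nat.lt_or_ge L.card 3 with hc | hc
    · obtain h0 | h0 | h0 : L.card = 0 ∨ L.card = 1 ∨ L.card = 2 := by omega
      · left
        have hL := Finset.card_eq_zero.1 h0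
        refine ⟨?_, hv, hL⟩
        rw [hk, hL, Finset.card_empty, nc_one, nb0]
        rfl
      · right
        obtain ⟨s, hs⟩ := Finset.card_eq_one.1 h0
        have h4 := o2 (by omega)
        rw [hkI] at h4
        have hks : kp L = kap s := by
          rw [hs]
          exact Finset.prod_singleton _ _
        rw [h0, nc_one, nb1, hk, hks]
        rw [hks] at h4
        rcases Nat.lt_or_ge (kap s) 5 with h5 | h5
        · left
          refine ⟨by omega, Or.inl ⟨hv, ?_⟩⟩
          have h6 : kap s = 4 := by omega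
          unfold kap at h6
          split_ifs at h6 with h7
          · omega
          · have h8 : s = 5 := by omega
            rw [hs, h8]
        · right
          omega
      · right
        right
        have h4 := o3 (by omega)
        rw [h0, nc_one, nb2, hk]
        omega
    · right
      right
      have hG := (hGrw (fun S => 2 ∉ S) (fun S p h h' => h (Finset.mem_of_mem_erase h')) 44 1 3
        (fun S hS h2S hc' => by
          have h := ((hKmn S hS).2.2.2.2.2.2.2.2 h2S).2.2.2 (by omega)
          rw [nc_one, nb3]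
          omega)).1 L.card hc (T ∪ L) hpr h2' (by omega)
      exact hG
  · rw [if_neg hv]
    rcases Nat.lt_or_ge L.card 4 with hc | hc
    · obtain h0 | h0 | h0 | h0 : L.card = 0 ∨ L.card = 1 ∨ L.card = 2 ∨ L.card = 3 := by omega
      · right
        left
        have hL := Finset.card_eq_zero.1 h0
        refine ⟨?_, Or.inr (Or.inl ⟨hv, hL⟩)⟩
        rw [hk, hL, Finset.card_empty, nc_one, nb0]
        rfl
      · right
        obtain ⟨s, hs⟩ := Finset.card_eq_one.1 h0
        have hks : kp L = kap s := by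
          rw [hs]
          exact Finset.prod_singleton _ _
        have hsL : s ∈ L := by rw [hs]; exact Finset.mem_singleton_self s
        have hsp := hpr s (Finset.mem_union_right _ hsL)
        have hs2 := hsp.two_le
        have hs3 : s ≠ 3 := fun h => h3L (by rw [← h]; exact hsL)
        rw [h0, nc_one, nb1, hk, hks]
        by_cases h5 : s = 2
        · left
          refine ⟨by rw [h5]; rfl, Or.inr (Or.inr ⟨hv, by rw [hs, h5]⟩)⟩
        · right
          unfold kap
          rw [if_neg h5]
          omega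
      · right
        right
        have h4 := k3 (by omega)
        rw [h0, nc_one, nb2, hk]
        omega
      · right
        right
        have h4 := k4 (by omega)
        rw [h0, nc_one, nb3, hk]
        omega
    · right
      right
      have hG := (hGrw (fun _ => True) (fun _ _ _ => trivial) 22 1 4
        (fun S hS _ hc' => by
          have h := (hKmn S hS).2.2.2.2.1 (by omega)
          rw [nc_one, nb4]
          omega)).1 L.card hc (T ∪ L) hpr trivial (by omega)
      rw [one_mul]
      exact hG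

end GMu2Aux

open GMu2Aux in
theorem pMu2 (hMuK : S_MuK) (hKmn : S_Kmn) (hGrw : S_Grw) : S_Mu2 := by
  intro n hn
  have d1 : dt [3] 23 = 69 := rfl
  have d2 : dt [23] 3 = 69 := rfl
  by_cases hd : 69 ∣ n
  swap
  · rw [mu_neg _ _ _ (by rw [d1]; exact hd), mu_neg _ _ _ (by rw [d2]; exact hd)]
    norm_num
  obtain ⟨T, hT⟩ : ∃ T : Finset ℕ, T = {3, 23} := ⟨_, rfl⟩
  have hT1 : T = (23 :: [3]).toFinset := by rw [hT]; decide
  have hT2 : T = (3 :: [23]).toFinset := by rw [hT]; decide
  obtain ⟨L, hL⟩ : ∃ L : Finset ℕ,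
      L = (n.primeFactors \ T).filter (fun s => s ≠ 2 ∨ n.factorization 2 ≠ 1) := ⟨_, rfl⟩
  obtain ⟨a1, a2, a3, a4, a5⟩ := hMuK [3] 23 n pr1 hn (by rw [d1]; exact hd) T L hT1 hL
  obtain ⟨-, -, -, b4, b5⟩ := hMuK [23] 3 n pr2 hn (by rw [d2]; exact hd) T L hT2 hL
  have hpr : ∀ s ∈ T ∪ L, s.Prime := fun s hs => by
    rw [a1] at hs
    exact Nat.prime_of_mem_primeFactors (Finset.mem_filter.1 hs).1
  have h2U : n.factorization 2 = 1 → 2 ∉ T ∪ L := fun h h' => by
    rw [a1] at h'
    rcases (Finset.mem_filter.1 h').2 with h3 | h3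
    · exact h3 rfl
    · exact h3 h
  have hU : ∀ r, r.Prime → r ∣ n → r ∈ T ∪ L ∨ (r = 2 ∧ n.factorization 2 = 1) := by
    intro r hr hrn
    by_cases h : r = 2 ∧ n.factorization 2 = 1
    · exact Or.inr h
    · left
      rw [a1, Finset.mem_filter]
      refine ⟨Nat.mem_primeFactors.2 ⟨hr, hrn, hn.ne'⟩, ?_⟩
      by_contra h'
      push Not at h'
      exact h ⟨h'.1, h'.2⟩
  have hv2 : n.factorization 2 = 1 → 2 ∣ n ∧ ¬ 4 ∣ n := by
    intro h
    refine ⟨Nat.dvd_of_factorization_pos (by omega), fun h4 => ?_⟩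
    have h6 := (Nat.prime_two.pow_dvd_iff_le_factorization (k := 2) hn.ne').1 h4
    omega
  have hKpos : 0 < kp (T ∪ L) := by
    refine Finset.prod_pos fun s hs => ?_
    have h := (hpr s hs).two_le
    unfold kap
    split_ifs
    · norm_num
    · omega
  have hK : (0 : ℚ) < kp (T ∪ L) := by exact_mod_cast hKpos
  obtain ⟨B, hB⟩ : ∃ B : ℚ, B = ((((if n.factorization 2 = 1 then 2 else 1) * 22 *
      nc 1 L.card : ℕ)) : ℚ) / kp (T ∪ L) := ⟨_, rfl⟩
  have e1 : (if n.factorization 2 = 1 then 2 else 1) * (((23 : ℕ) : ℚ) - 1) *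
      nc [3].length L.card / kp (T ∪ L) = B := by
    rw [hB]
    change (if n.factorization 2 = 1 then 2 else 1) * (((23 : ℕ) : ℚ) - 1) *
      nc 1 L.card / kp (T ∪ L) = _
    push_cast
    norm_num
  have e2 : (if n.factorization 2 = 1 then 2 else 1) * (((3 : ℕ) : ℚ) - 1) *
      nc [23].length L.card / kp (T ∪ L) = B / 11 := by
    rw [hB]
    change (if n.factorization 2 = 1 then 2 else 1) * (((3 : ℕ) : ℚ) - 1) *
      nc 1 L.card / kp (T ∪ L) = _
    push_cast
    ring
  rw [e1] at a4 a5
  rw [e2] at b4 b5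
  have hc := cls hKmn hGrw (n.factorization 2) T L hT a2 hpr h2U
  have m3 : 3 ∈ T ∪ L := Finset.mem_union_left _ (by rw [hT]; simp)
  have m23 : 23 ∈ T ∪ L := Finset.mem_union_left _ (by rw [hT]; simp)
  -- no larger exponents
  have nh3 : ∀ r ∈ T ∪ L, 3 ≤ r → r ^ 2 ∣ n → 1 ≤ mu [3] 23 n → 1 / 11 ≤ mu [23] 3 n →
      B ≤ 2 → False := by
    intro r hr h3 hrn ha hb hB2
    have h3' : (3 : ℚ) ≤ r := by exact_mod_cast h3
    by_cases h23 : r = 23
    · subst h23
      have h := b5 23 hr (by norm_num) (fun _ => hrn) (fun h => absurd h (by norm_num))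
      push_cast at h
      linarith
    · have h := a5 r hr h23 (fun _ => hrn) (fun h => absurd h (by omega))
      nlinarith
  rcases hc with ⟨hN, hv, hL0⟩ | ⟨hN, hcase⟩ | hN
  · -- `B = 2`
    have hB2 : B = 2 := by
      rw [hB, hN, div_eq_iff hK.ne']
      push_cast
      ring
    rw [hB2] at a4 b4 a5 b5
    have h138 : 138 ∣ n := by
      have := (hv2 hv).1
      omega
    have hr : ∀ r, r.Prime → r ∣ n → r * 138 ∣ n → (r = 3 ∧ 3 ^ 2 ∣ n) ∨ (r = 23 ∧ 23 ^ 2 ∣ n) := by
      intro r hr hrn hrd
      rcases hU r hr hrn with h | ⟨h, -⟩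
      · rw [hL0, Finset.union_empty, hT] at h
        simp only [Finset.mem_insert, Finset.mem_singleton] at h
        rcases h with rfl | rfl
        · exact Or.inl ⟨rfl, Dvd.dvd.trans (by norm_num) hrd⟩
        · exact Or.inr ⟨rfl, Dvd.dvd.trans (by norm_num) hrd⟩
      · subst h
        exact absurd (Dvd.dvd.trans (by norm_num) hrd) (hv2 hv).2
    refine ⟨a4, by linarith, fun hne => ?_, fun ha hb => Or.inl ?_⟩
    · by_contra hcon
      refine hne (fin_eq n 138 h138 fun r hr' hrn hrd => hcon ?_)
      rcases hr r hr' hrn hrd with ⟨-, h⟩ | ⟨-, h⟩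
      · have h3 := a5 3 m3 (by norm_num) (fun _ => h) (fun h => absurd h (by norm_num))
        push_cast at h3
        linarith
      · have h3 := b5 23 m23 (by norm_num) (fun _ => h) (fun h => absurd h (by norm_num))
        push_cast at h3
        linarith
    · refine fin_eq n 138 h138 fun r hr' hrn hrd => ?_
      rcases hr r hr' hrn hrd with ⟨-, h⟩ | ⟨-, h⟩
      · exact nh3 3 m3 (by norm_num) h ha hb (by linarith)
      · exact nh3 23 m23 (by norm_num) h ha hb (by linarith)
  · -- `B = 1`
    have hB1 : B = 1 := by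
      rw [hB, hN, div_self hK.ne']
    refine ⟨by linarith, by linarith, fun _ => by linarith, fun ha hb => ?_⟩
    rcases hcase with ⟨hv, hL5⟩ | ⟨hv, hL0⟩ | ⟨hv, hL2⟩
    · right; right; right
      have m5 : 5 ∈ T ∪ L := Finset.mem_union_right _ (by rw [hL5]; simp)
      have h5n : 5 ∣ n := by
        rw [a1] at m5
        exact Nat.dvd_of_mem_primeFactors (Finset.mem_filter.1 m5).1
      have h690 : 690 ∣ n := by
        have := (hv2 hv).1
        omega
      refine fin_eq n 690 h690 fun r hr hrn hrd => ?_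
      rcases hU r hr hrn with h | ⟨h, -⟩
      · rw [hL5, hT] at h
        simp only [Finset.mem_union, Finset.mem_insert, Finset.mem_singleton] at h
        rcases h with (rfl | rfl) | rfl
        · exact nh3 3 m3 (by norm_num) (Dvd.dvd.trans (by norm_num) hrd) ha hb (by linarith)
        · exact nh3 23 m23 (by norm_num) (Dvd.dvd.trans (by norm_num) hrd) ha hb (by linarith)
        · exact nh3 5 m5 (by norm_num) (Dvd.dvd.trans (by norm_num) hrd) ha hb (by linarith)
      · subst h
        exact absurd (Dvd.dvd.trans (by norm_num) hrd) (hv2 hv).2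
    · right; left
      refine fin_eq n 69 hd fun r hr hrn hrd => ?_
      rcases hU r hr hrn with h | ⟨-, h⟩
      · rw [hL0, Finset.union_empty, hT] at h
        simp only [Finset.mem_insert, Finset.mem_singleton] at h
        rcases h with rfl | rfl
        · exact nh3 3 m3 (by norm_num) (Dvd.dvd.trans (by norm_num) hrd) ha hb (by linarith)
        · exact nh3 23 m23 (by norm_num) (Dvd.dvd.trans (by norm_num) hrd) ha hb (by linarith)
      · exact hv h
    · right; right; left
      have m2 : 2 ∈ T ∪ L := Finset.mem_union_right _ (by rw [hL2]; simp)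
      have h276 : 276 ∣ n := by
        have := a3 m2
        omega
      refine fin_eq n 276 h276 fun r hr hrn hrd => ?_
      rcases hU r hr hrn with h | ⟨-, h⟩
      · rw [hL2, hT] at h
        simp only [Finset.mem_union, Finset.mem_insert, Finset.mem_singleton] at h
        rcases h with (rfl | rfl) | rfl
        · exact nh3 3 m3 (by norm_num) (Dvd.dvd.trans (by norm_num) hrd) ha hb (by linarith)
        · exact nh3 23 m23 (by norm_num) (Dvd.dvd.trans (by norm_num) hrd) ha hb (by linarith)
        · have h3 := a5 2 m2 (by norm_num) (fun h => absurd rfl h)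
            (fun _ => Dvd.dvd.trans (by norm_num) hrd)
          push_cast at h3
          linarith
      · exact hv h
  · -- `B < 1`
    have hB1 : B < 1 := by
      rw [hB, div_lt_one hK]
      exact_mod_cast hN
    exact ⟨by linarith, by linarith, fun _ => by linarith, fun ha _ => absurd ha (by linarith)⟩

end Pool.Agent.FO
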