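import Pool.Agent.Lib.MP_640417_ag.GT.SpecL

/-!
# Theorem GT, part L: numerical bounds, the set `2, 3, 5, 7`
-/

set_option autoImplicit false

noncomputable section

open Finset Pool.Agent.FC

namespace Pool.Agent.FO

namespace GMu3Aux

private lemma nb0 : nb 0 = 1 := by
  rw [nb_eq]
  rfl

private lemma nb1 : nb 1 = 2 := by
  rw [nb_eq, Finset.sum_range_one, nb0]
  rfl

private lemma nc0 (l : ℕ) : nc 0 l = if l = 0 then 1 else 0 := by
  rw [nc]

private lemma nc1 (k l : ℕ) : nc (k + 1) l =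
    2 * ∑ j ∈ range (l + 1), l.choose j * nb j * nc k (l - j) := by
  rw [nc]

private lemma nc_0 (k : ℕ) : nc (k + 1) 0 = 2 * nc k 0 := by
  rw [nc1, zero_add, Finset.sum_range_one, nb0]
  simp

private lemma nc_1 (k : ℕ) : nc (k + 1) 1 = 2 * (nc k 1 + 2 * nc k 0) := by
  rw [nc1, Finset.sum_range_succ, Finset.sum_range_one, nb0, nb1]
  simp

private lemma nc30 : nc 3 0 = 8 := by
  rw [nc_0, nc_0, nc_0, nc0]
  rfl

private lemma nc31 : nc 3 1 = 48 := by
  rw [nc_1, nc_1, nc_1, nc_0, nc_0, nc_0, nc0, nc0]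
  rfl

private lemma pr1 : Pr [2, 3, 5] 7 := by
  refine ⟨by decide, ?_, by decide, by decide⟩
  intro p hp
  simp only [List.mem_cons, List.not_mem_nil, or_false] at hp
  rcases hp with rfl | rfl | rfl | rfl <;> norm_num

private lemma pr2 : Pr [2, 3, 7] 5 := by
  refine ⟨by decide, ?_, by decide, by decide⟩
  intro p hp
  simp only [List.mem_cons, List.not_mem_nil, or_false] at hp
  rcases hp with rfl | rfl | rfl | rfl <;> norm_num

private lemma mu_neg (l : List ℕ) (q n : ℕ) (h : ¬ dt l q ∣ n) : mu l q n = 0 := by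
  unfold mu
  exact if_neg h

private lemma fin_eq (n D : ℕ) (hD : D ∣ n)
    (h : ∀ r, r.Prime → r ∣ n → ¬ (r * D ∣ n)) : n = D := by
  obtain ⟨k, hk⟩ := hD
  by_cases h1 : k = 1
  · rw [hk, h1, mul_one]
  · obtain ⟨r, hr, hrk⟩ := Nat.exists_prime_and_dvd h1
    exact absurd (by rw [hk, mul_comm r D]; exact Nat.mul_dvd_mul_left D hrk)
      (h r hr (by rw [hk]; exact hrk.mul_left D))

end GMu3Aux

open GMu3Aux in
theorem pMu3 (hMuK : S_MuK) (hKmn : S_Kmn) (hGrw : S_Grw) : S_Mu3 := by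
  intro n hn
  have d1 : dt [2, 3, 5] 7 = 420 := rfl
  have d2 : dt [2, 3, 7] 5 = 420 := rfl
  by_cases hd : 420 ∣ n
  swap
  · rw [mu_neg _ _ _ (by rw [d1]; exact hd), mu_neg _ _ _ (by rw [d2]; exact hd)]
    norm_num
  have h4 : n.factorization 2 ≠ 1 := by
    intro h
    have h5 : 2 ^ 2 ∣ n := Dvd.dvd.trans (by norm_num) hd
    have h6 := (Nat.prime_two.pow_dvd_iff_le_factorization hn.ne').1 h5
    omega
  obtain ⟨T, hT⟩ : ∃ T : Finset ℕ, T = {2, 3, 5, 7} := ⟨_, rfl⟩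
  have hT1 : T = (7 :: [2, 3, 5]).toFinset := by rw [hT]; decide
  have hT2 : T = (5 :: [2, 3, 7]).toFinset := by rw [hT]; decide
  obtain ⟨L, hL⟩ : ∃ L : Finset ℕ,
      L = (n.primeFactors \ T).filter (fun s => s ≠ 2 ∨ n.factorization 2 ≠ 1) := ⟨_, rfl⟩
  obtain ⟨a1, a2, -, a4, a5⟩ := hMuK [2, 3, 5] 7 n pr1 hn (by rw [d1]; exact hd) T L hT1 hL
  obtain ⟨-, -, -, b4, b5⟩ := hMuK [2, 3, 7] 5 n pr2 hn (by rw [d2]; exact hd) T L hT2 hL
  rw [if_neg h4] at a4 a5 b4 b5
  have hU : T ∪ L = n.primeFactors := by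
    rw [a1]
    exact Finset.filter_true_of_mem fun s _ => Or.inr h4
  have hpr : ∀ s ∈ T ∪ L, s.Prime := fun s hs => by
    rw [hU] at hs
    exact Nat.prime_of_mem_primeFactors hs
  have hcT : T.card = 4 := by rw [hT]; rfl
  have hcard : (T ∪ L).card = 4 + L.card := by
    rw [Finset.card_union_of_disjoint a2, hcT]
  have hG := (hGrw (fun _ => True) (fun _ _ _ => trivial) 12 3 1 (fun S hS _ hc => by
    have h := (hKmn S hS).2.2.2.1 (by omega)
    rw [nc31]
    omega)).1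
  have hkT : kp T = 96 := by rw [hT]; rfl
  have hle : 12 * nc 3 L.card ≤ kp (T ∪ L) ∧ (12 * nc 3 L.card = kp (T ∪ L) → L = ∅) := by
    rcases Nat.eq_zero_or_pos L.card with h | h
    · have h0 : L = ∅ := Finset.card_eq_zero.1 h
      rw [h0, Finset.union_empty, hkT, Finset.card_empty, nc30]
      exact ⟨le_refl _, fun _ => rfl⟩
    · have h1 := hG L.card h (T ∪ L) hpr trivial (by omega)
      exact ⟨h1.le, fun h2 => absurd h2 h1.ne⟩
  have hKpos : 0 < kp (T ∪ L) := by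
    refine Finset.prod_pos fun s hs => ?_
    have h := (hpr s hs).two_le
    unfold kap
    split_ifs
    · norm_num
    · omega
  have hK : (0 : ℚ) < kp (T ∪ L) := by exact_mod_cast hKpos
  have hq : (12 : ℚ) * nc 3 L.card ≤ kp (T ∪ L) := by exact_mod_cast hle.1
  have e1 : (1 : ℚ) * ((7 : ℕ) - 1) * nc [2, 3, 5].length L.card / kp (T ∪ L) ≤ 1 / 2 := by
    rw [div_le_iff₀ hK]
    change (1 : ℚ) * ((7 : ℕ) - 1) * nc 3 L.card ≤ 1 / 2 * kp (T ∪ L)
    push_cast
    linarith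
  have e2 : (1 : ℚ) * ((5 : ℕ) - 1) * nc [2, 3, 7].length L.card / kp (T ∪ L) ≤ 1 / 3 := by
    rw [div_le_iff₀ hK]
    change (1 : ℚ) * ((5 : ℕ) - 1) * nc 3 L.card ≤ 1 / 3 * kp (T ∪ L)
    push_cast
    linarith
  refine ⟨a4.trans e1, b4.trans e2, fun h1 h2 => ?_⟩
  have hL0 : L = ∅ := by
    refine hle.2 (le_antisymm hle.1 ?_)
    rw [h1, le_div_iff₀ hK] at a4
    have h3 : (kp (T ∪ L) : ℚ) ≤ 12 * nc 3 L.card := by
      have h4 : (1 / 2 : ℚ) * kp (T ∪ L) ≤ (1 : ℚ) * ((7 : ℕ) - 1) * nc 3 L.card := a4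
      push_cast at h4
      linarith
    exact_mod_cast h3
  refine fin_eq n 420 hd fun r hr hrn hdv => ?_
  have hrT : r ∈ T := by
    have h3 : r ∈ T ∪ L := by
      rw [hU]
      exact Nat.mem_primeFactors.2 ⟨hr, hrn, hn.ne'⟩
    rwa [hL0, Finset.union_empty] at h3
  have hrU : r ∈ T ∪ L := Finset.mem_union_left _ hrT
  rw [hT] at hrT
  simp only [Finset.mem_insert, Finset.mem_singleton] at hrT
  rcases hrT with rfl | rfl | rfl | rfl
  · have h3 := (a5 2 hrU (by norm_num) (fun h => absurd rfl h)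
      (fun _ => Dvd.dvd.trans (by norm_num) hdv)).trans e1
    rw [h1] at h3
    norm_num at h3
  · have h3 := (a5 3 hrU (by norm_num) (fun _ => Dvd.dvd.trans (by norm_num) hdv)
      (fun h => absurd h (by norm_num))).trans e1
    rw [h1] at h3
    norm_num at h3
  · have h3 := (a5 5 hrU (by norm_num) (fun _ => Dvd.dvd.trans (by norm_num) hdv)
      (fun h => absurd h (by norm_num))).trans e1
    rw [h1] at h3
    norm_num at h3
  · have h3 := (b5 7 hrU (by norm_num) (fun _ => Dvd.dvd.trans (by norm_num) hdv)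
      (fun h => absurd h (by norm_num))).trans e2
    rw [h2] at h3
    norm_num at h3

end Pool.Agent.FO
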