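import Pool.Agent.Lib.MP_640417_ag.GT.SpecL

/-!
# Theorem GT, part L: bounds for `mu`
-/

set_option autoImplicit false

open Finset Pool.Agent.FC

namespace Pool.Agent.FO

namespace GMuKAux

/-- the prime powers in `n` -/
theorem hv {n : ℕ} (hn : n ≠ 0) : ∀ s ∈ n.primeFactors, s.Prime ∧ 0 < n.factorization s := fun s hs =>
  ⟨Nat.prime_of_mem_primeFactors hs,
    (Nat.prime_of_mem_primeFactors hs).factorization_pos_of_dvd hn (Nat.dvd_of_mem_primeFactors hs)⟩

/-- lower bound for the totient -/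
theorem tot {n : ℕ} (hn : n ≠ 0) {S : Finset ℕ} (hS : S ⊆ n.primeFactors) {q : ℕ}
    (hq : q ∈ S) (hq2 : q ≠ 2) (c : ℕ → ℕ)
    (hc : ∀ s ∈ S.erase q, c s * kap s ≤ (s ^ n.factorization s).totient) :
    (∏ s ∈ S.erase q, c s) * (kp S * (q ^ n.factorization q).totient) ≤ (q - 1) * n.totient := by
  have e1 : n.totient = ∏ s ∈ n.primeFactors, (s ^ n.factorization s).totient := by
    rw [Nat.totient_eq_prod_factorization hn, Finsupp.prod, Nat.support_factorization]
    refine Finset.prod_congr rfl fun s hs => ?_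
    rw [Nat.totient_prime_pow (hv hn s hs).1 (hv hn s hs).2]
  have e2 : ∏ s ∈ S, (s ^ n.factorization s).totient ≤ n.totient := by
    rw [e1]
    refine Finset.prod_le_prod_of_subset_of_one_le' hS fun s hs _ => ?_
    exact Nat.totient_pos.2 (pow_pos (hv hn s hs).1.pos _)
  have e4 : (∏ s ∈ S.erase q, c s) * kp (S.erase q) ≤
      ∏ s ∈ S.erase q, (s ^ n.factorization s).totient := by
    unfold kp
    rw [← Finset.prod_mul_distrib]
    exact Finset.prod_le_prod' fun s hs => hc s hs
  have e5 : kp S = (q - 1) * kp (S.erase q) := by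
    unfold kp
    rw [← Finset.mul_prod_erase S _ hq]
    congr 1
    unfold kap
    rw [if_neg hq2]
  have e6 : (q ^ n.factorization q).totient * ∏ s ∈ S.erase q, (s ^ n.factorization s).totient =
      ∏ s ∈ S, (s ^ n.factorization s).totient :=
    Finset.mul_prod_erase S (fun s => (s ^ n.factorization s).totient) hq
  calc (∏ s ∈ S.erase q, c s) * (kp S * (q ^ n.factorization q).totient)
      = (q - 1) * ((q ^ n.factorization q).totient *
        ((∏ s ∈ S.erase q, c s) * kp (S.erase q))) := by rw [e5]; ring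
    _ ≤ (q - 1) * ((q ^ n.factorization q).totient *
        ∏ s ∈ S.erase q, (s ^ n.factorization s).totient) :=
        Nat.mul_le_mul_left _ (Nat.mul_le_mul_left _ e4)
    _ ≤ (q - 1) * n.totient := by
        rw [e6]
        exact Nat.mul_le_mul_left _ e2

/-- the local bound -/
theorem loc {s v : ℕ} (hs : s.Prime) (hv : 0 < v) (h2 : s = 2 → v ≠ 1) :
    kap s ≤ (s ^ v).totient := by
  rw [Nat.totient_prime_pow hs hv]
  unfold kap
  split_ifs with h
  · subst h
    have h4 := h2 rfl
    have h5 : 2 ^ 1 ≤ 2 ^ (v - 1) := Nat.pow_le_pow_right (by norm_num) (by omega)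
    omega
  · exact Nat.le_mul_of_pos_left _ (pow_pos hs.pos _)

/-- the local bound for larger exponents -/
theorem loc2 {s v : ℕ} (hs : s.Prime) (hv : 2 ≤ v) (h2 : s = 2 → 3 ≤ v) :
    s * kap s ≤ (s ^ v).totient := by
  rw [Nat.totient_prime_pow hs (by omega)]
  unfold kap
  split_ifs with h
  · subst h
    have h4 := h2 rfl
    have h5 : 2 ^ 2 ≤ 2 ^ (v - 1) := Nat.pow_le_pow_right (by norm_num) (by omega)
    omega
  · refine Nat.mul_le_mul_right _ ?_
    calc s = s ^ 1 := (pow_one s).symm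
      _ ≤ s ^ (v - 1) := Nat.pow_le_pow_right hs.pos (by omega)

theorem kp_pos {S : Finset ℕ} (hS : ∀ s ∈ S, s.Prime) : 0 < kp S := by
  unfold kp
  refine Finset.prod_pos fun s hs => ?_
  have h := (hS s hs).two_le
  unfold kap
  split_ifs with h2
  · norm_num
  · omega

theorem two_iff {n : ℕ} (hn : n ≠ 0) (h2 : 2 ∣ n) : n.factorization 2 ≠ 1 ↔ 4 ∣ n := by
  have h1 := Nat.prime_two.factorization_pos_of_dvd hn h2
  have h3 : 4 ∣ n ↔ 2 ≤ n.factorization 2 := by
    rw [show (4 : ℕ) = 2 ^ 2 by norm_num]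
    exact Nat.prime_two.pow_dvd_iff_le_factorization hn
  rw [h3]
  omega

end GMuKAux

open GMuKAux

theorem pMuK : S_MuK := by
  intro l q n hP hn0 hdt T L hT hL
  have hn : n ≠ 0 := hn0.ne'
  obtain ⟨hnd, hpr, hq2, -⟩ := hP
  have hmemT : ∀ s, s ∈ T ↔ s = q ∨ s ∈ l := by
    intro s
    rw [hT, List.mem_toFinset, List.mem_cons]
  have hTp : ∀ s ∈ T, s.Prime := by
    intro s hs
    exact hpr s (List.mem_cons.2 ((hmemT s).1 hs))
  have hqT : q ∈ T := (hmemT q).2 (Or.inl rfl)
  -- the primes of `T` divide `n`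
  have hd1 : q ∣ n := (dvd_mul_right q _).trans hdt
  have hd2 : ∀ p ∈ l, (if p = 2 then 4 else p) ∣ n := by
    intro p hp
    have h1 : (if p = 2 then 4 else p) ∈ l.map (fun p => if p = 2 then 4 else p) :=
      List.mem_map.2 ⟨p, hp, rfl⟩
    exact (List.dvd_prod h1).trans ((dvd_mul_left _ q).trans hdt)
  have hT4 : 2 ∈ T → 4 ∣ n := by
    intro h
    rcases (hmemT 2).1 h with h1 | h1
    · exact absurd h1.symm hq2
    · have h2 := hd2 2 h1
      rwa [if_pos rfl] at h2
  have hTn : T ⊆ n.primeFactors := by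
    intro p hp
    refine Nat.mem_primeFactors.2 ⟨hTp p hp, ?_, hn⟩
    rcases (hmemT p).1 hp with h1 | h1
    · rw [h1]; exact hd1
    · have h2 := hd2 p h1
      split_ifs at h2 with h3
      · rw [h3]
        exact (by norm_num : 2 ∣ 4).trans h2
      · exact h2
  have hT2 : ∀ s ∈ T, s ≠ 2 ∨ n.factorization 2 ≠ 1 := by
    intro s hs
    by_cases h : s = 2
    · right
      rw [h] at hs
      exact (two_iff hn ((by norm_num : 2 ∣ 4).trans (hT4 hs))).2 (hT4 hs)
    · exact Or.inl h
  have hU : T ∪ L = n.primeFactors.filter (fun s => s ≠ 2 ∨ n.factorization 2 ≠ 1) := by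
    ext s
    rw [Finset.mem_union, Finset.mem_filter, hL, Finset.mem_filter, Finset.mem_sdiff]
    constructor
    · rintro (h | ⟨⟨h1, h2⟩, h3⟩)
      · exact ⟨hTn h, hT2 s h⟩
      · exact ⟨h1, h3⟩
    · rintro ⟨h1, h2⟩
      by_cases h : s ∈ T
      · exact Or.inl h
      · exact Or.inr ⟨⟨h1, h⟩, h2⟩
  have hdisj : Disjoint T L := by
    rw [Finset.disjoint_left]
    intro s hs hs'
    rw [hL, Finset.mem_filter, Finset.mem_sdiff] at hs'
    exact hs'.1.2 hs
  have hUn : T ∪ L ⊆ n.primeFactors := by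
    rw [hU]
    exact Finset.filter_subset _ _
  have hU2 : ∀ s ∈ T ∪ L, s = 2 → n.factorization 2 ≠ 1 := by
    intro s hs h
    rw [hU, Finset.mem_filter] at hs
    rcases hs.2 with h1 | h1
    · exact absurd h h1
    · exact h1
  have hqU : q ∈ T ∪ L := Finset.mem_union_left _ hqT
  have hq1 : 1 ≤ q := (hTp q hqT).one_lt.le
  -- the cost
  have hset : (((n.primeFactors \ l.toFinset).erase q).filter
      fun s => s ≠ 2 ∨ n.factorization 2 ≠ 1) = L := by
    rw [hL]
    ext s
    simp only [Finset.mem_filter, Finset.mem_erase, Finset.mem_sdiff, List.mem_toFinset, hmemT]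
    tauto
  have hcs : cs l q n = (if n.factorization 2 = 1 then 2 else 1) * nc l.length L.card *
      (q ^ n.factorization q).totient := by
    unfold cs
    rw [hset]
  obtain ⟨ρ, hρ⟩ : ∃ ρ : ℕ, ρ = if n.factorization 2 = 1 then 2 else 1 := ⟨_, rfl⟩
  have hρ' : (if n.factorization 2 = 1 then (2 : ℚ) else 1) = (ρ : ℚ) := by
    rw [hρ]
    split_ifs <;> norm_num
  rw [← hρ] at hcs
  have hφ : 0 < n.totient := Nat.totient_pos.2 hn0
  have hkp : 0 < kp (T ∪ L) := kp_pos fun s hs => Nat.prime_of_mem_primeFactors (hUn hs)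
  have hmu : mu l q n = (cs l q n : ℚ) / n.totient := by
    unfold mu
    rw [if_pos hdt]
  have key : ∀ c : ℕ, c * (kp (T ∪ L) * (q ^ n.factorization q).totient) ≤ (q - 1) * n.totient →
      (c : ℚ) * mu l q n ≤ (if n.factorization 2 = 1 then 2 else 1) * ((q : ℚ) - 1) *
        nc l.length L.card / kp (T ∪ L) := by
    intro c hc
    have hφQ : (0 : ℚ) < n.totient := by exact_mod_cast hφ
    have hkpQ : (0 : ℚ) < kp (T ∪ L) := by exact_mod_cast hkp
    rw [hmu, hρ', ← mul_div_assoc, div_le_div_iff₀ hφQ hkpQ]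
    have e : ((q : ℚ) - 1) = ((q - 1 : ℕ) : ℚ) := by
      rw [Nat.cast_sub hq1, Nat.cast_one]
    rw [e, hcs]
    have h1 : c * (ρ * nc l.length L.card * (q ^ n.factorization q).totient) * kp (T ∪ L) ≤
        ρ * (q - 1) * nc l.length L.card * n.totient := by
      calc c * (ρ * nc l.length L.card * (q ^ n.factorization q).totient) * kp (T ∪ L)
          = (ρ * nc l.length L.card) *
            (c * (kp (T ∪ L) * (q ^ n.factorization q).totient)) := by ring
        _ ≤ (ρ * nc l.length L.card) * ((q - 1) * n.totient) := Nat.mul_le_mul_left _ hc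
        _ = ρ * (q - 1) * nc l.length L.card * n.totient := by ring
    exact_mod_cast h1
  have hloc : ∀ s ∈ (T ∪ L), kap s ≤ (s ^ n.factorization s).totient := by
    intro s hs
    have h1 := hv hn s (hUn hs)
    refine loc h1.1 h1.2 fun h => ?_
    rw [h]
    exact hU2 s hs h
  refine ⟨hU, hdisj, ?_, ?_, ?_⟩
  · intro h
    exact (two_iff hn (Nat.dvd_of_mem_primeFactors (hUn h))).1 (hU2 2 h rfl)
  · have h1 := key 1 (by
      have h2 := tot hn hUn hqU hq2 (fun _ => 1) (fun s hs => by
        rw [one_mul]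
        exact hloc s (Finset.mem_of_mem_erase hs))
      rwa [Finset.prod_const_one] at h2)
    rwa [Nat.cast_one, one_mul] at h1
  · intro s hs hsq hs2 hs8
    refine key s ?_
    have hse : s ∈ (T ∪ L).erase q := Finset.mem_erase.2 ⟨hsq, hs⟩
    have h2 := tot hn hUn hqU hq2 (fun x => if x = s then s else 1) (fun x hx => by
      by_cases hxs : x = s
      · rw [if_pos hxs, hxs]
        have h1 := hv hn s (hUn hs)
        by_cases h2 : s = 2
        · have h3 : 2 ^ 3 ∣ n := by
            have := hs8 h2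
            norm_num
            exact this
          have h4 := (Nat.prime_two.pow_dvd_iff_le_factorization hn).1 h3
          rw [h2]
          exact loc2 Nat.prime_two (by omega) (fun _ => h4)
        · have h4 := (h1.1.pow_dvd_iff_le_factorization hn).1 (hs2 h2)
          exact loc2 h1.1 h4 (fun h => absurd h h2)
      · rw [if_neg hxs, one_mul]
        exact hloc x (Finset.mem_of_mem_erase hx))
    rwa [Finset.prod_ite_eq' _ s, if_pos hse] at h2

end Pool.Agent.FO
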