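import Pool.Agent.Lib.MP_640417_ag.GT.SpecL

/-!
# Theorem GT, part L, module Nm6: the numerical condition for length at most 6, general form
-/

set_option autoImplicit false

noncomputable section

namespace Pool.Agent.FO

open Finset Pool.Agent.FC

private lemma nm6_nb0 : nb 0 = 1 := by rw [nb_eq]; rfl

private lemma nm6_nb1 : nb 1 = 2 := by
  rw [nb_eq, Finset.sum_range_one, nm6_nb0]
  rfl

private lemma nm6_nb2 : nb 2 = 6 := by
  rw [nb_eq, Finset.sum_range_succ, Finset.sum_range_one, nm6_nb0, nm6_nb1]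
  rfl

private lemma nm6_nb3 : nb 3 = 26 := by
  rw [nb_eq, Finset.sum_range_succ, Finset.sum_range_succ, Finset.sum_range_one, nm6_nb0,
    nm6_nb1, nm6_nb2]
  rfl

private lemma nm6_nc_succ (k l : ℕ) :
    nc (k + 1) l = 2 * ∑ j ∈ range (l + 1), l.choose j * nb j * nc k (l - j) := rfl

private lemma nm6_nc0 (l : ℕ) : nc 0 l = if l = 0 then 1 else 0 := rfl

private lemma nm6_nc1 (l : ℕ) : nc 1 l = 2 * nb l := by
  rw [show (1 : ℕ) = 0 + 1 from rfl, nm6_nc_succ, Finset.sum_range_succ]
  rw [Finset.sum_eq_zero, Nat.choose_self, Nat.sub_self, nm6_nc0, if_pos rfl]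
  · ring
  · intro j hj
    have := Finset.mem_range.1 hj
    rw [nm6_nc0, if_neg (by omega), mul_zero]

private lemma nm6_ncz (k : ℕ) : nc (k + 1) 0 = 2 * nc k 0 := by
  rw [nm6_nc_succ, Finset.sum_range_one, nm6_nb0]
  simp

private lemma nm6_nc20 : nc 2 0 = 4 := by
  rw [nm6_ncz, nm6_nc1, nm6_nb0]

private lemma nm6_nc21 : nc 2 1 = 16 := by
  rw [show (2 : ℕ) = 1 + 1 from rfl, nm6_nc_succ, Finset.sum_range_succ, Finset.sum_range_one,
    nm6_nc1, nm6_nc1, nm6_nb0, nm6_nb1]
  rfl

private lemma nm6_nc30 : nc 3 0 = 8 := by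
  rw [nm6_ncz, nm6_nc20]

private lemma nm6_nc31 : nc 3 1 = 48 := by
  rw [show (3 : ℕ) = 2 + 1 from rfl, nm6_nc_succ, Finset.sum_range_succ, Finset.sum_range_one,
    nm6_nb0, nm6_nb1, nm6_nc21, show 1 - 1 = 0 from rfl, nm6_nc20]
  rfl

private lemma nm6_nc50 : nc 5 0 = 32 := by
  rw [nm6_ncz, nm6_ncz, nm6_nc30]

theorem pNm6 (hKmn : S_Kmn) (hGrw : S_Grw) (hPrs : S_Prs) : S_Nm6 := by
  classical
  intro m N hm hN T hT hpl h110 h130 h138 h420
  obtain ⟨hT1, hT2, hT3, hT4⟩ := hT
  have hTp : ∀ s ∈ T, s.Prime := fun s hs => Nat.prime_of_mem_primeFactors (hT1 hs)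
  have hTd : ∀ s ∈ T, s ∣ m := fun s hs => Nat.dvd_of_mem_primeFactors (hT1 hs)
  obtain ⟨c, hc⟩ := hT4
  have hc0 : 0 < c := by
    have := hT3.card_pos
    omega
  obtain ⟨-, -, -, -, -, kT6, -⟩ := hKmn T hTp
  refine ⟨?_, ?_⟩
  · intro L hL hd h2L
    have hLp : ∀ s ∈ L, s.Prime := fun s hs => Nat.prime_of_mem_primeFactors (hL hs)
    have hUp : ∀ s ∈ T ∪ L, s.Prime := by
      intro s hs
      rcases Finset.mem_union.1 hs with h | h
      · exact hTp s h
      · exact hLp s h
    have hUc : (T ∪ L).card = T.card + L.card := Finset.card_union_of_disjoint hd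
    have hkU : kp (T ∪ L) = kp T * kp L := Finset.prod_union hd
    suffices h : 12 * nc (T.card - 1) L.card < kp (T ∪ L) from
      lt_of_le_of_lt (Nat.mul_le_mul_right _ (by omega)) h
    obtain ⟨kL2, -, -, -, -, -, kL7, kL1, -⟩ := hKmn L hLp
    rcases (show c = 1 ∨ c = 2 ∨ 3 ≤ c by omega) with h | h | h
    · subst h
      have hT2' : T.card = 2 := by omega
      obtain ⟨p1, -, -, p4⟩ := hPrs T hTp hT2' hpl
      rw [show T.card - 1 = 1 by omega]
      rcases (show L.card = 0 ∨ L.card = 1 ∨ L.card = 2 ∨ 3 ≤ L.card by omega) with h | h | h | h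
      · rw [h, nm6_nc1, nm6_nb0, Finset.card_eq_zero.1 h, Finset.union_empty]
        omega
      · rw [h, nm6_nc1, nm6_nb1, hkU]
        have := Nat.mul_le_mul p1 (kL1 (by omega))
        omega
      · rw [h, nm6_nc1, nm6_nb2, hkU]
        by_cases h23 : L = {2, 3}
        · have h2 : 2 ∉ T := by
            intro h2
            exact (Finset.disjoint_left.1 hd h2) (by rw [h23]; simp)
          have h3 : 3 ∉ T := by
            intro h2
            exact (Finset.disjoint_left.1 hd h2) (by rw [h23]; simp)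
          have := Nat.mul_le_mul (p4 h2 h3) (kL2 (by omega))
          omega
        · have := Nat.mul_le_mul p1 (kL7 h h23)
          omega
      · refine (hGrw (fun _ => True) (fun _ _ _ => trivial) 12 1 3 ?_).1 L.card h (T ∪ L) hUp
          trivial (by omega)
        intro S hS _ hSc
        have := (hKmn S hS).2.2.2.1 (by omega)
        rw [nm6_nc1, nm6_nb3]
        omega
    · subst h
      rw [show T.card - 1 = 3 by omega]
      rcases (show L.card = 0 ∨ 1 ≤ L.card by omega) with h | h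
      · rw [h, nm6_nc30, Finset.card_eq_zero.1 h, Finset.union_empty]
        have := kT6 (by omega) h420
        omega
      · refine (hGrw (fun _ => True) (fun _ _ _ => trivial) 12 3 1 ?_).1 L.card h (T ∪ L) hUp
          trivial (by omega)
        intro S hS _ hSc
        have := (hKmn S hS).2.2.2.1 (by omega)
        rw [nm6_nc31]
        omega
    · have h1 := (hGrw (fun _ => True) (fun _ _ _ => trivial) 12 5 0 (by
        intro S hS _ hSc
        have := (hKmn S hS).2.2.2.2.1 (by omega)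
        rw [nm6_nc50]
        omega)).2 rfl (c - 3) L.card (T ∪ L) hUp trivial (by omega)
      rwa [show 5 + 2 * (c - 3) = T.card - 1 by omega] at h1
  · intro h2m h2T L hL hd
    have hLp : ∀ s ∈ L, s.Prime :=
      fun s hs => Nat.prime_of_mem_primeFactors (Finset.mem_of_mem_erase (hL hs))
    have h2L : 2 ∉ L := fun h => (Finset.mem_erase.1 (hL h)).1 rfl
    have hUp : ∀ s ∈ T ∪ L, s.Prime := by
      intro s hs
      rcases Finset.mem_union.1 hs with h | h
      · exact hTp s h
      · exact hLp s h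
    have h2U : 2 ∉ T ∪ L := by
      rw [Finset.mem_union]
      tauto
    have hUc : (T ∪ L).card = T.card + L.card := Finset.card_union_of_disjoint hd
    have hkU : kp (T ∪ L) = kp T * kp L := Finset.prod_union hd
    have hR : ∀ (S : Finset ℕ) (p : ℕ), 2 ∉ S → 2 ∉ S.erase p :=
      fun S p h h' => h (Finset.mem_of_mem_erase h')
    suffices h : 24 * nc (T.card - 1) L.card < kp (T ∪ L) from
      lt_of_le_of_lt (Nat.mul_le_mul_right _ (by omega)) h
    obtain ⟨-, -, -, -, -, -, -, kL1, -⟩ := hKmn L hLp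
    rcases (show c = 1 ∨ 2 ≤ c by omega) with h | h
    · subst h
      have hT2' : T.card = 2 := by omega
      obtain ⟨-, -, p3, -⟩ := hPrs T hTp hT2' hpl
      have p3' : 56 ≤ kp T := by
        refine p3 h2T h138 ?_ h130
        intro h1
        apply h110 h1
        have h3 : 5 ∣ m := hTd 5 (by rw [h1]; simp)
        have h5 : 11 ∣ m := hTd 11 (by rw [h1]; simp)
        omega
      rw [show T.card - 1 = 1 by omega]
      rcases (show L.card = 0 ∨ L.card = 1 ∨ 2 ≤ L.card by omega) with h | h | h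
      · rw [h, nm6_nc1, nm6_nb0, Finset.card_eq_zero.1 h, Finset.union_empty]
        omega
      · rw [h, nm6_nc1, nm6_nb1, hkU]
        have := Nat.mul_le_mul p3' (kL1 (by omega))
        omega
      · refine (hGrw (fun S => 2 ∉ S) hR 24 1 2 ?_).1 L.card h (T ∪ L) hUp h2U (by omega)
        intro S hS h2S hSc
        have := ((hKmn S hS).2.2.2.2.2.2.2.2 h2S).2.2.1 (by omega)
        rw [nm6_nc1, nm6_nb2]
        omega
    · have h1 := (hGrw (fun S => 2 ∉ S) hR 24 3 0 (by
        intro S hS h2S hSc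
        have := ((hKmn S hS).2.2.2.2.2.2.2.2 h2S).2.2.1 (by omega)
        rw [nm6_nc30]
        omega)).2 rfl (c - 2) L.card (T ∪ L) hUp h2U (by omega)
      rwa [show 3 + 2 * (c - 2) = T.card - 1 by omega] at h1

end Pool.Agent.FO
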