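import Pool.Agent.Lib.MP_640417_ag.GT.SpecL

/-!
# Sums over tuples
-/

set_option autoImplicit false

open Finset Pool.Agent.FC

namespace Pool.Agent.FO

namespace GTuLAux

/-- the counting function as a sum -/
theorem cnt_eq {m : ℕ} {ι : Type} [Fintype ι] (a : ι → ZMod m) (x : ZMod m) :
    cnt a x = ∑ i, if a i = x then (1 : ℤ) else 0 := by
  rw [cnt, Finset.card_filter]
  push_cast
  refine Finset.sum_congr rfl fun i _ => ?_
  split_ifs <;> rfl

/-- the sum with the counting function -/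
theorem sum_cnt {m : ℕ} [NeZero m] {ι : Type} [Fintype ι] (a : ι → ZMod m) (Λ : ZMod m → ℤ) :
    ∑ x, cnt a x * Λ x = ∑ i, Λ (a i) := by
  have h1 : ∀ x, cnt a x * Λ x = ∑ i, if a i = x then Λ x else 0 := by
    intro x
    rw [cnt_eq, Finset.sum_mul]
    refine Finset.sum_congr rfl fun i _ => ?_
    rw [ite_mul, one_mul, zero_mul]
  rw [Finset.sum_congr rfl fun x _ => h1 x, Finset.sum_comm]
  refine Finset.sum_congr rfl fun i _ => ?_
  rw [Finset.sum_ite_eq, if_pos (Finset.mem_univ _)]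

end GTuLAux

open GTuLAux in
theorem pTuL : S_TuL := by
  intro m _ ι _ a Λ hΛ
  have h2 : ∑ x, cnt a (-x) * Λ x = -∑ i, Λ (a i) := by
    have h3 : ∑ x : ZMod m, cnt a (-x) * Λ x = ∑ x : ZMod m, cnt a x * Λ (-x) := by
      rw [← Equiv.sum_comp (Equiv.neg (ZMod m)) fun x => cnt a x * Λ (-x)]
      refine Finset.sum_congr rfl fun x _ => ?_
      rw [Equiv.neg_apply, neg_neg]
    rw [h3, ← sum_cnt a Λ, ← Finset.sum_neg_distrib]
    refine Finset.sum_congr rfl fun x _ => ?_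
    rw [hΛ x, mul_neg]
  have h4 : ∑ x, (cnt a x - cnt a (-x)) * Λ x = ∑ x, cnt a x * Λ x - ∑ x, cnt a (-x) * Λ x := by
    rw [← Finset.sum_sub_distrib]
    exact Finset.sum_congr rfl fun x _ => sub_mul _ _ _
  rw [h4, h2, sum_cnt]
  ring

end Pool.Agent.FO
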