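import Pool.Agent.Lib.MP_640417_ag.GT.MainK
import Pool.Agent.Lib.MP_640417_ag.GT.TuL
import Pool.Agent.Lib.MP_640417_ag.GT.EqM
import Pool.Agent.Lib.MP_640417_ag.GT.ChN
import Pool.Agent.Lib.MP_640417_ag.GT.Low
import Pool.Agent.Lib.MP_640417_ag.GT.MuK
import Pool.Agent.Lib.MP_640417_ag.GT.Mu1
import Pool.Agent.Lib.MP_640417_ag.GT.Mu2
import Pool.Agent.Lib.MP_640417_ag.GT.Mu3
import Pool.Agent.Lib.MP_640417_ag.GT.Bd1
import Pool.Agent.Lib.MP_640417_ag.GT.Bd2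
import Pool.Agent.Lib.MP_640417_ag.GT.Bd3
import Pool.Agent.Lib.MP_640417_ag.GT.BC1
import Pool.Agent.Lib.MP_640417_ag.GT.BC2
import Pool.Agent.Lib.MP_640417_ag.GT.BC3
import Pool.Agent.Lib.MP_640417_ag.GT.Nm6
import Pool.Agent.Lib.MP_640417_ag.GT.Num10
import Pool.Agent.Lib.MP_640417_ag.GT.G55
import Pool.Agent.Lib.MP_640417_ag.GT.GmB
import Pool.Agent.Lib.MP_640417_ag.GT.GT6

/-! # Theorem GT, part L: assembly; the final statement -/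

set_option autoImplicit false

open Finset Pool.Agent.FC

namespace Pool.Agent.FO

theorem gTuL : S_TuL := pTuL
theorem gEqM : S_EqM := pEqM gLamAv
theorem gChN : S_ChN := pChN gLamT
theorem gLow : S_Low := pLow
theorem gMuK : S_MuK := pMuK
theorem gMu1 : S_Mu1 := pMu1 gMuK gKmn gGrw
theorem gMu2 : S_Mu2 := pMu2 gMuK gKmn gGrw
theorem gMu3 : S_Mu3 := pMu3 gMuK gKmn gGrw
theorem gBd1 : S_Bd1 := pBd1 gUpsB gUpsL
theorem gBd2 : S_Bd2 := pBd2 gUpsB gUpsL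
theorem gBd3 : S_Bd3 := pBd3 gUpsB
theorem gBC1 : S_BC1 := pBC1 gLamB gTuL gEqM gLow gMu1 gBd1
theorem gBC2 : S_BC2 := pBC2 gLamB gTuL gEqM gLow gMu2 gBd2
theorem gBC3 : S_BC3 := pBC3 gLamB gTuL gEqM gLow gMu3 gBd3
theorem gNm6 : S_Nm6 := pNm6 gKmn gGrw gPrs
theorem gG55 : S_G55 := pG55
theorem gGmB : S_GmB := pGmB gEn gGmA gG55
theorem gGT6 : S_GT6 := pGT6 gInA gGT gGmA gGmB gCrN gChN gNm6 gBC1 gBC2 gBC3

theorem HD_le_G13 : HD ≤ G13 := le_sup_left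

theorem G13_le_G14 : G13 ≤ G14 := le_sup_left

/-- the group `HD`, no set of primes -/
theorem gdHD (m : ℕ) [NeZero m] : GdA m HD fun _ => False :=
  ⟨le_rfl, fun _ _ h => h.elim, fun _ _ h => h.elim⟩

/-- **THEOREM FermatDegrees, final form.** -/
theorem main3 (m N s : ℕ) [NeZero m] [NeZero s] (a : Fin N → ZMod m) (ha : IsTate m a)
    (hp : ∀ p k : ℕ, p.Prime → p ≤ 6 * N + 1 → p ^ k ≤ (32 * N) ^ (2 * N) → p ^ k ∣ m → p ^ k ∣ s) :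
    (∃ (n : ℕ) (b : Fin n → ZMod s), n ≤ N ∧ IsTate s b ∧ clt a - clt b ∈ HD) ∧
    ((∀ T, Ess s T → Crt s N T) → clt a ∈ HD) ∧
    ((∀ T, Ess s T → T ∈ pl ∨ Crt s N T) → clt a ∈ G13) ∧
    ((∀ T, Ess s T → T ∈ pl ∨ T = {5, 11} ∨ Crt s N T) → clt a ∈ G14) ∧
    (N ≤ 6 → clt a ∈ G14 ∧ (¬ 110 ∣ m → clt a ∈ G13)) ∧
    (¬ 2 ∣ s → N ≤ 10 → clt a ∈ G14 ∧ (N ≤ 9 ∨ ¬ 55 ∣ s → clt a ∈ G13)) ∧
    (Dg s → clt a ∈ G13) := by
  obtain ⟨h1, h2, h3⟩ := pBrg hSzBas m N a ha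
  obtain ⟨n, b, hn, hb0, hbS, hb⟩ := level m N s a ha hp
  have hs0 : 0 < s := Nat.pos_of_ne_zero (NeZero.ne s)
  have hab : clt a = (clt a - clt b) + clt b := by abel
  have hC0 : ∀ (A : AddSubgroup (UnitAddCircle →₀ ℤ)) (Al : Finset ℕ → Prop), HD ≤ A → GdA s A Al →
      (∀ T, Ess s T → Al T ∨ Crt s N T) → clt a ∈ A := by
    intro A Al hA hG hC
    have h4 : clt b ∈ A := by
      refine gGTt s N A Al hG ?_ (Fin n) b (by simpa using hn) hb0 hbS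
      intro T hT hTp
      exact gCrN s N T hT ((hC T hT).resolve_left hTp)
    rw [hab]
    exact add_mem (hA hb) h4
  have key : (∀ T, Ess s T → T ∈ pl ∨ Crt s N T) → clt a ∈ G13 := hC0 G13 (fun T => T ∈ pl) HD_le_G13 (gGmA s)
  have key2 : (∀ T, Ess s T → T ∈ pl ∨ T = {5, 11} ∨ Crt s N T) → clt a ∈ G14 := fun h =>
    hC0 G14 Al14 (HD_le_G13.trans G13_le_G14) (gGmB s) fun T hT => or_assoc.2 (h T hT)
  refine ⟨(main2 m N s a ha hp).1, ?_, key, key2, ?_, ?_, ?_⟩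
  · intro hC
    exact hC0 HD (fun _ => False) le_rfl (gdHD s) fun T hT => Or.inr (hC T hT)
  · intro hN
    exact gGT6 m (Fin N) a (by simpa using hN) h1 h3
  · intro h2s hN
    refine ⟨key2 fun T hT => ?_, fun h9 => key fun T hT => ?_⟩
    · by_cases hTp : T ∈ pl
      · exact Or.inl hTp
      · by_cases hT5 : T = {5, 11}
        · exact Or.inr (Or.inl hT5)
        · exact Or.inr (Or.inr (pNum10 gKmn gGrw gPrs s N h2s hN T hT hTp hT5))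
    · by_cases hTp : T ∈ pl
      · exact Or.inl hTp
      · exact Or.inr (gNumO s N hs0 h2s (h9.imp_right fun h => ⟨hN, h⟩) T hT hTp)
  · intro hD
    exact key fun T hT => Or.inl (gNumA s hs0 hD T hT)

end Pool.Agent.FO
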