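import Pool.Agent.Lib.MP_640417_ag.GT.Pc

/-!
# Theorem GT: the pairs of primes
-/

set_option autoImplicit false

open Finset Pool.Agent.FC

namespace Pool.Agent.FO

namespace GPcAux

theorem cr1_pair {m N : ℕ} {T : Finset ℕ} (hT : Ess m T) {p q : ℕ} (hp : p ∈ T) (hq : q ∈ T) (hpq : p < q)
    (h : N < hf p * hf q ∧ (2 ∣ m → p ≠ 2 → 2 * N < hf p * hf q)) : Cr1 m N T := by
  have hP : ∀ s ∈ T, s.Prime := fun s hs => Nat.prime_of_mem_primeFactors (hT.1 hs)
  have h1 : hf p * hf q ≤ ∏ s ∈ T, hf s := by
    have h2 : ({p, q} : Finset ℕ) ⊆ T := by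
      intro x hx
      rw [mem_insert, mem_singleton] at hx
      rcases hx with rfl | rfl
      · exact hp
      · exact hq
    rw [← prod_sdiff h2, prod_pair hpq.ne]
    exact Nat.le_mul_of_pos_left _ (prod_pos fun s hs => one_le_hf (hP s (mem_sdiff.1 hs).1))
  exact ⟨h.1.trans_le h1, fun h2 h3 => (h.2 h2 fun h => h3 (h ▸ hp)).trans_le h1⟩

theorem dich {m N : ℕ} {L : List (ℕ × ℕ)} (hPC : PairCond m N L) {T : Finset ℕ} (hT : Ess m T) :
    Cr1 m N T ∨ ∀ p ∈ T, ∀ q ∈ T, p < q → (p, q) ∈ L := by
  by_cases h : ∀ p ∈ T, ∀ q ∈ T, p < q → (p, q) ∈ L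
  · exact Or.inr h
  · left
    push Not at h
    obtain ⟨p, hp, q, hq, hpq, hL⟩ := h
    have h1 := Nat.prime_of_mem_primeFactors (hT.1 hp)
    have h2 := Nat.prime_of_mem_primeFactors (hT.1 hq)
    have h3 := Nat.dvd_of_mem_primeFactors (hT.1 hp)
    have h4 := Nat.dvd_of_mem_primeFactors (hT.1 hq)
    exact cr1_pair hT hp hq hpq ((hPC p q h1 h2 h3 h4 hpq fun h => hT.2.1 (h ▸ hp)).resolve_left hL)

theorem two_lt {S : Finset ℕ} (h : 2 ≤ S.card) : ∃ x ∈ S, ∃ y ∈ S, x < y := by
  obtain ⟨x, hx, y, hy, hxy⟩ := one_lt_card.1 (show 1 < S.card by omega)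
  rcases lt_or_gt_of_ne hxy with h | h
  · exact ⟨x, hx, y, hy, h⟩
  · exact ⟨y, hy, x, hx, h⟩

theorem sets {T : Finset ℕ} (hn : T.Nonempty) (he : 2 ∣ T.card) (h : ∀ p ∈ T, ∀ q ∈ T, p < q → (p, q) ∈ (5, 11) :: pq) :
    (T ∈ pl ∨ T = {5, 11}) ∨ T = {2, 3, 5, 7} ∨ T = {2, 3, 5, 11} := by
  have hc := hn.card_pos
  by_cases h2 : T.card = 2
  · left
    obtain ⟨x, hx, y, hy, hxy⟩ := two_lt (show 2 ≤ T.card by omega)
    have h1 := h x hx y hy hxy
    have h3 : T = {x, y} := by
      symm
      refine eq_of_subset_of_card_le ?_ ?_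
      · intro z hz
        rw [mem_insert, mem_singleton] at hz
        rcases hz with rfl | rfl
        · exact hx
        · exact hy
      · rw [h2, card_pair hxy.ne]
    simp only [pq, List.mem_cons, Prod.mk.injEq, List.not_mem_nil, or_false] at h1
    rw [h3]
    rcases h1 with ⟨rfl, rfl⟩ | ⟨rfl, rfl⟩ | ⟨rfl, rfl⟩ | ⟨rfl, rfl⟩ | ⟨rfl, rfl⟩ | ⟨rfl, rfl⟩ | ⟨rfl, rfl⟩ |
      ⟨rfl, rfl⟩ | ⟨rfl, rfl⟩ | ⟨rfl, rfl⟩ | ⟨rfl, rfl⟩ | ⟨rfl, rfl⟩ | ⟨rfl, rfl⟩ | ⟨rfl, rfl⟩
    · exact Or.inr rfl
    all_goals exact Or.inl (by decide)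
  · right
    have h4 : 4 ≤ T.card := by omega
    have hU : T.card ≤ (T \ {2, 3}).card + 2 := by
      have h5 := le_card_sdiff ({2, 3} : Finset ℕ) T
      have h6 : ({2, 3} : Finset ℕ).card = 2 := rfl
      omega
    obtain ⟨x, hx, y, hy, hxy⟩ := two_lt (show 2 ≤ (T \ {2, 3}).card by omega)
    have key : ∀ u ∈ T \ {2, 3}, ∀ v ∈ T \ {2, 3}, u < v → u = 5 ∧ (v = 7 ∨ v = 11) := by
      intro u hu v hv huv
      have h1 := h u (mem_sdiff.1 hu).1 v (mem_sdiff.1 hv).1 huv
      have h3 := (mem_sdiff.1 hu).2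
      rw [mem_insert, mem_singleton] at h3
      push Not at h3
      simp only [pq, List.mem_cons, Prod.mk.injEq, List.not_mem_nil, or_false] at h1
      omega
    obtain ⟨rfl, hy1⟩ := key x hx y hy hxy
    have hU2 : T \ {2, 3} = {5, y} := by
      ext z
      rw [mem_insert, mem_singleton]
      constructor
      · intro hz
        by_contra hne
        push Not at hne
        rcases lt_or_gt_of_ne hne.1 with h5 | h5
        · have := key z hz 5 hx h5
          omega
        · have h6 := key 5 hx z hz h5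
          rcases lt_or_gt_of_ne hne.2 with h7 | h7
          · have := key z hz y hy h7
            omega
          · have := key y hy z hz h7
            omega
      · rintro (rfl | rfl)
        · exact hx
        · exact hy
    have h23 : ({2, 3} : Finset ℕ) ⊆ T := by
      have h5 : (T \ {2, 3}).card = 2 := by rw [hU2, card_pair hxy.ne]
      have h6 := card_sdiff_add_card_inter T ({2, 3} : Finset ℕ)
      have h7 : T ∩ {2, 3} = {2, 3} := by
        refine eq_of_subset_of_card_le inter_subset_right ?_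
        have h6 : ({2, 3} : Finset ℕ).card = 2 := rfl
        omega
      rw [← h7]
      exact inter_subset_left
    have hT : T = {5, y} ∪ {2, 3} := by
      rw [← hU2, sdiff_union_of_subset h23]
    rcases hy1 with rfl | rfl
    · left
      rw [hT]
      decide
    · right
      rw [hT]
      decide

theorem ess2357 {m N : ℕ} {T : Finset ℕ} (hT : Ess m T) (h : T = {2, 3, 5, 7}) (h420 : 420 ∣ m → N < 6) : Cr1 m N T := by
  subst h
  have h2 := hT.2.1 (by simp)
  have h3 : 3 ∣ m := Nat.dvd_of_mem_primeFactors (hT.1 (by simp))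
  have h5 : 5 ∣ m := Nat.dvd_of_mem_primeFactors (hT.1 (by simp))
  have h7 : 7 ∣ m := Nat.dvd_of_mem_primeFactors (hT.1 (by simp))
  have h1 : ∏ p ∈ ({2, 3, 5, 7} : Finset ℕ), hf p = 6 := by decide
  exact ⟨by rw [h1]; exact h420 (by omega), fun _ h => absurd (by simp) h⟩

theorem ess235b {m N : ℕ} {T : Finset ℕ} (hT : Ess m T) (h : T = {2, 3, 5, 11}) (h660 : 660 ∣ m → N < 10) : Cr1 m N T := by
  subst h
  have h2 := hT.2.1 (by simp)
  have h3 : 3 ∣ m := Nat.dvd_of_mem_primeFactors (hT.1 (by simp))
  have h5 : 5 ∣ m := Nat.dvd_of_mem_primeFactors (hT.1 (by simp))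
  have h7 : 11 ∣ m := Nat.dvd_of_mem_primeFactors (hT.1 (by simp))
  have h1 : ∏ p ∈ ({2, 3, 5, 11} : Finset ℕ), hf p = 10 := by decide
  exact ⟨by rw [h1]; exact h660 (by omega), fun _ h => absurd (by simp) h⟩

theorem pl_card : ∀ T ∈ pl, T.card = 2 := by decide

end GPcAux

open GPcAux

/-- no exceptions -/
theorem condHD (hMx : S_Mx) (hNcR : S_NcR) (hKmn : S_Kmn) (hGrw : S_Grw) {m N : ℕ} (hPC : PairCond m N []) :
    ∀ T, Ess m T → Crt m N T := by
  have h1 : ∀ T, Ess m T → False ∨ Cr1 m N T := by
    intro T hT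
    rcases dich hPC hT with h | h
    · exact Or.inr h
    · have hc := hT.2.2.1.card_pos
      obtain ⟨c, hc2⟩ := hT.2.2.2
      obtain ⟨x, hx, y, hy, hxy⟩ := two_lt (show 2 ≤ T.card by omega)
      exact absurd (h x hx y hy hxy) List.not_mem_nil
  intro T hT
  exact crt_of hMx hNcR hKmn hGrw m N (fun _ => False) (fun _ h => h.elim) h1 T hT id

/-- the thirteen pairs -/
theorem cond13 (hMx : S_Mx) (hNcR : S_NcR) (hKmn : S_Kmn) (hGrw : S_Grw) {m N : ℕ} (hPC : PairCond m N pq)
    (h420 : 420 ∣ m → N < 6) : ∀ T, Ess m T → T ∈ pl ∨ Crt m N T := by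
  have h1 : ∀ T, Ess m T → T ∈ pl ∨ Cr1 m N T := by
    intro T hT
    rcases dich hPC hT with h | h
    · exact Or.inr h
    · have h5 : ¬ (T = {5, 11} ∨ T = {2, 3, 5, 11}) := by
        intro h5
        have h6 : (5, 11) ∈ pq := h 5 (by rcases h5 with rfl | rfl <;> simp) 11 (by rcases h5 with rfl | rfl <;> simp) (by norm_num)
        exact absurd h6 (by decide)
      push Not at h5
      rcases sets hT.2.2.1 hT.2.2.2 fun p hp q hq hpq => List.mem_cons_of_mem _ (h p hp q hq hpq) with (h2 | h2) | h2 | h2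
      · exact Or.inl h2
      · exact absurd h2 h5.1
      · exact Or.inr (ess2357 hT h2 h420)
      · exact absurd h2 h5.2
  intro T hT
  by_cases hA : T ∈ pl
  · exact Or.inl hA
  · exact Or.inr (crt_of hMx hNcR hKmn hGrw m N (fun T => T ∈ pl) pl_card h1 T hT hA)

/-- the thirteen pairs and the pair `5, 11` -/
theorem cond14 (hMx : S_Mx) (hNcR : S_NcR) (hKmn : S_Kmn) (hGrw : S_Grw) {m N : ℕ} (hPC : PairCond m N ((5, 11) :: pq))
    (h420 : 420 ∣ m → N < 6) (h660 : 660 ∣ m → N < 10) : ∀ T, Ess m T → (T ∈ pl ∨ T = {5, 11}) ∨ Crt m N T := by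
  have h1 : ∀ T, Ess m T → (T ∈ pl ∨ T = {5, 11}) ∨ Cr1 m N T := by
    intro T hT
    rcases dich hPC hT with h | h
    · exact Or.inr h
    · rcases sets hT.2.2.1 hT.2.2.2 h with h2 | h2 | h2
      · exact Or.inl h2
      · exact Or.inr (ess2357 hT h2 h420)
      · exact Or.inr (ess235b hT h2 h660)
  intro T hT
  by_cases hA : T ∈ pl ∨ T = {5, 11}
  · exact Or.inl hA
  · refine Or.inr (crt_of hMx hNcR hKmn hGrw m N (fun T => T ∈ pl ∨ T = {5, 11}) ?_ h1 T hT hA)
    rintro T (h | rfl)
    · exact pl_card T h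
    · rfl

namespace GPcAux

theorem hf_le {p n : ℕ} (hp : 3 ≤ p) (h : 2 * n + 1 ≤ p) : n ≤ hf p := by
  unfold hf
  rw [if_neg (by omega)]
  omega

end GPcAux

/-- length at most `8` -/
theorem pair8 {m N : ℕ} (hN : N ≤ 8) (hd : ∀ d ∈ [130, 138, 154, 170, 174, 186, 420], ¬ d ∣ m) {L : List (ℕ × ℕ)}
    (hL : pq ⊆ L) (h110 : 110 ∣ m → (5, 11) ∈ L) : PairCond m N L := by
  have d1 : ¬ 130 ∣ m := hd _ (by simp)
  have d2 : ¬ 138 ∣ m := hd _ (by simp)
  have d3 : ¬ 154 ∣ m := hd _ (by simp)
  have d4 : ¬ 170 ∣ m := hd _ (by simp)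
  have d5 : ¬ 174 ∣ m := hd _ (by simp)
  have d6 : ¬ 186 ∣ m := hd _ (by simp)
  intro p q hp hq hpm hqm hpq h24
  have hin : (p, q) ∈ pq → (p, q) ∈ L := fun h => hL h
  by_cases h11 : 11 ≤ p
  · have h1 : 5 ≤ hf p := hf_le (by omega) (by omega)
    have h2 : 5 ≤ hf q := hf_le (by omega) (by omega)
    have h3 : 5 * 5 ≤ hf p * hf q := Nat.mul_le_mul h1 h2
    exact Or.inr ⟨by omega, fun _ _ => by omega⟩
  · have hp2 := hp.two_le
    have h3p : p = 2 ∨ p = 3 ∨ p = 5 ∨ p = 7 := by
      have h4 : p < 11 := by omega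
      interval_cases p <;> first | (exfalso; revert hp; norm_num; done) | simp
    rcases h3p with rfl | rfl | rfl | rfl
    · by_cases hq1 : q < 19
      · left
        apply hin
        interval_cases q <;> first | (exfalso; revert hq; norm_num; done) | decide
      · have h2 : 9 ≤ hf q := hf_le (by omega) (by omega)
        have h3 : hf 2 = 1 := rfl
        exact Or.inr ⟨by rw [h3]; omega, fun _ h => absurd rfl h⟩
    · have h3 : hf 3 = 1 := rfl
      by_cases hq1 : q < 23
      · left
        apply hin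
        interval_cases q <;> first | (exfalso; revert hq; norm_num; done) | decide
      · right
        have h2 : 11 ≤ hf q := hf_le (by omega) (by omega)
        refine ⟨by rw [h3]; omega, fun hm2 _ => ?_⟩
        have hq2 : 37 ≤ q := by
          by_contra hlt
          have hlt2 : q < 37 := by omega
          interval_cases q <;> first | (exfalso; revert hq; norm_num; done) | omega
        have h4 : 18 ≤ hf q := hf_le (by omega) (by omega)
        rw [h3]
        omega
    · have h3 : hf 5 = 2 := rfl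
      by_cases hq1 : q < 11
      · left
        apply hin
        interval_cases q <;> first | (exfalso; revert hq; norm_num; done) | decide
      · by_cases hm2 : 2 ∣ m
        · by_cases hq11 : q = 11
          · left
            subst hq11
            exact h110 (by omega)
          · right
            have hq2 : 19 ≤ q := by
              by_contra hlt
              have hlt2 : q < 19 := by omega
              have hlt3 : 12 ≤ q := by omega
              interval_cases q <;> first | (exfalso; revert hq; norm_num; done) | omega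
            have h4 : 9 ≤ hf q := hf_le (by omega) (by omega)
            rw [h3]
            exact ⟨by omega, fun _ _ => by omega⟩
        · right
          have h4 : 5 ≤ hf q := hf_le (by omega) (by omega)
          rw [h3]
          exact ⟨by omega, fun h => absurd h hm2⟩
    · right
      have h3 : hf 7 = 3 := rfl
      have hq1 : 11 ≤ q := by
        by_contra hlt
        have hlt2 : q < 11 := by omega
        interval_cases q <;> (revert hq; norm_num)
      have h4 : 5 ≤ hf q := hf_le (by omega) (by omega)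
      rw [h3]
      refine ⟨by omega, fun hm2 _ => ?_⟩
      have hq2 : 13 ≤ q := by
        by_contra hlt
        have hlt2 : q < 13 := by omega
        interval_cases q
        · omega
        · revert hq
          norm_num
      have h4 : 6 ≤ hf q := hf_le (by omega) (by omega)
      omega

/-- odd levels, length at most `10` -/
theorem pair10 {m N : ℕ} (hN : N ≤ 10) (hm2 : ¬ 2 ∣ m) {L : List (ℕ × ℕ)} (hL : pq ⊆ L) (h55 : 55 ∣ m → (5, 11) ∈ L) :
    PairCond m N L := by
  intro p q hp hq hpm hqm hpq h24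
  have hin : (p, q) ∈ pq → (p, q) ∈ L := fun h => hL h
  have key : (p, q) ∈ L ∨ N < hf p * hf q := by
    by_cases h11 : 11 ≤ p
    · have h1 : 5 ≤ hf p := hf_le (by omega) (by omega)
      have h2 : 5 ≤ hf q := hf_le (by omega) (by omega)
      have h3 : 5 * 5 ≤ hf p * hf q := Nat.mul_le_mul h1 h2
      exact Or.inr (by omega)
    · have hp2 := hp.two_le
      have h3p : p = 2 ∨ p = 3 ∨ p = 5 ∨ p = 7 := by
        have h4 : p < 11 := by omega
        interval_cases p <;> first | (exfalso; revert hp; norm_num; done) | simp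
      rcases h3p with rfl | rfl | rfl | rfl
      · exact absurd hpm hm2
      · have h3 : hf 3 = 1 := rfl
        by_cases hq1 : q < 23
        · left
          apply hin
          interval_cases q <;> first | (exfalso; revert hq; norm_num; done) | decide
        · have h2 : 11 ≤ hf q := hf_le (by omega) (by omega)
          exact Or.inr (by rw [h3]; omega)
      · have h3 : hf 5 = 2 := rfl
        by_cases hq1 : q < 11
        · left
          apply hin
          interval_cases q <;> first | (exfalso; revert hq; norm_num; done) | decide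
        · by_cases hq11 : q = 11
          · left
            subst hq11
            exact h55 (by omega)
          · right
            have hq2 : 13 ≤ q := by
              by_contra hlt
              have hlt2 : q = 12 := by omega
              subst hlt2
              revert hq
              norm_num
            have h4 : 6 ≤ hf q := hf_le (by omega) (by omega)
            rw [h3]
            omega
      · right
        have h3 : hf 7 = 3 := rfl
        have hq1 : 11 ≤ q := by
          by_contra hlt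
          have hlt2 : q < 11 := by omega
          interval_cases q <;> (revert hq; norm_num)
        have h4 : 5 ≤ hf q := hf_le (by omega) (by omega)
        rw [h3]
        omega
  exact key.imp_right fun h => ⟨h, fun h2 => absurd h2 hm2⟩

end Pool.Agent.FO
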