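import Pool.Agent.Lib.MP_640417_ag.GT.MainL
import Pool.Agent.Lib.MP_640417_ag.GT.Pd

/-! # Theorem GT: the final statement with the condition on pairs of primes -/

set_option autoImplicit false

open Finset Pool.Agent.FC

namespace Pool.Agent.FO

/-- **THEOREM FermatDegrees, final form.** -/
theorem main4 (m N : ℕ) [NeZero m] (a : Fin N → ZMod m) (ha : IsTate m a) :
    (∀ (s : ℕ) [NeZero s], (∀ p k : ℕ, p.Prime → p ≤ 6 * N + 1 → p ^ k ≤ (32 * N) ^ (2 * N) → p ^ k ∣ m → p ^ k ∣ s) →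
      ∃ (n : ℕ) (b : Fin n → ZMod s), n ≤ N ∧ IsTate s b ∧ clt a - clt b ∈ HD) ∧
    (PairCond m N [] → clt a ∈ HD) ∧
    (PairCond m N pq → (420 ∣ m → N < 6) → clt a ∈ G13) ∧
    (PairCond m N ((5, 11) :: pq) → (420 ∣ m → N < 6) → (660 ∣ m → N < 10) → clt a ∈ G14) ∧
    (N ≤ 6 → clt a ∈ G14 ∧ (¬ 110 ∣ m → clt a ∈ G13)) ∧
    (N ≤ 8 → (∀ d ∈ [130, 138, 154, 170, 174, 186, 420], ¬ d ∣ m) → clt a ∈ G14 ∧ (¬ 110 ∣ m → clt a ∈ G13)) ∧
    (N ≤ 10 → ¬ 2 ∣ m → clt a ∈ G14 ∧ (¬ 55 ∣ m → clt a ∈ G13)) := by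
  obtain ⟨h1, h2, h3⟩ := pBrg hSzBas m N a ha
  have hmain := main3 m N m a ha fun _ _ _ _ _ h => h
  have k13 : PairCond m N pq → (420 ∣ m → N < 6) → clt a ∈ G13 := fun hP h4 =>
    hmain.2.2.1 (cond13 gMx gNcR gKmn gGrw hP h4)
  have k14 : PairCond m N ((5, 11) :: pq) → (420 ∣ m → N < 6) → (660 ∣ m → N < 10) → clt a ∈ G14 := fun hP h4 h6 =>
    hmain.2.2.2.1 fun T hT => or_assoc.1 (cond14 gMx gNcR gKmn gGrw hP h4 h6 T hT)
  refine ⟨fun s _ hs => (main2 m N s a ha hs).1, fun hP => hmain.2.1 (condHD gMx gNcR gKmn gGrw hP), k13, k14,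
    hmain.2.2.2.2.1, fun hN hd => ⟨?_, fun h => ?_⟩, fun hN hm2 => ⟨?_, fun h => ?_⟩⟩
  · refine k14 (pair8 hN hd (List.subset_cons_self _ _) fun _ => List.mem_cons_self) (fun h => absurd h (hd _ (by simp))) ?_
    exact fun _ => by omega
  · exact k13 (pair8 hN hd (List.Subset.refl _) fun h' => absurd h' h) (fun h => absurd h (hd _ (by simp)))
  · exact k14 (pair10 hN hm2 (List.subset_cons_self _ _) fun _ => List.mem_cons_self)
      (fun h => absurd ((by norm_num : (2 : ℕ) ∣ 420).trans h) hm2) (fun h => absurd ((by norm_num : (2 : ℕ) ∣ 660).trans h) hm2)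
  · exact k13 (pair10 hN hm2 (List.Subset.refl _) fun h' => absurd h' h)
      (fun h => absurd ((by norm_num : (2 : ℕ) ∣ 420).trans h) hm2)

end Pool.Agent.FO
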