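import Pool.Agent.Lib.MP_640417_ag.GT.SpecQ

/-!
# Theorem QR: parity of the class (author helper47)
-/

set_option autoImplicit false

noncomputable section

open Finset Pool.Agent.FC

namespace Pool.Agent.FO

namespace GOdQAux

theorem c4_pos {p : ℕ} (hp : p.Prime) : 0 < c4 p := by
  unfold c4
  split_ifs
  · norm_num
  · exact hp.pos

theorem pf {T : Finset ℕ} (hT : ∀ p ∈ T, p.Prime) : (dT T).primeFactors = T := by
  have h0 : 0 < dT T := Finset.prod_pos fun p hp => c4_pos (hT p hp)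
  ext q
  rw [Nat.mem_primeFactors_of_ne_zero h0.ne']
  constructor
  · rintro ⟨hq, h⟩
    change q ∣ ∏ p ∈ T, c4 p at h
    rw [Prime.dvd_finsetProd_iff hq.prime] at h
    obtain ⟨p, hp, h1⟩ := h
    have h2 : q ∣ p := by
      unfold c4 at h1
      split_ifs at h1 with h3
      · rw [h3]
        exact hq.dvd_of_dvd_pow (n := 2) (by norm_num; exact h1)
      · exact h1
    rwa [(Nat.prime_dvd_prime_iff_eq hq (hT p hp)).1 h2]
  · intro h
    refine ⟨hT q h, ?_⟩
    have h1 : q ∣ c4 q := by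
      unfold c4
      split_ifs with h
      · rw [h]; norm_num
      · exact dvd_rfl
    exact h1.trans (Finset.dvd_prod_of_mem c4 h)

/-- `en D p` is an involution -/
theorem en_sq {D : ℕ} [NeZero D] {p : ℕ} (hp : p ∈ D.primeFactors) : en D p * en D p = 1 := by
  have hE := (gEn D).1 p hp
  unfold IsEn at hE
  obtain ⟨h1, h2⟩ := hE
  set x : ℤ := ((en D p : ZMod D).val : ℤ) with hx
  have hD0 : D ≠ 0 := NeZero.ne D
  have e : (p ^ D.factorization p) * (D / p ^ D.factorization p) = D := Nat.ordProj_mul_ordCompl_eq_self D p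
  have hc : IsCoprime ((p ^ D.factorization p : ℕ) : ℤ) ((D / p ^ D.factorization p : ℕ) : ℤ) := by
    refine Nat.isCoprime_iff_coprime.2 ?_
    exact (Nat.coprime_ordCompl (Nat.prime_of_mem_primeFactors hp) hD0).pow_left _
  have h3 : ((p ^ D.factorization p : ℕ) : ℤ) ∣ x * x - 1 := by
    have e1 : x * x - 1 = (x + 1) * (x - 1) := by ring
    rw [e1]
    exact h1.mul_right _
  have h4 : ((D / p ^ D.factorization p : ℕ) : ℤ) ∣ x * x - 1 := by
    have e1 : x * x - 1 = (x + 1) * (x - 1) := by ring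
    rw [e1]
    exact h2.mul_left _
  have h5 : ((D : ℕ) : ℤ) ∣ x * x - 1 := by
    have h6 := hc.mul_dvd h3 h4
    rw [← Nat.cast_mul, e] at h6
    exact h6
  apply Units.ext
  have h7 := (ZMod.intCast_zmod_eq_zero_iff_dvd (x * x - 1) D).2 h5
  rw [hx] at h7
  push_cast at h7
  rw [ZMod.natCast_zmod_val] at h7
  rw [Units.val_mul, Units.val_one]
  exact sub_eq_zero.1 h7

theorem cb_prod {G : Type} [CommGroup G] (e : ℕ → G) (l : List ℕ) (F : G → ℤ)
    (hl : ∀ j ∈ l, e j * e j = 1) :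
    ∀ s : List ℕ, (∀ j ∈ s, j ∈ l) → ∀ b, Cb e l F ((s.map e).prod * b) = Cb e l F b := by
  intro s
  induction s with
  | nil =>
    intro _ b
    rw [List.map_nil, List.prod_nil, one_mul]
  | cons j s ih =>
    intro hs b
    have hj : j ∈ l := hs j (by simp)
    rw [List.map_cons, List.prod_cons, mul_assoc, (gCbB G e l F F).2.2.2.2.1 j hj (hl j hj)]
    exact ih (fun i hi => hs i (List.mem_cons_of_mem j hi)) b

end GOdQAux

open GOdQAux in
theorem pOdQ (hCbQ : S_CbQ) : S_OdQ := by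
  intro T hT D _ hD f hf1 hf0 l hl hlD q hq a
  have hpf : D.primeFactors = T := by
    rw [hD]
    exact pf fun p hp => (hT p hp).1
  have hlT : ∀ p, p ∈ l ↔ p ∈ T := fun p => by rw [hlD p, hpf]
  have hperm : l.Perm (q :: l.erase q) := List.perm_cons_erase hq
  set l' := l.erase q with hl'
  obtain ⟨c1, -, -, c4', -, -, -, c8, -, -, -⟩ := gCbB (ZMod D)ˣ (en D) l' f
    (fun u => (-1) * f (-u))
  have hsub : ∀ j ∈ l', j ∈ l := fun j hj => List.mem_of_mem_erase hj
  have hinv : ∀ j ∈ l', en D j * en D j = 1 := fun j hj => en_sq ((hlD j).1 (hsub j hj))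
  have hprod := ((gEn D).2.2 l hl hlD).1
  have hprod' : en D q * (l'.map (en D)).prod = -1 := by
    rw [← hprod, (hperm.map (en D)).prod_eq, List.map_cons, List.prod_cons]
  -- the sum of `f (-u)`
  have h1 : Cb (en D) l' (fun u => f (-u)) a = Cb (en D) l' f (en D q * a) := by
    have e1 : (fun u : (ZMod D)ˣ => f (-u)) = fun u => f ((-1) * u) := by
      funext u
      rw [neg_one_mul]
    rw [e1, ((gCbB (ZMod D)ˣ (en D) l' f f).2.2.1 (-1) a).1, ← hprod']
    have e2 : en D q * (l'.map (en D)).prod * a = (l'.map (en D)).prod * (en D q * a) := by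
      rw [mul_comm (en D q), mul_assoc]
    rw [e2]
    exact cb_prod (en D) l' f hinv l' (fun j hj => hj) _
  have h2 : Cb (en D) l' f a + Cb (en D) l' f (en D q * a) = 1 := by
    have h3 := hCbQ T hT D hD f hf1 hf0 l hl hlT a
    rw [((gCbB (ZMod D)ˣ (en D) l f f).2.2.2.2.2.2.2.2.2.2 (q :: l') hperm a).1] at h3
    exact h3
  have h4 : Cb (en D) l' (fun u => f u - f (-u)) a = Cb (en D) l' f a - Cb (en D) l' f (en D q * a) := by
    have e3 : (fun u : (ZMod D)ˣ => f u - f (-u)) = fun u => f u + (-1) * f (-u) := by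
      funext u
      ring
    rw [e3, c1 a, ((gCbB (ZMod D)ˣ (en D) l' (fun u => f (-u)) f).2.2.2.1 (-1) a).1, h1]
    ring
  have h5 := (gCbB (ZMod D)ˣ (en D) l' (fun u => f u - f (-u)) f).2.2.2.2.2.2.2.1 a
  intro h6
  rw [h4] at h5
  omega

end Pool.Agent.FO
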