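import Pool.Agent.Lib.MP_640417_ag.GT.PcQ

/-!
# Theorem GT: the pairs of primes, with sets of primes which are `2` or `3` modulo `4`
-/

set_option autoImplicit false

open Finset Pool.Agent.FC

namespace Pool.Agent.FO

namespace GPcAux

theorem dichQ {m N : ℕ} {L : List (ℕ × ℕ)} (hPC : PairQ m N L) {T : Finset ℕ} (hT : Ess m T) :
    Cr1 m N T ∨ ∀ p ∈ T, ∀ q ∈ T, p < q → (p, q) ∈ L ∨ ((p = 2 ∨ p % 4 = 3) ∧ q % 4 = 3) := by
  by_cases h : ∀ p ∈ T, ∀ q ∈ T, p < q → (p, q) ∈ L ∨ ((p = 2 ∨ p % 4 = 3) ∧ q % 4 = 3)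
  · exact Or.inr h
  · left
    simp only [not_forall] at h
    obtain ⟨p, hp, q, hq, hpq, hL⟩ := h
    have h1 := Nat.prime_of_mem_primeFactors (hT.1 hp)
    have h2 := Nat.prime_of_mem_primeFactors (hT.1 hq)
    have h3 := Nat.dvd_of_mem_primeFactors (hT.1 hp)
    have h4 := Nat.dvd_of_mem_primeFactors (hT.1 hq)
    have h5 := hPC p q h1 h2 h3 h4 hpq fun h => hT.2.1 (h ▸ hp)
    rw [← or_assoc] at h5
    exact cr1_pair hT hp hq hpq (h5.resolve_left hL)

theorem four5 : ∀ T ∈ ({2, 3, 5, 7, 11} : Finset ℕ).powerset, 5 ∈ T → T.card = 4 →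
    T = {2, 3, 5, 7} ∨ T = {2, 3, 5, 11} ∨ T = {2, 5, 7, 11} ∨ T = {3, 5, 7, 11} := by decide

theorem setsQ {T : Finset ℕ} (hP : ∀ p ∈ T, p.Prime) (hn : T.Nonempty) (he : 2 ∣ T.card)
    (h : ∀ p ∈ T, ∀ q ∈ T, p < q → (p, q) ∈ l8 ∨ ((p = 2 ∨ p % 4 = 3) ∧ q % 4 = 3)) :
    Al15 T ∨ T = {2, 3, 5, 7} ∨ T = {2, 3, 5, 11} ∨ T = {2, 5, 7, 11} ∨ T = {3, 5, 7, 11} := by
  by_cases hT34 : T34 T
  · exact Or.inl (Or.inr (Or.inr hT34))
  have hc := hn.card_pos
  obtain ⟨p0, hp0, hp04⟩ : ∃ p0 ∈ T, ¬ (p0 = 2 ∨ p0 % 4 = 3) := by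
    by_contra hcon
    push Not at hcon
    exact hT34 fun p hp => ⟨hP p hp, hcon p hp⟩
  have hz : ∀ z ∈ T, z ≠ p0 → ((z, p0) ∈ l8 ∨ (p0, z) ∈ l8) := by
    intro z hz hne
    rcases lt_or_gt_of_ne hne with h1 | h1
    · rcases h z hz p0 hp0 h1 with h2 | h2
      · exact Or.inl h2
      · exact absurd (Or.inr h2.2) hp04
    · rcases h p0 hp0 z hz h1 with h2 | h2
      · exact Or.inr h2
      · exact absurd h2.1 hp04
  have hz2 : ∀ z ∈ T, z ≠ p0 → (p0 = 5 ∧ (z = 2 ∨ z = 3 ∨ z = 7 ∨ z = 11)) ∨ ((p0 = 13 ∨ p0 = 17) ∧ (z = 2 ∨ z = 3)) := by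
    intro z hz' hne
    have h1 := hz z hz' hne
    simp only [l8, List.mem_cons, Prod.mk.injEq, List.not_mem_nil, or_false] at h1
    omega
  by_cases h2 : T.card = 2
  · left
    obtain ⟨z, hz', hne⟩ : ∃ z ∈ T, z ≠ p0 := by
      by_contra hcon
      push Not at hcon
      have : T.card ≤ 1 := card_le_one.2 fun a ha b hb => (hcon a ha).trans (hcon b hb).symm
      omega
    have h3 : T = {z, p0} := by
      symm
      refine eq_of_subset_of_card_le ?_ ?_
      · intro y hy
        rw [mem_insert, mem_singleton] at hy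
        rcases hy with rfl | rfl
        · exact hz'
        · exact hp0
      · rw [h2, card_pair hne]
    rw [h3]
    rcases hz2 z hz' hne with ⟨rfl, rfl | rfl | rfl | rfl⟩ | ⟨rfl | rfl, rfl | rfl⟩
    · exact Or.inl (by decide)
    · exact Or.inl (by decide)
    · exact Or.inl (by decide)
    · exact Or.inr (Or.inl (by decide))
    · exact Or.inl (by decide)
    · exact Or.inl (by decide)
    · exact Or.inl (by decide)
    · exact Or.inl (by decide)
  · right
    have h4 : 4 ≤ T.card := by omega
    have hp5 : p0 = 5 := by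
      by_contra hne5
      have hsub : T ⊆ {2, 3, p0} := by
        intro z hz'
        by_cases hne : z = p0
        · simp [hne]
        · have := hz2 z hz' hne
          rw [mem_insert, mem_insert, mem_singleton]
          omega
      have h5 := card_le_card hsub
      have h6 : ({2, 3, p0} : Finset ℕ).card ≤ 3 := card_le_three
      omega
    subst hp5
    have hsub : T ⊆ {2, 3, 5, 7, 11} := by
      intro z hz'
      by_cases hne : z = 5
      · simp [hne]
      · have := hz2 z hz' hne
        simp only [mem_insert, mem_singleton]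
        omega
    have h5 := card_le_card hsub
    have h6 : ({2, 3, 5, 7, 11} : Finset ℕ).card = 5 := rfl
    exact four5 T (mem_powerset.2 hsub) hp0 (by omega)

theorem ess257b {m N : ℕ} {T : Finset ℕ} (hT : Ess m T) (h : T = {2, 5, 7, 11}) (h1540 : 1540 ∣ m → N < 30) : Cr1 m N T := by
  subst h
  have h2 := hT.2.1 (by simp)
  have h3 : 5 ∣ m := Nat.dvd_of_mem_primeFactors (hT.1 (by simp))
  have h5 : 7 ∣ m := Nat.dvd_of_mem_primeFactors (hT.1 (by simp))
  have h7 : 11 ∣ m := Nat.dvd_of_mem_primeFactors (hT.1 (by simp))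
  have h1 : ∏ p ∈ ({2, 5, 7, 11} : Finset ℕ), hf p = 30 := by decide
  exact ⟨by rw [h1]; exact h1540 (by omega), fun _ h => absurd (by simp) h⟩

theorem ess357b {m N : ℕ} {T : Finset ℕ} (hT : Ess m T) (h : T = {3, 5, 7, 11}) (h1155 : 1155 ∣ m → N < 15) : Cr1 m N T := by
  subst h
  have h3 : 3 ∣ m := Nat.dvd_of_mem_primeFactors (hT.1 (by simp))
  have h5 : 5 ∣ m := Nat.dvd_of_mem_primeFactors (hT.1 (by simp))
  have h7 : 7 ∣ m := Nat.dvd_of_mem_primeFactors (hT.1 (by simp))
  have h11 : 11 ∣ m := Nat.dvd_of_mem_primeFactors (hT.1 (by simp))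
  have h1 : ∏ p ∈ ({3, 5, 7, 11} : Finset ℕ), hf p = 30 := by decide
  have h2 := h1155 (by omega)
  exact ⟨by rw [h1]; omega, fun _ _ => by rw [h1]; omega⟩

end GPcAux

open GPcAux

/-- **The sets of primes, general condition.** -/
theorem condF (hMx : S_Mx) (hNcR : S_NcR) (hKmn : S_Kmn) {m N : ℕ} (hPC : PairQ m N l8)
    (h420 : 420 ∣ m → N < 6) (h660 : 660 ∣ m → N < 10) (h1155 : 1155 ∣ m → N < 15) (h1540 : 1540 ∣ m → N < 30) :
    ∀ T, Ess m T → Al15 T ∨ Crt m N T := by
  have h1 : ∀ T, Ess m T → Al15 T ∨ Cr1 m N T := by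
    intro T hT
    rcases dichQ hPC hT with h | h
    · exact Or.inr h
    · rcases setsQ (fun p hp => Nat.prime_of_mem_primeFactors (hT.1 hp)) hT.2.2.1 hT.2.2.2 h with h2 | h2 | h2 | h2 | h2
      · exact Or.inl h2
      · exact Or.inr (ess2357 hT h2 h420)
      · exact Or.inr (ess235b hT h2 h660)
      · exact Or.inr (ess257b hT h2 h1540)
      · exact Or.inr (ess357b hT h2 h1155)
  intro T hT
  by_cases hA : Al15 T
  · exact Or.inl hA
  · refine Or.inr (crt_ofQ hMx hNcR hKmn m N Al15 ?_ (fun T h => Or.inr (Or.inr h)) h1 T hT hA)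
    rintro T (h | rfl | h)
    · exact Or.inl (pl_card T h)
    · exact Or.inl rfl
    · exact Or.inr h

/-- length at most `8` -/
theorem pairQ8 {m N : ℕ} (hN : N ≤ 8) (hd : ∀ d ∈ [130, 170, 174, 420], ¬ d ∣ m) : PairQ m N l8 := by
  have d1 : ¬ 130 ∣ m := hd _ (by simp)
  have d4 : ¬ 170 ∣ m := hd _ (by simp)
  have d5 : ¬ 174 ∣ m := hd _ (by simp)
  intro p q hp hq hpm hqm hpq h24
  by_cases h11 : 11 ≤ p
  · have h1 : 5 ≤ hf p := hf_le (by omega) (by omega)
    have h2 : 5 ≤ hf q := hf_le (by omega) (by omega)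
    have h3 : 5 * 5 ≤ hf p * hf q := Nat.mul_le_mul h1 h2
    exact Or.inr (Or.inr ⟨by omega, fun _ _ => by omega⟩)
  · have hp2 := hp.two_le
    have h3p : p = 2 ∨ p = 3 ∨ p = 5 ∨ p = 7 := by
      have h4 : p < 11 := by omega
      interval_cases p <;> first | (exfalso; revert hp; norm_num; done) | simp
    rcases h3p with rfl | rfl | rfl | rfl
    · by_cases hq1 : q < 19
      · interval_cases q <;> first | (exfalso; revert hq; norm_num; done) | exact Or.inl (by decide) | exact Or.inr (Or.inl (by decide))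
      · have h2 : 9 ≤ hf q := hf_le (by omega) (by omega)
        have h3 : hf 2 = 1 := rfl
        exact Or.inr (Or.inr ⟨by rw [h3]; omega, fun _ h => absurd rfl h⟩)
    · have h3 : hf 3 = 1 := rfl
      by_cases hq1 : q < 23
      · interval_cases q <;> first | (exfalso; revert hq; norm_num; done) | exact Or.inl (by decide) | exact Or.inr (Or.inl (by decide))
      · by_cases h34 : q % 4 = 3
        · exact Or.inr (Or.inl ⟨Or.inr (by decide), h34⟩)
        right
        right
        have h2 : 11 ≤ hf q := hf_le (by omega) (by omega)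
        refine ⟨by rw [h3]; omega, fun hm2 _ => ?_⟩
        have hq2 : 37 ≤ q := by
          by_contra hlt
          have hlt2 : q < 37 := by omega
          interval_cases q <;> first | (exfalso; revert hq; norm_num; done) | omega
        have h4 : 18 ≤ hf q := hf_le (by omega) (by omega)
        rw [h3]
        omega
    · have h3 : hf 5 = 2 := rfl
      by_cases hq1 : q < 12
      · interval_cases q <;> first | (exfalso; revert hq; norm_num; done) | exact Or.inl (by decide)
      · right
        right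
        have hq13 : 13 ≤ q := by
          by_contra hlt
          have hlt2 : q = 12 := by omega
          subst hlt2
          revert hq
          norm_num
        have h4 : 6 ≤ hf q := hf_le (by omega) (by omega)
        rw [h3]
        refine ⟨by omega, fun hm2 _ => ?_⟩
        have hq2 : 19 ≤ q := by
          by_contra hlt
          have hlt2 : q < 19 := by omega
          have hlt3 : 12 ≤ q := by omega
          interval_cases q <;> first | (exfalso; revert hq; norm_num; done) | omega
        have h5 : 9 ≤ hf q := hf_le (by omega) (by omega)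
        omega
    · have h3 : hf 7 = 3 := rfl
      have hq1 : 11 ≤ q := by
        by_contra hlt
        have hlt2 : q < 11 := by omega
        interval_cases q <;> (revert hq; norm_num)
      by_cases hq11 : q = 11
      · exact Or.inr (Or.inl ⟨Or.inr (by decide), by rw [hq11]⟩)
      right
      right
      have hq2 : 13 ≤ q := by
        by_contra hlt
        have hlt2 : q = 12 := by omega
        subst hlt2
        revert hq
        norm_num
      have h4 : 6 ≤ hf q := hf_le (by omega) (by omega)
      rw [h3]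
      exact ⟨by omega, fun _ _ => by omega⟩

/-- odd levels, length at most `10` -/
theorem pairQ10 {m N : ℕ} (hN : N ≤ 10) (hm2 : ¬ 2 ∣ m) : PairQ m N l8 := by
  intro p q hp hq hpm hqm hpq h24
  have key : ((p, q) ∈ l8 ∨ ((p = 2 ∨ p % 4 = 3) ∧ q % 4 = 3)) ∨ N < hf p * hf q := by
    by_cases h11 : 11 ≤ p
    · have h1 : 5 ≤ hf p := hf_le (by omega) (by omega)
      have h2 : 5 ≤ hf q := hf_le (by omega) (by omega)
      have h3 : 5 * 5 ≤ hf p * hf q := Nat.mul_le_mul h1 h2
      exact Or.inr (by omega)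
    · have hp2 := hp.two_le
      have h3p : p = 2 ∨ p = 3 ∨ p = 5 ∨ p = 7 := by
        have h4 : p < 11 := by omega
        interval_cases p <;> first | (exfalso; revert hp; norm_num; done) | simp
      rcases h3p with rfl | rfl | rfl | rfl
      · exact absurd hpm hm2
      · have h3 : hf 3 = 1 := rfl
        by_cases hq1 : q < 23
        · left
          interval_cases q <;> first | (exfalso; revert hq; norm_num; done) | exact Or.inl (by decide) | exact Or.inr (by decide)
        · have h2 : 11 ≤ hf q := hf_le (by omega) (by omega)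
          exact Or.inr (by rw [h3]; omega)
      · have h3 : hf 5 = 2 := rfl
        by_cases hq1 : q < 12
        · left
          interval_cases q <;> first | (exfalso; revert hq; norm_num; done) | exact Or.inl (by decide)
        · right
          have hq2 : 13 ≤ q := by
            by_contra hlt
            have hlt2 : q = 12 := by omega
            subst hlt2
            revert hq
            norm_num
          have h4 : 6 ≤ hf q := hf_le (by omega) (by omega)
          rw [h3]
          omega
      · right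
        have h3 : hf 7 = 3 := rfl
        have hq1 : 11 ≤ q := by
          by_contra hlt
          have hlt2 : q < 11 := by omega
          interval_cases q <;> (revert hq; norm_num)
        have h4 : 5 ≤ hf q := hf_le (by omega) (by omega)
        rw [h3]
        omega
  rcases key with (h | h) | h
  · exact Or.inl h
  · exact Or.inr (Or.inl h)
  · exact Or.inr (Or.inr ⟨h, fun h2 => absurd h2 hm2⟩)

end Pool.Agent.FO
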