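import Pool.Agent.Lib.MP_640417_ag.GT.SpecQ

/-!
# Theorem QR
-/

set_option autoImplicit false

open Finset Pool.Agent.FC

namespace Pool.Agent.FO

theorem pQR (hGdQ : S_GdQ) : S_QR := by
  intro m _ hm ι _ a ha hSt
  refine gGTt m (Fintype.card ι) GS T34 ⟨le_sup_left, ?_, ?_⟩ ?_ ι a le_rfl ha hSt
  · intro T T' hT hTT _ _ p hp
    exact hT p (hTT hp)
  · intro T hE hT
    exact hGdQ m T hE hT
  · intro T hE hT
    refine absurd (fun p hp => ?_) hT
    obtain ⟨hp1, hp2, -⟩ := Nat.mem_primeFactors.1 (hE.1 hp)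
    exact ⟨hp1, hm p hp1 hp2⟩

end Pool.Agent.FO
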