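import Pool.Agent.Lib.MP_640417_ag.GT.SpecQ

/-!
# Theorem QR: Stickelberger relation of the class
-/

set_option autoImplicit false

noncomputable section

open Finset Pool.Agent.FC

namespace Pool.Agent.FO

namespace GRlQAux

/-- the map `f ↦ (t ↦ P f t)` -/
def pL (m : ℕ) [NeZero m] : (ZMod m → ℤ) →+ ((ZMod m)ˣ → ℚ) where
  toFun := fun f t => P f (t : ZMod m)
  map_zero' := by
    funext t
    unfold P
    simp
  map_add' := by
    intro f g
    funext t
    unfold P
    rw [Pi.add_apply, ← Finset.sum_add_distrib]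
    refine Finset.sum_congr rfl fun x _ => ?_
    rw [Pi.add_apply]
    push_cast
    ring

end GRlQAux

theorem pRlQ (hRzB : S_RzB) (hRzV : S_RzV) (hEuE : S_EuE) (hBtR : S_BtR) : S_RlQ := by
  classical
  intro m _ T hT hd hc t
  obtain ⟨e, he⟩ := hEuE m T (fun p hp => (hT p hp).1) hd
  obtain ⟨h1, h2, h3⟩ := hBtR m T e hT hd he
  have hn : ∀ p ∈ T, nr T p ⊆ T := by
    intro p _
    unfold nr
    exact Finset.filter_subset _ _
  have h := hRzV ((ZMod m)ˣ) T e (nr T) (fun S g => P (Aq m S) (g : ZMod m)) hn h1 h2 h3 T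
    (Finset.Subset.refl T) hc t
  have h4 := congrFun (hRzB.1 (ZMod m → ℤ) ((ZMod m)ˣ → ℚ) (GRlQAux.pL m) (nr T) (Aq m) T) t
  have h5 : P (Rz (nr T) (Aq m) T) (t : ZMod m) = (GRlQAux.pL m (Rz (nr T) (Aq m) T)) t := rfl
  rw [h5, h4]
  exact h

end Pool.Agent.FO
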