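import Pool.Agent.Lib.MP_640417_ag.GT.SpecQ

/-!
# The recursion over subsets: basics
-/

set_option autoImplicit false

noncomputable section

namespace Pool.Agent.FO

open Finset Pool.Agent.FC

private theorem RzB_one (M M' : Type) [AddCommGroup M] [AddCommGroup M'] (L : M →+ M')
    (n : ℕ → Finset ℕ) (A : Finset ℕ → M) (S : Finset ℕ) :
    L (Rz n A S) = Rz n (fun U => L (A U)) S := by
  induction S using Finset.strongInduction with
  | H S ih =>
    rw [Rz_eq, Rz_eq n (fun U => L (A U)), map_sub, map_sum]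
    have h : ∑ U ∈ S.ssubsets, L (kq n S U • Rz n A U) =
        ∑ U ∈ S.ssubsets, kq n S U • Rz n (fun U => L (A U)) U :=
      Finset.sum_congr rfl fun U hU => by rw [map_zsmul, ih U (Finset.mem_ssubsets.1 hU)]
    rw [h]

private theorem RzB_two (M : Type) [AddCommGroup M] (B : AddSubgroup M) (n : ℕ → Finset ℕ)
    (A : Finset ℕ → M) (S : Finset ℕ) : (∀ U ⊆ S, A U ∈ B) → Rz n A S ∈ B := by
  induction S using Finset.strongInduction with
  | H S ih =>
    intro h
    rw [Rz_eq]
    refine B.sub_mem (h S (Finset.Subset.refl S)) (B.sum_mem fun U hU => ?_)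
    have hU' := Finset.mem_ssubsets.1 hU
    exact B.zsmul_mem (ih U hU' fun V hV => h V (hV.trans hU'.subset)) _

private theorem RzB_three (X : Type) (n : ℕ → Finset ℕ) (A : Finset ℕ → X → ℤ) (S : Finset ℕ)
    (x : X) (h : ∀ U ⊂ S, Rz n A U x = 0) : Rz n A S x = A S x := by
  rw [Rz_eq, Pi.sub_apply, Finset.sum_apply]
  have h1 : ∑ U ∈ S.ssubsets, (kq n S U • Rz n A U) x = 0 :=
    Finset.sum_eq_zero fun U hU => by
      rw [Pi.smul_apply, h U (Finset.mem_ssubsets.1 hU), smul_zero]
  rw [h1, sub_zero]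

private theorem RzB_four (X : Type) (n : ℕ → Finset ℕ) (A : Finset ℕ → X → ℤ) (S : Finset ℕ)
    (x : X) (h : ∀ U ⊂ S, A U x = 0) (V : Finset ℕ) : V ⊂ S → Rz n A V x = 0 := by
  induction V using Finset.strongInduction with
  | H V ih =>
    intro hV
    rw [RzB_three X n A V x fun U hU => ih U hU (hU.trans hV)]
    exact h V hV

theorem pRzB : S_RzB := by
  refine ⟨?_, ?_, ?_⟩
  · intro M M' _ _ L n A S
    exact RzB_one M M' L n A S
  · intro M _ B n A S
    exact RzB_two M B n A S
  · intro X n A S x h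
    exact RzB_three X n A S x fun U hU => RzB_four X n A S x h U hU

end Pool.Agent.FO
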