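import Pool.Agent.Lib.MP_640417_ag.GT.SpecQ

/-!
# Theorem QR: the recursion over subsets, vanishing for the sets with an even number of elements
-/

set_option autoImplicit false

noncomputable section

open Finset Pool.Agent.FC

namespace Pool.Agent.FO

namespace GRzVAux

variable {Γ : Type} {n : ℕ → Finset ℕ} {β : Finset ℕ → Γ → ℚ}

theorem rz_apply (S : Finset ℕ) (g : Γ) :
    Rz n β S g = β S g - ∑ U ∈ S.ssubsets, (kq n S U : ℚ) * Rz n β U g := by
  have h := congrFun (Rz_eq n β S) g
  rw [h, Pi.sub_apply, Finset.sum_apply]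
  congr 1

theorem kq_self (S : Finset ℕ) : kq n S S = 1 := by
  unfold kq
  rw [if_pos]
  intro p hp
  rw [Finset.sdiff_self] at hp
  exact absurd hp (Finset.notMem_empty p)

theorem be_apply (S : Finset ℕ) (g : Γ) :
    β S g = ∑ U ∈ S.powerset, (kq n S U : ℚ) * Rz n β U g := by
  have h := rz_apply (n := n) (β := β) S g
  have h1 : S.powerset = insert S S.ssubsets := by
    rw [Finset.ssubsets, Finset.insert_erase (Finset.mem_powerset_self S)]
  have h2 : S ∉ S.ssubsets := by
    rw [Finset.mem_ssubsets]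
    exact fun h3 => (lt_irrefl S h3)
  rw [h1, Finset.sum_insert h2, kq_self, Int.cast_one, one_mul]
  linarith

theorem kq_erase {S U : Finset ℕ} {p : ℕ} (hp : p ∈ S) (hU : U ⊆ S.erase p) :
    (2 : ℚ) * kq n S U = kq n (S.erase p) U * (1 - (-1) ^ (U ∩ n p).card) := by
  have hpU : p ∉ U := fun h => (Finset.notMem_erase p S) (hU h)
  have h1 : (∀ q ∈ S \ U, ¬ 2 ∣ (U ∩ n q).card) ↔
      (¬ 2 ∣ (U ∩ n p).card) ∧ ∀ q ∈ S.erase p \ U, ¬ 2 ∣ (U ∩ n q).card := by
    constructor
    · intro h
      refine ⟨h p (Finset.mem_sdiff.2 ⟨hp, hpU⟩), fun q hq => ?_⟩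
      obtain ⟨h2, h3⟩ := Finset.mem_sdiff.1 hq
      exact h q (Finset.mem_sdiff.2 ⟨Finset.mem_of_mem_erase h2, h3⟩)
    · rintro ⟨h2, h3⟩ q hq
      obtain ⟨h4, h5⟩ := Finset.mem_sdiff.1 hq
      by_cases hqp : q = p
      · rw [hqp]
        exact h2
      · exact h3 q (Finset.mem_sdiff.2 ⟨Finset.mem_erase.2 ⟨hqp, h4⟩, h5⟩)
  by_cases h2 : 2 ∣ (U ∩ n p).card
  · have h3 : kq n S U = 0 := by
      unfold kq
      rw [if_neg]
      rw [h1]
      exact fun h => h.1 h2
    rw [h3, Even.neg_one_pow (even_iff_two_dvd.2 h2)]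
    simp
  · have h3 : kq n S U = kq n (S.erase p) U := by
      unfold kq
      by_cases h4 : ∀ q ∈ S.erase p \ U, ¬ 2 ∣ (U ∩ n q).card
      · rw [if_pos h4, if_pos (h1.2 ⟨h2, h4⟩)]
      · rw [if_neg h4, if_neg fun h => h4 (h1.1 h).2]
    have h4 : Odd (U ∩ n p).card := by
      rw [← Nat.not_even_iff_odd, even_iff_two_dvd]
      exact h2
    rw [h3, Odd.neg_one_pow h4]
    ring

variable [CommGroup Γ] {T : Finset ℕ} {e : ℕ → Γ}

/-- the sign rules for one set -/
def Sg (T : Finset ℕ) (e : ℕ → Γ) (F : Γ → ℚ) (S : Finset ℕ) : Prop :=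
  (∀ p ∈ S, ∀ g, F (g * e p) = -F g) ∧ ∀ p ∈ T, p ∉ S → ∀ g, F (g * e p) = F g

theorem Sg.prod {F : Γ → ℚ} {S : Finset ℕ} (h : Sg T e F S) :
    ∀ A : Finset ℕ, A ⊆ T → ∀ g, F (g * ∏ u ∈ A, e u) = (-1) ^ (S ∩ A).card * F g := by
  intro A
  induction A using Finset.induction_on with
  | empty =>
    intro _ g
    simp
  | insert a A ha ih =>
    intro hA g
    have hA' : A ⊆ T := fun x hx => hA (Finset.mem_insert_of_mem hx)
    have haT : a ∈ T := hA (Finset.mem_insert_self a A)
    rw [Finset.prod_insert ha, mul_comm (e a), ← mul_assoc]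
    by_cases haS : a ∈ S
    · rw [h.1 a haS, ih hA' g, Finset.inter_insert_of_mem haS, Finset.card_insert_of_notMem
        (fun h1 => ha (Finset.mem_inter.1 h1).2), pow_succ]
      ring
    · rw [h.2 a haT haS, ih hA' g, Finset.inter_insert_of_notMem haS]

end GRzVAux

open GRzVAux in
theorem pRzV (hRzB : S_RzB) : S_RzV := by
  have _ := hRzB
  intro Γ _ T e n β hn h2 h3 h4 S hS hev g
  -- the sign rules
  have key : ∀ S : Finset ℕ, S ⊆ T → Sg T e (Rz n β S) S := by
    intro S
    induction S using Finset.strongInduction with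
    | H S ih =>
      intro hS
      refine ⟨fun p hp g => ?_, fun p hpT hpS g => ?_⟩
      · have hS' : S.erase p ⊆ T := (Finset.erase_subset p S).trans hS
        have hsub : ∀ U ∈ S.ssubsets, U ⊂ S := fun U hU => Finset.mem_ssubsets.1 hU
        have e1 : Rz n β S g + Rz n β S (g * e p) = (β S g + β S (g * e p)) -
            ∑ U ∈ S.ssubsets, (kq n S U : ℚ) * (Rz n β U g + Rz n β U (g * e p)) := by
          rw [rz_apply S g, rz_apply S (g * e p)]
          simp only [mul_add, Finset.sum_add_distrib]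
          ring
        have e2 : ∑ U ∈ S.ssubsets, (kq n S U : ℚ) * (Rz n β U g + Rz n β U (g * e p)) =
            ∑ U ∈ (S.erase p).powerset, 2 * (kq n S U : ℚ) * Rz n β U g := by
          have hss : (S.erase p).powerset ⊆ S.ssubsets := by
            intro U hU
            rw [Finset.mem_powerset] at hU
            rw [Finset.mem_ssubsets]
            exact lt_of_le_of_lt hU (Finset.erase_ssubset hp)
          rw [← Finset.sum_subset hss]
          · refine Finset.sum_congr rfl fun U hU => ?_
            have hU' := Finset.mem_powerset.1 hU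
            have hpU : p ∉ U := fun h => (Finset.notMem_erase p S) (hU' h)
            have hlt : U ⊂ S := hsub U (hss hU)
            rw [(ih U hlt (hlt.1.trans hS)).2 p (hS hp) hpU]
            ring
          · intro U hU hU'
            have hlt : U ⊂ S := hsub U hU
            have hpU : p ∈ U := by
              by_contra hpU
              apply hU'
              rw [Finset.mem_powerset]
              intro x hx
              refine Finset.mem_erase.2 ⟨fun hxp => hpU (hxp ▸ hx), hlt.1 hx⟩
            rw [(ih U hlt (hlt.1.trans hS)).1 p hpU]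
            ring
        have e3 : β S g + β S (g * e p) =
            ∑ U ∈ (S.erase p).powerset, 2 * (kq n S U : ℚ) * Rz n β U g := by
          rw [h3 S hS p hp g, be_apply (n := n) (β := β) (S.erase p) g,
            be_apply (n := n) (β := β) (S.erase p) (g * ∏ u ∈ n p, e u), ← Finset.sum_sub_distrib]
          refine Finset.sum_congr rfl fun U hU => ?_
          have hU' := Finset.mem_powerset.1 hU
          have hlt : U ⊂ S := lt_of_le_of_lt hU' (Finset.erase_ssubset hp)
          rw [(ih U hlt (hlt.1.trans hS)).prod (n p) (hn p (hS hp)) g, kq_erase hp hU']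
          ring
        rw [e2, e3, sub_self] at e1
        linarith
      · rw [rz_apply S (g * e p), rz_apply S g, h2 S hS p hpT hpS g]
        congr 1
        refine Finset.sum_congr rfl fun U hU => ?_
        have hlt : U ⊂ S := Finset.mem_ssubsets.1 hU
        rw [(ih U hlt (hlt.1.trans hS)).2 p hpT (fun h => hpS (hlt.1 h)) g]
  -- the element `∏ e`
  have neg : ∀ S : Finset ℕ, S ⊆ T → ∀ g, Rz n β S (g * ∏ p ∈ T, e p) = -Rz n β S g := by
    intro S
    induction S using Finset.strongInduction with
    | H S ih =>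
      intro hS g
      rw [rz_apply S (g * ∏ p ∈ T, e p), rz_apply S g, h4 S hS g]
      have e1 : ∑ U ∈ S.ssubsets, (kq n S U : ℚ) * Rz n β U (g * ∏ p ∈ T, e p) =
          -∑ U ∈ S.ssubsets, (kq n S U : ℚ) * Rz n β U g := by
        rw [← Finset.sum_neg_distrib]
        refine Finset.sum_congr rfl fun U hU => ?_
        have hlt : U ⊂ S := Finset.mem_ssubsets.1 hU
        rw [ih U hlt (hlt.1.trans hS) g]
        ring
      rw [e1]
      ring
  have h5 := (key S hS).prod T (le_refl T) g
  rw [neg S hS g, Finset.inter_eq_left.2 hS, Even.neg_one_pow (even_iff_two_dvd.2 hev), one_mul] at h5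
  linarith

end Pool.Agent.FO
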