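import Pool.Agent.Lib.MP_640417_ag.GT.SpecQ

/-!
# Theorem QR (MP_640417_ag): squares modulo `4` and modulo primes which are `3` modulo `4` (module `Smu`)

Author helper2.
-/

set_option autoImplicit false

noncomputable section

namespace Pool.Agent.FO

open Finset Pool.Agent.FC

namespace GSmuAux

/-- Modulo `4`. -/
theorem four (x y : ZMod 4) (hx : x = 1 ∨ x = 3) (hy : y = 1 ∨ y = 3) :
    (IsSquare (x * y) ↔ (IsSquare x ↔ IsSquare y)) ∧ (IsSquare (-x) ↔ ¬ IsSquare x) := by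
  revert x y
  decide

/-- An odd integer modulo `4`. -/
theorem odd4 (w : ℤ) (h : IsCoprime w ((2 : ℕ) : ℤ)) :
    ((w : ℤ) : ZMod 4) = 1 ∨ ((w : ℤ) : ZMod 4) = 3 := by
  have h1 : w % 4 = 1 ∨ w % 4 = 3 := by
    have h2 : ¬ (2 : ℤ) ∣ w := by
      intro h3
      have h4 := h.symm.isUnit_of_dvd' (dvd_refl _) (by exact_mod_cast h3)
      exact absurd (Int.isUnit_iff.1 h4) (by decide)
    omega
  rcases h1 with h1 | h1
  · left
    have : ((w : ℤ) : ZMod 4) = ((1 : ℤ) : ZMod 4) :=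
      (ZMod.intCast_eq_intCast_iff w 1 4).2 (by rw [Int.ModEq]; exact_mod_cast h1)
    rw [this]
    rfl
  · right
    have : ((w : ℤ) : ZMod 4) = ((3 : ℤ) : ZMod 4) :=
      (ZMod.intCast_eq_intCast_iff w 3 4).2 (by rw [Int.ModEq]; exact_mod_cast h1)
    rw [this]
    rfl

/-- Modulo a prime: the product. -/
theorem mulp (u : ℕ) [Fact u.Prime] (x y : ZMod u) (hx : x ≠ 0) (hy : y ≠ 0) :
    IsSquare (x * y) ↔ (IsSquare x ↔ IsSquare y) := by
  rw [← quadraticChar_one_iff_isSquare (mul_ne_zero hx hy), ← quadraticChar_one_iff_isSquare hx,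
    ← quadraticChar_one_iff_isSquare hy, map_mul]
  rcases quadraticChar_dichotomy hx with h | h <;> rcases quadraticChar_dichotomy hy with h' | h' <;>
    rw [h, h'] <;> norm_num

/-- A nonzero residue. -/
theorem ne0 (u : ℕ) [hu : Fact u.Prime] (w : ℤ) (h : IsCoprime w (u : ℤ)) :
    ((w : ℤ) : ZMod u) ≠ 0 := by
  intro h1
  rw [ZMod.intCast_zmod_eq_zero_iff_dvd] at h1
  have h4 := h.symm.isUnit_of_dvd' (dvd_refl _) h1
  rw [Int.isUnit_iff] at h4
  have := hu.out.one_lt
  omega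

end GSmuAux

open GSmuAux in
theorem pSmu : S_Smu := by
  intro u hu h
  have h3 : ∀ w w' : ℤ, ((c4 u : ℕ) : ℤ) ∣ w - w' → (sm u w ↔ sm u w') := by
    intro w w' h1
    have h2 : ((w' : ℤ) : ZMod (c4 u)) = ((w : ℤ) : ZMod (c4 u)) :=
      (ZMod.intCast_eq_intCast_iff_dvd_sub w' w (c4 u)).2 h1
    unfold sm
    rw [h2]
  have h4 : sm u 1 := ⟨1, by simp⟩
  by_cases hu2 : u = 2
  · subst hu2
    have hc : c4 2 = 4 := if_pos rfl
    refine ⟨?_, ?_, h3, h4⟩
    · intro w hw
      unfold sm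
      rw [hc]
      push_cast
      exact (four _ _ (odd4 w hw) (odd4 w hw)).2
    · intro w w' hw hw'
      unfold sm
      rw [hc]
      push_cast
      exact (four _ _ (odd4 w hw) (odd4 w' hw')).1
  · have hc : c4 u = u := if_neg hu2
    have h34 : u % 4 = 3 := h.resolve_left hu2
    have : Fact u.Prime := ⟨hu⟩
    have hm1 : ¬ IsSquare (-1 : ZMod u) := by
      rw [ZMod.exists_sq_eq_neg_one_iff]
      simpa using h34
    refine ⟨?_, ?_, h3, h4⟩
    · intro w hw
      unfold sm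
      rw [hc]
      have h5 := mulp u (-1) ((w : ℤ) : ZMod u) (neg_ne_zero.2 one_ne_zero) (ne0 u w hw)
      push_cast
      rw [neg_one_mul] at h5
      rw [h5]
      tauto
    · intro w w' hw hw'
      unfold sm
      rw [hc]
      push_cast
      exact mulp u _ _ (ne0 u w hw) (ne0 u w' hw')

end Pool.Agent.FO
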