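import Pool.Agent.Lib.MP_640417_ag.GT.SpecQ

/-!
# Theorem QR, module SqX: the elements `(m / d) w` and squares
-/

set_option autoImplicit false

noncomputable section

namespace Pool.Agent.FO

open Finset Pool.Agent.FC

namespace GSqXAux

theorem c4_ne {p : ℕ} (hp : p.Prime) : c4 p ≠ 0 := by
  unfold c4
  split_ifs
  · norm_num
  · exact hp.ne_zero

theorem c4_dvd (p : ℕ) : c4 p ∣ p ^ 2 := by
  unfold c4
  split_ifs with h
  · rw [h]; norm_num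
  · exact dvd_pow_self p (by norm_num)

theorem c4_cop {p q : ℕ} (hp : p.Prime) (hq : q.Prime) (h : p ≠ q) : (c4 p).Coprime (c4 q) :=
  Nat.Coprime.coprime_dvd_left (c4_dvd p)
    (Nat.Coprime.coprime_dvd_right (c4_dvd q) (Nat.Coprime.pow 2 2 ((Nat.coprime_primes hp hq).2 h)))

theorem dT_eq (S : Finset ℕ) : dT S = ∏ p ∈ S, c4 p := rfl

theorem dT_ne {S : Finset ℕ} (hS : ∀ p ∈ S, p.Prime) : dT S ≠ 0 := by
  rw [dT_eq]
  exact Finset.prod_ne_zero_iff.2 fun p hp => c4_ne (hS p hp)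

theorem c4_dvd_dT {S : Finset ℕ} {p : ℕ} (hp : p ∈ S) : c4 p ∣ dT S := by
  rw [dT_eq]
  exact Finset.dvd_prod_of_mem _ hp

theorem cop_dT {S : Finset ℕ} (hS : ∀ p ∈ S, p.Prime) {p : ℕ} (hp : p.Prime) (hpS : p ∉ S) :
    (c4 p).Coprime (dT S) := by
  rw [dT_eq]
  refine Nat.Coprime.prod_right fun q hq => c4_cop hp (hS q hq) ?_
  rintro rfl
  exact hpS hq

theorem sqi_iff (m d : ℕ) (x : ZMod m) :
    sqi m d x = 1 ↔ ∃ v : ℕ, v.Coprime d ∧ x = ((m / d : ℕ) : ZMod m) * (v : ZMod m) ^ 2 := by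
  unfold sqi
  split_ifs with h
  · exact ⟨fun _ => h, fun _ => rfl⟩
  · exact ⟨fun h1 => absurd h1 (by norm_num), fun h1 => absurd h1 h⟩

theorem eq_iff {m d : ℕ} (hm : m ≠ 0) (hd : d ∣ m) (w w' : ℤ) :
    ((m / d : ℕ) : ZMod m) * ((w : ℤ) : ZMod m) = ((m / d : ℕ) : ZMod m) * ((w' : ℤ) : ZMod m) ↔
      ((d : ℕ) : ℤ) ∣ w - w' := by
  obtain ⟨k, hk⟩ := hd
  have hd0 : d ≠ 0 := by rintro rfl; exact hm (by rw [hk, zero_mul])
  have hk0 : k ≠ 0 := by rintro rfl; exact hm (by rw [hk, mul_zero])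
  have hM : m / d = k := by
    rw [hk]
    exact Nat.mul_div_cancel_left k (Nat.pos_of_ne_zero hd0)
  rw [hM]
  have e1 : ((k : ℕ) : ZMod m) * ((w : ℤ) : ZMod m) = (((k : ℤ) * w : ℤ) : ZMod m) := by push_cast; rfl
  have e2 : ((k : ℕ) : ZMod m) * ((w' : ℤ) : ZMod m) = (((k : ℤ) * w' : ℤ) : ZMod m) := by push_cast; rfl
  rw [e1, e2, eq_comm, ZMod.intCast_eq_intCast_iff_dvd_sub, ← mul_sub]
  have e3 : ((m : ℕ) : ℤ) = (k : ℤ) * d := by rw [hk]; push_cast; ring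
  rw [e3]
  exact mul_dvd_mul_iff_left (by exact_mod_cast hk0)

theorem ord_eq {m d : ℕ} (hm : m ≠ 0) (hd : d ∣ m) (w : ℤ) (hw : IsCoprime w (d : ℤ)) :
    addOrderOf (((m / d : ℕ) : ZMod m) * ((w : ℤ) : ZMod m)) = d := by
  have key : ∀ k : ℕ, k • (((m / d : ℕ) : ZMod m) * ((w : ℤ) : ZMod m)) = 0 ↔ d ∣ k := by
    intro k
    have e1 : k • (((m / d : ℕ) : ZMod m) * ((w : ℤ) : ZMod m)) =
        ((m / d : ℕ) : ZMod m) * (((k : ℤ) * w : ℤ) : ZMod m) := by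
      rw [nsmul_eq_mul]
      push_cast
      ring
    have e2 : (0 : ZMod m) = ((m / d : ℕ) : ZMod m) * ((0 : ℤ) : ZMod m) := by simp
    rw [e1, e2, eq_iff hm hd, sub_zero]
    constructor
    · intro h
      have h1 : ((d : ℕ) : ℤ) ∣ (k : ℤ) := hw.symm.dvd_of_dvd_mul_right h
      exact_mod_cast h1
    · intro h
      have h1 : ((d : ℕ) : ℤ) ∣ (k : ℤ) := by exact_mod_cast h
      exact Dvd.dvd.mul_right h1 w
  refine Nat.dvd_antisymm ?_ ?_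
  · exact addOrderOf_dvd_iff_nsmul_eq_zero.2 ((key d).2 dvd_rfl)
  · exact (key _).1 (addOrderOf_nsmul_eq_zero _)

theorem sq_of {S : Finset ℕ} (hS : ∀ p ∈ S, p.Prime) (w : ℤ) (h : ∀ u ∈ S, sm u w) :
    ∃ v : ℕ, ((dT S : ℕ) : ℤ) ∣ w - (v : ℤ) ^ 2 := by
  classical
  induction S using Finset.induction_on with
  | empty =>
    refine ⟨0, ?_⟩
    rw [dT_eq]
    simp
  | insert p S hpS ih =>
    obtain ⟨v0, hv0⟩ := ih (fun q hq => hS q (Finset.mem_insert_of_mem hq))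
      (fun u hu => h u (Finset.mem_insert_of_mem hu))
    have hp : p.Prime := hS p (Finset.mem_insert_self p S)
    have : NeZero (c4 p) := ⟨c4_ne hp⟩
    obtain ⟨r, hr⟩ := h p (Finset.mem_insert_self p S)
    have hv1 : ((c4 p : ℕ) : ℤ) ∣ w - (r.val : ℤ) ^ 2 := by
      rw [← ZMod.intCast_eq_intCast_iff_dvd_sub, hr]
      push_cast
      rw [ZMod.natCast_zmod_val]
      ring
    have hc : (c4 p).Coprime (dT S) :=
      cop_dT (fun q hq => hS q (Finset.mem_insert_of_mem hq)) hp hpS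
    obtain ⟨v, hva, hvb⟩ := Nat.chineseRemainder hc r.val v0
    refine ⟨v, ?_⟩
    have h1 : ((c4 p : ℕ) : ℤ) ∣ w - (v : ℤ) ^ 2 := by
      have h2 : ((c4 p : ℕ) : ℤ) ∣ (r.val : ℤ) - v := (Nat.modEq_iff_dvd).1 hva
      have e : w - (v : ℤ) ^ 2 = (w - (r.val : ℤ) ^ 2) + ((r.val : ℤ) - v) * ((r.val : ℤ) + v) := by ring
      rw [e]
      exact dvd_add hv1 (Dvd.dvd.mul_right h2 _)
    have h3 : ((dT S : ℕ) : ℤ) ∣ w - (v : ℤ) ^ 2 := by
      have h2 : ((dT S : ℕ) : ℤ) ∣ (v0 : ℤ) - v := (Nat.modEq_iff_dvd).1 hvb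
      have e : w - (v : ℤ) ^ 2 = (w - (v0 : ℤ) ^ 2) + ((v0 : ℤ) - v) * ((v0 : ℤ) + v) := by ring
      rw [e]
      exact dvd_add hv0 (Dvd.dvd.mul_right h2 _)
    have e4 : ((dT (insert p S) : ℕ) : ℤ) = ((c4 p : ℕ) : ℤ) * ((dT S : ℕ) : ℤ) := by
      rw [dT_eq, dT_eq, Finset.prod_insert hpS]
      push_cast
      rfl
    rw [e4]
    exact IsCoprime.mul_dvd (Nat.isCoprime_iff_coprime.2 hc) h1 h3

end GSqXAux

open GSqXAux in
theorem pSqX : S_SqX := by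
  intro m _ S hS hd
  have hm : m ≠ 0 := NeZero.ne m
  have hd0 : dT S ≠ 0 := dT_ne hS
  have : NeZero (dT S) := ⟨hd0⟩
  refine ⟨fun p hp => ⟨?_, ?_⟩, eq_iff hm hd, ord_eq hm hd, fun x hx => ?_, fun w hw => ?_, fun x hx => ?_⟩
  · rw [dT_eq, dT_eq]
    exact Finset.prod_erase_mul S c4 hp
  · exact cop_dT (fun q hq => hS q (Finset.mem_of_mem_erase hq)) (hS p hp) (Finset.notMem_erase p S)
  · obtain ⟨u, hu⟩ := (pEl m (dT S) hd).2.2.1 x hx
    refine ⟨((u : ZMod (dT S)).val : ℤ), Nat.isCoprime_iff_coprime.2 (ZMod.val_coe_unit_coprime u), ?_⟩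
    rw [← hu]
    unfold el
    push_cast
    rfl
  · rw [sqi_iff]
    constructor
    · rintro ⟨v, hv, h⟩ u hu
      have h1 : ((m / dT S : ℕ) : ZMod m) * ((w : ℤ) : ZMod m) =
          ((m / dT S : ℕ) : ZMod m) * ((((v : ℤ) ^ 2 : ℤ)) : ZMod m) := by
        rw [h]; push_cast; rfl
      rw [eq_iff hm hd] at h1
      have h2 : ((c4 u : ℕ) : ℤ) ∣ w - (v : ℤ) ^ 2 := (Int.natCast_dvd_natCast.2 (c4_dvd_dT hu)).trans h1
      rw [← ZMod.intCast_eq_intCast_iff_dvd_sub] at h2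
      refine ⟨(v : ZMod (c4 u)), ?_⟩
      rw [← h2]
      push_cast
      ring
    · intro h
      obtain ⟨v, hv⟩ := sq_of hS w h
      refine ⟨v, ?_, ?_⟩
      · obtain ⟨a, b, hab⟩ := hw
        obtain ⟨k, hk⟩ := hv
        refine Nat.isCoprime_iff_coprime.1 ⟨a * v, a * k + b, ?_⟩
        have hw' : w = (v : ℤ) ^ 2 + (dT S : ℤ) * k := by rw [← hk]; ring
        rw [← hab, hw']
        ring
      · have h1 := (eq_iff hm hd w ((v : ℤ) ^ 2)).2 hv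
        rw [h1]
        push_cast
        rfl
  · obtain ⟨v, hv, h⟩ := (sqi_iff _ _ _).1 hx
    have h1 : x = ((m / dT S : ℕ) : ZMod m) * ((((v : ℤ) ^ 2 : ℤ)) : ZMod m) := by
      rw [h]; push_cast; rfl
    rw [h1]
    exact ord_eq hm hd _ (IsCoprime.pow_left (Nat.isCoprime_iff_coprime.2 hv))

end Pool.Agent.FO
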