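import Pool.Agent.Lib.MP_640417_ag.GT.MainM
import Pool.Agent.Lib.MP_640417_ag.GT.PdQ
import Pool.Agent.Lib.MP_640417_ag.GT.RzB
import Pool.Agent.Lib.MP_640417_ag.GT.RzV
import Pool.Agent.Lib.MP_640417_ag.GT.Smu
import Pool.Agent.Lib.MP_640417_ag.GT.SqX
import Pool.Agent.Lib.MP_640417_ag.GT.EuE
import Pool.Agent.Lib.MP_640417_ag.GT.EuA
import Pool.Agent.Lib.MP_640417_ag.GT.DsU
import Pool.Agent.Lib.MP_640417_ag.GT.XsE
import Pool.Agent.Lib.MP_640417_ag.GT.XsN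
import Pool.Agent.Lib.MP_640417_ag.GT.BtR
import Pool.Agent.Lib.MP_640417_ag.GT.RlQ
import Pool.Agent.Lib.MP_640417_ag.GT.CbQ
import Pool.Agent.Lib.MP_640417_ag.GT.OdQ
import Pool.Agent.Lib.MP_640417_ag.GT.InQ
import Pool.Agent.Lib.MP_640417_ag.GT.GdQ
import Pool.Agent.Lib.MP_640417_ag.GT.QR
import Pool.Agent.Lib.MP_640417_ag.GT.G14F
import Pool.Agent.Lib.MP_640417_ag.GT.GdF

/-! # Theorem QR: assembly -/

set_option autoImplicit false

open Finset Pool.Agent.FC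

namespace Pool.Agent.FO

theorem gRzB : S_RzB := pRzB
theorem gRzV : S_RzV := pRzV gRzB
theorem gSmu : S_Smu := pSmu
theorem gSqX : S_SqX := pSqX
theorem gEuE : S_EuE := pEuE
theorem gEuA : S_EuA := pEuA
theorem gDsU : S_DsU := pDsU
theorem gXsE : S_XsE := pXsE gSmu gSqX gEuA
theorem gXsN : S_XsN := pXsN gSmu gSqX gEuA
theorem gBtR : S_BtR := pBtR gSqX gEuA gDsU gXsE gXsN
theorem gRlQ : S_RlQ := pRlQ gRzB gRzV gEuE gBtR
theorem gCbQ : S_CbQ := pCbQ gSmu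
theorem gOdQ : S_OdQ := pOdQ gCbQ
theorem gInQ : S_InQ := pInQ gSqX
theorem gGdQ : S_GdQ := pGdQ gRzB gSqX gRlQ gOdQ gInQ
theorem gQR : S_QR := pQR gGdQ
theorem gG14F : G14 ≤ GF := pG14F gQR
theorem gGdF (m : ℕ) [NeZero m] : GdA m GF Al15 := pGdF gGmB gGdQ gG14F m

theorem HD_le_GF : HD ≤ GF := (le_sup_left : HD ≤ GS).trans le_sup_left

/-- **THEOREM FermatDegrees with sums over squares.** -/
theorem main5 (m N : ℕ) [NeZero m] (a : Fin N → ZMod m) (ha : IsTate m a) :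
    ((∀ p : ℕ, p.Prime → p ∣ m → p = 2 ∨ p % 4 = 3) → clt a ∈ GS) ∧
    (PairQ m N l8 → (420 ∣ m → N < 6) → (660 ∣ m → N < 10) → (1155 ∣ m → N < 15) → (1540 ∣ m → N < 30) → clt a ∈ GF) ∧
    (N ≤ 6 → clt a ∈ GF) ∧
    (N ≤ 8 → (∀ d ∈ [130, 170, 174, 420], ¬ d ∣ m) → clt a ∈ GF) ∧
    (N ≤ 10 → ¬ 2 ∣ m → clt a ∈ GF) := by
  obtain ⟨h1, h2, h3⟩ := pBrg hSzBas m N a ha
  have key : PairQ m N l8 → (420 ∣ m → N < 6) → (660 ∣ m → N < 10) → (1155 ∣ m → N < 15) → (1540 ∣ m → N < 30) →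
      clt a ∈ GF := by
    intro hP h4 h6 h11 h15
    refine gGTt m N GF Al15 (gGdF m) ?_ (Fin N) a (by simp) h1 h3
    intro T hT hTA
    exact gCrN m N T hT ((condF gMx gNcR gKmn hP h4 h6 h11 h15 T hT).resolve_left hTA)
  refine ⟨fun h => gQR m h (Fin N) a h1 h3, key, fun hN => ?_, fun hN hd => ?_, fun hN hm2 => ?_⟩
  · exact gG14F (gGT6 m (Fin N) a (by simpa using hN) h1 h3).1
  · refine key (pairQ8 hN hd) (fun h => absurd h (hd _ (by simp))) (fun _ => by omega) (fun _ => by omega) fun _ => by omega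
  · refine key (pairQ10 hN hm2) (fun h => absurd ((by norm_num : (2 : ℕ) ∣ 420).trans h) hm2)
      (fun h => absurd ((by norm_num : (2 : ℕ) ∣ 660).trans h) hm2) (fun _ => by omega)
      fun h => absurd ((by norm_num : (2 : ℕ) ∣ 1540).trans h) hm2

end Pool.Agent.FO
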