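import Pool.Agent.Lib.MP_640417_ag.GT.SpecR

/-!
# Parity for three primes
-/

set_option autoImplicit false

namespace Pool.Agent.FO

open Finset Pool.Agent.FC

namespace GPa3Aux

theorem vv_zero (a q : ℕ) (S : Finset ℕ) (hS : ¬ ({a, q} : Finset ℕ) ⊆ S) : vv [a] q S = 0 := by
  unfold vv
  rw [if_neg]
  intro h
  apply hS
  intro x hx
  simp only [mem_insert, mem_singleton] at hx
  rcases hx with rfl | rfl
  · exact h x (by simp)
  · exact h x (by simp)

theorem vv_pos (a q : ℕ) (S : Finset ℕ) (hS : ({a, q} : Finset ℕ) ⊆ S) :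
    vv [a] q S = ups Js [a] 1 ((S \ {a}).erase q) := by
  unfold vv
  rw [if_pos]
  · simp
  · intro p hp
    apply hS
    simp only [List.mem_cons, List.not_mem_nil, or_false] at hp
    simp only [mem_insert, mem_singleton]
    tauto

end GPa3Aux

open GPa3Aux in
theorem pPa3 (h1 : S_Smg) (h2 : S_RfV) (h3 : S_RzK) : S_Pa3 := by
  intro a b q ha hb hq hab ha4 hb4 hq4
  have hbq : b ≠ q := by
    rintro rfl
    rcases hb4 with h | h <;> omega
  have haq : a ≠ q := by
    rintro rfl
    rcases ha4 with h | h <;> omega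
  have hP : ({a, b, q} : Finset ℕ) = insert b {a, q} := by
    ext x
    simp only [mem_insert, mem_singleton]
    tauto
  have hbK : b ∉ ({a, q} : Finset ℕ) := by
    simp only [mem_insert, mem_singleton]
    rintro (h | h)
    · exact hab h.symm
    · exact hbq h
  obtain ⟨-, -, a1, a2, -⟩ := h1 a ha
  obtain ⟨-, -, b1, b2, -⟩ := h1 b hb
  have hna : ¬ sm a (-1) := fun h => (a2.1 h) ha4
  have hnb : ¬ sm b (-1) := fun h => (b2.1 h) hb4
  obtain ⟨-, r2, -⟩ := h3 (nr {a, b, q}) (vv [a] q) {a, q} (vv_zero a q)
  have e1 : (({a, q} : Finset ℕ) \ {a}).erase q = ∅ := by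
    ext x
    simp only [mem_erase, mem_sdiff, mem_insert, mem_singleton, notMem_empty, iff_false]
    tauto
  have e2 : ((insert b {a, q} : Finset ℕ) \ {a}).erase q = {b} := by
    ext x
    simp only [mem_erase, mem_sdiff, mem_insert, mem_singleton]
    constructor
    · tauto
    · rintro rfl
      exact ⟨hbq, Or.inl rfl, fun h => hab h.symm⟩
  obtain ⟨f1, f2, -, f4, -⟩ := h2 Js 1 a b a hab.symm
  obtain ⟨g1, g2, -, -, -⟩ := h2 Js (-1) a b a hab.symm
  have j1 : Js a 1 = 1 := by
    unfold Js
    rw [if_pos a1]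
  have j2 : Js a (-1) = 0 := by
    unfold Js
    rw [if_neg hna]
  have j3 : Js b 1 = 1 := by
    unfold Js
    rw [if_pos b1]
  have j4 : Js b (-1) = 0 := by
    unfold Js
    rw [if_neg hnb]
  have vK : vv [a] q {a, q} = 1 := by
    rw [vv_pos a q _ (Finset.Subset.refl _), e1, f4, f1, g1, j1, j2]
    norm_num
  have vP : vv [a] q (insert b {a, q}) = 1 - Js a b := by
    rw [vv_pos a q _ (Finset.subset_insert _ _), e2, f4, f2, g2, j1, j3, j4, one_mul, one_mul]
    ring
  have hd : (insert b {a, q} : Finset ℕ) \ {a, q} = {b} := by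
    ext x
    simp only [mem_sdiff, mem_insert, mem_singleton]
    constructor
    · tauto
    · rintro rfl
      refine ⟨Or.inl rfl, ?_⟩
      rintro (h | h)
      · exact hab h.symm
      · exact hbq h
  have hkq : kq (nr {a, b, q}) (insert b {a, q}) {a, q} =
      if ¬ 2 ∣ (({a, q} : Finset ℕ) ∩ nr {a, b, q} b).card then 1 else 0 := by
    unfold kq
    rw [hd]
    simp only [mem_singleton, forall_eq]
  have hmem : ∀ x, x ∈ ({a, q} : Finset ℕ) ∩ nr {a, b, q} b ↔ ((x = a ∨ x = q) ∧ ¬ sm x b) := by
    intro x
    simp only [nr, mem_inter, mem_insert, mem_singleton, mem_filter]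
    constructor
    · rintro ⟨h, -, -, h'⟩
      exact ⟨h, h'⟩
    · rintro ⟨h, h'⟩
      refine ⟨h, ?_, ?_, h'⟩
      · tauto
      · rintro rfl
        rcases h with h | h
        · exact hab h.symm
        · exact hbq h
  suffices h : 2 ∣ Rz (nr {a, b, q}) (vv [a] q) (insert b {a, q}) ↔ sm q b by
    rwa [← hP] at h
  rw [r2 b hbK, vK, vP, hkq]
  by_cases ca : sm a b
  · have ja : Js a b = 1 := by
      unfold Js
      rw [if_pos ca]
    by_cases cq : sm q b
    · have hE : ({a, q} : Finset ℕ) ∩ nr {a, b, q} b = ∅ := by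
        ext x
        rw [hmem]
        simp only [notMem_empty, iff_false, not_and, not_not]
        rintro (rfl | rfl)
        · exact ca
        · exact cq
      rw [hE, ja]
      simp [cq]
    · have hE : ({a, q} : Finset ℕ) ∩ nr {a, b, q} b = {q} := by
        ext x
        rw [hmem]
        simp only [mem_singleton]
        constructor
        · rintro ⟨rfl | rfl, h⟩
          · exact absurd ca h
          · rfl
        · rintro rfl
          exact ⟨Or.inr rfl, cq⟩
      rw [hE, ja]
      simp [cq]
  · have ja : Js a b = 0 := by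
      unfold Js
      rw [if_neg ca]
    by_cases cq : sm q b
    · have hE : ({a, q} : Finset ℕ) ∩ nr {a, b, q} b = {a} := by
        ext x
        rw [hmem]
        simp only [mem_singleton]
        constructor
        · rintro ⟨rfl | rfl, h⟩
          · rfl
          · exact absurd cq h
        · rintro rfl
          exact ⟨Or.inl rfl, ca⟩
      rw [hE, ja]
      simp [cq]
    · have hE : ({a, q} : Finset ℕ) ∩ nr {a, b, q} b = {a, q} := by
        ext x
        rw [hmem]
        simp only [mem_insert, mem_singleton]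
        constructor
        · rintro ⟨h, -⟩
          exact h
        · rintro (rfl | rfl)
          · exact ⟨Or.inl rfl, ca⟩
          · exact ⟨Or.inr rfl, cq⟩
      rw [hE, ja, Finset.card_pair haq]
      simp [cq]

end Pool.Agent.FO
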