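import Pool.Agent.Lib.MP_640417_ag.GT.SpecR

/-!
# `S_Pa4`: odd value for four primes, the set `{q, r}`
-/

set_option autoImplicit false

open Finset Pool.Agent.FC

namespace Pool.Agent.FO

namespace GPa4Aux

theorem js_pos {s : ℕ} {x : ℤ} (h : sm s x) : Js s x = 1 := by
  unfold Js
  rw [if_pos h]

theorem js_neg {s : ℕ} {x : ℤ} (h : ¬ sm s x) : Js s x = 0 := by
  unfold Js
  rw [if_neg h]

theorem mem_nr' {T : Finset ℕ} {p u : ℕ} : u ∈ nr T p ↔ u ∈ T ∧ u ≠ p ∧ ¬ sm u p := by
  simp only [nr, Finset.mem_filter]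

theorem vvS (hRfV : S_RfV) {a q : ℕ} {S L : Finset ℕ} (ha : a ∈ S) (hq : q ∈ S)
    (hS : (S \ {a}).erase q = L) : vv [a] q S = Rf Js 1 a L - Rf Js (-1) a L := by
  have h1 : ∀ p ∈ q :: [a], p ∈ S := by
    intro p hp
    rw [List.mem_cons, List.mem_singleton] at hp
    rcases hp with rfl | rfl
    · exact hq
    · exact ha
  have h2 : ([a] : List ℕ).toFinset = {a} := by simp
  unfold vv
  rw [if_pos h1, h2, hS]
  exact (hRfV Js 1 a 0 1 (by norm_num)).2.2.2.1 L

open Classical in
theorem inter_nr {P U : Finset ℕ} (h : U ⊆ P) (p : ℕ) :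
    U ∩ nr P p = U.filter (fun u => u ≠ p ∧ ¬ sm u p) := by
  ext u
  rw [mem_inter, mem_nr', mem_filter]
  constructor
  · rintro ⟨h1, -, h2⟩
    exact ⟨h1, h2⟩
  · rintro ⟨h1, h2⟩
    exact ⟨h1, h h1, h2⟩

theorem kq_one {n : ℕ → Finset ℕ} {S U : Finset ℕ} (h : ∀ p ∈ S \ U, ¬ 2 ∣ (U ∩ n p).card) :
    kq n S U = 1 := by
  unfold kq
  rw [if_pos h]

theorem kq_zero {n : ℕ → Finset ℕ} {S U : Finset ℕ} {p : ℕ} (hp : p ∈ S \ U)
    (h : 2 ∣ (U ∩ n p).card) : kq n S U = 0 := by
  unfold kq
  rw [if_neg]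
  intro h1
  exact h1 p hp h

theorem copp {a b : ℕ} (ha : a.Prime) (hb : b.Prime) (h : a ≠ b) : IsCoprime (a : ℤ) (b : ℤ) :=
  Nat.isCoprime_iff_coprime.2 ((Nat.coprime_primes ha hb).2 h)

theorem sm_neg34 (hSmg : S_Smg) {a : ℕ} (ha : a.Prime) (h : a = 2 ∨ a % 4 = 3) {x : ℤ}
    (hx : IsCoprime x (a : ℤ)) : sm a (-x) ↔ ¬ sm a x := by
  obtain ⟨h1, -, -, h4, -⟩ := hSmg a ha
  have h5 := h1 (-1) x isCoprime_one_left.neg_left hx
  rw [neg_one_mul] at h5
  rw [h5, h4]
  tauto

theorem sm_neg1 (hSmg : S_Smg) {a : ℕ} (ha : a.Prime) (h : ¬ (a = 2 ∨ a % 4 = 3)) {x : ℤ}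
    (hx : IsCoprime x (a : ℤ)) : sm a (-x) ↔ sm a x := by
  obtain ⟨h1, -, -, h4, -⟩ := hSmg a ha
  have h5 := h1 (-1) x isCoprime_one_left.neg_left hx
  rw [neg_one_mul] at h5
  rw [h5, h4]
  tauto

theorem js_neg34 (hSmg : S_Smg) {a : ℕ} (ha : a.Prime) (h : a = 2 ∨ a % 4 = 3) {x : ℤ}
    (hx : IsCoprime x (a : ℤ)) : Js a (-x) = 1 - Js a x := by
  by_cases h1 : sm a x
  · rw [js_pos h1, js_neg (fun h2 => (sm_neg34 hSmg ha h hx).1 h2 h1)]
    norm_num
  · rw [js_neg h1, js_pos ((sm_neg34 hSmg ha h hx).2 h1)]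
    norm_num

theorem js_neg1 (hSmg : S_Smg) {a : ℕ} (ha : a.Prime) (h : ¬ (a = 2 ∨ a % 4 = 3)) {x : ℤ}
    (hx : IsCoprime x (a : ℤ)) : Js a (-x) = Js a x := by
  by_cases h1 : sm a x
  · rw [js_pos h1, js_pos ((sm_neg1 hSmg ha h hx).2 h1)]
  · rw [js_neg h1, js_neg (fun h2 => h1 ((sm_neg1 hSmg ha h hx).1 h2))]

end GPa4Aux

open GPa4Aux

theorem pPa4 (hSmg : S_Smg) (hRfV : S_RfV) (hRzK : S_RzK) : S_Pa4 := by
  classical
  intro a b q r ha hb hq hr hab hqr ha4 hb4 hq4 hr4 hqa hra hqb hrb
  have haq : a ≠ q := by rintro rfl; omega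
  have har : a ≠ r := by rintro rfl; omega
  have hbq : b ≠ q := by rintro rfl; omega
  have hbr : b ≠ r := by rintro rfl; omega
  have hq1 : ¬ (q = 2 ∨ q % 4 = 3) := by omega
  have ja1 : Js a 1 = 1 := js_pos (hSmg a ha).2.2.1
  have jb1 : Js b 1 = 1 := js_pos (hSmg b hb).2.2.1
  have jq1 : Js q 1 = 1 := js_pos (hSmg q hq).2.2.1
  have jam : Js a (-1) = 0 := by
    rw [js_neg34 hSmg ha ha4 isCoprime_one_left, ja1, sub_self]
  have jbm : Js b (-1) = 0 := by
    rw [js_neg34 hSmg hb hb4 isCoprime_one_left, jb1, sub_self]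
  have jqm : Js q (-1) = 1 := by
    rw [js_neg1 hSmg hq hq1 isCoprime_one_left, jq1]
  constructor
  · set K : Finset ℕ := {q, r} with hK
    have hP : ({a, b, q, r} : Finset ℕ) = insert a (insert b K) := by
      ext u
      simp only [hK, mem_insert, mem_singleton]
    have haK : a ∉ K := by
      simp only [hK, mem_insert, mem_singleton]
      omega
    have hbK : b ∉ K := by
      simp only [hK, mem_insert, mem_singleton]
      omega
    have hv0 : ∀ S : Finset ℕ, ¬ K ⊆ S → vv [q] r S = 0 := by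
      intro S hS
      unfold vv
      rw [if_neg]
      intro h1
      apply hS
      intro u hu
      simp only [hK, mem_insert, mem_singleton] at hu
      rcases hu with rfl | rfl
      · exact h1 u (by simp)
      · exact h1 u (by simp)
    rw [hP, (hRzK _ (vv [q] r) K hv0).2.2 a b haK hbK hab]
    set P : Finset ℕ := insert a (insert b K) with hPdef
    -- the values of `Js`
    have jabm : Js a (-(b : ℤ)) = 1 - Js a b := js_neg34 hSmg ha ha4 (copp hb ha hab.symm)
    have jbam : Js b (-(a : ℤ)) = 1 - Js b a := js_neg34 hSmg hb hb4 (copp ha hb hab)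
    have jqa : Js q a = 0 := js_neg hqa
    have jqb : Js q b = 1 := js_pos hqb
    have hsab : ¬ sm q ((a : ℤ) * b) := by
      rw [(hSmg q hq).1 a b (copp ha hq haq) (copp hb hq hbq)]
      tauto
    have jqab : Js q ((a : ℤ) * b) = 0 := js_neg hsab
    have jqabm : Js q (-((a : ℤ) * b)) = 0 := by
      rw [js_neg1 hSmg hq hq1 ((copp ha hq haq).mul_left (copp hb hq hbq)), jqab]
    -- the values of `vv`
    obtain ⟨f0, f1, -⟩ := hRfV Js 1 q a b hab
    obtain ⟨g0, g1, -⟩ := hRfV Js (-1) q a b hab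
    have f1' := (hRfV Js 1 q b a hab.symm).2.1
    have g1' := (hRfV Js (-1) q b a hab.symm).2.1
    have f2 := (hRfV Js 1 q a b hab).2.2.1
    have g2 := (hRfV Js (-1) q a b hab).2.2.1
    simp only [one_mul, neg_one_mul] at f0 f1 g0 g1 f1' g1' f2 g2
    have vK : vv [q] r K = 0 := by
      have e : (K \ {q}).erase r = ∅ := by
        ext u
        simp only [hK, mem_erase, mem_sdiff, mem_insert, mem_singleton, notMem_empty, iff_false]
        omega
      rw [vvS hRfV (by simp [hK]) (by simp [hK]) e, f0, g0, jq1, jqm, sub_self]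
    have va : vv [q] r (insert a K) = 1 := by
      have e : (insert a K \ {q}).erase r = {a} := by
        ext u
        simp only [hK, mem_erase, mem_sdiff, mem_insert, mem_singleton]
        omega
      rw [vvS hRfV (by simp [hK]) (by simp [hK]) e, f1, g1, ja1, jq1, jqa, jam]
      norm_num
    have vb : vv [q] r (insert b K) = 0 := by
      have e : (insert b K \ {q}).erase r = {b} := by
        ext u
        simp only [hK, mem_erase, mem_sdiff, mem_insert, mem_singleton]
        omega
      rw [vvS hRfV (by simp [hK]) (by simp [hK]) e, f1', g1', jb1, jq1, jqb, jbm]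
      norm_num
    have vP : vv [q] r P = 1 - Js a b := by
      have e : (P \ {q}).erase r = {a, b} := by
        ext u
        simp only [hPdef, hK, mem_erase, mem_sdiff, mem_insert, mem_singleton]
        omega
      rw [vvS hRfV (by simp [hPdef, hK]) (by simp [hPdef, hK]) e, f2, g2, jqab, jqabm, ja1, jam, jb1,
        jbm, jq1, jqm, jqa, jqb, jabm, jbam]
      ring
    -- the sets
    have saP : insert a K ⊆ P := by
      intro u hu
      simp only [mem_insert] at hu
      simp only [hPdef, mem_insert]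
      tauto
    have d3 : P \ insert a K = {b} := by
      ext u
      simp only [hPdef, hK, mem_sdiff, mem_insert, mem_singleton]
      omega
    have kb : ((insert a K ∩ nr P b).card = if sm a b then 1 else 2) := by
      rw [inter_nr saP]
      have e1 : K.filter (fun u => u ≠ b ∧ ¬ sm u b) = {r} := by
        ext u
        simp only [hK, mem_filter, mem_insert, mem_singleton]
        constructor
        · rintro ⟨rfl | rfl, h1, h2⟩
          · exact absurd hqb h2
          · rfl
        · rintro rfl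
          exact ⟨Or.inr rfl, hbr.symm, hrb⟩
      by_cases h : sm a b
      · rw [filter_insert, e1, if_neg (fun h1 => h1.2 h), if_pos h]
        rfl
      · rw [filter_insert, e1, if_pos ⟨hab, h⟩, if_neg h, card_pair har]
    have c3 : kq (nr P) P (insert a K) = Js a b := by
      by_cases h : sm a b
      · rw [js_pos h]
        refine kq_one ?_
        rw [d3]
        intro p hp
        rw [mem_singleton.1 hp, kb, if_pos h]
        norm_num
      · rw [js_neg h]
        exact kq_zero (p := b) (by rw [d3]; simp) (by rw [kb, if_neg h])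
    rw [vP, va, vb, vK, c3]
    by_cases h : sm a b
    · rw [js_pos h]
      norm_num
    · rw [js_neg h]
      norm_num
  · have hv0 : ∀ S : Finset ℕ, ¬ ({a, b, q, r} : Finset ℕ) ⊆ S → vv [a, b, q] r S = 0 := by
      intro S hS
      unfold vv
      rw [if_neg]
      intro h1
      apply hS
      intro u hu
      simp only [mem_insert, mem_singleton] at hu
      rcases hu with rfl | rfl | rfl | rfl
      · exact h1 u (by simp)
      · exact h1 u (by simp)
      · exact h1 u (by simp)
      · exact h1 u (by simp)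
    rw [(hRzK _ (vv [a, b, q] r) {a, b, q, r} hv0).1]
    have h1 : ∀ p ∈ r :: [a, b, q], p ∈ ({a, b, q, r} : Finset ℕ) := by
      intro p hp
      simp only [List.mem_cons, List.not_mem_nil, or_false] at hp
      simp only [mem_insert, mem_singleton]
      tauto
    have h2 : (({a, b, q, r} : Finset ℕ) \ ([a, b, q] : List ℕ).toFinset).erase r = ∅ := by
      ext u
      simp only [mem_erase, mem_sdiff, mem_insert, mem_singleton, notMem_empty, iff_false,
        List.mem_toFinset, List.mem_cons, List.not_mem_nil, or_false]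
      tauto
    unfold vv
    rw [if_pos h1, h2, (hRfV Js 1 a b q hbq).2.2.2.2, jq1, jqm, sub_self, mul_zero]

end Pool.Agent.FO
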