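import Pool.Agent.Lib.MP_640417_ag.GT.SpecR

/-!
# `S_Pa5`: value `0` for four primes, the set `{a, q}`
-/

set_option autoImplicit false

open Finset Pool.Agent.FC

namespace Pool.Agent.FO

namespace GPa5Aux

theorem js_pos {s : ℕ} {x : ℤ} (h : sm s x) : Js s x = 1 := by
  unfold Js
  rw [if_pos h]

theorem js_neg {s : ℕ} {x : ℤ} (h : ¬ sm s x) : Js s x = 0 := by
  unfold Js
  rw [if_neg h]

theorem mem_nr' {T : Finset ℕ} {p u : ℕ} : u ∈ nr T p ↔ u ∈ T ∧ u ≠ p ∧ ¬ sm u p := by
  simp only [nr, Finset.mem_filter]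

theorem vvS (hRfV : S_RfV) {a q : ℕ} {S L : Finset ℕ} (ha : a ∈ S) (hq : q ∈ S)
    (hS : (S \ {a}).erase q = L) : vv [a] q S = Rf Js 1 a L - Rf Js (-1) a L := by
  have h1 : ∀ p ∈ q :: [a], p ∈ S := by
    intro p hp
    rw [List.mem_cons, List.mem_singleton] at hp
    rcases hp with rfl | rfl
    · exact hq
    · exact ha
  have h2 : ([a] : List ℕ).toFinset = {a} := by simp
  unfold vv
  rw [if_pos h1, h2, hS]
  exact (hRfV Js 1 a 0 1 (by norm_num)).2.2.2.1 L

open Classical in
theorem inter_nr {P U : Finset ℕ} (h : U ⊆ P) (p : ℕ) :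
    U ∩ nr P p = U.filter (fun u => u ≠ p ∧ ¬ sm u p) := by
  ext u
  rw [mem_inter, mem_nr', mem_filter]
  constructor
  · rintro ⟨h1, -, h2⟩
    exact ⟨h1, h2⟩
  · rintro ⟨h1, h2⟩
    exact ⟨h1, h h1, h2⟩

theorem kq_one {n : ℕ → Finset ℕ} {S U : Finset ℕ} (h : ∀ p ∈ S \ U, ¬ 2 ∣ (U ∩ n p).card) :
    kq n S U = 1 := by
  unfold kq
  rw [if_pos h]

theorem kq_zero {n : ℕ → Finset ℕ} {S U : Finset ℕ} {p : ℕ} (hp : p ∈ S \ U)
    (h : 2 ∣ (U ∩ n p).card) : kq n S U = 0 := by
  unfold kq
  rw [if_neg]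
  intro h1
  exact h1 p hp h

theorem copp {a b : ℕ} (ha : a.Prime) (hb : b.Prime) (h : a ≠ b) : IsCoprime (a : ℤ) (b : ℤ) :=
  Nat.isCoprime_iff_coprime.2 ((Nat.coprime_primes ha hb).2 h)

theorem sm_neg34 (hSmg : S_Smg) {a : ℕ} (ha : a.Prime) (h : a = 2 ∨ a % 4 = 3) {x : ℤ}
    (hx : IsCoprime x (a : ℤ)) : sm a (-x) ↔ ¬ sm a x := by
  obtain ⟨h1, -, -, h4, -⟩ := hSmg a ha
  have h5 := h1 (-1) x isCoprime_one_left.neg_left hx
  rw [neg_one_mul] at h5
  rw [h5, h4]
  tauto

theorem sm_neg1 (hSmg : S_Smg) {a : ℕ} (ha : a.Prime) (h : ¬ (a = 2 ∨ a % 4 = 3)) {x : ℤ}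
    (hx : IsCoprime x (a : ℤ)) : sm a (-x) ↔ sm a x := by
  obtain ⟨h1, -, -, h4, -⟩ := hSmg a ha
  have h5 := h1 (-1) x isCoprime_one_left.neg_left hx
  rw [neg_one_mul] at h5
  rw [h5, h4]
  tauto

theorem js_neg34 (hSmg : S_Smg) {a : ℕ} (ha : a.Prime) (h : a = 2 ∨ a % 4 = 3) {x : ℤ}
    (hx : IsCoprime x (a : ℤ)) : Js a (-x) = 1 - Js a x := by
  by_cases h1 : sm a x
  · rw [js_pos h1, js_neg (fun h2 => (sm_neg34 hSmg ha h hx).1 h2 h1)]
    norm_num
  · rw [js_neg h1, js_pos ((sm_neg34 hSmg ha h hx).2 h1)]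
    norm_num

theorem js_neg1 (hSmg : S_Smg) {a : ℕ} (ha : a.Prime) (h : ¬ (a = 2 ∨ a % 4 = 3)) {x : ℤ}
    (hx : IsCoprime x (a : ℤ)) : Js a (-x) = Js a x := by
  by_cases h1 : sm a x
  · rw [js_pos h1, js_pos ((sm_neg1 hSmg ha h hx).2 h1)]
  · rw [js_neg h1, js_neg (fun h2 => h1 ((sm_neg1 hSmg ha h hx).1 h2))]

end GPa5Aux

open GPa5Aux

theorem pPa5 (hSmg : S_Smg) (hRfV : S_RfV) (hRzK : S_RzK) : S_Pa5 := by
  classical
  intro a b q r ha hb hq hr hab hqr ha4 hb4 hq4 hr4 hqa hra hqb hrb hqr2
  have haq : a ≠ q := by rintro rfl; omega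
  have har : a ≠ r := by rintro rfl; omega
  have hbq : b ≠ q := by rintro rfl; omega
  have hbr : b ≠ r := by rintro rfl; omega
  have hr1 : ¬ (r = 2 ∨ r % 4 = 3) := by omega
  set K : Finset ℕ := {a, q} with hK
  have hP : ({a, b, q, r} : Finset ℕ) = insert b (insert r K) := by
    ext u
    simp only [hK, mem_insert, mem_singleton]
    omega
  have hbK : b ∉ K := by
    simp only [hK, mem_insert, mem_singleton]
    omega
  have hrK : r ∉ K := by
    simp only [hK, mem_insert, mem_singleton]
    omega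
  have hv0 : ∀ S : Finset ℕ, ¬ K ⊆ S → vv [a] q S = 0 := by
    intro S hS
    unfold vv
    rw [if_neg]
    intro h1
    apply hS
    intro u hu
    simp only [hK, mem_insert, mem_singleton] at hu
    rcases hu with rfl | rfl
    · exact h1 u (by simp)
    · exact h1 u (by simp)
  rw [hP, (hRzK _ (vv [a] q) K hv0).2.2 b r hbK hrK hbr]
  set P : Finset ℕ := insert b (insert r K) with hPdef
  -- the values of `Js`
  have ja1 : Js a 1 = 1 := js_pos (hSmg a ha).2.2.1
  have jb1 : Js b 1 = 1 := js_pos (hSmg b hb).2.2.1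
  have jr1 : Js r 1 = 1 := js_pos (hSmg r hr).2.2.1
  have jam : Js a (-1) = 0 := by
    rw [js_neg34 hSmg ha ha4 isCoprime_one_left, ja1, sub_self]
  have jbm : Js b (-1) = 0 := by
    rw [js_neg34 hSmg hb hb4 isCoprime_one_left, jb1, sub_self]
  have jrm : Js r (-1) = 1 := by
    rw [js_neg1 hSmg hr hr1 isCoprime_one_left, jr1]
  have jarm : Js a (-(r : ℤ)) = 1 - Js a r := js_neg34 hSmg ha ha4 (copp hr ha har.symm)
  have jbrm : Js b (-(r : ℤ)) = 1 - Js b r := js_neg34 hSmg hb hb4 (copp hr hb hbr.symm)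
  have jrb : Js r b = 0 := js_neg hrb
  have jrbm : Js r (-(b : ℤ)) = 0 := by
    rw [js_neg1 hSmg hr hr1 (copp hb hr hbr), jrb]
  -- the values of `vv`
  obtain ⟨f0, f1, -⟩ := hRfV Js 1 a b r hbr
  obtain ⟨g0, g1, -⟩ := hRfV Js (-1) a b r hbr
  have f1' := (hRfV Js 1 a r b hbr.symm).2.1
  have g1' := (hRfV Js (-1) a r b hbr.symm).2.1
  have f2 := (hRfV Js 1 a b r hbr).2.2.1
  have g2 := (hRfV Js (-1) a b r hbr).2.2.1
  simp only [one_mul, neg_one_mul] at f0 f1 g0 g1 f1' g1' f2 g2
  have vK : vv [a] q K = 1 := by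
    have e : (K \ {a}).erase q = ∅ := by
      ext u
      simp only [hK, mem_erase, mem_sdiff, mem_insert, mem_singleton, notMem_empty, iff_false]
      omega
    rw [vvS hRfV (by simp [hK]) (by simp [hK]) e, f0, g0, ja1, jam, sub_zero]
  have vb : vv [a] q (insert b K) = 1 - Js a b := by
    have e : (insert b K \ {a}).erase q = {b} := by
      ext u
      simp only [hK, mem_erase, mem_sdiff, mem_insert, mem_singleton]
      omega
    rw [vvS hRfV (by simp [hK]) (by simp [hK]) e, f1, g1, ja1, jb1, jbm]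
    ring
  have vr : vv [a] q (insert r K) = 2 * (1 - Js a r) := by
    have e : (insert r K \ {a}).erase q = {r} := by
      ext u
      simp only [hK, mem_erase, mem_sdiff, mem_insert, mem_singleton]
      omega
    rw [vvS hRfV (by simp [hK]) (by simp [hK]) e, f1', g1', ja1, jr1, jrm, jam, jarm]
    ring
  have vP : vv [a] q P = 1 - Js a r := by
    have e : (P \ {a}).erase q = {b, r} := by
      ext u
      simp only [hPdef, hK, mem_erase, mem_sdiff, mem_insert, mem_singleton]
      omega
    rw [vvS hRfV (by simp [hPdef, hK]) (by simp [hPdef, hK]) e, f2, g2, jrb, jrbm, jr1, jrm, ja1, jam,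
      jarm, jbrm]
    ring
  -- the sets
  have sKP : K ⊆ P := fun u hu => by simp [hPdef, hu]
  have sbP : insert b K ⊆ P := by
    intro u hu
    simp only [mem_insert] at hu
    simp only [hPdef, mem_insert]
    tauto
  have srP : insert r K ⊆ P := by
    intro u hu
    simp only [mem_insert] at hu
    simp only [hPdef, mem_insert]
    tauto
  have d1 : insert b K \ K = {b} := by
    ext u
    simp only [hK, mem_sdiff, mem_insert, mem_singleton]
    omega
  have d2 : insert r K \ K = {r} := by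
    ext u
    simp only [hK, mem_sdiff, mem_insert, mem_singleton]
    omega
  have d3 : P \ insert r K = {b} := by
    ext u
    simp only [hPdef, hK, mem_sdiff, mem_insert, mem_singleton]
    omega
  have d4 : P \ K = {b, r} := by
    ext u
    simp only [hPdef, hK, mem_sdiff, mem_insert, mem_singleton]
    omega
  have kb : ((K ∩ nr P b).card = if sm a b then 0 else 1) ∧
      ((insert r K ∩ nr P b).card = if sm a b then 1 else 2) := by
    rw [inter_nr sKP, inter_nr srP]
    by_cases h : sm a b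
    · have e1 : K.filter (fun u => u ≠ b ∧ ¬ sm u b) = ∅ := by
        ext u
        simp only [hK, mem_filter, mem_insert, mem_singleton, notMem_empty, iff_false, not_and, not_not]
        rintro (rfl | rfl) -
        · exact h
        · exact hqb
      have e2 : (insert r K).filter (fun u => u ≠ b ∧ ¬ sm u b) = {r} := by
        rw [filter_insert, e1, if_pos ⟨hbr.symm, hrb⟩]
        rfl
      rw [e1, e2, if_pos h, if_pos h]
      exact ⟨rfl, rfl⟩
    · have e1 : K.filter (fun u => u ≠ b ∧ ¬ sm u b) = {a} := by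
        ext u
        simp only [hK, mem_filter, mem_insert, mem_singleton]
        constructor
        · rintro ⟨rfl | rfl, h1, h2⟩
          · rfl
          · exact absurd hqb h2
        · rintro rfl
          exact ⟨Or.inl rfl, hab, h⟩
      have e2 : (insert r K).filter (fun u => u ≠ b ∧ ¬ sm u b) = {r, a} := by
        rw [filter_insert, e1, if_pos ⟨hbr.symm, hrb⟩]
      rw [e1, e2, if_neg h, if_neg h, card_singleton, card_pair har.symm]
      exact ⟨rfl, rfl⟩
  have kr : (K ∩ nr P r).card = if sm a r then 0 else 1 := by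
    rw [inter_nr sKP]
    by_cases h : sm a r
    · have e1 : K.filter (fun u => u ≠ r ∧ ¬ sm u r) = ∅ := by
        ext u
        simp only [hK, mem_filter, mem_insert, mem_singleton, notMem_empty, iff_false, not_and, not_not]
        rintro (rfl | rfl) -
        · exact h
        · exact hqr2
      rw [e1, if_pos h, card_empty]
    · have e1 : K.filter (fun u => u ≠ r ∧ ¬ sm u r) = {a} := by
        ext u
        simp only [hK, mem_filter, mem_insert, mem_singleton]
        constructor
        · rintro ⟨rfl | rfl, h1, h2⟩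
          · rfl
          · exact absurd hqr2 h2
        · rintro rfl
          exact ⟨Or.inl rfl, har, h⟩
      rw [e1, if_neg h, card_singleton]
  have c1 : kq (nr P) (insert b K) K = 1 - Js a b := by
    by_cases h : sm a b
    · rw [js_pos h, sub_self]
      exact kq_zero (p := b) (by rw [d1]; simp) (by rw [kb.1, if_pos h]; exact dvd_zero 2)
    · rw [js_neg h, sub_zero]
      refine kq_one ?_
      rw [d1]
      intro p hp
      rw [mem_singleton.1 hp, kb.1, if_neg h]
      norm_num
  have c2 : kq (nr P) (insert r K) K = 1 - Js a r := by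
    by_cases h : sm a r
    · rw [js_pos h, sub_self]
      exact kq_zero (p := r) (by rw [d2]; simp) (by rw [kr, if_pos h]; exact dvd_zero 2)
    · rw [js_neg h, sub_zero]
      refine kq_one ?_
      rw [d2]
      intro p hp
      rw [mem_singleton.1 hp, kr, if_neg h]
      norm_num
  have c3 : kq (nr P) P (insert r K) = Js a b := by
    by_cases h : sm a b
    · rw [js_pos h]
      refine kq_one ?_
      rw [d3]
      intro p hp
      rw [mem_singleton.1 hp, kb.2, if_pos h]
      norm_num
    · rw [js_neg h]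
      exact kq_zero (p := b) (by rw [d3]; simp) (by rw [kb.2, if_neg h])
  have c4' : kq (nr P) P K = (1 - Js a b) * (1 - Js a r) := by
    by_cases h : sm a b
    · rw [js_pos h, sub_self, zero_mul]
      exact kq_zero (p := b) (by rw [d4]; simp) (by rw [kb.1, if_pos h]; exact dvd_zero 2)
    · by_cases h' : sm a r
      · rw [js_pos h', sub_self, mul_zero]
        exact kq_zero (p := r) (by rw [d4]; simp) (by rw [kr, if_pos h']; exact dvd_zero 2)
      · rw [js_neg h, js_neg h']
        norm_num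
        refine kq_one ?_
        rw [d4]
        intro p hp
        rw [mem_insert, mem_singleton] at hp
        rcases hp with rfl | rfl
        · rw [kb.1, if_neg h]
          norm_num
        · rw [kr, if_neg h']
          norm_num
  rw [vP, vb, vr, vK, c1, c2, c3, c4']
  ring

end Pool.Agent.FO
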