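import Pool.Agent.Lib.MP_640417_ag.GT.SpecR

/-!
# Pairs of primes: all pairs (helper97)
-/

set_option autoImplicit false

noncomputable section

namespace Pool.Agent.FO

open Finset Pool.Agent.FC

namespace GPdAAux

theorem recip {q r : ℕ} (hq : q.Prime) (hr : r.Prime) (hq4 : q % 4 = 1) (hr4 : r % 4 = 1) :
    sm q r ↔ sm r q := by
  have i1 : Fact q.Prime := ⟨hq⟩
  have i2 : Fact r.Prime := ⟨hr⟩
  have h1 := ZMod.exists_sq_eq_prime_iff_of_mod_four_eq_one (p := q) (q := r) hq4 (by omega)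
  have hq2 : q ≠ 2 := by omega
  have hr2 : r ≠ 2 := by omega
  have e1 : c4 q = q := by unfold c4; rw [if_neg hq2]
  have e2 : c4 r = r := by unfold c4; rw [if_neg hr2]
  unfold sm
  rw [e1, e2]
  push_cast
  exact h1

end GPdAAux

theorem pPdA (hD : S_Dch) (hB : S_ThB) (hC : S_ThC) : S_PdA := by
  intro A hA
  have h1 : ∀ p q : ℕ, p.Prime → q.Prime → (p = 2 ∨ p % 4 = 3) → q % 4 = 1 → sm q p → Pd A p q := by
    intro p q hp hq hp4 hq4 hs
    obtain ⟨a, ha, ha4, hna⟩ := (hD q hq hq4).1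
    have hap : a ≠ p := by
      rintro rfl
      exact hna hs
    exact hB A a p q hA ha hp hq hap (Or.inr ha4) hp4 hq4 hna (Or.inl hs)
  refine ⟨h1, ?_, ?_⟩
  · intro q s hq hq4 hs hs4 hns hPd p hp hp4
    by_cases hps : s = p
    · rw [← hps]
      exact hPd
    · exact hB A s p q hA hs hp hq hps hs4 hp4 hq4 hns (Or.inr hPd)
  · intro q r hq hq4 hr hr4 hqr hor
    obtain ⟨a, ha, ha4, hna, hra⟩ := (hD q hq hq4).2 r hr hr4 hqr.symm
    obtain ⟨b, hb, hb4, hnb, hqb⟩ := (hD r hr hr4).2 q hq hq4 hqr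
    refine hC A a b q r hA ha hb hq hr hqr (Or.inr ha4) (Or.inr hb4) hq4 hr4 hna hra hqb hnb
      (h1 b q hb hq (Or.inr hb4) hq4 hqb) (h1 a r ha hr (Or.inr ha4) hr4 hra) ?_
    rcases hor with h | h
    · exact Or.inl ⟨h, (GPdAAux.recip hq hr hq4 hr4).1 h⟩
    · exact Or.inr ⟨h.1 a ha (Or.inr ha4), h.2 b hb (Or.inr hb4)⟩

end Pool.Agent.FO
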