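import Pool.Agent.Lib.MP_640417_ag.GT.SpecR

/-!
# Small sets (author helper71)
-/

set_option autoImplicit false

noncomputable section

namespace Pool.Agent.FO

open Finset Pool.Agent.FC

private theorem ss0 : (∅ : Finset ℕ).ssubsets = ∅ := by
  ext C
  rw [Finset.mem_ssubsets]
  constructor
  · intro h
    exact absurd h (Finset.not_ssubset_empty C)
  · intro h
    exact absurd h (Finset.notMem_empty C)

private theorem ss1 (r : ℕ) : ({r} : Finset ℕ).ssubsets = {∅} := by
  ext C
  rw [Finset.mem_ssubsets, Finset.mem_singleton, Finset.ssubset_singleton_iff]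

private theorem ss2 {r s : ℕ} (h : r ≠ s) : ({r, s} : Finset ℕ).ssubsets = {∅, {r}, {s}} := by
  ext C
  rw [Finset.mem_ssubsets, Finset.mem_insert, Finset.mem_insert, Finset.mem_singleton]
  constructor
  · intro hC
    have hC1 : ∀ x ∈ C, x = r ∨ x = s := by
      intro x hx
      have := hC.1 hx
      rwa [Finset.mem_insert, Finset.mem_singleton] at this
    by_cases hr : r ∈ C
    · have hs : s ∉ C := fun hs => hC.2 (by
        intro x hx
        rw [Finset.mem_insert, Finset.mem_singleton] at hx
        rcases hx with h1 | h1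
        · rw [h1]
          exact hr
        · rw [h1]
          exact hs)
      right
      left
      ext x
      rw [Finset.mem_singleton]
      constructor
      · intro hx
        rcases hC1 x hx with h1 | h1
        · exact h1
        · exact absurd (h1 ▸ hx) hs
      · intro h1
        rw [h1]
        exact hr
    · by_cases hs : s ∈ C
      · right
        right
        ext x
        rw [Finset.mem_singleton]
        constructor
        · intro hx
          rcases hC1 x hx with h1 | h1
          · exact absurd (h1 ▸ hx) hr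
          · exact h1
        · intro h1
          rw [h1]
          exact hs
      · left
        rw [Finset.eq_empty_iff_forall_notMem]
        intro x hx
        rcases hC1 x hx with h1 | h1
        · exact hr (h1 ▸ hx)
        · exact hs (h1 ▸ hx)
  · have hr : r ∈ ({r, s} : Finset ℕ) := Finset.mem_insert_self _ _
    have hs : s ∈ ({r, s} : Finset ℕ) := Finset.mem_insert_of_mem (Finset.mem_singleton_self _)
    rintro (rfl | rfl | rfl)
    · exact ⟨Finset.empty_subset _, fun h1 => absurd (h1 hr) (Finset.notMem_empty _)⟩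
    · exact ⟨Finset.singleton_subset_iff.2 hr, fun h1 => h (Finset.mem_singleton.1 (h1 hs)).symm⟩
    · exact ⟨Finset.singleton_subset_iff.2 hs, fun h1 => h (Finset.mem_singleton.1 (h1 hr))⟩

private theorem rf0 (I : ℕ → ℤ → ℤ) (c : ℤ) (p : ℕ) : Rf I c p ∅ = I p c := by
  rw [Rf_eq, ss0, Finset.sum_empty, Finset.card_empty, Finset.prod_empty]
  unfold pr
  rw [Finset.prod_empty, mul_one, mul_one, pow_zero, one_mul, add_zero]

private theorem rf1 (I : ℕ → ℤ → ℤ) (c : ℤ) (p r : ℕ) :
    Rf I c p {r} = I r c * (I p c - I p (c * r)) := by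
  have e1 : ({r} : Finset ℕ).erase r = ∅ := by
    rw [Finset.erase_singleton]
  rw [Rf_eq, ss1, Finset.sum_singleton, Finset.card_singleton, Finset.prod_singleton,
    Finset.sdiff_empty, Finset.card_singleton, Finset.prod_singleton, rf0, e1]
  unfold pr
  rw [Finset.prod_empty, Finset.prod_singleton, mul_one]
  ring

private theorem rf2 (I : ℕ → ℤ → ℤ) (c : ℤ) (p : ℕ) {r s : ℕ} (h : r ≠ s) :
    Rf I c p {r, s} =
      I p (c * (r * s)) * (I r (c * s) * I s (c * r)) - I r (c * s) * I s (c * r) * I p c +
      I s (c * r) * (I r c * (I p c - I p (c * r))) + I r (c * s) * (I s c * (I p c - I p (c * s))) := by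
  have hrs : r ∉ ({s} : Finset ℕ) := fun h1 => h (Finset.mem_singleton.1 h1)
  have e1 : ({r, s} : Finset ℕ).erase r = {s} := Finset.erase_insert hrs
  have e2 : ({r, s} : Finset ℕ).erase s = {r} := by
    rw [Finset.pair_comm]
    exact Finset.erase_insert (fun h1 => h (Finset.mem_singleton.1 h1).symm)
  have d1 : ({r, s} : Finset ℕ) \ {r} = {s} := by rw [Finset.sdiff_singleton_eq_erase, e1]
  have d2 : ({r, s} : Finset ℕ) \ {s} = {r} := by rw [Finset.sdiff_singleton_eq_erase, e2]
  have n1 : (∅ : Finset ℕ) ∉ ({{r}, {s}} : Finset (Finset ℕ)) := by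
    rw [Finset.mem_insert, Finset.mem_singleton]
    rintro (h1 | h1)
    · exact Finset.singleton_ne_empty r h1.symm
    · exact Finset.singleton_ne_empty s h1.symm
  have n2 : ({r} : Finset ℕ) ∉ ({{s}} : Finset (Finset ℕ)) := by
    rw [Finset.mem_singleton]
    intro h1
    exact h (Finset.singleton_injective h1)
  rw [Rf_eq, ss2 h, Finset.sum_insert n1, Finset.sum_insert n2, Finset.sum_singleton,
    Finset.sdiff_empty, d1, d2, Finset.card_pair h, Finset.prod_insert hrs, Finset.card_singleton,
    Finset.card_singleton, Finset.prod_singleton, Finset.prod_singleton,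
    rf0, rf1, rf1, e1, e2]
  unfold pr
  rw [Finset.prod_insert hrs, Finset.prod_singleton, Finset.prod_singleton]
  ring

private theorem upn (I : ℕ → ℤ → ℤ) (c : ℤ) (p : ℕ) (L : Finset ℕ) (g : Finset ℕ → ℤ) :
    ∑ A ∈ L.powerset, Rf I c p A * ups I [] (g A) (L \ A) = Rf I c p L := by
  rw [Finset.sum_eq_single L]
  · rw [Finset.sdiff_self]
    unfold ups
    rw [if_pos rfl, mul_one]
  · intro A hA hne
    unfold ups
    rw [if_neg, mul_zero]
    intro h1
    rw [Finset.sdiff_eq_empty_iff_subset] at h1
    exact hne (Finset.Subset.antisymm (Finset.mem_powerset.1 hA) h1)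
  · intro h1
    exact absurd (Finset.mem_powerset_self L) h1

private theorem up1 (I : ℕ → ℤ → ℤ) (c : ℤ) (p : ℕ) (L : Finset ℕ) :
    ups I [p] c L = Rf I c p L - Rf I (-c) p L := by
  have e : ups I [p] c L = ∑ A ∈ L.powerset, Rf I c p A * ups I [] (c * pr A) (L \ A) +
      (-1) ^ (([] : List ℕ).length + 1) *
        ∑ A ∈ L.powerset, Rf I (-c) p A * ups I [] (-c * pr A) (L \ A) := rfl
  rw [e, upn I c p L (fun A => c * pr A), upn I (-c) p L (fun A => -c * pr A), List.length_nil]
  ring

theorem pRfV : S_RfV := by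
  intro I c p r s h
  refine ⟨rf0 I c p, rf1 I c p r, rf2 I c p h, up1 I c p, ?_⟩
  have h1 := (gUpsB I I [p, r, s] c ∅).2.2.2.2
  rw [h1, List.map_cons, List.map_cons, List.map_cons, List.map_nil, List.prod_cons, List.prod_cons,
    List.prod_cons, List.prod_nil]
  ring

end Pool.Agent.FO
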