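import Pool.Agent.Lib.MP_640417_ag.GT.SpecR

/-!
# Theorem GR, module RlG: the function `Θ`
-/

set_option autoImplicit false

noncomputable section

open Finset Pool.Agent.FC

namespace Pool.Agent.FO

namespace GRlGAux

/-- the map `f ↦ (t ↦ P f t)` -/
private def pL (m : ℕ) [NeZero m] : (ZMod m → ℤ) →+ ((ZMod m)ˣ → ℚ) where
  toFun := fun f t => P f (t : ZMod m)
  map_zero' := by
    funext t
    unfold P
    simp
  map_add' := by
    intro f g
    funext t
    unfold P
    rw [Pi.add_apply, ← Finset.sum_add_distrib]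
    refine Finset.sum_congr rfl fun x _ => ?_
    rw [Pi.add_apply]
    push_cast
    ring

private lemma cl_neg' {m : ℕ} [NeZero m] (f : ZMod m → ℤ) : cl (fun x => -f x) = -cl f := by
  unfold cl
  rw [← Finset.sum_neg_distrib]
  refine Finset.sum_congr rfl fun x _ => ?_
  rw [Finsupp.single_neg]

private lemma sub_dvd {S T : Finset ℕ} (h : S ⊆ T) : dT S ∣ dT T :=
  Finset.prod_dvd_prod_of_subset _ _ _ h

/-- the functions with property `InA A` -/
private def SA (m : ℕ) [NeZero m] (A : AddSubgroup (UnitAddCircle →₀ ℤ)) (hA : HD ≤ A) :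
    AddSubgroup (ZMod m → ℤ) where
  carrier := {f | InA A f}
  zero_mem' := (gInA m A hA (fun _ => 0) (fun _ => 0)).2.2.1
  add_mem' := fun {f g} hf hg => (gInA m A hA f g).2.1 hf hg
  neg_mem' := by
    rintro f ⟨g, h0, h1, h2⟩
    refine ⟨fun x => -g x, ?_, fun x => ?_, ?_⟩
    · change -g 0 = 0
      rw [h0, neg_zero]
    · rw [Pi.neg_apply, h1]
      ring
    · rw [cl_neg']
      exact neg_mem h2

/-- the odd functions -/
private def SO (m : ℕ) : AddSubgroup (ZMod m → ℤ) where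
  carrier := {f | IsOdd f}
  zero_mem' := fun x => by simp
  add_mem' := fun {f g} hf hg x => by
    rw [Pi.add_apply, Pi.add_apply, hf x, hg x]
    ring
  neg_mem' := fun {f} hf x => by
    rw [Pi.neg_apply, Pi.neg_apply, hf x]

/-- the functions supported on the orders which divide `d` -/
private def SD (m d : ℕ) : AddSubgroup (ZMod m → ℤ) where
  carrier := {f | ∀ x, f x ≠ 0 → addOrderOf x ∣ d}
  zero_mem' := fun x h => absurd rfl h
  add_mem' := fun {f g} hf hg x h => by
    by_cases h1 : f x = 0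
    · refine hg x fun h2 => h ?_
      rw [Pi.add_apply, h1, h2, add_zero]
    · exact hf x h1
  neg_mem' := fun {f} hf x h => hf x fun h1 => h (by rw [Pi.neg_apply, h1, neg_zero])

private lemma sqi_one {m d : ℕ} {x : ZMod m} (h : sqi m d x ≠ 0) : sqi m d x = 1 := by
  unfold sqi at *
  split_ifs at * with h1
  · rfl
  · exact absurd rfl h

end GRlGAux

open GRlGAux in
theorem pRlG (hRzW : S_RzW) (hEuG : S_EuG) (hBgR : S_BgR) : S_RlG := by
  classical
  intro m _ T hT hd hc
  have hUm : ∀ U ⊆ T, dT U ∣ m := fun U hU => (sub_dvd hU).trans hd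
  have hUp : ∀ U ⊆ T, ∀ p ∈ U, p.Prime := fun U hU p h => hT p (hU h)
  have hHD : HD ≤ GS := le_sup_left
  -- orders
  have hord : ∀ U ⊆ T, ∀ x : ZMod m, Aq m U x ≠ 0 → addOrderOf x = dT U := by
    intro U hU x hx
    have h6 := (gSqX m U (hUp U hU) (hUm U hU)).2.2.2.2.2
    unfold Aq at hx
    by_cases h1 : sqi m (dT U) x = 0
    · have h2 : sqi m (dT U) (-x) ≠ 0 := fun h2 => hx (by rw [h1, h2, sub_zero])
      have h3 := h6 _ (sqi_one h2)
      rwa [addOrderOf_neg] at h3
    · exact h6 x (sqi_one h1)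
  refine ⟨?_, ?_, ?_, ?_⟩
  · exact gRzB.2.1 (ZMod m → ℤ) (SA m GS hHD) (nr T) (Aq m) T
      fun U hU => gInQ m U (hUp U hU) (hUm U hU)
  · refine gRzB.2.1 (ZMod m → ℤ) (SO m) (nr T) (Aq m) T fun U _ x => ?_
    unfold Aq
    rw [neg_neg]
    ring
  · intro t
    obtain ⟨e, he⟩ := hEuG m T hT hd
    obtain ⟨h1, h2, h3⟩ := hBgR m T e hT hd he
    have hn : ∀ p ∈ T, nr T p ⊆ T := by
      intro p _
      unfold nr
      exact Finset.filter_subset _ _
    have hS : S34 T ⊆ T := by
      unfold S34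
      exact Finset.filter_subset _ _
    have hc' : 2 ∣ (T ∩ S34 T).card := by
      rw [Finset.inter_eq_right.2 hS]
      exact hc
    have h := hRzW ((ZMod m)ˣ) T (S34 T) e (nr T) (fun S g => P (Aq m S) (g : ZMod m)) hS hn
      h1 h2 h3 T (Finset.Subset.refl T) hc' t
    have h4 := congrFun (gRzB.1 (ZMod m → ℤ) ((ZMod m)ˣ → ℚ) (pL m) (nr T) (Aq m) T) t
    have h5 : P (Rz (nr T) (Aq m) T) (t : ZMod m) = (pL m (Rz (nr T) (Aq m) T)) t := rfl
    rw [h5, h4]
    exact h
  · refine gRzB.2.1 (ZMod m → ℤ) (SD m (dT T)) (nr T) (Aq m) T fun U hU x hx => ?_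
    rw [hord U hU x hx]
    exact sub_dvd hU

end Pool.Agent.FO
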