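import Pool.Agent.Lib.MP_640417_ag.GT.SpecR

/-!
# The recursion for functions supported on the sets containing `K`
-/

set_option autoImplicit false

noncomputable section

namespace Pool.Agent.FO

open Finset Pool.Agent.FC

namespace GRzKAux

/-- `Rz n v U = 0` if `K` is not contained in `U`. -/
private theorem zero (n : ℕ → Finset ℕ) (v : Finset ℕ → ℤ) (K : Finset ℕ)
    (hv : ∀ S, ¬ K ⊆ S → v S = 0) (U : Finset ℕ) : ¬ K ⊆ U → Rz n v U = 0 := by
  induction U using Finset.strongInduction with
  | H U ih =>
    intro hU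
    rw [Rz_eq, hv U hU, zero_sub, neg_eq_zero]
    refine Finset.sum_eq_zero fun V hV => ?_
    have hV' := Finset.mem_ssubsets.1 hV
    rw [ih V hV' fun h => hU (h.trans hV'.subset), smul_zero]

/-- Only the proper subsets which contain `K` contribute. -/
private theorem red (n : ℕ → Finset ℕ) (v : Finset ℕ → ℤ) (K : Finset ℕ)
    (hv : ∀ S, ¬ K ⊆ S → v S = 0) (S : Finset ℕ) (Z : Finset (Finset ℕ)) (hZ : ∀ U ∈ Z, U ⊂ S)
    (hZ' : ∀ U, U ⊂ S → K ⊆ U → U ∈ Z) :
    Rz n v S = v S - ∑ U ∈ Z, kq n S U * Rz n v U := by
  rw [Rz_eq]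
  have h : ∑ U ∈ Z, kq n S U * Rz n v U = ∑ U ∈ S.ssubsets, kq n S U • Rz n v U := by
    refine Finset.sum_subset (fun U hU => Finset.mem_ssubsets.2 (hZ U hU)) fun U hU hU' => ?_
    have h1 : ¬ K ⊆ U := fun h => hU' (hZ' U (Finset.mem_ssubsets.1 hU) h)
    rw [zero n v K hv U h1, mul_zero]
  rw [h]

/-- `U ⊆ insert b K` and `b ∉ U` give `U ⊆ K`. -/
private theorem sub {b : ℕ} {K U : Finset ℕ} (h : U ⊆ insert b K) (hb : b ∉ U) : U ⊆ K :=
  (Finset.subset_insert_iff_of_notMem hb).1 h

private theorem one (n : ℕ → Finset ℕ) (v : Finset ℕ → ℤ) (K : Finset ℕ)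
    (hv : ∀ S, ¬ K ⊆ S → v S = 0) : Rz n v K = v K := by
  rw [red n v K hv K ∅ (fun U hU => absurd hU (Finset.notMem_empty U)) fun U hU hK =>
    absurd hK hU.2, Finset.sum_empty, sub_zero]

private theorem two (n : ℕ → Finset ℕ) (v : Finset ℕ → ℤ) (K : Finset ℕ)
    (hv : ∀ S, ¬ K ⊆ S → v S = 0) (b : ℕ) (hb : b ∉ K) :
    Rz n v (insert b K) = v (insert b K) - kq n (insert b K) K * v K := by
  rw [red n v K hv (insert b K) {K} ?_ ?_, Finset.sum_singleton, one n v K hv]
  · intro U hU
    rw [Finset.mem_singleton] at hU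
    subst hU
    exact Finset.ssubset_insert hb
  · intro U hU hK
    rw [Finset.mem_singleton]
    have h1 : b ∉ U := by
      intro h
      exact hU.2 (Finset.insert_subset h hK)
    exact Finset.Subset.antisymm (sub hU.subset h1) hK

private theorem three (n : ℕ → Finset ℕ) (v : Finset ℕ → ℤ) (K : Finset ℕ)
    (hv : ∀ S, ¬ K ⊆ S → v S = 0) (b r : ℕ) (hb : b ∉ K) (hr : r ∉ K) (hbr : b ≠ r) :
    Rz n v (insert b (insert r K)) = v (insert b (insert r K)) -
      kq n (insert b (insert r K)) (insert b K) * (v (insert b K) - kq n (insert b K) K * v K) -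
      kq n (insert b (insert r K)) (insert r K) * (v (insert r K) - kq n (insert r K) K * v K) -
      kq n (insert b (insert r K)) K * v K := by
  have hb' : b ∉ insert r K := by
    rw [Finset.mem_insert]
    rintro (h | h)
    · exact hbr h
    · exact hb h
  have hr' : r ∉ insert b K := by
    rw [Finset.mem_insert]
    rintro (h | h)
    · exact hbr h.symm
    · exact hr h
  have e1 : K ≠ insert b K := fun h => hb (by rw [h]; exact Finset.mem_insert_self b K)
  have e2 : K ≠ insert r K := fun h => hr (by rw [h]; exact Finset.mem_insert_self r K)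
  have e3 : insert b K ≠ insert r K := fun h => hb' (by
    rw [← h]
    exact Finset.mem_insert_self b K)
  have hK1 : insert b K ⊂ insert b (insert r K) := by
    rw [Finset.insert_comm b r K]
    exact Finset.ssubset_insert hr'
  have hK2 : insert r K ⊂ insert b (insert r K) := Finset.ssubset_insert hb'
  rw [red n v K hv (insert b (insert r K)) {insert b K, insert r K, K} ?_ ?_,
    Finset.sum_insert, Finset.sum_insert, Finset.sum_singleton, one n v K hv, two n v K hv b hb,
    two n v K hv r hr]
  · ring
  · rw [Finset.mem_singleton]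
    exact e2.symm
  · rw [Finset.mem_insert, Finset.mem_singleton]
    rintro (h | h)
    · exact e3 h
    · exact e1 h.symm
  · intro U hU
    rw [Finset.mem_insert, Finset.mem_insert, Finset.mem_singleton] at hU
    rcases hU with h | h | h
    · rw [h]
      exact hK1
    · rw [h]
      exact hK2
    · rw [h]
      exact (Finset.ssubset_insert hr).trans hK2
  · intro U hU hK
    rw [Finset.mem_insert, Finset.mem_insert, Finset.mem_singleton]
    by_cases h1 : b ∈ U
    · left
      have h2 : r ∉ U := by
        intro h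
        exact hU.2 (Finset.insert_subset h1 (Finset.insert_subset h hK))
      refine Finset.Subset.antisymm ?_ (Finset.insert_subset h1 hK)
      have h3 : U ⊆ insert r (insert b K) := by
        rw [Finset.insert_comm r b K]
        exact hU.subset
      exact sub h3 h2
    · right
      have h3 : U ⊆ insert r K := sub hU.subset h1
      by_cases h2 : r ∈ U
      · left
        exact Finset.Subset.antisymm h3 (Finset.insert_subset h2 hK)
      · right
        exact Finset.Subset.antisymm (sub h3 h2) hK

end GRzKAux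

theorem pRzK : S_RzK := by
  intro n v K hv
  exact ⟨GRzKAux.one n v K hv, fun b hb => GRzKAux.two n v K hv b hb,
    fun b r hb hr hbr => GRzKAux.three n v K hv b r hb hr hbr⟩

end Pool.Agent.FO
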