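import Pool.Agent.Lib.MP_640417_ag.GT.SpecR

/-!
# Pairs of primes: the recursion over subsets, vanishing, general form
-/

set_option autoImplicit false

noncomputable section

open Finset Pool.Agent.FC

namespace Pool.Agent.FO

open GRzVAux in
theorem pRzW : S_RzW := by
  intro Γ _ T T0 e n β hT0 hn h2 h3 h4 S hS hev g
  -- the sign rules
  have key : ∀ S : Finset ℕ, S ⊆ T → Sg T e (Rz n β S) S := by
    intro S
    induction S using Finset.strongInduction with
    | H S ih =>
      intro hS
      refine ⟨fun p hp g => ?_, fun p hpT hpS g => ?_⟩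
      · have hS' : S.erase p ⊆ T := (Finset.erase_subset p S).trans hS
        have hsub : ∀ U ∈ S.ssubsets, U ⊂ S := fun U hU => Finset.mem_ssubsets.1 hU
        have e1 : Rz n β S g + Rz n β S (g * e p) = (β S g + β S (g * e p)) -
            ∑ U ∈ S.ssubsets, (kq n S U : ℚ) * (Rz n β U g + Rz n β U (g * e p)) := by
          rw [rz_apply S g, rz_apply S (g * e p)]
          simp only [mul_add, Finset.sum_add_distrib]
          ring
        have e2 : ∑ U ∈ S.ssubsets, (kq n S U : ℚ) * (Rz n β U g + Rz n β U (g * e p)) =
            ∑ U ∈ (S.erase p).powerset, 2 * (kq n S U : ℚ) * Rz n β U g := by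
          have hss : (S.erase p).powerset ⊆ S.ssubsets := by
            intro U hU
            rw [Finset.mem_powerset] at hU
            rw [Finset.mem_ssubsets]
            exact lt_of_le_of_lt hU (Finset.erase_ssubset hp)
          rw [← Finset.sum_subset hss]
          · refine Finset.sum_congr rfl fun U hU => ?_
            have hU' := Finset.mem_powerset.1 hU
            have hpU : p ∉ U := fun h => (Finset.notMem_erase p S) (hU' h)
            have hlt : U ⊂ S := hsub U (hss hU)
            rw [(ih U hlt (hlt.1.trans hS)).2 p (hS hp) hpU]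
            ring
          · intro U hU hU'
            have hlt : U ⊂ S := hsub U hU
            have hpU : p ∈ U := by
              by_contra hpU
              apply hU'
              rw [Finset.mem_powerset]
              intro x hx
              refine Finset.mem_erase.2 ⟨fun hxp => hpU (hxp ▸ hx), hlt.1 hx⟩
            rw [(ih U hlt (hlt.1.trans hS)).1 p hpU]
            ring
        have e3 : β S g + β S (g * e p) =
            ∑ U ∈ (S.erase p).powerset, 2 * (kq n S U : ℚ) * Rz n β U g := by
          rw [h3 S hS p hp g, be_apply (n := n) (β := β) (S.erase p) g,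
            be_apply (n := n) (β := β) (S.erase p) (g * ∏ u ∈ n p, e u), ← Finset.sum_sub_distrib]
          refine Finset.sum_congr rfl fun U hU => ?_
          have hU' := Finset.mem_powerset.1 hU
          have hlt : U ⊂ S := lt_of_le_of_lt hU' (Finset.erase_ssubset hp)
          rw [(ih U hlt (hlt.1.trans hS)).prod (n p) (hn p (hS hp)) g, kq_erase hp hU']
          ring
        rw [e2, e3, sub_self] at e1
        linarith
      · rw [rz_apply S (g * e p), rz_apply S g, h2 S hS p hpT hpS g]
        congr 1
        refine Finset.sum_congr rfl fun U hU => ?_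
        have hlt : U ⊂ S := Finset.mem_ssubsets.1 hU
        rw [(ih U hlt (hlt.1.trans hS)).2 p hpT (fun h => hpS (hlt.1 h)) g]
  -- the element `∏ e`
  have neg : ∀ S : Finset ℕ, S ⊆ T → ∀ g, Rz n β S (g * ∏ p ∈ T0, e p) = -Rz n β S g := by
    intro S
    induction S using Finset.strongInduction with
    | H S ih =>
      intro hS g
      rw [rz_apply S (g * ∏ p ∈ T0, e p), rz_apply S g, h4 S hS g]
      have e1 : ∑ U ∈ S.ssubsets, (kq n S U : ℚ) * Rz n β U (g * ∏ p ∈ T0, e p) =
          -∑ U ∈ S.ssubsets, (kq n S U : ℚ) * Rz n β U g := by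
        rw [← Finset.sum_neg_distrib]
        refine Finset.sum_congr rfl fun U hU => ?_
        have hlt : U ⊂ S := Finset.mem_ssubsets.1 hU
        rw [ih U hlt (hlt.1.trans hS) g]
        ring
      rw [e1]
      ring
  have h5 := (key S hS).prod T0 hT0 g
  rw [neg S hS g, Even.neg_one_pow (even_iff_two_dvd.2 hev), one_mul] at h5
  linarith

end Pool.Agent.FO
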