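import Pool.Agent.Lib.MP_640417_ag.GT.SpecR

/-!
# Pairs of primes: the pair `{p, q}` by the three primes `a, p, q`
-/

set_option autoImplicit false

noncomputable section

open Finset Pool.Agent.FC

namespace Pool.Agent.FO

namespace GThBAux

private lemma InA_mono {A B : AddSubgroup (UnitAddCircle →₀ ℤ)} (hAB : A ≤ B) {m : ℕ} [NeZero m]
    {f : ZMod m → ℤ} (h : InA A f) : InA B f := by
  obtain ⟨g, h0, h1, h2⟩ := h
  exact ⟨g, h0, h1, hAB h2⟩

private lemma three {a p q : ℕ} {T : Finset ℕ} (hT : T ⊆ {a, p, q}) (hne : T.Nonempty)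
    (h2 : 2 ∣ T.card) : T = {a, p} ∨ T = {a, q} ∨ T = {p, q} := by
  have hc : T.card ≤ 3 := (Finset.card_le_card hT).trans Finset.card_le_three
  have hc1 : 0 < T.card := Finset.card_pos.2 hne
  have hc2 : T.card = 2 := by omega
  obtain ⟨x, y, hxy, hT2⟩ := Finset.card_eq_two.1 hc2
  have hx : x ∈ ({a, p, q} : Finset ℕ) := hT (by rw [hT2]; exact Finset.mem_insert_self x {y})
  have hy : y ∈ ({a, p, q} : Finset ℕ) :=
    hT (by rw [hT2]; exact Finset.mem_insert_of_mem (Finset.mem_singleton_self y))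
  rw [Finset.mem_insert, Finset.mem_insert, Finset.mem_singleton] at hx hy
  rw [hT2]
  rcases hx with h | h | h <;> rcases hy with h' | h' | h' <;> rw [h, h'] at hxy ⊢
  · exact absurd rfl hxy
  · exact Or.inl rfl
  · exact Or.inr (Or.inl rfl)
  · exact Or.inl (Finset.pair_comm _ _)
  · exact absurd rfl hxy
  · exact Or.inr (Or.inr rfl)
  · exact Or.inr (Or.inl (Finset.pair_comm _ _))
  · exact Or.inr (Or.inr (Finset.pair_comm _ _))
  · exact absurd rfl hxy

private lemma pf {S : Finset ℕ} (hS : ∀ s ∈ S, s.Prime) {r : ℕ} (hr : r.Prime) (hd : r ∣ dT S) :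
    r ∈ S := by
  unfold dT at hd
  obtain ⟨s, hs, h⟩ := (Prime.dvd_finsetProd_iff hr.prime _).1 hd
  split_ifs at h with h2
  · have h4 : r ∣ 2 ^ 2 := by norm_num; exact h
    have h5 : r = 2 := (Nat.prime_dvd_prime_iff_eq hr Nat.prime_two).1 (hr.dvd_of_dvd_pow h4)
    rw [h5, ← h2]
    exact hs
  · rw [(Nat.prime_dvd_prime_iff_eq hr (hS s hs)).1 h]
    exact hs

private lemma dT_pos {T : Finset ℕ} (h : ∀ p ∈ T, p.Prime) : 0 < dT T := by
  refine Finset.prod_pos fun p hp => ?_
  split_ifs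
  · norm_num
  · exact (h p hp).pos

private lemma dT_pair {p q : ℕ} (hpq : p ≠ q) : dT {p, q} = c4 p * c4 q :=
  Finset.prod_pair hpq

private lemma sum_sub' {m : ℕ} [NeZero m] (f g l : ZMod m → ℤ) :
    ∑ x, (f x - g x) * l x = ∑ x, f x * l x - ∑ x, g x * l x := by
  rw [← Finset.sum_sub_distrib]
  exact Finset.sum_congr rfl fun x _ => sub_mul _ _ _

private lemma Pr_one {p q : ℕ} (hp : p.Prime) (hq : q.Prime) (hpq : p ≠ q) (hq2 : q ≠ 2) :
    Pr [p] q := by
  refine ⟨?_, ?_, hq2, by simp⟩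
  · simp only [List.nodup_cons, List.mem_singleton, List.not_mem_nil, not_false_eq_true,
      List.nodup_nil, and_true]
    exact fun h => hpq h.symm
  · intro r hr
    simp only [List.mem_cons, List.not_mem_nil, or_false] at hr
    rcases hr with rfl | rfl
    · exact hq
    · exact hp

private lemma mem_one {p q r : ℕ} : r ∈ q :: [p] ↔ r ∈ ({p, q} : Finset ℕ) := by
  simp only [List.mem_cons, List.not_mem_nil, or_false, Finset.mem_insert, Finset.mem_singleton]
  exact or_comm

private lemma dt_one {p q : ℕ} (hpq : p ≠ q) (hq2 : q ≠ 2) : dt [p] q = dT {p, q} := by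
  rw [dT_pair hpq]
  unfold dt c4
  rw [if_neg hq2]
  simp only [List.map_cons, List.map_nil, List.prod_cons, List.prod_nil, mul_one]
  exact mul_comm _ _

private lemma pair_dvd {p q m : ℕ} (hp : p.Prime) (hq : q.Prime) (hpq : p ≠ q) (hq2 : q ≠ 2)
    (hE : Ess m {p, q}) : dT {p, q} ∣ m := by
  rw [dT_pair hpq]
  obtain ⟨h1, h2, -, -⟩ := hE
  have hpm : p ∣ m := Nat.dvd_of_mem_primeFactors (h1 (Finset.mem_insert_self _ _))
  have hqm : q ∣ m := Nat.dvd_of_mem_primeFactors
    (h1 (Finset.mem_insert_of_mem (Finset.mem_singleton_self _)))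
  have hcp : (c4 p).Coprime q := by
    unfold c4
    split_ifs with h
    · have h3 : Nat.Coprime (2 ^ 2) q :=
        Nat.Coprime.pow_left 2 ((Nat.coprime_primes Nat.prime_two hq).2 (Ne.symm hq2))
      simpa using h3
    · exact (Nat.coprime_primes hp hq).2 hpq
  have hcq : c4 q = q := by
    unfold c4
    rw [if_neg hq2]
  rw [hcq]
  refine Nat.Coprime.mul_dvd_of_dvd_of_dvd hcp ?_ hqm
  unfold c4
  split_ifs with h
  · exact h2 (by rw [h]; exact Finset.mem_insert_self _ _)
  · exact hpm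

end GThBAux

open GThBAux in
theorem pThB (hRlG : S_RlG) (hTwV : S_TwV) (hPa3 : S_Pa3) (hDaB : S_DaB) (hDaR : S_DaR)
    (hDaI : S_DaI) (hFod : S_Fod) (hGdU : S_GdU) : S_ThB := by
  intro A a p q hA ha hp hq hap ha34 hp34 hq1 hqa hor
  have hq2 : q ≠ 2 := by omega
  have haq : a ≠ q := by omega
  have hpq : p ≠ q := by omega
  have hHA : HD ≤ A := le_trans (le_sup_left : HD ≤ GS) hA
  -- the set of the three primes and its level
  obtain ⟨P, hP⟩ : ∃ P : Finset ℕ, P = {a, p, q} := ⟨_, rfl⟩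
  have hPp : ∀ r ∈ P, r.Prime := by
    intro r hr
    rw [hP] at hr
    simp only [Finset.mem_insert, Finset.mem_singleton] at hr
    rcases hr with rfl | rfl | rfl
    · exact ha
    · exact hp
    · exact hq
  obtain ⟨M, hM⟩ : ∃ M : ℕ, M = dT P := ⟨_, rfl⟩
  have : NeZero M := ⟨by rw [hM]; exact (dT_pos hPp).ne'⟩
  have hPM : dT P ∣ M := by rw [hM]
  have hsub : ({p, q} : Finset ℕ) ⊆ P := by
    rw [hP]
    exact Finset.subset_insert _ _
  have hdM : dT {p, q} ∣ M := by
    rw [hM]
    exact Finset.prod_dvd_prod_of_subset _ _ _ hsub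
  have hdM' : c4 p * c4 q ∣ M := by
    rw [← dT_pair hpq]
    exact hdM
  have hcard : 2 ∣ (S34 P).card := by
    have h1 : S34 P = {a, p} := by
      unfold S34
      rw [hP]
      ext r
      simp only [Finset.mem_filter, Finset.mem_insert, Finset.mem_singleton]
      constructor
      · rintro ⟨h | h | h, h'⟩
        · exact Or.inl h
        · exact Or.inr h
        · exfalso
          omega
      · rintro (h | h)
        · exact ⟨Or.inl h, by rw [h]; exact ha34⟩
        · exact ⟨Or.inr (Or.inl h), by rw [h]; exact hp34⟩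
    rw [h1, Finset.card_pair hap]
  -- the two functions
  obtain ⟨t1, t2, t3, -⟩ := hRlG M P hPp hPM hcard
  obtain ⟨d1, d2, d3⟩ := hDaB M p q hp hq hpq hdM'
  have d4 := hDaR M p q hp hq hpq hdM'
  obtain ⟨Th, hTh⟩ : ∃ Th : ZMod M → ℤ, Th = Rz (nr P) (Aq M) P := ⟨_, rfl⟩
  rw [← hTh] at t1 t2 t3
  obtain ⟨F, hF⟩ : ∃ F : ZMod M → ℤ, F = das M p q := ⟨_, rfl⟩
  have hTw : ∀ (l : List ℕ) (q : ℕ), Pr l q →
      ∑ x, Th x * lam l q x = ((q : ℤ) - 1) * Rz (nr P) (vv l q) P := by
    intro l q hl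
    rw [hTh]
    exact hTwV M P (nr P) l q hPp hPM hl
  rw [← hF] at d1 d2 d3 d4
  have hf1 : IsOdd fun x => F x - Th x := by
    intro x
    show F (-x) - Th (-x) = -(F x - Th x)
    rw [d1 x, t2 x]
    ring
  have hf2 : Rl fun x => F x - Th x := by
    intro t
    rw [GStKAux.P_sub, d4 t, t3 t, sub_zero]
  have hq1' : ((q : ℤ) - 1) ≠ 0 := by
    have := hq.one_lt
    omega
  -- the group
  have hgd : GdA M A fun T => T34 T ∨ (T = {a, q} ∧ Pd A a q) :=
    hGdU A (fun T => T = {a, q} ∧ Pd A a q) hA (fun T hT => ⟨a, q, haq, hT.1, hT.2⟩) M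
  have hchk : Chk (fun T => T34 T ∨ (T = {a, q} ∧ Pd A a q)) fun x => F x - Th x := by
    intro T hE hT
    have hTP : T ⊆ {a, p, q} := by
      intro r hr
      have h1 := hE.1 hr
      rw [← hP]
      refine pf hPp (Nat.prime_of_mem_primeFactors h1) ?_
      rw [← hM]
      exact Nat.dvd_of_mem_primeFactors h1
    rcases three hTP hE.2.2.1 hE.2.2.2 with h | h | h
    · exfalso
      refine hT (Or.inl ?_)
      rw [h]
      intro r hr
      simp only [Finset.mem_insert, Finset.mem_singleton] at hr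
      rcases hr with rfl | rfl
      · exact ⟨ha, ha34⟩
      · exact ⟨hp, hp34⟩
    · have hqp : sm q p := by
        refine hor.resolve_right fun h1 => hT (Or.inr ⟨h, h1⟩)
      have hl : Pr [a] q := Pr_one ha hq haq hq2
      refine ⟨q, [a], 1, hl, fun r => by rw [h]; exact mem_one, ?_⟩
      intro z hz
      simp only [Units.val_one, one_mul] at hz
      rw [sum_sub', hTw [a] q hl] at hz
      have h0 : ∑ x, F x * lam [a] q x = 0 := by
        refine Finset.sum_eq_zero fun x _ => ?_
        by_contra hne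
        have h1 := d2 x (left_ne_zero_of_mul hne)
        have h2 := (gLamB [a] q M hl).2.2.2.2 x (right_ne_zero_of_mul hne)
        rw [dt_one haq hq2, dT_pair haq] at h2
        have h3 : a ∣ c4 a := by
          unfold c4
          split_ifs with h4
          · rw [h4]
            norm_num
          · exact dvd_rfl
        have h5 : a ∣ dT {p, q} := ((h3.mul_right _).trans h2).trans h1
        have h6 := pf (S := {p, q}) (fun s hs => hPp s (hsub hs)) ha h5
        simp only [Finset.mem_insert, Finset.mem_singleton] at h6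
        rcases h6 with h6 | h6
        · exact hap h6
        · exact haq h6
      rw [h0, zero_sub, ← mul_neg] at hz
      have h1 := mul_left_cancel₀ hq1' hz
      rw [← h1, dvd_neg, hP]
      exact (hPa3 a p q ha hp hq hap ha34 hp34 hq1).2 hqp
    · have hl : Pr [p] q := Pr_one hp hq hpq hq2
      refine ⟨q, [p], 1, hl, fun r => by rw [h]; exact mem_one, ?_⟩
      intro z hz
      simp only [Units.val_one, one_mul] at hz
      rw [sum_sub', hTw [p] q hl] at hz
      have hdt := dt_one hpq hq2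
      have : NeZero (dt [p] q) := ⟨by
        rw [hdt]
        exact (dT_pos fun s hs => hPp s (hsub hs)).ne'⟩
      obtain ⟨z1, hz1, hz2⟩ := hFod M [p] q (dt [p] q) hl rfl (by rw [hdt]; exact hdM) F d1 d4
        (fun x hx => by rw [hdt]; exact d2 x hx) (d3 (dt [p] q) hdt)
      rw [hz2, ← mul_sub] at hz
      have h1 := mul_left_cancel₀ hq1' hz
      have h2 := (hPa3 p a q hp ha hq hap.symm hp34 ha34 hq1).not.2 hqa
      have h3 : ({p, a, q} : Finset ℕ) = P := by
        rw [hP]
        exact Finset.insert_comm p a {q}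
      rw [h3] at h2
      omega
  have hinf := gGT M A _ hgd _ hf1 hf2 hchk
  have hinF : InA A F := by
    have h1 := (gInA M A hHA (fun x => F x - Th x) Th).2.1 hinf (InA_mono hA t1)
    have h2 : (fun x => F x - Th x + Th x) = F := by
      funext x
      ring
    rwa [h2] at h1
  intro m _ hE
  have hdm : dT {p, q} ∣ m := pair_dvd hp hq hpq hq2 hE
  have hdm' : c4 p * c4 q ∣ m := by
    rw [← dT_pair hpq]
    exact hdm
  obtain ⟨e1, e2, e3⟩ := hDaB m p q hp hq hpq hdm'
  refine ⟨das m p q, hDaI M m p q A hp hq hpq hdM' hdm' hHA ?_, e1,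
    hDaR m p q hp hq hpq hdm', e2, e3⟩
  rw [← hF]
  exact hinF

end Pool.Agent.FO
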