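import Pool.Agent.Lib.MP_640417_ag.GT.SpecR

/-!
# Pairs by four primes
-/

set_option autoImplicit false

noncomputable section

namespace Pool.Agent.FO

open Finset Pool.Agent.FC

namespace GThCAux

open GCbQAux

theorem P_sub {m : ℕ} [NeZero m] (f g : ZMod m → ℤ) (t : ZMod m) :
    P (fun x => f x - g x) t = P f t - P g t := by
  unfold P
  rw [← Finset.sum_sub_distrib]
  refine Finset.sum_congr rfl fun x _ => ?_
  push_cast
  ring

theorem dvd_dt {l : List ℕ} {q p : ℕ} (hp : p ∈ q :: l) : p ∣ dt l q := by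
  unfold dt
  rcases List.mem_cons.1 hp with rfl | h
  · exact dvd_mul_right _ _
  · refine Dvd.dvd.mul_left ?_ q
    exact (pdvd_c4 p).trans (List.dvd_prod (List.mem_map.2 ⟨p, h, rfl⟩))

/-- the sum is `0` if a prime of the functional is not in the set of the levels -/
theorem lam_zero {m : ℕ} [NeZero m] {S : Finset ℕ} {l : List ℕ} {q p : ℕ} (hP : Pr l q)
    (hp : p ∈ q :: l) (hS : ∀ p ∈ S, p.Prime) (hpS : p ∉ S) (F : ZMod m → ℤ)
    (hF : ∀ x, F x ≠ 0 → addOrderOf x ∣ dT S) : ∑ x, F x * lam l q x = ((q : ℤ) - 1) * 0 := by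
  rw [mul_zero]
  refine Finset.sum_eq_zero fun x _ => ?_
  by_contra hne
  have h1 := hF x (left_ne_zero_of_mul hne)
  have h2 := (gLamB l q m hP).2.2.2.2 x (right_ne_zero_of_mul hne)
  have h4 : p ∈ (dT S).primeFactors :=
    Nat.mem_primeFactors.2 ⟨hP.2.1 p hp, (dvd_dt hp).trans (h2.trans h1), (dT_pos hS).ne'⟩
  rw [pf hS] at h4
  exact hpS h4

theorem fnl {m : ℕ} [NeZero m] {l : List ℕ} {q : ℕ} (hP : Pr l q) (F G : ZMod m → ℤ) (z1 z2 : ℤ)
    (h1 : ∑ x, F x * lam l q x = ((q : ℤ) - 1) * z1)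
    (h2 : ∑ x, G x * lam l q x = ((q : ℤ) - 1) * z2) (h3 : (2 : ℤ) ∣ z1 - z2)
    (z : ℤ) (hz : ∑ x, (F x - G x) * lam l q (((1 : (ZMod m)ˣ) : ZMod m) * x) = ((q : ℤ) - 1) * z) :
    (2 : ℤ) ∣ z := by
  have hq : (q : ℤ) - 1 ≠ 0 := by
    have := (hP.2.1 q List.mem_cons_self).two_le
    omega
  have h4 : ∑ x, (F x - G x) * lam l q (((1 : (ZMod m)ˣ) : ZMod m) * x) =
      ((q : ℤ) - 1) * (z1 - z2) := by
    rw [mul_sub, ← h1, ← h2, ← Finset.sum_sub_distrib]
    refine Finset.sum_congr rfl fun x _ => ?_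
    rw [Units.val_one, one_mul]
    ring
  rw [h4] at hz
  rwa [← mul_left_cancel₀ hq hz]

/-- the nonempty subsets with an even number of elements -/
theorem cls4 {a b q r : ℕ} (T : Finset ℕ) (hT : T ⊆ {a, b, q, r}) (hne : T.Nonempty)
    (hcard : 2 ∣ T.card) :
    T = {a, b} ∨ T = {a, q} ∨ T = {a, r} ∨ T = {b, q} ∨ T = {b, r} ∨ T = {q, r} ∨
      T = {a, b, q, r} := by
  have h4 : ({a, b, q, r} : Finset ℕ).card ≤ 4 := Finset.card_le_four
  have h5 := Finset.card_le_card hT
  have h6 : 0 < T.card := hne.card_pos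
  have h7 : T.card = 2 ∨ T.card = 4 := by omega
  rcases h7 with h7 | h7
  · obtain ⟨x, y, hxy, rfl⟩ := Finset.card_eq_two.1 h7
    have hx : x ∈ ({a, b, q, r} : Finset ℕ) := hT (by simp)
    have hy : y ∈ ({a, b, q, r} : Finset ℕ) := hT (by simp)
    simp only [mem_insert, mem_singleton] at hx hy
    rcases hx with rfl | rfl | rfl | rfl <;> rcases hy with rfl | rfl | rfl | rfl <;>
      first
      | exact (hxy rfl).elim
      | exact Or.inl rfl
      | exact Or.inl (Finset.pair_comm _ _)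
      | exact Or.inr (Or.inl rfl)
      | exact Or.inr (Or.inl (Finset.pair_comm _ _))
      | exact Or.inr (Or.inr (Or.inl rfl))
      | exact Or.inr (Or.inr (Or.inl (Finset.pair_comm _ _)))
      | exact Or.inr (Or.inr (Or.inr (Or.inl rfl)))
      | exact Or.inr (Or.inr (Or.inr (Or.inl (Finset.pair_comm _ _))))
      | exact Or.inr (Or.inr (Or.inr (Or.inr (Or.inl rfl))))
      | exact Or.inr (Or.inr (Or.inr (Or.inr (Or.inl (Finset.pair_comm _ _)))))
      | exact Or.inr (Or.inr (Or.inr (Or.inr (Or.inr (Or.inl rfl)))))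
      | exact Or.inr (Or.inr (Or.inr (Or.inr (Or.inr (Or.inl (Finset.pair_comm _ _))))))
  · have h8 : T = {a, b, q, r} := Finset.eq_of_subset_of_card_le hT (by omega)
    exact Or.inr (Or.inr (Or.inr (Or.inr (Or.inr (Or.inr h8)))))

theorem c4_odd {q : ℕ} (h : q % 4 = 1) : c4 q = q := by
  unfold c4
  rw [if_neg]
  rintro rfl
  omega

theorem pr1 {a q : ℕ} (ha : a.Prime) (hq : q.Prime) (h : q ≠ a) (h2 : q ≠ 2) : Pr [a] q := by
  refine ⟨?_, ?_, h2, by simp⟩
  · simpa using h
  · intro p hp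
    rcases List.mem_cons.1 hp with rfl | hp
    · exact hq
    · rw [List.mem_singleton.1 hp]
      exact ha

theorem mem1 {a q : ℕ} (p : ℕ) : p ∈ q :: [a] ↔ p ∈ ({a, q} : Finset ℕ) := by
  rw [List.mem_cons, List.mem_singleton, mem_insert, mem_singleton]
  exact or_comm

end GThCAux

open GThCAux GCbQAux

theorem pThC (hRlG : S_RlG) (hTwV : S_TwV) (hPa4 : S_Pa4) (hPa5 : S_Pa5) (hDaB : S_DaB)
    (hDaR : S_DaR) (hDaI : S_DaI) (hFod : S_Fod) (hGdU : S_GdU) : S_ThC := by
  intro A a b q r hA ha hb hq hr hqr ha4 hb4 hq4 hr4 hqa hra hqb hrb hPbq hPar hor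
  classical
  have hab : a ≠ b := by
    rintro rfl
    exact hqa hqb
  have haq : a ≠ q := by
    rintro rfl
    omega
  have har : a ≠ r := by
    rintro rfl
    omega
  have hbq : b ≠ q := by
    rintro rfl
    omega
  have hbr : b ≠ r := by
    rintro rfl
    omega
  have hq2 : q ≠ 2 := by
    rintro rfl
    omega
  have hr2 : r ≠ 2 := by
    rintro rfl
    omega
  have hHD : HD ≤ A := (le_sup_left : HD ≤ GS).trans hA
  obtain ⟨P', hP⟩ : ∃ P' : Finset ℕ, P' = {a, b, q, r} := ⟨_, rfl⟩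
  have hpr : ∀ p ∈ P', p.Prime := by
    rw [hP]
    simp only [mem_insert, mem_singleton]
    rintro p (rfl | rfl | rfl | rfl) <;> assumption
  obtain ⟨M, hM⟩ : ∃ M : ℕ, M = dT P' := ⟨_, rfl⟩
  haveI : NeZero M := ⟨by rw [hM]; exact (dT_pos hpr).ne'⟩
  have hMP : dT P' ∣ M := hM ▸ dvd_rfl
  have hMp : M.primeFactors = P' := by
    rw [hM]
    exact pf hpr
  have hS34 : S34 P' = {a, b} := by
    ext p
    rw [S34, Finset.mem_filter, hP]
    simp only [mem_insert, mem_singleton]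
    constructor
    · rintro ⟨rfl | rfl | rfl | rfl, h⟩
      · exact Or.inl rfl
      · exact Or.inr rfl
      · omega
      · omega
    · rintro (rfl | rfl)
      · exact ⟨Or.inl rfl, ha4⟩
      · exact ⟨Or.inr (Or.inl rfl), hb4⟩
  have h2 : 2 ∣ (S34 P').card := by rw [hS34, Finset.card_pair hab]
  obtain ⟨hTA, hTo, hTR, hTs⟩ := hRlG M P' hpr hMP h2
  have hsub : ({q, r} : Finset ℕ) ⊆ P' := by
    rw [hP]
    intro x
    simp only [mem_insert, mem_singleton]
    tauto
  have hdqr : dT {q, r} = c4 q * c4 r := by rw [dT_eq_prod, Finset.prod_pair hqr]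
  have hqrd : dT {q, r} ∣ M :=
    (Finset.prod_dvd_prod_of_subset _ _ (fun p => if p = 2 then 4 else p) hsub).trans hMP
  have hqrM : c4 q * c4 r ∣ M := hdqr ▸ hqrd
  have hqrp : ∀ p ∈ ({q, r} : Finset ℕ), p.Prime := fun p hp => hpr p (hsub hp)
  obtain ⟨hFo, hFs, hFO⟩ := hDaB M q r hq hr hqr hqrM
  have hFR := hDaR M q r hq hr hqr hqrM
  -- the sets
  obtain ⟨Q, hQd⟩ : ∃ Q : Finset ℕ → Prop, Q = fun T => T = {b, q} ∨ T = {a, r} ∨
    (T = {a, q} ∧ Pd A a q) ∨ (T = {b, r} ∧ Pd A b r) := ⟨_, rfl⟩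
  have hQ : ∀ T, Q T → ∃ p q : ℕ, p ≠ q ∧ T = {p, q} ∧ Pd A p q := by
    intro T hT
    rw [hQd] at hT
    rcases hT with h | h | ⟨h, h'⟩ | ⟨h, h'⟩
    · exact ⟨b, q, hbq, h, hPbq⟩
    · exact ⟨a, r, har, h, hPar⟩
    · exact ⟨a, q, haq, h, h'⟩
    · exact ⟨b, r, hbr, h, h'⟩
  have hgd : GdA M A fun T => T34 T ∨ Q T := hGdU A Q hA hQ M
  -- the functionals
  have hChk : Chk (fun T => T34 T ∨ Q T)
      fun x : ZMod M => das M q r x - Rz (nr P') (Aq M) P' x := by
    intro T hE hAl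
    have hTP : T ⊆ {a, b, q, r} := by
      rw [← hP, ← hMp]
      exact hE.1
    have hPa4' := hPa4 a b q r ha hb hq hr hab hqr ha4 hb4 hq4 hr4 hqa hra hqb hrb
    rw [← hP] at hPa4'
    rcases cls4 T hTP hE.2.2.1 hE.2.2.2 with h | h | h | h | h | h | h
    · refine (hAl (Or.inl ?_)).elim
      rw [h]
      intro p hp
      simp only [mem_insert, mem_singleton] at hp
      rcases hp with rfl | rfl
      · exact ⟨ha, ha4⟩
      · exact ⟨hb, hb4⟩
    · -- `{a, q}`
      have hs : sm q r ∧ sm r q := by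
        rcases hor with h' | h'
        · exact h'
        · refine (hAl (Or.inr ?_)).elim
          rw [hQd]
          exact Or.inr (Or.inr (Or.inl ⟨h, h'.1⟩))
      have hPr := pr1 ha hq haq.symm hq2
      refine ⟨q, [a], 1, hPr, fun p => by rw [h]; exact mem1 p, ?_⟩
      have e1 := lam_zero (m := M) hPr (p := a) (by simp) hqrp
        (by simp only [mem_insert, mem_singleton, not_or]; exact ⟨haq, har⟩) (das M q r) hFs
      have e2 := hTwV M P' (nr P') [a] q hpr hMP hPr
      have e3 := hPa5 a b q r ha hb hq hr hab hqr ha4 hb4 hq4 hr4 hqa hra hqb hrb hs.1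
      rw [← hP] at e3
      rw [e3] at e2
      exact fnl hPr _ _ 0 0 e1 e2 (by norm_num)
    · refine (hAl (Or.inr ?_)).elim
      rw [hQd]
      exact Or.inr (Or.inl h)
    · refine (hAl (Or.inr ?_)).elim
      rw [hQd]
      exact Or.inl h
    · -- `{b, r}`
      have hs : sm q r ∧ sm r q := by
        rcases hor with h' | h'
        · exact h'
        · refine (hAl (Or.inr ?_)).elim
          rw [hQd]
          exact Or.inr (Or.inr (Or.inr ⟨h, h'.2⟩))
      have hPr := pr1 hb hr hbr.symm hr2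
      refine ⟨r, [b], 1, hPr, fun p => by rw [h]; exact mem1 p, ?_⟩
      have e1 := lam_zero (m := M) hPr (p := b) (by simp) hqrp
        (by simp only [mem_insert, mem_singleton, not_or]; exact ⟨hbq, hbr⟩) (das M q r) hFs
      have e2 := hTwV M P' (nr P') [b] r hpr hMP hPr
      have e3 := hPa5 b a r q hb ha hr hq hab.symm hqr.symm hb4 ha4 hr4 hq4 hrb hqb hra hqa hs.2
      have e4 : ({b, a, r, q} : Finset ℕ) = P' := by
        rw [hP]
        ext x
        simp only [mem_insert, mem_singleton]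
        tauto
      rw [e4] at e3
      rw [e3] at e2
      exact fnl hPr _ _ 0 0 e1 e2 (by norm_num)
    · -- `{q, r}`
      have hPr := pr1 hq hr hqr.symm hr2
      refine ⟨r, [q], 1, hPr, fun p => by rw [h]; exact mem1 p, ?_⟩
      haveI : NeZero (dT {q, r}) := ⟨(dT_pos hqrp).ne'⟩
      have hdt : dT {q, r} = dt [q] r := by
        rw [hdqr, c4_odd hr4]
        unfold dt
        rw [List.map_cons, List.map_nil, List.prod_cons, List.prod_nil, mul_one, mul_comm]
        rfl
      obtain ⟨z1, hz1, e1⟩ := hFod M [q] r (dT {q, r}) hPr hdt hqrd (das M q r) hFo hFR hFs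
        (hFO (dT {q, r}) rfl)
      have e2 := hTwV M P' (nr P') [q] r hpr hMP hPr
      exact fnl hPr _ _ z1 _ e1 e2 (by have := hPa4'.1; omega)
    · -- `P`
      have hPr : Pr [a, b, q] r := by
        refine ⟨?_, ?_, hr2, by simp⟩
        · simp only [List.nodup_cons, List.mem_cons, List.not_mem_nil, or_false, not_or,
            List.nodup_nil, not_false_eq_true, and_true]
          exact ⟨⟨har.symm, hbr.symm, hqr.symm⟩, ⟨hab, haq⟩, hbq⟩
        · intro p hp
          simp only [List.mem_cons, List.not_mem_nil, or_false] at hp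
          rcases hp with rfl | rfl | rfl | rfl <;> assumption
      refine ⟨r, [a, b, q], 1, hPr, fun p => ?_, ?_⟩
      · rw [h]
        simp only [List.mem_cons, List.not_mem_nil, or_false, mem_insert, mem_singleton]
        tauto
      have e1 := lam_zero (m := M) hPr (p := a) (by simp) hqrp
        (by simp only [mem_insert, mem_singleton, not_or]; exact ⟨haq, har⟩) (das M q r) hFs
      have e2 := hTwV M P' (nr P') [a, b, q] r hpr hMP hPr
      rw [hPa4'.2] at e2
      exact fnl hPr _ _ 0 0 e1 e2 (by norm_num)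
  have hodd : IsOdd fun x : ZMod M => das M q r x - Rz (nr P') (Aq M) P' x := by
    intro x
    have h1 := hFo x
    have h3 := hTo x
    simp only [h1, h3]
    ring
  have hRl : Rl fun x : ZMod M => das M q r x - Rz (nr P') (Aq M) P' x := by
    intro t
    rw [GThCAux.P_sub, hFR t, hTR t, sub_zero]
  have hf := gGT M A (fun T => T34 T ∨ Q T) hgd _ hodd hRl hChk
  have hTA' : InA A (Rz (nr P') (Aq M) P') := by
    obtain ⟨g, g0, g1, g2⟩ := hTA
    exact ⟨g, g0, g1, hA g2⟩
  have hF := (gInA M A hHD _ _).2.1 hf hTA'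
  have hF' : InA A (das M q r) := by
    have e : (fun x : ZMod M => das M q r x - Rz (nr P') (Aq M) P' x + Rz (nr P') (Aq M) P' x) =
        das M q r := by
      funext x
      ring
    rw [e] at hF
    exact hF
  intro m _ hE
  have hqm : q ∣ m := Nat.dvd_of_mem_primeFactors (hE.1 (by simp))
  have hrm : r ∣ m := Nat.dvd_of_mem_primeFactors (hE.1 (by simp))
  have hqrm : c4 q * c4 r ∣ m := by
    rw [c4_odd hq4, c4_odd hr4]
    exact Nat.Coprime.mul_dvd_of_dvd_of_dvd ((Nat.coprime_primes hq hr).2 hqr) hqm hrm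
  obtain ⟨g1, g2, g3⟩ := hDaB m q r hq hr hqr hqrm
  exact ⟨das m q r, hDaI M m q r A hq hr hqr hqrM hqrm hHD hF', g1, hDaR m q r hq hr hqr hqrm,
    g2, g3⟩

end Pool.Agent.FO
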