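import Pool.Agent.Lib.MP_640417_ag.GT.SpecR

/-!
# Pairs of primes `{p, q}` with `q = 1` modulo `4`, module TwV: functionals of `Θ`
-/

set_option autoImplicit false

noncomputable section

open Finset Pool.Agent.FC

namespace Pool.Agent.FO

namespace GTwVAux

/-- the functional `g ↦ ∑ g(x) lam l q x` -/
def fL (m : ℕ) [NeZero m] (l : List ℕ) (q : ℕ) : (ZMod m → ℤ) →+ ℤ where
  toFun := fun g => ∑ x, g x * lam l q x
  map_zero' := by simp
  map_add' := by
    intro f g
    rw [← Finset.sum_add_distrib]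
    refine Finset.sum_congr rfl fun x _ => ?_
    rw [Pi.add_apply]
    ring

/-- `Rz n β S` only depends on the `β U`, `U ⊆ T`, if `S ⊆ T`. -/
theorem rz_congr (n : ℕ → Finset ℕ) (β γ : Finset ℕ → ℤ) (T : Finset ℕ) (h : ∀ U ⊆ T, β U = γ U) :
    ∀ S, S ⊆ T → Rz n β S = Rz n γ S := by
  intro S
  induction S using Finset.strongInduction with
  | H S ih =>
    intro hS
    rw [Rz_eq, Rz_eq, h S hS]
    congr 1
    refine Finset.sum_congr rfl fun U hU => ?_
    have hU' := Finset.mem_ssubsets.1 hU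
    rw [ih U hU' (hU'.subset.trans hS)]

end GTwVAux

/-- **TwV.** -/
theorem pTwV (hLmA : S_LmA) : S_TwV := by
  classical
  intro m _ T n l q hT hd hPr
  have h1 := gRzB.1 (ZMod m → ℤ) ℤ (GTwVAux.fL m l q) n (Aq m) T
  have h2 : ∑ x, Rz n (Aq m) T x * lam l q x = GTwVAux.fL m l q (Rz n (Aq m) T) := rfl
  have h3 := gRzB.1 ℤ ℤ (AddMonoidHom.mulLeft ((q : ℤ) - 1)) n (vv l q) T
  have h4 : ((q : ℤ) - 1) * Rz n (vv l q) T = (AddMonoidHom.mulLeft ((q : ℤ) - 1)) (Rz n (vv l q) T) := rfl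
  rw [h2, h1, h4, h3]
  refine GTwVAux.rz_congr n _ _ T (fun U hU => ?_) T (Finset.Subset.refl T)
  have h5 : dT U ∣ dT T := by
    unfold dT
    exact Finset.prod_dvd_prod_of_subset _ _ _ hU
  exact hLmA m U l q (fun p hp => hT p (hU hp)) (h5.trans hd) hPr

end Pool.Agent.FO
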