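import Pool.Agent.Lib.MP_640417_ag.GT.SpecR

/-!
# Pairs of primes: the union of `X_S` and `e_p X_S`
-/

set_option autoImplicit false

noncomputable section

open Finset Pool.Agent.FC

namespace Pool.Agent.FO

namespace GXgEAux

theorem c4_dvd {S : Finset ℕ} {u : ℕ} (hu : u ∈ S) : ((c4 u : ℕ) : ℤ) ∣ ((dT S : ℕ) : ℤ) := by
  have h : c4 u ∣ dT S := Finset.dvd_prod_of_mem (fun p => if p = 2 then 4 else p) hu
  exact_mod_cast h

theorem dvd_c4 (u : ℕ) : (u : ℤ) ∣ ((c4 u : ℕ) : ℤ) := by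
  have h : u ∣ c4 u := by
    unfold c4
    split_ifs with h
    · rw [h]
      norm_num
    · exact dvd_rfl
  exact_mod_cast h

theorem cop_u {S : Finset ℕ} {u : ℕ} (hu : u ∈ S) {w : ℤ} (hw : IsCoprime w ((dT S : ℕ) : ℤ)) :
    IsCoprime w (u : ℤ) := hw.of_isCoprime_of_dvd_right ((dvd_c4 u).trans (c4_dvd hu))

theorem dT_mono {S T : Finset ℕ} (h : S ⊆ T) : dT S ∣ dT T :=
  Finset.prod_dvd_prod_of_subset S T (fun p => if p = 2 then 4 else p) h

theorem c4_mul {m : ℕ} [NeZero m] {S : Finset ℕ} {p : ℕ} (hSm : dT S ∣ m)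
    (hdd : dT (S.erase p) * c4 p = dT S) : c4 p * (m / dT S) = m / dT (S.erase p) := by
  obtain ⟨k, hk⟩ := hSm
  have h1 : 0 < dT S := Nat.pos_of_ne_zero fun h0 => NeZero.ne m (by rw [hk, h0, zero_mul])
  have h2 : 0 < dT (S.erase p) := Nat.pos_of_ne_zero fun h0 => by
    rw [h0, zero_mul] at hdd
    omega
  rw [hk, Nat.mul_div_cancel_left _ h1, ← hdd, mul_assoc, Nat.mul_div_cancel_left _ h2]

end GXgEAux

open GXgEAux in
theorem pXgE (hSmg : S_Smg) (hEuH : S_EuH) : S_XgE := by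
  intro m _ T e hT hTm hE S hST p hp F
  have hSp : ∀ q ∈ S, q.Prime := fun q hq => hT q (hST hq)
  have hSm : dT S ∣ m := (dT_mono hST).trans hTm
  have hS'S : S.erase p ⊆ S := Finset.erase_subset p S
  have hS'p : ∀ q ∈ S.erase p, q.Prime := fun q hq => hSp q (hS'S hq)
  have hS'm : dT (S.erase p) ∣ m := (dT_mono hS'S).trans hSm
  obtain ⟨s1, s2, s3, s4, s5, s6⟩ := gSqX m S hSp hSm
  obtain ⟨-, -, -, -, s5', -⟩ := gSqX m (S.erase p) hS'p hS'm
  obtain ⟨a1, -⟩ := hEuH m T e hT hTm hE S hST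
  obtain ⟨E, hE0, hE1, hE2, hE3⟩ := a1 {p} (Finset.singleton_subset_iff.2 (hST hp))
  rw [Finset.prod_singleton] at hE3
  have hEp : ¬ sm p E := hE1 p (by simp [hp])
  have hEu : ∀ u ∈ S.erase p, ((c4 u : ℕ) : ℤ) ∣ E - 1 := fun u hu => hE2 u (by
    rw [Finset.mem_sdiff, Finset.mem_singleton]
    exact ⟨Finset.mem_of_mem_erase hu, Finset.ne_of_mem_erase hu⟩)
  have hdd := (s1 p hp).1
  have hmul : ∀ w : ℤ, ((c4 p : ℕ) : ZMod m) * (((m / dT S : ℕ) : ZMod m) * ((w : ℤ) : ZMod m)) =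
      ((m / dT (S.erase p) : ℕ) : ZMod m) * ((w : ℤ) : ZMod m) := by
    intro w
    rw [← mul_assoc, ← Nat.cast_mul, c4_mul hSm hdd]
  have cop' : ∀ w : ℤ, IsCoprime w ((dT S : ℕ) : ℤ) → IsCoprime w ((dT (S.erase p) : ℕ) : ℤ) :=
    fun w hw => hw.of_isCoprime_of_dvd_right (by exact_mod_cast dT_mono hS'S)
  have mX : ∀ w : ℤ, IsCoprime w ((dT S : ℕ) : ℤ) →
      (((m / dT S : ℕ) : ZMod m) * ((w : ℤ) : ZMod m) ∈ Xs m S ↔ ∀ u ∈ S, sm u w) := by
    intro w hw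
    unfold Xs
    rw [Finset.mem_filter]
    exact ⟨fun h => (s5 w hw).1 h.2, fun h => ⟨Finset.mem_univ _, (s5 w hw).2 h⟩⟩
  have mX' : ∀ w : ℤ, IsCoprime w ((dT S : ℕ) : ℤ) →
      (((m / dT (S.erase p) : ℕ) : ZMod m) * ((w : ℤ) : ZMod m) ∈ Xs m (S.erase p) ↔
        ∀ u ∈ S.erase p, sm u w) := by
    intro w hw
    unfold Xs
    rw [Finset.mem_filter]
    exact ⟨fun h => (s5' w (cop' w hw)).1 h.2, fun h => ⟨Finset.mem_univ _, (s5' w (cop' w hw)).2 h⟩⟩
  have hord : ∀ x ∈ Xs m S, addOrderOf x = dT S := by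
    intro x hx
    unfold Xs at hx
    exact s6 x (Finset.mem_filter.1 hx).2
  -- `sm` and `E`
  have smE : ∀ w : ℤ, ∀ u ∈ S.erase p, (sm u (E * w) ↔ sm u w) := by
    intro w u hu
    obtain ⟨-, h3, -⟩ := hSmg u (hS'p u hu)
    refine h3 _ _ ?_
    have e1 : E * w - w = (E - 1) * w := by ring
    rw [e1]
    exact (hEu u hu).mul_right w
  have smP : ∀ w : ℤ, IsCoprime w ((dT S : ℕ) : ℤ) → (sm p (E * w) ↔ ¬ sm p w) := by
    intro w hw
    obtain ⟨h1, -⟩ := hSmg p (hSp p hp)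
    rw [h1 E w (cop_u hp hE0) (cop_u hp hw)]
    exact ⟨fun h h' => hEp (h.2 h'), fun h => ⟨fun h' => absurd h' hEp, fun h' => absurd h' h⟩⟩
  rw [← Finset.sum_filter_add_sum_filter_not (univ.filter (fun x : ZMod m =>
    ((c4 p : ℕ) : ZMod m) * x ∈ Xs m (S.erase p) ∧ addOrderOf x = dT S)) (fun x => x ∈ Xs m S)]
  congr 1
  · refine Finset.sum_congr ?_ fun _ _ => rfl
    ext x
    rw [Finset.mem_filter, Finset.mem_filter]
    constructor
    · intro hx
      have ho := hord x hx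
      obtain ⟨w, hw, rfl⟩ := s4 x ho
      refine ⟨⟨Finset.mem_univ _, ?_, ho⟩, hx⟩
      rw [hmul, mX' w hw]
      exact fun u hu => (mX w hw).1 hx u (hS'S hu)
    · exact fun h => h.2
  · refine Finset.sum_bij (fun x _ => (e p : ZMod m) * x) ?_ ?_ ?_ fun _ _ => rfl
    · intro x hx
      have ho := hord x hx
      obtain ⟨w, hw, rfl⟩ := s4 x ho
      have hcE : IsCoprime (E * w) ((dT S : ℕ) : ℤ) := hE0.mul_left hw
      have hsm := (mX w hw).1 hx
      rw [Finset.mem_filter, Finset.mem_filter]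
      rw [hE3 w]
      refine ⟨⟨Finset.mem_univ _, ?_, s3 _ hcE⟩, ?_⟩
      · rw [hmul, mX' _ hcE]
        exact fun u hu => (smE w u hu).2 (hsm u (hS'S hu))
      · rw [mX _ hcE]
        intro h
        exact (smP w hw).1 (h p hp) (hsm p hp)
    · intro x _ x' _ h
      exact (Units.mul_right_inj (e p)).1 h
    · intro y hy
      rw [Finset.mem_filter, Finset.mem_filter] at hy
      obtain ⟨⟨-, hy1, hy2⟩, hy3⟩ := hy
      have ho : addOrderOf (((e p)⁻¹ : (ZMod m)ˣ) * y : ZMod m) = dT S := by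
        rw [← hy2]
        exact addOrderOf_injective (AddMonoidHom.mulLeft (((e p)⁻¹ : (ZMod m)ˣ) : ZMod m))
          (fun a b hab => (Units.mul_right_inj (e p)⁻¹).1 hab) y
      have hey : (e p : ZMod m) * (((e p)⁻¹ : (ZMod m)ˣ) * y) = y := by
        rw [← mul_assoc, Units.mul_inv, one_mul]
      refine ⟨((e p)⁻¹ : (ZMod m)ˣ) * y, ?_, hey⟩
      obtain ⟨w, hw, hxw⟩ := s4 _ ho
      obtain ⟨v, hv, rfl⟩ := s4 y hy2
      rw [hxw, hE3 w, s2] at hey
      rw [hmul, mX' v hv] at hy1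
      rw [mX v hv] at hy3
      rw [hxw, mX w hw]
      -- `v = E w` modulo all `c4 u`
      have hvE : ∀ u ∈ S, (sm u v ↔ sm u (E * w)) := by
        intro u hu
        obtain ⟨-, h3, -⟩ := hSmg u (hSp u hu)
        refine h3 _ _ ?_
        have h4 := (c4_dvd hu).trans hey
        have h5 := h4.neg_right
        rwa [neg_sub] at h5
      intro u hu
      by_cases hup : u = p
      · subst hup
        by_contra hcon
        refine hy3 fun u' hu' => ?_
        by_cases hup' : u' = u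
        · subst hup'
          exact (hvE u' hu').2 ((smP w hw).2 hcon)
        · exact hy1 u' (Finset.mem_erase.2 ⟨hup', hu'⟩)
      · have hu' : u ∈ S.erase p := Finset.mem_erase.2 ⟨hup, hu⟩
        exact (smE w u hu').1 ((hvE u hu).1 (hy1 u hu'))

end Pool.Agent.FO
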