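import Pool.Agent.Lib.MP_640417_ag.GT.SpecR

/-!
# Pairs of primes, module XgM: multiplication by `-1` on `X_S`
-/

set_option autoImplicit false

noncomputable section

open Finset Pool.Agent.FC

namespace Pool.Agent.FO

open GXsNAux in
theorem pXgM (hSmg : S_Smg) (hEuH : S_EuH) : S_XgM := by
  classical
  intro m _ T e hTp hTm hE S hST F
  have hSp : ∀ q ∈ S, q.Prime := fun q hq => hTp q (hST hq)
  have hSm : dT S ∣ m := (dT_mono hST).trans hTm
  obtain ⟨-, -, -, s4, s5, s6⟩ := gSqX m S hSp hSm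
  obtain ⟨a1, -⟩ := hEuH m T e hTp hTm hE S hST
  obtain ⟨E, hE0, hE1, hE2, hE3⟩ := a1 (S34 T) (by
    unfold S34
    exact Finset.filter_subset _ _)
  have mX : ∀ w : ℤ, IsCoprime w ((dT S : ℕ) : ℤ) →
      (((m / dT S : ℕ) : ZMod m) * ((w : ℤ) : ZMod m) ∈ Xs m S ↔ ∀ u ∈ S, sm u w) := by
    intro w hw
    unfold Xs
    rw [Finset.mem_filter]
    exact ⟨fun h => (s5 w hw).1 h.2, fun h => ⟨Finset.mem_univ _, (s5 w hw).2 h⟩⟩
  have hrep : ∀ x ∈ Xs m S, ∃ w : ℤ, IsCoprime w ((dT S : ℕ) : ℤ) ∧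
      x = ((m / dT S : ℕ) : ZMod m) * ((w : ℤ) : ZMod m) := by
    intro x hx
    unfold Xs at hx
    exact s4 x (s6 x (Finset.mem_filter.1 hx).2)
  have hnE : IsCoprime (-E) ((dT S : ℕ) : ℤ) := hE0.neg_left
  have h1c : ∀ u : ℕ, IsCoprime (-1 : ℤ) (u : ℤ) := fun u => isCoprime_one_left.neg_left
  -- `-E` is a square
  have hsq : ∀ u ∈ S, sm u (-E) := by
    intro u hu
    obtain ⟨h1, h2, h3, h4, -⟩ := hSmg u (hSp u hu)
    have e0 : -E = (-1) * E := by ring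
    rw [e0, h1 _ _ (h1c u) (cop_u hu hE0), h4]
    by_cases h5 : u = 2 ∨ u % 4 = 3
    · have hn : u ∈ S34 T := by
        unfold S34
        exact Finset.mem_filter.2 ⟨hST hu, h5⟩
      have h6 := hE1 u (Finset.mem_inter.2 ⟨hn, hu⟩)
      exact ⟨fun h => absurd h5 h, fun h => absurd h h6⟩
    · have hn : u ∉ S34 T := by
        unfold S34
        rw [Finset.mem_filter]
        exact fun h => h5 h.2
      have h6 := hE2 u (Finset.mem_sdiff.2 ⟨hu, hn⟩)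
      exact ⟨fun _ => (h2 E 1 h6).2 h3, fun _ => h5⟩
  have hpx : ∀ w : ℤ, -(((∏ p ∈ S34 T, e p : (ZMod m)ˣ) : ZMod m) *
      (((m / dT S : ℕ) : ZMod m) * ((w : ℤ) : ZMod m))) =
      ((m / dT S : ℕ) : ZMod m) * (((-E * w : ℤ)) : ZMod m) := by
    intro w
    rw [hE3 w]
    push_cast
    ring
  have c1 : ∀ x ∈ Xs m S, -(((∏ p ∈ S34 T, e p : (ZMod m)ˣ) : ZMod m) * x) ∈ Xs m S := by
    intro x hx
    obtain ⟨w, hw, rfl⟩ := hrep x hx
    rw [hpx w, mX _ (hnE.mul_left hw)]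
    intro u hu
    obtain ⟨h1, -, -, -, -⟩ := hSmg u (hSp u hu)
    rw [h1 _ _ (cop_u hu hnE) (cop_u hu hw)]
    exact ⟨fun _ => (mX w hw).1 hx u hu, fun _ => hsq u hu⟩
  have c2 : ∀ x x' : ZMod m, -(((∏ p ∈ S34 T, e p : (ZMod m)ˣ) : ZMod m) * x) =
      -(((∏ p ∈ S34 T, e p : (ZMod m)ˣ) : ZMod m) * x') → x = x' := by
    intro x x' h
    exact (Units.mul_right_inj _).1 (neg_injective h)
  have h1 : (Xs m S).image (fun x => -(((∏ p ∈ S34 T, e p : (ZMod m)ˣ) : ZMod m) * x)) = Xs m S := by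
    refine Finset.eq_of_subset_of_card_le ?_ ?_
    · intro y hy
      obtain ⟨x, hx, rfl⟩ := Finset.mem_image.1 hy
      exact c1 x hx
    · rw [Finset.card_image_of_injOn fun x _ x' _ h => c2 x x' h]
  conv_rhs => rw [← h1]
  rw [Finset.sum_image fun x _ x' _ h => c2 x x' h]
  refine Finset.sum_congr rfl fun x _ => ?_
  rw [neg_neg]

end Pool.Agent.FO
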