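import Pool.Agent.Lib.MP_640417_ag.GT.SpecR

/-!
# Pairs of primes: multiplication by `p` on `X_S`
-/

set_option autoImplicit false

noncomputable section

open Finset Pool.Agent.FC

namespace Pool.Agent.FO

namespace GXgNAux

theorem c4_dvd {S : Finset ℕ} {u : ℕ} (hu : u ∈ S) : ((c4 u : ℕ) : ℤ) ∣ ((dT S : ℕ) : ℤ) := by
  have h : c4 u ∣ dT S := Finset.dvd_prod_of_mem (fun p => if p = 2 then 4 else p) hu
  exact_mod_cast h

theorem dvd_c4 (u : ℕ) : u ∣ c4 u := by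
  unfold c4
  split_ifs with h
  · rw [h]
    norm_num
  · exact dvd_rfl

theorem cop_u {S : Finset ℕ} {u : ℕ} (hu : u ∈ S) {w : ℤ} (hw : IsCoprime w ((dT S : ℕ) : ℤ)) :
    IsCoprime w (u : ℤ) :=
  hw.of_isCoprime_of_dvd_right ((by exact_mod_cast dvd_c4 u : (u : ℤ) ∣ ((c4 u : ℕ) : ℤ)).trans
    (c4_dvd hu))

theorem dT_mono {S T : Finset ℕ} (h : S ⊆ T) : dT S ∣ dT T :=
  Finset.prod_dvd_prod_of_subset S T (fun p => if p = 2 then 4 else p) h

end GXgNAux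

open GXgNAux in
theorem pXgN (hSmg : S_Smg) (hEuH : S_EuH) : S_XgN := by
  classical
  intro m _ T e hT hTm hE S hST p hp
  have hTp : ∀ q ∈ T, q.Prime := hT
  have hSp : ∀ q ∈ S, q.Prime := fun q hq => hTp q (hST hq)
  have hSm : dT S ∣ m := (dT_mono hST).trans hTm
  have hS'S : S.erase p ⊆ S := Finset.erase_subset p S
  have hS'T : S.erase p ⊆ T := hS'S.trans hST
  have hS'p : ∀ q ∈ S.erase p, q.Prime := fun q hq => hSp q (hS'S hq)
  have hS'm : dT (S.erase p) ∣ m := (dT_mono hS'S).trans hSm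
  obtain ⟨s1, -, -, -, -, -⟩ := gSqX m S hSp hSm
  obtain ⟨-, s2, s3, s4, s5, s6⟩ := gSqX m (S.erase p) hS'p hS'm
  obtain ⟨a1, -⟩ := hEuH m T e hTp hTm hE (S.erase p) hS'T
  obtain ⟨E, hE0, hE1, hE2, hE3⟩ := a1 (nr T p) (by
    unfold nr
    exact Finset.filter_subset _ _)
  have mX : ∀ w : ℤ, IsCoprime w ((dT (S.erase p) : ℕ) : ℤ) →
      (((m / dT (S.erase p) : ℕ) : ZMod m) * ((w : ℤ) : ZMod m) ∈ Xs m (S.erase p) ↔
        ∀ u ∈ S.erase p, sm u w) := by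
    intro w hw
    unfold Xs
    rw [Finset.mem_filter]
    exact ⟨fun h => (s5 w hw).1 h.2, fun h => ⟨Finset.mem_univ _, (s5 w hw).2 h⟩⟩
  have hrep : ∀ x ∈ Xs m (S.erase p), ∃ w : ℤ, IsCoprime w ((dT (S.erase p) : ℕ) : ℤ) ∧
      x = ((m / dT (S.erase p) : ℕ) : ZMod m) * ((w : ℤ) : ZMod m) := by
    intro x hx
    unfold Xs at hx
    exact s4 x (s6 x (Finset.mem_filter.1 hx).2)
  have hpc : IsCoprime (p : ℤ) ((dT (S.erase p) : ℕ) : ℤ) := by
    rw [Nat.isCoprime_iff_coprime]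
    exact Nat.Coprime.coprime_dvd_left (dvd_c4 p) (s1 p hp).2
  have hpE : IsCoprime ((p : ℤ) * E) ((dT (S.erase p) : ℕ) : ℤ) := hpc.mul_left hE0
  -- `p E` is a square
  have hsq : ∀ u ∈ S.erase p, sm u ((p : ℤ) * E) := by
    intro u hu
    obtain ⟨h1, h3, -, -, -⟩ := hSmg u (hS'p u hu)
    by_cases hn : sm u p
    · have hun : u ∉ nr T p := by
        unfold nr
        rw [Finset.mem_filter]
        exact fun h => h.2.2 hn
      have h4 := hE2 u (Finset.mem_sdiff.2 ⟨hu, hun⟩)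
      refine (h3 ((p : ℤ) * E) p ?_).2 hn
      have e1 : (p : ℤ) * E - p = (E - 1) * p := by ring
      rw [e1]
      exact h4.mul_right _
    · have hun : u ∈ nr T p := by
        unfold nr
        rw [Finset.mem_filter]
        exact ⟨hS'T hu, Finset.ne_of_mem_erase hu, hn⟩
      have h4 := hE1 u (Finset.mem_inter.2 ⟨hun, hu⟩)
      rw [h1 _ _ (cop_u hu hpc) (cop_u hu hE0)]
      exact ⟨fun h => absurd h hn, fun h => absurd h h4⟩
  have hpx : ∀ w : ℤ, (p : ZMod m) * (((∏ u ∈ nr T p, e u : (ZMod m)ˣ) : ZMod m) *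
      (((m / dT (S.erase p) : ℕ) : ZMod m) * ((w : ℤ) : ZMod m))) =
      ((m / dT (S.erase p) : ℕ) : ZMod m) * (((p * E * w : ℤ)) : ZMod m) := by
    intro w
    rw [hE3 w]
    push_cast
    ring
  have c1 : ∀ x ∈ Xs m (S.erase p),
      addOrderOf (((∏ u ∈ nr T p, e u : (ZMod m)ˣ) : ZMod m) * x) = dT (S.erase p) ∧
      (p : ZMod m) * (((∏ u ∈ nr T p, e u : (ZMod m)ˣ) : ZMod m) * x) ∈ Xs m (S.erase p) := by
    intro x hx
    obtain ⟨w, hw, rfl⟩ := hrep x hx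
    refine ⟨?_, ?_⟩
    · rw [hE3 w]
      exact s3 _ (hE0.mul_left hw)
    · rw [hpx w, mX _ (hpE.mul_left hw)]
      intro u hu
      obtain ⟨h2, -, -, -, -⟩ := hSmg u (hS'p u hu)
      rw [h2 _ _ (cop_u hu hpE) (cop_u hu hw)]
      exact ⟨fun _ => (mX w hw).1 hx u hu, fun _ => hsq u hu⟩
  have c2 : ∀ x ∈ Xs m (S.erase p), ∀ x' ∈ Xs m (S.erase p),
      (p : ZMod m) * (((∏ u ∈ nr T p, e u : (ZMod m)ˣ) : ZMod m) * x) =
      (p : ZMod m) * (((∏ u ∈ nr T p, e u : (ZMod m)ˣ) : ZMod m) * x') → x = x' := by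
    intro x hx x' hx' h
    obtain ⟨w, hw, rfl⟩ := hrep x hx
    obtain ⟨w', hw', rfl⟩ := hrep x' hx'
    rw [hpx w, hpx w', s2] at h
    have e1 : (p : ℤ) * E * w - p * E * w' = (p * E) * (w - w') := by ring
    rw [e1] at h
    rw [s2]
    exact hpE.symm.dvd_of_dvd_mul_left h
  refine ⟨c1, fun F => ?_⟩
  have h1 : (Xs m (S.erase p)).image (fun x => (p : ZMod m) *
      (((∏ u ∈ nr T p, e u : (ZMod m)ˣ) : ZMod m) * x)) = Xs m (S.erase p) := by
    refine Finset.eq_of_subset_of_card_le ?_ ?_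
    · intro y hy
      obtain ⟨x, hx, rfl⟩ := Finset.mem_image.1 hy
      exact (c1 x hx).2
    · rw [Finset.card_image_of_injOn fun x hx x' hx' h => c2 x hx x' hx' h]
  conv_rhs => rw [← h1]
  rw [Finset.sum_image fun x hx x' hx' h => c2 x hx x' hx' h]

end Pool.Agent.FO
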