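import Pool.Agent.Lib.MP_640417_ag.GT.Smg
import Pool.Agent.Lib.MP_640417_ag.GT.EuG
import Pool.Agent.Lib.MP_640417_ag.GT.EuH
import Pool.Agent.Lib.MP_640417_ag.GT.XgE
import Pool.Agent.Lib.MP_640417_ag.GT.XgN
import Pool.Agent.Lib.MP_640417_ag.GT.XgM
import Pool.Agent.Lib.MP_640417_ag.GT.BgR
import Pool.Agent.Lib.MP_640417_ag.GT.RzW
import Pool.Agent.Lib.MP_640417_ag.GT.RlG
import Pool.Agent.Lib.MP_640417_ag.GT.CtX
import Pool.Agent.Lib.MP_640417_ag.GT.LmA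
import Pool.Agent.Lib.MP_640417_ag.GT.TwV
import Pool.Agent.Lib.MP_640417_ag.GT.RfV
import Pool.Agent.Lib.MP_640417_ag.GT.RzK
import Pool.Agent.Lib.MP_640417_ag.GT.Pa3
import Pool.Agent.Lib.MP_640417_ag.GT.Pa4
import Pool.Agent.Lib.MP_640417_ag.GT.Pa5
import Pool.Agent.Lib.MP_640417_ag.GT.DaB
import Pool.Agent.Lib.MP_640417_ag.GT.DaR
import Pool.Agent.Lib.MP_640417_ag.GT.DaI
import Pool.Agent.Lib.MP_640417_ag.GT.Fod
import Pool.Agent.Lib.MP_640417_ag.GT.Dch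
import Pool.Agent.Lib.MP_640417_ag.GT.GdU
import Pool.Agent.Lib.MP_640417_ag.GT.ThB
import Pool.Agent.Lib.MP_640417_ag.GT.ThC
import Pool.Agent.Lib.MP_640417_ag.GT.PdA
import Pool.Agent.Lib.MP_640417_ag.GT.Gm3
import Pool.Agent.Lib.MP_640417_ag.GT.GdR

/-! # The theorem on pairs of primes: assembly -/

set_option autoImplicit false

open Finset Pool.Agent.FC

namespace Pool.Agent.FO

theorem gSmg : S_Smg := pSmg
theorem gEuG : S_EuG := pEuG gSmg
theorem gEuH : S_EuH := pEuH gSmg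
theorem gXgE : S_XgE := pXgE gSmg gEuH
theorem gXgN : S_XgN := pXgN gSmg gEuH
theorem gXgM : S_XgM := pXgM gSmg gEuH
theorem gBgR : S_BgR := pBgR gEuH gXgE gXgN gXgM
theorem gRzW : S_RzW := pRzW
theorem gRlG : S_RlG := pRlG gRzW gEuG gBgR
theorem gCtX : S_CtX := pCtX
theorem gLmA : S_LmA := pLmA gCtX
theorem gTwV : S_TwV := pTwV gLmA
theorem gRfV : S_RfV := pRfV
theorem gRzK : S_RzK := pRzK
theorem gPa3 : S_Pa3 := pPa3 gSmg gRfV gRzK
theorem gPa4 : S_Pa4 := pPa4 gSmg gRfV gRzK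
theorem gPa5 : S_Pa5 := pPa5 gSmg gRfV gRzK
theorem gDaB : S_DaB := pDaB
theorem gDaR : S_DaR := pDaR
theorem gDaI : S_DaI := pDaI gDaB
theorem gFod : S_Fod := pFod
theorem gDch : S_Dch := pDch gSmg
theorem gGdU : S_GdU := pGdU
theorem gThB : S_ThB := pThB gRlG gTwV gPa3 gDaB gDaR gDaI gFod gGdU
theorem gThC : S_ThC := pThC gRlG gTwV gPa4 gPa5 gDaB gDaR gDaI gFod gGdU
theorem gPdA : S_PdA := pPdA gDch gThB gThC
theorem gGm3 : S_Gm3 := pGm3
theorem gGdR : S_GdR := pGdR gGdU gPdA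

private theorem MainR_x1 : ¬ sm 5 2 := by
  rintro ⟨x, hx⟩
  revert hx
  revert x
  change ∀ x : ZMod 5, ((2 : ℤ) : ZMod 5) = x * x → False
  decide

private theorem MainR_x2 : ¬ sm 13 2 := by
  rintro ⟨x, hx⟩
  revert hx
  revert x
  change ∀ x : ZMod 13, ((2 : ℤ) : ZMod 13) = x * x → False
  decide

private theorem MainR_x3 : ¬ sm 17 3 := by
  rintro ⟨x, hx⟩
  revert hx
  revert x
  change ∀ x : ZMod 17, ((3 : ℤ) : ZMod 17) = x * x → False
  decide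

theorem GS_le_GF3 : GS ≤ GF3 := le_sup_left

theorem gGdL : S_GdL := by
  refine ⟨?_, ?_⟩
  · intro m _
    exact gGdR GF3 K4 GS_le_GF3 (by
      rintro p (h | h | rfl | rfl | rfl)
      · exact Or.inl (Or.inl h)
      · exact Or.inl (Or.inr h)
      · exact Or.inr ⟨by norm_num, 2, Nat.prime_two, Or.inl rfl, MainR_x1, gGm3.1⟩
      · exact Or.inr ⟨by norm_num, 2, Nat.prime_two, Or.inl rfl, MainR_x2, gGm3.2.1⟩
      · exact Or.inr ⟨by norm_num, 3, Nat.prime_three, Or.inr (by norm_num), MainR_x3, gGm3.2.2⟩) m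
  · intro m _
    exact gGdR GS _ le_rfl (fun p h => Or.inl h) m

/-- (1) The groups of `GF3` for the sets of `AlF`. (2) The groups of `GS` for the pairs of primes which are `2` or
`3` modulo `4`, or one of which is a square modulo the other. -/
theorem mainR : (∀ (m : ℕ) [NeZero m], GdA m GF3 AlF) ∧
    ∀ (m : ℕ) [NeZero m], GdA m GS (AlG fun p => p = 2 ∨ p % 4 = 3) := gGdL

end Pool.Agent.FO
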