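import Pool.Agent.Lib.MP_640417_ag.GT.SpecR
import Pool.Agent.Lib.MP_640417_ag.GT.DefsC
import Pool.Agent.Lib.MP_640417_ag.GT.DaB

/-!
# The group `GC`: a class for every prime `1` modulo `4`
-/

set_option autoImplicit false

noncomputable section

open Finset Pool.Agent.FC

namespace Pool.Agent.FO

namespace GPdCAux

open GDaBAux

theorem sum_range {D : ℕ} [NeZero D] {A : Type*} [AddCommMonoid A] (f : ZMod D → A) :
    ∑ x, f x = ∑ k ∈ range D, f ((k : ℕ) : ZMod D) := by
  refine sum_nbij' (fun x => x.val) (fun k => ((k : ℕ) : ZMod D)) (fun x _ => mem_range.2 (ZMod.val_lt x))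
    (fun _ _ => mem_univ _) (fun x _ => ZMod.natCast_zmod_val x) (fun k hk => ?_) (fun x _ => ?_)
  · exact ZMod.val_cast_of_lt (mem_range.1 hk)
  · rw [ZMod.natCast_zmod_val]

theorem hs_nat {D : ℕ} [NeZero D] (j : ℕ) (h : ((j : ℕ) : ZMod D) ≠ 0) :
    hs ((j : ℕ) : ZMod D) = if lo D j then 1 else 0 := by
  unfold hs
  rw [ZMod.val_natCast]
  by_cases h1 : lo D j
  · rw [if_pos ⟨h, h1⟩, if_pos h1]
  · rw [if_neg fun h2 => h1 h2.2, if_neg h1]

theorem ord_nat {D : ℕ} [NeZero D] {k d e : ℕ} (he : d * e = D) (hd : 0 < d) :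
    addOrderOf ((k : ℕ) : ZMod D) = d ↔ k.gcd D = e := by
  rw [ZMod.addOrderOf_coe k (NeZero.ne D)]
  have hg : 0 < Nat.gcd D k := Nat.gcd_pos_of_pos_left _ (Nat.pos_of_ne_zero (NeZero.ne D))
  have hgd : Nat.gcd D k ∣ D := Nat.gcd_dvd_left _ _
  rw [Nat.gcd_comm k D]
  constructor
  · intro h
    have h1 := Nat.div_mul_cancel hgd
    rw [h] at h1
    exact Nat.eq_of_mul_eq_mul_left hd (h1.trans he.symm)
  · intro h
    rw [h, ← he]
    exact Nat.mul_div_cancel _ (by
      rcases Nat.eq_zero_or_pos e with h0 | h0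
      · exfalso
        rw [h0, mul_zero] at he
        exact NeZero.ne D he.symm
      · exact h0)

/-- the values of `das` at the level `c4 p * c4 q` -/
theorem das_one {D p q : ℕ} [NeZero D] (hp : p.Prime) (hq : q.Prime) (hpq : p ≠ q) (hq2 : q ≠ 2) (hD : D = c4 p * c4 q)
    (k : ℕ) (hk : k < D) : das D p q ((k : ℕ) : ZMod D) = 1 ↔ k ∈ dset (c4 p) p q := by
  have hP3 := c4_ge hp
  have hQ3 := c4_ge hq
  have hcq : c4 q = q := by unfold c4; rw [if_neg hq2]
  have hDe : D = c4 p * q := by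
    rw [hD, hcq]
  have hcop : (c4 p).Coprime (c4 q) := by
    rw [hcq]
    unfold c4
    split_ifs with h
    · have h1 : Nat.Coprime 2 q := (Nat.coprime_primes Nat.prime_two hq).2 fun h => hq2 h.symm
      exact Nat.Coprime.pow_left 2 h1
    · exact (Nat.coprime_primes hp hq).2 hpq
  have hpc : p ∣ c4 p := by
    unfold c4
    split_ifs with h
    · subst h
      norm_num
    · exact dvd_rfl
  have hqc : q ∣ c4 q := by rw [hcq]
  have hD0 : 0 < D := Nat.pos_of_ne_zero (NeZero.ne D)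
  rcases Nat.eq_zero_or_pos k with rfl | hk0
  · constructor
    · intro h
      exfalso
      unfold das at h
      rw [Nat.cast_zero, addOrderOf_zero] at h
      have h1 : ¬ 1 = c4 p * c4 q := by nlinarith
      rw [if_neg h1, if_neg (by omega), if_neg (by omega)] at h
      exact zero_ne_one h
    · intro h
      exfalso
      unfold dset at h
      rw [mem_filter, ← hDe, Nat.gcd_zero_left] at h
      rcases h.2 with h1 | h1 | h1
      · nlinarith [h1.1]
      · nlinarith [h1.1]
      · nlinarith [h1.1]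
  -- the orders
  have o1 : addOrderOf ((k : ℕ) : ZMod D) = c4 p * c4 q ↔ k.gcd D = 1 :=
    ord_nat (by rw [hD, mul_one]) (by nlinarith)
  have o2 : addOrderOf ((k : ℕ) : ZMod D) = c4 p ↔ k.gcd D = q := by
    rw [← hcq]
    exact ord_nat hD.symm (by omega)
  have o3 : addOrderOf ((k : ℕ) : ZMod D) = c4 q ↔ k.gcd D = c4 p :=
    ord_nat (by rw [hD, mul_comm]) (by omega)
  have hne : ∀ {x : ZMod D} {n : ℕ}, addOrderOf x = n → 3 ≤ n → x ≠ 0 := by
    rintro x n h h3 rfl
    rw [addOrderOf_zero] at h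
    omega
  have hcast : ∀ a : ℕ, ((a : ℕ) : ZMod D) * ((k : ℕ) : ZMod D) = (((a * k : ℕ)) : ZMod D) := fun a => by
    rw [Nat.cast_mul]
  have hmem : k ∈ dset (c4 p) p q ↔ (k.gcd D = 1 ∧ lo D (q * k) ∧ ¬ lo D (c4 p * k)) ∨
      (k.gcd D = q ∧ lo D (q * k) ∧ ¬ lo D k) ∨ (k.gcd D = c4 p ∧ lo D k ∧ ¬ lo D (p * k)) := by
    unfold dset
    rw [mem_filter, ← hDe, mem_range]
    exact and_iff_right hk
  rw [hmem]
  have hsub : ∀ (a b : ℕ), ((a : ℕ) : ZMod D) ≠ 0 → ((b : ℕ) : ZMod D) ≠ 0 →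
      (hs ((a : ℕ) : ZMod D) - hs ((b : ℕ) : ZMod D) = 1 ↔ lo D a ∧ ¬ lo D b) := by
    intro a b ha hb
    rw [hs_nat a ha, hs_nat b hb]
    by_cases h1 : lo D a <;> by_cases h2 : lo D b <;> simp [h1, h2]
  have hq1 : q ≠ 1 := hq.one_lt.ne'
  unfold das
  by_cases h1 : k.gcd D = 1
  · rw [if_pos (o1.2 h1), hcast, hcast]
    have e1 : (((c4 q * k : ℕ)) : ZMod D) ≠ 0 := by
      rw [← hcast]
      exact hne (ord_div (o1.2 h1) (by omega)) hP3
    have e2 : (((c4 p * k : ℕ)) : ZMod D) ≠ 0 := by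
      rw [← hcast]
      exact hne (ord_div ((o1.2 h1).trans (mul_comm _ _)) (by omega)) hQ3
    rw [hsub _ _ e1 e2, h1, hcq]
    constructor
    · exact fun h => Or.inl ⟨rfl, h⟩
    · rintro (h | h | h)
      · exact h.2
      · exact absurd h.1.symm hq1
      · have := h.1
        omega
  · rw [if_neg fun h => h1 (o1.1 h)]
    by_cases h2 : k.gcd D = q
    · have o := o2.2 h2
      rw [if_pos o, hcast]
      have e1 : (((q * k : ℕ)) : ZMod D) ≠ 0 := by
        rw [← hcast]
        exact hne (ord_cop o hq.ne_zero (by rw [hcq] at hcop; exact hcop)) hP3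
      rw [hsub _ _ e1 (hne o hP3), h2]
      constructor
      · exact fun h => Or.inr (Or.inl ⟨rfl, h⟩)
      · rintro (h | h | h)
        · exact absurd h.1 hq1
        · exact h.2
        · exfalso
          have h5 := h.1
          rw [← hcq] at h5
          rw [h5, Nat.coprime_self] at hcop
          omega
    · rw [if_neg fun h => h2 (o2.1 h)]
      by_cases h3 : k.gcd D = c4 p
      · have o := o3.2 h3
        rw [if_pos o, hcast]
        have e1 : (((p * k : ℕ)) : ZMod D) ≠ 0 := by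
          rw [← hcast]
          exact hne (ord_cop o hp.ne_zero (Nat.Coprime.coprime_dvd_right hpc hcop.symm)) hQ3
        rw [hsub _ _ (hne o hQ3) e1, h3]
        constructor
        · exact fun h => Or.inr (Or.inr ⟨rfl, h⟩)
        · rintro (h | h | h)
          · exact absurd (h3.trans h.1) h1
          · exact absurd (h3.trans h.1) h2
          · exact h.2
      · rw [if_neg fun h => h3 (o3.1 h)]
        constructor
        · exact fun h => absurd h zero_ne_one
        · rintro (h | h | h)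
          · exact absurd h.1 h1
          · exact absurd h.1 h2
          · exact absurd h.1 h3

/-- `das` takes the values `-1`, `0`, `1` -/
theorem das_val {m p q : ℕ} (x : ZMod m) : das m p q x = 1 ∨ das m p q x = 0 ∨ das m p q x = -1 := by
  have h : ∀ y : ZMod m, hs y = 0 ∨ hs y = 1 := by
    intro y
    unfold hs
    split_ifs
    · exact Or.inr rfl
    · exact Or.inl rfl
  unfold das
  split_ifs
  · rcases h (((c4 q : ℕ) : ZMod m) * x) with h1 | h1 <;> rcases h (((c4 p : ℕ) : ZMod m) * x) with h2 | h2 <;>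
      rw [h1, h2] <;> norm_num
  · rcases h ((q : ZMod m) * x) with h1 | h1 <;> rcases h x with h2 | h2 <;> rw [h1, h2] <;> norm_num
  · rcases h x with h1 | h1 <;> rcases h ((p : ZMod m) * x) with h2 | h2 <;> rw [h1, h2] <;> norm_num
  · norm_num

/-- `das` at the level `c4 p * c4 q` is in `GC` -/
theorem inA {D p q : ℕ} [NeZero D] (hp : p.Prime) (hq : q.Prime) (hp4 : p = 2 ∨ p % 4 = 3) (hq4 : q % 4 = 1)
    (hs : ¬ IsSquare ((p : ℕ) : ZMod q)) (hD : D = c4 p * c4 q) : InA GC (das D p q) := by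
  classical
  have hpq : p ≠ q := by
    rintro rfl
    omega
  have hq2 : q ≠ 2 := by
    rintro rfl
    omega
  have hcq : c4 q = q := by unfold c4; rw [if_neg hq2]
  have hodd := (pDaB D p q hp hq hpq (by rw [hD])).1
  refine ⟨fun x => if das D p q x = 1 then 1 else 0, ?_, ?_, ?_⟩
  · have h0 : das D p q 0 = 0 := by
      have := hodd 0
      rw [neg_zero] at this
      omega
    show (if das D p q 0 = 1 then (1 : ℤ) else 0) = 0
    rw [h0, if_neg zero_ne_one]
  · intro x
    show das D p q x = (if das D p q x = 1 then (1 : ℤ) else 0) - (if das D p q (-x) = 1 then (1 : ℤ) else 0)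
    rw [hodd x]
    rcases das_val (p := p) (q := q) x with h | h | h <;> rw [h] <;> norm_num
  · have e : cl (fun x : ZMod D => if das D p q x = 1 then (1 : ℤ) else 0) =
        dsum (c4 p) p q := by
      have hDe : c4 p * q = D := by
        rw [hD, hcq]
      unfold dsum
      rw [hDe]
      unfold cl
      rw [sum_range]
      have hsub : dset (c4 p) p q ⊆ range D := by
        unfold dset
        rw [hDe]
        exact filter_subset _ _
      rw [← sum_subset hsub (f := fun k => Finsupp.single (ZMod.toAddCircle ((k : ℕ) : ZMod D))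
        (if das D p q ((k : ℕ) : ZMod D) = 1 then (1 : ℤ) else 0))]
      · refine sum_congr rfl fun k hk => ?_
        have hkD := mem_range.1 (hsub hk)
        rw [if_pos ((das_one hp hq hpq hq2 hD k hkD).2 hk)]
        unfold Pool.Agent.FT.pt
        rw [ZMod.toAddCircle_natCast]
      · intro k hk hkn
        rw [if_neg fun h => hkn ((das_one hp hq hpq hq2 hD k (mem_range.1 hk)).1 h), Finsupp.single_zero]
    rw [e]
    exact AddSubgroup.mem_sup_right (AddSubgroup.subset_closure ⟨p, q, hp, hq, hp4, hq4, hs, rfl⟩)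

theorem dT_dvd (m : ℕ) (T : Finset ℕ) (hE : Ess m T) : dT T ∣ m := by
  obtain ⟨h1, h2, -, -⟩ := hE
  have hp : ∀ p ∈ T, p.Prime := fun p hp => Nat.prime_of_mem_primeFactors (h1 hp)
  have hc : ∀ p, (if p = 2 then 4 else p) = p ^ (if p = 2 then 2 else 1) := by
    intro p
    split_ifs with h
    · rw [h]; norm_num
    · rw [pow_one]
  have h3 : ((∏ p ∈ T, (((if p = 2 then 4 else p : ℕ)) : ℤ))) ∣ (m : ℤ) := by
    refine Finset.prod_dvd_of_coprime ?_ ?_
    · intro p hpT q hqT hpq
      change IsCoprime (((if p = 2 then 4 else p : ℕ)) : ℤ) (((if q = 2 then 4 else q : ℕ)) : ℤ)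
      rw [Nat.isCoprime_iff_coprime, hc, hc]
      exact Nat.Coprime.pow _ _ ((Nat.coprime_primes (hp p hpT) (hp q hqT)).2 hpq)
    · intro p hpT
      rw [Int.natCast_dvd_natCast]
      split_ifs with h
      · exact h2 (h ▸ hpT)
      · exact Nat.dvd_of_mem_primeFactors (h1 hpT)
  unfold dT
  exact_mod_cast h3

end GPdCAux

open GPdCAux GDaBAux in
/-- the pairs in `GC` -/
theorem pdGC (hDaR : S_DaR) (hDaI : S_DaI) {s q : ℕ} (hs : s.Prime) (hq : q.Prime) (hs4 : s = 2 ∨ s % 4 = 3) (hq4 : q % 4 = 1)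
    (hns : ¬ IsSquare ((s : ℕ) : ZMod q)) : Pd GC s q := by
  intro m _ hE
  have hsq : s ≠ q := by
    rintro rfl
    omega
  have hm : c4 s * c4 q ∣ m := by
    have h1 := GPdCAux.dT_dvd m _ hE
    unfold dT at h1
    rw [prod_pair hsq] at h1
    exact h1
  obtain ⟨h1, h2, h3⟩ := pDaB m s q hs hq hsq hm
  have hP3 := c4_ge hs
  have hQ3 := c4_ge hq
  have : NeZero (c4 s * c4 q) := ⟨by positivity⟩
  refine ⟨das m s q, ?_, h1, hDaR m s q hs hq hsq hm, h2, h3⟩
  exact hDaI (c4 s * c4 q) m s q GC hs hq hsq dvd_rfl hm ((le_sup_left : HD ≤ GS).trans le_sup_left)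
    (inA hs hq hs4 hq4 hns rfl)

/-- the data for all pairs of primes -/
theorem gdGC (hDch : S_Dch) (hGdR : S_GdR) (hDaR : S_DaR) (hDaI : S_DaI) (m : ℕ) [NeZero m] :
    GdA m GC (AlG Nat.Prime) := by
  refine hGdR GC Nat.Prime le_sup_left (fun q hq => ?_) m
  rcases hq.eq_two_or_odd with h | h
  · exact Or.inl (Or.inl h)
  · rcases (show q % 4 = 3 ∨ q % 4 = 1 by omega) with h4 | h4
    · exact Or.inl (Or.inr h4)
    · obtain ⟨a, ha, ha4, hn⟩ := (hDch q hq h4).1
      refine Or.inr ⟨h4, a, ha, Or.inr ha4, hn, pdGC hDaR hDaI ha hq (Or.inr ha4) h4 ?_⟩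
      intro hs
      apply hn
      unfold sm c4
      rw [if_neg (by omega), Int.cast_natCast]
      exact hs

open GPcAux in
/-- **The sets of primes for `GC`.** -/
theorem condGC (hMx : S_Mx) (hNcR : S_NcR) (hKmn : S_Kmn) {m N : ℕ} (hQC : QuadF m N) :
    ∀ T, Ess m T → AlG Nat.Prime T ∨ Crt m N T := by
  have h1 : ∀ T, Ess m T → AlG Nat.Prime T ∨ Cr1 m N T := by
    intro T hT
    obtain ⟨hTm, hT4, hTn, hTe⟩ := id hT
    have hP : ∀ p ∈ T, p.Prime := fun p hp => Nat.prime_of_mem_primeFactors (hTm hp)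
    have hc := hTn.card_pos
    by_cases hT34 : T34 T
    · exact Or.inl (Or.inl hT34)
    by_cases h2 : T.card = 2
    · obtain ⟨p, hp, q, hq, hpq⟩ := GPcAux.two_lt (show 2 ≤ T.card by omega)
      refine Or.inl (Or.inr ⟨p, q, hpq, ?_, Or.inl ⟨hP p hp, hP q hq⟩⟩)
      symm
      refine eq_of_subset_of_card_le ?_ ?_
      · intro y hy
        rw [mem_insert, mem_singleton] at hy
        rcases hy with rfl | rfl
        · exact hp
        · exact hq
      · rw [h2, card_pair hpq.ne]
    · obtain ⟨p0, hp0, hp04⟩ : ∃ p0 ∈ T, ¬ (p0 = 2 ∨ p0 % 4 = 3) := by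
        by_contra hcon
        push Not at hcon
        exact hT34 fun p hp => ⟨hP p hp, hcon p hp⟩
      obtain ⟨T', hT', hT'T, hT'c⟩ := exists_subsuperset_card_eq (s := {p0}) (t := T) (n := 4)
        (singleton_subset_iff.2 hp0) (by rw [card_singleton]; omega) (by omega)
      rcases hQC T' (hT'T.trans hTm) hT'c (fun h => hT4 (hT'T h)) with h3 | h3
      · exact absurd (h3 p0 (hT' (mem_singleton_self p0))) hp04
      · exact Or.inr (GPcAux.cr1_sub hP hT'T h3)
  intro T hT
  by_cases hA : AlG Nat.Prime T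
  · exact Or.inl hA
  · refine Or.inr (crt_ofQ hMx hNcR hKmn m N (AlG Nat.Prime) ?_ (fun T h => Or.inl h) h1 T hT hA)
    rintro T (h | ⟨p, q, hpq, rfl, -⟩)
    · exact Or.inr h
    · exact Or.inl (card_pair hpq.ne)

/-- odd levels, length at most `29` -/
theorem quadF29 (hKmn : S_Kmn) {m N : ℕ} (hN : N < 30) (hm2 : ¬ 2 ∣ m) : QuadF m N := by
  intro T hTm hc h24
  right
  have hP : ∀ p ∈ T, p.Prime := fun p hp => Nat.prime_of_mem_primeFactors (hTm hp)
  have h2 : 2 ∉ T := fun h => hm2 (Nat.dvd_of_mem_primeFactors (hTm h))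
  have h1 := (GPcAux.quad_small hKmn hP hc).1 h2
  exact ⟨by omega, fun h _ => absurd h hm2⟩

end Pool.Agent.FO
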