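import Pool.Agent.Lib.MP_640417_ag.GT.MainR
import Pool.Agent.Lib.MP_640417_ag.GT.G14R
import Pool.Agent.Lib.MP_640417_ag.GT.PdC

/-! # Theorem FermatDegrees: the groups `GS`, `GF3`, `GC` -/

set_option autoImplicit false

open Finset Pool.Agent.FC

namespace Pool.Agent.FO

theorem gG14R : G14 ≤ GF3 := pG14R fun m _ => gGdL.1 m

/-- **THEOREM FermatDegrees, three tuples.** -/
theorem main6 (m N : ℕ) [NeZero m] (a : Fin N → ZMod m) (ha : IsTate m a) :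
    ((∀ p : ℕ, p.Prime → p ∣ m → p = 2 ∨ p % 4 = 3) → clt a ∈ GS) ∧
    (PairF m N → QuadF m N → clt a ∈ GF3) ∧
    (N ≤ 6 → clt a ∈ GF3) ∧
    (N ≤ 8 → ¬ 174 ∣ m → ¬ 420 ∣ m → clt a ∈ GF3) ∧
    (N ≤ 12 → ¬ 2 ∣ m → clt a ∈ GF3) := by
  obtain ⟨h1, h2, h3⟩ := pBrg hSzBas m N a ha
  have key : PairF m N → QuadF m N → clt a ∈ GF3 := by
    intro hP hQ
    refine gGTt m N GF3 AlF (gGdL.1 m) ?_ (Fin N) a (by simp) h1 h3
    intro T hT hTA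
    exact gCrN m N T hT ((condFF gMx gNcR gKmn hP hQ T hT).resolve_left hTA)
  refine ⟨fun h => gQR m h (Fin N) a h1 h3, key, fun hN => ?_, fun hN h174 h420 => ?_, fun hN hm2 => ?_⟩
  · exact gG14R (gGT6 m (Fin N) a (by simpa using hN) h1 h3).1
  · exact key (pairF8 hN h174) (quadF8 gKmn hN h420)
  · exact key (pairF12 hN hm2) (quadF12 gKmn hN hm2)

/-- **THEOREM FermatDegrees, a class for every prime `1` modulo `4`.** -/
theorem main7 (m N : ℕ) [NeZero m] (a : Fin N → ZMod m) (ha : IsTate m a) :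
    (QuadF m N → clt a ∈ GC) ∧ (N < 30 → ¬ 2 ∣ m → clt a ∈ GC) := by
  obtain ⟨h1, h2, h3⟩ := pBrg hSzBas m N a ha
  have key : QuadF m N → clt a ∈ GC := by
    intro hQ
    refine gGTt m N GC (AlG Nat.Prime) (gdGC gDch gGdR gDaR gDaI m) ?_ (Fin N) a (by simp) h1 h3
    intro T hT hTA
    exact gCrN m N T hT ((condGC gMx gNcR gKmn hQ T hT).resolve_left hTA)
  exact ⟨key, fun hN hm2 => key (quadF29 gKmn hN hm2)⟩

/-- levels with at most three primes -/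
theorem quad3 {m N : ℕ} (h : m.primeFactors.card ≤ 3) : QuadF m N := by
  intro T hT hc
  have := card_le_card hT
  omega

/-- **THEOREM FermatDegrees, final form.** -/
theorem main8 (m N : ℕ) [NeZero m] (a : Fin N → ZMod m) (ha : IsTate m a) :
    (∀ (s : ℕ) [NeZero s], (∀ p k : ℕ, p.Prime → p ≤ 6 * N + 1 → p ^ k ≤ (32 * N) ^ (2 * N) → p ^ k ∣ m → p ^ k ∣ s) →
      ∃ (n : ℕ) (b : Fin n → ZMod s), n ≤ N ∧ IsTate s b ∧ clt a - clt b ∈ HD) ∧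
    ((∀ p : ℕ, p.Prime → p ∣ m → p = 2 ∨ p % 4 = 3) → clt a ∈ GS) ∧
    (N ≤ 6 ∨ (N ≤ 8 ∧ ¬ 174 ∣ m ∧ ¬ 420 ∣ m) ∨ (N ≤ 12 ∧ ¬ 2 ∣ m) ∨
      (m.primeFactors.card ≤ 3 ∧ ∀ p q : ℕ, p.Prime → q.Prime → p ∣ m → q ∣ m → p < q → Ex p q) → clt a ∈ GF3) ∧
    ((N < 30 ∧ ¬ 2 ∣ m) ∨ m.primeFactors.card ≤ 3 → clt a ∈ GC) := by
  obtain ⟨k1, k2, k3, k4, k5⟩ := main6 m N a ha
  obtain ⟨l1, l2⟩ := main7 m N a ha
  refine ⟨fun s _ hs => (main2 m N s a ha hs).1, k1, ?_, ?_⟩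
  · rintro (h | ⟨h, h1, h2⟩ | ⟨h, h1⟩ | ⟨h, h1⟩)
    · exact k3 h
    · exact k4 h h1 h2
    · exact k5 h h1
    · exact k2 (fun p q hp hq hpm hqm hpq _ => Or.inl (h1 p q hp hq hpm hqm hpq)) (quad3 h)
  · rintro (⟨h, h1⟩ | h)
    · exact l2 h h1
    · exact l1 (quad3 h)

end Pool.Agent.FO
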