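import Pool.Agent.Lib.MP_640417_ag.GT.MainS

/-! # Theorem FermatDegrees: final form -/

set_option autoImplicit false

open Finset Pool.Agent.FC

namespace Pool.Agent.FO

/-- the three tuples are in `tp` -/
theorem GF3_le : GF3 ≤ GS ⊔ G13 := by
  refine sup_le le_sup_left ?_
  rw [AddSubgroup.closure_le]
  rintro f ⟨q, t, hq, ht, rfl⟩
  have h : ∀ q ∈ tp3, q ∈ tp := by decide
  exact AddSubgroup.mem_sup_right (AddSubgroup.mem_sup_right (AddSubgroup.subset_closure ⟨q, t, h q hq, ht, rfl⟩))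

/-- **THEOREM FermatDegrees, final form.** -/
theorem main9 (m N : ℕ) [NeZero m] (a : Fin N → ZMod m) (ha : IsTate m a) :
    (∀ (s : ℕ) [NeZero s], (∀ p k : ℕ, p.Prime → p ≤ 6 * N + 1 → p ^ k ≤ (32 * N) ^ (2 * N) → p ^ k ∣ m → p ^ k ∣ s) →
      ∃ (n : ℕ) (b : Fin n → ZMod s), n ≤ N ∧ IsTate s b ∧ clt a - clt b ∈ HD) ∧
    ((∀ p : ℕ, p.Prime → p ∣ m → p = 2 ∨ p % 4 = 3) → clt a ∈ GS) ∧
    (N ≤ 6 ∧ ¬ 110 ∣ m → clt a ∈ G13) ∧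
    (N ≤ 6 ∨ (N ≤ 8 ∧ ¬ 174 ∣ m ∧ ¬ 420 ∣ m) ∨ (N ≤ 12 ∧ ¬ 2 ∣ m) ∨
      (m.primeFactors.card ≤ 3 ∧ ∀ p q : ℕ, p.Prime → q.Prime → p ∣ m → q ∣ m → p < q → Ex p q) → clt a ∈ GS ⊔ G13) ∧
    ((N < 30 ∧ ¬ 2 ∣ m) ∨ m.primeFactors.card ≤ 3 → clt a ∈ GC) := by
  obtain ⟨k1, k2, k3, k4⟩ := main8 m N a ha
  exact ⟨k1, k2, fun h => ((main4 m N a ha).2.2.2.2.1 h.1).2 h.2, fun h => GF3_le (k3 h), k4⟩

end Pool.Agent.FO
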