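import Pool.Agent.Lib.MP_640417_ag.GT.SpecS

/-!
# Theorem GT, part S: numerical bounds for three functionals of the set `2, 3, 5, 7`
-/

set_option autoImplicit false

noncomputable section

open Finset Pool.Agent.FC

namespace Pool.Agent.FO

namespace GMu5Aux

private lemma nb0 : nb 0 = 1 := by
  rw [nb_eq]
  rfl

private lemma nb1 : nb 1 = 2 := by
  rw [nb_eq, Finset.sum_range_one, nb0]
  rfl

private lemma nb2 : nb 2 = 6 := by
  rw [nb_eq, Finset.sum_range_succ, Finset.sum_range_one, nb0, nb1]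
  rfl

private lemma nc0 (l : ℕ) : nc 0 l = if l = 0 then 1 else 0 := by
  rw [nc]

private lemma nc1 (k l : ℕ) : nc (k + 1) l =
    2 * ∑ j ∈ range (l + 1), l.choose j * nb j * nc k (l - j) := by
  rw [nc]

private lemma nc_0 (k : ℕ) : nc (k + 1) 0 = 2 * nc k 0 := by
  rw [nc1, zero_add, Finset.sum_range_one, nb0]
  simp

private lemma nc_1 (k : ℕ) : nc (k + 1) 1 = 2 * (nc k 1 + 2 * nc k 0) := by
  rw [nc1, Finset.sum_range_succ, Finset.sum_range_one, nb0, nb1]
  simp

private lemma nc_2 (k : ℕ) : nc (k + 1) 2 = 2 * (nc k 2 + 4 * nc k 1 + 6 * nc k 0) := by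
  rw [nc1, Finset.sum_range_succ, Finset.sum_range_succ, Finset.sum_range_one, nb0, nb1, nb2]
  simp

private lemma nc32 : nc 3 2 = 336 := by
  simp only [nc_2, nc_1, nc_0, nc0]
  rfl

private lemma nc30 : nc 3 0 = 8 := by
  rw [nc_0, nc_0, nc_0, nc0]
  rfl

private lemma nc31 : nc 3 1 = 48 := by
  rw [nc_1, nc_1, nc_1, nc_0, nc_0, nc_0, nc0, nc0]
  rfl

private lemma pr1 : Pr [2, 3, 5] 7 := by
  refine ⟨by decide, ?_, by decide, by decide⟩
  intro p hp
  simp only [List.mem_cons, List.not_mem_nil, or_false] at hp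
  rcases hp with rfl | rfl | rfl | rfl <;> norm_num

private lemma pr2 : Pr [2, 3, 7] 5 := by
  refine ⟨by decide, ?_, by decide, by decide⟩
  intro p hp
  simp only [List.mem_cons, List.not_mem_nil, or_false] at hp
  rcases hp with rfl | rfl | rfl | rfl <;> norm_num

private lemma pr3 : Pr [2, 5, 7] 3 := by
  refine ⟨by decide, ?_, by decide, by decide⟩
  intro p hp
  simp only [List.mem_cons, List.not_mem_nil, or_false] at hp
  rcases hp with rfl | rfl | rfl | rfl <;> norm_num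

private lemma mu_neg (l : List ℕ) (q n : ℕ) (h : ¬ dt l q ∣ n) : mu l q n = 0 := by
  unfold mu
  exact if_neg h

private lemma fin_eq (n D : ℕ) (hD : D ∣ n)
    (h : ∀ r, r.Prime → r ∣ n → ¬ (r * D ∣ n)) : n = D := by
  obtain ⟨k, hk⟩ := hD
  by_cases h1 : k = 1
  · rw [hk, h1, mul_one]
  · obtain ⟨r, hr, hrk⟩ := Nat.exists_prime_and_dvd h1
    exact absurd (by rw [hk, mul_comm r D]; exact Nat.mul_dvd_mul_left D hrk)
      (h r hr (by rw [hk]; exact hrk.mul_left D))

end GMu5Aux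

open GMu5Aux in
theorem pMu5 (hMuK : S_MuK) (hKmn : S_Kmn) (hGrw : S_Grw) : S_Mu5 := by
  intro n hn
  have d1 : dt [2, 3, 5] 7 = 420 := rfl
  have d2 : dt [2, 3, 7] 5 = 420 := rfl
  have d3 : dt [2, 5, 7] 3 = 420 := rfl
  by_cases hd : 420 ∣ n
  swap
  · rw [mu_neg _ _ _ (by rw [d1]; exact hd), mu_neg _ _ _ (by rw [d2]; exact hd),
      mu_neg _ _ _ (by rw [d3]; exact hd)]
    norm_num
  have h4 : n.factorization 2 ≠ 1 := by
    intro h
    have h5 : 2 ^ 2 ∣ n := Dvd.dvd.trans (by norm_num) hd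
    have h6 := (Nat.prime_two.pow_dvd_iff_le_factorization hn.ne').1 h5
    omega
  obtain ⟨T, hT⟩ : ∃ T : Finset ℕ, T = {2, 3, 5, 7} := ⟨_, rfl⟩
  have hT1 : T = (7 :: [2, 3, 5]).toFinset := by rw [hT]; decide
  have hT2 : T = (5 :: [2, 3, 7]).toFinset := by rw [hT]; decide
  have hT3 : T = (3 :: [2, 5, 7]).toFinset := by rw [hT]; decide
  obtain ⟨L, hL⟩ : ∃ L : Finset ℕ,
      L = (n.primeFactors \ T).filter (fun s => s ≠ 2 ∨ n.factorization 2 ≠ 1) := ⟨_, rfl⟩
  obtain ⟨a1, a2, -, a4, a5⟩ := hMuK [2, 3, 5] 7 n pr1 hn (by rw [d1]; exact hd) T L hT1 hL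
  obtain ⟨-, -, -, b4, b5⟩ := hMuK [2, 3, 7] 5 n pr2 hn (by rw [d2]; exact hd) T L hT2 hL
  obtain ⟨-, -, -, c4, c5⟩ := hMuK [2, 5, 7] 3 n pr3 hn (by rw [d3]; exact hd) T L hT3 hL
  rw [if_neg h4] at a4 a5 b4 b5 c4 c5
  have hU : T ∪ L = n.primeFactors := by
    rw [a1]
    exact Finset.filter_true_of_mem fun s _ => Or.inr h4
  have hpr : ∀ s ∈ T ∪ L, s.Prime := fun s hs => by
    rw [hU] at hs
    exact Nat.prime_of_mem_primeFactors hs
  have hcT : T.card = 4 := by rw [hT]; rfl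
  have hcard : (T ∪ L).card = 4 + L.card := by
    rw [Finset.card_union_of_disjoint a2, hcT]
  have hG := (hGrw (fun _ => True) (fun _ _ _ => trivial) 20 3 2 (fun S hS _ hc => by
    have h := (hKmn S hS).2.2.2.2.1 (by omega)
    rw [nc32]
    omega)).1
  have hkT : kp T = 96 := by rw [hT]; rfl
  have hle : L = ∅ ∨ 20 * nc 3 L.card ≤ kp (T ∪ L) := by
    rcases Nat.eq_zero_or_pos L.card with h | h
    · exact Or.inl (Finset.card_eq_zero.1 h)
    · right
      by_cases h1 : L.card = 1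
      · have h2 := (hKmn (T ∪ L) hpr).2.2.2.1 (by omega)
        rw [h1, nc31]
        omega
      · exact (hG L.card (by omega) (T ∪ L) hpr trivial (by omega)).le
  have hKpos : 0 < kp (T ∪ L) := by
    refine Finset.prod_pos fun s hs => ?_
    have h := (hpr s hs).two_le
    unfold kap
    split_ifs
    · norm_num
    · omega
  have hK : (0 : ℚ) < kp (T ∪ L) := by exact_mod_cast hKpos
  -- the number `B`
  obtain ⟨B, hB⟩ : ∃ B : ℚ, B = 12 * nc 3 L.card / kp (T ∪ L) := ⟨_, rfl⟩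
  have e1 : (1 : ℚ) * ((7 : ℕ) - 1) * nc [2, 3, 5].length L.card / kp (T ∪ L) = B / 2 := by
    change (1 : ℚ) * ((7 : ℕ) - 1) * nc 3 L.card / kp (T ∪ L) = B / 2
    rw [hB]
    push_cast
    ring
  have e2 : (1 : ℚ) * ((5 : ℕ) - 1) * nc [2, 3, 7].length L.card / kp (T ∪ L) = B / 3 := by
    change (1 : ℚ) * ((5 : ℕ) - 1) * nc 3 L.card / kp (T ∪ L) = B / 3
    rw [hB]
    push_cast
    ring
  have e3 : (1 : ℚ) * ((3 : ℕ) - 1) * nc [2, 5, 7].length L.card / kp (T ∪ L) = B / 6 := by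
    change (1 : ℚ) * ((3 : ℕ) - 1) * nc 3 L.card / kp (T ∪ L) = B / 6
    rw [hB]
    push_cast
    ring
  rw [e1] at a4 a5
  rw [e2] at b4 b5
  rw [e3] at c4 c5
  have hB0 : L = ∅ → B = 1 := by
    intro h
    rw [hB, h, Finset.union_empty, hkT, Finset.card_empty, nc30]
    norm_num
  have hB1 : L = ∅ ∨ B ≤ 3 / 5 := by
    rcases hle with h | h
    · exact Or.inl h
    · right
      have h1 : (20 : ℚ) * nc 3 L.card ≤ kp (T ∪ L) := by exact_mod_cast h
      rw [hB, div_le_iff₀ hK]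
      linarith
  have hBle : B ≤ 1 := by
    rcases hB1 with h | h
    · exact (hB0 h).le
    · linarith
  refine ⟨by linarith, by linarith, by linarith, fun h => absurd hd h, fun hne => ?_⟩
  rcases hB1 with hL0 | hB1
  swap
  · linarith
  have hB2 := hB0 hL0
  by_contra hcon
  apply hne
  refine fin_eq n 420 hd fun r hr hrn hdv => ?_
  have hrT : r ∈ T := by
    have h3 : r ∈ T ∪ L := by
      rw [hU]
      exact Nat.mem_primeFactors.2 ⟨hr, hrn, hn.ne'⟩
    rwa [hL0, Finset.union_empty] at h3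
  have hrU : r ∈ T ∪ L := Finset.mem_union_left _ hrT
  rw [hT] at hrT
  apply hcon
  simp only [Finset.mem_insert, Finset.mem_singleton] at hrT
  rcases hrT with rfl | rfl | rfl | rfl
  · have h3 := a5 2 hrU (by norm_num) (fun h => absurd rfl h)
      (fun _ => Dvd.dvd.trans (by norm_num) hdv)
    have h5 := b5 2 hrU (by norm_num) (fun h => absurd rfl h)
      (fun _ => Dvd.dvd.trans (by norm_num) hdv)
    have h7 := c5 2 hrU (by norm_num) (fun h => absurd rfl h)
      (fun _ => Dvd.dvd.trans (by norm_num) hdv)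
    push_cast at h3 h5 h7
    linarith
  · have h3 := a5 3 hrU (by norm_num) (fun _ => Dvd.dvd.trans (by norm_num) hdv)
      (fun h => absurd h (by norm_num))
    have h5 := b5 3 hrU (by norm_num) (fun _ => Dvd.dvd.trans (by norm_num) hdv)
      (fun h => absurd h (by norm_num))
    push_cast at h3 h5
    linarith
  · have h3 := a5 5 hrU (by norm_num) (fun _ => Dvd.dvd.trans (by norm_num) hdv)
      (fun h => absurd h (by norm_num))
    have h7 := c5 5 hrU (by norm_num) (fun _ => Dvd.dvd.trans (by norm_num) hdv)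
      (fun h => absurd h (by norm_num))
    push_cast at h3 h7
    linarith
  · have h5 := b5 7 hrU (by norm_num) (fun _ => Dvd.dvd.trans (by norm_num) hdv)
      (fun h => absurd h (by norm_num))
    have h7 := c5 7 hrU (by norm_num) (fun _ => Dvd.dvd.trans (by norm_num) hdv)
      (fun h => absurd h (by norm_num))
    push_cast at h5 h7
    linarith

end Pool.Agent.FO
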