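import Pool.Agent.Lib.MP_640417_ag.GT.PdF

/-!
# The pairs and quadruples of primes for length at most `10`
-/

set_option autoImplicit false

open Finset Pool.Agent.FC

namespace Pool.Agent.FO

/-- length at most `10` -/
theorem pairF10 {m N : ℕ} (hN : N ≤ 10) (h174 : ¬ 174 ∣ m) (h246 : ¬ 246 ∣ m) : PairF m N := by
  intro p q hp hq hpm hqm hpq h24
  have hhq : 2 * hf q + 1 = q := by
    have h3 := hp.two_le
    have h4 := (hq.eq_two_or_odd).resolve_left (by omega)
    unfold hf
    rw [if_neg (by omega)]
    omega
  by_cases hp2 : p = 2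
  · subst hp2
    have h3 : hf 2 = 1 := rfl
    by_cases h14 : hf q < 14
    · exact Or.inl (GPcAux.pair_small hp hq hpq (by omega) (by rw [h3]; omega) fun _ => h14)
    · exact Or.inr ⟨by rw [h3]; omega, fun _ h => absurd rfl h⟩
  · by_cases h20 : hf p * hf q < 20
    · by_cases h29 : p = 3 ∧ q = 29
      · obtain ⟨rfl, rfl⟩ := h29
        have h3 : hf 3 * hf 29 = 14 := rfl
        exact Or.inr ⟨by rw [h3]; omega, fun h2 _ => absurd (by omega) h174⟩
      · exact Or.inl (GPcAux.pair_small hp hq hpq h29 h20 fun h => absurd h hp2)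
    · by_cases h21 : hf p * hf q = 20
      · have hhp : 2 * hf p + 1 = p := by
          have h4 := (hp.eq_two_or_odd).resolve_left hp2
          unfold hf
          rw [if_neg hp2]
          omega
        have hlt : hf p < hf q := by omega
        have hp5 : hf p < 5 := by
          by_contra hcon
          push Not at hcon
          have : 5 * 6 ≤ hf p * hf q := Nat.mul_le_mul hcon (by omega)
          omega
        generalize hf p = x at *
        generalize hf q = y at *
        interval_cases x
        · omega
        · have hy : y = 20 := by omega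
          subst hy
          have hp3 : p = 3 := by omega
          have hq41 : q = 41 := by omega
          subst hp3
          subst hq41
          exact Or.inr ⟨by omega, fun h2 _ => absurd (by omega) h246⟩
        · have hy : y = 10 := by omega
          subst hy
          exfalso
          have hq21 : q = 21 := by omega
          subst hq21
          revert hq
          norm_num
        · omega
        · have hy : y = 5 := by omega
          subst hy
          exfalso
          have hp9 : p = 9 := by omega
          subst hp9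
          revert hp
          norm_num
      · exact Or.inr ⟨by omega, fun _ _ => by omega⟩

/-- four primes with `∏ hf p ≤ 10` -/
theorem quad_small2 (hKmn : S_Kmn) {T : Finset ℕ} (hP : ∀ p ∈ T, p.Prime) (hc : T.card = 4) (h1 : T ≠ {2, 3, 5, 7})
    (h2 : T ≠ {2, 3, 5, 11}) : 10 < ∏ p ∈ T, hf p := by
  by_cases hbig : ∃ c ∈ T, 13 ≤ c
  · obtain ⟨c, hcT, hc13⟩ := hbig
    have hP' : ∀ p ∈ T.erase c, p.Prime := fun p hp => hP p (mem_of_mem_erase hp)
    have h3 := (hKmn (T.erase c) hP').2.1 (by rw [card_erase_of_mem hcT, hc])
    rw [GPcAux.kp_hf hP', card_erase_of_mem hcT, hc] at h3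
    have h4 : 6 ≤ hf c := by
      unfold hf
      rw [if_neg (by omega)]
      omega
    rw [← mul_prod_erase T hf hcT]
    have h5 : 2 ≤ ∏ p ∈ T.erase c, hf p := by omega
    have := Nat.mul_le_mul h4 h5
    omega
  · push Not at hbig
    have h3 : T ∈ powersetCard 4 ({2, 3, 5, 7, 11} : Finset ℕ) := by
      rw [mem_powersetCard]
      refine ⟨fun p hp => ?_, hc⟩
      have h4 := hP p hp
      have h5 := hbig p hp
      interval_cases p <;> first | (exfalso; revert h4; norm_num; done) | simp
    have h6 : ∀ S ∈ powersetCard 4 ({2, 3, 5, 7, 11} : Finset ℕ), S ≠ {2, 3, 5, 7} → S ≠ {2, 3, 5, 11} →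
        10 < ∏ p ∈ S, hf p := by decide +kernel
    exact h6 T h3 h1 h2

/-- length at most `10` -/
theorem quadF10 (hKmn : S_Kmn) {m N : ℕ} (hN : N ≤ 10) (h420 : ¬ 420 ∣ m) (h660 : ¬ 660 ∣ m) : QuadF m N := by
  intro T hTm hc h24
  right
  have hP : ∀ p ∈ T, p.Prime := fun p hp => Nat.prime_of_mem_primeFactors (hTm hp)
  have k1 := (GPcAux.quad_small hKmn hP hc).1
  have hd : ∀ p ∈ T, p ∣ m := fun p hp => Nat.dvd_of_mem_primeFactors (hTm hp)
  have h7 : T ≠ {2, 3, 5, 7} := by
    rintro rfl
    have h2 := h24 (by simp)
    have h3 := hd 3 (by simp)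
    have h5 := hd 5 (by simp)
    have h7 := hd 7 (by simp)
    exact h420 (by omega)
  have h11 : T ≠ {2, 3, 5, 11} := by
    rintro rfl
    have h2 := h24 (by simp)
    have h3 := hd 3 (by simp)
    have h5 := hd 5 (by simp)
    have h7 := hd 11 (by simp)
    exact h660 (by omega)
  have h1 := quad_small2 hKmn hP hc h7 h11
  exact ⟨by omega, fun _ h => by have := k1 h; omega⟩

end Pool.Agent.FO
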