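import Pool.Agent.Lib.MP_640417_ag.GT.SpecS

/-!
# Theorem GT, part S: the weight inequality
-/

set_option autoImplicit false

noncomputable section

open Finset Pool.Agent.FC

namespace Pool.Agent.FO

namespace GRbAux

private theorem pr1 : Pr [2, 3, 5] 7 := by
  refine ⟨by decide, ?_, by decide, by decide⟩
  intro p hp
  simp only [List.mem_cons, List.not_mem_nil, or_false] at hp
  rcases hp with rfl | rfl | rfl | rfl <;> norm_num

private theorem pr3 : Pr [2, 5, 7] 3 := by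
  refine ⟨by decide, ?_, by decide, by decide⟩
  intro p hp
  simp only [List.mem_cons, List.not_mem_nil, or_false] at hp
  rcases hp with rfl | rfl | rfl | rfl <;> norm_num

private theorem tot_pos (m : ℕ) [NeZero m] : (0 : ℚ) < (m.totient : ℚ) := by
  exact_mod_cast Nat.totient_pos.2 (Nat.pos_of_ne_zero (NeZero.ne m))

/-- the order of `t x` -/
private theorem ord_unit {m : ℕ} [NeZero m] (t : (ZMod m)ˣ) (x : ZMod m) :
    addOrderOf ((t : ZMod m) * x) = addOrderOf x := by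
  have h : Function.Injective (AddMonoidHom.mulLeft (t : ZMod m)) := fun a b hab =>
    (Units.mul_right_inj t).1 hab
  exact addOrderOf_injective (AddMonoidHom.mulLeft (t : ZMod m)) h x

/-- the mean of the values of `lam` -/
private theorem mt_lam (hLamAv : S_LamAv) (l : List ℕ) (q m : ℕ) [NeZero m] (h : Pr l q) (a : ZMod m) :
    mt (fun x => (lam l q x : ℚ)) a ≤ mu l q (addOrderOf a) := by
  obtain ⟨h1, h2⟩ := hLamAv l q m h a
  have hn : 0 < addOrderOf a := addOrderOf_pos a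
  have hφ : (0 : ℚ) < ((addOrderOf a).totient : ℚ) := by
    exact_mod_cast Nat.totient_pos.2 hn
  have hm := tot_pos m
  have he : ∑ t : (ZMod m)ˣ, |((lam l q ((t : ZMod m) * a) : ℤ) : ℚ)| =
      ((∑ t : (ZMod m)ˣ, |lam l q ((t : ZMod m) * a)| : ℤ) : ℚ) := by
    push_cast
    rfl
  unfold mt mu
  rw [he, div_le_iff₀ hm]
  by_cases hd : dt l q ∣ addOrderOf a
  · rw [if_pos hd, div_mul_eq_mul_div, le_div_iff₀ hφ]
    have h4 : ((((addOrderOf a).totient : ℤ) * ∑ t : (ZMod m)ˣ, |lam l q ((t : ZMod m) * a)| : ℤ) : ℚ) ≤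
        ((m.totient * cs l q (addOrderOf a) : ℤ) : ℚ) := by exact_mod_cast h1
    rw [Int.cast_mul] at h4
    rw [mul_comm]
    refine h4.trans_eq ?_
    push_cast
    ring
  · rw [if_neg hd, zero_mul]
    have h3 : ∑ t : (ZMod m)ˣ, |lam l q ((t : ZMod m) * a)| = 0 :=
      Finset.sum_eq_zero fun t _ => by rw [h2 hd t, abs_zero]
    rw [h3, Int.cast_zero]

private theorem mt_congr {m : ℕ} [NeZero m] (f g : ZMod m → ℚ) (x : ZMod m)
    (h : ∀ t : (ZMod m)ˣ, |f ((t : ZMod m) * x)| = |g ((t : ZMod m) * x)|) : mt f x = mt g x := by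
  unfold mt
  rw [Finset.sum_congr rfl fun t _ => h t]

private theorem mt_le {m : ℕ} [NeZero m] (f : ZMod m → ℚ) (x : ZMod m) (c : ℚ)
    (h : ∀ t : (ZMod m)ˣ, |f ((t : ZMod m) * x)| ≤ c) : mt f x ≤ c := by
  have hm := tot_pos m
  unfold mt
  rw [div_le_iff₀ hm]
  have h1 := Finset.sum_le_sum (s := (univ : Finset (ZMod m)ˣ)) fun t _ => h t
  rw [Finset.sum_const, Finset.card_univ, ZMod.card_units_eq_totient, nsmul_eq_mul] at h1
  linarith

private theorem mt_add {m : ℕ} [NeZero m] (f g : ZMod m → ℚ) (x : ZMod m) :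
    mt (fun y => f y + g y) x ≤ mt f x + mt g x := by
  have hm := tot_pos m
  unfold mt
  rw [← add_div, ← Finset.sum_add_distrib]
  exact div_le_div_of_nonneg_right (Finset.sum_le_sum fun t _ => abs_add_le _ _) hm.le

private theorem mt_nonneg {m : ℕ} [NeZero m] (f : ZMod m → ℚ) (x : ZMod m) : 0 ≤ mt f x := by
  unfold mt
  exact div_nonneg (Finset.sum_nonneg fun t _ => abs_nonneg _) (tot_pos m).le

/-- an element of order `gcd(n, 420)` -/
private theorem ex_y {m : ℕ} [NeZero m] (x : ZMod m) :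
    ∃ y : ZMod m, addOrderOf y = Nat.gcd (addOrderOf x) 420 := by
  have h0 : 0 < addOrderOf x := addOrderOf_pos x
  obtain ⟨k, hk⟩ := Nat.gcd_dvd_left (addOrderOf x) 420
  have hk0 : k ≠ 0 := by
    rintro rfl
    omega
  refine ⟨k • x, ?_⟩
  have hkd : k ∣ addOrderOf x := ⟨_, hk.trans (mul_comm _ _)⟩
  rw [addOrderOf_nsmul_of_dvd hk0 hkd]
  exact Nat.div_eq_of_eq_mul_left (Nat.pos_of_ne_zero hk0) hk

end GRbAux

open GRbAux in
theorem pRb (hLamB : S_LamB) (hLamAv : S_LamAv) (hMu5 : S_Mu5) (hF7 : S_F7) (hF3 : S_F3) (hKc : S_Kc)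
    (hKd : S_Kd) : S_Rb := by
  intro m _ hm x
  obtain ⟨n, hn⟩ : ∃ n : ℕ, n = addOrderOf x := ⟨_, rfl⟩
  have hn0 : 0 < n := by
    rw [hn]
    exact addOrderOf_pos x
  obtain ⟨hM7, hM5, hM3, hM0, hMs⟩ := hMu5 n hn0
  -- values of the Stickelberger sums
  have hV7 : ∀ z : ZMod m, addOrderOf z ∣ 420 → (addOrderOf z = 420 → SN c7 z = -lam [2, 3, 5] 7 z) ∧
      (addOrderOf z ≠ 420 → addOrderOf z ≠ 60 → SN c7 z = 0) ∧ (addOrderOf z = 60 → |SN c7 z| ≤ 3) := by
    intro z hz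
    obtain ⟨y, hy1, hy2, hy3⟩ := hKd m hm z hz
    obtain ⟨h1, h2, h3⟩ := hF7 y
    rw [hy1, hy2, hy3] at h1
    rw [hy1, hy3] at h2 h3
    exact ⟨h1, h2, h3⟩
  have hV3 : ∀ z : ZMod m, addOrderOf z ∣ 420 → (addOrderOf z = 420 → SN c3 z = -lam [2, 5, 7] 3 z) ∧
      (addOrderOf z ≠ 420 → addOrderOf z ≠ 140 → SN c3 z = 0) ∧ (addOrderOf z = 140 → |SN c3 z| ≤ 1) := by
    intro z hz
    obtain ⟨y, hy1, hy2, hy3⟩ := hKd m hm z hz
    obtain ⟨h1, h2, h3⟩ := hF3 y
    rw [hy1, hy2, hy3] at h1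
    rw [hy1, hy3] at h2 h3
    exact ⟨h1, h2, h3⟩
  -- means at elements whose order divides `420`
  have hA : ∀ y : ZMod m, addOrderOf y = 420 → mt (SN c7) y ≤ 1 / 2 ∧ mt (SN c3) y ≤ 1 / 6 := by
    intro y hy
    obtain ⟨hN7, -, hN3, -⟩ := hMu5 420 (by norm_num)
    constructor
    · rw [mt_congr (SN c7) (fun x => (lam [2, 3, 5] 7 x : ℚ)) y fun t => ?_]
      · refine (mt_lam hLamAv [2, 3, 5] 7 m pr1 y).trans ?_
        rw [hy]
        exact hN7
      · rw [((hV7 _ (by rw [ord_unit, hy])).1 (by rw [ord_unit, hy])), abs_neg]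
    · rw [mt_congr (SN c3) (fun x => (lam [2, 5, 7] 3 x : ℚ)) y fun t => ?_]
      · refine (mt_lam hLamAv [2, 5, 7] 3 m pr3 y).trans ?_
        rw [hy]
        exact hN3
      · rw [((hV3 _ (by rw [ord_unit, hy])).1 (by rw [ord_unit, hy])), abs_neg]
  have hB7 : ∀ y : ZMod m, addOrderOf y ∣ 420 → addOrderOf y ≠ 420 → addOrderOf y ≠ 60 → mt (SN c7) y = 0 := by
    intro y hy h1 h2
    refine le_antisymm (mt_le _ _ _ fun t => ?_) (mt_nonneg _ _)
    rw [(hV7 _ (by rw [ord_unit]; exact hy)).2.1 (by rw [ord_unit]; exact h1) (by rw [ord_unit]; exact h2),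
      abs_zero]
  have hB3 : ∀ y : ZMod m, addOrderOf y ∣ 420 → addOrderOf y ≠ 420 → addOrderOf y ≠ 140 → mt (SN c3) y = 0 := by
    intro y hy h1 h2
    refine le_antisymm (mt_le _ _ _ fun t => ?_) (mt_nonneg _ _)
    rw [(hV3 _ (by rw [ord_unit]; exact hy)).2.1 (by rw [ord_unit]; exact h1) (by rw [ord_unit]; exact h2),
      abs_zero]
  have hB : ∀ y : ZMod m, addOrderOf y ∣ 420 → addOrderOf y ≠ 420 →
      mt (SN c7) y / 3 + mt (SN c3) y ≤ 1 ∧
      (mt (SN c7) y / 3 + mt (SN c3) y = 1 → addOrderOf y = 60 ∨ addOrderOf y = 140) := by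
    intro y hy h1
    by_cases h60 : addOrderOf y = 60
    · rw [hB3 y hy h1 (by rw [h60]; norm_num)]
      have h3 : mt (SN c7) y ≤ 3 := mt_le _ _ _ fun t =>
        (hV7 _ (by rw [ord_unit]; exact hy)).2.2 (by rw [ord_unit]; exact h60)
      exact ⟨by linarith, fun _ => Or.inl h60⟩
    · by_cases h140 : addOrderOf y = 140
      · rw [hB7 y hy h1 h60]
        have h3 : mt (SN c3) y ≤ 1 := mt_le _ _ _ fun t =>
          (hV3 _ (by rw [ord_unit]; exact hy)).2.2 (by rw [ord_unit]; exact h140)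
        exact ⟨by linarith, fun _ => Or.inr h140⟩
      · rw [hB7 y hy h1 h60, hB3 y hy h1 h140]
        refine ⟨by norm_num, fun h => ?_⟩
        norm_num at h
  rw [← hn]
  by_cases h420 : n = 420
  · -- (a)
    have hx7 : mt f7 x = 0 := by
      refine le_antisymm (mt_le _ _ _ fun t => ?_) (mt_nonneg _ _)
      unfold f7
      rw [(hV7 _ (by rw [ord_unit, ← hn, h420])).1 (by rw [ord_unit, ← hn, h420]), add_neg_cancel, abs_zero]
    have hx3 : mt f3 x = 0 := by
      refine le_antisymm (mt_le _ _ _ fun t => ?_) (mt_nonneg _ _)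
      unfold f3
      rw [(hV3 _ (by rw [ord_unit, ← hn, h420])).1 (by rw [ord_unit, ← hn, h420]), add_neg_cancel, abs_zero]
    rw [hx7, hx3]
    exact ⟨by linarith, fun _ => Or.inl h420⟩
  · obtain ⟨y, hy⟩ := ex_y x
    rw [← hn] at hy
    obtain ⟨hc7, hc7'⟩ := hKc c7 m hm x y (by rw [← hn]; exact hy)
    obtain ⟨hc3, hc3'⟩ := hKc c3 m hm x y (by rw [← hn]; exact hy)
    rw [← hn] at hc7' hc3'
    by_cases hd : 420 ∣ n
    · -- (b)
      have hnd : ¬ n ∣ 420 := fun h => h420 (Nat.dvd_antisymm h hd)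
      have hy2 : addOrderOf y = 420 := by
        rw [hy]
        exact Nat.gcd_eq_right hd
      obtain ⟨hA7, hA3⟩ := hA y hy2
      have h7 : mt f7 x ≤ mu [2, 3, 5] 7 n + mt (SN c7) x := by
        refine (mt_add (fun x => (lam [2, 3, 5] 7 x : ℚ)) (SN c7) x).trans ?_
        have := mt_lam hLamAv [2, 3, 5] 7 m pr1 x
        rw [← hn] at this
        linarith
      have h3 : mt f3 x ≤ mu [2, 5, 7] 3 n + mt (SN c3) x := by
        refine (mt_add (fun x => (lam [2, 5, 7] 3 x : ℚ)) (SN c3) x).trans ?_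
        have := mt_lam hLamAv [2, 5, 7] 3 m pr3 x
        rw [← hn] at this
        linarith
      have h1 := hc7' hnd
      have h2 := hc3' hnd
      have h4 := hMs h420
      have h5 : (2 * mu [2, 3, 5] 7 n + 3 * mu [2, 3, 7] 5 n + 6 * mu [2, 5, 7] 3 n) / 3 + mt f7 x / 3 +
          mt f3 x < 1 := by linarith
      exact ⟨h5.le, fun h => absurd h h5.ne⟩
    · -- (c)
      obtain ⟨z7, z5, z3⟩ := hM0 hd
      have hg : addOrderOf y ∣ 420 := by
        rw [hy]
        exact Nat.gcd_dvd_right _ _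
      have hg' : addOrderOf y ≠ 420 := by
        rw [hy]
        intro h
        exact hd (h ▸ Nat.gcd_dvd_left n 420)
      have e7 : mt f7 x = mt (SN c7) x := by
        refine mt_congr _ _ x fun t => ?_
        have hl := (hLamAv [2, 3, 5] 7 m pr1 x).2 (by rw [← hn]; exact hd) t
        unfold f7
        rw [hl, Int.cast_zero, zero_add]
      have e3 : mt f3 x = mt (SN c3) x := by
        refine mt_congr _ _ x fun t => ?_
        have hl := (hLamAv [2, 5, 7] 3 m pr3 x).2 (by rw [← hn]; exact hd) t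
        unfold f3
        rw [hl, Int.cast_zero, zero_add]
      rw [z7, z5, z3, e7, e3]
      have hBy := hB y hg hg'
      by_cases hnd : n ∣ 420
      · have hxo : addOrderOf x ∣ 420 := by
          rw [← hn]
          exact hnd
        have hxo' : addOrderOf x ≠ 420 := by
          rw [← hn]
          exact h420
        obtain ⟨h1, h2⟩ := hB x hxo hxo'
        refine ⟨by linarith, fun h => ?_⟩
        rw [hn]
        exact Or.inr (h2 (by linarith))
      · have h1 := hc7' hnd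
        have h2 := hc3' hnd
        have h5 : (2 * (0 : ℚ) + 3 * 0 + 6 * 0) / 3 + mt (SN c7) x / 3 + mt (SN c3) x < 1 := by
          linarith [hBy.1]
        exact ⟨h5.le, fun h => absurd h h5.ne⟩

end Pool.Agent.FO
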