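import Pool.Agent.Lib.MP_640417_ag.GT.MainT
import Pool.Agent.Lib.MP_640417_ag.GT.GT8
import Pool.Agent.Lib.MP_640417_ag.GT.Nm10
import Pool.Agent.Lib.MP_640417_ag.GT.Mu4
import Pool.Agent.Lib.MP_640417_ag.GT.Bd4
import Pool.Agent.Lib.MP_640417_ag.GT.BC4
import Pool.Agent.Lib.MP_640417_ag.GT.Mu5
import Pool.Agent.Lib.MP_640417_ag.GT.F7
import Pool.Agent.Lib.MP_640417_ag.GT.F3
import Pool.Agent.Lib.MP_640417_ag.GT.F2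
import Pool.Agent.Lib.MP_640417_ag.GT.Ku
import Pool.Agent.Lib.MP_640417_ag.GT.Kb
import Pool.Agent.Lib.MP_640417_ag.GT.Kc
import Pool.Agent.Lib.MP_640417_ag.GT.Kd
import Pool.Agent.Lib.MP_640417_ag.GT.Rb
import Pool.Agent.Lib.MP_640417_ag.GT.BC5

/-! # Theorem FermatDegrees: final form, length at most 8 for all levels -/

set_option autoImplicit false

open Finset Pool.Agent.FC

namespace Pool.Agent.FO

theorem gMu4 : S_Mu4 := pMu4 gMuK gKmn gGrw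
theorem gBd4 : S_Bd4 := pBd4 gUpsB gUpsL gLamB
theorem gBC4 : S_BC4 := pBC4 gLamB gTuL gEqM gLow gMu4 gBd4
theorem gMu5 : S_Mu5 := pMu5 gMuK gKmn gGrw
theorem gF7 : S_F7 := pF7 gUpsB
theorem gF3 : S_F3 := pF3 gUpsB
theorem gF2 : S_F2 := pF2 gUpsB gLamB
theorem gKu : S_Ku := pKu
theorem gKb : S_Kb := pKb gKu
theorem gKc : S_Kc := pKc gKb
theorem gKd : S_Kd := pKd
theorem gRb : S_Rb := pRb gLamB gLamAv gMu5 gF7 gF3 gKc gKd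
theorem gBC5 : S_BC5 := pBC5 gLamB gTuL gEqM gLow gMu5 gRb gF2

/-- **THEOREM FermatDegrees, final form.** -/
theorem main10 (m N : ℕ) [NeZero m] (a : Fin N → ZMod m) (ha : IsTate m a) :
    (∀ (s : ℕ) [NeZero s], (∀ p k : ℕ, p.Prime → p ≤ 6 * N + 1 → p ^ k ≤ (32 * N) ^ (2 * N) → p ^ k ∣ m → p ^ k ∣ s) →
      ∃ (n : ℕ) (b : Fin n → ZMod s), n ≤ N ∧ IsTate s b ∧ clt a - clt b ∈ HD) ∧
    ((∀ p : ℕ, p.Prime → p ∣ m → p = 2 ∨ p % 4 = 3) → clt a ∈ GS) ∧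
    (N ≤ 6 ∧ ¬ 110 ∣ m → clt a ∈ G13) ∧
    (N ≤ 8 ∨ (N ≤ 10 ∧ ∀ d ∈ [174, 246, 420, 660], ¬ d ∣ m) ∨ (N ≤ 12 ∧ ¬ 2 ∣ m) ∨
      (m.primeFactors.card ≤ 3 ∧ ∀ p q : ℕ, p.Prime → q.Prime → p ∣ m → q ∣ m → p < q → Ex p q) → clt a ∈ GS ⊔ G13) ∧
    ((N < 30 ∧ ¬ 2 ∣ m) ∨ m.primeFactors.card ≤ 3 → clt a ∈ GC) := by
  obtain ⟨h1, h2, h3⟩ := pBrg hSzBas m N a ha
  obtain ⟨k1, k2, k3, -, k5⟩ := main9 m N a ha
  obtain ⟨-, l2, -, -, l5⟩ := main6 m N a ha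
  refine ⟨k1, k2, k3, ?_, k5⟩
  rintro (h | ⟨h, hd⟩ | ⟨h, hm⟩ | ⟨h, hp⟩)
  · exact GF3_le (pGT8 gMx gNcR gKmn gGrw gInA gGT gCrN gChN gBC4 gBC5 m (gGdL.1 m) (Fin N) a (by simpa using h) h1 h3)
  · exact GF3_le (l2 (pairF10 h (hd _ (by simp)) (hd _ (by simp))) (quadF10 gKmn h (hd _ (by simp)) (hd _ (by simp))))
  · exact GF3_le (l5 h hm)
  · exact GF3_le (l2 (fun p q hp1 hq1 hpm hqm hpq _ => Or.inl (hp p q hp1 hq1 hpm hqm hpq)) (quad3 h))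

end Pool.Agent.FO
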