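import Pool.Agent.Lib.MP_640417_ag.GT.MainU

/-! # Theorem FermatDegrees: one class of order two for every prime `1` modulo `4` -/

set_option autoImplicit false

open Finset Pool.Agent.FC

namespace Pool.Agent.FO

namespace GMainVAux

open GPdCAux GDaBAux

/-- the function with `das = g - g(-)` -/
noncomputable def gd (D p q : ℕ) (x : ZMod D) : ℤ := if das D p q x = 1 then 1 else 0

theorem gd_zero {D p q : ℕ} [NeZero D] (hp : p.Prime) (hq : q.Prime) (hpq : p ≠ q) (hD : c4 p * c4 q ∣ D) :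
    gd D p q 0 = 0 := by
  have hodd := (pDaB D p q hp hq hpq hD).1
  have h0 : das D p q 0 = 0 := by
    have := hodd 0
    rw [neg_zero] at this
    omega
  unfold gd
  rw [h0, if_neg zero_ne_one]

theorem gd_sub {D p q : ℕ} [NeZero D] (hp : p.Prime) (hq : q.Prime) (hpq : p ≠ q) (hD : c4 p * c4 q ∣ D) (x : ZMod D) :
    das D p q x = gd D p q x - gd D p q (-x) := by
  have hodd := (pDaB D p q hp hq hpq hD).1
  unfold gd
  rw [hodd x]
  rcases das_val (p := p) (q := q) x with h | h | h <;> rw [h] <;> norm_num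

theorem cl_gd {D p q : ℕ} [NeZero D] (hp : p.Prime) (hq : q.Prime) (hpq : p ≠ q) (hq2 : q ≠ 2) (hD : D = c4 p * c4 q) :
    cl (gd D p q) = dsum (c4 p) p q := by
  have hcq : c4 q = q := by unfold c4; rw [if_neg hq2]
  have hDe : c4 p * q = D := by
    rw [hD, hcq]
  unfold dsum
  rw [hDe]
  unfold cl
  rw [GPdCAux.sum_range]
  have hsub : dset (c4 p) p q ⊆ range D := by
    unfold dset
    rw [hDe]
    exact filter_subset _ _
  rw [← sum_subset hsub]
  · refine sum_congr rfl fun k hk => ?_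
    have hkD := mem_range.1 (hsub hk)
    unfold gd
    rw [if_pos ((das_one hp hq hpq hq2 hD k hkD).2 hk)]
    unfold Pool.Agent.FT.pt
    rw [ZMod.toAddCircle_natCast]
  · intro k hk hkn
    unfold gd
    rw [if_neg fun h => hkn ((das_one hp hq hpq hq2 hD k (mem_range.1 hk)).1 h), Finsupp.single_zero]

/-- twice the class of a pair of primes is in `HD` -/
theorem two_dsum {p q : ℕ} (hp : p.Prime) (hq : q.Prime) (hpq : p ≠ q) (hq2 : q ≠ 2) : 2 • dsum (c4 p) p q ∈ HD := by
  have hP3 := c4_ge hp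
  have hQ3 := c4_ge hq
  obtain ⟨D, hD⟩ : ∃ D, D = c4 p * c4 q := ⟨_, rfl⟩
  have : NeZero D := ⟨by rw [hD]; positivity⟩
  have hdvd : c4 p * c4 q ∣ D := by rw [hD]
  obtain ⟨h1, h2, h3⟩ := pDaB D p q hp hq hpq hdvd
  have h4 : Rl (das D p q) := gDaR D p q hp hq hpq hdvd
  have hdT : dT {p, q} = D := by
    rw [hD]
    exact prod_pair hpq
  have hI : InA HD (fun x => 2 * das D p q x) := by
    refine gGT D HD (fun _ => False) (gdHD D) _ (fun x => by rw [h1 x]; ring) (fun t => ?_) ?_
    · have h5 := h4 t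
      unfold P at h5 ⊢
      calc ∑ x, (((2 * das D p q x : ℤ)) : ℚ) * sz ((t : ZMod D) * x) =
            2 * ∑ x, ((das D p q x : ℤ) : ℚ) * sz ((t : ZMod D) * x) := by
              rw [mul_sum]
              refine sum_congr rfl fun x _ => ?_
              push_cast
              ring
        _ = 0 := by rw [h5, mul_zero]
    · intro T hT _
      obtain ⟨hT1, hT2, hT3, hT4⟩ := hT
      have hTsub : T ⊆ {p, q} := by
        intro r hr
        have hrp := Nat.prime_of_mem_primeFactors (hT1 hr)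
        have hrD := Nat.dvd_of_mem_primeFactors (hT1 hr)
        rw [hD] at hrD
        have hc : ∀ s : ℕ, s.Prime → r ∣ c4 s → r = s := by
          intro s hs h
          unfold c4 at h
          split_ifs at h with h2
          · rw [h2]
            have h6 : r ∣ 2 ^ 2 := by norm_num; exact h
            exact (Nat.prime_dvd_prime_iff_eq hrp Nat.prime_two).1 (hrp.dvd_of_dvd_pow h6)
          · exact (Nat.prime_dvd_prime_iff_eq hrp hs).1 h
        rcases (Nat.Prime.dvd_mul hrp).1 hrD with h | h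
        · rw [hc p hp h]
          exact mem_insert_self _ _
        · rw [hc q hq h]
          exact mem_insert_of_mem (mem_singleton_self _)
      have hTe : T = {p, q} := by
        refine eq_of_subset_of_card_le hTsub ?_
        have := hT3.card_pos
        rw [card_pair hpq]
        omega
      have hPr : Pr [p] q := by
        refine ⟨?_, ?_, hq2, by simp⟩
        · simp only [List.nodup_cons, List.mem_singleton, List.not_mem_nil, not_false_eq_true, List.nodup_nil, and_true]
          exact fun h => hpq h.symm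
        · intro r hr
          simp only [List.mem_cons, List.not_mem_nil, or_false] at hr
          rcases hr with rfl | rfl
          · exact hq
          · exact hp
      have hdt : D = dt [p] q := by
        rw [hD]
        unfold dt c4
        rw [if_neg hq2]
        simp only [List.map_cons, List.map_nil, List.prod_cons, List.prod_nil, mul_one]
        exact mul_comm _ _
      obtain ⟨z0, -, hz0⟩ := gFod D [p] q D hPr hdt dvd_rfl (das D p q) h1 h4 (fun x hx => hdT ▸ h2 x hx)
        (h3 D hdT.symm)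
      refine ⟨q, [p], 1, hPr, fun r => ?_, fun z hz => ⟨z0, ?_⟩⟩
      · rw [hTe]
        simp only [List.mem_cons, List.not_mem_nil, or_false, mem_insert, mem_singleton]
        exact or_comm
      · have hq1 : ((q : ℤ) - 1) ≠ 0 := by
          have := hq.one_lt
          have h2 : (1 : ℤ) < q := by exact_mod_cast this
          linarith
        apply mul_left_cancel₀ hq1
        rw [← hz]
        calc ∑ x, 2 * das D p q x * lam [p] q (((1 : (ZMod D)ˣ) : ZMod D) * x) = 2 * ∑ x, das D p q x * lam [p] q x := by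
              rw [mul_sum]
              refine sum_congr rfl fun x _ => ?_
              rw [Units.val_one, one_mul, mul_assoc]
          _ = ((q : ℤ) - 1) * (2 * z0) := by
              rw [hz0]
              ring
  have h5 := (gInA D HD le_rfl (fun x => 2 * gd D p q x) (fun x => 2 * gd D p q x)).2.2.2
    (by rw [gd_zero hp hq hpq hdvd, mul_zero]) (by
      refine (congrArg (InA HD) (funext fun x => ?_)).mp hI
      rw [gd_sub hp hq hpq hdvd x]
      ring)
  have h6 : cl (fun x => 2 * gd D p q x) = 2 • cl (gd D p q) := by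
    unfold cl
    rw [smul_sum]
    refine sum_congr rfl fun x _ => ?_
    rw [Finsupp.smul_single]
    congr 1
  rw [← cl_gd hp hq hpq hq2 hD, ← h6]
  exact h5

/-- the data for the pair `{s, q}` -/
theorem pdOf {A : AddSubgroup (UnitAddCircle →₀ ℤ)} (hA : GS ≤ A) {s q : ℕ} (hs : s.Prime) (hq : q.Prime) (hsq : s ≠ q)
    (hq2 : q ≠ 2) (h : dsum (c4 s) s q ∈ A) : Pd A s q := by
  intro m _ hE
  have hm : c4 s * c4 q ∣ m := by
    have h1 := GPdCAux.dT_dvd m _ hE
    unfold dT at h1
    rw [prod_pair hsq] at h1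
    exact h1
  obtain ⟨h1, h2, h3⟩ := pDaB m s q hs hq hsq hm
  have hP3 := c4_ge hs
  have hQ3 := c4_ge hq
  have : NeZero (c4 s * c4 q) := ⟨by positivity⟩
  refine ⟨das m s q, ?_, h1, gDaR m s q hs hq hsq hm, h2, h3⟩
  refine gDaI (c4 s * c4 q) m s q A hs hq hsq dvd_rfl hm ((le_sup_left : HD ≤ GS).trans hA) ?_
  exact ⟨gd (c4 s * c4 q) s q, gd_zero hs hq hsq dvd_rfl, gd_sub hs hq hsq dvd_rfl, by rw [cl_gd hs hq hsq hq2 rfl]; exact h⟩

/-- the classes `c q` -/
theorem ex_c (q : ℕ) : ∃ c : UnitAddCircle →₀ ℤ, 2 • c ∈ HD ∧ (q.Prime → q % 4 = 1 →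
    ∃ s : ℕ, s.Prime ∧ (s = 2 ∨ s % 4 = 3) ∧ ¬ sm q s ∧
      ∀ A : AddSubgroup (UnitAddCircle →₀ ℤ), GS ≤ A → c ∈ A → Pd A s q) := by
  by_cases h : q.Prime ∧ q % 4 = 1
  · obtain ⟨hq, h4⟩ := h
    obtain ⟨s, hs, hs4, hn⟩ := (gDch q hq h4).1
    have hsq : s ≠ q := by
      rintro rfl
      omega
    have hq2 : q ≠ 2 := by
      rintro rfl
      omega
    exact ⟨dsum (c4 s) s q, two_dsum hs hq hsq hq2, fun _ _ => ⟨s, hs, Or.inr hs4, hn, fun A hA hc =>
      pdOf hA hs hq hsq hq2 hc⟩⟩
  · exact ⟨0, by rw [smul_zero]; exact zero_mem _, fun h1 h2 => absurd ⟨h1, h2⟩ h⟩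

end GMainVAux

open GMainVAux GPcAux in
/-- **One class of order two for every prime `1` modulo `4`.** -/
theorem main11 : ∃ c : ℕ → UnitAddCircle →₀ ℤ, (∀ q, 2 • c q ∈ HD) ∧ ∀ (m N : ℕ) [NeZero m] (a : Fin N → ZMod m), IsTate m a →
    (N < 30 ∧ ¬ 2 ∣ m) ∨ m.primeFactors.card ≤ 3 →
      clt a ∈ GS ⊔ AddSubgroup.closure {f | ∃ q : ℕ, q.Prime ∧ q ∣ m ∧ q % 4 = 1 ∧ f = c q} := by
  choose c hc1 hc2 using ex_c
  refine ⟨c, hc1, fun m N _ a ha h => ?_⟩
  obtain ⟨h1, h2, h3⟩ := pBrg hSzBas m N a ha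
  have hQ : QuadF m N := by
    rcases h with ⟨hN, hm2⟩ | h
    · exact quadF29 gKmn hN hm2
    · exact quad3 h
  set A := GS ⊔ AddSubgroup.closure {f | ∃ q : ℕ, q.Prime ∧ q ∣ m ∧ q % 4 = 1 ∧ f = c q} with hA
  have hGA : GS ≤ A := le_sup_left
  have hG : GdA m A (AlG fun p => (p.Prime ∧ p ∣ m) ∨ p = 2 ∨ p % 4 = 3) := by
    refine gGdR A _ hGA (fun p hp => ?_) m
    by_cases h34 : p = 2 ∨ p % 4 = 3
    · exact Or.inl h34
    · obtain ⟨hpp, hpm⟩ := hp.resolve_right h34
      have hp4 : p % 4 = 1 := by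
        rcases hpp.eq_two_or_odd with h | h
        · exact absurd (Or.inl h) h34
        · rcases (show p % 4 = 3 ∨ p % 4 = 1 by omega) with h4 | h4
          · exact absurd (Or.inr h4) h34
          · exact h4
      obtain ⟨s, hs, hs4, hn, hPd⟩ := hc2 p hpp hp4
      exact Or.inr ⟨hp4, s, hs, hs4, hn, hPd A hGA (AddSubgroup.mem_sup_right (AddSubgroup.subset_closure
        ⟨p, hpp, hpm, hp4, rfl⟩))⟩
  refine gGTt m N A _ hG ?_ (Fin N) a (by simp) h1 h3
  intro T hT hTA
  have hT' : ¬ AlG Nat.Prime T := by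
    rintro (h | ⟨p, q, hpq, rfl, h⟩)
    · exact hTA (Or.inl h)
    · have hpm : p ∣ m := Nat.dvd_of_mem_primeFactors (hT.1 (mem_insert_self _ _))
      have hqm : q ∣ m := Nat.dvd_of_mem_primeFactors (hT.1 (mem_insert_of_mem (mem_singleton_self _)))
      refine hTA (Or.inr ⟨p, q, hpq, rfl, ?_⟩)
      rcases h with ⟨h1, h2⟩ | h
      · exact Or.inl ⟨Or.inl ⟨h1, hpm⟩, Or.inl ⟨h2, hqm⟩⟩
      · exact Or.inr h
  exact gCrN m N T hT ((condGC gMx gNcR gKmn hQ T hT).resolve_left hT')

end Pool.Agent.FO
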