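import Pool.Agent.Lib.MP_640417_ag.GT.PdF

/-!
# Theorem GT: the numerical condition for length at most 8, all levels
-/

set_option autoImplicit false

open Finset Pool.Agent.FC

namespace Pool.Agent.FO

namespace GNm8Aux

theorem nb0 : nb 0 = 1 := by rw [nb_eq]; rfl

theorem nb1 : nb 1 = 2 := by
  rw [nb_eq, Finset.sum_range_one, nb0]
  rfl

theorem nc_succ (k l : ℕ) : nc (k + 1) l = 2 * ∑ j ∈ range (l + 1), l.choose j * nb j * nc k (l - j) := rfl

theorem nc0 (l : ℕ) : nc 0 l = if l = 0 then 1 else 0 := rfl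

theorem nc1' (l : ℕ) : nc 1 l = 2 * nb l := by
  rw [show (1 : ℕ) = 0 + 1 from rfl, nc_succ, Finset.sum_range_succ]
  rw [Finset.sum_eq_zero, Nat.choose_self, Nat.sub_self, nc0, if_pos rfl]
  · ring
  · intro j hj
    have := Finset.mem_range.1 hj
    rw [nc0, if_neg (by omega), mul_zero]

theorem ncz (k : ℕ) : nc (k + 1) 0 = 2 * nc k 0 := by
  rw [nc_succ, Finset.sum_range_one, nb0]
  simp

theorem nc20 : nc 2 0 = 4 := by
  rw [ncz, nc1', nb0]

theorem nc21 : nc 2 1 = 16 := by
  rw [show (2 : ℕ) = 1 + 1 from rfl, nc_succ, Finset.sum_range_succ, Finset.sum_range_one,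
    nc1', nc1', nb0, nb1]
  rfl

theorem nc30 : nc 3 0 = 8 := by
  rw [ncz, nc20]

theorem nc31 : nc 3 1 = 48 := by
  rw [show (3 : ℕ) = 2 + 1 from rfl, nc_succ, Finset.sum_range_succ, Finset.sum_range_one,
    nb0, nb1, nc21, show 1 - 1 = 0 from rfl, nc20]
  rfl

theorem nc50 : nc 5 0 = 32 := by
  rw [ncz, ncz, nc30]

end GNm8Aux

open GPcAux GNm8Aux

/-- **The sets of primes for length at most 8.** -/
theorem num8 (hMx : S_Mx) (hNcR : S_NcR) (hKmn : S_Kmn) (hGrw : S_Grw) {m N : ℕ} (hN : N ≤ 8) (T : Finset ℕ)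
    (hT : Ess m T) (hA : ¬ AlF T) (h29 : T ≠ {3, 29}) (h2357 : T ≠ {2, 3, 5, 7}) : Crt m N T := by
  obtain ⟨hT1, hT2, hT3, hT4⟩ := id hT
  have hTp : ∀ s ∈ T, s.Prime := fun s hs => Nat.prime_of_mem_primeFactors (hT1 hs)
  obtain ⟨c, hc⟩ := hT4
  have hc0 : 0 < c := by
    have := hT3.card_pos
    omega
  by_cases hc1 : c = 1
  · subst hc1
    have h2 : T.card = 2 := by omega
    obtain ⟨p, hp, q, hq, hpq⟩ := two_lt (show 2 ≤ T.card by omega)
    have hTe : T = {p, q} := by
      symm
      refine eq_of_subset_of_card_le ?_ ?_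
      · intro y hy
        rw [mem_insert, mem_singleton] at hy
        rcases hy with rfl | rfl
        · exact hp
        · exact hq
      · rw [h2, card_pair hpq.ne]
    have hE : ¬ Ex p q := fun h => hA (Or.inr ⟨p, q, hpq, hTe, h⟩)
    have h29' : ¬ (p = 3 ∧ q = 29) := by
      rintro ⟨rfl, rfl⟩
      exact h29 hTe
    have hk : kp T = 4 * (hf p * hf q) := by
      rw [kp_hf hTp, h2, hTe, prod_pair hpq.ne]
      norm_num
    refine crt_two hMx hNcR hKmn hTp h2 ?_
    rw [hk]
    by_cases hp2 : p = 2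
    · have h14 : ¬ hf q < 14 := by
        intro h
        subst hp2
        have h3 : hf 2 = 1 := rfl
        exact hE (pair_small (hTp 2 hp) (hTp q hq) hpq h29' (by rw [h3]; omega) fun _ => h)
      subst hp2
      have h3 : hf 2 = 1 := rfl
      rw [h3]
      exact ⟨by omega, fun _ h => absurd hp h⟩
    · have h20 : ¬ hf p * hf q < 20 := fun h =>
        hE (pair_small (hTp p hp) (hTp q hq) hpq h29' h fun h => absurd h hp2)
      exact ⟨by omega, fun _ _ => by omega⟩
  obtain ⟨-, -, -, -, -, kT6, -⟩ := hKmn T hTp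
  refine ⟨?_, ?_⟩
  · intro L hL hd h2L
    have hLp : ∀ s ∈ L, s.Prime := fun s hs => Nat.prime_of_mem_primeFactors (hL hs)
    have hUp : ∀ s ∈ T ∪ L, s.Prime := by
      intro s hs
      rcases Finset.mem_union.1 hs with h | h
      · exact hTp s h
      · exact hLp s h
    have hUc : (T ∪ L).card = T.card + L.card := Finset.card_union_of_disjoint hd
    suffices h : 16 * nc (T.card - 1) L.card < kp (T ∪ L) from
      lt_of_le_of_lt (Nat.mul_le_mul_right _ (by omega)) h
    rcases (show c = 2 ∨ 3 ≤ c by omega) with h | h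
    · subst h
      rw [show T.card - 1 = 3 by omega]
      rcases (show L.card = 0 ∨ 1 ≤ L.card by omega) with h | h
      · rw [h, nc30, Finset.card_eq_zero.1 h, Finset.union_empty]
        have := kT6 (by omega) h2357
        omega
      · refine (hGrw (fun _ => True) (fun _ _ _ => trivial) 16 3 1 ?_).1 L.card h (T ∪ L) hUp
          trivial (by omega)
        intro S hS _ hSc
        have := (hKmn S hS).2.2.2.1 (by omega)
        rw [nc31]
        omega
    · have h1 := (hGrw (fun _ => True) (fun _ _ _ => trivial) 16 5 0 (by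
        intro S hS _ hSc
        have := (hKmn S hS).2.2.2.2.1 (by omega)
        rw [nc50]
        omega)).2 rfl (c - 3) L.card (T ∪ L) hUp trivial (by omega)
      rwa [show 5 + 2 * (c - 3) = T.card - 1 by omega] at h1
  · intro h2m h2T L hL hd
    have hLp : ∀ s ∈ L, s.Prime :=
      fun s hs => Nat.prime_of_mem_primeFactors (Finset.mem_of_mem_erase (hL hs))
    have h2L : 2 ∉ L := fun h => (Finset.mem_erase.1 (hL h)).1 rfl
    have hUp : ∀ s ∈ T ∪ L, s.Prime := by
      intro s hs
      rcases Finset.mem_union.1 hs with h | h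
      · exact hTp s h
      · exact hLp s h
    have h2U : 2 ∉ T ∪ L := by
      rw [Finset.mem_union]
      tauto
    have hUc : (T ∪ L).card = T.card + L.card := Finset.card_union_of_disjoint hd
    have hR : ∀ (S : Finset ℕ) (p : ℕ), 2 ∉ S → 2 ∉ S.erase p :=
      fun S p h h' => h (Finset.mem_of_mem_erase h')
    suffices h : 32 * nc (T.card - 1) L.card < kp (T ∪ L) from
      lt_of_le_of_lt (Nat.mul_le_mul_right _ (by omega)) h
    have h1 := (hGrw (fun S => 2 ∉ S) hR 32 3 0 (by
      intro S hS h2S hSc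
      have := ((hKmn S hS).2.2.2.2.2.2.2.2 h2S).2.2.1 (by omega)
      rw [nc30]
      omega)).2 rfl (c - 2) L.card (T ∪ L) hUp h2U (by omega)
    rwa [show 3 + 2 * (c - 2) = T.card - 1 by omega] at h1

end Pool.Agent.FO
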