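import Pool.Agent.Lib.MP_640417_ag.GT.SpecK

/-!
# Theorem GT: the numerical condition from a condition on pairs of primes
-/

set_option autoImplicit false

open Finset Pool.Agent.FC

namespace Pool.Agent.FO

namespace GPcAux

theorem kap_hf {p : ℕ} (hp : p.Prime) : kap p = 2 * hf p := by
  unfold kap hf
  split_ifs with h
  · rfl
  · have h1 := (hp.eq_two_or_odd).resolve_left h
    omega

theorem one_le_hf {p : ℕ} (hp : p.Prime) : 1 ≤ hf p := by
  unfold hf
  split_ifs with h
  · exact le_rfl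
  · have h1 := (hp.eq_two_or_odd).resolve_left h
    have h2 := hp.two_le
    omega

theorem kp_hf {S : Finset ℕ} (hS : ∀ s ∈ S, s.Prime) : kp S = 2 ^ S.card * ∏ s ∈ S, hf s := by
  unfold kp
  rw [← Finset.prod_const, ← Finset.prod_mul_distrib]
  exact Finset.prod_congr rfl fun s hs => kap_hf (hS s hs)

theorem kp_erase {S : Finset ℕ} {p : ℕ} (h : p ∈ S) : kap p * kp (S.erase p) = kp S :=
  Finset.mul_prod_erase S kap h

theorem nb0 : nb 0 = 1 := by
  rw [nb_eq]
  rfl

theorem nb1 : nb 1 = 2 := by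
  rw [nb_eq 1, sum_range_one, nb0]
  rfl

theorem nb2 : nb 2 = 6 := by
  rw [nb_eq 2, sum_range_succ, sum_range_one, nb0, nb1]
  rfl

theorem nb3 : nb 3 = 26 := by
  rw [nb_eq 3, sum_range_succ, sum_range_succ, sum_range_one, nb0, nb1, nb2]
  rfl

theorem nb4 : nb 4 = 150 := by
  rw [nb_eq 4, sum_range_succ, sum_range_succ, sum_range_succ, sum_range_one, nb0, nb1, nb2, nb3]
  rfl

theorem ncs (k l : ℕ) : nc (k + 1) l = 2 * ∑ j ∈ range (l + 1), l.choose j * nb j * nc k (l - j) := rfl

theorem nc_zero (k : ℕ) : nc k 0 = 2 ^ k := by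
  induction k with
  | zero => rfl
  | succ k ih =>
    rw [ncs, zero_add, sum_range_one, nb0]
    change 2 * (1 * 1 * nc k 0) = _
    rw [ih]
    ring

theorem nc_one (l : ℕ) : nc 1 l = 2 * nb l := by
  rw [ncs, sum_eq_single_of_mem l (self_mem_range_succ l)]
  · change 2 * (l.choose l * nb l * (if l - l = 0 then 1 else 0)) = _
    rw [Nat.choose_self, Nat.sub_self, if_pos rfl]
    ring
  · intro j hj hjl
    rw [mem_range] at hj
    change l.choose j * nb j * (if l - j = 0 then 1 else 0) = 0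
    rw [if_neg (by omega)]
    ring

/-- the largest element of a set of odd primes with `n` elements is at least `2 n + 1` -/
theorem mx1 (hMx : S_Mx) {L : Finset ℕ} (hL : ∀ s ∈ L, s.Prime) (h2 : 2 ∉ L) {p : ℕ} (hp : p ∈ L) (hm : ∀ s ∈ L, s ≤ p) :
    2 * L.card ≤ kap p := by
  have h1 := (hMx (insert 2 L) p ?_ (mem_insert_of_mem hp) ?_).1
  · rw [card_insert_of_notMem h2] at h1
    exact h1
  · intro s hs
    rcases mem_insert.1 hs with rfl | hs
    · exact Nat.prime_two
    · exact hL s hs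
  · intro s hs
    rcases mem_insert.1 hs with rfl | hs
    · exact (hL p hp).two_le
    · exact hm s hs

/-- … and at least `2 n + 3` if `4 ≤ n` -/
theorem mx2 (hMx : S_Mx) {L : Finset ℕ} (hL : ∀ s ∈ L, s.Prime) (h2 : 2 ∉ L) {p : ℕ} (hp : p ∈ L) (hm : ∀ s ∈ L, s ≤ p)
    (h4 : 4 ≤ L.card) : 2 * (L.card + 1) ≤ kap p := by
  have h1 := (hMx L p hL hp hm).2.2.2.2.2 h2 |>.2.2.1 h4
  have hp2 : p ≠ 2 := fun h => h2 (h ▸ hp)
  have hpo := ((hL p hp).eq_two_or_odd).resolve_left hp2
  have hk : kap p = p - 1 := by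
    unfold kap
    rw [if_neg hp2]
  rw [hk] at h1 ⊢
  have h9 : (9 : ℕ) ∈ (range ((p - 1) / 2)).image fun i => 2 * i + 3 := by
    rw [mem_image]
    exact ⟨3, mem_range.2 (by omega), rfl⟩
  have hsub : L ⊆ ((range ((p - 1) / 2)).image fun i => 2 * i + 3).erase 9 := by
    intro s hs
    have h5 := hL s hs
    have h6 := hm s hs
    have h7 : s ≠ 2 := fun h => h2 (h ▸ hs)
    have h8 := (h5.eq_two_or_odd).resolve_left h7
    have h10 := h5.two_le
    rw [mem_erase]
    refine ⟨?_, ?_⟩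
    · rintro rfl
      exact absurd h5 (by norm_num)
    · rw [mem_image]
      exact ⟨(s - 3) / 2, mem_range.2 (by omega), by omega⟩
  have h3 := card_le_card hsub
  rw [card_erase_of_mem h9] at h3
  have h5 : ((range ((p - 1) / 2)).image fun i => 2 * i + 3).card ≤ (p - 1) / 2 := card_image_le.trans (by rw [card_range])
  omega

/-- sets of odd primes, first bound -/
theorem nc1 (hMx : S_Mx) (hNcR : S_NcR) (l : ℕ) : ∀ L : Finset ℕ, (∀ s ∈ L, s.Prime) → 2 ∉ L → L.card = l → nc 1 l ≤ 2 * kp L := by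
  induction l with
  | zero =>
    intro L _ _ hc
    rw [nc_zero, card_eq_zero.1 hc]
    exact le_rfl
  | succ l ih =>
    intro L hL h2 hc
    have hne : L.Nonempty := by
      rw [← card_pos, hc]
      omega
    have hp := L.max'_mem hne
    have h1 := mx1 hMx hL h2 hp fun s hs => L.le_max' s hs
    have h3 := ih (L.erase (L.max' hne)) (fun s hs => hL s (mem_of_mem_erase hs)) (fun h => h2 (mem_of_mem_erase h))
      (by rw [card_erase_of_mem hp, hc]; rfl)
    have h4 := hNcR.2 1 l
    rw [hc] at h1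
    rw [← kp_erase hp]
    calc nc 1 (l + 1) ≤ 2 * (l + 1) * nc 1 l := h4
      _ ≤ kap (L.max' hne) * (2 * kp (L.erase (L.max' hne))) := Nat.mul_le_mul h1 h3
      _ = 2 * (kap (L.max' hne) * kp (L.erase (L.max' hne))) := by ring

/-- sets of odd primes, second bound -/
theorem nc2 (hMx : S_Mx) (hNcR : S_NcR) (hKmn : S_Kmn) (l : ℕ) :
    ∀ L : Finset ℕ, (∀ s ∈ L, s.Prime) → 2 ∉ L → L.card = l → nc 1 (l + 1) ≤ 8 * kp L := by
  have hb : ∀ L : Finset ℕ, (∀ s ∈ L, s.Prime) → 2 ∉ L → L.card ≤ 3 → nc 1 (L.card + 1) ≤ 8 * kp L := by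
    intro L hL h2 hc
    obtain ⟨-, -, -, -, -, -, -, k1, k2⟩ := hKmn L hL
    obtain ⟨k3, k4, -⟩ := k2 h2
    rw [nc_one]
    have h : L.card = 0 ∨ L.card = 1 ∨ L.card = 2 ∨ L.card = 3 := by omega
    rcases h with h | h | h | h
    · rw [h, card_eq_zero.1 h, nb1]
      decide
    · have := k1 (by omega)
      rw [h, nb2]
      omega
    · have := k3 (by omega)
      rw [h, nb3]
      omega
    · have := k4 (by omega)
      rw [h, nb4]
      omega
  rcases Nat.lt_or_ge l 3 with h | h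
  · intro L hL h2 hc
    have := hb L hL h2 (by omega)
    rwa [hc] at this
  · induction l, h using Nat.le_induction with
    | base =>
      intro L hL h2 hc
      have := hb L hL h2 (by omega)
      rwa [hc] at this
    | succ l hl ih =>
      intro L hL h2 hc
      have hne : L.Nonempty := by
        rw [← card_pos, hc]
        omega
      have hp := L.max'_mem hne
      have h1 := mx2 hMx hL h2 hp (fun s hs => L.le_max' s hs) (by omega)
      have h3 := ih (L.erase (L.max' hne)) (fun s hs => hL s (mem_of_mem_erase hs)) (fun h => h2 (mem_of_mem_erase h))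
        (by rw [card_erase_of_mem hp, hc]; rfl)
      have h4 := hNcR.2 1 (l + 1)
      rw [hc] at h1
      rw [← kp_erase hp]
      calc nc 1 (l + 1 + 1) ≤ 2 * (l + 1 + 1) * nc 1 (l + 1) := h4
        _ ≤ kap (L.max' hne) * (8 * kp (L.erase (L.max' hne))) := Nat.mul_le_mul h1 h3
        _ = 8 * (kap (L.max' hne) * kp (L.erase (L.max' hne))) := by ring

/-- the condition on a set of primes -/
def Cr1 (m N : ℕ) (T : Finset ℕ) : Prop := N < ∏ p ∈ T, hf p ∧ (2 ∣ m → 2 ∉ T → 2 * N < ∏ p ∈ T, hf p)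

theorem kp_union {T L : Finset ℕ} (hd : Disjoint T L) : kp (T ∪ L) = kp T * kp L := prod_union hd

/-- **The condition `Crt` from the simple condition.** -/
theorem crt_of (hMx : S_Mx) (hNcR : S_NcR) (hKmn : S_Kmn) (hGrw : S_Grw) (m N : ℕ) (Al : Finset ℕ → Prop)
    (hAl : ∀ T, Al T → T.card = 2) (h : ∀ T, Ess m T → Al T ∨ Cr1 m N T) (T : Finset ℕ) (hT : Ess m T) (hTA : ¬ Al T) :
    Crt m N T := by
  have h0 : ∀ T, Ess m T → ¬ Al T → N * 2 ^ T.card < kp T ∧ (2 ∣ m → 2 ∉ T → 2 * N * 2 ^ T.card < kp T) := by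
    intro T hT hTA
    obtain ⟨h1, h2⟩ := (h T hT).resolve_left hTA
    have hP : ∀ s ∈ T, s.Prime := fun s hs => Nat.prime_of_mem_primeFactors (hT.1 hs)
    have h3 : 0 < 2 ^ T.card := Nat.pos_of_ne_zero (pow_ne_zero _ two_ne_zero)
    rw [kp_hf hP]
    exact ⟨by rw [mul_comm]; exact Nat.mul_lt_mul_of_pos_left h1 h3,
      fun h4 h5 => by rw [mul_comm]; exact Nat.mul_lt_mul_of_pos_left (h2 h4 h5) h3⟩
  obtain ⟨hTm, hT4, hTn, hTe⟩ := hT
  have hTP : ∀ s ∈ T, s.Prime := fun s hs => Nat.prime_of_mem_primeFactors (hTm hs)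
  have hT0 := h0 T ⟨hTm, hT4, hTn, hTe⟩ hTA
  have hc0 := hTn.card_pos
  obtain ⟨t, ht⟩ := hTe
  rcases Nat.lt_or_ge t 2 with ht2 | ht2
  · have hc : T.card = 2 := by omega
    rw [hc] at hT0
    refine ⟨fun L hL hd hL4 => ?_, fun hm2 hT2 L hL hd => ?_⟩
    · rw [hc, kp_union hd]
      have hLP : ∀ s ∈ L, s.Prime := fun s hs => Nat.prime_of_mem_primeFactors (hL hs)
      change 2 * N * nc 1 L.card < kp T * kp L
      by_cases h2 : 2 ∈ L
      · have hm2 : 2 ∣ m := (by norm_num : (2 : ℕ) ∣ 4).trans (hL4 h2)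
        have hT2 : 2 ∉ T := fun h => disjoint_left.1 hd h h2
        have h3 := hT0.2 hm2 hT2
        have h4 := nc2 hMx hNcR hKmn _ (L.erase 2) (fun s hs => hLP s (mem_of_mem_erase hs)) (notMem_erase 2 L) rfl
        have h5 : (L.erase 2).card + 1 = L.card := card_erase_add_one h2
        rw [h5] at h4
        have h6 : 0 < kp (L.erase 2) := by
          rw [kp_hf fun s hs => hLP s (mem_of_mem_erase hs)]
          refine Nat.mul_pos (Nat.pos_of_ne_zero (pow_ne_zero _ two_ne_zero)) (prod_pos fun s hs => ?_)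
          exact one_le_hf (hLP s (mem_of_mem_erase hs))
        have h7 : kap 2 = 2 := rfl
        rw [← kp_erase h2, h7]
        calc 2 * N * nc 1 L.card ≤ 2 * N * (8 * kp (L.erase 2)) := Nat.mul_le_mul_left _ h4
          _ = (2 * N * 2 ^ 2) * (2 * kp (L.erase 2)) := by ring
          _ < kp T * (2 * kp (L.erase 2)) := Nat.mul_lt_mul_of_pos_right h3 (by omega)
      · have h4 := nc1 hMx hNcR _ L hLP h2 rfl
        have h6 : 0 < kp L := by
          rw [kp_hf hLP]
          exact Nat.mul_pos (Nat.pos_of_ne_zero (pow_ne_zero _ two_ne_zero)) (prod_pos fun s hs => one_le_hf (hLP s hs))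
        calc 2 * N * nc 1 L.card ≤ 2 * N * (2 * kp L) := Nat.mul_le_mul_left _ h4
          _ = (N * 2 ^ 2) * kp L := by ring
          _ < kp T * kp L := Nat.mul_lt_mul_of_pos_right hT0.1 h6
    · rw [hc, kp_union hd]
      have hLP : ∀ s ∈ L, s.Prime := fun s hs => Nat.prime_of_mem_primeFactors (mem_of_mem_erase (hL hs))
      have h2 : 2 ∉ L := fun h => absurd (hL h) (notMem_erase 2 _)
      have h4 := nc1 hMx hNcR _ L hLP h2 rfl
      have h6 : 0 < kp L := by
        rw [kp_hf hLP]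
        exact Nat.mul_pos (Nat.pos_of_ne_zero (pow_ne_zero _ two_ne_zero)) (prod_pos fun s hs => one_le_hf (hLP s hs))
      change 4 * N * nc 1 L.card < kp T * kp L
      calc 4 * N * nc 1 L.card ≤ 4 * N * (2 * kp L) := Nat.mul_le_mul_left _ h4
        _ = (2 * N * 2 ^ 2) * kp L := by ring
        _ < kp T * kp L := Nat.mul_lt_mul_of_pos_right (hT0.2 hm2 hT2) h6
  · obtain ⟨k, hk⟩ : ∃ k, T.card = k + 1 := ⟨T.card - 1, by omega⟩
    have hkk : T.card - 1 = k := by omega
    refine ⟨fun L hL hd hL4 => ?_, fun hm2 hT2 L hL hd => ?_⟩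
    · rw [hkk]
      refine (hGrw (fun S => S ⊆ m.primeFactors ∧ (2 ∈ S → 4 ∣ m)) ?_ (2 * N) k 0 ?_).1 L.card (Nat.zero_le _) (T ∪ L) ?_ ?_ ?_
      · intro S p hS
        exact ⟨(erase_subset _ _).trans hS.1, fun h => hS.2 (mem_of_mem_erase h)⟩
      · intro S _ hS hSc
        have h1 : Ess m S := ⟨hS.1, hS.2, card_pos.1 (by omega), ⟨t, by omega⟩⟩
        have h3 := (h0 S h1 fun hA => by have := hAl S hA; omega).1
        rw [nc_zero]
        calc 2 * N * 2 ^ k = N * 2 ^ S.card := by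
              rw [hSc]
              ring
          _ < kp S := h3
      · intro s hs
        rcases mem_union.1 hs with hs | hs
        · exact hTP s hs
        · exact Nat.prime_of_mem_primeFactors (hL hs)
      · refine ⟨union_subset hTm hL, fun h => ?_⟩
        rcases mem_union.1 h with h | h
        · exact hT4 h
        · exact hL4 h
      · rw [card_union_of_disjoint hd, hk]
    · rw [hkk]
      refine (hGrw (fun S => S ⊆ m.primeFactors ∧ 2 ∉ S) ?_ (4 * N) k 0 ?_).1 L.card (Nat.zero_le _) (T ∪ L) ?_ ?_ ?_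
      · intro S p hS
        exact ⟨(erase_subset _ _).trans hS.1, fun h => hS.2 (mem_of_mem_erase h)⟩
      · intro S _ hS hSc
        have h1 : Ess m S := ⟨hS.1, fun h => absurd h hS.2, card_pos.1 (by omega), ⟨t, by omega⟩⟩
        have h3 := (h0 S h1 fun hA => by have := hAl S hA; omega).2 hm2 hS.2
        rw [nc_zero]
        calc 4 * N * 2 ^ k = 2 * N * 2 ^ S.card := by
              rw [hSc]
              ring
          _ < kp S := h3
      · intro s hs
        rcases mem_union.1 hs with hs | hs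
        · exact hTP s hs
        · exact Nat.prime_of_mem_primeFactors (mem_of_mem_erase (hL hs))
      · refine ⟨union_subset hTm (hL.trans (erase_subset _ _)), fun h => ?_⟩
        rcases mem_union.1 h with h | h
        · exact hT2 h
        · exact absurd (hL h) (notMem_erase 2 _)
      · rw [card_union_of_disjoint hd, hk]

end GPcAux

end Pool.Agent.FO
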