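import Pool.Agent.Lib.MP_640417_ag.GT.MainK
import Pool.Agent.Lib.MP_640417_ag.GT.DefsQ

/-!
# Theorem QR: all Tate characters of the levels whose odd prime factors are `3` modulo `4`

Every `S_X : Prop` is to be proved as `theorem pX : S_X` or from the stated hypotheses. The facts proved in `GT/MainI.lean`, `GT/MainK.lean`
(`gEn`, `gInA`, `gGTt`, `gCbB`, `gLamB`, `hEl`, `hHoBas`, ...), and `pDist`, `pEl`, ... may be used directly. For a set `S` of primes `dT S` is the product of the `c4 p`, `p ∈ S`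
(`c4 p = p`, `c4 2 = 4`). `T34 T`: the elements of `T` are primes, `2` or `3` modulo `4`.

PLAN. `sqi m d` is the indicator function of the set `X_S` of the elements `(m / d) v²`, `v` prime to `d = dT S`, `Aq m S` its odd part, `β_S(t) = P (Aq m S) t` (Stickelberger's function). For `p ∈ S`, `e_p = -1` modulo `c4 p` and `1` modulo the other `c4 u`:
`β_S(t) + β_S(t e_p) = β_{S - p}(t) - β_{S - p}(t ∏_{u ∈ nr p} e_u)`, where `nr p` is the set of the `u` such that `p` is not a square modulo `c4 u` (module `Bt`). The recursion `Rz` then gives functions with `β`-function `0` for all sets with an even number of elements (module `RzV`).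
-/

set_option autoImplicit false

noncomputable section

namespace Pool.Agent.FO

open Finset Pool.Agent.FC

/-! ## Definitions -/

/-- the elements of `T` are primes, `2` or `3` modulo `4` -/
def T34 (T : Finset ℕ) : Prop := ∀ p ∈ T, p.Prime ∧ (p = 2 ∨ p % 4 = 3)

/-- `p`, and `4` for `p = 2` -/
def c4 (p : ℕ) : ℕ := if p = 2 then 4 else p

/-- `w` is a square modulo `c4 u` -/
def sm (u : ℕ) (w : ℤ) : Prop := IsSquare ((w : ℤ) : ZMod (c4 u))

/-- the indicator function of the set of the elements `(m / d) v²`, `v` prime to `d` -/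
def sqi (m d : ℕ) (x : ZMod m) : ℤ := by
  classical
  exact if ∃ v : ℕ, v.Coprime d ∧ x = ((m / d : ℕ) : ZMod m) * (v : ZMod m) ^ 2 then 1 else 0

/-- its odd part, for the level `dT S` -/
def Aq (m : ℕ) (S : Finset ℕ) (x : ZMod m) : ℤ := sqi m (dT S) x - sqi m (dT S) (-x)

/-- the `u ∈ T`, `u ≠ p`, for which `p` is not a square modulo `c4 u` -/
def nr (T : Finset ℕ) (p : ℕ) : Finset ℕ := by
  classical
  exact T.filter fun u => u ≠ p ∧ ¬ sm u p

/-- `1` if `U ∩ n p` has an odd number of elements for all `p ∈ S \ U`, otherwise `0` -/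
def kq (n : ℕ → Finset ℕ) (S U : Finset ℕ) : ℤ := if ∀ p ∈ S \ U, ¬ 2 ∣ (U ∩ n p).card then 1 else 0

/-- `Rz n A S = A S - ∑_{U ⊂ S} kq n S U • Rz n A U` -/
def Rz {M : Type} [AddCommGroup M] (n : ℕ → Finset ℕ) (A : Finset ℕ → M) (S : Finset ℕ) : M :=
  A S - ∑ U ∈ S.ssubsets.attach, kq n S U.1 • Rz n A U.1
termination_by S.card
decreasing_by exact Finset.card_lt_card (Finset.mem_ssubsets.1 U.2)

theorem Rz_eq {M : Type} [AddCommGroup M] (n : ℕ → Finset ℕ) (A : Finset ℕ → M) (S : Finset ℕ) :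
    Rz n A S = A S - ∑ U ∈ S.ssubsets, kq n S U • Rz n A U := by
  rw [Rz]
  congr 1
  exact Finset.sum_attach S.ssubsets fun U => kq n S U • Rz n A U

/-- the units `e p`, `p ∈ T`, are `-1` modulo `c4 p` and `1` modulo the other `c4 u` -/
def IsE (m : ℕ) (T : Finset ℕ) (e : ℕ → (ZMod m)ˣ) : Prop :=
  ∀ p ∈ T, ∃ E : ℤ, ((E : ℤ) : ZMod m) = (e p : ZMod m) ∧ ((c4 p : ℕ) : ℤ) ∣ E + 1 ∧ ∀ u ∈ T, u ≠ p → ((c4 u : ℕ) : ℤ) ∣ E - 1

/-- the set of the elements `x` with `sqi m (dT S) x = 1` -/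
def Xs (m : ℕ) [NeZero m] (S : Finset ℕ) : Finset (ZMod m) := univ.filter fun x => sqi m (dT S) x = 1

/-- sets in `pl`, the pair `5, 11`, and sets of primes which are `2` or `3` modulo `4` -/
def Al15 (T : Finset ℕ) : Prop := T ∈ pl ∨ T = {5, 11} ∨ T34 T

/-! ## The recursion -/

/-- **Basics.**  (1) Additive maps: strong induction on `S` (`Finset.strongInduction`), `Rz_eq`, `map_sub`, `map_sum`, `map_zsmul`. (2) Subgroups: strong induction. (3) If `A U x = 0` for all `U ⊆ S`, `U ≠ S`, then the value of `Rz n A S` at `x` is `A S x` (functions; first show by strong induction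
`Rz n A U x = 0` for `U ⊂ S`). -/
def S_RzB : Prop :=
  (∀ (M M' : Type) [AddCommGroup M] [AddCommGroup M'] (L : M →+ M') (n : ℕ → Finset ℕ) (A : Finset ℕ → M) (S : Finset ℕ),
    L (Rz n A S) = Rz n (fun U => L (A U)) S) ∧
  (∀ (M : Type) [AddCommGroup M] (B : AddSubgroup M) (n : ℕ → Finset ℕ) (A : Finset ℕ → M) (S : Finset ℕ),
    (∀ U ⊆ S, A U ∈ B) → Rz n A S ∈ B) ∧
  (∀ (X : Type) (n : ℕ → Finset ℕ) (A : Finset ℕ → X → ℤ) (S : Finset ℕ) (x : X), (∀ U ⊂ S, A U x = 0) →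
    Rz n A S x = A S x)

/-- **Vanishing.**  Put `φ S = Rz n β S`. CLAIM, by strong induction on `S ⊆ T`: (i) `φ S (g * e p) = -φ S g` for `p ∈ S`; (ii) `φ S (g * e p) = φ S g` for `p ∈ T \ S`.
(ii) follows from the first hypothesis and induction (`Rz_eq`). From (i), (ii) for `U`: (iii) `φ U (g * ∏_{u ∈ A} e u) = (-1)^|U ∩ A| φ U g` for `A ⊆ T` (induction on `A`).
(i): by `Rz_eq` `φ S (g) + φ S (g e_p) = β S (g) + β S (g e_p) - ∑_{U ⊂ S} kq n S U (φ U (g) + φ U (g e_p))`; the terms with `p ∈ U` are `0` by induction, the others are `2 kq n S U φ U (g)`, `U ⊆ S' = S.erase p`. By hypothesis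
`β S (g) + β S (g e_p) = β S' (g) - β S' (g ∏_{u ∈ n p} e_u)`, and `β S' = ∑_{U ⊆ S'} kq n S' U φ U` (`Rz_eq`; `kq n S' S' = 1`), so by (iii) it is `∑_{U ⊆ S'} kq n S' U (1 - (-1)^|U ∩ n p|) φ U (g)`. Finally `2 kq n S U = kq n S' U (1 - (-1)^|U ∩ n p|)` for `U ⊆ S'`, because
`S \ U = insert p (S' \ U)`. CONCLUSION: `|S|` even: by (iii) with `A = T` `φ S (g ∏_T e) = φ S g`; by the last hypothesis (and induction, `Rz_eq`; or `S_RzB` (1)) `φ S (g ∏_T e) = -φ S g`. So `2 φ S g = 0`.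
Hypotheses you may use: `S_RzB`. -/
def S_RzV : Prop := ∀ (Γ : Type) [CommGroup Γ] (T : Finset ℕ) (e : ℕ → Γ) (n : ℕ → Finset ℕ) (β : Finset ℕ → Γ → ℚ),
  (∀ p ∈ T, n p ⊆ T) →
  (∀ S ⊆ T, ∀ p ∈ T, p ∉ S → ∀ g, β S (g * e p) = β S g) →
  (∀ S ⊆ T, ∀ p ∈ S, ∀ g, β S g + β S (g * e p) = β (S.erase p) g - β (S.erase p) (g * ∏ u ∈ n p, e u)) →
  (∀ S ⊆ T, ∀ g, β S (g * ∏ p ∈ T, e p) = -β S g) →
  ∀ S ⊆ T, 2 ∣ S.card → ∀ g, Rz n β S g = 0

/-! ## Squares -/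

/-- **Squares modulo `c4 u`.**  `u = 2`: the units modulo `4` are `1` and `3`, the squares of units `1` (`decide`). `u % 4 = 3`: `ZMod.exists_sq_eq_neg_one_iff` (`-1` is not a square), `quadraticChar` / `legendreSym` is multiplicative and `-1` for the units which are not squares. (3) depends on the class only. -/
def S_Smu : Prop := ∀ u : ℕ, u.Prime → (u = 2 ∨ u % 4 = 3) →
  (∀ w : ℤ, IsCoprime w (u : ℤ) → (sm u (-w) ↔ ¬ sm u w)) ∧
  (∀ w w' : ℤ, IsCoprime w (u : ℤ) → IsCoprime w' (u : ℤ) → (sm u (w * w') ↔ (sm u w ↔ sm u w'))) ∧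
  (∀ w w' : ℤ, ((c4 u : ℕ) : ℤ) ∣ w - w' → (sm u w ↔ sm u w')) ∧ sm u 1

/-- **The elements `(m / d) w`.**  `d = dT S`, a product of pairwise coprime numbers. (1) `dT (S.erase p) * c4 p = dT S` (`Finset.mul_prod_erase`), coprime. (2) `(m / d) w = (m / d) w'` in `ZMod m` if and only if `d ∣ w - w'` (`ZMod.intCast_zmod_eq_zero_iff`, `(ZMod.intCast_zmod_eq_zero_iff_dvd)`; `m ∣ (m / d)(w - w')`). (3) If `w` is prime to `d` then `addOrderOf ((m / d) w) = d`, and every `x` with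
`addOrderOf x = d` is of this form (`pEl`, or directly). (4) `(m / d) w ∈ X_S` if and only if `w` is a square modulo all `c4 u`, `u ∈ S`: if `w = v²` modulo `d` it is a square modulo all `c4 u`; conversely choose `v_u` with `v_u² = w` modulo `c4 u`, the Chinese remainder theorem gives `v` (`ZMod.prodEquivPi`, or induction on `S` with
`Nat.chineseRemainder`; or `Ideal.quotientInfRingEquivPiQuotient`), and `v` is prime to `d` as `w` is. Note `sqi` is `0` or `1`. -/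
def S_SqX : Prop := ∀ (m : ℕ) [NeZero m] (S : Finset ℕ), (∀ p ∈ S, p.Prime) → dT S ∣ m →
  (∀ p ∈ S, dT (S.erase p) * c4 p = dT S ∧ (c4 p).Coprime (dT (S.erase p))) ∧
  (∀ w w' : ℤ, ((m / dT S : ℕ) : ZMod m) * ((w : ℤ) : ZMod m) = ((m / dT S : ℕ) : ZMod m) * ((w' : ℤ) : ZMod m) ↔
    ((dT S : ℕ) : ℤ) ∣ w - w') ∧
  (∀ w : ℤ, IsCoprime w (dT S : ℤ) → addOrderOf (((m / dT S : ℕ) : ZMod m) * ((w : ℤ) : ZMod m)) = dT S) ∧
  (∀ x : ZMod m, addOrderOf x = dT S → ∃ w : ℤ, IsCoprime w (dT S : ℤ) ∧ x = ((m / dT S : ℕ) : ZMod m) * ((w : ℤ) : ZMod m)) ∧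
  (∀ w : ℤ, IsCoprime w (dT S : ℤ) →
    (sqi m (dT S) (((m / dT S : ℕ) : ZMod m) * ((w : ℤ) : ZMod m)) = 1 ↔ ∀ u ∈ S, sm u w)) ∧
  (∀ x : ZMod m, sqi m (dT S) x = 1 → addOrderOf x = dT S)

/-- **The units `e p`.**  `D = dT T ∣ m`; `en D p` (`gEn`, `IsEn`: `p ^ v_p(D) = c4 p`, `c4 u ∣ D / p ^ v_p(D)` for the other `u`), lifted to `(ZMod m)ˣ` (`ZMod.unitsMap_surjective`); `E` is its value `val`, its image in `ZMod D` is `en D p`, so `E - (en D p).val` is divisible by `D`. Or directly by the Chinese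
remainder theorem: `E = -1` modulo `c4 p`, `1` modulo `D / c4 p`, prime to `D`, and `(ZMod m)ˣ → (ZMod D)ˣ` is onto. -/
def S_EuE : Prop := ∀ (m : ℕ) [NeZero m] (T : Finset ℕ), (∀ p ∈ T, p.Prime) → dT T ∣ m → ∃ e : ℕ → (ZMod m)ˣ, IsE m T e

/-- **Action of the units `e p`** on the elements `(m / d) w`, `d = dT S`, `S ⊆ T`. (1) There is an integer `E'` with `(∏_{p ∈ A} e p) (m / d) w = (m / d) (E' w)` for all `w`, `E'` prime to `d`, `E' = -1` modulo `c4 u` for `u ∈ A ∩ S` and `1` for `u ∈ S \ A` (induction on `A`; `E'` is the product of the `E`). (2) `A = T`: `∏ e = -1` on the elements of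
order dividing `dT T`: `d ∣ E' + 1` (the `c4 u` are pairwise coprime: `Finset.prod_dvd_of_coprime`). (3) `p ∉ S`: `e p` fixes the elements `(m / d) w`. -/
def S_EuA : Prop := ∀ (m : ℕ) [NeZero m] (T : Finset ℕ) (e : ℕ → (ZMod m)ˣ), (∀ p ∈ T, p.Prime) → dT T ∣ m → IsE m T e →
  ∀ S ⊆ T,
  (∀ A ⊆ T, ∃ E' : ℤ, IsCoprime E' (dT S : ℤ) ∧ (∀ u ∈ A ∩ S, ((c4 u : ℕ) : ℤ) ∣ E' + 1) ∧ (∀ u ∈ S \ A, ((c4 u : ℕ) : ℤ) ∣ E' - 1) ∧
    ∀ w : ℤ, ((∏ p ∈ A, e p : (ZMod m)ˣ) : ZMod m) * (((m / dT S : ℕ) : ZMod m) * ((w : ℤ) : ZMod m)) =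
      ((m / dT S : ℕ) : ZMod m) * (((E' * w : ℤ)) : ZMod m)) ∧
  (∀ w : ℤ, ((∏ p ∈ T, e p : (ZMod m)ˣ) : ZMod m) * (((m / dT S : ℕ) : ZMod m) * ((w : ℤ) : ZMod m)) =
      -(((m / dT S : ℕ) : ZMod m) * ((w : ℤ) : ZMod m))) ∧
  (∀ p ∈ T, p ∉ S → ∀ w : ℤ, (e p : ZMod m) * (((m / dT S : ℕ) : ZMod m) * ((w : ℤ) : ZMod m)) =
      ((m / dT S : ℕ) : ZMod m) * ((w : ℤ) : ZMod m))

/-! ## Stickelberger's relation -/

/-- **Distribution over the elements of maximal order.**  Let `c = c4 p`. `p ≠ 2`: the solutions of `p x = y` have order `d` or `p d` (`y` has order `d`, `p ∤ d`), and `z` is the only one of order `d` (`x - z` is killed by `p` and `d`); `∑_{p x = y} sz(g x) = sz(g y)` (`pDist`, second part, with `y = p z` and `t = g.val`).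
`p = 2`, `c = 4`: the solutions of `4 x = y` which do not have order `4 d` satisfy `2 x = z`: their order divides `2 d` so `2 x` has order dividing `d` (odd), and `2 (2 x) = y = 2 z`, so `2 x - z` is killed by `2` and `d`; conversely `2 x = z` gives `4 x = y` and the order of `x` divides `2 d`. `pDist` with `p := 4`
(`4 ∣ m`; `y = 4 y'` for a multiple `y'` of `y`: `d` is odd) gives `sz(g y)`, with `p := 2` (`z = 2 z'`) `∑_{2 x = z} sz(g x) = sz(g z)`. -/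
def S_DsU : Prop := ∀ (m p d : ℕ) [NeZero m], p.Prime → (c4 p).Coprime d → c4 p * d ∣ m → ∀ y z : ZMod m,
  addOrderOf y = d → addOrderOf z = d → (p : ZMod m) * z = y → ∀ g : (ZMod m)ˣ,
    ∑ x ∈ univ.filter (fun x : ZMod m => ((c4 p : ℕ) : ZMod m) * x = y ∧ addOrderOf x = c4 p * d), sz ((g : ZMod m) * x) =
      sz ((g : ZMod m) * y) - sz ((g : ZMod m) * z)

/-- **The union of `X_S` and `e_p X_S`.**  Let `S' = S.erase p`, `d = dT S`, `d' = dT S'`. An element of order `d` is `x = (m / d) w`, `w` prime to `d`, and `c4 p * x = (m / d') w`, so `c4 p * x ∈ X_{S'}` if and only if `sm u w` for `u ∈ S'` (`S_SqX`). If `sm p w` then `x ∈ X_S`, otherwise `sm p (-w)` and `(e p) x = (m / d)(E' w) ∈ X_S`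
(`S_EuA` with `A = {p}`; `E' w = -w` modulo `c4 p`, `w` modulo the others; `S_Smu`). So the set on the right is the disjoint union of `X_S` and `e_p X_S` (`e_p` is an injective map on `ZMod m`; `e_p e_p x = x` on these elements).
Hypotheses you may use: `S_Smu`, `S_SqX`, `S_EuA`. -/
def S_XsE : Prop := ∀ (m : ℕ) [NeZero m] (T : Finset ℕ) (e : ℕ → (ZMod m)ˣ), T34 T → dT T ∣ m → IsE m T e →
  ∀ S ⊆ T, ∀ p ∈ S, ∀ F : ZMod m → ℚ,
    ∑ x ∈ Xs m S, F x + ∑ x ∈ Xs m S, F ((e p : ZMod m) * x) =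
      ∑ x ∈ univ.filter (fun x : ZMod m => ((c4 p : ℕ) : ZMod m) * x ∈ Xs m (S.erase p) ∧ addOrderOf x = dT S), F x

/-- **Multiplication by `p`.**  `S' = S.erase p`, `d' = dT S'`, `ε = ∏_{u ∈ nr T p} e u`. Let `x = (m / d') w ∈ X_{S'}`; `ε x = (m / d') (E' w)` (`S_EuA` with `A = nr T p`), `E'` is `-1` modulo `c4 u` for the `u ∈ S'` for which `p` is not a square modulo `c4 u`, and `1` for the other `u ∈ S'`. So `p E'` is a square modulo all `c4 u`, `u ∈ S'` (`S_Smu`; `p` is prime to `u`),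
and `p ε x = (m / d') (p E' w) ∈ X_{S'}` (`S_SqX`). `ε x` has order `d'`. Injective on `X_{S'}`: `d' ∣ p E' (w - w')` and `p E'` is prime to `d'`; so it is a bijection of the finite set `X_{S'}`.
Hypotheses you may use: `S_Smu`, `S_SqX`, `S_EuA`. -/
def S_XsN : Prop := ∀ (m : ℕ) [NeZero m] (T : Finset ℕ) (e : ℕ → (ZMod m)ˣ), T34 T → dT T ∣ m → IsE m T e →
  ∀ S ⊆ T, ∀ p ∈ S,
    (∀ x ∈ Xs m (S.erase p), addOrderOf (((∏ u ∈ nr T p, e u : (ZMod m)ˣ) : ZMod m) * x) = dT (S.erase p) ∧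
      (p : ZMod m) * (((∏ u ∈ nr T p, e u : (ZMod m)ˣ) : ZMod m) * x) ∈ Xs m (S.erase p)) ∧
    (∀ x ∈ Xs m (S.erase p), ∀ x' ∈ Xs m (S.erase p), (p : ZMod m) * (((∏ u ∈ nr T p, e u : (ZMod m)ˣ) : ZMod m) * x) =
      (p : ZMod m) * (((∏ u ∈ nr T p, e u : (ZMod m)ˣ) : ZMod m) * x') → x = x') ∧
    ∀ F : ZMod m → ℚ, ∑ x ∈ Xs m (S.erase p), F ((p : ZMod m) * (((∏ u ∈ nr T p, e u : (ZMod m)ˣ) : ZMod m) * x)) =
      ∑ x ∈ Xs m (S.erase p), F x

/-- **The Stickelberger functions.**  (0) `P (Aq m S) g = 2 ∑_{x ∈ X_S} sz(g x)`: `sqi` is `0` or `1`, `sz` is odd (`hSzBas`), `x ↦ -x`. (1) `p ∉ S`: `e_p x = x` on `X_S` (`S_EuA` (3)). (3) `∏ e = -1` on `X_S` (`S_EuA` (2)). (2) With `S' = S.erase p`, `Y` the set on the right side of `S_XsE`, `ε = ∏_{u ∈ nr T p} e u`: `∑_{X_S} sz(g x) + ∑_{X_S} sz(g e_p x) = ∑_{x ∈ Y} sz(g x)`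
(`S_XsE` with `F = sz(g .)`) `= ∑_{y ∈ X_{S'}} ∑_{c4 p x = y, ord x = d} sz(g x)` (`Finset.sum_fiberwise_of_maps_to`), and by `S_XsN` (3) we may put `y = p ε x'`, `x' ∈ X_{S'}`, `z = ε x'` in `S_DsU`: `∑_{x' ∈ X_{S'}} (sz(g p ε x') - sz(g ε x'))`, and the first sum is `∑_{y ∈ X_{S'}} sz(g y)` by `S_XsN` (3) again.
Hypotheses you may use: `S_SqX`, `S_EuA`, `S_DsU`, `S_XsE`, `S_XsN`. -/
def S_BtR : Prop := ∀ (m : ℕ) [NeZero m] (T : Finset ℕ) (e : ℕ → (ZMod m)ˣ), T34 T → dT T ∣ m → IsE m T e →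
  (∀ S ⊆ T, ∀ p ∈ T, p ∉ S → ∀ g : (ZMod m)ˣ, P (Aq m S) ((g * e p : (ZMod m)ˣ) : ZMod m) = P (Aq m S) (g : ZMod m)) ∧
  (∀ S ⊆ T, ∀ p ∈ S, ∀ g : (ZMod m)ˣ, P (Aq m S) (g : ZMod m) + P (Aq m S) ((g * e p : (ZMod m)ˣ) : ZMod m) =
    P (Aq m (S.erase p)) (g : ZMod m) - P (Aq m (S.erase p)) ((g * ∏ u ∈ nr T p, e u : (ZMod m)ˣ) : ZMod m)) ∧
  (∀ S ⊆ T, ∀ g : (ZMod m)ˣ, P (Aq m S) ((g * ∏ p ∈ T, e p : (ZMod m)ˣ) : ZMod m) = -P (Aq m S) (g : ZMod m))

/-- **Stickelberger's relation.**  `f ↦ (t ↦ P f t)` is additive from `ZMod m → ℤ` to `(ZMod m)ˣ → ℚ`; `S_RzB` (1), `S_EuE`, `S_RzV` with `β S g = P (Aq m S) g`, `n = nr T`, `S_BtR`.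
Hypotheses you may use: `S_RzB`, `S_RzV`, `S_EuE`, `S_BtR`. -/
def S_RlQ : Prop := ∀ (m : ℕ) [NeZero m] (T : Finset ℕ), T34 T → dT T ∣ m → 2 ∣ T.card → Rl (Rz (nr T) (Aq m) T)

/-! ## Parity -/

/-- **Sums over sign changes.**  `D = dT T`, `f u = 1` if `u` is a square modulo all `c4 p`, `p ∈ T`, otherwise `0` (for `u : (ZMod D)ˣ` with representative `u.val`). CLAIM: for a list `l` of different elements of `T` `Cb (en D) l f a = 1` if `sm p a.val` for all `p ∈ T`, `p ∉ l`, and `0` otherwise: induction on `l`; step: `Cb (i :: l) f a = Cb l f a + Cb l f (e_i a)`, `e_i a = -a` modulo `c4 i`, `a` modulo the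
other `c4 p` (`gEn`; `p ^ v_p(D) = c4 p`), and exactly one of `a`, `-a` is a square modulo `c4 i` (`S_Smu`). In particular it is `1` if `l` contains all elements of `T`.
Hypotheses you may use: `S_Smu`. -/
def S_CbQ : Prop := ∀ (T : Finset ℕ), T34 T → ∀ (D : ℕ) [NeZero D], D = dT T → ∀ f : (ZMod D)ˣ → ℤ,
  (∀ u : (ZMod D)ˣ, (∀ p ∈ T, sm p ((u : ZMod D).val : ℤ)) → f u = 1) →
  (∀ u : (ZMod D)ˣ, ¬ (∀ p ∈ T, sm p ((u : ZMod D).val : ℤ)) → f u = 0) →
    ∀ l : List ℕ, l.Nodup → (∀ p, p ∈ l ↔ p ∈ T) → ∀ a, Cb (en D) l f a = 1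

/-- **Parity of the class.**  `F u = f u - f (-u)` with `f` as in `S_CbQ`. Let `l` be a list of the primes of `D` (the elements of `T`), `q ∈ l`, `l' = l.erase q`; `Cs (en D) l' F a` is congruent to `Cb (en D) l' F a` modulo `2` (`gCbB` (8)), which is `Cb l' f a - Cb l' (fun u => f (-u)) a`. `-1 = ∏_{p ∈ l} e_p` (`gEn`), so
`Cb l' (fun u => f (-u)) a = Cb l' f (-a)` (`gCbB` (3)) `= Cb l' f (e_q ∏_{l'} e_p a) = Cb l' f (e_q a)` (`gCbB` (5) for all `p ∈ l'`; `e_p e_p = 1`: `Iv`), and `Cb l' f a + Cb l' f (e_q a) = Cb (q :: l') f a = 1` by `S_CbQ` (`l` is a permutation of `q :: l'`). So `Cb l' F a = 1 - 2 Cb l' f (e_q a)` is odd.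
Hypotheses you may use: `S_CbQ`. -/
def S_OdQ : Prop := ∀ (T : Finset ℕ), T34 T → ∀ (D : ℕ) [NeZero D], D = dT T → ∀ f : (ZMod D)ˣ → ℤ,
  (∀ u : (ZMod D)ˣ, (∀ p ∈ T, sm p ((u : ZMod D).val : ℤ)) → f u = 1) →
  (∀ u : (ZMod D)ˣ, ¬ (∀ p ∈ T, sm p ((u : ZMod D).val : ℤ)) → f u = 0) →
    OdP D fun u => f u - f (-u)

/-! ## The group -/

/-- **Coset sums.**  `d = dT S`, `Lev d` (`e` = product of the odd elements of `S`). `Aq m S x = g x - g (-x)` with `g = sqi m d`, `g 0 = 0` (the elements of `X_S` have order `d > 1`), and `cl g = sqs d`: `k ↦ (m / d) k` is a bijection from `{k < d | k prime to d, k a square mod d}` onto `X_S`, and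
`toAddCircle ((m / d) k) = k / d` (`ZMod.toAddCircle_natCast` or similar, as in the proof of `pGam`, file `FO/Gam.lean`). `S = ∅`: `dT ∅ = 1`, `sqi m 1 x` is the indicator function of `0` (`m / 1 = m = 0` in `ZMod m`), so `Aq m ∅ = 0`.
Hypotheses you may use: `S_SqX`. -/
def S_InQ : Prop := ∀ (m : ℕ) [NeZero m] (S : Finset ℕ), (∀ p ∈ S, p.Prime) → dT S ∣ m → InA GS (Aq m S)

/-- **Sets of primes `2` or `3` modulo `4`.**  `g = Rz (nr T) (Aq m) T`. `Ess m T`: `dT T ∣ m` (`T ⊆ m.primeFactors`, `4 ∣ m` if `2 ∈ T`; the `c4 p` are pairwise coprime). `InA GS g`: the functions with `InA GS` form a subgroup (`gInA`; for `-f` take `-g`), `S_RzB` (2), `S_InQ`. `IsOdd`: `S_RzB` (2) for the subgroup of the odd functions. `Rl g`: `S_RlQ`. Orders: `Aq m U x ≠ 0` implies that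
the order of `x` is `dT U`, a divisor of `dT T` (`S_SqX` (6); `addOrderOf (-x) = addOrderOf x`), `S_RzB` (2). Parity: for `u : (ZMod D)ˣ`, `D = dT T`, `x = el m D u` has order `D`, so `Aq m U x = 0` for `U ⊂ T` (`dT U < dT T`: a proper divisor) and `g x = Aq m T x` by `S_RzB` (3), which is `f u - f (-u)` with `f` as in `S_CbQ` (`S_SqX` (5); `el m D u = (m / D) u.val`); `S_OdQ`.
Hypotheses you may use: `S_RzB`, `S_SqX`, `S_RlQ`, `S_OdQ`, `S_InQ`. -/
def S_GdQ : Prop := ∀ (m : ℕ) [NeZero m] (T : Finset ℕ), Ess m T → T34 T → ∃ g : ZMod m → ℤ, InA GS g ∧ IsOdd g ∧ Rl g ∧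
  (∀ x, g x ≠ 0 → addOrderOf x ∣ dT T) ∧ ∀ (d : ℕ) [NeZero d], d = dT T → OdP d fun u => g (el m d u)

/-- **THEOREM QR.**  `gGTt` with `A = GS`, `Al = T34`, `N = card ι`: `GdA m GS T34` by `S_GdQ` (subsets of a `T34` set are `T34`); every `T` with `Ess m T` is `T34` (its elements are prime factors of `m`), so the condition on the sets which are not in `Al` is empty.
Hypotheses you may use: `S_GdQ`. -/
def S_QR : Prop := ∀ (m : ℕ) [NeZero m], (∀ p : ℕ, p.Prime → p ∣ m → p = 2 ∨ p % 4 = 3) →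
  ∀ (ι : Type) [Fintype ι] (a : ι → ZMod m), (∀ i, a i ≠ 0) → St a → clt a ∈ GS

/-- **The six tuples.**  For `(M, k)` in `tp` with `M = 12, 21, 28, 33, 44, 57` the prime factors of `M` are `2` or `3` modulo `4`; for `t` prime to `M` put `a i = t k_i` in `ZMod M`: `a i ≠ 0`, `St a` is the finite check `2 ∑ (t k_i mod M) = M * length` for all `t < M` prime to `M` (see the proof of `pGm1`, file `GT/Gm1.lean`; a unit of `ZMod M` times `t` is again prime to `M`), and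
`clt a = ∑ [t k_i / M]`. So these generators of `G13` are in `GS ≤ GF` by `S_QR`. The other seven tuples and the one of level `110` are in `tp8`. -/
def S_G14F : Prop := S_QR → G14 ≤ GF

/-- **The group `GF`.**  `HD ≤ GS ≤ GF`. Second part of `GdA`: a nonempty subset with an even number of elements of a pair is the pair; subsets of `T34` sets. Third part: for `T ∈ pl` and `T = {5, 11}` by `gGmB` (`InA G14 g` implies `InA GF g`, as `G14 ≤ GF`), otherwise `S_GdQ`.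
Hypotheses you may use: `S_GmB`, `S_GdQ`. -/
def S_GdF : Prop := G14 ≤ GF → ∀ (m : ℕ) [NeZero m], GdA m GF Al15

end Pool.Agent.FO
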