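import Pool.Agent.Lib.MP_640417_ag.GT.Pd
import Pool.Agent.Lib.MP_640417_ag.GT.SpecQ

/-!
# Theorem GT: the numerical condition from a condition on pairs of primes, with sets of primes which are `2` or `3` modulo `4`
-/

set_option autoImplicit false

open Finset Pool.Agent.FC

namespace Pool.Agent.FO

namespace GPcAux

/-- growth for sets which contain a fixed prime -/
theorem grow0 (hMx : S_Mx) (hNcR : S_NcR) (R : Finset ℕ → Prop) (hR : ∀ S p, R S → R (S.erase p)) (C k p0 : ℕ) (hk : 1 ≤ k)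
    (h0 : ∀ S : Finset ℕ, (∀ s ∈ S, s.Prime) → R S → p0 ∈ S → S.card = k + 1 → C * nc k 0 < kp S) (l : ℕ) :
    ∀ S : Finset ℕ, (∀ s ∈ S, s.Prime) → R S → p0 ∈ S → S.card = k + 1 + l → C * nc k l < kp S := by
  induction l with
  | zero => exact h0
  | succ l ih =>
    intro S hS hRS hp0 hc
    have hc1 : (S.erase p0).card = k + 1 + l := by
      rw [card_erase_of_mem hp0, hc]
      omega
    have hne : (S.erase p0).Nonempty := by
      rw [← card_pos, hc1]
      omega
    have hr := (S.erase p0).max'_mem hne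
    have hrS : (S.erase p0).max' hne ∈ S := mem_of_mem_erase hr
    have hrp : (S.erase p0).max' hne ≠ p0 := ne_of_mem_erase hr
    have h1 := (hMx (S.erase p0) _ (fun s hs => hS s (mem_of_mem_erase hs)) hr fun s hs => (S.erase p0).le_max' s hs).1
    rw [hc1] at h1
    have h2 : 2 * (l + k) ≤ kap ((S.erase p0).max' hne) := by omega
    have h3 := ih (S.erase ((S.erase p0).max' hne)) (fun s hs => hS s (mem_of_mem_erase hs)) (hR S _ hRS)
      (mem_erase.2 ⟨hrp.symm, hp0⟩) (by rw [card_erase_of_mem hrS, hc]; omega)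
    have h4 := hNcR.2 k l
    have h5 : 0 < kap ((S.erase p0).max' hne) := by
      rw [kap_hf (hS _ hrS)]
      have := one_le_hf (hS _ hrS)
      omega
    rw [← kp_erase hrS]
    calc C * nc k (l + 1) ≤ C * (2 * (l + k) * nc k l) := Nat.mul_le_mul_left C h4
      _ = 2 * (l + k) * (C * nc k l) := by ring
      _ ≤ kap ((S.erase p0).max' hne) * (C * nc k l) := Nat.mul_le_mul_right _ h2
      _ < kap ((S.erase p0).max' hne) * kp (S.erase ((S.erase p0).max' hne)) := Nat.mul_lt_mul_of_pos_left h3 h5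

/-- sets with two elements -/
theorem crt_two (hMx : S_Mx) (hNcR : S_NcR) (hKmn : S_Kmn) {m N : ℕ} {T : Finset ℕ} (hTP : ∀ s ∈ T, s.Prime) (hc : T.card = 2)
    (hT0 : N * 2 ^ 2 < kp T ∧ (2 ∣ m → 2 ∉ T → 2 * N * 2 ^ 2 < kp T)) : Crt m N T := by
  refine ⟨fun L hL hd hL4 => ?_, fun hm2 hT2 L hL hd => ?_⟩
  · rw [hc, kp_union hd]
    have hLP : ∀ s ∈ L, s.Prime := fun s hs => Nat.prime_of_mem_primeFactors (hL hs)
    change 2 * N * nc 1 L.card < kp T * kp L
    by_cases h2 : 2 ∈ L
    · have hm2 : 2 ∣ m := (by norm_num : (2 : ℕ) ∣ 4).trans (hL4 h2)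
      have hT2 : 2 ∉ T := fun h => disjoint_left.1 hd h h2
      have h3 := hT0.2 hm2 hT2
      have h4 := nc2 hMx hNcR hKmn _ (L.erase 2) (fun s hs => hLP s (mem_of_mem_erase hs)) (notMem_erase 2 L) rfl
      have h5 : (L.erase 2).card + 1 = L.card := card_erase_add_one h2
      rw [h5] at h4
      have h6 : 0 < kp (L.erase 2) := by
        rw [kp_hf fun s hs => hLP s (mem_of_mem_erase hs)]
        refine Nat.mul_pos (Nat.pos_of_ne_zero (pow_ne_zero _ two_ne_zero)) (prod_pos fun s hs => ?_)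
        exact one_le_hf (hLP s (mem_of_mem_erase hs))
      have h7 : kap 2 = 2 := rfl
      rw [← kp_erase h2, h7]
      calc 2 * N * nc 1 L.card ≤ 2 * N * (8 * kp (L.erase 2)) := Nat.mul_le_mul_left _ h4
        _ = (2 * N * 2 ^ 2) * (2 * kp (L.erase 2)) := by ring
        _ < kp T * (2 * kp (L.erase 2)) := Nat.mul_lt_mul_of_pos_right h3 (by omega)
    · have h4 := nc1 hMx hNcR _ L hLP h2 rfl
      have h6 : 0 < kp L := by
        rw [kp_hf hLP]
        exact Nat.mul_pos (Nat.pos_of_ne_zero (pow_ne_zero _ two_ne_zero)) (prod_pos fun s hs => one_le_hf (hLP s hs))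
      calc 2 * N * nc 1 L.card ≤ 2 * N * (2 * kp L) := Nat.mul_le_mul_left _ h4
        _ = (N * 2 ^ 2) * kp L := by ring
        _ < kp T * kp L := Nat.mul_lt_mul_of_pos_right hT0.1 h6
  · rw [hc, kp_union hd]
    have hLP : ∀ s ∈ L, s.Prime := fun s hs => Nat.prime_of_mem_primeFactors (mem_of_mem_erase (hL hs))
    have h2 : 2 ∉ L := fun h => absurd (hL h) (notMem_erase 2 _)
    have h4 := nc1 hMx hNcR _ L hLP h2 rfl
    have h6 : 0 < kp L := by
      rw [kp_hf hLP]
      exact Nat.mul_pos (Nat.pos_of_ne_zero (pow_ne_zero _ two_ne_zero)) (prod_pos fun s hs => one_le_hf (hLP s hs))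
    change 4 * N * nc 1 L.card < kp T * kp L
    calc 4 * N * nc 1 L.card ≤ 4 * N * (2 * kp L) := Nat.mul_le_mul_left _ h4
      _ = (2 * N * 2 ^ 2) * kp L := by ring
      _ < kp T * kp L := Nat.mul_lt_mul_of_pos_right (hT0.2 hm2 hT2) h6

/-- **The condition `Crt` from the simple condition**, general form. -/
theorem crt_ofQ (hMx : S_Mx) (hNcR : S_NcR) (hKmn : S_Kmn) (m N : ℕ) (Al : Finset ℕ → Prop)
    (hAl : ∀ T, Al T → T.card = 2 ∨ T34 T) (hAl' : ∀ T, T34 T → Al T) (h : ∀ T, Ess m T → Al T ∨ Cr1 m N T) (T : Finset ℕ)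
    (hT : Ess m T) (hTA : ¬ Al T) : Crt m N T := by
  have h0 : ∀ T, Ess m T → ¬ Al T → N * 2 ^ T.card < kp T ∧ (2 ∣ m → 2 ∉ T → 2 * N * 2 ^ T.card < kp T) := by
    intro T hT hTA
    obtain ⟨h1, h2⟩ := (h T hT).resolve_left hTA
    have hP : ∀ s ∈ T, s.Prime := fun s hs => Nat.prime_of_mem_primeFactors (hT.1 hs)
    have h3 : 0 < 2 ^ T.card := Nat.pos_of_ne_zero (pow_ne_zero _ two_ne_zero)
    rw [kp_hf hP]
    exact ⟨by rw [mul_comm]; exact Nat.mul_lt_mul_of_pos_left h1 h3,
      fun h4 h5 => by rw [mul_comm]; exact Nat.mul_lt_mul_of_pos_left (h2 h4 h5) h3⟩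
  obtain ⟨hTm, hT4, hTn, hTe⟩ := id hT
  have hTP : ∀ s ∈ T, s.Prime := fun s hs => Nat.prime_of_mem_primeFactors (hTm hs)
  have hc0 := hTn.card_pos
  obtain ⟨t, ht⟩ := hTe
  rcases Nat.lt_or_ge t 2 with ht2 | ht2
  · have hc : T.card = 2 := by omega
    have hT0 := h0 T hT hTA
    rw [hc] at hT0
    exact crt_two hMx hNcR hKmn hTP hc hT0
  · have hT34 : ¬ T34 T := fun h => hTA (hAl' T h)
    obtain ⟨p0, hp0, hp04⟩ : ∃ p0 ∈ T, ¬ (p0 = 2 ∨ p0 % 4 = 3) := by
      by_contra hcon
      push Not at hcon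
      exact hT34 fun p hp => ⟨hTP p hp, hcon p hp⟩
    obtain ⟨k, hk⟩ : ∃ k, T.card = k + 1 := ⟨T.card - 1, by omega⟩
    have hkk : T.card - 1 = k := by omega
    refine ⟨fun L hL hd hL4 => ?_, fun hm2 hT2 L hL hd => ?_⟩
    · rw [hkk]
      refine grow0 hMx hNcR (fun S => S ⊆ m.primeFactors ∧ (2 ∈ S → 4 ∣ m)) ?_ (2 * N) k p0 (by omega) ?_ L.card (T ∪ L) ?_ ?_
        (mem_union_left _ hp0) ?_
      · intro S p hS
        exact ⟨(erase_subset _ _).trans hS.1, fun h => hS.2 (mem_of_mem_erase h)⟩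
      · intro S _ hS hpS hSc
        have h1 : Ess m S := ⟨hS.1, hS.2, card_pos.1 (by omega), ⟨t, by omega⟩⟩
        have h3 := (h0 S h1 fun hA => by
          rcases hAl S hA with h2 | h2
          · omega
          · exact hp04 (h2 p0 hpS).2).1
        rw [nc_zero]
        calc 2 * N * 2 ^ k = N * 2 ^ S.card := by
              rw [hSc]
              ring
          _ < kp S := h3
      · intro s hs
        rcases mem_union.1 hs with hs | hs
        · exact hTP s hs
        · exact Nat.prime_of_mem_primeFactors (hL hs)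
      · refine ⟨union_subset hTm hL, fun h => ?_⟩
        rcases mem_union.1 h with h | h
        · exact hT4 h
        · exact hL4 h
      · rw [card_union_of_disjoint hd, hk]
    · rw [hkk]
      refine grow0 hMx hNcR (fun S => S ⊆ m.primeFactors ∧ 2 ∉ S) ?_ (4 * N) k p0 (by omega) ?_ L.card (T ∪ L) ?_ ?_
        (mem_union_left _ hp0) ?_
      · intro S p hS
        exact ⟨(erase_subset _ _).trans hS.1, fun h => hS.2 (mem_of_mem_erase h)⟩
      · intro S _ hS hpS hSc
        have h1 : Ess m S := ⟨hS.1, fun h => absurd h hS.2, card_pos.1 (by omega), ⟨t, by omega⟩⟩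
        have h3 := (h0 S h1 fun hA => by
          rcases hAl S hA with h2 | h2
          · omega
          · exact hp04 (h2 p0 hpS).2).2 hm2 hS.2
        rw [nc_zero]
        calc 4 * N * 2 ^ k = 2 * N * 2 ^ S.card := by
              rw [hSc]
              ring
          _ < kp S := h3
      · intro s hs
        rcases mem_union.1 hs with hs | hs
        · exact hTP s hs
        · exact Nat.prime_of_mem_primeFactors (mem_of_mem_erase (hL hs))
      · refine ⟨union_subset hTm (hL.trans (erase_subset _ _)), fun h => ?_⟩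
        rcases mem_union.1 h with h | h
        · exact hT2 h
        · exact absurd (hL h) (notMem_erase 2 _)
      · rw [card_union_of_disjoint hd, hk]

end GPcAux

end Pool.Agent.FO
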