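import Pool.Agent.Lib.MP_640417_ag.GT.SpecJ

/-!
# Theorem GT, part J, module PhR: distribution relations between the levels, `r ≠ q`
-/

set_option autoImplicit false

noncomputable section

namespace Pool.Agent.FO

open Finset Pool.Agent.FC

namespace GPhRAux

theorem Ph_pos (T : List ℕ) (q n : ℕ) (c y : ℤ) (h : q ∣ n ∧ ∀ s ∈ T, s ∣ n) :
    Ph T q n c y = ups (ik n y) T c ((n.primeFactors \ T.toFinset).erase q) := if_pos h

theorem Ph_neg (T : List ℕ) (q n : ℕ) (c y : ℤ) (h : ¬ (q ∣ n ∧ ∀ s ∈ T, s ∣ n)) :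
    Ph T q n c y = 0 := if_neg h

theorem ik_pos (n : ℕ) (y : ℤ) (s : ℕ) (b : ℤ)
    (h : ((s ^ n.factorization s : ℕ) : ℤ) ∣ y - b) : ik n y s b = 1 := if_pos h

theorem ik_neg (n : ℕ) (y : ℤ) (s : ℕ) (b : ℤ)
    (h : ¬ ((s ^ n.factorization s : ℕ) : ℤ) ∣ y - b) : ik n y s b = 0 := if_neg h

theorem ik_ne (n r : ℕ) (hn : 0 < n) (hr : r.Prime) (y : ℤ) (j s : ℕ) (hs : s ≠ r) (b : ℤ) :
    ik (r * n) (y + j * n) s b = ik n y s b := by
  have h1 : (r * n).factorization s = n.factorization s := by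
    rw [Nat.factorization_mul hr.ne_zero hn.ne', Finsupp.add_apply, hr.factorization,
      Finsupp.single_apply, if_neg (Ne.symm hs), zero_add]
  have h2 : ((s ^ n.factorization s : ℕ) : ℤ) ∣ (n : ℤ) := by
    exact_mod_cast Nat.ordProj_dvd n s
  have h3 : ((s ^ n.factorization s : ℕ) : ℤ) ∣ y + j * n - b ↔
      ((s ^ n.factorization s : ℕ) : ℤ) ∣ y - b := by
    have e : y + j * n - b = (y - b) + j * n := by ring
    rw [e]
    exact dvd_add_left (h2.mul_left _)
  by_cases h : ((s ^ n.factorization s : ℕ) : ℤ) ∣ y - b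
  · rw [ik_pos n y s b h]
    refine ik_pos _ _ _ _ ?_
    rw [h1]
    exact h3.2 h
  · rw [ik_neg n y s b h]
    refine ik_neg _ _ _ _ ?_
    rw [h1]
    exact fun h' => h (h3.1 h')

theorem ik_sum (n r : ℕ) (hn : 0 < n) (hr : r.Prime) (y : ℤ) (hy : IsCoprime y (n : ℤ))
    (J : Finset ℕ)
    (hJ : ∀ j, j ∈ J ↔ j < r ∧ IsCoprime (y + j * n) ((r * n : ℕ) : ℤ)) (b : ℤ)
    (hb : IsCoprime b (r : ℤ)) :
    ∑ j ∈ J, ik (r * n) (y + j * n) r b = ik n y r b := by
  obtain ⟨v, hv⟩ : ∃ v, v = n.factorization r := ⟨_, rfl⟩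
  have h1 : (r * n).factorization r = v + 1 := by
    rw [Nat.factorization_mul hr.ne_zero hn.ne', Finsupp.add_apply, hr.factorization,
      Finsupp.single_apply, if_pos rfl, add_comm, hv]
  obtain ⟨n', hn'⟩ : ∃ n', n' = n / r ^ v := ⟨_, rfl⟩
  have hnn : r ^ v * n' = n := by
    rw [hn', hv]
    exact Nat.ordProj_mul_ordCompl_eq_self n r
  have hcop : IsCoprime (n' : ℤ) (r : ℤ) := by
    rw [Nat.isCoprime_iff_coprime, hn', hv]
    exact (Nat.coprime_ordCompl hr hn.ne').symm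
  have hnz : (n : ℤ) = (r : ℤ) ^ v * n' := by
    rw [← hnn]
    push_cast
    ring
  have hr0 : (0 : ℤ) < r := by exact_mod_cast hr.pos
  have hrv : ((r : ℤ) ^ v) ≠ 0 := pow_ne_zero _ hr0.ne'
  by_cases h : ((r ^ n.factorization r : ℕ) : ℤ) ∣ y - b
  · rw [ik_pos n y r b h]
    rw [← hv] at h
    obtain ⟨w, hw⟩ := h
    have hP : ∀ j : ℕ, ((r ^ (r * n).factorization r : ℕ) : ℤ) ∣ y + j * n - b ↔
        (r : ℤ) ∣ w + j * n' := by
      intro j
      rw [h1]
      have e : y + j * n - b = (r : ℤ) ^ v * (w + j * n') := by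
        rw [hnz]
        push_cast at hw
        linear_combination hw
      rw [e]
      push_cast
      rw [pow_succ]
      exact mul_dvd_mul_iff_left hrv
    obtain ⟨u, t, hut⟩ := hcop
    obtain ⟨j0, hj0⟩ : ∃ j0 : ℕ, (j0 : ℤ) = (-w * u) % r :=
      ⟨((-w * u) % r).toNat, Int.toNat_of_nonneg (Int.emod_nonneg _ hr0.ne')⟩
    have hj0r : (j0 : ℤ) < r := by
      rw [hj0]
      exact Int.emod_lt_of_pos _ hr0
    have hP0 : (r : ℤ) ∣ w + j0 * n' := by
      rw [hj0, Int.emod_def]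
      refine ⟨w * t - (-w * u / r) * n', ?_⟩
      linear_combination (-w) * hut
    have hmem : j0 ∈ J := by
      rw [hJ]
      refine ⟨by exact_mod_cast hj0r, ?_⟩
      push_cast
      refine IsCoprime.mul_right ?_ (hy.add_mul_right_left _)
      obtain ⟨k', hk'⟩ := (hP j0).2 hP0
      rw [h1] at hk'
      push_cast at hk'
      have e : y + j0 * n = b + r * ((r : ℤ) ^ v * k') := by
        rw [pow_succ] at hk'
        linear_combination hk'
      rw [e]
      exact hb.add_mul_left_left _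
    rw [Finset.sum_eq_single j0]
    · exact ik_pos _ _ _ _ ((hP j0).2 hP0)
    · intro j hj hne
      refine ik_neg _ _ _ _ fun h' => hne ?_
      have h2 := (hP j).1 h'
      have h3 : (r : ℤ) ∣ ((j : ℤ) - j0) * n' := by
        have h4 := dvd_sub h2 hP0
        have e : w + j * n' - (w + j0 * n') = ((j : ℤ) - j0) * n' := by ring
        rwa [e] at h4
      have h4 : (r : ℤ) ∣ (j : ℤ) - j0 :=
        IsCoprime.dvd_of_dvd_mul_right (⟨t, u, by linear_combination hut⟩ : IsCoprime (r : ℤ) (n' : ℤ)) h3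
      have h5 : (j : ℤ) < r := by exact_mod_cast ((hJ j).1 hj).1
      have h6 : |(j : ℤ) - j0| < r := by
        rw [abs_lt]
        constructor <;> omega
      have h7 := Int.eq_zero_of_abs_lt_dvd h4 h6
      omega
    · intro h'
      exact absurd hmem h'
  · rw [ik_neg n y r b h]
    refine Finset.sum_eq_zero fun j _ => ?_
    refine ik_neg _ _ _ _ fun h' => h ?_
    rw [h1] at h'
    rw [← hv]
    have h2 : ((r ^ v : ℕ) : ℤ) ∣ y + j * n - b :=
      dvd_trans (by exact_mod_cast pow_dvd_pow r (Nat.le_succ v)) h'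
    have h3 : ((r ^ v : ℕ) : ℤ) ∣ (j : ℤ) * n := by
      refine Dvd.dvd.mul_left ?_ _
      exact_mod_cast (⟨n', hnn.symm⟩ : r ^ v ∣ n)
    have h4 := dvd_sub h2 h3
    have e : y + j * n - b - j * n = y - b := by ring
    rwa [e] at h4

end GPhRAux

open GPhRAux

theorem pPhR (hUpsL : S_UpsL) (hUpsT : S_UpsT) (hTmUps : S_TmUps) (hTmUse : S_TmUse) : S_PhR := by
  classical
  intro T q n r c y hPr hn hr hrq hc hy J hJ
  obtain ⟨hnd, hpr, hq2, hT2⟩ := hPr
  have hTnd : T.Nodup := (List.nodup_cons.1 hnd).2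
  have hqp : q.Prime := hpr q List.mem_cons_self
  have hTp : ∀ s ∈ T, s.Prime := fun s hs => hpr s (List.mem_cons_of_mem _ hs)
  by_cases hcond : q ∣ n ∧ ∀ s ∈ T, s ≠ r → s ∣ n
  swap
  · have h1 : ∀ c' y' : ℤ, Ph T q n c' y' = 0 := by
      intro c' y'
      refine Ph_neg _ _ _ _ _ ?_
      rintro ⟨h1, h2⟩
      exact hcond ⟨h1, fun s hs _ => h2 s hs⟩
    have h2 : ∀ c' y' : ℤ, Ph T q (r * n) c' y' = 0 := by
      intro c' y'
      refine Ph_neg _ _ _ _ _ ?_
      rintro ⟨h1, h2⟩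
      refine hcond ⟨?_, fun s hs hsr => ?_⟩
      · exact ((Nat.Prime.dvd_mul hqp).1 h1).resolve_left
          (fun h => hrq ((Nat.prime_dvd_prime_iff_eq hqp hr).1 h).symm)
      · exact ((Nat.Prime.dvd_mul (hTp s hs)).1 (h2 s hs)).resolve_left
          (fun h => hsr ((Nat.prime_dvd_prime_iff_eq (hTp s hs) hr).1 h))
    simp only [h1, h2, Finset.sum_const_zero, sub_zero, ite_self]
  obtain ⟨hqn, hTn⟩ := hcond
  -- the sets
  obtain ⟨L, hL⟩ : ∃ L, L = (n.primeFactors \ T.toFinset).erase q := ⟨_, rfl⟩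
  obtain ⟨L', hL'⟩ : ∃ L', L' = ((r * n).primeFactors \ T.toFinset).erase q := ⟨_, rfl⟩
  have hpf : (r * n).primeFactors = insert r n.primeFactors := by
    rw [Nat.primeFactors_mul hr.ne_zero hn.ne', hr.primeFactors]
    rfl
  have hrn0 : r * n ≠ 0 := mul_ne_zero hr.ne_zero hn.ne'
  have hL'm : ∀ s, s ∈ L' ↔ s ≠ q ∧ s ∉ T ∧ (s = r ∨ s ∈ n.primeFactors) := by
    intro s
    rw [hL', Finset.mem_erase, Finset.mem_sdiff, hpf, Finset.mem_insert, List.mem_toFinset]
    tauto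
  have hLm : ∀ s, s ∈ L ↔ s ≠ q ∧ s ∉ T ∧ s ∈ n.primeFactors := by
    intro s
    rw [hL, Finset.mem_erase, Finset.mem_sdiff, List.mem_toFinset]
    tauto
  have hL'p : ∀ s ∈ L', s.Prime := by
    intro s hs
    rcases ((hL'm s).1 hs).2.2 with h | h
    · rw [h]
      exact hr
    · exact Nat.prime_of_mem_primeFactors h
  have hTL' : ∀ s ∈ T, s ∉ L' := fun s hs h => ((hL'm s).1 h).2.1 hs
  have hdvd : ∀ s ∈ T.toFinset ∪ L', s ∣ r * n := by
    intro s hs
    rcases Finset.mem_union.1 hs with h | h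
    · by_cases hsr : s = r
      · rw [hsr]
        exact dvd_mul_right _ _
      · exact (hTn s (List.mem_toFinset.1 h) hsr).mul_left _
    · rcases ((hL'm s).1 h).2.2 with h | h
      · rw [h]
        exact dvd_mul_right _ _
      · exact (Nat.dvd_of_mem_primeFactors h).mul_left _
  have hcs : ∀ s ∈ T.toFinset ∪ L', IsCoprime c (s : ℤ) := by
    intro s hs
    exact hc.of_isCoprime_of_dvd_right (by exact_mod_cast hdvd s hs)
  have hcr : IsCoprime c (r : ℤ) :=
    hc.of_isCoprime_of_dvd_right (by exact_mod_cast dvd_mul_right r n)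
  have hrS : r ∈ T.toFinset ∪ L' := by
    by_cases h : r ∈ T
    · exact Finset.mem_union_left _ (List.mem_toFinset.2 h)
    · exact Finset.mem_union_right _ ((hL'm r).2 ⟨hrq, h, Or.inl rfl⟩)
  -- the sum
  have hsum : ∑ j ∈ J, Ph T q (r * n) c (y + j * n) = ups (ik n y) T c L' := by
    have h1 : ∀ j ∈ J, Ph T q (r * n) c (y + j * n) = ups (ik (r * n) (y + j * n)) T c L' := by
      intro j _
      rw [hL']
      refine Ph_pos _ _ _ _ _ ⟨hqn.mul_left _, fun s hs => ?_⟩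
      exact hdvd s (Finset.mem_union_left _ (List.mem_toFinset.2 hs))
    rw [Finset.sum_congr rfl h1]
    exact (hTmUse (T.toFinset ∪ L') _ _ (hTmUps T c L' hTnd hTp hL'p hTL' hcs)).1 J
      (fun j => ik (r * n) (y + j * n)) (ik n y) r hrS
      (fun j _ s _ hs b _ => ik_ne n r hn hr y j s hs b)
      (fun b hb => ik_sum n r hn hr y hy J hJ b hb)
  rw [hsum]
  by_cases hrn : r ∣ n
  · rw [if_pos hrn]
    have hLL : L' = L := by
      ext s
      rw [hL'm, hLm]
      constructor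
      · rintro ⟨h1, h2, h3 | h3⟩
        · refine ⟨h1, h2, ?_⟩
          rw [h3]
          exact Nat.mem_primeFactors.2 ⟨hr, hrn, hn.ne'⟩
        · exact ⟨h1, h2, h3⟩
      · rintro ⟨h1, h2, h3⟩
        exact ⟨h1, h2, Or.inr h3⟩
    rw [hLL, hL]
    refine (Ph_pos _ _ _ _ _ ⟨hqn, fun s hs => ?_⟩).symm
    by_cases hsr : s = r
    · rw [hsr]
      exact hrn
    · exact hTn s hs hsr
  · rw [if_neg hrn]
    have hI : ∀ b : ℤ, IsCoprime b (r : ℤ) → ik n y r b = 1 := by
      intro b _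
      refine ik_pos _ _ _ _ ?_
      rw [Nat.factorization_eq_zero_of_not_dvd hrn, pow_zero, Nat.cast_one]
      exact one_dvd _
    by_cases hrT : r ∈ T
    · have h1 : ∀ c' y' : ℤ, Ph T q n c' y' = 0 := by
        intro c' y'
        refine Ph_neg _ _ _ _ _ ?_
        rintro ⟨-, h2⟩
        exact hrn (h2 r hrT)
      rw [h1, h1, sub_zero]
      exact hUpsT (ik n y) T c L' r hL'p hTp hTnd hTL' hrT hI hcr
    · have hcn : q ∣ n ∧ ∀ s ∈ T, s ∣ n :=
        ⟨hqn, fun s hs => hTn s hs fun h => hrT (h ▸ hs)⟩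
      have hrL' : r ∈ L' := (hL'm r).2 ⟨hrq, hrT, Or.inl rfl⟩
      have hLL : L'.erase r = L := by
        ext s
        rw [Finset.mem_erase, hL'm, hLm]
        constructor
        · rintro ⟨h0, h1, h2, h3⟩
          exact ⟨h1, h2, h3.resolve_left h0⟩
        · rintro ⟨h1, h2, h3⟩
          refine ⟨fun h => ?_, h1, h2, Or.inr h3⟩
          rw [h] at h3
          exact hrn (Nat.dvd_of_mem_primeFactors h3)
      rw [hUpsL (ik n y) T c L' r hL'p hrL' hrT hI hcr, hLL, hL, Ph_pos _ _ _ _ _ hcn,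
        Ph_pos _ _ _ _ _ hcn]

end Pool.Agent.FO
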