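import Pool.Agent.Lib.MP_640417_ag.GT.SpecJ

/-!
# Theorem GT, part J, module RfOne: one prime drops out of the telescoping product
-/

set_option autoImplicit false

noncomputable section

open Finset Pool.Agent.FC

namespace Pool.Agent.FO

namespace GRfOneAux

private lemma pr_erase {A : Finset ℕ} {r : ℕ} (hr : r ∈ A) : pr A = r * pr (A.erase r) := by
  unfold pr
  exact (Finset.mul_prod_erase A (fun s => (s : ℤ)) hr).symm

private lemma sum_ss (A' : Finset ℕ) (r : ℕ) (hr : r ∉ A') (g : Finset ℕ → ℤ) :
    ∑ C ∈ (insert r A').ssubsets, g C = g A' + ∑ C ∈ A'.ssubsets, (g C + g (insert r C)) := by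
  have h : ∀ (B : Finset ℕ) (f : Finset ℕ → ℤ), ∑ C ∈ B.powerset, f C =
      ∑ C ∈ B.ssubsets, f C + f B := by
    intro B f
    rw [Finset.ssubsets, Finset.sum_erase_add _ _ (Finset.mem_powerset_self B)]
  have h1 := h (insert r A') g
  rw [Finset.sum_powerset_insert hr, h A' g, h A' (fun C => g (insert r C))] at h1
  rw [Finset.sum_add_distrib]
  linarith

end GRfOneAux

open GRfOneAux in
/-- One prime drops out. -/
theorem pRfOne : S_RfOne := by
  intro I c p A r hA hrA hpr hI hc
  induction A using Finset.strongInduction with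
  | H A ih =>
    obtain ⟨A', hr, rfl⟩ : ∃ A', r ∉ A' ∧ A = insert r A' :=
      ⟨A.erase r, Finset.notMem_erase r A, (Finset.insert_erase hrA).symm⟩
    have hrp : r.Prime := hA r hrA
    rw [Finset.erase_insert hr]
    -- the values at `r`
    have hcop : IsCoprime (c * pr A') (r : ℤ) := by
      refine IsCoprime.mul_left hc ?_
      unfold pr
      refine IsCoprime.prod_left ?_
      intro s hs
      have hs' : s.Prime := hA s (Finset.mem_insert_of_mem hs)
      have hne : s ≠ r := fun h => hr (h ▸ hs)
      exact Nat.isCoprime_iff_coprime.2 ((Nat.coprime_primes hs' hrp).2 hne)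
    have hIr : I r (c * pr ((insert r A').erase r)) = 1 := by
      rw [Finset.erase_insert hr]
      exact hI _ hcop
    have hpA : c * pr (insert r A') = r * c * pr A' := by
      rw [pr_erase hrA, Finset.erase_insert hr]
      ring
    have hps : ∀ s ∈ A', c * pr ((insert r A').erase s) = r * c * pr (A'.erase s) := by
      intro s hs
      have hne : s ≠ r := fun h => hr (h ▸ hs)
      have h1 : (insert r A').erase s = insert r (A'.erase s) :=
        Finset.erase_insert_of_ne hne.symm
      have h2 : r ∉ A'.erase s := fun h => hr (Finset.mem_of_mem_erase h)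
      rw [h1, pr_erase (Finset.mem_insert_self r (A'.erase s)), Finset.erase_insert h2]
      ring
    -- the products
    have hQ : ∀ B : Finset ℕ, B ⊆ A' → ∏ s ∈ B, I s (c * pr ((insert r A').erase s)) =
        ∏ s ∈ B, I s (r * c * pr (A'.erase s)) := by
      intro B hB
      exact Finset.prod_congr rfl fun s hs => by rw [hps s (hB hs)]
    have hQ1 : ∀ B : Finset ℕ, B ⊆ A' → ∏ s ∈ insert r B, I s (c * pr ((insert r A').erase s)) =
        ∏ s ∈ B, I s (r * c * pr (A'.erase s)) := by
      intro B hB
      rw [Finset.prod_insert (fun h => hr (hB h)), hIr, one_mul, hQ B hB]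
    rw [Rf_eq I c p (insert r A'), sum_ss A' r hr, Rf_eq I (r * c) p A', hQ1 A' subset_rfl, hpA]
    have hd0 : insert r A' \ A' = {r} := by
      rw [Finset.insert_sdiff_of_notMem _ hr, Finset.sdiff_self]
      rfl
    have hgA : (-1 : ℤ) ^ ((insert r A' \ A').card + 1) *
        (∏ s ∈ insert r A' \ A', I s (c * pr ((insert r A').erase s))) * Rf I c p A' =
        Rf I c p A' := by
      rw [hd0, Finset.prod_singleton, hIr, Finset.card_singleton]
      norm_num
    rw [hgA, Finset.card_insert_of_notMem hr]
    have hsum : ∑ C ∈ A'.ssubsets, ((-1 : ℤ) ^ ((insert r A' \ C).card + 1) *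
        (∏ s ∈ insert r A' \ C, I s (c * pr ((insert r A').erase s))) * Rf I c p C +
        (-1) ^ ((insert r A' \ insert r C).card + 1) *
        (∏ s ∈ insert r A' \ insert r C, I s (c * pr ((insert r A').erase s))) *
        Rf I c p (insert r C)) = -∑ C ∈ A'.ssubsets, (-1) ^ ((A' \ C).card + 1) *
        (∏ s ∈ A' \ C, I s (r * c * pr (A'.erase s))) * Rf I (r * c) p C := by
      rw [← Finset.sum_neg_distrib]
      refine Finset.sum_congr rfl fun C hC => ?_
      have hC' : C ⊂ A' := Finset.mem_ssubsets.1 hC
      have hrC : r ∉ C := fun h => hr (hC'.1 h)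
      have hsub : insert r C ⊂ insert r A' := by
        refine Finset.ssubset_iff_subset_ne.2 ⟨Finset.insert_subset_insert _ hC'.1, ?_⟩
        intro h
        have h1 := congrArg (fun B => Finset.erase B r) h
        simp only [Finset.erase_insert hrC, Finset.erase_insert hr] at h1
        exact hC'.ne h1
      have h1 := ih (insert r C) hsub (fun s hs => hA s (hsub.1 hs)) (Finset.mem_insert_self r C)
      rw [Finset.erase_insert hrC] at h1
      have h2 : insert r A' \ C = insert r (A' \ C) := Finset.insert_sdiff_of_notMem _ hrC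
      have h3 : insert r A' \ insert r C = A' \ C := by
        ext s
        simp only [Finset.mem_sdiff, Finset.mem_insert, not_or]
        constructor
        · rintro ⟨h4 | h4, h5, h6⟩
          · exact absurd h4 h5
          · exact ⟨h4, h6⟩
        · rintro ⟨h4, h5⟩
          exact ⟨Or.inr h4, fun h => hr (h ▸ h4), h5⟩
      have h4 : (insert r (A' \ C)).card = (A' \ C).card + 1 :=
        Finset.card_insert_of_notMem (fun h => hr (Finset.mem_sdiff.1 h).1)
      rw [h1, h2, h3, h4, hQ1 _ Finset.sdiff_subset, hQ _ Finset.sdiff_subset]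
      ring
    rw [hsum]
    ring

end Pool.Agent.FO
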