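import Pool.Agent.Lib.MP_640417_ag.GT.SpecR

/-!
# Part R (MP_640417_ag): squares modulo `c4 u` for all primes `u` (module `Smg`)
-/

set_option autoImplicit false

noncomputable section

namespace Pool.Agent.FO

open Finset Pool.Agent.FC

namespace GSmgAux

/-- Modulo `4`. -/
theorem four (x y : ZMod 4) (hx : x = 1 ∨ x = 3) (hy : y = 1 ∨ y = 3) :
    (IsSquare (x * y) ↔ (IsSquare x ↔ IsSquare y)) := by
  revert x y
  decide

/-- An odd integer modulo `4`. -/
theorem odd4 (w : ℤ) (h : IsCoprime w ((2 : ℕ) : ℤ)) :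
    ((w : ℤ) : ZMod 4) = 1 ∨ ((w : ℤ) : ZMod 4) = 3 := by
  have h1 : w % 4 = 1 ∨ w % 4 = 3 := by
    have h2 : ¬ (2 : ℤ) ∣ w := by
      intro h3
      have h4 := h.symm.isUnit_of_dvd' (dvd_refl _) (by exact_mod_cast h3)
      exact absurd (Int.isUnit_iff.1 h4) (by decide)
    omega
  rcases h1 with h1 | h1
  · left
    have : ((w : ℤ) : ZMod 4) = ((1 : ℤ) : ZMod 4) :=
      (ZMod.intCast_eq_intCast_iff w 1 4).2 (by rw [Int.ModEq]; exact_mod_cast h1)
    rw [this]
    rfl
  · right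
    have : ((w : ℤ) : ZMod 4) = ((3 : ℤ) : ZMod 4) :=
      (ZMod.intCast_eq_intCast_iff w 3 4).2 (by rw [Int.ModEq]; exact_mod_cast h1)
    rw [this]
    rfl

/-- Modulo a prime: the product. -/
theorem mulp (u : ℕ) [Fact u.Prime] (x y : ZMod u) (hx : x ≠ 0) (hy : y ≠ 0) :
    IsSquare (x * y) ↔ (IsSquare x ↔ IsSquare y) := by
  rw [← quadraticChar_one_iff_isSquare (mul_ne_zero hx hy), ← quadraticChar_one_iff_isSquare hx,
    ← quadraticChar_one_iff_isSquare hy, map_mul]
  rcases quadraticChar_dichotomy hx with h | h <;> rcases quadraticChar_dichotomy hy with h' | h' <;>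
    rw [h, h'] <;> norm_num

/-- A nonzero residue. -/
theorem ne0 (u : ℕ) [hu : Fact u.Prime] (w : ℤ) (h : IsCoprime w (u : ℤ)) :
    ((w : ℤ) : ZMod u) ≠ 0 := by
  intro h1
  rw [ZMod.intCast_zmod_eq_zero_iff_dvd] at h1
  have h4 := h.symm.isUnit_of_dvd' (dvd_refl _) h1
  rw [Int.isUnit_iff] at h4
  have := hu.out.one_lt
  omega

end GSmgAux

open GSmgAux in
theorem pSmg : S_Smg := by
  intro u hu
  have h3 : ∀ w w' : ℤ, ((c4 u : ℕ) : ℤ) ∣ w - w' → (sm u w ↔ sm u w') := by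
    intro w w' h1
    have h2 : ((w' : ℤ) : ZMod (c4 u)) = ((w : ℤ) : ZMod (c4 u)) :=
      (ZMod.intCast_eq_intCast_iff_dvd_sub w' w (c4 u)).2 h1
    unfold sm
    rw [h2]
  have h4 : sm u 1 := ⟨1, by simp⟩
  by_cases hu2 : u = 2
  · subst hu2
    have hc : c4 2 = 4 := if_pos rfl
    refine ⟨?_, h3, h4, ?_, 3, ?_, ?_⟩
    · intro w w' hw hw'
      unfold sm
      rw [hc]
      push_cast
      exact four _ _ (odd4 w hw) (odd4 w' hw')
    · have h5 : ¬ sm 2 (-1) := by
        unfold sm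
        rw [hc]
        decide
      exact ⟨fun h => (h5 h).elim, fun h => (h (Or.inl rfl)).elim⟩
    · exact ⟨1, -1, by norm_num⟩
    · unfold sm
      rw [hc]
      decide
  · have hc : c4 u = u := if_neg hu2
    have : Fact u.Prime := ⟨hu⟩
    refine ⟨?_, h3, h4, ?_, ?_⟩
    · intro w w' hw hw'
      unfold sm
      rw [hc]
      push_cast
      exact mulp u _ _ (ne0 u w hw) (ne0 u w' hw')
    · have h5 : sm u (-1) ↔ IsSquare (-1 : ZMod u) := by
        unfold sm
        rw [hc]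
        push_cast
        rfl
      rw [h5, ZMod.exists_sq_eq_neg_one_iff]
      tauto
    · obtain ⟨a, ha⟩ := FiniteField.exists_nonsquare (F := ZMod u) (by rwa [ZMod.ringChar_zmod_n])
      have ha0 : a ≠ 0 := by
        rintro rfl
        exact ha ⟨0, by simp⟩
      refine ⟨(a.val : ℤ), ?_, ?_⟩
      · rw [Nat.isCoprime_iff_coprime]
        refine Nat.Coprime.symm ((Nat.Prime.coprime_iff_not_dvd hu).2 fun h => ha0 ?_)
        have h6 : ((a.val : ℕ) : ZMod u) = 0 := (ZMod.natCast_eq_zero_iff _ _).2 h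
        rwa [ZMod.natCast_zmod_val] at h6
      · unfold sm
        rw [hc]
        push_cast
        rwa [ZMod.natCast_zmod_val]

end Pool.Agent.FO
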