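import Pool.Agent.Lib.MP_640417_ag.FO.SpecG

/-!
# Theorem GT (parity functionals), part I: finite abelian groups

Every `S_X : Prop` is to be proved as `theorem pX : S_X` or from the stated hypotheses. The proved facts
`gTBas, gTlBas, gTlLoc, pSumKK, gMin` may be used directly.
-/

set_option autoImplicit false

noncomputable section

namespace Pool.Agent.FO

open Finset Pool.Agent.FC

/-- symmetric sums: `∑_{S ⊆ l} F(e_S a)` -/
def Cb {G : Type} [Group G] (e : ℕ → G) : List ℕ → (G → ℤ) → G → ℤ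
  | [], F, a => F a
  | i :: l, F, a => Cb e l F a + Cb e l F (e i * a)

/-- alternating sums: `∑_{S ⊆ l} (-1)^|S| F(e_S a)` -/
def Cs {G : Type} [Group G] (e : ℕ → G) : List ℕ → (G → ℤ) → G → ℤ
  | [], F, a => F a
  | i :: l, F, a => Cs e l F a - Cs e l F (e i * a)

/-- the `e i` are elements of order two of the `K i` -/
def Iv {G : Type} [Group G] (K : ℕ → Subgroup G) (e : ℕ → G) (l : List ℕ) : Prop :=
  ∀ i ∈ l, e i ∈ K i ∧ e i ≠ 1 ∧ e i * e i = 1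

/-! ## Sections -/

/-- **Half-systems.**  Let `M' = M ⊔ ⟨ε⟩` (`Subgroup.zpowers ε`); since `ε² = 1`, `x ∈ M'` if and only if `x ∈ M` or `ε x ∈ M`, and not both because `ε ∉ M`. Let
`r(a)` be the representative of the class of `a` in `G ⧸ M'` (`Quotient.out`), so `r(ε a) = r(a)`, `r(k a) = r(a)` for `k ∈ M`. Put
`h(a) = true` if and only if `a (r a)⁻¹ ∈ M`. (Or: fix an injection of the finite set of cosets in `ℕ` and compare the cosets of `a` and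
`ε a` in `G ⧸ M`.) -/
def S_HfS : Prop := ∀ (G : Type) [CommGroup G] (M : Subgroup G) (ε : G), ε * ε = 1 → ε ∉ M →
  ∃ h : G → Bool, (∀ k ∈ M, ∀ a, h (k * a) = h a) ∧ ∀ a, h (ε * a) = !h a

/-- **Base points.**  Let `r(a)` be the representative of the class of `a` in `G ⧸ (K ⊔ M)`; `a (r a)⁻¹ = x y` with unique `x ∈ K`, `y ∈ M`
(`Subgroup.mem_sup`, `Disjoint`). Put `β(a) = x⁻¹`. For `k ∈ K`: `k a (r a)⁻¹ = (k x) y`, so `β(k a) k = β(a)`. For `y' ∈ M`: `y' a (r a)⁻¹ = x (y' y)`. -/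
def S_BsS : Prop := ∀ (G : Type) [CommGroup G] (K M : Subgroup G), Disjoint K M →
  ∃ β : G → G, (∀ a, β a ∈ K) ∧ (∀ k ∈ K, ∀ a, β (k * a) * k = β a) ∧ ∀ y ∈ M, ∀ a, β (y * a) = β a

/-- **Relations.**  `R(l)` is the set of the `F` with `Tl K l F = 0`.
(1) `Tl K l (F(β(.) .)) (a)` depends only on the values at `y a`, `y ∈ KS K l` (`S_TlLoc`), where the function is `F(β(a) y a)`, so it is
`Tl K l F (β(a) a) = 0`. (2) `Tl K l F` is `K i`-invariant (`Tl K (i :: l) F = Tl K l (T (K i) F) = T (K i) (Tl K l F)`, `S_TBas`, `S_TlBas`), so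
`Tl K l (F(β(.) .)) (a) = Tl K l F (β(a) a) = Tl K l F (a)`. (3) `T (K i) F = 0`. (4) `Tl K (i :: l) F = T (K i) (Tl K l F)`. (5) `S_TlLoc`: on
`KS K l a` the function is `F` or `0`. (6) `Tl K l (F(β .)) = Tl K l F = Tl K l (F(γ .))` as in (2). -/
def S_RelB : Prop := ∀ (G : Type) [CommGroup G] [Fintype G] (K : ℕ → Subgroup G) (i : ℕ) (l : List ℕ) (F : G → ℤ),
  (∀ β : G → G, (∀ y ∈ KS K l, ∀ a, β (y * a) = β a) → Tl K l F = 0 → Tl K l (fun a => F (β a * a)) = 0) ∧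
  (∀ β : G → G, (∀ a, β a ∈ K i) → (∀ y ∈ KS K l, ∀ a, β (y * a) = β a) → Tl K (i :: l) F = 0 →
    Tl K l (fun a => F (β a * a) - F a) = 0) ∧
  ((∀ k ∈ K i, ∀ a, F (k * a) = F a) → Tl K (i :: l) F = 0) ∧
  (Tl K l F = 0 → Tl K (i :: l) F = 0) ∧
  (∀ h : G → Bool, (∀ y ∈ KS K l, ∀ a, h (y * a) = h a) → Tl K l F = 0 →
    Tl K l (fun a => if h a = true then F a else 0) = 0) ∧
  (∀ β γ : G → G, (∀ a, β a ∈ K i) → (∀ a, γ a ∈ K i) → (∀ y ∈ KS K l, ∀ a, β (y * a) = β a) →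
    (∀ y ∈ KS K l, ∀ a, γ (y * a) = γ a) → Tl K (i :: l) F = 0 →
    Tl K l (fun a => F (β a * a) - F (γ a * a)) = 0)

/-- **Decomposition.**  Induction on `l`, generalizing `F`. `l = []`: `F = 0`. `l = i :: l'`: `β` from `S_BsS` with `K i`, `KS K l'`,
`E i (a) = F(β(a) a)`, which is `K i`-invariant (`β(k a) k a = β(a) a`), `Tl K l' (F - E i) = 0` (`S_RelB` (2)), induction; `i ∉ l'`.
Hypotheses you may use: `S_BsS`, `S_RelB`. -/
def S_DecN : Prop := ∀ (G : Type) [CommGroup G] [Fintype G] (K : ℕ → Subgroup G) (l : List ℕ), l.Nodup → Ind K l →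
  ∀ F : G → ℤ, Tl K l F = 0 → ∃ E : ℕ → G → ℤ, (∀ i ∈ l, ∀ k ∈ K i, ∀ a, E i (k * a) = E i a) ∧
    ∀ a, F a = ∑ i ∈ l.toFinset, E i a

/-- **Odd decomposition, `ε ∉ KS K l`.**  `E` from `S_DecN`, `h` from `S_HfS` with `M = KS K l`. `E' i (a) = E i (a)` if `h a`, and
`-E i (ε a)` otherwise: `K i`-invariant because `K i ≤ KS K l`; the sum is `F(a)` or `-F(ε a) = F(a)`; odd because `h(ε a) = !h(a)`, `ε² = 1`.
Hypotheses you may use: `S_HfS`, `S_DecN`. -/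
def S_DecO : Prop := ∀ (G : Type) [CommGroup G] [Fintype G] (K : ℕ → Subgroup G) (l : List ℕ), l.Nodup → Ind K l →
  ∀ ε : G, ε * ε = 1 → ε ∉ KS K l → ∀ F : G → ℤ, (∀ a, F (ε * a) = -F a) → Tl K l F = 0 →
    ∃ E : ℕ → G → ℤ, (∀ i ∈ l, (∀ a, E i (ε * a) = -E i a) ∧ ∀ k ∈ K i, ∀ a, E i (k * a) = E i a) ∧
      ∀ a, F a = ∑ i ∈ l.toFinset, E i a

/-- **Symmetric and alternating sums.**  All by induction on `l` (generalizing `a`; the group is commutative). (1), (2): additivity. (3), (4):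
translation and scalars. (5): `j = i`: the two terms are interchanged; `j ∈ l'`: induction and `e i e j = e j e i`. (6): `j = i`: `X(a) - X(e_i a)` changes its sign.
(7) `j = i`: by translation `Cs e l' F` is `e i`-invariant, so the difference is `0`; `j ∈ l'`: both terms are `0`. (8): `x + y ≡ x - y` mod `2`. (9) additivity in `F`
modulo `2`. (10): invariance under `k` (translation, (3)). (11): permutations, by induction on `List.Perm` (`swap`: the four terms). -/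
def S_CbB : Prop := ∀ (G : Type) [CommGroup G] (e : ℕ → G) (l : List ℕ) (F F' : G → ℤ),
  (∀ a, Cb e l (fun x => F x + F' x) a = Cb e l F a + Cb e l F' a) ∧
  (∀ a, Cs e l (fun x => F x + F' x) a = Cs e l F a + Cs e l F' a) ∧
  (∀ g a, Cb e l (fun x => F (g * x)) a = Cb e l F (g * a) ∧ Cs e l (fun x => F (g * x)) a = Cs e l F (g * a)) ∧
  (∀ (c : ℤ) (a : G), Cb e l (fun x => c * F x) a = c * Cb e l F a ∧ Cs e l (fun x => c * F x) a = c * Cs e l F a) ∧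
  (∀ j ∈ l, e j * e j = 1 → ∀ a, Cb e l F (e j * a) = Cb e l F a) ∧
  (∀ j ∈ l, e j * e j = 1 → ∀ a, Cs e l F (e j * a) = -Cs e l F a) ∧
  (∀ j ∈ l, (∀ a, F (e j * a) = F a) → ∀ a, Cs e l F a = 0) ∧
  (∀ a, (2 : ℤ) ∣ Cb e l F a - Cs e l F a) ∧
  ((∀ a, (2 : ℤ) ∣ F a - F' a) → ∀ a, (2 : ℤ) ∣ Cb e l F a - Cb e l F' a) ∧
  (∀ k : G, (∀ a, F (k * a) = F a) → ∀ a, Cb e l F (k * a) = Cb e l F a ∧ Cs e l F (k * a) = Cs e l F a) ∧
  (∀ l' : List ℕ, l.Perm l' → ∀ a, Cb e l F a = Cb e l' F a ∧ Cs e l F a = Cs e l' F a)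

/-! ## The obstruction -/

/-- **Obstruction.**  `τ = (l.map e).prod`. Induction on `l`, generalizing `s`, `z`.
`l = []`: `z = Tl K [] z = 0`, `r = 0`.
`l = [i]`: `Tl K [i] z = T (K i) z = 0`, so `z` is `K i`-invariant, `τ = e i`, `z(a) = z(τ a) = s z(a)`. `s = -1`: `z = 0`, `r = 0`. `s = 1 = (-1)^2`: `2 ∣ Cb e [] z a = z a`,
`r = z / 2`.
`l = i :: l'`, `l' ≠ []`: `τ = e i τ'`, `τ' = (l'.map e).prod ∈ KS K l'`, `τ'² = 1`, `τ' ≠ 1` and `τ ∉ KS K l'`, `τ' ∉ K i` by independence. `β` from `S_BsS` with `K i`, `KS K l'`;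
`z1(a) = z(β(a) a)`, which is `K i`-invariant; `z1(τ' a) = z(β(a) τ' a) = z(τ e_i β(a) a) = s z(e_i β(a) a)`. `D(a) = z1(τ' a) - s z1(a) = s (z(e_i β(a) a) - z(β(a) a))`:
`K i`-invariant, `Tl K l' D = 0` (`S_RelB` (6) with `γ = e_i β`), `D(τ' a) = -s D(a)`. Induction hypothesis for `l'`, `-s`, `D`: if `-s = (-1)^(|l'|+1)` then `s = (-1)^(|l|+1)`;
let `l' = j :: l''`; modulo `2`: `Cb e l'' D (a) ≡ C(e_i β(a) a) + C(β(a) a)` with `C = Cb e l'' z` (`β` is constant on `KS K l'`-cosets); `C` is invariant under the `e_k`, `k ∈ l''`, and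
`C(τ x) = s C(x)`, so `C(e_i e_j x) ≡ C(x)`, `C(e_i x) ≡ C(e_j x)`, and `C(x) + C(e_j x) = Cb e l' z x` is even by hypothesis; so `2 ∣ Cb e l'' D a`. We get `ρ` with
`Tl K l' ρ = 0`, `D(a) = ρ(a) - s ρ(τ' a)`; replace `ρ` by `ρ(β(a) a)` (`S_RelB` (1); `D` is `K i`-invariant, `β(τ' a) = β(a)`), so `ρ` is `K i`-invariant. Put
`v = z1 + s ρ`: `K i`-invariant, `v(τ' a) = s v(a)`, `Tl K l' (z - v) = 0` (`S_RelB` (2)). Let `h'` be a half-system for `τ'`, invariant under `K i` (`S_HfS`, `M = K i`), `w(a) = v(a)` if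
`h' a`, otherwise `0`: `K i`-invariant, `w(a) + s w(τ' a) = v(a)`. Let `h` be a half-system for `τ`, invariant under `KS K l'` (`S_HfS`, `M = KS K l'`). Put
`r(a) = w(a)` if `h a`, and `r(a) = w(a) + z(a) - v(a)` otherwise. `Tl K l w = 0` (`S_RelB` (3)), `Tl K l (r - w) = 0` (`S_RelB` (5), (4)). `z(a) = r(a) + s r(τ a)`: `w(τ a) = w(τ' a)`; note
`w(a) + z(a) - v(a) = z(a) - s w(τ a)`; if `h a`: `r(a) + s r(τ a) = w(a) + s (z(τ a) - s w(a)) = z(a)`; otherwise `z(a) - s w(τ a) + s w(τ a)`.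
Hypotheses you may use: `S_HfS`, `S_BsS`, `S_RelB`, `S_CbB`. -/
def S_Ob : Prop := ∀ (G : Type) [CommGroup G] [Fintype G] (K : ℕ → Subgroup G) (e : ℕ → G) (l : List ℕ),
  Ind K l → Iv K e l → ∀ s : ℤ, (s = 1 ∨ s = -1) → ∀ z : G → ℤ, Tl K l z = 0 →
    (∀ a, z ((l.map e).prod * a) = s * z a) →
    (s = (-1) ^ (l.length + 1) → ∀ a, (2 : ℤ) ∣ Cb e l.tail z a) →
    ∃ r : G → ℤ, Tl K l r = 0 ∧ ∀ a, z a = r a + s * r ((l.map e).prod * a)

/-- **Odd decomposition, `τ = ∏ e_i`.**  `l = []`: `F = 0`. `l = [i]`: `F` is `K i`-invariant, `E i = F`. `l = i :: l'`, `l' ≠ []`: notation as in the proof of `S_Ob` with `z = F`, `s = -1`: `F1(a) = F(β(a) a)`,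
`F1(τ' a) = -F(e_i β(a) a)`, `D(a) = F1(τ' a) + F1(a)`, `K i`-invariant, `Tl K l' D = 0`, `D(τ' a) = D(a)`. `S_Ob` for `l'`, `s = 1`, `D`: the parity condition is only needed if `|l'|` is odd, that is
`|l|` even; then with `l' = j :: l''`, `C = Cb e l'' F`: `Cb e l'' D (a) ≡ C(e_i β(a) a) + C(β(a) a) ≡ C(e_j x) + C(x) = Cb e l' F x` with `x = β(a) a`, as in the proof of `S_Ob`, and this is even by hypothesis
(`l.erase i = l'`). So `D(a) = ρ(a) + ρ(τ' a)`, `Tl K l' ρ = 0`, and `ρ` can be made `K i`-invariant. `E i = F1 - ρ`: `K i`-invariant, `E i (τ a) = E i (τ' a) = (D(a) - F1(a)) - (D(a) - ρ(a)) = -E i (a)`.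
`F - E i = (F - F1) + ρ` satisfies `Tl K l' = 0` and is odd for `τ`, and `τ ∉ KS K l'`, `τ² = 1`: `S_DecO` gives the `E j`, `j ∈ l'`.
Hypotheses you may use: `S_BsS`, `S_RelB`, `S_CbB`, `S_DecO`, `S_Ob`. -/
def S_DecP : Prop := ∀ (G : Type) [CommGroup G] [Fintype G] (K : ℕ → Subgroup G) (e : ℕ → G) (l : List ℕ), l.Nodup →
  Ind K l → Iv K e l → ∀ F : G → ℤ, (∀ a, F ((l.map e).prod * a) = -F a) → Tl K l F = 0 →
    (¬ 2 ∣ l.length ∨ ∀ q ∈ l, ∀ a, (2 : ℤ) ∣ Cb e (l.erase q) F a) →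
    ∃ E : ℕ → G → ℤ, (∀ i ∈ l, (∀ a, E i ((l.map e).prod * a) = -E i a) ∧ ∀ k ∈ K i, ∀ a, E i (k * a) = E i a) ∧
      ∀ a, F a = ∑ i ∈ l.toFinset, E i a

/-- **Parity.**  By `S_DecN` `F = ∑_{i ∈ l} E i` with `K i`-invariant `E i`. `Cs e (l.erase q) (E i) = 0` for `i ≠ q` (`S_CbB` (7)), so `H_q := Cs e (l.erase q) F = Cs e (l.erase q) (E q)` is `K q`-invariant: first claim.
Let `C_q = Cb e (l.erase q) F ≡ H_q` mod `2`. For `q ≠ q'` in `l` let `C = Cb e ((l.erase q).erase q') F`; up to permutation `l.erase q = q' :: ..`, `l.erase q' = q :: ..`, so `C_q(a) = C(a) + C(e_{q'} a)`,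
`C_{q'}(a) = C(a) + C(e_q a)`. `C` is invariant under the other `e_k`, `C(τ a) = -C(a) ≡ C(a)`, so `C(e_q e_{q'} a) ≡ C(a)` and `C(e_{q'} a) ≡ C(e_q a)`: `C_q ≡ C_{q'}` mod `2`. So for all `q, q' ∈ l` the parities agree, the
parity of `C_q` is invariant under all `K_i`, `i ∈ l`, so under `KS K l = ⊤` (induction on the list), so it is constant.
Hypotheses you may use: `S_DecN`, `S_CbB`. -/
def S_ParC : Prop := ∀ (G : Type) [CommGroup G] [Fintype G] (K : ℕ → Subgroup G) (e : ℕ → G) (l : List ℕ), l.Nodup →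
  Ind K l → Iv K e l → KS K l = ⊤ → ∀ F : G → ℤ, (∀ a, F ((l.map e).prod * a) = -F a) → Tl K l F = 0 →
    (∀ q ∈ l, ∀ k ∈ K q, ∀ a, Cs e (l.erase q) F (k * a) = Cs e (l.erase q) F a) ∧
    ((∀ q ∈ l, ∀ a, (2 : ℤ) ∣ Cb e (l.erase q) F a) ∨ ∀ q ∈ l, ∀ a, ¬ (2 : ℤ) ∣ Cs e (l.erase q) F a)

end Pool.Agent.FO
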