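import Pool.Agent.Lib.MP_640417_ag.FO.Main
import Pool.Agent.Lib.MP_640417_ag.GT.SpecI
import Pool.Agent.Lib.MP_640417_ag.GT.Defs

/-!
# Theorem GT (parity functionals), part J: the functionals

Every `S_X : Prop` is to be proved as `theorem pX : S_X` or from the stated hypotheses. All theorems of `FO/Main.lean`
(`hEl, hElP, pKpBas, hHoBas, hTup` and so on) may be used directly.
-/

set_option autoImplicit false

noncomputable section

namespace Pool.Agent.FO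

open Finset Pool.Agent.FC

/-! ## Definitions -/

/-- the product of a set of numbers -/
def pr (A : Finset ℕ) : ℤ := ∏ s ∈ A, (s : ℤ)

/-- the telescoping product -/
def Rf (I : ℕ → ℤ → ℤ) (c : ℤ) (p : ℕ) (A : Finset ℕ) : ℤ :=
  (-1) ^ A.card * (I p (c * pr A) * ∏ s ∈ A, I s (c * pr (A.erase s))) +
    ∑ C ∈ A.ssubsets.attach, (-1) ^ ((A \ C.1).card + 1) *
      (∏ s ∈ A \ C.1, I s (c * pr (A.erase s))) * Rf I c p C.1
termination_by A.card
decreasing_by exact Finset.card_lt_card (Finset.mem_ssubsets.1 C.2)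

theorem Rf_eq (I : ℕ → ℤ → ℤ) (c : ℤ) (p : ℕ) (A : Finset ℕ) : Rf I c p A =
    (-1) ^ A.card * (I p (c * pr A) * ∏ s ∈ A, I s (c * pr (A.erase s))) +
      ∑ C ∈ A.ssubsets, (-1) ^ ((A \ C).card + 1) *
        (∏ s ∈ A \ C, I s (c * pr (A.erase s))) * Rf I c p C := by
  rw [Rf]
  congr 1
  exact Finset.sum_attach A.ssubsets (fun C => (-1) ^ ((A \ C).card + 1) *
        (∏ s ∈ A \ C, I s (c * pr (A.erase s))) * Rf I c p C)

/-- the function of the list `T`, the multiplier `c` and the set `L` -/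
def ups (I : ℕ → ℤ → ℤ) : List ℕ → ℤ → Finset ℕ → ℤ
  | [], _, L => if L = ∅ then 1 else 0
  | p :: T, c, L => ∑ A ∈ L.powerset, Rf I c p A * ups I T (c * pr A) (L \ A) +
      (-1) ^ (T.length + 1) * ∑ A ∈ L.powerset, Rf I (-c) p A * ups I T (-c * pr A) (L \ A)

/-- `f` is a sum of `N` products over `s ∈ S` of values `I s (b s)`, `b s` prime to `s`, with signs -/
def Tm (S : Finset ℕ) (N : ℕ) (f : (ℕ → ℤ → ℤ) → ℤ) : Prop :=
  ∃ (sg : Fin N → ℤ) (b : Fin N → ℕ → ℤ), (∀ i, |sg i| ≤ 1) ∧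
    (∀ i, ∀ s ∈ S, IsCoprime (b i s) (s : ℤ)) ∧ ∀ I, f I = ∑ i, sg i * ∏ s ∈ S, I s (b i s)

/-- `y ≡ b` modulo the power of `s` in `n` -/
def ik (n : ℕ) (y : ℤ) (s : ℕ) (b : ℤ) : ℤ := by
  classical
  exact if ((s ^ n.factorization s : ℕ) : ℤ) ∣ y - b then 1 else 0

/-- the functional at the level `n`; `T` is the list of the primes different from `q` -/
def Ph (T : List ℕ) (q n : ℕ) (c y : ℤ) : ℤ := by
  classical
  exact if q ∣ n ∧ ∀ s ∈ T, s ∣ n then ups (ik n y) T c ((n.primeFactors \ T.toFinset).erase q) else 0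

/-- the functional -/
def lam (T : List ℕ) (q : ℕ) {m : ℕ} (x : ZMod m) : ℤ :=
  Ph T q (addOrderOf x) 1 ((x.val / (m / addOrderOf x) : ℕ) : ℤ)

/-- `q` times the product of the primes in `T`, with `4` in place of `2` -/
def dt (T : List ℕ) (q : ℕ) : ℕ := q * (T.map fun p => if p = 2 then 4 else p).prod

/-- the hypothesis on the primes: `q :: T` is a list of different primes, `q ≠ 2`, `|T|` is odd -/
def Pr (T : List ℕ) (q : ℕ) : Prop :=
  (q :: T).Nodup ∧ (∀ p ∈ q :: T, p.Prime) ∧ q ≠ 2 ∧ ¬ 2 ∣ T.length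

/-- the cost at the level `n` -/
def cs (T : List ℕ) (q n : ℕ) : ℕ :=
  (if n.factorization 2 = 1 then 2 else 1) *
    nc T.length (((n.primeFactors \ T.toFinset).erase q).filter fun s => s ≠ 2 ∨ n.factorization 2 ≠ 1).card *
      (q ^ n.factorization q).totient

/-! ## The telescoping product -/

/-- **One prime drops out.**  Strong induction on `A` (`Rf_eq`). Put `A' = A.erase r`, `t_A = I p (c pr A) ∏_{s ∈ A} I s (c pr (A.erase s))`, `Q_{A,C}(c) = ∏_{s ∈ A \ C} I s (c pr (A.erase s))`.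
All values of `I r` which occur are at numbers prime to `r` (`c` times primes different from `r`), so they are `1`. `pr A = r pr A'`, and for `s ∈ A'`: `pr (A.erase s) = r pr (A'.erase s)`. So
`t_A(c) = t_{A'}(r c)`; for `C ⊆ A'`: `Q_{A,C}(c) = Q_{A',C}(r c)` (the factor for `r` is `1`) and `Q_{A, insert r C}(c) = Q_{A',C}(r c)`.
The proper subsets of `A` are the `C ⊆ A'` and the `insert r C`, `C ⊂ A'`; `|A \ C| = |A' \ C| + 1` for `C ⊆ A'`, `|A \ insert r C| = |A' \ C|`; by induction `Rf c (insert r C) = Rf c C - Rf (r c) C`. So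
`Rf c A = -(-1)^|A'| t_{A'}(r c) + Rf c A' + ∑_{C ⊂ A'} (-1)^{|A' \ C|} Q_{A',C}(r c) Rf c C + ∑_{C ⊂ A'} (-1)^{|A' \ C| + 1} Q_{A',C}(r c) (Rf c C - Rf (r c) C)`,
and this is `Rf c A' - Rf (r c) A'`. -/
def S_RfOne : Prop := ∀ (I : ℕ → ℤ → ℤ) (c : ℤ) (p : ℕ) (A : Finset ℕ) (r : ℕ), (∀ s ∈ A, s.Prime) → r ∈ A → p ≠ r →
  (∀ b : ℤ, IsCoprime b (r : ℤ) → I r b = 1) → IsCoprime c (r : ℤ) →
    Rf I c p A = Rf I c p (A.erase r) - Rf I (r * c) p (A.erase r)

/-- **The prime `p` drops out.**  Strong induction on `A`. `A = ∅`: `Rf = I p c = 1`. `A ≠ ∅`: by induction only `C = ∅` contributes: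
`Rf = (-1)^|A| Q + (-1)^(|A| + 1) Q = 0` with `Q = ∏_{s ∈ A} I s (c pr (A.erase s))` (`c pr A` is prime to `p`). -/
def S_RfP : Prop := ∀ (I : ℕ → ℤ → ℤ) (c : ℤ) (p : ℕ) (A : Finset ℕ), p.Prime → (∀ s ∈ A, s.Prime) → p ∉ A →
  (∀ b : ℤ, IsCoprime b (p : ℤ) → I p b = 1) → IsCoprime c (p : ℤ) →
    Rf I c p A = if A = ∅ then 1 else 0

/-- **Sign, scaling, `L = ∅`.**  (1) with `χ(c) = ∑_A Rf c p A * ups T (c pr A) (L \ A)`: `ups (p :: T) c L = χ(c) + (-1)^(|T| + 1) χ(-c)`. (No induction.) (2), (3) strong induction on `A`, induction on `T`: all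
arguments are multiples of `c`. (4) strong induction, induction: the functions only depend on the values `I s`, `s ∈ insert p A`, `s ∈ T ∪ L`. (5) induction on `T`: `Rf c p ∅ = I p c`, (1):
`I p c * ups T c ∅ + (-1)^(|T| + 1) I p (-c) (-1)^|T| ups T c ∅`. -/
def S_UpsB : Prop := ∀ (I I' : ℕ → ℤ → ℤ) (T : List ℕ) (c : ℤ) (L : Finset ℕ),
  (ups I T (-c) L = (-1) ^ T.length * ups I T c L) ∧
  (∀ a : ℤ, (∀ s b, I' s b = I s (a * b)) → ∀ p A, Rf I' c p A = Rf I (a * c) p A) ∧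
  (∀ a : ℤ, (∀ s b, I' s b = I s (a * b)) → ups I' T c L = ups I T (a * c) L) ∧
  ((∀ s, s ∈ T ∨ s ∈ L → I' s = I s) → ups I' T c L = ups I T c L) ∧
  ups I T c ∅ = (T.map fun p => I p c - I p (-c)).prod

/-- **A prime of `L` drops out.**  Induction on `T`, generalizing `c`, `L`. `T = []`: `L ≠ ∅`, `0 = 1 - 1` or `0 = 0 - 0` (the two terms on the right are equal). `p :: T`: `L' = L.erase r`; split the sum over `A ⊆ L` in the `A ⊆ L'` and the
`insert r A`, `A ⊆ L'` (`Finset.powerset_insert`). By `S_RfOne` the terms of `insert r A` are `(Rf c A - Rf (r c) A) * ups T (r c pr A) (L' \ A)`; by induction (`L \ A` contains `r`, `(L \ A).erase r = L' \ A`; `c pr A` is prime to `r`)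
the terms of `A` are `Rf c A * (ups T (c pr A) (L' \ A) - ups T (r c pr A) (L' \ A))`. The sum is `Rf c A ups T (c pr A) (L' \ A) - Rf (r c) A ups T (r c pr A) (L' \ A)`. The same for `-c`.
Hypotheses you may use: `S_RfOne`. -/
def S_UpsL : Prop := ∀ (I : ℕ → ℤ → ℤ) (T : List ℕ) (c : ℤ) (L : Finset ℕ) (r : ℕ), (∀ s ∈ L, s.Prime) → r ∈ L → r ∉ T →
  (∀ b : ℤ, IsCoprime b (r : ℤ) → I r b = 1) → IsCoprime c (r : ℤ) →
    ups I T c L = ups I T c (L.erase r) - ups I T (r * c) (L.erase r)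

/-- **A prime of `T` drops out: zero.**  Induction on `T`, generalizing `c`, `L`. `p :: T`. If `r ∈ T`: all terms are `0` by induction (`c pr A` is prime to `r` because `r ∉ A`). If `r = p`: `Rf c p A = 1` for `A = ∅` and `0` otherwise (`S_RfP`, also for `-c`), so the value is
`ups T c L + (-1)^(|T| + 1) ups T (-c) L = 0` by `S_UpsB` (1).
Hypotheses you may use: `S_RfP`, `S_UpsB`. -/
def S_UpsT : Prop := ∀ (I : ℕ → ℤ → ℤ) (T : List ℕ) (c : ℤ) (L : Finset ℕ) (r : ℕ), (∀ s ∈ L, s.Prime) → (∀ s ∈ T, s.Prime) →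
  T.Nodup → (∀ s ∈ T, s ∉ L) → r ∈ T → (∀ b : ℤ, IsCoprime b (r : ℤ) → I r b = 1) → IsCoprime c (r : ℤ) →
    ups I T c L = 0

/-! ## Terms -/

/-- **Sums of products.**  (1) `Fin (N + N')` (`finSumFinEquiv`). (2) `Fin (N * N')` (`finProdFinEquiv`), `b (i, i') s = b i s` for `s ∈ S`, `b' i' s` otherwise. (3) clear. (4) all signs `0`, `b = 1`. (5) one term. (6) induction on the finite set, (1), (4).
(7) (1) with (4). (8) the given functions have the same values. -/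
def S_TmBas : Prop := ∀ (S S' : Finset ℕ) (N N' : ℕ) (f g : (ℕ → ℤ → ℤ) → ℤ),
  (Tm S N f → Tm S N' g → Tm S (N + N') fun I => f I + g I) ∧
  (Tm S N f → Tm S' N' g → Disjoint S S' → Tm (S ∪ S') (N * N') fun I => f I * g I) ∧
  (∀ c : ℤ, |c| ≤ 1 → Tm S N f → Tm S N fun I => c * f I) ∧
  (Tm S N fun _ => 0) ∧
  (∀ b : ℕ → ℤ, (∀ s ∈ S, IsCoprime (b s) (s : ℤ)) → Tm S 1 fun I => ∏ s ∈ S, I s (b s)) ∧
  (∀ (J : Finset (Finset ℕ)) (n : Finset ℕ → ℕ) (F : Finset ℕ → (ℕ → ℤ → ℤ) → ℤ), (∀ j ∈ J, Tm S (n j) (F j)) →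
    Tm S (∑ j ∈ J, n j) fun I => ∑ j ∈ J, F j I) ∧
  (N ≤ N' → Tm S N f → Tm S N' f) ∧
  ((∀ I, f I = g I) → Tm S N f → Tm S N g)

/-- **Use of the terms.**  (1) Every term is a product over `S`; the factors for `s ≠ r` do not depend on `j`; sum over `j` of the factor for `r`. (2) clear. (3) triangle inequality; interchange the sums. -/
def S_TmUse : Prop := ∀ (S : Finset ℕ) (N : ℕ) (f : (ℕ → ℤ → ℤ) → ℤ), Tm S N f →
  (∀ (J : Finset ℕ) (I : ℕ → ℕ → ℤ → ℤ) (I0 : ℕ → ℤ → ℤ) (r : ℕ), r ∈ S →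
    (∀ j ∈ J, ∀ s ∈ S, s ≠ r → ∀ b : ℤ, IsCoprime b (s : ℤ) → I j s b = I0 s b) →
    (∀ b : ℤ, IsCoprime b (r : ℤ) → ∑ j ∈ J, I j r b = I0 r b) → ∑ j ∈ J, f (I j) = f I0) ∧
  (∀ I I0 : ℕ → ℤ → ℤ, (∀ s ∈ S, ∀ b : ℤ, IsCoprime b (s : ℤ) → I s b = I0 s b) → f I = f I0) ∧
  (∀ (V : Type) [Fintype V] (I : V → ℕ → ℤ → ℤ) (B : ℤ), (∀ b : ℕ → ℤ, ∑ v, |∏ s ∈ S, I v s (b s)| ≤ B) →
    ∑ v, |f (I v)| ≤ N * B)

/-- **Terms of `Rf`.**  Strong induction on `A`. First term: one term of `S = insert p A` with `b p = c pr A`, `b s = c pr (A.erase s)` (prime to `p`, `s`), sign. For `C ⊂ A`: product of one term of `A \ C` and of `nb |C|` terms of `insert p C` (disjoint, union `insert p A`), sign.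
Number: `1 + ∑_{C ⊂ A} nb |C| = 1 + ∑_{j < |A|} (|A| choose j) nb j = nb |A|` (`nb_eq`; `Finset.sum_powerset_apply_card` minus the term of `A`; or sum over `ssubsets` by cardinality).
Hypotheses you may use: `S_TmBas`. -/
def S_TmRf : Prop := ∀ (c : ℤ) (p : ℕ) (A : Finset ℕ), p.Prime → (∀ s ∈ A, s.Prime) → p ∉ A →
  (∀ s ∈ insert p A, IsCoprime c (s : ℤ)) → Tm (insert p A) (nb A.card) fun I => Rf I c p A

/-- **Terms of `ups`.**  Induction on `T`, generalizing `c`, `L`. `T = []`: `nc 0 |L|` is `1` for `L = ∅` (one empty product) and `0` otherwise. `p :: T`: for `A ⊆ L` the product of `nb |A|` terms of `insert p A` and `nc |T| |L \ A|` terms of `T ∪ (L \ A)` (disjoint, the union is `(p :: T) ∪ L`);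
`∑_{A ⊆ L} nb |A| nc |T| (|L| - |A|) = ∑_j (|L| choose j) nb j nc |T| (|L| - j)` (`Finset.sum_powerset_apply_card`); twice. `c pr A` is prime to the elements of `T ∪ (L \ A)`.
Hypotheses you may use: `S_TmBas`, `S_TmRf`. -/
def S_TmUps : Prop := ∀ (T : List ℕ) (c : ℤ) (L : Finset ℕ), T.Nodup → (∀ s ∈ T, s.Prime) → (∀ s ∈ L, s.Prime) →
  (∀ s ∈ T, s ∉ L) → (∀ s ∈ T.toFinset ∪ L, IsCoprime c (s : ℤ)) →
    Tm (T.toFinset ∪ L) (nc T.length L.card) fun I => ups I T c L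

/-! ## Levels -/

/-- **Basic facts on `Ph`.**  (1) `s ^ v_s(n) ∣ n`, so `ik n (y + n z) = ik n y`. (2) `S_UpsB` (1). (3) For `s ∣ n`: `s ^ v ∣ w - b` if and only if `s ^ v ∣ r w - r b` (`r` is prime to `s`), and `r w ≡ y` modulo `s ^ v`, so
`ik n w s b = ik n y s (r b)` (for `s ∤ n` both are `1`); `S_UpsB` (3). (4) Suppose `Ph ≠ 0`; then `q ∣ n` and all `s ∈ T` divide `n`; if `2 ∈ T` and `4 ∤ n` then `v_2(n) = 1`, `ik n y 2 b = 1` for all odd `b` (`y` is odd), and `S_UpsT` for `r = 2` gives `0`.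
The factors of `dt` are pairwise coprime.
Hypotheses you may use: `S_UpsB`, `S_UpsT`. -/
def S_PhBas : Prop := ∀ (T : List ℕ) (q n : ℕ) (c y : ℤ), Pr T q → 0 < n →
  (∀ z : ℤ, Ph T q n c (y + n * z) = Ph T q n c y) ∧
  (Ph T q n (-c) y = -Ph T q n c y) ∧
  (∀ r w : ℤ, IsCoprime r (n : ℤ) → (n : ℤ) ∣ r * w - y → Ph T q n c w = Ph T q n (r * c) y) ∧
  (IsCoprime c (n : ℤ) → IsCoprime y (n : ℤ) → Ph T q n c y ≠ 0 → dt T q ∣ n)

/-- **Relations, `r ≠ q`.**  `c` is prime to `r n`. Let `L` be the set of the level `n` (`(n.primeFactors \ T).erase q`). If `q ∤ n` or some `s ∈ T`, `s ≠ r`, does not divide `n` all terms are `0`. Otherwise put `I j = ik (r n) (y + j n)`, `j ∈ J = {j < r | y + j n` prime to `r n}`.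
For `s ≠ r`: `v_s(r n) = v_s(n)`, so `I j s b = ik n y s b`. For `s = r`: let `v = v_r(n)`, `b` prime to `r`; exactly one `j < r` satisfies `r ^ (v + 1) ∣ y + j n - b` if `r ^ v ∣ y - b` and none otherwise (`n = r ^ v n'`, `n'` prime to `r`), and this `j` is in `J`: `y + j n` is prime to `n` and, being `≡ b` modulo `r`, prime to `r`.
So `∑_{j ∈ J} I j r b = ik n y r b` (which is `1` if `v = 0`).
(1) `r ∣ n`: the level `r n` has the same set `L`; `S_TmUps`, `S_TmUse` (1) if `r ∈ T ∪ L`. (2) `r ∤ n`, `r ∉ T`: the set is `insert r L`; `S_TmUps`, `S_TmUse` (1) with `I0 = ik n y` (note `ik n y r b = 1`): the sum is `ups (ik n y) T c (insert r L)`, and `S_UpsL`. (3) `r ∤ n`, `r ∈ T`: the sum is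
`ups (ik n y) T c L` with `L = ((r n).primeFactors \ T).erase q`, which is `0` by `S_UpsT`; the right side is `0` by definition.
Hypotheses you may use: `S_UpsL`, `S_UpsT`, `S_TmUps`, `S_TmUse`. -/
def S_PhR : Prop := ∀ (T : List ℕ) (q n r : ℕ) (c y : ℤ), Pr T q → 0 < n → r.Prime → r ≠ q →
  IsCoprime c ((r * n : ℕ) : ℤ) → IsCoprime y (n : ℤ) → ∀ J : Finset ℕ,
  (∀ j, j ∈ J ↔ j < r ∧ IsCoprime (y + j * n) ((r * n : ℕ) : ℤ)) →
  ∑ j ∈ J, Ph T q (r * n) c (y + j * n) = if r ∣ n then Ph T q n c y else Ph T q n c y - Ph T q n (r * c) y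

/-- **Relations, `r = q`.**  `ik (q n) (y + j n) s b = ik n y s b` for `s ≠ q`, and `ups` for `q n` only uses the `s ≠ q` (`S_UpsB` (4)), so all terms are equal. `q ∣ n`: `J` is the set of all `j < q` (`y + j n` is prime to `n`, so to `q`), the sum is `q Ph n c y`. `q ∤ n`:
`J` has `q - 1` elements (exactly one `j < q` with `q ∣ y + j n`), and `Ph n c y = 0`.
Hypotheses you may use: `S_UpsB`. -/
def S_PhQ : Prop := ∀ (T : List ℕ) (q n : ℕ) (c y : ℤ), Pr T q → 0 < n → IsCoprime y (n : ℤ) → ∀ J : Finset ℕ,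
  (∀ j, j ∈ J ↔ j < q ∧ IsCoprime (y + j * n) ((q * n : ℕ) : ℤ)) →
  ((q : ℤ) - 1) ∣ ∑ j ∈ J, Ph T q (q * n) c (y + j * n) - Ph T q n c y

/-! ## The functional on `ZMod m` -/

/-- **Values.**  For `y` prime to `n`, `n ∣ m`: the element `(m / n) y` has order `n` (`n > 0`), and its `val` is `(m / n) (y mod n)`, so the value of `lam` is `Ph T q n 1 (y mod n)`, and (1) follows from `S_PhBas` (1). (2) every `x` is of this form: `n = ord x`, `(m / n) ∣ x.val`, `y = x.val / (m / n)`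
(compare `hEl`). (3) `u.val` is prime to `d`. (4): `-x` is the element of `-y`; `S_PhBas` (3) with `r = -1` and (2). (5) from (1), (2) and `S_PhBas` (4).
Hypotheses you may use: `S_PhBas`. -/
def S_LamB : Prop := ∀ (T : List ℕ) (q m : ℕ) [NeZero m], Pr T q →
  (∀ (n : ℕ) (y : ℤ), n ∣ m → IsCoprime y (n : ℤ) →
    addOrderOf (((m / n : ℕ) : ZMod m) * (y : ZMod m)) = n ∧
    lam T q (((m / n : ℕ) : ZMod m) * (y : ZMod m)) = Ph T q n 1 y) ∧
  (∀ x : ZMod m, ∃ y : ℤ, IsCoprime y (addOrderOf x : ℤ) ∧ addOrderOf x ∣ m ∧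
    x = ((m / addOrderOf x : ℕ) : ZMod m) * (y : ZMod m)) ∧
  (∀ (d : ℕ) [NeZero d], d ∣ m → ∀ u : (ZMod d)ˣ, IsCoprime (((u : ZMod d).val : ℕ) : ℤ) (d : ℤ) ∧
    el m d u = ((m / d : ℕ) : ZMod m) * ((((u : ZMod d).val : ℕ) : ℤ) : ZMod m)) ∧
  (∀ x : ZMod m, lam T q (-x) = -lam T q x) ∧
  (∀ x : ZMod m, lam T q x ≠ 0 → dt T q ∣ addOrderOf x)

/-- **Distribution relations.**  Let `z = r x0`, `n = ord z`, `z = (m / n) y` (`S_LamB` (2)). `r n ∣ m`: `n r x0 = 0`... in detail: `r ∣ m / n`, because `r ∣ m` and `r x0 = (m / n) y` in `ZMod m` give `r ∣ (m / n) y`; if `r ∤ m / n` then `r ∣ y`, and `r ∣ m = (m / n) n` gives `r ∣ n`, a contradiction to `y` prime to `n`.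
The solutions of `r x = z` are the `r` elements `x_j = (m / (r n)) (y + j n)`, `j < r` (they are solutions, different, and `r x = 0` has `r` solutions). If `y + j n` is prime to `r n` then `lam (x_j) = Ph T q (r n) 1 (y + j n)` (`S_LamB` (1)). Otherwise `r ∣ y + j n = r w`, `r ∤ n`, `x_j = (m / n) w`, `w` prime to `n`, `r w ≡ y` modulo `n`, so
`lam (x_j) = Ph T q n 1 w = Ph T q n r y` (`S_PhBas` (3)), and there is exactly one such `j` if `r ∤ n`, none if `r ∣ n`. For `r ≠ q`: the sum is `Ph T q n 1 y = lam z` by `S_PhR`. For `r = q`: `S_PhQ`; `Ph T q n = 0` if `q ∤ n`.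
Hypotheses you may use: `S_PhBas`, `S_PhR`, `S_PhQ`, `S_LamB`. -/
def S_LamR : Prop := ∀ (T : List ℕ) (q m r : ℕ) [NeZero m], Pr T q → r.Prime → r ∣ m → ∀ x0 : ZMod m,
  (r ≠ q → ∑ x ∈ univ.filter (fun x : ZMod m => (r : ZMod m) * x = r * x0), lam T q x = lam T q ((r : ZMod m) * x0)) ∧
  (r = q → ((q : ℤ) - 1) ∣
    ∑ x ∈ univ.filter (fun x : ZMod m => (r : ZMod m) * x = r * x0), lam T q x - lam T q ((r : ZMod m) * x0))

/-- **Sums over `InHo` functions.**  Replace `lam` by `Λ(x) = lam T q (t x)`: it is odd and satisfies the relations of `S_LamR` (`x ↦ t x` is a bijection from the solutions of `r x = r x0` to those of `r x' = r (t x0)`). For `h = ∑_r hD r (G r)` (`InHo`):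
`∑_x (G(r x) - G(x)) Λ(x) = ∑_z G(z) (∑_{r x = z} Λ(x) - Λ(z))` (`G` is supported on the multiples of `r`), which is `0` for `r ≠ q`. For `r = q` the function `B(z) = G(z) (∑_{q x = z} Λ(x) - Λ(z))` is even, divisible by `q - 1`, and `0` at the `z` with `z = -z` (`G` is odd, so `G(z) = 0`), so its sum is divisible by `2 (q - 1)`
(pair `z` with `-z`).
Hypotheses you may use: `S_LamB`, `S_LamR`. -/
def S_LamHo : Prop := ∀ (T : List ℕ) (q m : ℕ) [NeZero m], Pr T q → ∀ (t : (ZMod m)ˣ) (h : ZMod m → ℤ), InHo h →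
  2 * ((q : ℤ) - 1) ∣ ∑ x, h x * lam T q ((t : ZMod m) * x)

/-- **Number of units in a residue class.**  Let `n = q ^ v n'`, `n'` prime to `q`, `S` the set of the primes of `n'`. The units `v` modulo `n` with `v.val ≡ b s` modulo `s ^ v_s(n)` for all `s ∈ S` are in one residue class modulo `n'`; two of them have the quotient in the kernel of `(ZMod n)ˣ → (ZMod n')ˣ`, which has `φ(n) / φ(n') = φ(q ^ v)`
elements. (Or: such units are determined by their residue modulo `q ^ v`, which is prime to `q`.) -/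
def S_Cnt : Prop := ∀ (q n : ℕ) [NeZero n], q.Prime → q ∣ n → ∀ b : ℕ → ℤ,
  ∑ v : (ZMod n)ˣ, |∏ s ∈ n.primeFactors.erase q, ik n (((v : ZMod n).val : ℕ) : ℤ) s (b s)| ≤
    ((q ^ n.factorization q).totient : ℤ)

/-- **Mean value.**  If `Ph T q n 1 ≠ 0` for some unit then `q ∣ n` and all `s ∈ T` divide `n`. Put `L = (n.primeFactors \ T).erase q`, `S = T ∪ L = n.primeFactors.erase q`. If `v_2(n) ≠ 1`: `S_TmUps`, `S_TmUse` (3) with `B = φ(q ^ v)` (`S_Cnt`): at most `nc |T| |L| φ(q ^ v)`. If `v_2(n) = 1`, `2 ∈ T`: everything is `0` (`S_PhBas` (4)). If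
`v_2(n) = 1`, `2 ∈ L` (`q ≠ 2`): `I 2 b = ik n v 2 b = 1` for odd `b`, so by `S_UpsL` `ups I T 1 L = ups I T 1 (L.erase 2) - ups I T 2 (L.erase 2)`, both are sums of `nc |T| (|L| - 1)` products over `S' = S.erase 2` (`S_TmUps`; `2` is prime to the elements of `S'`); in `S_TmUse` (3) the products over `S'`: `ik n v 2 1 = 1`, so the product over `S'` is the product over `S` with `b 2 = 1`, `S_Cnt`.
Hypotheses you may use: `S_PhBas`, `S_UpsL`, `S_TmUps`, `S_TmUse`, `S_Cnt`. -/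
def S_Mean : Prop := ∀ (T : List ℕ) (q n : ℕ) [NeZero n], Pr T q →
  ∑ v : (ZMod n)ˣ, |Ph T q n 1 (((v : ZMod n).val : ℕ) : ℤ)| ≤ cs T q n

/-- **Mean value over the units of `ZMod m`.**  Let `n = ord a`, `a = el m n u` (`hEl`); `t a = el m n (unitsMap t * u)`, the map `(ZMod m)ˣ → (ZMod n)ˣ` is onto with fibres of `φ(m) / φ(n)` elements, so `φ(n) ∑_t |lam (t a)| = φ(m) ∑_v |Ph T q n 1 v.val|` (`S_LamB` (1), (3)), and `S_Mean`. If `dt T q ∤ n`: `lam (t a) = 0` (`S_LamB` (5),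
`ord (t a) = ord a`).
Hypotheses you may use: `S_LamB`, `S_Mean`. -/
def S_LamAv : Prop := ∀ (T : List ℕ) (q m : ℕ) [NeZero m], Pr T q → ∀ a : ZMod m,
  ((addOrderOf a).totient : ℤ) * ∑ t : (ZMod m)ˣ, |lam T q ((t : ZMod m) * a)| ≤ m.totient * cs T q (addOrderOf a) ∧
  (¬ dt T q ∣ addOrderOf a → ∀ t : (ZMod m)ˣ, lam T q ((t : ZMod m) * a) = 0)

/-- **Tuples.**  `f(x) = cnt a x - cnt a (-x)`. For odd `Λ(x) = lam T q (t x)`: `∑_x f(x) Λ(x) = 2 ∑_i Λ(a i)`. If `card ι = 0` it is `0`. Otherwise, by `S_LamAv` and the hypothesis, for every `i`: `2 N ∑_t |lam (t a_i)| < (q - 1) φ(m)` (divide by `φ(n) > 0`; it is `0 < (q - 1) φ(m)` if `dt T q ∤ ord a_i`; `N ≥ 1`), so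
`2 ∑_t ∑_i |lam (t a_i)| < (q - 1) φ(m)` because there are at most `N` indices `i`, and some `t` has `2 ∑_i |lam (t a_i)| < q - 1`.
Hypotheses you may use: `S_LamB`, `S_LamAv`. -/
def S_LamT : Prop := ∀ (T : List ℕ) (q m N : ℕ) [NeZero m], Pr T q → (∀ n, n ∣ m → dt T q ∣ n →
    2 * N * cs T q n < (q - 1) * n.totient) →
  ∀ (ι : Type) [Fintype ι] (a : ι → ZMod m), Fintype.card ι ≤ N →
    ∃ t : (ZMod m)ˣ, |∑ x, (cnt a x - cnt a (-x)) * lam T q ((t : ZMod m) * x)| < q - 1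

/-- **Growth of the numbers of terms.**  `nb (l + 1) ≤ 2 (l + 1) nb l`: `C(l + 1, k) ≤ (l + 1) C(l, k)` for `k ≤ l`, so `nb (l + 1) = 1 + ∑_{k ≤ l} C(l + 1, k) nb k ≤ 1 + (l + 1) (nb l + (nb l - 1))` (`nb_eq`), and `1 - (l + 1) ≤ 0`. Second part by induction on `k`: `k = 0`: `nc 0 (l + 1) = 0`.
`nc (k + 1) (l + 1) = 2 ∑_{j ≤ l + 1} C(l + 1, j) nb j nc k (l + 1 - j) = 2 ∑_{j ≤ l} C(l, j) (nb j nc k (l + 1 - j) + nb (j + 1) nc k (l - j))` (Pascal), and the bracket is at most `nb j nc k (l - j) (2 (l - j + k) + 2 (j + 1))`. -/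
def S_NcR : Prop := (∀ l, nb (l + 1) ≤ 2 * (l + 1) * nb l) ∧ ∀ k l, nc k (l + 1) ≤ 2 * (l + k) * nc k l

end Pool.Agent.FO
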