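import Pool.Agent.Lib.MP_640417_ag.GT.MainI
import Pool.Agent.Lib.MP_640417_ag.GT.SpecJ
import Pool.Agent.Lib.MP_640417_ag.FO.SpecH
import Pool.Agent.Lib.MP_640417_ag.FO.StepBG
import Pool.Agent.Lib.MP_640417_ag.FO.StepGen
import Pool.Agent.Lib.MP_640417_ag.FO.TopG
import Pool.Agent.Lib.MP_640417_ag.FO.KsNeg

/-!
# Theorem GT (parity functionals), part K: levels, induction, corollaries

Every `S_X : Prop` is to be proved as `theorem pX : S_X` or from the stated hypotheses. Proved facts which may be used directly: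
`gHfS, gBsS, gRelB, gCbB, gDecN, gDecO, gOb, gDecP, gParC` (part I), `pTopG, pStepGen, pStepBG, pKsNeg`, and all of `FO/Main.lean` (`hEl, hElP, pKpBas, hHoBas,
pClHd, pClEven, hTra, hTup, hSzBas, pSumKK` and so on).
-/

set_option autoImplicit false

noncomputable section

namespace Pool.Agent.FO

open Finset Pool.Agent.FC

/-! ## Definitions -/

/-- odd parts of functions with class in the group `A` -/
def InA {m : ℕ} [NeZero m] (A : AddSubgroup (UnitAddCircle →₀ ℤ)) (f : ZMod m → ℤ) : Prop :=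
  ∃ g : ZMod m → ℤ, g 0 = 0 ∧ (∀ x, f x = g x - g (-x)) ∧ cl g ∈ A

/-- the odd part of `d` is squarefree and the power of `2` in `d` is `1` or `4` -/
def Sqf (d : ℕ) : Prop := d % 4 ≠ 2 ∧ ∀ p, p.Prime → p ^ 2 ∣ d → p = 2 ∧ ¬ 8 ∣ d

/-- `-1` modulo the power of `p` in `d`, `1` modulo the other prime powers -/
def IsEn (d p : ℕ) (u : (ZMod d)ˣ) : Prop :=
  ((p ^ d.factorization p : ℕ) : ℤ) ∣ (((u : ZMod d).val : ℕ) : ℤ) + 1 ∧
    ((d / p ^ d.factorization p : ℕ) : ℤ) ∣ (((u : ZMod d).val : ℕ) : ℤ) - 1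

/-- the unit which is `-1` modulo the power of `p` in `d`, `1` modulo the other prime powers -/
def en (d p : ℕ) : (ZMod d)ˣ := by
  classical
  exact if h : ∃ u : (ZMod d)ˣ, IsEn d p u then h.choose else 1

/-- odd parity class -/
def OdP (d : ℕ) [NeZero d] (F : (ZMod d)ˣ → ℤ) : Prop :=
  ∀ l : List ℕ, l.Nodup → (∀ p, p ∈ l ↔ p ∈ d.primeFactors) → ∀ q ∈ l, ∀ a, ¬ (2 : ℤ) ∣ Cs (en d) (l.erase q) F a

/-- the product of the primes in `T`, with `4` in place of `2` -/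
def dT (T : Finset ℕ) : ℕ := ∏ p ∈ T, if p = 2 then 4 else p

/-- for every set `T` which is not in `Al` some functional of `T` does not take an odd multiple of `q - 1` on `f` -/
def Chk {m : ℕ} [NeZero m] (Al : Finset ℕ → Prop) (f : ZMod m → ℤ) : Prop :=
  ∀ T, Ess m T → ¬ Al T → ∃ (q : ℕ) (l : List ℕ) (t : (ZMod m)ˣ), Pr l q ∧ (∀ p, p ∈ q :: l ↔ p ∈ T) ∧
    ∀ z : ℤ, ∑ x, f x * lam l q ((t : ZMod m) * x) = ((q : ℤ) - 1) * z → (2 : ℤ) ∣ z

/-- the hypotheses on the group `A` and the sets `Al` of primes -/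
def GdA (m : ℕ) [NeZero m] (A : AddSubgroup (UnitAddCircle →₀ ℤ)) (Al : Finset ℕ → Prop) : Prop :=
  HD ≤ A ∧ (∀ T T' : Finset ℕ, Al T' → T ⊆ T' → T.Nonempty → 2 ∣ T.card → Al T) ∧
    ∀ T, Ess m T → Al T → ∃ g : ZMod m → ℤ, InA A g ∧ IsOdd g ∧ Rl g ∧ (∀ x, g x ≠ 0 → addOrderOf x ∣ dT T) ∧
      ∀ (d : ℕ) [NeZero d], d = dT T → OdP d fun u => g (el m d u)

/-- the numerical condition for the set `T`, in terms of levels -/
def CrN (m N : ℕ) (T : Finset ℕ) : Prop :=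
  ∃ (q : ℕ) (l : List ℕ), Pr l q ∧ (∀ p, p ∈ q :: l ↔ p ∈ T) ∧
    ∀ n, n ∣ m → dt l q ∣ n → 2 * N * cs l q n < (q - 1) * n.totient

/-! ## Levels -/

/-- **The units `e_p`.**  (1) Chinese remainder theorem for `p ^ v` and `d / p ^ v` (coprime); the solution is prime to `d`. (2) two such units agree modulo both. (3) the product is `-1` modulo every prime power: induction on the list, or compare modulo the `p ^ v_p(d)` (all factors but one are `1`).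
(4) `e_p ∈ Kp d p`: `1` modulo `d / p`: for odd `p` `v = 1`; for `p = 2`, `v = 2`: `d / 2 = 2 (d / 4)`, `e` is odd, `d / 4` is odd. `e_p ≠ 1`: otherwise `p ^ v ∣ 2`, but `p ^ v ≥ 3`. `e_p² = 1` modulo both. `KS (Kp d) l = ⊤`: `|KS| = ∏ |Kp d p|` (`pSumKK` with the constant function `1`, `pKpBas` for the
independence), `|Kp d p| = p - 1` for odd `p`, `2` for `p = 2`, and the product is `φ(d)`; or every unit is the product of its components.  -/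
def S_En : Prop := ∀ (d : ℕ) [NeZero d],
  (∀ p ∈ d.primeFactors, IsEn d p (en d p)) ∧
  (∀ p ∈ d.primeFactors, ∀ u : (ZMod d)ˣ, IsEn d p u → u = en d p) ∧
  ∀ l : List ℕ, l.Nodup → (∀ p, p ∈ l ↔ p ∈ d.primeFactors) → (l.map (en d)).prod = -1 ∧
    (Sqf d → Iv (Kp d) (en d) l ∧ KS (Kp d) l = ⊤)

/-- **Decomposition at one level.**  `l = d.primeFactors.toList`; `Ind (Kp d) l` by `pKpBas`. CASE not `Sqf d`: since `d % 4 ≠ 2` there is a prime `p` with `p² ∣ d` and `p ≠ 2` or `8 ∣ d`; let `n = p`, respectively `n = 4`: `3 ≤ n`, `n ∣ d / p'` for all primes `p' ∣ d`. `pKsNeg`: `-1 ∉ KS (Kp d) l`, `gDecO` with `ε = -1`: `Dcm`.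
CASE `Sqf d`: `e = en d`, `S_En`: `(l.map e).prod = -1`. `gParC`: if all `Cb e (l.erase q) F a` are even: `gDecP`. Otherwise all `Cs e (l.erase q) F a` are odd: if `|l|` is odd `gDecP` again; if `|l|` is even: the last alternative (`OdP` for other lists `l'`: a permutation of `l`, `gCbB` (11)).
Hypotheses you may use: `S_En`. -/
def S_DcK : Prop := ∀ (d : ℕ) [NeZero d], (¬ 2 ∣ d ∨ 4 ∣ d) → 1 < d → ∀ F : (ZMod d)ˣ → ℤ, (∀ u, F (-1 * u) = -F u) →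
  TlA d F → (∃ E, Dcm d F E) ∨ (Sqf d ∧ 2 ∣ d.primeFactors.card ∧ OdP d F)

/-- **Difference of two odd classes.**  `l = d.primeFactors.toList`, `F = F1 - F2`. `Cb e (l.erase q) F ≡ Cs e (l.erase q) F1 - Cs e (l.erase q) F2` modulo `2` (`gCbB`), a difference of odd numbers; `gDecP`, `S_En`.
Hypotheses you may use: `S_En`. -/
def S_DcE : Prop := ∀ (d : ℕ) [NeZero d], Sqf d → ∀ F1 F2 : (ZMod d)ˣ → ℤ,
  (∀ u, F1 (-1 * u) = -F1 u) → (∀ u, F2 (-1 * u) = -F2 u) → TlA d F1 → TlA d F2 → OdP d F1 → OdP d F2 →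
    ∃ E, Dcm d (fun u => F1 u - F2 u) E

/-- **Values on the top level.**  `d = dt T q`, so `v_q(d) = 1`, `v_2(d) = 2` if `2 ∈ T`, `v_p(d) = 1` for the other `p ∈ T`, and the primes of `d` are those of `q :: T`. Let `tb` be the image of `t` in `(ZMod d)ˣ`: `t * el m d u = el m d (tb u)` (`hEl`). Its value of `lam` is `Ph T q d 1 v` with `v = (tb u).val`
(`S_LamB` (3), (1)), which is `ups (ik d v) T 1 ∅ = ∏_{p ∈ T} (ik d v p 1 - ik d v p (-1))` (`S_UpsB` (5); the set `(d.primeFactors \ T).erase q` is empty). Put `u' = tb u`, `F'(u') = F(tb⁻¹ u')`, `g_p(u') = ik d u'.val p 1 - ik d u'.val p (-1)`.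
CLAIM, by induction on the list `l` of different elements of `T`: `∑_u F'(u) ∏_{p ∈ l} g_p(u) = ∑_u Cs e l F' (u)` over the `u` with `p ^ v ∣ u.val - 1` for all `p ∈ l`. Step `i :: l`: apply it to `F' g_i`: `g_i(e_j u) = g_i(u)` for `j ∈ l`, so `Cs e l (F' g_i) = g_i Cs e l F'`; the `u` with `g_i(u) = -1` are
the `e_i u'` with `g_i(u') = 1` (`p ^ v ≥ 3`), and `e_i` is `1` modulo the other prime powers.
For `l = T` the condition is `u ∈ Kp d q` (`d / q = ∏_{p ∈ T} p ^ v`), which has `q - 1` elements (`pKpBas`), and `Cs e T F'` is `Kp d q`-invariant: the sum is `(q - 1) Cs e T F' (1) = (q - 1) Cs e T F (tb⁻¹)` (`gCbB` (3)).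
Hypotheses you may use: `S_En`, `S_UpsB`, `S_LamB`. -/
def S_LamTop : Prop := ∀ (T : List ℕ) (q m d : ℕ) [NeZero m] [NeZero d], Pr T q → d = dt T q → d ∣ m →
  ∀ F : (ZMod d)ˣ → ℤ, (∀ k ∈ Kp d q, ∀ a, Cs (en d) T F (k * a) = Cs (en d) T F a) →
    ∀ t : (ZMod m)ˣ, ∃ a, ∑ u, F u * lam T q ((t : ZMod m) * el m d u) = ((q : ℤ) - 1) * Cs (en d) T F a

/-- **Odd parts of functions with class in `A`.**  As `pInG` (file `FO/InG.lean`), with `A ≥ HD` in place of `FT.GG`. -/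
def S_InA : Prop := ∀ (m : ℕ) [NeZero m] (A : AddSubgroup (UnitAddCircle →₀ ℤ)), HD ≤ A → ∀ f g : ZMod m → ℤ,
  (InHo f → InA A f) ∧ (InA A f → InA A g → InA A (fun x => f x + g x)) ∧ InA A (fun _ : ZMod m => 0) ∧
  (g 0 = 0 → InA A (fun x => g x - g (-x)) → cl g ∈ A)

/-- **The invariant.**  First part: `∑ h lam = 2 (q - 1) k` (`S_LamHo`), so if `∑ (f - h) lam = (q - 1) z` then `∑ f lam = (q - 1) (z + 2 k)`. Second part: for `T ∉ Al`: if `g x ≠ 0` and `lam l q (t x) ≠ 0` then `dt l q ∣ ord (t x) = ord x ∣ dT T'` (`S_LamB` (5)), and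
`dt l q = dT T`, so all primes of `T` are in `T'` (`T'` consists of primes), `T ⊆ T'`, so `Al T` by the second part of `GdA`, a contradiction. So `∑ g lam = 0`.
Hypotheses you may use: `S_LamB`, `S_LamHo`. -/
def S_ChkB : Prop := ∀ (m : ℕ) [NeZero m] (A : AddSubgroup (UnitAddCircle →₀ ℤ)) (Al : Finset ℕ → Prop), GdA m A Al →
  ∀ f : ZMod m → ℤ, Chk Al f →
    (∀ h : ZMod m → ℤ, InHo h → Chk Al fun x => f x - h x) ∧
    ∀ (T' : Finset ℕ) (g : ZMod m → ℤ), Ess m T' → Al T' → (∀ x, g x ≠ 0 → addOrderOf x ∣ dT T') →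
      Chk Al fun x => f x - g x

/-- **The step.**  `F u = f (el m d u)`: odd, `TlA d F` by `pTopG`. `S_DcK`.
CASE 1, `Dcm d F E`: `pStepGen` gives `h` with `InHo h`, `h = f` at the order `d`, orders `d` or `d / p`. `InA A h` (`S_InA`), `IsOdd h`, `Rl h` (`hHoBas`), `Chk` by `S_ChkB`, orders in `f - h` smaller than `d`.
CASE 2, `Sqf d`, `2 ∣ d.primeFactors.card`, `OdP d F`. Let `T = d.primeFactors`: `d = dT T`, `Ess m T` (`2 ∈ T` gives `4 ∣ d`; `1 < d`).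
(a) `¬ Al T`: `Chk` gives `q`, `l`, `t`. If `f x ≠ 0` and `lam l q (t x) ≠ 0` then `dt l q = d` divides `ord x ≤ d`, so `x = el m d u`; so `∑_x f x lam (t x) = ∑_u F u lam (t * el m d u) = (q - 1) Cs (en d) l F a` by `S_LamTop` (invariance: the first part of `gParC` for the list `q :: l`, `(q :: l).erase q = l`), and the last factor is odd by
`OdP`: a contradiction.
(b) `Al T`: `g` from `GdA`; `f1 = f - g` has orders `≤ d`; `F1 = F - g (el m d .)`, and `TlA` for `g (el m d .)` by `pTopG` (orders divide `d`); `S_DcE` gives `Dcm d F1 E`; `pStepGen` for `f1` gives `h1`; `h = g + h1`. `Chk` by `S_ChkB` twice; `f - h = f1 - h1` has orders smaller than `d`.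
Hypotheses you may use: `S_LamB`, `S_DcK`, `S_DcE`, `S_LamTop`, `S_InA`, `S_ChkB`, `S_En`. -/
def S_StK : Prop := ∀ (m : ℕ) [NeZero m] (A : AddSubgroup (UnitAddCircle →₀ ℤ)) (Al : Finset ℕ → Prop), GdA m A Al →
  ∀ (d : ℕ) [NeZero d], d ∣ m → 1 < d → (¬ 2 ∣ d ∨ 4 ∣ d) → ∀ f : ZMod m → ℤ, IsOdd f → Rl f →
    (∀ x, f x ≠ 0 → addOrderOf x ≤ d) → Chk Al f →
    ∃ h : ZMod m → ℤ, InA A h ∧ IsOdd h ∧ Rl h ∧ (Chk Al fun x => f x - h x) ∧ ∀ x, f x - h x ≠ 0 → addOrderOf x < d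

/-- **THEOREM GT for functions.**  Induction on a bound `D` for the orders of the elements of the support (for all `f`). If no element of the support has order `D`: `D - 1`. Otherwise `D ∣ m`. `D = 1`: impossible, `f 0 = 0` by oddness. `D % 4 = 2`: `pStepBG` gives `h` with `InHo h` (`S_InA`, `hHoBas`, `S_ChkB`) and smaller orders. Otherwise `S_StK`.
`InA A f` from `InA A h` and `InA A (f - h)`. `D = 0`: `f = 0`.
Hypotheses you may use: `S_InA`, `S_ChkB`, `S_StK`. -/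
def S_GT : Prop := ∀ (m : ℕ) [NeZero m] (A : AddSubgroup (UnitAddCircle →₀ ℤ)) (Al : Finset ℕ → Prop), GdA m A Al →
  ∀ f : ZMod m → ℤ, IsOdd f → Rl f → Chk Al f → InA A f

/-- **THEOREM GT for tuples.**  `f(x) = cnt a x - cnt a (-x)`: odd, `Rl f` (`hTup`: `P f t = 2 ∑ sz(t a_i) = 0`). `Chk Al f`: for `T ∉ Al`, `CrN` gives `q`, `l` and `S_LamT` gives `t` with `|∑ f lam| < q - 1`, so if the sum is `(q - 1) z` then `z = 0`. `S_GT`, `S_InA` (4) with `g = cnt a`, `clt a = cl (cnt a)`.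
Hypotheses you may use: `S_LamT`, `S_InA`, `S_GT`. -/
def S_GTt : Prop := ∀ (m N : ℕ) [NeZero m] (A : AddSubgroup (UnitAddCircle →₀ ℤ)) (Al : Finset ℕ → Prop), GdA m A Al →
  (∀ T, Ess m T → ¬ Al T → CrN m N T) → ∀ (ι : Type) [Fintype ι] (a : ι → ZMod m), Fintype.card ι ≤ N →
    (∀ i, a i ≠ 0) → St a → clt a ∈ A

/-! ## The tuples -/

/-- **Stickelberger's relation for the tuples.**  Finite check: `2 ∑ (t k_i mod M) = M * length` for all `t < M` prime to `M`, `0 < k_i < M`. For a tuple `(M, k)` of the list `tp`, `a i = (m / M) k_i` in `ZMod m`, `g(x) = cnt a x - cnt a (-x)`: as in the proof of `pGam` (file `FO/Gam.lean`), with `G13` in place of `FT.GG` (`cl (cnt a) = clt a` is the generator with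
`t = 1`). `g (el m M u) = c(u.val) - c(M - u.val)`, where `c(k)` is the number of `k_i` equal to `k`. -/
def S_Gm1 : Prop := ∀ (m : ℕ) [NeZero m], ∀ w ∈ tp, ∀ [NeZero w.1], w.1 ∣ m →
  ∃ g : ZMod m → ℤ, InA G13 g ∧ IsOdd g ∧ Rl g ∧ (∀ x, g x ≠ 0 → addOrderOf x ∣ w.1) ∧
    ∀ u : (ZMod w.1)ˣ, g (el m w.1 u) = (w.2.count (u : ZMod w.1).val : ℤ) - w.2.count (w.1 - (u : ZMod w.1).val)

/-- **Parity of the tuples.**  Finite check for the thirteen levels `M = dT T`, `T = {p, q}` in `pl` (in the same order as in `tp`): for the list `[p, q]` (or `[q, p]`) `Cs (en M) [p] F a = F a - F (e_p a)`. `e_p` is determined by its residues (`S_En` (2)), so it is an explicit residue: `(M; e_p, e_q)` is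
`(12; 7, 5)` for `(2, 3)`, and so on. With `c` as in `S_Gm1`: `c(v) - c(M - v) - c(e v mod M) + c(M - (e v mod M))` is odd for all `v < M` prime to `M` (`decide`).
Hypotheses you may use: `S_En`. -/
def S_Gm2 : Prop := ∀ (M : ℕ) [NeZero M] (k : List ℕ), (M, k) ∈ tp →
  OdP M fun u => (k.count (u : ZMod M).val : ℤ) - k.count (M - (u : ZMod M).val)

/-- **The group `G13` and the thirteen pairs.**  `HD ≤ G13`. A nonempty subset with an even number of elements of a pair is the pair. For `T ∈ pl` with `Ess m T`: `dT T` is the first component of an element of `tp` and divides `m` (`T ⊆ m.primeFactors`, `4 ∣ m` if `2 ∈ T`); `S_Gm1`, `S_Gm2`.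
Hypotheses you may use: `S_Gm1`, `S_Gm2`. -/
def S_GmA : Prop := ∀ (m : ℕ) [NeZero m], GdA m G13 fun T => T ∈ pl

/-! ## Numerical conditions -/

/-- **Levels.**  `T` has an even number of elements, so it contains a prime `q ≠ 2`; `l = (T.erase q).toList`. Let `n ∣ m`, `dt l q ∣ n` (so `T ⊆ n.primeFactors`, and `4 ∣ n` if `2 ∈ T`), `S = n.primeFactors`, `v = v_q(n)`. `φ(n) = ∏_{s ∈ S} φ(s ^ v_s(n))` (`Nat.totient_eq_prod_factorization` or
`Nat.totient_eq_mul_prod_factors`), `φ(s ^ v_s) ≥ kap s` for `s` odd, and for `s = 2`, `4 ∣ n`. CASE `v_2(n) ≠ 1`: `L = S \ T`, `2 ∈ L` implies `4 ∣ n ∣ m`; `cs l q n = nc (|T| - 1) |L| φ(q ^ v)` and `(q - 1) φ(n) ≥ φ(q ^ v) kp S`, `S = T ∪ L`. CASE `v_2(n) = 1`: `2 ∣ m`, `2 ∉ T`; `L = (S \ T).erase 2`,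
`cs l q n = 2 nc (|T| - 1) |L| φ(q ^ v)`, `(q - 1) φ(n) ≥ φ(q ^ v) kp (S.erase 2)`. -/
def S_CrN : Prop := ∀ (m N : ℕ) [NeZero m] (T : Finset ℕ), Ess m T → Crt m N T → CrN m N T

/-- **Maximal primes.**  Let `p` be the largest element of `S`, a set of primes. (1) `S` is contained in the union of `{2}` and the odd numbers between `3` and `p`: `|S| ≤ 1 + (p - 1) / 2` (`p ≥ 3`); `p = 2`: `|S| = 1`. (2) `S` is contained in the set of the primes `≤ p`; (3) the same without `2`. -/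
def S_Mx : Prop := ∀ (S : Finset ℕ) (p : ℕ), (∀ s ∈ S, s.Prime) → p ∈ S → (∀ s ∈ S, s ≤ p) →
  2 * (S.card - 1) ≤ kap p ∧
  (3 ≤ S.card → 4 ≤ kap p) ∧ (4 ≤ S.card → 6 ≤ kap p) ∧ (5 ≤ S.card → 10 ≤ kap p) ∧ (6 ≤ S.card → 12 ≤ kap p) ∧
  (2 ∉ S → (2 ≤ S.card → 4 ≤ kap p) ∧ (3 ≤ S.card → 6 ≤ kap p) ∧ (4 ≤ S.card → 10 ≤ kap p) ∧ (5 ≤ S.card → 12 ≤ kap p))

/-- **Products.**  By `S_Mx`, removing the largest element: `kap p ≥ 2` for all primes. `|S| = 2, 3, 4, 5, 6`: at least `4, 16, 96, 960, 11520`; without `2`: `8, 48, 480, 5760`. (6) if `|S| = 4` and `S ≠ {2, 3, 5, 7}` the largest element is `≥ 11` (`{2, 3, 5, 7}` are the primes `< 11`), so `kp S ≥ 10 * 16`. (7) `|S| = 2`: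
`8` unless `S = {2, 3}`.
Hypotheses you may use: `S_Mx`. -/
def S_Kmn : Prop := ∀ S : Finset ℕ, (∀ s ∈ S, s.Prime) →
  (2 ≤ S.card → 4 ≤ kp S) ∧ (3 ≤ S.card → 16 ≤ kp S) ∧ (4 ≤ S.card → 96 ≤ kp S) ∧ (5 ≤ S.card → 960 ≤ kp S) ∧
  (6 ≤ S.card → 11520 ≤ kp S) ∧ (S.card = 4 → S ≠ {2, 3, 5, 7} → 160 ≤ kp S) ∧ (S.card = 2 → S ≠ {2, 3} → 8 ≤ kp S) ∧
  (1 ≤ S.card → 2 ≤ kp S) ∧
  (2 ∉ S → (2 ≤ S.card → 8 ≤ kp S) ∧ (3 ≤ S.card → 48 ≤ kp S) ∧ (4 ≤ S.card → 480 ≤ kp S) ∧ (5 ≤ S.card → 5760 ≤ kp S))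

/-- **Growth.**  `R` is a condition on sets which is inherited by subsets (no condition, or `2 ∉ S`). First part: induction on `l'`: let `S` have `k + 1 + (l' + 1)` elements, `p` its largest: `kap p ≥ 2 (|S| - 1) = 2 (k + l' + 1) ≥ 2 (l' + k)` (`S_Mx` (1)), `nc k (l' + 1) ≤ 2 (l' + k) nc k l'` (`S_NcR`), so `C nc k (l' + 1) ≤ 2 (l' + k) C nc k l' ≤ kap p * (C nc k l') < kap p * kp (S.erase p) = kp S` (note
`kap p > 0`). Second part: induction on `j` (for the case `l' = 0`, then the first part): `nc (k + 2) 0 = 4 nc k 0`, and the two largest elements have `kap ≥ 2`.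
Hypotheses you may use: `S_Mx`, `S_NcR`. -/
def S_Grw : Prop := ∀ (R : Finset ℕ → Prop), (∀ S p, R S → R (S.erase p)) → ∀ C k l : ℕ,
  (∀ S : Finset ℕ, (∀ s ∈ S, s.Prime) → R S → S.card = k + 1 + l → C * nc k l < kp S) →
  (∀ l', l ≤ l' → ∀ S : Finset ℕ, (∀ s ∈ S, s.Prime) → R S → S.card = k + 1 + l' → C * nc k l' < kp S) ∧
  (l = 0 → ∀ j l', ∀ S : Finset ℕ, (∀ s ∈ S, s.Prime) → R S → S.card = k + 2 * j + 1 + l' →
    C * nc (k + 2 * j) l' < kp S)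

/-- **Pairs.**  `T = {p, q}`, `p < q`. (1) `p = 2`: `q ≥ 19`; `p = 3`: `q ≥ 23`; `p = 5`: `q ≥ 11`; `p ≥ 7`: `q ≥ 11`: `kp T ≥ 36, 44, 40, 60`. (2) without `2`: `≥ 40`, and `≥ 44` if `T ≠ {5, 11}`. (3) without `2`, `T ≠ {3, 23}, {5, 11}, {5, 13}`: `3, 29`: `56`; `5, 17`: `64`; `7, 11`: `60`. (4) if `2, 3 ∉ T`: `≥ 40`. -/
def S_Prs : Prop := ∀ T : Finset ℕ, (∀ s ∈ T, s.Prime) → T.card = 2 → T ∉ pl →
  36 ≤ kp T ∧ (2 ∉ T → 40 ≤ kp T ∧ (T ≠ {5, 11} → 44 ≤ kp T)) ∧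
  (2 ∉ T → T ≠ {3, 23} → T ≠ {5, 11} → T ≠ {5, 13} → 56 ≤ kp T) ∧ (2 ∉ T → 3 ∉ T → 40 ≤ kp T)

/-- **Length at most 6.**  Values: `nc 1 0 = 2, nc 1 1 = 4, nc 1 2 = 12, nc 1 3 = 52, nc 3 0 = 8, nc 3 1 = 48, nc 5 0 = 32` (`nb_eq`). `T ∪ L` is a set of primes with `|T| + |L|` elements.
First half of `Crt`, `12 nc < kp`. `|T| = 2`: `|L| = 0`: `24 < 36 ≤ kp T`. `|L| = 1`: `48 < 36 * 2`. `|L| = 2`: `144 <`: if `L ≠ {2, 3}`: `36 * 8`; if `L = {2, 3}` then `2, 3 ∉ T`: `40 * 4`. `|L| ≥ 3`: `S_Grw` with `k = 1`, `l = 3`: `12 * 52 < 960`. `|T| = 4`: `|L| = 0`: `T ≠ {2, 3, 5, 7}` because `420 ∤ m`: `96 < 160`; `|L| ≥ 1`: `S_Grw` with `k = 3`, `l = 1`: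
`12 * 48 < 960`. `|T| ≥ 6`: `S_Grw` with `k = 5`, `l = 0`: `12 * 32 < 11520`.
Second half, `24 nc < kp`, sets of odd primes. `|T| = 2`: `T ≠ {3, 23}, {5, 11}, {5, 13}` because `138, 110, 130` do not divide `m`: `kp T ≥ 56`. `|L| = 0`: `48 < 56`; `|L| = 1`: `96 < 112`; `|L| ≥ 2`: `S_Grw`, `k = 1`, `l = 2`: `24 * 12 < 480`. `|T| ≥ 4`: `S_Grw`, `k = 3`, `l = 0`: `24 * 8 < 480`.
Hypotheses you may use: `S_Kmn`, `S_Grw`, `S_Prs`. -/
def S_Num6 : Prop := ∀ m N : ℕ, 0 < m → N ≤ 6 → ¬ 110 ∣ m → ¬ 130 ∣ m → ¬ 138 ∣ m → ¬ 420 ∣ m →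
  ∀ T, Ess m T → T ∉ pl → Crt m N T

/-- **Odd levels.**  `2 N nc < kp` for sets of odd primes (the second half of `Crt` is empty). `|T| = 2`: `N = 10`: `T ≠ {5, 11}`: `40 < 44`, `|L| = 1`: `80 < 88`; `N ≤ 9`: `36 < 40`, `72 < 80`; `|L| ≥ 2`: `S_Grw`, `k = 1`, `l = 2`: `20 * 12 < 480`. `|T| ≥ 4`: `S_Grw`, `k = 3`, `l = 0`: `20 * 8 < 480`.
Hypotheses you may use: `S_Kmn`, `S_Grw`, `S_Prs`. -/
def S_NumO : Prop := ∀ m N : ℕ, 0 < m → ¬ 2 ∣ m → (N ≤ 9 ∨ (N ≤ 10 ∧ ¬ 55 ∣ m)) →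
  ∀ T, Ess m T → T ∉ pl → Crt m N T

/-- **All lengths.**  `Ess m T` implies `T ⊆ (red m).primeFactors` (if `m % 4 = 2` then `2 ∉ T`), so `T` has two elements and is a subset of one of the sets. -/
def S_NumA : Prop := ∀ m : ℕ, 0 < m → Dg m → ∀ T, Ess m T → T ∈ pl

end Pool.Agent.FO
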