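import Pool.Agent.Lib.MP_640417_ag.GT.MainQ
import Pool.Agent.Lib.MP_640417_ag.GT.PdF
import Pool.Agent.Lib.MP_640417_ag.GT.DefsR

/-!
# Pairs of primes `{p, q}` with `q = 1` modulo `4`

Every `S_X : Prop` is to be proved as `theorem pX : S_X` or from the stated hypotheses. The facts proved in `GT/MainI.lean`,
`GT/MainK.lean`, `GT/MainQ.lean` (`gRzB`, `gSmu`, `gSqX`, `gDsU`, `gInQ`, `gGdQ`, `gEn`, `gInA`, `gGT`, `gLamB`, `gLamTop`, `gParC`, `gTmUps`,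
`gUpsB`, `gCbB`, `hEl`, `hHoBas`, `hSzBas`, ...) and all public theorems of the modules which they import may be used directly. `dT S`, `c4`, `sm`,
`sqi`, `Aq`, `nr`, `kq`, `Rz`, `Xs`, `T34` are defined in `GT/SpecK.lean` and `GT/SpecQ.lean`.

PLAN. Part 1 (`Smg` .. `RlG`): Stickelberger's relation for `Θ = Rz (nr P) (Aq m) P`, `P` a set of primes with an even number of elements `2` or
`3` modulo `4`; the same as in `GT/SpecQ.lean`, but the units `e p` are non-squares (not `-1`) modulo `c4 p` (adapt the files `GT/EuE.lean`,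
`EuA`, `XsE`, `XsN`, `BtR`, `RzV`, `RlQ`). Part 2 (`CtX` .. `TwV`): the functional `∑ Θ(x) lam l q x = (q - 1) z`, and the parity of `z` for
sets `P` with three or four elements. Part 3 (`DaB` .. `Fod`): an explicit element for every pair of primes (Das). Part 4: the pairs. For
`P = {a, p, q}` (`a`, `p` are `2` or `3` modulo `4`, `q = 1` modulo `4`) the parity of `Θ` at `{p, q}` is `[(a/q) = -1]` and at `{a, q}` it is
`[(p/q) = -1]`.
-/

set_option autoImplicit false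

noncomputable section

namespace Pool.Agent.FO

open Finset Pool.Agent.FC

/-! ## Definitions -/

/-- the elements of `S` which are `2` or `3` modulo `4` -/
def S34 (S : Finset ℕ) : Finset ℕ := S.filter fun p => p = 2 ∨ p % 4 = 3

/-- the units `e p`, `p ∈ T`, are not squares modulo `c4 p` and `1` modulo the other `c4 u` -/
def IsU (m : ℕ) (T : Finset ℕ) (e : ℕ → (ZMod m)ˣ) : Prop :=
  ∀ p ∈ T, ∃ E : ℤ, ((E : ℤ) : ZMod m) = (e p : ZMod m) ∧ ¬ sm p E ∧ ∀ u ∈ T, u ≠ p → ((c4 u : ℕ) : ℤ) ∣ E - 1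

/-- `1` if `b` is a square modulo `c4 s`, otherwise `0` -/
def Js (s : ℕ) (b : ℤ) : ℤ := by
  classical
  exact if sm s b then 1 else 0

/-- the value of the functional `lam l q` on `Aq m S`, divided by `q - 1` -/
def vv (l : List ℕ) (q : ℕ) (S : Finset ℕ) : ℤ := by
  classical
  exact if ∀ p ∈ q :: l, p ∈ S then ups Js l 1 ((S \ l.toFinset).erase q) else 0

/-- a half-system: `1` if `x ≠ 0` and `2 x.val < m` -/
def hs {m : ℕ} (x : ZMod m) : ℤ := if x ≠ 0 ∧ 2 * x.val < m then 1 else 0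

/-- the function of the pair of primes `p, q` -/
def das (m p q : ℕ) (x : ZMod m) : ℤ :=
  if addOrderOf x = c4 p * c4 q then hs (((c4 q : ℕ) : ZMod m) * x) - hs (((c4 p : ℕ) : ZMod m) * x)
  else if addOrderOf x = c4 p then hs ((q : ZMod m) * x) - hs x
  else if addOrderOf x = c4 q then hs x - hs ((p : ZMod m) * x)
  else 0

/-- the data for the pair `{p, q}` in `GdA` -/
def Pd (A : AddSubgroup (UnitAddCircle →₀ ℤ)) (p q : ℕ) : Prop := ∀ (m : ℕ) [NeZero m], Ess m {p, q} →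
  ∃ g : ZMod m → ℤ, InA A g ∧ IsOdd g ∧ Rl g ∧ (∀ x, g x ≠ 0 → addOrderOf x ∣ dT {p, q}) ∧
    ∀ (d : ℕ) [NeZero d], d = dT {p, q} → OdP d fun u => g (el m d u)

/-- sets of primes which are `2` or `3` modulo `4`, and the pairs `p, q` with `K p`, `K q`, or such that one of them is `1` modulo `4` and
the other one is a square modulo it (`AlF` is `AlG K4`) -/
def AlG (K : ℕ → Prop) (T : Finset ℕ) : Prop := T34 T ∨ ∃ p q : ℕ, p < q ∧ T = {p, q} ∧
  ((K p ∧ K q) ∨ (q % 4 = 1 ∧ IsSquare ((p : ℕ) : ZMod q)) ∨ (p % 4 = 1 ∧ IsSquare ((q : ℕ) : ZMod p)))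

/-! ## 1. Stickelberger's relation -/

/-- **Squares modulo `c4 u`.**  `u = 2`: `c4 2 = 4`, the units modulo `4` are `1` and `3` and the square of a unit is `1` (`decide` in `ZMod 4`). `u` odd: `c4 u = u`, `ZMod u` is a finite field, a unit is a square if and only if
`quadraticChar` (or `legendreSym`) is `1`, it is multiplicative with values `1, -1` on units. (2) depends on the class only. (4) `ZMod.exists_sq_eq_neg_one_iff`. (5) `w = 3` for `u = 2`, `FiniteField.exists_nonsquare` (not `0`, so prime to `u`). -/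
def S_Smg : Prop := ∀ u : ℕ, u.Prime →
  (∀ w w' : ℤ, IsCoprime w (u : ℤ) → IsCoprime w' (u : ℤ) → (sm u (w * w') ↔ (sm u w ↔ sm u w'))) ∧
  (∀ w w' : ℤ, ((c4 u : ℕ) : ℤ) ∣ w - w' → (sm u w ↔ sm u w')) ∧ sm u 1 ∧
  (sm u (-1) ↔ ¬ (u = 2 ∨ u % 4 = 3)) ∧ ∃ w : ℤ, IsCoprime w (u : ℤ) ∧ ¬ sm u w

/-- **The units `e p`.**  `D = dT T` is the product of the pairwise coprime `c4 u`, `u ∈ T`. For `p ∈ T` let `η` be prime to `p` and not a square modulo `c4 p` (`S_Smg` (5)); by the Chinese remainder theorem there is `E = η` modulo `c4 p`,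
`E = 1` modulo `D / c4 p` (`dT (T.erase p)`), so `E` is prime to `D`, and `(ZMod m)ˣ → (ZMod D)ˣ` is onto (`ZMod.unitsMap_surjective`): take the integer `E' = (e p).val`, `D ∣ E' - E`; `S_Smg` (2). Compare `S_EuE` in `GT/SpecQ.lean`.
Hypotheses you may use: `S_Smg`. -/
def S_EuG : Prop := ∀ (m : ℕ) [NeZero m] (T : Finset ℕ), (∀ p ∈ T, p.Prime) → dT T ∣ m → ∃ e : ℕ → (ZMod m)ˣ, IsU m T e

/-- **Action of the units `e p`** on the elements `(m / d) w`, `d = dT S`, `S ⊆ T`. (1) Induction on `A`; `E'` is the product of the integers `E` for `p ∈ A` (`IsU`); each `E` is prime to `m` (its class is a unit), so to `d`. For `u ∈ A ∩ S` the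
factor for `p = u` is not a square modulo `c4 u` and the others are `1` modulo `c4 u` (so their product is a square and prime to `u`; `S_Smg` (1), (2), (3)). (2) `p ∉ S`: (1) for `A = {p}`: `c4 u ∣ E' - 1` for all `u ∈ S`, these are pairwise coprime,
so `d ∣ E' - 1` (`Finset.prod_dvd_of_coprime` or similar) and
`m ∣ (m / d) (E' w - w)`. Compare `S_EuA`.
Hypotheses you may use: `S_Smg`. -/
def S_EuH : Prop := ∀ (m : ℕ) [NeZero m] (T : Finset ℕ) (e : ℕ → (ZMod m)ˣ), (∀ p ∈ T, p.Prime) → dT T ∣ m → IsU m T e →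
  ∀ S ⊆ T,
  (∀ A ⊆ T, ∃ E' : ℤ, IsCoprime E' (dT S : ℤ) ∧ (∀ u ∈ A ∩ S, ¬ sm u E') ∧ (∀ u ∈ S \ A, ((c4 u : ℕ) : ℤ) ∣ E' - 1) ∧
    ∀ w : ℤ, ((∏ p ∈ A, e p : (ZMod m)ˣ) : ZMod m) * (((m / dT S : ℕ) : ZMod m) * ((w : ℤ) : ZMod m)) =
      ((m / dT S : ℕ) : ZMod m) * (((E' * w : ℤ)) : ZMod m)) ∧
  (∀ p ∈ T, p ∉ S → ∀ w : ℤ, (e p : ZMod m) * (((m / dT S : ℕ) : ZMod m) * ((w : ℤ) : ZMod m)) =
      ((m / dT S : ℕ) : ZMod m) * ((w : ℤ) : ZMod m))

/-- **The union of `X_S` and `e_p X_S`.**  Let `S' = S.erase p`, `d = dT S`, `d' = dT S'`. An element of order `d` is `x = (m / d) w`, `w` prime to `d`, and `c4 p * x = (m / d') w`, so `c4 p * x ∈ X_{S'}` if and only if `sm u w` for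
`u ∈ S'` (`gSqX`). `e_p x = (m / d) (E' w)` (`S_EuH` with `A = {p}`), `E'` is not a square modulo `c4 p` and `1` modulo the other `c4 u`. If `sm p w` then `x ∈ X_S` and `x` is not in `e_p X_S`; otherwise `w = E' w''` modulo `d` for some `w''` prime
to `d`, `sm p w''`, so `x ∈ e_p X_S` and `x ∉ X_S` (`S_Smg`).
So the set on the right is the disjoint union of `X_S` and `e_p X_S` (`e_p` is an injective map on `ZMod m`). Compare `S_XsE`.
Hypotheses you may use: `S_Smg`, `S_EuH`. -/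
def S_XgE : Prop := ∀ (m : ℕ) [NeZero m] (T : Finset ℕ) (e : ℕ → (ZMod m)ˣ), (∀ p ∈ T, p.Prime) → dT T ∣ m → IsU m T e →
  ∀ S ⊆ T, ∀ p ∈ S, ∀ F : ZMod m → ℚ,
    ∑ x ∈ Xs m S, F x + ∑ x ∈ Xs m S, F ((e p : ZMod m) * x) =
      ∑ x ∈ univ.filter (fun x : ZMod m => ((c4 p : ℕ) : ZMod m) * x ∈ Xs m (S.erase p) ∧ addOrderOf x = dT S), F x

/-- **Multiplication by `p`.**  `S' = S.erase p`, `d' = dT S'`, `ε = ∏_{u ∈ nr T p} e u`. Let `x = (m / d') w ∈ X_{S'}`; `ε x = (m / d') (E' w)` (`S_EuH` with `A = nr T p`); modulo `c4 u`, `u ∈ S'`: if `u ∈ nr T p` then `p` and `E'` are not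
squares, otherwise `p` is a square (definition of `nr`; `u ≠ p`) and `E' = 1`. So `p E'` is a square modulo all `c4 u`, `u ∈ S'` (`S_Smg`; `p` is prime to `u`), and `p ε x = (m / d') (p E' w) ∈ X_{S'}` (`gSqX`). `ε x` has order `d'`. Injective on
`X_{S'}`: `d' ∣ p E' (w - w')` and `p E'` is prime to `d'`; so it is a
bijection of the finite set `X_{S'}`. Compare `S_XsN`.
Hypotheses you may use: `S_Smg`, `S_EuH`. -/
def S_XgN : Prop := ∀ (m : ℕ) [NeZero m] (T : Finset ℕ) (e : ℕ → (ZMod m)ˣ), (∀ p ∈ T, p.Prime) → dT T ∣ m → IsU m T e →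
  ∀ S ⊆ T, ∀ p ∈ S,
    (∀ x ∈ Xs m (S.erase p), addOrderOf (((∏ u ∈ nr T p, e u : (ZMod m)ˣ) : ZMod m) * x) = dT (S.erase p) ∧
      (p : ZMod m) * (((∏ u ∈ nr T p, e u : (ZMod m)ˣ) : ZMod m) * x) ∈ Xs m (S.erase p)) ∧
    ∀ F : ZMod m → ℚ, ∑ x ∈ Xs m (S.erase p), F ((p : ZMod m) * (((∏ u ∈ nr T p, e u : (ZMod m)ˣ) : ZMod m) * x)) =
      ∑ x ∈ Xs m (S.erase p), F x

/-- **Multiplication by `-1`.**  `ε = ∏_{p ∈ S34 T} e p`. For `x = (m / d) w ∈ X_S`, `d = dT S`: `-(ε x) = (m / d) (-E' w)` (`S_EuH` with `A = S34 T`); modulo `c4 u`, `u ∈ S`: if `u` is `2` or `3` modulo `4` then `E'` and `-1` are not squares,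
otherwise `-1` is a square and `E' = 1`. So `-E' w` is a square modulo all `c4 u` and
`-(ε x) ∈ X_S` (`gSqX`). The map `x ↦ -(ε x)` is injective on `ZMod m`, so it is a bijection of the finite set `X_S`; apply it to `x ↦ F (-x)`.
Hypotheses you may use: `S_Smg`, `S_EuH`. -/
def S_XgM : Prop := ∀ (m : ℕ) [NeZero m] (T : Finset ℕ) (e : ℕ → (ZMod m)ˣ), (∀ p ∈ T, p.Prime) → dT T ∣ m → IsU m T e →
  ∀ S ⊆ T, ∀ F : ZMod m → ℚ,
    ∑ x ∈ Xs m S, F (((∏ p ∈ S34 T, e p : (ZMod m)ˣ) : ZMod m) * x) = ∑ x ∈ Xs m S, F (-x)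

/-- **The Stickelberger functions.**  (0) `P (Aq m S) g = 2 ∑_{x ∈ X_S} sz(g x)`: `sqi` is `0` or `1`, `sz` is odd (`hSzBas`), `x ↦ -x`. (1) `p ∉ S`: `e_p x = x` on `X_S` (`S_EuH` (2)). (3) `S_XgM` with `F x = sz(g x)`, `sz` odd. (2) With
`S' = S.erase p`, `Y` the set on the right side of `S_XgE`, `ε = ∏_{u ∈ nr T p} e u`: `∑_{X_S} sz(g x) + ∑_{X_S} sz(g e_p x) = ∑_{x ∈ Y} sz(g x)` (`S_XgE` with `F = sz(g .)`) `= ∑_{y ∈ X_{S'}} ∑_{c4 p x = y, ord x = d} sz(g x)`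
(`Finset.sum_fiberwise_of_maps_to`), and by `S_XgN` we may put `y = p ε x'`,
`x' ∈ X_{S'}`, `z = ε x'` in `gDsU` (`dT S = c4 p * dT S'`): `∑_{x' ∈ X_{S'}} (sz(g p ε x') - sz(g ε x'))`, and the first sum is `∑_{y ∈ X_{S'}} sz(g y)` by `S_XgN` (2) again. Compare `S_BtR`.
Hypotheses you may use: `S_EuH`, `S_XgE`, `S_XgN`, `S_XgM`. -/
def S_BgR : Prop := ∀ (m : ℕ) [NeZero m] (T : Finset ℕ) (e : ℕ → (ZMod m)ˣ), (∀ p ∈ T, p.Prime) → dT T ∣ m → IsU m T e →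
  (∀ S ⊆ T, ∀ p ∈ T, p ∉ S → ∀ g : (ZMod m)ˣ, P (Aq m S) ((g * e p : (ZMod m)ˣ) : ZMod m) = P (Aq m S) (g : ZMod m)) ∧
  (∀ S ⊆ T, ∀ p ∈ S, ∀ g : (ZMod m)ˣ, P (Aq m S) (g : ZMod m) + P (Aq m S) ((g * e p : (ZMod m)ˣ) : ZMod m) =
    P (Aq m (S.erase p)) (g : ZMod m) - P (Aq m (S.erase p)) ((g * ∏ u ∈ nr T p, e u : (ZMod m)ˣ) : ZMod m)) ∧
  (∀ S ⊆ T, ∀ g : (ZMod m)ˣ, P (Aq m S) ((g * ∏ p ∈ S34 T, e p : (ZMod m)ˣ) : ZMod m) = -P (Aq m S) (g : ZMod m))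

/-- **Vanishing.**  Put `φ S = Rz n β S`. CLAIM, by strong induction on `S ⊆ T`: (i) `φ S (g * e p) = -φ S g` for `p ∈ S`; (ii) `φ S (g * e p) = φ S g` for `p ∈ T \ S`. (ii) follows from the first hypothesis and induction (`Rz_eq`). From (i),
(ii) for `U`: (iii) `φ U (g * ∏_{u ∈ A} e u) = (-1)^|U ∩ A| φ U g` for `A ⊆ T` (induction on `A`). (i): by `Rz_eq`
`φ S (g) + φ S (g e_p) = β S (g) + β S (g e_p) - ∑_{U ⊂ S} kq n S U (φ U (g) + φ U (g e_p))`; the terms with `p ∈ U` are `0` by induction, the others are `2 kq n S U φ U (g)`, `U ⊆ S' = S.erase p`. By hypothesis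
`β S (g) + β S (g e_p) = β S' (g) - β S' (g ∏_{u ∈ n p} e_u)`, and `β S' = ∑_{U ⊆ S'} kq n S' U φ U` (`Rz_eq`; `kq n S' S' = 1`), so by (iii) it is `∑_{U ⊆ S'} kq n S' U (1 - (-1)^|U ∩ n p|) φ U (g)`. Finally
`2 kq n S U = kq n S' U (1 - (-1)^|U ∩ n p|)` for `U ⊆ S'`, because `S \ U = insert p (S' \ U)`.
CONCLUSION: `|S ∩ T0|` even: by (iii) with `A = T0` `φ S (g ∏_{T0} e) = φ S g`; by the last hypothesis (and induction, `Rz_eq`; or `gRzB` (1)) `φ S (g ∏_{T0} e) = -φ S g`. So `2 φ S g = 0`. (`S_RzV` in `GT/SpecQ.lean` is the case `T0 = T`.)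
 -/
def S_RzW : Prop := ∀ (Γ : Type) [CommGroup Γ] (T T0 : Finset ℕ) (e : ℕ → Γ) (n : ℕ → Finset ℕ) (β : Finset ℕ → Γ → ℚ),
  T0 ⊆ T → (∀ p ∈ T, n p ⊆ T) →
  (∀ S ⊆ T, ∀ p ∈ T, p ∉ S → ∀ g, β S (g * e p) = β S g) →
  (∀ S ⊆ T, ∀ p ∈ S, ∀ g, β S g + β S (g * e p) = β (S.erase p) g - β (S.erase p) (g * ∏ u ∈ n p, e u)) →
  (∀ S ⊆ T, ∀ g, β S (g * ∏ p ∈ T0, e p) = -β S g) →
  ∀ S ⊆ T, 2 ∣ (S ∩ T0).card → ∀ g, Rz n β S g = 0

/-- **The function `Θ`.**  `Rl`: `f ↦ (t ↦ P f t)` is additive from `ZMod m → ℤ` to `(ZMod m)ˣ → ℚ`; `gRzB` (1), `S_EuG`, `S_RzW` with `T0 = S34 T`, `β S g = P (Aq m S) g`, `n = nr T`, `S_BgR` (`T ∩ S34 T = S34 T`). `IsOdd`: `gRzB` (2) for the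
subgroup of the odd functions. `InA GS`: `gRzB` (2) for
the subgroup `{f | InA GS f}` (`gInA`; for `-f` take `-g`), `gInQ`. Orders: `Aq m U x ≠ 0` implies that the order of `x` is `dT U`, a divisor of `dT T` (`gSqX` (6)), `gRzB` (2).
Hypotheses you may use: `S_RzW`, `S_EuG`, `S_BgR`. -/
def S_RlG : Prop := ∀ (m : ℕ) [NeZero m] (T : Finset ℕ), (∀ p ∈ T, p.Prime) → dT T ∣ m → 2 ∣ (S34 T).card →
  InA GS (Rz (nr T) (Aq m) T) ∧ IsOdd (Rz (nr T) (Aq m) T) ∧ Rl (Rz (nr T) (Aq m) T) ∧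
    ∀ x, Rz (nr T) (Aq m) T x ≠ 0 → addOrderOf x ∣ dT T

/-! ## 2. The functionals -/

/-- **Number of squares with given residues.**  `d = dT S`, `q ∈ S` odd. `(m / d) w ∈ X_S` if and only if `w` is a square modulo all `c4 s`, `s ∈ S` (`gSqX` (5)). If `b s` is not a square modulo `c4 s` for some `s ∈ S.erase q` there is no such
`x` (`S_Smg` (2)). Otherwise, by the Chinese remainder theorem the `x` correspond to the classes `w` modulo `q` which are non-zero squares: choose `w0 = b s` modulo `c4 s` for all `s ≠ q`; the `x` are the `(m / d) w`, `w = w0` modulo `d / q`, `w = r` modulo `q`,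
`r` a non-zero square of `ZMod q`. The number of non-zero squares is
`(q - 1) / 2`: `∑_a quadraticChar (ZMod q) a = 0` (`quadraticChar_sum_zero`), or multiplication by a non-square is a bijection between the non-zero squares and the non-squares.
Hypotheses you may use: `S_Smg`. -/
def S_CtX : Prop := ∀ (m : ℕ) [NeZero m] (S : Finset ℕ) (q : ℕ), (∀ p ∈ S, p.Prime) → dT S ∣ m → q ∈ S → q ≠ 2 →
  ∀ b : ℕ → ℤ, (∀ s ∈ S.erase q, IsCoprime (b s) (s : ℤ)) → ∀ Z : Finset (ZMod m),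
    (∀ x, x ∈ Z ↔ x ∈ Xs m S ∧ ∃ w : ℤ, x = ((m / dT S : ℕ) : ZMod m) * ((w : ℤ) : ZMod m) ∧
      ∀ s ∈ S.erase q, ((c4 s : ℕ) : ℤ) ∣ w - b s) →
    2 * (Z.card : ℤ) = ((q : ℤ) - 1) * ∏ s ∈ S.erase q, Js s (b s)

/-- **Functionals of the coset sums.**  `n = dT S`, `sqi` is `0` or `1` and `lam` is odd (`gLamB` (4)): the sum is `2 ∑_{x ∈ X_S} lam l q x`, and the elements of `X_S` have order `n` (`gSqX` (6)). If some `p ∈ q :: l` is not in `S`: `p ∣ dt l q`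
and `p` does not divide `n`, so `lam l q x = 0` (`gLamB` (5)). Otherwise let
`L = (S \ l.toFinset).erase q`, `S' = l.toFinset ∪ L = S.erase q`. `n.primeFactors = S`, `n.factorization s` is `1` for odd `s ∈ S` and `2` for `s = 2`, so `s ^ n.factorization s = c4 s`. For `x = (m / n) w`: `lam l q x = Ph l q n 1 w = ups (ik n w) l 1 L`
(`gLamB` (1)), and by `gTmUps` this is
`∑_i sg i ∏_{s ∈ S'} ik n w s (b i s)` with `sg`, `b` independent of `w` (`Tm`), `b i s` prime to `s`; `ik n w s b = 1` if `c4 s ∣ w - b`, otherwise `0`. `2 ∑_{x ∈ X_S} ∏_{s ∈ S'} ik n w s (b s) = (q - 1) ∏_{s ∈ S'} Js s (b s)` by `S_CtX`, so the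
sum is `(q - 1) ∑_i sg i ∏_{s ∈ S'} Js s (b i s) = (q - 1) ups Js l 1 L` by `gTmUps` again (the same `sg`, `b` for `I = Js`).
Hypotheses you may use: `S_CtX`. -/
def S_LmA : Prop := ∀ (m : ℕ) [NeZero m] (S : Finset ℕ) (l : List ℕ) (q : ℕ), (∀ p ∈ S, p.Prime) → dT S ∣ m → Pr l q →
  ∑ x, Aq m S x * lam l q x = ((q : ℤ) - 1) * vv l q S

/-- **Functionals of `Θ`.**  `gRzB` (1) for the additive maps `g ↦ ∑ g(x) lam l q x` (from `ZMod m → ℤ` to `ℤ`) and `z ↦ (q - 1) z`: both sides are `Rz n (fun U => ∑ Aq m U x * lam l q x) T` if `∑ Aq m U x * lam l q x = (q - 1) vv l q U` for all `U`.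
This holds for `U ⊆ T` (`S_LmA`; `dT U ∣ dT T`); `Rz n β T` only depends on the `β U`,
`U ⊆ T` (strong induction, `Rz_eq`).
Hypotheses you may use: `S_LmA`. -/
def S_TwV : Prop := ∀ (m : ℕ) [NeZero m] (T : Finset ℕ) (n : ℕ → Finset ℕ) (l : List ℕ) (q : ℕ), (∀ p ∈ T, p.Prime) → dT T ∣ m →
  Pr l q → ∑ x, Rz n (Aq m) T x * lam l q x = ((q : ℤ) - 1) * Rz n (vv l q) T

/-- **Small sets.**  `Rf_eq`; `pr ∅ = 1`, `pr {r} = r`, `pr {r, s} = r s`; the proper subsets of `{r}`: `∅`; of `{r, s}`: `∅, {r}, {s}`. (4) definition of `ups`: only `A = L` contributes (`ups I [] c' L' = 0` for `L' ≠ ∅`). (5) `gUpsB` (5). -/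
def S_RfV : Prop := ∀ (I : ℕ → ℤ → ℤ) (c : ℤ) (p r s : ℕ), r ≠ s →
  Rf I c p ∅ = I p c ∧
  Rf I c p {r} = I r c * (I p c - I p (c * r)) ∧
  Rf I c p {r, s} = I p (c * (r * s)) * (I r (c * s) * I s (c * r)) - I r (c * s) * I s (c * r) * I p c +
    I s (c * r) * (I r c * (I p c - I p (c * r))) + I r (c * s) * (I s c * (I p c - I p (c * s))) ∧
  (∀ L : Finset ℕ, ups I [p] c L = Rf I c p L - Rf I (-c) p L) ∧
  ups I [p, r, s] c ∅ = (I p c - I p (-c)) * (I r c - I r (-c)) * (I s c - I s (-c))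

/-- **The recursion for functions supported on the sets containing `K`.**  By strong induction `Rz n v U = 0` if `K` is not contained in `U` (`Rz_eq`). The proper subsets `U` of `K`, `insert b K`, `insert b (insert r K)` which contain `K` are: none; `K`;
`K`, `insert b K`, `insert r K`; `Rz_eq`, `Finset.sum_subset` or `Finset.sum_eq_sum_diff_singleton_add`. -/
def S_RzK : Prop := ∀ (n : ℕ → Finset ℕ) (v : Finset ℕ → ℤ) (K : Finset ℕ), (∀ S, ¬ K ⊆ S → v S = 0) →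
  Rz n v K = v K ∧
  (∀ b, b ∉ K → Rz n v (insert b K) = v (insert b K) - kq n (insert b K) K * v K) ∧
  (∀ b r, b ∉ K → r ∉ K → b ≠ r → Rz n v (insert b (insert r K)) = v (insert b (insert r K)) -
    kq n (insert b (insert r K)) (insert b K) * (v (insert b K) - kq n (insert b K) K * v K) -
    kq n (insert b (insert r K)) (insert r K) * (v (insert r K) - kq n (insert r K) K * v K) -
    kq n (insert b (insert r K)) K * v K)

/-- **Three primes.**  `P = {a, b, q}`, `K = {a, q}`, `S_RzK` (2) for `v = vv [a] q`, `n = nr P` (`P = insert b K`). `vv [a] q K = ups Js [a] 1 ∅ = Js a 1 - Js a (-1) = 1` (`S_RfV` (4), (1); `S_Smg`: `Js a (-1) = 0`). `vv [a] q P = ups Js [a] 1 {b}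
= Js b 1 (Js a 1 - Js a b) - Js b (-1) (..) = 1 - Js a b` (`S_RfV` (4), (2)).
`kq n P K = 1` if exactly one of `sm a b`, `sm q b` is false (`P \ K = {b}`, `K ∩ nr P b` is the set of the `u ∈ K` for which `b` is not a square modulo `c4 u`), otherwise `0`. The value is `1 - Js a b - kq n P K`: `sm a b`, `sm q b`: `0`; `¬ sm a b`, `sm q b`:
`1 - 1 = 0`; `sm a b`, `¬ sm q b`: `-1`; both false: `1`.
Hypotheses you may use: `S_Smg`, `S_RfV`, `S_RzK`. -/
def S_Pa3 : Prop := ∀ a b q : ℕ, a.Prime → b.Prime → q.Prime → a ≠ b → (a = 2 ∨ a % 4 = 3) → (b = 2 ∨ b % 4 = 3) → q % 4 = 1 →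
  (2 ∣ Rz (nr {a, b, q}) (vv [a] q) {a, b, q} ↔ sm q b)

/-- **Four primes, the set `{q, r}`.**  `P = {a, b, q, r}`, `K = {q, r}`, `v = vv [q] r`, `n = nr P`; `P = insert a (insert b K)`, `S_RzK` (3). For the prime `p = 1` modulo `4` `Js p (-x) = Js p x` for `x` prime to `p`, for `p = 2` or `3` modulo `4`
`Js p (-x) = 1 - Js p x` (`S_Smg`). `v K = Js q 1 - Js q (-1) = 0`. `v (insert a K) = ups Js [q] 1 {a} = 1 - Js q a = 1` (`S_RfV`; `Js a (-1) = 0`), `v (insert b K) = 1 - Js q b = 0`. `v P = ups Js [q] 1 {a, b} = R(1) - R(-1)`, `R(c) = Rf Js c q {a, b}`: with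
`α = Js b a`, `β = Js a b`, `Js q a = 0`, `Js q b = 1`, `Js q (a b) = 0`:
`R(1) = -α β + α * (1 - 0) + β * (1 - 1) = α - α β`, `R(-1) = Js a (-b) Js b (-a) (Js q (a b) - 1) = -(1 - α)(1 - β)` (`Js a (-1) = Js b (-1) = 0`), so `v P = α - α β + (1 - α)(1 - β) = 1 - β`. `kq n P (insert a K) = 1` if and only if the number of `u ∈ {a, q, r}` with
`¬ sm u b` is odd; `sm q b`, `¬ sm r b`: if and only if `sm a b`, so it is `β`. The value is `1 - β - β * 1 = 1 - 2 β`: odd.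
Hypotheses you may use: `S_Smg`, `S_RfV`, `S_RzK`. -/
def S_Pa4 : Prop := ∀ a b q r : ℕ, a.Prime → b.Prime → q.Prime → r.Prime → a ≠ b → q ≠ r → (a = 2 ∨ a % 4 = 3) →
  (b = 2 ∨ b % 4 = 3) → q % 4 = 1 → r % 4 = 1 → ¬ sm q a → sm r a → sm q b → ¬ sm r b →
    ¬ 2 ∣ Rz (nr {a, b, q, r}) (vv [q] r) {a, b, q, r} ∧ Rz (nr {a, b, q, r}) (vv [a, b, q] r) {a, b, q, r} = 0

/-- **Four primes, the set `{a, q}`.**  `P = {a, b, q, r}`, `K = {a, q}`, `v = vv [a] q`, `n = nr P`; `P = insert b (insert r K)`, `S_RzK` (3). `Js a (-x) = 1 - Js a x`, `Js b (-x) = 1 - Js b x`, `Js r (-x) = Js r x` (`x` prime to `a`, `b`, `r`; `S_Smg`).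
Let `β = Js a b`, `ρ = Js a r`, `σ = Js b r`; `Js r b = 0`. `v K = 1`, `v (insert b K) = 1 - β`,
`v (insert r K) = ups Js [a] 1 {r} = Js r 1 (Js a 1 - Js a r) - Js r (-1) (Js a (-1) - Js a (-r)) = 2 (1 - ρ)`. `v P = R(1) - R(-1)`, `R(c) = Rf Js c a {b, r}`; as `Js r (c b) = 0` only the last term of `S_RfV` (3) remains: `R(c) = Js b (c r) Js r c (Js a c - Js a (c r))`,
`R(1) = σ (1 - ρ)`, `R(-1) = -(1 - σ)(1 - ρ)`, `v P = 1 - ρ`. `kq n P (insert r K) = β` (the elements of `{a, q, r}` modulo which `b` is not a square: `r`, and `a` if `β = 0`), `kq n P K = (1 - β)(1 - ρ)` (`b`: `a` if `β = 0`; `r`: `a` if `ρ = 0`), `kq n (insert b K) K = 1 - β`,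
`kq n (insert r K) K = 1 - ρ`. So `v (insert b K) - kq n (insert b K) K * v K = 0`, `v (insert r K) - kq n (insert r K) K * v K = 1 - ρ`, and the value is `(1 - ρ) - 0 - β (1 - ρ) - (1 - β)(1 - ρ) = 0`.
Hypotheses you may use: `S_Smg`, `S_RfV`, `S_RzK`. -/
def S_Pa5 : Prop := ∀ a b q r : ℕ, a.Prime → b.Prime → q.Prime → r.Prime → a ≠ b → q ≠ r → (a = 2 ∨ a % 4 = 3) →
  (b = 2 ∨ b % 4 = 3) → q % 4 = 1 → r % 4 = 1 → ¬ sm q a → sm r a → sm q b → ¬ sm r b → sm q r →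
    Rz (nr {a, b, q, r}) (vv [a] q) {a, b, q, r} = 0

/-! ## 3. The function of a pair of primes -/

/-- **Basic properties.**  `D = c4 p * c4 q = dT {p, q}`. The order of `-x` is the order of `x`, `hs (-y) = 1 - hs y` if `y ≠ -y`, in particular if the order of `y` is larger than `2`; if `x` has order `D` then `c4 q * x` has order `c4 p ≥ 3` and
`c4 p * x` has order `c4 q ≥ 3`; if `x` has order `c4 p` then `q x` has order `c4 p`, and so on. Parity: `F u = das m p q (el m D u) = hs (c4 q * el m D u) - hs (c4 p * el m D u)`; the list `l` has the elements `p, q`, so `l.erase q' = [p']`,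
`{p', q'} = {p, q}`, and `Cs (en D) [p'] F a = F a - F (e a)`, `e = en D p'`: `-1` modulo
`c4 p'`, `1` modulo `c4 q'` (`gEn` (1)). `p' = p`: `c4 q * el m D (e a) = -(c4 q * el m D a)` (`c4 q * el m D u = (m / c4 p) u.val` depends only on `u` modulo `c4 p`) and `c4 p * el m D (e a) = c4 p * el m D a`, so `F a - F (e a) = hs y - hs (-y) = 2 hs y - 1`,
`y = c4 q * el m D a` of order `c4 p ≥ 3`. The same for `p' = q`. -/
def S_DaB : Prop := ∀ (m : ℕ) [NeZero m] (p q : ℕ), p.Prime → q.Prime → p ≠ q → c4 p * c4 q ∣ m →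
  IsOdd (das m p q) ∧ (∀ x, das m p q x ≠ 0 → addOrderOf x ∣ dT {p, q}) ∧
    ∀ (d : ℕ) [NeZero d], d = dT {p, q} → OdP d fun u => das m p q (el m d u)

/-- **Stickelberger's relation.**  Let `g` be a unit. Claim: `∑_{ord x = c4 p c4 q} hs (c4 q x) sz(g x) = ∑_{ord z = c4 p} (hs z - hs (q z)) sz(g z)`. The left side is `∑_{ord y = c4 p} hs y ∑_{c4 q x = y, ord x = c4 q c4 p} sz(g x)` (`c4 q x` has order
`c4 p`; `Finset.sum_fiberwise_of_maps_to`). `z ↦ q z` is a bijection of the set of the elements of order `c4 p` (`q` is prime to `c4 p`), so put `y = q z`: by `gDsU` (with the prime `q`, `d = c4 p`) the inner sum is `sz(g q z) - sz(g z)`, and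
`∑_z hs (q z) sz(g q z) = ∑_z hs z sz(g z)`. Interchange `p` and `q` for the second claim.
`P (das m p q) g` is the sum over the elements of order `c4 p c4 q`, `c4 p` and `c4 q` (three different orders).
 -/
def S_DaR : Prop := ∀ (m : ℕ) [NeZero m] (p q : ℕ), p.Prime → q.Prime → p ≠ q → c4 p * c4 q ∣ m → Rl (das m p q)

/-- **Independence of the level.**  `D = c4 p * c4 q`. `das m p q x = h x - h (-x)` with `h x = max (das m p q x) 0` (`das` is odd: `S_DaB`), `h 0 = 0`, so `InA A (das m p q)` if and only if `cl h ∈ A` (definition, `gInA` (4)). For `k < D`: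
`das m p q ((m / D) k) = das D p q k` (the orders of `(m / D) k` in `ZMod m` and of `k` in `ZMod D` agree, `val ((m / D) y) = (m / D) val y`, so `hs ((m / D) y) = hs y`), and `das m p q x = 0` unless `x = (m / D) k` for some `k < D` (the order divides `D`),
`toAddCircle ((m / D) k) = k / D`
(`ZMod.toAddCircle_natCast`, `ZMod.toAddCircle_intCast`). So `cl h` does not depend on the level. (`A` contains `HD`, `gInA`.)
Hypotheses you may use: `S_DaB`. -/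
def S_DaI : Prop := ∀ (m m' : ℕ) [NeZero m] [NeZero m'] (p q : ℕ) (A : AddSubgroup (UnitAddCircle →₀ ℤ)), p.Prime → q.Prime →
  p ≠ q → c4 p * c4 q ∣ m → c4 p * c4 q ∣ m' → HD ≤ A → InA A (das m p q) → InA A (das m' p q)

/-- **Functionals of functions with odd parity.**  As in step (a) of `S_StK` (file `GT/StK.lean`, with `dT_eq`, `dt_eq`): `d = dt l q` is `Sqf`, its primes are those of `q :: l`. If `f x ≠ 0` and `lam l q x ≠ 0` then `d` divides the order of `x`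
(`gLamB` (5)), which divides `d`, so `x = el m d u` (`hEl`); so
`∑_x f x lam x = ∑_u F u lam (el m d u)` with `F u = f (el m d u)`, `= (q - 1) Cs (en d) l F a` by `gLamTop` with `t = 1` (invariance: the first part of `gParC` for the list `q :: l`, `(q :: l).erase q = l`; `Ind` by `pKpBas`, `Iv` and `KS = ⊤` by `gEn`,
`Tl = 0` by `pTopG`), and the last factor is odd by `OdP` (for the list `q :: l`). -/
def S_Fod : Prop := ∀ (m : ℕ) [NeZero m] (l : List ℕ) (q d : ℕ) [NeZero d], Pr l q → d = dt l q → d ∣ m →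
  ∀ f : ZMod m → ℤ, IsOdd f → Rl f → (∀ x, f x ≠ 0 → addOrderOf x ∣ d) → (OdP d fun u => f (el m d u)) →
    ∃ z : ℤ, ¬ 2 ∣ z ∧ ∑ x, f x * lam l q x = ((q : ℤ) - 1) * z

/-! ## 4. The pairs -/

/-- **Auxiliary primes.**  Dirichlet's theorem (`Nat.forall_exists_prime_gt_and_eq_mod` or `Nat.setOfPred_prime_and_eq_mod_infinite`, file `Mathlib/NumberTheory/LSeries/PrimesInAP.lean`). (1) `w = 3` modulo `4`, `w` not a square modulo `q` (`S_Smg`
(5)), a unit modulo `4 q`; a prime `a = w` modulo `4 q`. (2) in addition `w = 1` modulo `r`, modulus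
`4 q r` (`sm r 1`). Note `c4 q = q` (`q` is odd).
Hypotheses you may use: `S_Smg`. -/
def S_Dch : Prop := ∀ q : ℕ, q.Prime → q % 4 = 1 →
  (∃ a : ℕ, a.Prime ∧ a % 4 = 3 ∧ ¬ sm q a) ∧
  ∀ r : ℕ, r.Prime → r % 4 = 1 → r ≠ q → ∃ a : ℕ, a.Prime ∧ a % 4 = 3 ∧ ¬ sm q a ∧ sm r a

/-- **Pairs and sets of primes `2` or `3` modulo `4`.**  `HD ≤ GS ≤ A`. Second part of `GdA`: subsets of `T34` sets are `T34`; a nonempty subset with an even number of elements of `{p, q}`, `p ≠ q`, is `{p, q}`. Third part: `gGdQ` (`InA GS g` implies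
`InA A g`), `Pd`.
 -/
def S_GdU : Prop := ∀ (A : AddSubgroup (UnitAddCircle →₀ ℤ)) (Q : Finset ℕ → Prop), GS ≤ A →
  (∀ T, Q T → ∃ p q : ℕ, p ≠ q ∧ T = {p, q} ∧ Pd A p q) → ∀ (m : ℕ) [NeZero m], GdA m A fun T => T34 T ∨ Q T

/-- **Three primes.**  `P = {a, p, q}`, `M = dT P`, `F = das M p q`, `Θ = Rz (nr P) (Aq M) P`, `f = F - Θ`. `S34 P = {a, p}`, so `S_RlG` applies to `Θ`; `f` is odd and `Rl f` (`S_DaB`, `S_DaR`). `GdA M A Al` with `Al T = T34 T ∨ (T = {a, q} ∧ Pd A a q)`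
(`S_GdU`). `Chk Al f`: let `Ess M T`, `¬ Al T`; `T ⊆ M.primeFactors = P` is nonempty with an even number of elements and not `{a, p}` (which is `T34`), so `T = {p, q}` or `T = {a, q}`; take `t = 1`, the prime `q` and `l = [p]`, resp. `l = [a]` (`Pr l q`;
`dt [p] q = dT {p, q}`).
CASE `T = {p, q}`: `∑ F lam = (q - 1) z1`, `z1` odd (`S_Fod`, `S_DaB`), `∑ Θ lam = (q - 1) z2` (`S_TwV`), `z2` is odd by `S_Pa3` (with `a := p`, `b := a`; `{p, a, q} = {a, p, q}`), as `¬ sm q a`. So `∑ f lam = (q - 1) z` implies `z = z1 - z2`. CASE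
`T = {a, q}`: then `sm q p`. `∑ F lam = 0`: if `F x ≠ 0` its order divides `dT {p, q}`, which is not divisible by `a`, and `lam [a] q x ≠ 0` implies
`a ∣ dt [a] q ∣ addOrderOf x` (`gLamB` (5)). `∑ Θ lam = (q - 1) z2`, `2 ∣ z2` by `S_Pa3` (`b := p`).
`gGT`: `InA A f`, so `InA A F` (`gInA`; `InA GS Θ` by `S_RlG`). Finally let `Ess m {p, q}`: `D = dT {p, q} = c4 p * c4 q` divides `m` (and `M`); take `g = das m p q`: `S_DaI`, `S_DaB`, `S_DaR`.
Hypotheses you may use: `S_RlG`, `S_TwV`, `S_Pa3`, `S_DaB`, `S_DaR`, `S_DaI`, `S_Fod`, `S_GdU`. -/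
def S_ThB : Prop := ∀ (A : AddSubgroup (UnitAddCircle →₀ ℤ)) (a p q : ℕ), GS ≤ A → a.Prime → p.Prime → q.Prime → a ≠ p →
  (a = 2 ∨ a % 4 = 3) → (p = 2 ∨ p % 4 = 3) → q % 4 = 1 → ¬ sm q a → (sm q p ∨ Pd A a q) → Pd A p q

/-- **Four primes.**  `P = {a, b, q, r}`, `M = dT P`, `F = das M q r`, `Θ = Rz (nr P) (Aq M) P`, `f = F - Θ`, `S34 P = {a, b}`; `f` is odd and `Rl f`. `GdA M A Al` with `Al T = T34 T ∨ Q T`, `Q T`: `T = {b, q}`, or `T = {a, r}`, or `T = {a, q}` and `Pd A a q`,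
or `T = {b, r}` and `Pd A b r` (`S_GdU`). `Chk Al f` (`t = 1`): let `Ess M T`, `¬ Al T`; `T ⊆ P` nonempty with an even number of elements, so `T = {q, r}`, `{a, q}`, `{b, r}` or `P`.
`{q, r}`: prime `r`, `l = [q]`: `∑ F lam = (r - 1) z1`, `z1` odd (`S_Fod`), `∑ Θ lam = (r - 1) z2` (`S_TwV`), `z2` odd (`S_Pa4`). `{a, q}` (then `sm q r` and `sm r q`): prime `q`, `l = [a]`: `∑ F lam = 0` (`a` does not divide `dT {q, r}`),
`∑ Θ lam = 0` (`S_Pa5`). `{b, r}`: prime `r`,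
`l = [b]`, `S_Pa5` with `(b, a, r, q)` in place of `(a, b, q, r)` (`{b, a, r, q} = {a, b, q, r}`). `P`: prime `r`, `l = [a, b, q]`: `∑ F lam = 0`, `∑ Θ lam = 0` (`S_Pa4`). `gGT`, and the end as in `S_ThB`.
Hypotheses you may use: `S_RlG`, `S_TwV`, `S_Pa4`, `S_Pa5`, `S_DaB`, `S_DaR`, `S_DaI`, `S_Fod`, `S_GdU`. -/
def S_ThC : Prop := ∀ (A : AddSubgroup (UnitAddCircle →₀ ℤ)) (a b q r : ℕ), GS ≤ A → a.Prime → b.Prime → q.Prime → r.Prime →
  q ≠ r → (a = 2 ∨ a % 4 = 3) → (b = 2 ∨ b % 4 = 3) → q % 4 = 1 → r % 4 = 1 → ¬ sm q a → sm r a → sm q b → ¬ sm r b →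
    Pd A b q → Pd A a r → ((sm q r ∧ sm r q) ∨ (Pd A a q ∧ Pd A b r)) → Pd A q r

/-- **All pairs.**  `Pd A p q ↔ Pd A q p` (`Finset.pair_comm`), `Pd GS p q → Pd A p q`. (1) `a` from `S_Dch` (1); `a ≠ p` because `sm q p`; `S_ThB`. (2) `p = s`: given. `p ≠ s`: `S_ThB` with `a := s`. (3) `sm q r ↔ sm r q`: `ZMod.exists_sq_eq_prime_iff_of_mod_four_eq_one`
(`sm q r` is `IsSquare ((r : ℤ) : ZMod q)`). `a` from `S_Dch` (2) for `q, r`, `b` from `S_Dch` (2) for `r, q`; `Pd A b q`, `Pd A a r` by (1); `S_ThC`.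
Hypotheses you may use: `S_Dch`, `S_ThB`, `S_ThC`. -/
def S_PdA : Prop := ∀ (A : AddSubgroup (UnitAddCircle →₀ ℤ)), GS ≤ A →
  (∀ p q : ℕ, p.Prime → q.Prime → (p = 2 ∨ p % 4 = 3) → q % 4 = 1 → sm q p → Pd A p q) ∧
  (∀ q s : ℕ, q.Prime → q % 4 = 1 → s.Prime → (s = 2 ∨ s % 4 = 3) → ¬ sm q s → Pd A s q →
    ∀ p : ℕ, p.Prime → (p = 2 ∨ p % 4 = 3) → Pd A p q) ∧
  (∀ q r : ℕ, q.Prime → q % 4 = 1 → r.Prime → r % 4 = 1 → q ≠ r → (sm q r ∨ ((∀ p : ℕ, p.Prime → (p = 2 ∨ p % 4 = 3) → Pd A p q) ∧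
    ∀ p : ℕ, p.Prime → (p = 2 ∨ p % 4 = 3) → Pd A p r)) → Pd A q r)

/-- **The three tuples.**  `{2, 5}`, `{2, 13}`, `{3, 17}` with the tuples `w` of the levels `20`, `52`, `51` (in `tp` and in `tp3`). `Ess m {p, q}` gives `w.1 ∣ m`. As in `GT/Gm1.lean`, with `GF3`, `tp3` in place of `G13`, `tp`: `g` with `InA GF3 g`, `IsOdd g`,
`Rl g`, orders dividing `w.1 = dT {p, q}` and `g (el m w.1 u) = w.2.count u.val - w.2.count (w.1 - u.val)`; parity: `pGm2 gEn`. (If `Gm1.lean` has a lemma for a general group, use it.) -/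
def S_Gm3 : Prop := Pd GF3 2 5 ∧ Pd GF3 2 13 ∧ Pd GF3 3 17

/-- **The theorem on pairs.**  `S_GdU` with `Q T`: `T` has two elements, which are primes, and is as in `AlG`; the third part of `GdA` is only needed for `Ess m T` (the elements of `T` are primes), so it is enough to find `Pd A p q` for primes `p < q` with one of the three conditions (or
`T34 {p, q}`). `sm q p` is `IsSquare ((p : ℤ) : ZMod q)` for odd `q` (`c4 q = q`). `q % 4 = 1`, `p` a square modulo `q`: `p` is `2` or `3` modulo `4`: `S_PdA` (1); `p % 4 = 1`: `S_PdA` (3). The same with `p`, `q` interchanged (`Pd A p q ↔ Pd A q p`,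
`Finset.pair_comm`). `K p`, `K q`: both are `2` or `3` modulo `4`: `T34`; otherwise `S_PdA` (2), resp. (2) and (3) (for both). Instead of `S_GdU` one can prove `GdA` directly in the same way.
Hypotheses you may use: `S_GdU`, `S_PdA`. -/
def S_GdR : Prop := ∀ (A : AddSubgroup (UnitAddCircle →₀ ℤ)) (K : ℕ → Prop), GS ≤ A →
  (∀ p, K p → (p = 2 ∨ p % 4 = 3) ∨ (p % 4 = 1 ∧ ∃ s : ℕ, s.Prime ∧ (s = 2 ∨ s % 4 = 3) ∧ ¬ sm p s ∧ Pd A s p)) →
    ∀ (m : ℕ) [NeZero m], GdA m A (AlG K)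

/-- **Final statement.**  (1) `S_GdR` with `A = GF3`, `K = K4`: `¬ sm 5 2`, `¬ sm 13 2`, `¬ sm 17 3` (`decide` in `ZMod 5`, `ZMod 13`, `ZMod 17`), `S_Gm3`; `AlF` is `AlG K4` (unfold `Ex`). (2) `A = GS`, `K p = (p = 2 ∨ p % 4 = 3)`.
Hypotheses you may use: `S_Gm3`, `S_GdR`. -/
def S_GdL : Prop := (∀ (m : ℕ) [NeZero m], GdA m GF3 AlF) ∧
  ∀ (m : ℕ) [NeZero m], GdA m GS (AlG fun p => p = 2 ∨ p % 4 = 3)

end Pool.Agent.FO
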